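import Pool.Agent.Lib.TWEX.Two
import Pool.Agent.Lib.TWW.WM13

/-!
# TANK W, exit of the strict case, 5: control of polynomials, amounts, crossing

`t` a family of elements, `H` a family of polynomials with `H_i(0) = t_i` (the motions
`t ↦ H(d)`).
* `ctl_of_str`: strict jets of all the polynomials over `N` ⇒ finitely many of them are controlled by
  amounts `d` of value near `σ`;
* `str_of_arc`: strict jets from strict arcs which move every `t_i` by a polynomial;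
* `exists_amt`: rational functions of `U`, `p ^ s`-th powers, of value in a given interval, which are
  changed as little as we like;
* `lts_cross`: the leading term of `y ^ (p ^ j) - n`.
-/

set_option autoImplicit false

open Polynomial Finset Filter Topology

namespace Pool.Agent.TWEX

open Pool.Agent.H15JM (RVal)
open Pool.Agent.LU1 (VPos adj)
open Pool.Agent.D2 (Ctx0)
open Pool.Agent.D2P (mem_clI mem_adj_iff mem_adj_self)
open Pool.Agent.TWM
open Pool.Agent.TWLM (HSd Oi Arc)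
open Pool.Agent.TWN1 (Set0)

universe u'

variable {k Ω : Type u'} [Field k] [Field Ω] [Algebra k Ω] {v : RVal Ω}
  {N L : IntermediateField k Ω} {m : ℕ} {t : Fin m → Ω} {H : Fin m → Polynomial Ω} {σ : ℝ}

/-- Evaluation. -/
theorem eval_aeval_H (H : Fin m → Polynomial Ω) (d : Ω) (P : MvPolynomial (Fin m) N) :
    (MvPolynomial.aeval H P).eval d = MvPolynomial.aeval (fun i => (H i).eval d) P := by
  induction P using MvPolynomial.induction_on with
  | C c =>
    rw [MvPolynomial.aeval_C, MvPolynomial.aeval_C]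
    change (algebraMap N (Polynomial Ω) c).eval d = _
    rw [Polynomial.algebraMap_apply, eval_C]
  | add P Q hP hQ => rw [map_add, map_add, eval_add, hP, hQ]
  | mul_X P i hP => rw [map_mul, map_mul, eval_mul, hP, MvPolynomial.aeval_X, MvPolynomial.aeval_X]

/-- Coefficients of index `0`. -/
theorem coeff_zero_aeval_H (h0 : ∀ i, (H i).coeff 0 = t i) (P : MvPolynomial (Fin m) N) :
    (MvPolynomial.aeval H P).coeff 0 = MvPolynomial.aeval t P := by
  rw [coeff_zero_eq_eval_zero, eval_aeval_H]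
  congr 2
  funext i
  rw [← coeff_zero_eq_eval_zero, h0]

/-- The jets of the polynomials. -/
theorem coeff_aeval_H {Φ : ℕ → Ω → Ω} (h : HSd L Φ) (hNL : N ≤ L)
    (hN : ∀ x ∈ N, ∀ l : ℕ, l ≠ 0 → Φ l x = 0) (ht : ∀ i, t i ∈ L)
    (hH : ∀ i l, (H i).coeff l = Φ l (t i)) (P : MvPolynomial (Fin m) N) :
    MvPolynomial.aeval t P ∈ L ∧
      ∀ l, (MvPolynomial.aeval H P).coeff l = Φ l (MvPolynomial.aeval t P) := by
  induction P using MvPolynomial.induction_on with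
  | C c =>
    rw [MvPolynomial.aeval_C, MvPolynomial.aeval_C]
    refine ⟨hNL c.2, fun l => ?_⟩
    change (algebraMap N (Polynomial Ω) c).coeff l = Φ l (c : Ω)
    rw [Polynomial.algebraMap_apply, coeff_C]
    split_ifs with hl
    · rw [hl, h.c0 _ (hNL c.2)]
      rfl
    · rw [hN c c.2 l hl]
  | add P Q hP hQ =>
    rw [map_add, map_add]
    refine ⟨add_mem hP.1 hQ.1, fun l => ?_⟩
    rw [coeff_add, hP.2, hQ.2, h.add l _ hP.1 _ hQ.1]
  | mul_X P i hP =>
    rw [map_mul, map_mul, MvPolynomial.aeval_X, MvPolynomial.aeval_X]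
    refine ⟨mul_mem hP.1 (ht i), fun l => ?_⟩
    rw [coeff_mul, h.mul l _ hP.1 _ (ht i)]
    exact sum_congr rfl fun x _ => by rw [hP.2, hH]

/-- **Control.** -/
theorem ctl_of_str (h0 : ∀ i, (H i).coeff 0 = t i)
    (hstr : ∀ P : MvPolynomial (Fin m) N, P ≠ 0 → ∀ l : ℕ, l ≠ 0 →
      Gt v (v (MvPolynomial.aeval t P) - l * σ) ((MvPolynomial.aeval H P).coeff l))
    (T : Finset (MvPolynomial (Fin m) N)) (hT : ∀ P ∈ T, P ≠ 0) :
    ∃ ε : ℝ, 0 < ε ∧ ∀ d : Ω, v.Ge (σ - ε) d → ∀ P ∈ T,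
      v.Ge (v (MvPolynomial.aeval t P) + ε)
        (MvPolynomial.aeval (fun i => (H i).eval d) P - MvPolynomial.aeval t P) := by
  classical
  obtain ⟨ε, hε, h1⟩ := exists_margin T
    (fun P ε => ∀ d : Ω, v.Ge (σ - ε) d → v.Ge (v (MvPolynomial.aeval t P) + ε)
        (MvPolynomial.aeval (fun i => (H i).eval d) P - MvPolynomial.aeval t P))
    (fun P hP => by
      set Q := MvPolynomial.aeval H P with hQ
      -- the margin of the coefficients
      obtain ⟨η, hη, h2⟩ := exists_margin (Icc 1 Q.natDegree)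
        (fun l η => v.Ge (v (MvPolynomial.aeval t P) - l * σ + η) (Q.coeff l))
        (fun l hl => TWLM.exists_ge_of_gt (hstr P (hT P hP) l (by
          have := (mem_Icc.1 hl).1
          omega)))
        (fun l _ η η' hη h2 => h2.mono (by linarith))
      refine ⟨η / (Q.natDegree + 1), by positivity, fun d hd => ?_⟩
      have e : MvPolynomial.aeval (fun i => (H i).eval d) P - MvPolynomial.aeval t P =
          ∑ l ∈ Icc 1 Q.natDegree, Q.coeff l * d ^ l := by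
        rw [← eval_aeval_H, ← hQ, ← coeff_zero_aeval_H h0, ← hQ, eval_eq_sum_range, sum_row,
          pow_zero, mul_one, add_sub_cancel_left]
      rw [e]
      refine RVal.Ge.sum _ _ fun l hl => ((h2 l hl).mul (ge_pow hd l)).mono ?_
      have h3 : ((l : ℝ) + 1) * (η / (Q.natDegree + 1)) ≤ η := by
        rw [mul_div_assoc', div_le_iff₀ (by positivity), mul_comm]
        have h4 : (l : ℝ) ≤ Q.natDegree := by exact_mod_cast (mem_Icc.1 hl).2
        exact mul_le_mul_of_nonneg_left (by linarith) hη.le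
      linarith)
    (fun P _ η η' hη h2 d hd => (h2 d (hd.mono (by linarith))).mono (by linarith))
  exact ⟨ε, hε, fun d hd P hP => h1 P hP d hd⟩

/-- Strict jets from strict arcs. -/
theorem str_of_arc {Φ : ℕ → Ω → Ω} (h : Arc v L σ Φ) (hNL : N ≤ L)
    (hN : ∀ x ∈ N, ∀ l : ℕ, l ≠ 0 → Φ l x = 0) (ht : ∀ i, t i ∈ L)
    (hH : ∀ i l, (H i).coeff l = Φ l (t i)) (P : MvPolynomial (Fin m) N) {l : ℕ} (hl : l ≠ 0) :
    Gt v (v (MvPolynomial.aeval t P) - l * σ) ((MvPolynomial.aeval H P).coeff l) := by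
  obtain ⟨h1, h2⟩ := coeff_aeval_H h.toHSd hNL hN ht hH P
  obtain ⟨n, hn, h3⟩ := h.str l hl
  rw [h2]
  exact Gt.of_ge (h3 _ h1 _ (RVal.ge_self _)) (by linarith)

/-- The motion of `U` outside the radius. -/
theorem near_of_jets {Φ : ℕ → Ω → Ω} (h : HSd L Φ) (hNL : N ≤ L)
    (hN : ∀ x ∈ N, ∀ l : ℕ, l ≠ 0 → Φ l x = 0) (ht : ∀ i, t i ∈ L)
    (hH : ∀ i l, (H i).coeff l = Φ l (t i)) {P : MvPolynomial (Fin m) N} {R lam β : ℝ}
    (hβ : β ≤ lam)
    (hU : ∀ l : ℕ, l ≠ 0 → v.Ge (R - l * (σ - lam)) (Φ l (MvPolynomial.aeval t P))) {d : Ω}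
    (hd : v.Ge (σ - β) d) : v.Ge (R + (lam - β))
      (MvPolynomial.aeval (fun i => (H i).eval d) P - MvPolynomial.aeval t P) := by
  obtain ⟨h1, h2⟩ := coeff_aeval_H h hNL hN ht hH P
  set Q := MvPolynomial.aeval H P with hQ
  have h0 : ∀ i, (H i).coeff 0 = t i := fun i => by rw [hH, h.c0 _ (ht i)]
  have e : MvPolynomial.aeval (fun i => (H i).eval d) P - MvPolynomial.aeval t P =
      ∑ l ∈ Icc 1 Q.natDegree, Q.coeff l * d ^ l := by
    rw [← eval_aeval_H, ← hQ, ← coeff_zero_aeval_H h0, ← hQ, eval_eq_sum_range, sum_row,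
      pow_zero, mul_one, add_sub_cancel_left]
  rw [e]
  refine RVal.Ge.sum _ _ fun l hl => ?_
  have hl1 := (mem_Icc.1 hl).1
  rw [h2]
  refine ((hU l (by omega)).mul (ge_pow hd l)).mono ?_
  have h3 : (1 : ℝ) ≤ l := by exact_mod_cast hl1
  nlinarith

/-- **Amounts.** -/
theorem exists_amt [IsAlgClosed Ω] {p : ℕ} [hp : Fact p.Prime] [CharP Ω p] {U : Ω} {R g : ℝ}
    (hg : 0 < g) (hfar : ∀ θ : Ω, IsAlgebraic N θ → U ≠ θ ∧ v (U - θ) ≤ R)
    (hdense : ∀ a b : ℝ, a < b → ∃ c ∈ adj N U, c ≠ 0 ∧ a < v c ∧ v c < b) (A B : ℝ) :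
    ∃ s : ℕ, ∀ a b : ℝ, A ≤ a → a < b → ∃ f ∈ PI N, ∃ q ∈ PI N, f.eval U ≠ 0 ∧ q.eval U ≠ 0 ∧
      a < v ((f.eval U / q.eval U) ^ p ^ s) ∧ v ((f.eval U / q.eval U) ^ p ^ s) < b ∧
      ∀ U' : Ω, v.Ge (R + g) (U' - U) →
        v.Ge B ((f.eval U' / q.eval U') ^ p ^ s - (f.eval U / q.eval U) ^ p ^ s) := by
  obtain ⟨s, hs⟩ : ∃ s : ℕ, B - A ≤ p ^ s * g := by
    obtain ⟨s, hs⟩ := pow_unbounded_of_one_lt ((B - A) / g)
      (show (1 : ℝ) < p by exact_mod_cast hp.out.one_lt)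
    refine ⟨s, ?_⟩
    rw [div_lt_iff₀ hg] at hs
    exact hs.le
  have hps : (0 : ℝ) < (p : ℝ) ^ s := pow_pos (by exact_mod_cast hp.out.pos) s
  refine ⟨s, fun a b ha hab => ?_⟩
  obtain ⟨c, hc, hc0, h1, h2⟩ := hdense (a / p ^ s) (b / p ^ s) (div_lt_div_of_pos_right hab hps)
  rw [div_lt_iff₀ hps] at h1
  rw [lt_div_iff₀ hps] at h2
  rw [mem_adj_iff, IntermediateField.mem_adjoin_simple_iff] at hc
  obtain ⟨P, Q, rfl⟩ := hc
  have hPI : ∀ P : Polynomial N, P.map (algebraMap N Ω) ∈ PI N := fun P i => by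
    rw [coeff_map]
    exact (P.coeff i).2
  rw [← eval_map_algebraMap, ← eval_map_algebraMap] at hc0 h1 h2
  set f := P.map (algebraMap N Ω) with hf
  set q := Q.map (algebraMap N Ω) with hq
  have hf0 : f.eval U ≠ 0 := fun h => hc0 (by rw [h, zero_div])
  have hq0 : q.eval U ≠ 0 := fun h => hc0 (by rw [h, div_zero])
  have hv : v ((f.eval U / q.eval U) ^ p ^ s) = v (f.eval U / q.eval U) * p ^ s := by
    rw [v.map_pow hc0]
    push_cast
    ring
  refine ⟨f, hPI P, q, hPI Q, hf0, hq0, by rw [hv]; exact h1, by rw [hv]; exact h2,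
    fun U' hU' => ?_⟩
  have h3 := rat_close hg hfar (hPI P) (hPI Q) hU'
  rw [← hf, ← hq] at h3
  rw [← sub_pow_char_pow]
  refine (ge_pow h3 (p ^ s)).mono ?_
  push_cast
  nlinarith

/-- The values of `N(U)` are dense if those of its closure are. -/
theorem dense_adj {U : Ω} (hdense : ∀ a b : ℝ, a < b → ∃ c ∈ cadj v N U, c ≠ 0 ∧ a < v c ∧ v c < b)
    (a b : ℝ) (hab : a < b) : ∃ c ∈ adj N U, c ≠ 0 ∧ a < v c ∧ v c < b := by
  obtain ⟨c, hc, hc0, h1, h2⟩ := hdense a b hab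
  obtain ⟨c', hc', h3⟩ := mem_clI.1 hc (v c + 1)
  obtain ⟨h4, h5⟩ := Gt.val_eq hc0 (Gt.of_ge h3 (by linarith))
  exact ⟨c', hc', h4, by rw [h5]; exact h1, by rw [h5]; exact h2⟩

omit [Algebra k Ω] in
/-- **Crossing.** -/
theorem lts_cross {p : ℕ} [hp : Fact p.Prime] [CharP Ω p] {δ : ℕ → Ω} {ρ : ℝ} (hδ : TW.WM13.Sq v δ ρ)
    {y n : Ω} {j : ℕ} (hy : Gt v (p ^ j * ρ) (y ^ p ^ j - n)) :
    TW.WM13.LTs v δ (fun i => (y + δ i) ^ p ^ j - n) 1 ((p : ℤ) ^ j) := by
  refine ⟨one_ne_zero, ?_⟩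
  obtain ⟨η, hη, h1⟩ := TWLM.exists_ge_of_gt hy
  have hpj : (0 : ℝ) < (p : ℝ) ^ j := pow_pos (by exact_mod_cast hp.out.pos) j
  have h2 : ∀ᶠ i in atTop, v (δ i) < ρ + η / p ^ j :=
    hδ.lim.eventually_lt_const (by linarith [div_pos hη hpj])
  filter_upwards [h2] with i hi
  have e : (y + δ i) ^ p ^ j - n - 1 * δ i ^ ((p : ℤ) ^ j) = y ^ p ^ j - n := by
    rw [add_pow_char_pow, one_mul]
    have h3 : δ i ^ ((p : ℤ) ^ j) = δ i ^ p ^ j := by
      rw [← Nat.cast_pow, zpow_natCast]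
    rw [h3]
    ring
  rw [e, v.map_one, zero_add]
  refine Gt.of_ge h1 ?_
  have h3 : v (δ i) * p ^ j < (ρ + η / p ^ j) * p ^ j := mul_lt_mul_of_pos_right hi hpj
  have h4 : (ρ + η / p ^ j) * p ^ j = p ^ j * ρ + η := by
    field_simp
  push_cast
  linarith

end Pool.Agent.TWEX
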