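import Pool.Agent.Lib.TWEX.Two
import Pool.Agent.Lib.TWII.Soc

/-!
# TANK W, exit of the strict case, 6: the effect

* `null_jets`: the jets of an element which is critical of level `ν`: `Φ n x` is a `p`-th power modulo
  `{> ν - n σ}`, and it is in this module if `p ∤ n`;
* `effect`: if the coefficients of a polynomial `Q` are like this then `Q(d) - Q(0)` is a `p`-th power
  modulo `{≥ ν + ε}`, for `d` of value near `σ`.
-/

set_option autoImplicit false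

open Polynomial Finset

namespace Pool.Agent.TWEX

open Pool.Agent.H15JM (RVal)
open Pool.Agent.TWM
open Pool.Agent.TWII (PG LP)
open Pool.Agent.TWLM (HSd Oi Arc)

universe u'

variable {k Ω : Type u'} [Field k] [Field Ω] [Algebra k Ω] {v : RVal Ω}
  {F E : IntermediateField k Ω} {Φ : ℕ → Ω → Ω} {σ ν : ℝ} (p : ℕ) [hp : Fact p.Prime] [CharP Ω p]

/-- Null jets. -/
theorem null_jets (hΦ : Arc v F σ Φ) {x : Ω} (hx : x ∈ F) (h : LP p v F ν x) {n : ℕ} (hn : n ≠ 0) :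
    ∃ w ∈ F, (¬ p ∣ n → w = 0) ∧ Gt v (ν - n * σ) (Φ n x - w ^ p) := by
  obtain ⟨m, hm, h1⟩ := hΦ.str n hn
  obtain ⟨w, hw, h2⟩ := h ((n * σ - m) / 2) (by linarith)
  have h3 : Gt v (ν - n * σ) (Φ n x - Φ n (w ^ p)) := by
    rw [← hΦ.sub n hx (pow_mem hw p)]
    exact Gt.of_ge (h1 _ (sub_mem hx (pow_mem hw p)) _ h2) (by linarith)
  by_cases h4 : p ^ 1 ∣ n
  · obtain ⟨m, rfl⟩ := h4
    have h5 := hΦ.pow_mul p hw 1 m
    rw [pow_one] at h5 h3 ⊢
    rw [h5] at h3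
    exact ⟨Φ m w, hΦ.mem _ _ hw, fun h0 => absurd (Dvd.intro m rfl) h0, h3⟩
  · have h5 := hΦ.pow_zero p hw 1 n h4
    rw [pow_one] at h5
    rw [h5] at h3
    exact ⟨0, F.zero_mem, fun _ => rfl, by rwa [zero_pow hp.out.ne_zero]⟩

omit [hp : Fact p.Prime] [CharP Ω p] in
/-- Near elements. -/
theorem null_near {c : ℝ} {x x' w : Ω} (h : Gt v c (x - w)) (hx : Gt v c (x' - x)) :
    Gt v c (x' - w) := by
  have e : x' - w = (x' - x) + (x - w) := by ring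
  rw [e]
  exact hx.add h

/-- Dense subfields. -/
theorem null_dense (hd : ∀ x ∈ F, ∀ b : ℝ, ∃ x' ∈ E, v.Ge b (x - x')) {x : Ω} {n : ℕ} {c : ℝ}
    (h : ∃ w ∈ F, (¬ p ∣ n → w = 0) ∧ Gt v c (x - w ^ p)) :
    ∃ w ∈ E, (¬ p ∣ n → w = 0) ∧ Gt v c (x - w ^ p) := by
  obtain ⟨w, hw, h0, h1⟩ := h
  by_cases hn : p ∣ n
  · have hp0 : (0 : ℝ) < p := by exact_mod_cast hp.out.pos
    obtain ⟨w', hw', h2⟩ := hd w hw ((c + 1) / p)
    refine ⟨w', hw', fun h => absurd hn h, ?_⟩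
    have e : x - w' ^ p = (x - w ^ p) + (w - w') ^ p := by
      rw [sub_pow_char]
      ring
    rw [e]
    refine h1.add (Gt.of_ge (ge_pow h2 p) ?_)
    rw [mul_div_cancel₀ _ hp0.ne']
    linarith
  · exact ⟨0, E.zero_mem, fun _ => rfl, by rw [← h0 hn]; exact h1⟩

/-- **The effect.** -/
theorem effect {Q : Polynomial Ω}
    (hQ : ∀ l : ℕ, l ≠ 0 → ∃ w ∈ E, (¬ p ∣ l → w = 0) ∧ Gt v (ν - l * σ) (Q.coeff l - w ^ p)) :
    ∃ ε : ℝ, 0 < ε ∧ ∀ d ∈ E, v.Ge (σ - ε) d →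
      ∃ b ∈ E, v.Ge (ν + ε) (Q.eval d - Q.coeff 0 - b ^ p) := by
  classical
  choose! w hw hw0 hw1 using hQ
  obtain ⟨η, hη, h1⟩ := exists_margin (Icc 1 Q.natDegree)
    (fun l η => v.Ge (ν - l * σ + η) (Q.coeff l - w l ^ p))
    (fun l hl => TWLM.exists_ge_of_gt (hw1 l (by
      have := (mem_Icc.1 hl).1
      omega)))
    (fun l _ η η' hη h2 => h2.mono (by linarith))
  refine ⟨η / (Q.natDegree + 1), by positivity, fun d hd hdv => ?_⟩
  refine ⟨∑ l ∈ Icc 1 Q.natDegree, w l * d ^ (l / p), sum_mem fun l hl =>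
    mul_mem (hw l (by have := (mem_Icc.1 hl).1; omega)) (pow_mem hd _), ?_⟩
  have e : Q.eval d - Q.coeff 0 - (∑ l ∈ Icc 1 Q.natDegree, w l * d ^ (l / p)) ^ p =
      ∑ l ∈ Icc 1 Q.natDegree, (Q.coeff l - w l ^ p) * d ^ l := by
    rw [eval_eq_sum_range, sum_row, pow_zero, mul_one, add_sub_cancel_left, sum_pow_char,
      ← sum_sub_distrib]
    refine sum_congr rfl fun l hl => ?_
    have hl1 := (mem_Icc.1 hl).1
    by_cases h2 : p ∣ l
    · rw [mul_pow, ← pow_mul, Nat.div_mul_cancel h2]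
      ring
    · rw [hw0 l (by omega) h2, zero_mul, zero_pow hp.out.ne_zero, sub_zero, sub_zero]
  rw [e]
  refine RVal.Ge.sum _ _ fun l hl => ((h1 l hl).mul (ge_pow hdv l)).mono ?_
  have h3 : ((l : ℝ) + 1) * (η / (Q.natDegree + 1)) ≤ η := by
    rw [mul_div_assoc', div_le_iff₀ (by positivity), mul_comm]
    have h4 : (l : ℝ) ≤ Q.natDegree := by exact_mod_cast (mem_Icc.1 hl).2
    exact mul_le_mul_of_nonneg_left (by linarith) hη.le
  linarith

end Pool.Agent.TWEX
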