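import Pool.Agent.Lib.TWEX.KArc0
import Pool.Agent.Lib.TWEX.Eff
import Pool.Agent.Lib.TWEX.Ctl
import Pool.Agent.Lib.TWMF.X3

/-!
# TANK W, exit of the strict case: the effect data over `k`

`eff_data`: `KArc0` over `N₀ = k(x)`, `a` critical of level `ν`.  There is `R = P(T) / q(T)`, `P`, `q`
polynomials over `k` in `T = (x, y, u, w)`, `q` in the variable `0` only, which is near `a` and such
that the coefficients of `P(H) / q(T)` of positive index are `p`-th powers modulo `{> ν - l σ}`.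
-/

set_option autoImplicit false

open Polynomial Finset

namespace Pool.Agent.TWEX

open Pool.Agent.H15JM (RVal)
open Pool.Agent.D2P (clI mem_clI)
open Pool.Agent.TWM
open Pool.Agent.TWII (PG LP)
open Pool.Agent.TWLM (HSd Oi Arc)

universe u'

variable {k Ω : Type u'} [Field k] [Field Ω] [Algebra k Ω] {v : RVal Ω}

/-- `N₀[y, u, w]` is dense. -/
theorem KArc0.dense {p : ℕ} {N₀ N L : IntermediateField k Ω} {y u w : Ω} {σ r s : ℝ}
    {D Ψ : ℕ → Ω → Ω} [IsAlgClosed Ω] (h : KArc0 p v N₀ N y σ D L u w r s Ψ) :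
    ∀ x ∈ L, ∀ b : ℝ, ∃ c ∈ Adn N₀ {y, u, w}, v.Ge b (x - c) := by
  have hd1 : ∀ x ∈ cadj v N y, ∀ b : ℝ, ∃ c ∈ Adn N₀ {y}, v.Ge b (x - c) := by
    intro x hx b
    obtain ⟨f, hf, h1⟩ := h.fl.dense x hx b
    obtain ⟨g, hg, h2⟩ := approx_poly (R := N₀) h.den0 y hf b
    refine ⟨g.eval y, eval_mem_adn (Set.mem_singleton y) fun i => mem_adn_of_mem (hg i), ?_⟩
    have e : x - g.eval y = (x - f.eval y) + (f.eval y - g.eval y) := by ring
    rw [e]
    exact h1.add h2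
  have hd2 : ∀ x ∈ cadj v (cadj v N y) u, ∀ b : ℝ, ∃ c ∈ Adn N₀ {y, u}, v.Ge b (x - c) := by
    intro x hx b
    obtain ⟨f, hf, h1⟩ := h.tu.dense hx b
    obtain ⟨g, hg, h2⟩ := approx_poly hd1 u hf b
    refine ⟨g.eval u, eval_mem_adn (Set.mem_insert_of_mem _ (Set.mem_singleton u)) fun i =>
      Algebra.adjoin_mono (Set.singleton_subset_iff.2 (Set.mem_insert _ _)) (hg i), ?_⟩
    have e : x - g.eval u = (x - f.eval u) + (f.eval u - g.eval u) := by ring
    rw [e]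
    exact h1.add h2
  intro x hx b
  rw [h.eq] at hx
  obtain ⟨f, hf, h1⟩ := h.tz.dense hx b
  obtain ⟨g, hg, h2⟩ := approx_poly hd2 w hf b
  refine ⟨g.eval w, eval_mem_adn (by simp) fun i =>
    Algebra.adjoin_mono (by
      intro z hz
      rcases hz with rfl | hz
      · simp
      · rw [Set.mem_singleton_iff.1 hz]
        simp) (hg i), ?_⟩
  have e : x - g.eval w = (x - f.eval w) + (f.eval w - g.eval w) := by ring
  rw [e]
  exact h1.add h2

/-- Quotients of polynomials, the denominator in the variable `0` only. -/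
def Q0 (k : Type u') {Ω : Type u'} [Field k] [Field Ω] [Algebra k Ω] (T : Fin 4 → Ω) (R : Ω) :
    Prop :=
  ∃ P : MvPolynomial (Fin 4) k, ∃ q : k[X], Polynomial.aeval (T 0) q ≠ 0 ∧
    R = MvPolynomial.aeval T P / Polynomial.aeval (T 0) q

theorem aeval_X0 (T : Fin 4 → Ω) (q : k[X]) :
    MvPolynomial.aeval T (Polynomial.aeval (MvPolynomial.X 0 : MvPolynomial (Fin 4) k) q) =
      Polynomial.aeval (T 0) q := by
  rw [← Polynomial.aeval_algHom_apply, MvPolynomial.aeval_X]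

theorem Q0.add {T : Fin 4 → Ω} {R S : Ω} (hR : Q0 k T R) (hS : Q0 k T S) : Q0 k T (R + S) := by
  obtain ⟨P, q, hq, rfl⟩ := hR
  obtain ⟨P', q', hq', rfl⟩ := hS
  refine ⟨P * Polynomial.aeval (MvPolynomial.X 0) q' + P' * Polynomial.aeval (MvPolynomial.X 0) q,
    q * q', ?_, ?_⟩
  · rw [_root_.map_mul]
    exact mul_ne_zero hq hq'
  · rw [_root_.map_add, _root_.map_mul, _root_.map_mul, aeval_X0, aeval_X0, _root_.map_mul]
    field_simp

theorem Q0.mul {T : Fin 4 → Ω} {R S : Ω} (hR : Q0 k T R) (hS : Q0 k T S) : Q0 k T (R * S) := by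
  obtain ⟨P, q, hq, rfl⟩ := hR
  obtain ⟨P', q', hq', rfl⟩ := hS
  refine ⟨P * P', q * q', ?_, ?_⟩
  · rw [_root_.map_mul]
    exact mul_ne_zero hq hq'
  · rw [_root_.map_mul, _root_.map_mul]
    field_simp

theorem Q0.of_adn {T : Fin 4 → Ω} {N₀ : IntermediateField k Ω}
    (hN₀ : N₀ = IntermediateField.adjoin k {T 0}) {S : Set Ω} (hS : ∀ x ∈ S, ∃ i, T i = x) {R : Ω}
    (hR : R ∈ Adn N₀ S) : Q0 k T R := by
  induction hR using Algebra.adjoin_induction with
  | mem x hx =>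
    obtain ⟨i, rfl⟩ := hS x hx
    exact ⟨MvPolynomial.X i, 1, by rw [_root_.map_one]; exact one_ne_zero, by
      rw [MvPolynomial.aeval_X, _root_.map_one, div_one]⟩
  | algebraMap c =>
    obtain ⟨c, hc⟩ := c
    rw [hN₀, IntermediateField.mem_adjoin_simple_iff] at hc
    obtain ⟨f, g, rfl⟩ := hc
    show Q0 k T (Polynomial.aeval (T 0) f / Polynomial.aeval (T 0) g)
    by_cases hg : Polynomial.aeval (T 0) g = 0
    · refine ⟨0, 1, by rw [_root_.map_one]; exact one_ne_zero, ?_⟩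
      rw [hg, div_zero, _root_.map_zero, zero_div]
    · exact ⟨Polynomial.aeval (MvPolynomial.X 0) f, g, hg, by rw [aeval_X0]⟩
  | add x y _ _ hx hy => exact hx.add hy
  | mul x y _ _ hx hy => exact hx.mul hy

/-- Constants. -/
theorem hsd_smul {F : IntermediateField k Ω} {Φ : ℕ → Ω → Ω} (hΦ : HSd F Φ) {c x : Ω} (hc : c ∈ F)
    (hx : x ∈ F) (hc0 : ∀ l : ℕ, l ≠ 0 → Φ l c = 0) (l : ℕ) : Φ l (c * x) = c * Φ l x := by
  rw [hΦ.mul l c hc x hx, Finset.sum_eq_single (0, l)]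
  · rw [hΦ.c0 c hc]
  · rintro ⟨i, j⟩ hij hne
    have h1 : i ≠ 0 := by
      rintro rfl
      rw [Finset.HasAntidiagonal.mem_antidiagonal, zero_add] at hij
      have hij' : j = l := hij
      exact hne (by rw [hij'])
    rw [hc0 i h1, zero_mul]
  · intro h1
    exact absurd (Finset.HasAntidiagonal.mem_antidiagonal.2 (zero_add l)) h1

/-- **The effect data over `k`.** -/
theorem eff_data {p : ℕ} [Fact p.Prime] [CharP Ω p] [IsAlgClosed Ω]
    {N₀ N L : IntermediateField k Ω} {x y u w : Ω} {σ r s ν : ℝ} {D Ψ : ℕ → Ω → Ω}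
    (h : KArc0 p v N₀ N y σ D L u w r s Ψ) (hN₀ : N₀ = IntermediateField.adjoin k {x})
    {H : Fin 4 → Polynomial Ω} (hH : ∀ i l, (H i).coeff l = Ψ l (![x, y, u, w] i)) {a : Ω}
    (ha : a ∈ L) (hlim : LP p v L ν a) (B : ℝ) :
    ∃ (P q : MvPolynomial (Fin 4) k) (R : Ω), (∀ j ∈ q.vars, j = 0) ∧
      (∀ T' : Fin 4 → Ω, T' 0 = x → MvPolynomial.aeval T' q =
        MvPolynomial.aeval ![x, y, u, w] q) ∧
      MvPolynomial.aeval ![x, y, u, w] q ≠ 0 ∧
      MvPolynomial.aeval H q = C (MvPolynomial.aeval ![x, y, u, w] q) ∧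
      R = MvPolynomial.aeval ![x, y, u, w] P / MvPolynomial.aeval ![x, y, u, w] q ∧
      R ∈ Adn N₀ {y, u, w} ∧ R ∈ L ∧ v.Ge B (a - R) ∧ LP p v L ν R ∧
      ∀ l : ℕ, l ≠ 0 → (MvPolynomial.aeval H P).coeff l / MvPolynomial.aeval ![x, y, u, w] q =
        Ψ l R ∧ ∃ w' ∈ L, (¬ p ∣ l → w' = 0) ∧
        Gt v (ν - l * σ) ((MvPolynomial.aeval H P).coeff l /
          MvPolynomial.aeval ![x, y, u, w] q - w' ^ p) := by
  have hNL : N ≤ L := by
    rw [h.eq]
    exact (le_cadj v N y).trans ((le_cadj v _ u).trans (le_cadj v _ w))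
  have hCL : cadj v N y ≤ L := by
    rw [h.eq]
    exact (le_cadj v _ u).trans (le_cadj v _ w)
  have hx0 : x ∈ N₀ := by
    rw [hN₀]
    exact IntermediateField.mem_adjoin_simple_self k x
  have hTL : ∀ i, (![x, y, u, w] : Fin 4 → Ω) i ∈ L := by
    intro i
    fin_cases i
    · exact hNL (h.le0 hx0)
    · exact hCL (self_mem_cadj v N y)
    · show u ∈ L
      rw [h.eq]
      exact le_cadj v _ w (self_mem_cadj v _ u)
    · show w ∈ L
      rw [h.eq]
      exact self_mem_cadj v _ w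
  have hconst : ∀ c ∈ N, ∀ l : ℕ, l ≠ 0 → Ψ l c = 0 := by
    intro c hc l hl
    rw [h.ext l c (le_cadj v N y hc)]
    exact h.fl.const hc hl
  obtain ⟨R, hR, h1⟩ := h.dense a ha (max B (ν + 1))
  obtain ⟨P, q₀, hq0, h2⟩ := Q0.of_adn (T := ![x, y, u, w]) (N₀ := N₀) hN₀ (S := {y, u, w})
    (by
      rintro z (rfl | rfl | hz)
      · exact ⟨1, rfl⟩
      · exact ⟨2, rfl⟩
      · rw [Set.mem_singleton_iff.1 hz]
        exact ⟨3, rfl⟩) hR
  obtain ⟨q, hq⟩ : ∃ q : MvPolynomial (Fin 4) k,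
      q = Polynomial.aeval (MvPolynomial.X 0 : MvPolynomial (Fin 4) k) q₀ := ⟨_, rfl⟩
  have hqT : ∀ T' : Fin 4 → Ω, MvPolynomial.aeval T' q = Polynomial.aeval (T' 0) q₀ := by
    intro T'
    rw [hq, aeval_X0]
  have hqx : MvPolynomial.aeval ![x, y, u, w] q = Polynomial.aeval x q₀ := hqT _
  have hqN : MvPolynomial.aeval ![x, y, u, w] q ∈ N₀ := by
    rw [hqx]
    have h3 := Polynomial.aeval_algHom_apply N₀.val (⟨x, hx0⟩ : N₀) q₀
    have h4 : Polynomial.aeval x q₀ = N₀.val (Polynomial.aeval (⟨x, hx0⟩ : N₀) q₀) := h3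
    rw [h4]
    exact (Polynomial.aeval (⟨x, hx0⟩ : N₀) q₀).2
  have hRL : R ∈ L := by
    have h3 : MvPolynomial.aeval ![x, y, u, w] P ∈ L := by
      have := TW.P4.aeval_mem (E := L) hTL P
      exact this
    rw [h2]
    refine div_mem h3 ?_
    rw [← hqT]
    exact hNL (h.le0 hqN)
  have hlimR : LP p v L ν R := by
    intro ε hε
    obtain ⟨g, hg, h3⟩ := hlim ε hε
    refine ⟨g, hg, ?_⟩
    have e : R - g ^ p = (a - g ^ p) - (a - R) := by ring
    rw [e]
    exact h3.sub (h1.mono ((by linarith : ν - ε ≤ ν + 1).trans (le_max_right _ _)))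
  have hcoeff := coeff_aeval_H (N := (⊥ : IntermediateField k Ω)) h.arc.toHSd bot_le
    (fun c hc l hl => by
      obtain ⟨c', rfl⟩ := IntermediateField.mem_bot.1 hc
      exact h.arc.con l hl c') hTL hH
  have hmap : ∀ P : MvPolynomial (Fin 4) k,
      MvPolynomial.aeval ![x, y, u, w] P ∈ L ∧ ∀ l, (MvPolynomial.aeval H P).coeff l =
        Ψ l (MvPolynomial.aeval ![x, y, u, w] P) := by
    intro P
    have h3 := hcoeff (MvPolynomial.map (algebraMap k (⊥ : IntermediateField k Ω)) P)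
    rw [MvPolynomial.aeval_map_algebraMap, MvPolynomial.aeval_map_algebraMap] at h3
    exact h3
  refine ⟨P, q, R, ?_, fun T' hT' => ?_, ?_, ?_, ?_, hR, hRL, h1.mono (le_max_left _ _), hlimR, ?_⟩
  · intro j hj
    rw [hq, Polynomial.aeval_eq_sum_range] at hj
    have h3 := MvPolynomial.vars_sum_subset _ _ hj
    rw [Finset.mem_biUnion] at h3
    obtain ⟨i, -, h4⟩ := h3
    have h5 := MvPolynomial.vars_pow (MvPolynomial.X 0 : MvPolynomial (Fin 4) k) i
    have h6 : j ∈ (MvPolynomial.X 0 ^ i : MvPolynomial (Fin 4) k).vars := by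
      rw [MvPolynomial.smul_eq_C_mul] at h4
      have h7 := MvPolynomial.vars_mul _ _ h4
      rw [MvPolynomial.vars_C, Finset.empty_union] at h7
      exact h7
    have h7 := h5 h6
    rw [MvPolynomial.vars_X, Finset.mem_singleton] at h7
    exact h7
  · rw [hqT, hT', hqx]
  · rw [hqx]
    exact hq0
  · have h3 : (MvPolynomial.aeval H q).natDegree = 0 := by
      rw [Polynomial.natDegree_eq_zero_iff_degree_le_zero, Polynomial.degree_le_zero_iff]
      ext l
      rw [Polynomial.coeff_C]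
      split_ifs with hl
      · rw [hl]
      · rw [(hmap q).2 l]
        exact hconst _ (h.le0 hqN) l hl
    rw [Polynomial.natDegree_eq_zero] at h3
    obtain ⟨c, hc⟩ := h3
    rw [← hc]
    congr 1
    have h4 := (hmap q).2 0
    rw [← hc, Polynomial.coeff_C_zero, h.arc.c0 _ (hmap q).1] at h4
    exact h4
  · rw [hqx]
    exact h2
  · intro l hl
    have hq1 : MvPolynomial.aeval ![x, y, u, w] q ≠ 0 := by
      rw [hqx]
      exact hq0
    have h3 : (MvPolynomial.aeval H P).coeff l / MvPolynomial.aeval ![x, y, u, w] q = Ψ l R := by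
      rw [(hmap P).2 l, div_eq_iff hq1]
      have h4 : MvPolynomial.aeval ![x, y, u, w] P = MvPolynomial.aeval ![x, y, u, w] q * R := by
        rw [h2, hqx]
        have h5 : Polynomial.aeval ((![x, y, u, w] : Fin 4 → Ω) 0) q₀ ≠ 0 := hq0
        have h6 : Polynomial.aeval ((![x, y, u, w] : Fin 4 → Ω) 0) q₀ =
          Polynomial.aeval x q₀ := rfl
        rw [h6] at h5 ⊢
        field_simp
      rw [h4, hsd_smul h.arc.toHSd (hNL (h.le0 hqN)) hRL (hconst _ (h.le0 hqN)) l]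
      ring
    refine ⟨h3, ?_⟩
    rw [h3]
    exact null_jets p h.arc hRL hlimR hl

/-- **The effect data**, in the form of `motE_of_xd`. -/
theorem exists_ed {p : ℕ} [Fact p.Prime] [CharP Ω p] [IsAlgClosed Ω]
    {N₀ N L : IntermediateField k Ω} {x y u w : Ω} {σ r s ν : ℝ} {D Ψ : ℕ → Ω → Ω}
    (h : KArc0 p v N₀ N y σ D L u w r s Ψ) (hN₀ : N₀ = IntermediateField.adjoin k {x})
    {H : Fin 4 → Polynomial Ω} (hH : ∀ i l, (H i).coeff l = Ψ l (![x, y, u, w] i)) {a : Ω}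
    (ha : a ∈ L) (hlim : LP p v L ν a) (B : ℝ) :
    ∃ P Q : MvPolynomial (Fin 4) k, TWMF.ED p v L ![x, y, u, w] H σ ν B a P Q := by
  obtain ⟨P, q, R, -, -, h1, h2, h3, -, -, h4, -, h5⟩ := eff_data h hN₀ hH ha hlim B
  refine ⟨P, q, h1, h2, ?_, fun l hl => (h5 l hl).2⟩
  rw [← h3]
  exact h4

end Pool.Agent.TWEX
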