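import Pool.Agent.Lib.TWEX.KArc

/-!
# TANK W, leaf (II) over a complete field: the arc, with jets over a dense subfield

`KArc0`: the same as `KArc`, the jets of `u` and `z` are in `N₀[y]` and in `N₀[y, u]`, where `N₀` is a
dense subfield of `N`.
-/

set_option autoImplicit false

open Polynomial Finset

namespace Pool.Agent.TWEX

open Pool.Agent.H15JM (RVal)
open Pool.Agent.TWM
open Pool.Agent.TWLM (HSd Oi Arc)
open Pool.Agent.TWN1 (Set0)
open Pool.Agent.TWII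

universe u'

variable {k Ω : Type u'} [Field k] [Field Ω] [Algebra k Ω] {v : RVal Ω}

/-- `N₀[S]`. -/
abbrev Adn (N₀ : IntermediateField k Ω) (S : Set Ω) : Subalgebra N₀ Ω := Algebra.adjoin N₀ S

/-- `KArc`, with the jets over the dense subfield `N₀` of `N`. -/
structure KArc0 (p : ℕ) (v : RVal Ω) (N₀ N : IntermediateField k Ω) (y : Ω) (σ : ℝ)
    (D : ℕ → Ω → Ω) (K : IntermediateField k Ω) (u z : Ω) (r s : ℝ) (Ψ : ℕ → Ω → Ω) : Prop
    extends KArc p v N y σ D K u z r s Ψ where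
  le0 : N₀ ≤ N
  den0 : ∀ x ∈ N, ∀ b : ℝ, ∃ c ∈ N₀, v.Ge b (x - c)
  ju0 : ∀ l : ℕ, l ≠ 0 → ∃ f ∈ PI N₀, Ψ l u = f.eval y
  jz0 : ∀ l : ℕ, l ≠ 0 → Ψ l z ∈ Adn N₀ {y, u}

/-- Rings which are stable under a Hasse-Schmidt derivation. -/
theorem adn_stable {C N₀ : IntermediateField k Ω} {Φ : ℕ → Ω → Ω} (hΦ : HSd C Φ) (hN₀ : N₀ ≤ C)
    (hc : ∀ x ∈ N₀, ∀ n : ℕ, n ≠ 0 → Φ n x = 0) {S : Set Ω} (hS : ∀ x ∈ S, x ∈ C)
    (hSΦ : ∀ x ∈ S, ∀ n : ℕ, n ≠ 0 → Φ n x ∈ Adn N₀ S) :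
    ∀ x ∈ Adn N₀ S, x ∈ C ∧ ∀ n : ℕ, Φ n x ∈ Adn N₀ S := by
  intro x hx
  induction hx using Algebra.adjoin_induction with
  | mem x hx =>
    refine ⟨hS x hx, fun n => ?_⟩
    by_cases hn : n = 0
    · rw [hn, hΦ.c0 x (hS x hx)]
      exact Algebra.subset_adjoin hx
    · exact hSΦ x hx n hn
  | algebraMap c =>
    refine ⟨hN₀ c.2, fun n => ?_⟩
    by_cases hn : n = 0
    · have h1 := hΦ.c0 (algebraMap N₀ Ω c) (hN₀ c.2)
      rw [hn, h1]
      exact Subalgebra.algebraMap_mem _ c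
    · have h1 := hc (algebraMap N₀ Ω c) c.2 n hn
      rw [h1]
      exact zero_mem _
  | add x y _ _ hx hy =>
    refine ⟨add_mem hx.1 hy.1, fun n => ?_⟩
    rw [hΦ.add n x hx.1 y hy.1]
    exact add_mem (hx.2 n) (hy.2 n)
  | mul x y _ _ hx hy =>
    refine ⟨mul_mem hx.1 hy.1, fun n => ?_⟩
    rw [hΦ.mul n x hx.1 y hy.1]
    exact sum_mem fun i _ => mul_mem (hx.2 i.1) (hy.2 i.2)

/-- Polynomials with coefficients in a dense subring. -/
theorem approx_poly {C : IntermediateField k Ω} {α : Type*} [SetLike α Ω] [SubringClass α Ω]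
    {R : α} (hR : ∀ x ∈ C, ∀ b : ℝ, ∃ c ∈ R, v.Ge b (x - c)) (w : Ω) {f : Polynomial Ω} (hf : f ∈ PI C)
    (b : ℝ) : ∃ g : Polynomial Ω, (∀ i, g.coeff i ∈ R) ∧ v.Ge b (f.eval w - g.eval w) := by
  classical
  have h1 : ∀ i : ℕ, ∃ c ∈ R, v.Ge (b - i * v w) (f.coeff i - c) := fun i => hR _ (hf i) _
  choose c hc hfc using h1
  refine ⟨∑ i ∈ range (f.natDegree + 1), Polynomial.C (c i) * X ^ i, fun i => ?_, ?_⟩
  · rw [finsetSum_coeff]
    refine sum_mem fun j _ => ?_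
    rw [coeff_C_mul_X_pow]
    split_ifs
    exacts [hc j, zero_mem _]
  · rw [eval_eq_sum_range, eval_finsetSum, ← sum_sub_distrib]
    refine RVal.Ge.sum _ _ fun i _ => ?_
    have e : f.coeff i * w ^ i - eval w (Polynomial.C (c i) * X ^ i) = (f.coeff i - c i) * w ^ i := by
      rw [eval_mul, eval_C, eval_pow, eval_X]
      ring
    rw [e]
    have h2 : v.Ge (i * v w) (w ^ i) := by
      by_cases hw : w = 0
      · by_cases hi : i = 0
        · rw [hi, pow_zero]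
          exact fun _ => by rw [v.map_one]; simp
        · rw [hw, zero_pow hi]
          exact RVal.Ge.zero
      · exact fun _ => by rw [v.map_pow hw]
    exact ((hfc i).mul h2).mono (by linarith)

/-- Existence of the jets in a dense stable subring. -/
theorem exists_set0_dense {C : IntermediateField k Ω} {Φ : ℕ → Ω → Ω} {w : Ω} {ρ σ : ℝ}
    (hΦ : HSd C Φ) (hoi : Oi v C σ Φ)
    (hstr : ∀ n : ℕ, n ≠ 0 → ∃ η : ℝ, 0 < η ∧ ∀ x ∈ C, ∀ b, v.Ge b x → v.Ge (b - n * σ + η) (Φ n x))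
    (hw : TL v C w ρ) {α : Type*} [SetLike α Ω] [SubringClass α Ω] {R : α} (hRC : ∀ x ∈ R, x ∈ C)
    (hRd : ∀ x ∈ C, ∀ b : ℝ, ∃ c ∈ R, v.Ge b (x - c)) (hRΦ : ∀ x ∈ R, ∀ n : ℕ, Φ n x ∈ R) :
    ∃ (Z : PowerSeries Ω) (κ : ℕ → ℝ), Set0 v C Φ w Z κ ρ σ ∧ ∀ n, PowerSeries.coeff n Z ∈ R := by
  have h1 : ∀ n : ℕ, ∃ η : ℝ, 0 < η ∧
      (n ≠ 0 → ∀ x ∈ C, ∀ b, v.Ge b x → v.Ge (b - n * σ + η) (Φ n x)) := by
    intro n
    by_cases hn : n = 0
    · exact ⟨1, one_pos, fun h => absurd hn h⟩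
    · obtain ⟨η, hη, h2⟩ := hstr n hn
      exact ⟨η, hη, fun _ => h2⟩
  choose κ hκ hstr using h1
  have h2 : ∀ n : ℕ, ∃ c ∈ R, v.Ge (ρ - κ n / 2) (w - c) := by
    intro n
    obtain ⟨c, hc, h3⟩ := hw.lim (κ n / 2) (half_pos (hκ n))
    obtain ⟨d, hd, h4⟩ := hRd c hc (ρ - κ n / 2)
    refine ⟨d, hd, ?_⟩
    have e : w - d = (w - c) + (c - d) := by ring
    rw [e]
    exact h3.add h4
  choose c hc hwc using h2
  refine ⟨PowerSeries.mk fun n => if n = 0 then 0 else Φ n (c n), κ, ?_, fun n => ?_⟩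
  · refine
      { hsd := hΦ
        oi := hoi
        tl := hw
        z0 := by rw [PowerSeries.coeff_mk, if_pos rfl]
        zmem := fun n => by
          rw [PowerSeries.coeff_mk]
          split_ifs
          exacts [zero_mem _, hΦ.mem n _ (hRC _ (hc n))]
        kpos := hκ
        str := hstr
        near := ?_ }
    intro n hn d hd b hb
    rw [PowerSeries.coeff_mk, if_neg hn, ← hΦ.sub n (hRC _ (hc n)) hd]
    have h2 : v.Ge (min b (ρ - κ n / 2)) (c n - d) := by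
      have e : c n - d = (w - d) - (w - c n) := by ring
      rw [e]
      exact (hb.mono (min_le_left _ _)).sub ((hwc n).mono (min_le_right _ _))
    refine (hstr n hn _ (sub_mem (hRC _ (hc n)) hd) _ h2).mono ?_
    rcases le_total b (ρ - κ n / 2) with h3 | h3
    · rw [min_eq_left h3]
      linarith [min_le_left (b + κ n) (ρ + κ n / 2)]
    · rw [min_eq_right h3]
      linarith [min_le_right (b + κ n) (ρ + κ n / 2)]
  · rw [PowerSeries.coeff_mk]
    split_ifs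
    exacts [zero_mem _, hRΦ _ (hc n) n]

/-- The elements of `N₀[y]`. -/
theorem mem_adn_singleton {N₀ : IntermediateField k Ω} {y x : Ω} (hx : x ∈ Adn N₀ {y}) :
    ∃ f ∈ PI N₀, x = f.eval y := by
  rw [Adn, Algebra.adjoin_singleton_eq_range_aeval] at hx
  obtain ⟨P, rfl⟩ := hx
  refine ⟨P.map (algebraMap N₀ Ω), fun i => ?_, ?_⟩
  · rw [coeff_map]
    exact (P.coeff i).2
  · rw [eval_map_algebraMap]
    rfl

theorem eval_mem_adn {N₀ : IntermediateField k Ω} {S : Set Ω} {y : Ω} (hy : y ∈ S)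
    {f : Polynomial Ω} (hf : ∀ i, f.coeff i ∈ Adn N₀ S) : f.eval y ∈ Adn N₀ S := by
  rw [eval_eq_sum_range]
  exact sum_mem fun i _ => mul_mem (hf i) (pow_mem (Algebra.subset_adjoin hy) i)

theorem mem_adn_of_mem {N₀ : IntermediateField k Ω} {S : Set Ω} {x : Ω} (hx : x ∈ N₀) :
    x ∈ Adn N₀ S :=
  Subalgebra.algebraMap_mem (Adn N₀ S) (⟨x, hx⟩ : N₀)

/-- **(II.a), part 1**, with the jets over a dense subfield `N₀` of `N`. -/
theorem exists_karc0 [IsAlgClosed Ω] {p : ℕ} (hcv : CompleteV v)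
    {N₀ N : IntermediateField k Ω} (hN₀ : N₀ ≤ N)
    (hden : ∀ x ∈ N, ∀ b : ℝ, ∃ c ∈ N₀, v.Ge b (x - c)) {y : Ω} {σ : ℝ} {D : ℕ → Ω → Ω}
    {K : IntermediateField k Ω} {u z : Ω} {r s : ℝ} (h : SDat p v N y σ D K u z r s)
    (hu : FinSh v (cadj v N y) σ r D u)
    (hz : ∀ Ψ₁ : ℕ → Ω → Ω, Arc v (cadj v (cadj v N y) u) σ Ψ₁ →
      Oi v (cadj v (cadj v N y) u) σ Ψ₁ → (∀ l : ℕ, ∀ x ∈ cadj v N y, Ψ₁ l x = D l x) →
      FinSh v (cadj v (cadj v N y) u) σ s Ψ₁ z) :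
    ∃ Ψ : ℕ → Ω → Ω, KArc0 p v N₀ N y σ D K u z r s Ψ := by
  have hC : cadj v N y ≤ cadj v (cadj v N y) u := le_cadj v _ u
  have hF : cadj v (cadj v N y) u ≤ K := by
    rw [h.eq]
    exact le_cadj v _ z
  have hNC : N ≤ cadj v N y := le_cadj v N y
  have hyC : y ∈ cadj v N y := self_mem_cadj v N y
  have hu1 : u ∈ cadj v (cadj v N y) u := self_mem_cadj v _ u
  -- the first ring
  have hs1 := adn_stable h.fl.hsd (hN₀.trans hNC) (fun x hx n hn => h.fl.const (hN₀ hx) hn)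
    (S := {y}) (fun x hx => by rw [Set.mem_singleton_iff.1 hx]; exact hyC) (fun x hx n hn => by
      rw [Set.mem_singleton_iff.1 hx]
      by_cases hn1 : n = 1
      · rw [hn1, h.fl.coord_one]
        exact one_mem _
      · rw [h.fl.coord_two (by omega)]
        exact zero_mem _)
  have hd1 : ∀ x ∈ cadj v N y, ∀ b : ℝ, ∃ c ∈ Adn N₀ {y}, v.Ge b (x - c) := by
    intro x hx b
    obtain ⟨f, hf, h1⟩ := h.fl.dense x hx b
    obtain ⟨g, hg, h2⟩ := approx_poly (R := N₀) hden y hf b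
    refine ⟨g.eval y, eval_mem_adn (Set.mem_singleton y) fun i => mem_adn_of_mem (hg i), ?_⟩
    have e : x - g.eval y = (x - f.eval y) + (f.eval y - g.eval y) := by ring
    rw [e]
    exact h1.add h2
  obtain ⟨Z, κ, hZ, hZp⟩ := exists_set0_dense h.fl.hsd h.fl.oi h.fl.str h.tu
    (R := Adn N₀ {y}) (fun x hx => (hs1 x hx).1) hd1 (fun x hx => (hs1 x hx).2)
  obtain ⟨Ψ₁, n₁, ha, ho, he, hj⟩ := hu.exists_arc hcv hZ (hC.trans hF) h.irr
  have hju : ∀ l : ℕ, l ≠ 0 → Ψ₁ l u ∈ Adn N₀ {y} := by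
    intro l hl
    rw [hj l hl]
    split_ifs
    · exact hZp l
    · exact zero_mem _
  -- the second ring
  have hs2 := adn_stable ha.toHSd ((hN₀.trans hNC).trans hC) (fun x hx n hn => by
      rw [he n x (hNC (hN₀ hx))]
      exact h.fl.const (hN₀ hx) hn) (S := {y, u}) (fun x hx => by
      rcases hx with rfl | hx
      · exact hC hyC
      · rw [Set.mem_singleton_iff.1 hx]
        exact hu1) (fun x hx n hn => by
      rcases hx with rfl | hx
      · rw [he n _ hyC]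
        by_cases hn1 : n = 1
        · rw [hn1, h.fl.coord_one]
          exact one_mem _
        · rw [h.fl.coord_two (by omega)]
          exact zero_mem _
      · rw [Set.mem_singleton_iff.1 hx]
        exact Algebra.adjoin_mono (Set.singleton_subset_iff.2 (Set.mem_insert _ _)) (hju n hn))
  have hd2 : ∀ x ∈ cadj v (cadj v N y) u, ∀ b : ℝ, ∃ c ∈ Adn N₀ {y, u}, v.Ge b (x - c) := by
    intro x hx b
    obtain ⟨f, hf, h1⟩ := h.tu.dense hx b
    obtain ⟨g, hg, h2⟩ := approx_poly hd1 u hf b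
    refine ⟨g.eval u, eval_mem_adn (Set.mem_insert_of_mem _ (Set.mem_singleton u)) fun i =>
      Algebra.adjoin_mono (Set.singleton_subset_iff.2 (Set.mem_insert _ _)) (hg i), ?_⟩
    have e : x - g.eval u = (x - f.eval u) + (f.eval u - g.eval u) := by ring
    rw [e]
    exact h1.add h2
  obtain ⟨Z', κ', hZ', hZp'⟩ := exists_set0_dense ha.toHSd ho (fun n hn => by
    obtain ⟨m, hm, h1⟩ := ha.str n hn
    exact ⟨n * σ - m, by linarith, fun x hx b hb => (h1 x hx b hb).mono (by linarith)⟩) h.tz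
    (R := Adn N₀ {y, u}) (fun x hx => (hs2 x hx).1) hd2 (fun x hx => (hs2 x hx).2)
  obtain ⟨Ψ, n₂, ha', ho', he', hj'⟩ := (hz Ψ₁ ha ho he).exists_arc hcv hZ' hF h.irr
  refine ⟨Ψ,
    { fl := h.fl
      tu := h.tu
      tz := h.tz
      eq := h.eq
      arc := by rw [h.eq]; exact ha'
      oi := by rw [h.eq]; exact ho'
      ext := fun l x hx => by rw [he' l x (hC hx), he l x hx]
      jet_u := fun l hl => ?_
      fin_u := ⟨n₁ + 1, fun l hl => ?_⟩
      jet_z := fun l hl => ?_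
      fin_z := ⟨n₂ + 1, fun l hl => ?_⟩
      le0 := hN₀
      den0 := hden
      ju0 := fun l hl => ?_
      jz0 := fun l hl => ?_ }⟩
  · rw [he' l u hu1]
    obtain ⟨f, hf, h1⟩ := mem_adn_singleton (hju l hl)
    exact ⟨f, fun i => hN₀ (hf i), h1⟩
  · rw [he' l u hu1, hj l (by omega), if_neg (by omega)]
  · rw [hj' l hl]
    split_ifs
    · exact hZ'.zmem l
    · exact zero_mem _
  · rw [hj' l (by omega), if_neg (by omega)]
  · rw [he' l u hu1]
    exact mem_adn_singleton (hju l hl)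
  · rw [hj' l hl]
    split_ifs
    · exact hZp' l
    · exact zero_mem _

end Pool.Agent.TWEX
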