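import Pool.Agent.Lib.TWEX.Cocyc
import Pool.Agent.Lib.TWN1.Trunc
import Pool.Agent.Lib.TWII.Hit

/-!
# TANK W, leaf (II) over a complete field: the strict overconvergent arc

`FinSh v F σ ρ Φ u`: finite shape of `u` along `Φ`.  `SDat`: two floors over a strict floor.
`KArc`: the same with a strict overconvergent arc `Ψ` of the field, the coordinates have finitely many
jets.  `exists_karc`: two floors of finite shape give a `KArc`.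
-/

set_option autoImplicit false

open Polynomial

namespace Pool.Agent.TWEX

open Pool.Agent.H15JM (RVal)
open Pool.Agent.TWM
open Pool.Agent.TWLM (HSd Oi Arc)
open Pool.Agent.TWN1 (Set0)
open Pool.Agent.TWII

universe u

variable {k Ω : Type u} [Field k] [Field Ω] [Algebra k Ω] {v : RVal Ω}

/-- Finite shape of `u` along `Φ`, over `F`. -/
def FinSh (v : RVal Ω) (F : IntermediateField k Ω) (σ ρ : ℝ) (Φ : ℕ → Ω → Ω) (u : Ω) : Prop :=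
  ∃ L : ℕ, ∀ l : ℕ, L < l → Nr v F ρ u fun θ => v.Ge (ρ - l * σ) (Φ l θ)

/-- A tower of two floors over a strict floor, with a strict overconvergent arc: `u`, `z` have
finitely many jets, those of `u` in `N[y]`. -/
structure KArc (p : ℕ) (v : RVal Ω) (N : IntermediateField k Ω) (y : Ω) (σ : ℝ) (D : ℕ → Ω → Ω)
    (K : IntermediateField k Ω) (u z : Ω) (r s : ℝ) (Ψ : ℕ → Ω → Ω) : Prop where
  fl : SFl p v N y σ D
  tu : TL v (cadj v N y) u r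
  tz : TL v (cadj v (cadj v N y) u) z s
  eq : K = cadj v (cadj v (cadj v N y) u) z
  arc : Arc v K σ Ψ
  oi : Oi v K σ Ψ
  ext : ∀ l : ℕ, ∀ x ∈ cadj v N y, Ψ l x = D l x
  jet_u : ∀ l : ℕ, l ≠ 0 → ∃ f ∈ PI N, Ψ l u = f.eval y
  fin_u : ∃ L : ℕ, ∀ l : ℕ, L < l → Ψ l u = 0
  jet_z : ∀ l : ℕ, l ≠ 0 → Ψ l z ∈ cadj v (cadj v N y) u
  fin_z : ∃ L : ℕ, ∀ l : ℕ, L < l → Ψ l z = 0

/-- The hypotheses of the step, with a tower over the strict floor. -/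
structure SDat (p : ℕ) (v : RVal Ω) (N : IntermediateField k Ω) (y : Ω) (σ : ℝ) (D : ℕ → Ω → Ω)
    (K : IntermediateField k Ω) (u z : Ω) (r s : ℝ) : Prop where
  fl : SFl p v N y σ D
  tu : TL v (cadj v N y) u r
  tz : TL v (cadj v (cadj v N y) u) z s
  eq : K = cadj v (cadj v (cadj v N y) u) z
  irr : ∀ n : ℕ, n ≠ 0 → ∀ f ∈ K, f ≠ 0 → v f ≠ n * σ

/-- At most one invisible jet has the value of the boundary. -/
theorem exists_gt {K : IntermediateField k Ω} {σ ρ : ℝ}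
    (hirr : ∀ n : ℕ, n ≠ 0 → ∀ f ∈ K, f ≠ 0 → v f ≠ n * σ) {Z : ℕ → Ω} (hZ : ∀ n, Z n ∈ K) {L : ℕ}
    (hL : ∀ n : ℕ, L < n → v.Ge (ρ - n * σ) (Z n)) :
    ∃ n₀ : ℕ, ∀ n : ℕ, n₀ ≤ n → Gt v (ρ - n * σ) (Z n) := by
  by_cases h1 : ∃ m : ℕ, L < m ∧ Z m ≠ 0 ∧ v (Z m) = ρ - m * σ
  · obtain ⟨m, hm, hm0, hmv⟩ := h1
    refine ⟨m + 1, fun n hn h0 => lt_of_le_of_ne (hL n (by omega) h0) fun h2 => ?_⟩
    refine hirr (n - m) (by omega) (Z m / Z n) (div_mem (hZ m) (hZ n)) (div_ne_zero hm0 h0) ?_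
    rw [v.map_div hm0 h0, hmv, ← h2, Nat.cast_sub (by omega)]
    ring
  · refine ⟨L + 1, fun n hn h0 => lt_of_le_of_ne (hL n (by omega) h0) fun h2 => ?_⟩
    exact h1 ⟨n, by omega, h0, h2.symm⟩

/-- The invisible jets. -/
theorem FinSh.coeff {F : IntermediateField k Ω} {σ ρ : ℝ} {Φ : ℕ → Ω → Ω} {u : Ω}
    (h : FinSh v F σ ρ Φ u) {Z : PowerSeries Ω} {κ : ℕ → ℝ} (hZ : Set0 v F Φ u Z κ ρ σ) :
    ∃ L : ℕ, ∀ n : ℕ, L < n → v.Ge (ρ - n * σ) (PowerSeries.coeff n Z) := by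
  obtain ⟨L, hL⟩ := h
  refine ⟨L, fun n hn => ?_⟩
  have hk := hZ.kpos n
  obtain ⟨δ, hδ, h1⟩ := hL n hn
  obtain ⟨c, hc, h2⟩ := hZ.tl.lim (min δ (κ n)) (lt_min hδ hk)
  have h3 := hZ.near n (by omega) c hc _ h2
  have h4 := h1 c hc (h2.mono (by linarith [min_le_left δ (κ n)]))
  have e : PowerSeries.coeff n Z = (PowerSeries.coeff n Z - Φ n c) + Φ n c := by ring
  rw [e]
  refine (h3.mono ?_).add h4
  have h5 : ρ ≤ min (ρ - min δ (κ n) + κ n) (ρ + κ n / 2) :=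
    le_min (by linarith [min_le_right δ (κ n)]) (by linarith)
  linarith

/-- **The arc of a floor of finite shape.** -/
theorem FinSh.exists_arc [IsAlgClosed Ω] (hcv : CompleteV v) {F K : IntermediateField k Ω}
    {σ ρ : ℝ} {Φ : ℕ → Ω → Ω} {u : Ω} (h : FinSh v F σ ρ Φ u) {Z : PowerSeries Ω} {κ : ℕ → ℝ}
    (hZ : Set0 v F Φ u Z κ ρ σ) (hFK : F ≤ K)
    (hirr : ∀ n : ℕ, n ≠ 0 → ∀ f ∈ K, f ≠ 0 → v f ≠ n * σ) :
    ∃ (Ψ : ℕ → Ω → Ω) (n₀ : ℕ), Arc v (cadj v F u) σ Ψ ∧ Oi v (cadj v F u) σ Ψ ∧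
      (∀ n : ℕ, ∀ x ∈ F, Ψ n x = Φ n x) ∧
      ∀ n : ℕ, n ≠ 0 → Ψ n u = if n < n₀ then PowerSeries.coeff n Z else 0 := by
  obtain ⟨L, hL⟩ := h.coeff hZ
  obtain ⟨n₀, hn₀⟩ := exists_gt hirr (fun n => hFK (hZ.zmem n)) hL
  obtain ⟨Ψ, h1, h2, -, h3, h4⟩ := hZ.exists_trunc hcv hn₀
  exact ⟨Ψ, n₀, h1, h2, h3, h4⟩

/-- **(II.a), part 1**: `u`, `z` of finite shape. -/
theorem exists_karc [IsAlgClosed Ω] {p : ℕ} (hcv : CompleteV v)
    {N : IntermediateField k Ω} {y : Ω} {σ : ℝ} {D : ℕ → Ω → Ω} {K : IntermediateField k Ω}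
    {u z : Ω} {r s : ℝ} (h : SDat p v N y σ D K u z r s) (hu : FinSh v (cadj v N y) σ r D u)
    (hz : ∀ Ψ₁ : ℕ → Ω → Ω, Arc v (cadj v (cadj v N y) u) σ Ψ₁ →
      Oi v (cadj v (cadj v N y) u) σ Ψ₁ → (∀ l : ℕ, ∀ x ∈ cadj v N y, Ψ₁ l x = D l x) →
      FinSh v (cadj v (cadj v N y) u) σ s Ψ₁ z) :
    ∃ Ψ : ℕ → Ω → Ω, KArc p v N y σ D K u z r s Ψ := by
  have hC : cadj v N y ≤ cadj v (cadj v N y) u := le_cadj v _ u
  have hF : cadj v (cadj v N y) u ≤ K := by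
    rw [h.eq]
    exact le_cadj v _ z
  obtain ⟨Z, κ, hZ, hZp⟩ := h.fl.exists_set0 h.tu
  obtain ⟨Ψ₁, n₁, ha, ho, he, hj⟩ := hu.exists_arc hcv hZ (hC.trans hF) h.irr
  obtain ⟨Z', κ', hZ'⟩ := TWN1.exists_set0 ha.toHSd ho (fun n hn => by
    obtain ⟨m, hm, h1⟩ := ha.str n hn
    exact ⟨n * σ - m, by linarith, fun x hx b hb => (h1 x hx b hb).mono (by linarith)⟩) h.tz
  obtain ⟨Ψ, n₂, ha', ho', he', hj'⟩ := (hz Ψ₁ ha ho he).exists_arc hcv hZ' hF h.irr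
  have hu1 : u ∈ cadj v (cadj v N y) u := self_mem_cadj v _ u
  refine ⟨Ψ,
    { fl := h.fl
      tu := h.tu
      tz := h.tz
      eq := h.eq
      arc := by rw [h.eq]; exact ha'
      oi := by rw [h.eq]; exact ho'
      ext := fun l x hx => by rw [he' l x (hC hx), he l x hx]
      jet_u := fun l hl => ?_
      fin_u := ⟨n₁ + 1, fun l hl => ?_⟩
      jet_z := fun l hl => ?_
      fin_z := ⟨n₂ + 1, fun l hl => ?_⟩ }⟩
  · rw [he' l u hu1, hj l hl]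
    split_ifs
    · exact hZp l
    · exact ⟨0, zero_mem _, eval_zero.symm⟩
  · rw [he' l u hu1, hj l (by omega), if_neg (by omega)]
  · rw [hj' l hl]
    split_ifs
    · exact hZ'.zmem l
    · exact zero_mem _
  · rw [hj' l (by omega), if_neg (by omega)]

end Pool.Agent.TWEX
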