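import Pool.Agent.Lib.TWN1.GabF
import Pool.Agent.Lib.TWEX.KArc

/-!
# TANK W, leaf (II): the infinite case

* `Unh.ops`: the polynomial form of unhit gives the form with the Hasse derivatives of the field;
* `InfCase`: the statement of the header; `infCase_of`: from Theorem N1 in the form `Res`.
-/

set_option autoImplicit false

open Polynomial Finset

namespace Pool.Agent.TWEX

open Pool.Agent.H15JM (RVal)
open Pool.Agent.TWM
open Pool.Agent.TWII (PG LP)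
open Pool.Agent.TWLM (HSd Oi Arc)
open Pool.Agent.TWN1 (Unh Res FinS Gen2)

universe u

variable {k Ω : Type u} [Field k] [Field Ω] [Algebra k Ω] {v : RVal Ω}

/-- Unhit, with the Hasse derivatives of the field. -/
theorem unh_ops {p : ℕ} [hp : Fact p.Prime] [CharP Ω p] [IsAlgClosed Ω] (hΩ : CompleteV v)
    {E K : IntermediateField k Ω} {z : Ω} {s ν : ℝ} {a : Ω} (hz : TL v E z s)
    (hK : K = cadj v E z) (ha : a ∈ K) (h : Unh p v E K z s ν a) :
    ∃ D : ℕ → Ω → Ω, (∀ j : ℕ, ∀ x ∈ K, ∀ b : ℝ, ∃ f ∈ PI E, v.Ge b (x - f.eval z) ∧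
        v.Ge b (D j x - (hasseDeriv j f).eval z)) ∧
      ∀ l : ℕ, p ∣ l → l ≠ 0 → PG p v K (ν - l * s) (D l a) := by
  obtain ⟨D, -, -, -, hD⟩ := TWLM.exists_fbr hΩ hz
  rw [← hK] at hD
  refine ⟨D, hD, fun l hpl hl0 => ?_⟩
  obtain ⟨f, hf, ⟨g, hg, h1⟩, h2⟩ := h
  have hp0 : (0 : ℝ) < p := by exact_mod_cast hp.out.pos
  obtain ⟨f', hf', h3, h4⟩ := hD l a ha (max ν (ν - l * s) + 1)
  have hgz := hg
  rw [hK] at hgz
  obtain ⟨G, hG, h5⟩ := hz.dense hgz ((ν + 1) / p)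
  have h6 : v.Ge (ν + 1) ((g - G.eval z) ^ p) := by
    refine (TWII.ge_pow' h5 p).mono (le_of_eq ?_)
    field_simp
  have h7 : Gt v ν ((f' - f - G ^ p).eval z) := by
    have e : (f' - f - G ^ p).eval z = (a - f.eval z - g ^ p) + ((g - G.eval z) ^ p -
        (a - f'.eval z)) := by
      rw [eval_sub, eval_sub, eval_pow, sub_pow_char]
      ring
    rw [e]
    refine h1.add (Gt.of_ge (h6.sub (h3.mono ?_)) (by linarith))
    linarith [le_max_left ν (ν - l * s)]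
  have h8 := TWII.TL.jet_gt hz (sub_mem (sub_mem hf' hf) (pow_mem hG p)) h7.ge (Nat.one_le_iff_ne_zero.2 hl0)
  rw [map_sub, map_sub, coeff_sub, coeff_sub, taylor_pow, TWJ.coeff_pow_char p, if_pos hpl] at h8
  have h9 : (taylor z G).coeff (l / p) ∈ K := by
    rw [taylor_coeff, hK]
    exact TWLM.eval_mem_cadj (TWLM.hasseDeriv_mem_PI hG _)
  have e : D l a = (D l a - (hasseDeriv l f').eval z) +
      (((taylor z f').coeff l - (taylor z f).coeff l - ((taylor z G).coeff (l / p)) ^ p) +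
        ((taylor z f).coeff l + ((taylor z G).coeff (l / p)) ^ p)) := by
    rw [taylor_coeff (f := f')]
    ring
  rw [e]
  refine PG.add (.of_gt (Gt.of_ge h4 ?_)) (PG.add (.of_gt h8) ((h2 l hpl hl0).add (.of_pow h9)))
  linarith [le_max_right ν (ν - l * s)]

/-- A strict floor is a strict arc. -/
theorem SFl.arc' {p : ℕ} {N : IntermediateField k Ω} {y : Ω} {σ : ℝ} {D : ℕ → Ω → Ω}
    (h : SFl p v N y σ D) : Arc v (cadj v N y) σ D where
  toHSd := h.hsd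
  str := fun l hl => by
    obtain ⟨η, hη, h1⟩ := h.str l hl
    exact ⟨l * σ - η, by linarith, fun f hf b hb => (h1 f hf b hb).mono (by linarith)⟩

/-- (II.b), the infinite case: N1 (14) and Theorem G (83). -/
def InfCase (p : ℕ) (v : RVal Ω) (k : Type u) [Field k] [Algebra k Ω] : Prop :=
  ∀ (N : IntermediateField k Ω) (y : Ω) (σ : ℝ) (D : ℕ → Ω → Ω) (K : IntermediateField k Ω)
    (u z : Ω) (r s ν : ℝ) (a : Ω), SDat p v N y σ D K u z r s →
    ¬ FinSh v (cadj v N y) σ r D u → a ∈ K → LP p v K ν a → ¬ PG p v K ν a →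
    (∃ (E : IntermediateField k Ω) (z' : Ω) (s' : ℝ) (D' : ℕ → Ω → Ω), TL v E z' s' ∧
      K = cadj v E z' ∧ (∃ y' u' r' : _, E = cadj v (cadj v N y') u' ∧ TL v (cadj v N y') u' r') ∧
      (∀ j : ℕ, ∀ x ∈ K, ∀ b : ℝ, ∃ f ∈ PI E, v.Ge b (x - f.eval z') ∧
        v.Ge b (D' j x - (hasseDeriv j f).eval z')) ∧
      ∀ l : ℕ, p ∣ l → l ≠ 0 → PG p v K (ν - l * s') (D' l a)) ∨
    ∃ (u' z' : Ω) (r' s' : ℝ), SDat p v N y σ D K u' z' r' s' ∧ FinSh v (cadj v N y) σ r' D u' ∧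
      ∀ Ψ₁ : ℕ → Ω → Ω, Arc v (cadj v (cadj v N y) u') σ Ψ₁ →
        Oi v (cadj v (cadj v N y) u') σ Ψ₁ → (∀ l : ℕ, ∀ x ∈ cadj v N y, Ψ₁ l x = D l x) →
        FinSh v (cadj v (cadj v N y) u') σ s' Ψ₁ z'

/-- The infinite case from the dichotomy. -/
theorem infCase_of {p : ℕ} [hp : Fact p.Prime] [CharP Ω p] [IsAlgClosed Ω] (hΩ : CompleteV v)
    (hN1 : ∀ (C K : IntermediateField k Ω) (σ : ℝ) (Φ : ℕ → Ω → Ω) (w y a : Ω) (ρ s ν : ℝ),
      Arc v C σ Φ → Oi v C σ Φ → TL v C w ρ → TL v (cadj v C w) y s →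
      K = cadj v (cadj v C w) y → a ∈ K → LP p v K ν a → Res p v C K σ Φ ν a) :
    InfCase p v k := by
  intro N y σ D K u z r s ν a h _ ha hlp _
  have hΦ : Arc v (cadj v N y) σ D := h.fl.arc'
  have ho : Oi v (cadj v N y) σ D := h.fl.oi
  rcases hN1 _ K σ D u z a r s ν hΦ ho h.tu h.tz h.eq ha hlp with
    ⟨u', z', r', s', hG, hU⟩ | ⟨u', z', r', s', hG, hF, hF'⟩
  · left
    obtain ⟨D', hD', hU'⟩ := unh_ops hΩ hG.t2 hG.eq ha hU
    exact ⟨cadj v (cadj v N y) u', z', s', D', hG.t2, hG.eq, ⟨y, u', r', rfl, hG.t1⟩, hD', hU'⟩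
  · right
    exact ⟨u', z', r', s', ⟨h.fl, hG.t1, hG.t2, hG.eq, h.irr⟩, hF, hF'⟩

end Pool.Agent.TWEX
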