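import Pool.Agent.Lib.TWEX.Cocyc
import Pool.Agent.Lib.TWC.JD

/-!
# TANK W, exit of the strict case: strict floors

* `exists_ext`: the Hasse derivatives of `C[w]` extend to the closure of `C(w)` if `C[w]` is dense;
* `dense_perf`: `N[y]` is dense in the closure of `N(y)` if `y` is a limit of the perfect closure;
* `exists_sfl`: a floor with strict jets (the output of `TWC.jd_root`) is a strict floor `SFl`.
-/

set_option autoImplicit false

open Polynomial Finset

namespace Pool.Agent.TWEX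

open Pool.Agent.H15JM (RVal)
open Pool.Agent.LU1 (VPos adj)
open Pool.Agent.D2 (Ctx0)
open Pool.Agent.D2P (mem_clI mem_adj_iff mem_adj_self)
open Pool.Agent.TWM
open Pool.Agent.TWLM (HSd Oi hasseDeriv_mem_PI eval_mem_cadj eq_zero_of_ge exists_ge)
open Pool.Agent.TWC (Sd)

universe u'

variable {k Ω : Type u'} [Field k] [Field Ω] [Algebra k Ω] {v : RVal Ω}
  {C N : IntermediateField k Ω} {w y : Ω} {ρ σ : ℝ}

/-- The Hasse derivatives of `C[w]` extend to the closure of `C(w)`. -/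
theorem exists_ext (hΩ : CompleteV v)
    (hden : ∀ x ∈ cadj v C w, ∀ b : ℝ, ∃ f ∈ PI C, v.Ge b (x - f.eval w))
    (hno : ∀ {f : Polynomial Ω}, f ∈ PI C → ∀ (j : ℕ) {b : ℝ}, v.Ge b (f.eval w) →
      v.Ge (b - j * ρ) ((hasseDeriv j f).eval w)) :
    ∃ D : ℕ → Ω → Ω, HSd (cadj v C w) D ∧ Oi v (cadj v C w) ρ D ∧
      (∀ j : ℕ, ∀ f ∈ PI C, D j (f.eval w) = (hasseDeriv j f).eval w) ∧
      (∀ i j : ℕ, ∀ x ∈ cadj v C w, D i (D j x) = ((i + j).choose i : Ω) * D (i + j) x) ∧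
      (∀ j : ℕ, ∀ x ∈ cadj v C w, ∀ b : ℝ, ∃ f ∈ PI C, v.Ge b (x - f.eval w) ∧
        v.Ge b (D j x - (hasseDeriv j f).eval w)) ∧
      (∀ j : ℕ, ∀ x ∈ cadj v C w, ∀ b : ℝ, v.Ge b x → v.Ge (b - j * ρ) (D j x)) := by
  classical
  -- existence
  have h1 : ∀ (j : ℕ) (x : Ω), x ∈ cadj v C w → ∃ y : Ω, ∀ (b : ℝ), ∀ f ∈ PI C,
      v.Ge b (x - f.eval w) → v.Ge (b - j * ρ) (y - (hasseDeriv j f).eval w) := by
    intro j x hx
    choose f hf hxf using fun n : ℕ => hden x hx (n : ℝ)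
    have hdif : ∀ (g g' : Polynomial Ω) (b : ℝ), g ∈ PI C → g' ∈ PI C → v.Ge b (x - g.eval w) →
        v.Ge b (x - g'.eval w) →
        v.Ge (b - j * ρ) ((hasseDeriv j g).eval w - (hasseDeriv j g').eval w) := by
      intro g g' b hg hg' h2 h3
      rw [← eval_sub, ← map_sub]
      refine hno (sub_mem hg hg') j ?_
      rw [eval_sub]
      have e : g.eval w - g'.eval w = (x - g'.eval w) - (x - g.eval w) := by ring
      rw [e]
      exact h3.sub h2
    obtain ⟨y, hy⟩ := hΩ (fun n => (hasseDeriv j (f n)).eval w) fun c => by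
      obtain ⟨N, hN⟩ := exists_nat_ge (c + j * ρ)
      refine ⟨N, fun m n hm hn => ?_⟩
      refine (hdif (f m) (f n) N (hf m) (hf n) ((hxf m).mono (by exact_mod_cast hm))
        ((hxf n).mono (by exact_mod_cast hn))).mono (by linarith)
    refine ⟨y, fun b g hg hb => ?_⟩
    obtain ⟨N, hN⟩ := hy (b - j * ρ)
    obtain ⟨N', hN'⟩ := exists_nat_ge b
    have e : y - (hasseDeriv j g).eval w = (y - (hasseDeriv j (f (max N N'))).eval w) +
        ((hasseDeriv j (f (max N N'))).eval w - (hasseDeriv j g).eval w) := by ring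
    rw [e]
    refine (hN _ (le_max_left _ _)).add (hdif _ _ b (hf _) hg ((hxf _).mono (hN'.trans ?_)) hb)
    exact_mod_cast le_max_right N N'
  choose! D hD using h1
  -- uniqueness
  have huniq : ∀ (j : ℕ) (x : Ω), x ∈ cadj v C w → ∀ y : Ω,
      (∀ b : ℝ, ∃ f ∈ PI C, v.Ge b (x - f.eval w) ∧ v.Ge b (y - (hasseDeriv j f).eval w)) →
      D j x = y := by
    intro j x hx y h
    refine sub_eq_zero.1 (eq_zero_of_ge (v := v) fun b => ?_)
    obtain ⟨f, hf, h2, h3⟩ := h (max b (b + j * ρ))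
    have h4 := hD j x hx _ f hf h2
    have e : D j x - y = (D j x - (hasseDeriv j f).eval w) - (y - (hasseDeriv j f).eval w) := by
      ring
    rw [e]
    refine (h4.mono ?_).sub (h3.mono (le_max_left _ _))
    linarith [le_max_right b (b + j * ρ)]
  have hpoly : ∀ j : ℕ, ∀ f ∈ PI C, D j (f.eval w) = (hasseDeriv j f).eval w := by
    intro j f hf
    refine huniq j _ (eval_mem_cadj hf) _ fun b => ⟨f, hf, ?_, ?_⟩
    · rw [sub_self]
      exact RVal.Ge.zero
    · rw [sub_self]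
      exact RVal.Ge.zero
  -- simultaneous approximation
  have happ : ∀ j : ℕ, ∀ x ∈ cadj v C w, ∀ b : ℝ, ∃ f ∈ PI C, v.Ge b (x - f.eval w) ∧
      v.Ge b (D j x - (hasseDeriv j f).eval w) := by
    intro j x hx b
    obtain ⟨f, hf, h2⟩ := hden x hx (max b (b + j * ρ))
    refine ⟨f, hf, h2.mono (le_max_left _ _), (hD j x hx _ f hf h2).mono ?_⟩
    linarith [le_max_right b (b + j * ρ)]
  have hmem : ∀ j : ℕ, ∀ x ∈ cadj v C w, D j x ∈ cadj v C w := by
    intro j x hx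
    refine cld_cadj v C w fun b => ?_
    obtain ⟨f, hf, h2, h3⟩ := happ j x hx b
    exact ⟨_, eval_mem_cadj (hasseDeriv_mem_PI hf j), h3⟩
  have hadd : ∀ j : ℕ, ∀ x ∈ cadj v C w, ∀ y ∈ cadj v C w, D j (x + y) = D j x + D j y := by
    intro j x hx y hy
    refine huniq j _ (add_mem hx hy) _ fun b => ?_
    obtain ⟨f, hf, h2, h3⟩ := happ j x hx b
    obtain ⟨g, hg, h4, h5⟩ := happ j y hy b
    refine ⟨f + g, add_mem hf hg, ?_, ?_⟩
    · rw [eval_add, add_sub_add_comm]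
      exact h2.add h4
    · rw [map_add, eval_add, add_sub_add_comm]
      exact h3.add h5
  have hnorm : ∀ j : ℕ, ∀ x ∈ cadj v C w, ∀ b : ℝ, v.Ge b x → v.Ge (b - j * ρ) (D j x) := by
    intro j x hx b hb
    have h2 := hD j x hx b 0 (zero_mem _) (by rwa [eval_zero, sub_zero])
    rwa [map_zero, eval_zero, sub_zero] at h2
  -- products
  have hmul : ∀ j : ℕ, ∀ x ∈ cadj v C w, ∀ y ∈ cadj v C w,
      D j (x * y) = ∑ i ∈ Finset.HasAntidiagonal.antidiagonal j, D i.1 x * D i.2 y := by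
    intro j x hx y hy
    -- bounds
    obtain ⟨R, hR0, hR⟩ : ∃ R : ℝ, 0 ≤ R ∧ (∀ i : ℕ, i ≤ j → |i * ρ| ≤ R ∧ v.Ge (-R) (D i x) ∧
        v.Ge (-R) (D i y)) ∧ v.Ge (-R) x ∧ v.Ge (-R) y := by
      obtain ⟨c, hc⟩ := exists_ge v x
      obtain ⟨c', hc'⟩ := exists_ge v y
      refine ⟨|c| + |c'| + j * |ρ|, by positivity, fun i hi => ⟨?_, ?_, ?_⟩, hc.mono ?_,
        hc'.mono ?_⟩
      · rw [abs_mul, Nat.abs_cast]
        have h2 : (i : ℝ) ≤ j := by exact_mod_cast hi
        have h3 : (i : ℝ) * |ρ| ≤ j * |ρ| := mul_le_mul_of_nonneg_right h2 (abs_nonneg ρ)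
        linarith [abs_nonneg c, abs_nonneg c']
      · refine (hnorm i x hx c hc).mono ?_
        have h2 : (i : ℝ) ≤ j := by exact_mod_cast hi
        have h3 : (i : ℝ) * |ρ| ≤ j * |ρ| := mul_le_mul_of_nonneg_right h2 (abs_nonneg ρ)
        have h4 : (i : ℝ) * ρ ≤ i * |ρ| := mul_le_mul_of_nonneg_left (le_abs_self ρ) (by positivity)
        linarith [neg_abs_le c, abs_nonneg c']
      · refine (hnorm i y hy c' hc').mono ?_
        have h2 : (i : ℝ) ≤ j := by exact_mod_cast hi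
        have h3 : (i : ℝ) * |ρ| ≤ j * |ρ| := mul_le_mul_of_nonneg_right h2 (abs_nonneg ρ)
        have h4 : (i : ℝ) * ρ ≤ i * |ρ| := mul_le_mul_of_nonneg_left (le_abs_self ρ) (by positivity)
        linarith [neg_abs_le c', abs_nonneg c]
      · have h3 : (0 : ℝ) ≤ j * |ρ| := by positivity
        linarith [neg_abs_le c, abs_nonneg c']
      · have h3 : (0 : ℝ) ≤ j * |ρ| := by positivity
        linarith [neg_abs_le c', abs_nonneg c]
    obtain ⟨hR1, hRx, hRy⟩ := hR
    refine huniq j _ (mul_mem hx hy) _ fun b => ?_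
    set B : ℝ := |b| + 2 * R with hB
    have hB0 : 0 ≤ B := by positivity
    obtain ⟨f, hf, h2⟩ := hden x hx (B + R)
    obtain ⟨g, hg, h4⟩ := hden y hy (B + R)
    have h3 : ∀ i : ℕ, i ≤ j → v.Ge B (D i x - (hasseDeriv i f).eval w) := fun i hi =>
      (hD i x hx _ f hf h2).mono (by linarith [(le_abs_self ((i : ℝ) * ρ)).trans (hR1 i hi).1])
    have h5 : ∀ i : ℕ, i ≤ j → v.Ge B (D i y - (hasseDeriv i g).eval w) := fun i hi =>
      (hD i y hy _ g hg h4).mono (by linarith [(le_abs_self ((i : ℝ) * ρ)).trans (hR1 i hi).1])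
    have hmulb : ∀ a a' c c' : Ω, v.Ge (-R) a → v.Ge (-R) c → v.Ge B (a - a') → v.Ge B (c - c') →
        v.Ge b (a * c - a' * c') := by
      intro a a' c c' h6 h7 h8 h9
      have e : a * c - a' * c' = (a - a') * c + a * (c - c') - (a - a') * (c - c') := by ring
      rw [e]
      refine ((((h8.mul h7)).mono ?_).add ((h6.mul h9).mono ?_)).sub ((h8.mul h9).mono ?_)
      · rw [hB]; linarith [le_abs_self b]
      · rw [hB]; linarith [le_abs_self b]
      · linarith [le_abs_self b]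
    refine ⟨f * g, mul_mem hf hg, ?_, ?_⟩
    · rw [eval_mul]
      exact hmulb _ _ _ _ hRx hRy (h2.mono (by linarith)) (h4.mono (by linarith))
    · rw [hasseDeriv_mul, eval_finsetSum, ← sum_sub_distrib]
      refine RVal.Ge.sum _ _ fun i hi => ?_
      have hi' : i.1 + i.2 = j := by simpa using hi
      rw [eval_mul]
      exact hmulb _ _ _ _ (hR1 i.1 (by omega)).2.1 (hR1 i.2 (by omega)).2.2 (h3 i.1 (by omega))
        (h5 i.2 (by omega))
  -- composition
  have hcomp : ∀ i j : ℕ, ∀ x ∈ cadj v C w,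
      D i (D j x) = ((i + j).choose i : Ω) * D (i + j) x := by
    intro i j x hx
    refine huniq i _ (hmem j x hx) _ fun b => ?_
    set B : ℝ := |b| + |j * ρ| + |((i + j : ℕ) : ℝ) * ρ| with hB
    obtain ⟨f, hf, h2⟩ := hden x hx B
    have h3 := hD j x hx B f hf h2
    have h4 := hD (i + j) x hx B f hf h2
    refine ⟨hasseDeriv j f, hasseDeriv_mem_PI hf j, h3.mono ?_, ?_⟩
    · rw [hB]
      linarith [le_abs_self b, le_abs_self ((j : ℝ) * ρ), abs_nonneg (((i + j : ℕ) : ℝ) * ρ)]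
    · have h5 : hasseDeriv i (hasseDeriv j f) = ((i + j).choose i : ℕ) • hasseDeriv (i + j) f := by
        have := congrArg (fun L => L f) (hasseDeriv_comp (R := Ω) i j)
        simpa using this
      rw [h5, eval_smul, nsmul_eq_mul, ← mul_sub]
      have h6 : v.Ge (0 : ℝ) (((i + j).choose i : ℕ) : Ω) := by
        exact ge_natCast v _
      have h7 := h6.mul h4
      refine h7.mono ?_
      rw [hB]
      linarith [le_abs_self b, le_abs_self (((i + j : ℕ) : ℝ) * ρ), abs_nonneg ((j : ℝ) * ρ)]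
  refine ⟨D, ?_, ?_, hpoly, hcomp, happ, hnorm⟩
  · refine
      { mem := hmem
        c0 := ?_
        add := hadd
        mul := hmul
        con := ?_ }
    · intro x hx
      refine huniq 0 x hx x fun b => ?_
      obtain ⟨f, hf, h2⟩ := hden x hx b
      exact ⟨f, hf, h2, by rwa [hasseDeriv_zero']⟩
    · intro l hl c
      have h2 := hpoly l (Polynomial.C (algebraMap k Ω c)) (C_mem_PI (C.algebraMap_mem c))
      rw [eval_C, hasseDeriv_C _ _ (Nat.pos_of_ne_zero hl), eval_zero] at h2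
      exact h2
  · intro x hx B
    obtain ⟨f, hf, h2⟩ := hden x hx B
    refine ⟨f.natDegree + 1, fun l hl => ?_⟩
    have h3 := hD l x hx _ f hf h2
    rwa [hasseDeriv_eq_zero_of_lt_natDegree f l (by omega), eval_zero, sub_zero] at h3

/-- Approximation of `1 / f(y)` by polynomials. -/
theorem inv_approx_perf [IsAlgClosed Ω] (p : ℕ) [hp : Fact p.Prime] [CharP Ω p]
    (hlim : ∀ ε : ℝ, 0 < ε → ∃ (j : ℕ) (a : Ω), a ^ p ^ j ∈ N ∧ v.Ge (σ - ε) (y - a))
    (hSd : ∀ l : ℕ, 1 ≤ l → Sd v N y l (l * σ)) {f : Polynomial Ω} (hf : f ∈ PI N)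
    (h0 : f.eval y ≠ 0) (b : ℝ) : ∃ g ∈ PI N, v.Ge b ((f.eval y)⁻¹ - g.eval y) := by
  classical
  -- the margin
  obtain ⟨η, hη, h1⟩ := exists_margin (Icc 1 f.natDegree)
    (fun l η => v.Ge (v (f.eval y) - l * σ + η) ((taylor y f).coeff l))
    (fun l hl => by
      obtain ⟨η, hη, h2⟩ := hSd l (mem_Icc.1 hl).1
      exact ⟨η, hη, h2 f hf _ (RVal.ge_self _)⟩)
    (fun l _ η η' hη h2 => h2.mono (by linarith))
  set ε : ℝ := η / (2 * (f.natDegree + 1)) with hε
  have hε0 : 0 < ε := by positivity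
  obtain ⟨j, a, haN, hya⟩ := hlim ε hε0
  -- the values
  have hfa : Gt v (v (f.eval y)) (f.eval y - f.eval a) := by
    have h2 : f.eval a - f.eval y = ∑ l ∈ Icc 1 f.natDegree,
        (taylor y f).coeff l * (a - y) ^ l := by
      rw [eval_eq_taylor f y a, ← taylor_coeff_zero y f, eval_eq_sum_range, natDegree_taylor,
        Finset.sum_range_eq_add_Ico _ (Nat.succ_pos _)]
      rw [pow_zero, mul_one, add_sub_cancel_left]
      rfl
    refine Gt.sub_comm' (Gt.of_ge (r' := v (f.eval y) + η / 2) ?_ (by linarith))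
    rw [h2]
    refine RVal.Ge.sum _ _ fun l hl => ?_
    refine ((h1 l hl).mul (ge_pow (ge_sub_comm hya) l)).mono ?_
    have h3 : (l : ℝ) * ε ≤ η / 2 := by
      have h4 : (l : ℝ) ≤ f.natDegree := by exact_mod_cast (mem_Icc.1 hl).2
      rw [hε, mul_div_assoc', div_le_div_iff₀ (by positivity) (by norm_num)]
      nlinarith
    linarith
  obtain ⟨ha0, hav⟩ := Gt.val_eq h0 hfa
  set q := p ^ j with hq
  have hqpos : 0 < q := pow_pos hp.out.pos j
  -- the constant `f(a) ^ q`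
  have hcN : f.eval a ^ q ∈ N := by
    have h2 : f.eval a ^ q = ∑ i ∈ range (f.natDegree + 1), f.coeff i ^ q * (a ^ q) ^ i := by
      rw [eval_eq_sum_range, hq, sum_pow_char_pow]
      exact sum_congr rfl fun i _ => by rw [mul_pow, ← pow_mul, ← pow_mul, mul_comm i]
    rw [h2]
    exact sum_mem fun i _ => mul_mem (pow_mem (hf i) _) (pow_mem haN i)
  set c := (f.eval a ^ q)⁻¹ with hc
  have hcN' : c ∈ N := inv_mem hcN
  have hc0 : c ≠ 0 := inv_ne_zero (pow_ne_zero _ ha0)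
  have hcv : v c = -(q * v (f.eval y)) := by
    rw [hc, v.map_inv (pow_ne_zero _ ha0), v.map_pow ha0, hav]
  -- the small element
  set t : Polynomial Ω := 1 - Polynomial.C c * f ^ q with ht
  have htm : t ∈ PI N := sub_mem (one_mem _) (mul_mem (C_mem_PI hcN') (pow_mem hf q))
  obtain ⟨η', hη', htv⟩ : ∃ η' : ℝ, 0 < η' ∧ v.Ge η' (t.eval y) := by
    have h2 : t.eval y = c * (f.eval a - f.eval y) ^ q := by
      rw [ht, eval_sub, eval_one, eval_mul, eval_C, eval_pow, hq, sub_pow_char_pow, mul_sub, ← hq,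
        hc, inv_mul_cancel₀ (pow_ne_zero _ ha0)]
    have hgt : Gt v 0 (t.eval y) → ∃ η' : ℝ, 0 < η' ∧ v.Ge η' (t.eval y) := fun h => by
      obtain ⟨η', hη', h3⟩ := TWLM.exists_ge_of_gt h
      exact ⟨η', hη', by rwa [zero_add] at h3⟩
    refine hgt ?_
    rw [h2]
    intro h3
    have h4 : f.eval a - f.eval y ≠ 0 := by
      intro h5
      rw [h5, zero_pow hqpos.ne', mul_zero] at h3
      exact h3 rfl
    rw [v.map_mul hc0 (pow_ne_zero _ h4), v.map_pow h4, hcv]
    have h5 := hfa.sub_comm' h4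
    have h6 : (0 : ℝ) < q := by exact_mod_cast hqpos
    nlinarith
  obtain ⟨m, hm⟩ := exists_nat_gt ((b + v (f.eval y)) / η')
  rw [div_lt_iff₀ hη'] at hm
  -- the geometric series
  refine ⟨Polynomial.C c * f ^ (q - 1) * ∑ i ∈ range m, t ^ i, mul_mem (mul_mem (C_mem_PI hcN')
    (pow_mem hf _)) (sum_mem fun i _ => pow_mem htm i), ?_⟩
  have h2 : (∑ i ∈ range m, (t.eval y) ^ i) * (1 - t.eval y) = 1 - (t.eval y) ^ m := by
    rw [mul_comm, mul_neg_geom_sum]
  have h3 : 1 - t.eval y = c * f.eval y ^ q := by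
    rw [ht, eval_sub, eval_one, eval_mul, eval_C, eval_pow]
    ring
  have h4 : (f.eval y)⁻¹ - (Polynomial.C c * f ^ (q - 1) * ∑ i ∈ range m, t ^ i).eval y =
      (f.eval y)⁻¹ * (t.eval y) ^ m := by
    rw [eval_mul, eval_mul, eval_C, eval_pow, eval_finsetSum]
    simp only [eval_pow]
    have h5 : c * f.eval y ^ (q - 1) * ∑ i ∈ range m, (t.eval y) ^ i =
        (f.eval y)⁻¹ * ((∑ i ∈ range m, (t.eval y) ^ i) * (1 - t.eval y)) := by
      rw [h3]
      have h6 : f.eval y ^ q = f.eval y ^ (q - 1) * f.eval y := by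
        rw [← pow_succ, Nat.sub_add_cancel hqpos]
      rw [h6]
      field_simp
    rw [h5, h2]
    ring
  rw [h4]
  refine ((RVal.Ge.of_le (v := v) (v.map_inv h0).ge).mul (ge_pow htv m)).mono ?_
  linarith

/-- `N[y]` is dense in the closure of `N(y)`. -/
theorem dense_perf [IsAlgClosed Ω] (p : ℕ) [hp : Fact p.Prime] [CharP Ω p]
    (hlim : ∀ ε : ℝ, 0 < ε → ∃ (j : ℕ) (a : Ω), a ^ p ^ j ∈ N ∧ v.Ge (σ - ε) (y - a))
    (hSd : ∀ l : ℕ, 1 ≤ l → Sd v N y l (l * σ)) {x : Ω} (hx : x ∈ cadj v N y) (b : ℝ) :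
    ∃ f ∈ PI N, v.Ge b (x - f.eval y) := by
  obtain ⟨x', hx', h1⟩ := mem_clI.1 hx b
  have hx'' : x' ∈ adj N y := hx'
  rw [mem_adj_iff, IntermediateField.mem_adjoin_simple_iff] at hx''
  obtain ⟨P, Q, rfl⟩ := hx''
  have hPI : ∀ P : Polynomial N, P.map (algebraMap N Ω) ∈ PI N := fun P i => by
    rw [coeff_map]
    exact (P.coeff i).2
  rw [← eval_map_algebraMap, ← eval_map_algebraMap] at h1
  set f := P.map (algebraMap N Ω) with hf
  set g := Q.map (algebraMap N Ω) with hg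
  by_cases hg0 : g.eval y = 0
  · rw [hg0, div_zero] at h1
    exact ⟨0, zero_mem _, by rwa [eval_zero]⟩
  by_cases hf0 : f.eval y = 0
  · rw [hf0, zero_div] at h1
    exact ⟨0, zero_mem _, by rwa [eval_zero]⟩
  obtain ⟨h, hh, h2⟩ := inv_approx_perf p hlim hSd (hPI Q) hg0 (b - v (f.eval y))
  refine ⟨f * h, mul_mem (hPI P) hh, ?_⟩
  have e : x - (f * h).eval y = (x - f.eval y / g.eval y) +
      f.eval y * ((g.eval y)⁻¹ - h.eval y) := by
    rw [eval_mul]
    ring
  rw [e]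
  refine h1.add (((RVal.ge_self (v := v) (f.eval y)).mul h2).mono ?_)
  linarith

/-- **Strict floors.** -/
theorem exists_sfl [IsAlgClosed Ω] (p : ℕ) [hp : Fact p.Prime] [CharP Ω p] (hΩ : CompleteV v)
    (hfar : ∀ θ : Ω, IsAlgebraic N θ → y ≠ θ ∧ v (y - θ) ≤ σ)
    (hlim : ∀ ε : ℝ, 0 < ε → ∃ (j : ℕ) (a : Ω), a ^ p ^ j ∈ N ∧ v.Ge (σ - ε) (y - a))
    (hSd : ∀ l : ℕ, 1 ≤ l → Sd v N y l (l * σ)) : ∃ D : ℕ → Ω → Ω, SFl p v N y σ D := by
  have hp0 : (0 : ℝ) < p := by exact_mod_cast hp.out.pos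
  obtain ⟨D, h1, h2, h3, h4, h5, h6⟩ := exists_ext (ρ := σ) hΩ
    (fun x hx b => dense_perf p hlim hSd hx b) (fun {f} hf j {b} hb => by
      have := TWC.jet_ge hfar hf hb j
      rwa [taylor_coeff] at this)
  refine ⟨D,
    { hsd := h1
      poly := h3
      comp := h4
      str := ?_
      oi := h2
      dense := fun x hx b => dense_perf p hlim hSd hx b
      lim := ?_ }⟩
  · intro n hn
    obtain ⟨η, hη, h7⟩ := hSd n (Nat.one_le_iff_ne_zero.2 hn)
    refine ⟨η, hη, fun x hx b hb => ?_⟩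
    obtain ⟨f, hf, h8, h9⟩ := h5 n x hx (max b (b - n * σ + η))
    have h10 : v.Ge b (f.eval y) := by
      have e : f.eval y = x - (x - f.eval y) := by ring
      rw [e]
      exact hb.sub (h8.mono (le_max_left _ _))
    have h11 := h7 f hf b h10
    rw [taylor_coeff] at h11
    have e : D n x = (D n x - (hasseDeriv n f).eval y) + (hasseDeriv n f).eval y := by ring
    rw [e]
    exact (h9.mono (le_max_right _ _)).add h11
  · intro δ hδ
    obtain ⟨j, a, haN, h7⟩ := hlim δ hδ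
    refine ⟨j, a ^ p ^ j, haN, ?_⟩
    rw [← sub_pow_char_pow]
    refine (ge_pow h7 (p ^ j)).mono (le_of_eq ?_)
    push_cast
    ring

end Pool.Agent.TWEX
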