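import Pool.Agent.Lib.TWEX.Opn

/-!
# TANK W: the closure of a finitely generated field is not a union

`exists_of_union`: `K₀` finitely generated with bounded distortion, in the closure of a directed union
of fields `L j` (in the closure of `K₀`): one of the `L j` is dense.
-/

set_option autoImplicit false

open Polynomial

namespace Pool.Agent.TWEX

open Pool.Agent.H15JM (RVal)
open Pool.Agent.LUC (Cl clF)
open Pool.Agent.D2 (Ctx0)
open Pool.Agent.D2P (hen clI mem_clI)
open Pool.Agent.TW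
open Pool.Agent.TWM (le_clI clI_mono)

universe u

variable {k Ω : Type u} [Field k] [Field Ω] [Algebra k Ω] {v : RVal Ω}

/-- Generators as a family. -/
theorem exists_gen_fam {K : IntermediateField k Ω} (hK : K.FG) :
    ∃ (m : ℕ) (g : Fin m → Ω), kr k g = K := by
  classical
  obtain ⟨G, hG⟩ := id hK
  refine ⟨G.card, fun i => (G.equivFin.symm i : Ω), ?_⟩
  have hg : Set.range (fun i => (G.equivFin.symm i : Ω)) = (G : Set Ω) := by
    ext x
    constructor
    · rintro ⟨i, rfl⟩
      exact (G.equivFin.symm i).2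
    · intro hx
      exact ⟨G.equivFin ⟨x, hx⟩, by simp⟩
  rw [kr, hg, hG]

/-- **One member of a directed family is dense.** -/
theorem exists_of_union [IsAlgClosed k] {p : ℕ} [Fact p.Prime] [CharP k p] [CharP Ω p]
    (h0 : Ctx0 k v) {K₀ : IntermediateField k Ω} (hK : K₀.FG) (hBD : BD p v K₀) {ι : Type*}
    [Nonempty ι] {L : ι → IntermediateField k Ω} (hdir : Directed (· ≤ ·) L)
    (hle : ∀ j, L j ≤ clI v K₀)
    (hden : ∀ x ∈ K₀, ∀ b : ℝ, ∃ j, ∃ a ∈ L j, v.Ge b (x - a)) :
    ∃ j, clI v (L j) = clI v K₀ := by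
  classical
  obtain ⟨m, g, hg⟩ := exists_gen_fam hK
  obtain ⟨δ, hδ⟩ := pert_fg (p := p) h0 (g := g) (by rw [hg]; exact hBD)
  have hgK : ∀ i, g i ∈ K₀ := fun i => by
    rw [← hg]
    exact mem_kr g i
  choose J t ht htg using fun i => hden (g i) (hgK i) δ
  obtain ⟨j, hj⟩ : ∃ j, ∀ i, L (J i) ≤ L j := by
    obtain ⟨j, hj⟩ := hdir.finset_le (Finset.univ.image J)
    exact ⟨j, fun i => hj _ (Finset.mem_image_of_mem J (Finset.mem_univ i))⟩
  refine ⟨j, ?_⟩
  rw [hδ (L j) (by rw [hg]; exact hle j) ⟨t, fun i => hj i (ht i), htg⟩, hg]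

end Pool.Agent.TWEX
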