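import Pool.Agent.Lib.TWEX.GenB

/-!
# TANK W, exit of the strict case: openness of generation

* `NrC v η a b`: `b` is near `a`, relative precision `η`;
* `near_all`: if `k(g)` has bounded distortion, every element of `k(g)` is near an element of `k(t)`,
  with the same relative precision, if `t` is near `g` (no independence of `g`);
* `pert_fg`: then the closures of `k(t)` and `k(g)` agree;
* `hen_eq_of_near'`, `hen_eq_of_moved'`: generation, for any generators `T`.
-/

set_option autoImplicit false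

open Polynomial

namespace Pool.Agent.TWEX

open Pool.Agent.H15JM (RVal)
open Pool.Agent.LU1 (VPos adj)
open Pool.Agent.LUC (Cl clF)
open Pool.Agent.D2 (Ctx0)
open Pool.Agent.D2P (hen clI mem_clI mem_hen le_hen hen_hen hen_mono hen_le mem_adj_self adj_le)
open Pool.Agent.TW
open Pool.Agent.TWM (CompleteV le_clI clI_mono clI_clI clI_hen OI pbasis_clI cld_clI PI ge_pow
  ge_sub_comm Gt)

universe u

/-! ### Relative precision -/

section Rel

variable {Ω : Type u} [Field Ω] {v : RVal Ω}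

/-- `b` is near `a`, with relative precision `η`. -/
def NrC (v : RVal Ω) (η : ℝ) (a b : Ω) : Prop := (a = 0 → b = 0) ∧ v.Ge (v a + η) (a - b)

namespace NrC

variable {η η' : ℝ} {a b a' b' : Ω}

theorem mono (h : NrC v η a b) (hη : η' ≤ η) : NrC v η' a b :=
  ⟨h.1, h.2.mono (by linarith)⟩

theorem zero : NrC v η (0 : Ω) 0 := ⟨fun _ => rfl, by rw [sub_zero]; exact RVal.Ge.zero⟩

theorem val (h : NrC v η a b) (hη : 0 < η) (ha : a ≠ 0) : b ≠ 0 ∧ v b = v a :=
  TWM.Gt.val_eq ha (TWM.Gt.of_ge h.2 (by linarith))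

theorem mul (h : NrC v η a b) (h' : NrC v η a' b') (hη : 0 < η) : NrC v η (a * a') (b * b') := by
  by_cases ha : a = 0
  · rw [ha, h.1 ha, zero_mul, zero_mul]
    exact zero
  by_cases ha' : a' = 0
  · rw [ha', h'.1 ha', mul_zero, mul_zero]
    exact zero
  refine ⟨fun h0 => absurd h0 (mul_ne_zero ha ha'), ?_⟩
  have e : a * a' - b * b' = (a - b) * a' + b * (a' - b') := by ring
  obtain ⟨hb, hvb⟩ := h.val hη ha
  rw [e, v.map_mul ha ha']
  refine RVal.Ge.add ((h.2.mul (RVal.ge_self (v := v) a')).mono (by linarith)) ?_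
  refine ((RVal.ge_self (v := v) b).mul h'.2).mono (by linarith)

theorem inv (h : NrC v η a b) (hη : 0 < η) : NrC v η a⁻¹ b⁻¹ := by
  by_cases ha : a = 0
  · rw [ha, h.1 ha, inv_zero]
    exact zero
  obtain ⟨hb, hvb⟩ := h.val hη ha
  refine ⟨fun h0 => absurd h0 (inv_ne_zero ha), ?_⟩
  have e : a⁻¹ - b⁻¹ = -(a - b) * (a * b)⁻¹ := by
    field_simp
    ring
  rw [e]
  refine (h.2.neg.mul (RVal.ge_self (v := v) (a * b)⁻¹)).mono ?_
  rw [v.map_inv (mul_ne_zero ha hb), v.map_mul ha hb, v.map_inv ha, hvb]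
  linarith

theorem div (h : NrC v η a b) (h' : NrC v η a' b') (hη : 0 < η) : NrC v η (a / a') (b / b') := by
  rw [div_eq_mul_inv, div_eq_mul_inv]
  exact h.mul (h'.inv hη) hη

theorem pow_char (p : ℕ) [hp : Fact p.Prime] [CharP Ω p] (h : NrC v η a b) :
    NrC v (p * η) (a ^ p) (b ^ p) := by
  by_cases ha : a = 0
  · rw [ha, h.1 ha, zero_pow hp.out.ne_zero]
    exact zero
  refine ⟨fun h0 => absurd (pow_eq_zero_iff hp.out.ne_zero |>.1 h0) ha, ?_⟩
  rw [← sub_pow_char, v.map_pow ha]
  exact (ge_pow h.2 p).mono (le_of_eq (by ring))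

end NrC

end Rel

variable {k Ω : Type u} [Field k] [Field Ω] [Algebra k Ω] {v : RVal Ω}

/-! ### Bounded values -/

/-- The values of the elements of a finite dimensional space are bounded. -/
theorem exists_bdd (h0 : Ctx0 k v) {ι : Type*} (S : Finset ι) (x : ι → Ω) :
    ∃ X : ℝ, ∀ c : ι → k, ∑ i ∈ S, algebraMap k Ω (c i) * x i ≠ 0 →
      v (∑ i ∈ S, algebraMap k Ω (c i) * x i) ≤ X := by
  classical
  induction S using Finset.induction_on with
  | empty => exact ⟨0, fun c hc => absurd Finset.sum_empty hc⟩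
  | insert a S ha ih =>
    obtain ⟨X, hX⟩ := ih
    -- at most one element of the smaller space is near `x a`
    obtain ⟨Y, hY⟩ : ∃ Y : ℝ, ∀ c : ι → k, x a + ∑ i ∈ S, algebraMap k Ω (c i) * x i ≠ 0 →
        v (x a + ∑ i ∈ S, algebraMap k Ω (c i) * x i) ≤ Y := by
      by_cases hex : ∃ c : ι → k, x a + ∑ i ∈ S, algebraMap k Ω (c i) * x i ≠ 0 ∧
          X < v (x a + ∑ i ∈ S, algebraMap k Ω (c i) * x i)
      · obtain ⟨c₀, hc₀, h1⟩ := hex
        refine ⟨v (x a + ∑ i ∈ S, algebraMap k Ω (c₀ i) * x i), fun c hc => ?_⟩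
        by_contra h2
        push Not at h2
        have h3 : x a + ∑ i ∈ S, algebraMap k Ω (c i) * x i -
            (x a + ∑ i ∈ S, algebraMap k Ω (c₀ i) * x i) =
            ∑ i ∈ S, algebraMap k Ω (c i - c₀ i) * x i := by
          rw [add_sub_add_left_eq_sub, ← Finset.sum_sub_distrib]
          refine Finset.sum_congr rfl fun i _ => ?_
          rw [map_sub]
          ring
        have h4 : Gt v X (∑ i ∈ S, algebraMap k Ω (c i - c₀ i) * x i) := by
          rw [← h3]
          exact TWM.Gt.sub (fun _ => h1.trans h2) (fun _ => h1)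
        have h5 : ∑ i ∈ S, algebraMap k Ω (c i - c₀ i) * x i = 0 := by
          by_contra h6
          exact absurd (hX _ h6) (not_le.2 (h4 h6))
        rw [h5, sub_eq_zero] at h3
        rw [h3] at h2
        exact lt_irrefl _ h2
      · push Not at hex
        exact ⟨X, fun c hc => hex c hc⟩
    refine ⟨max X Y, fun c hc => ?_⟩
    rw [Finset.sum_insert ha] at hc ⊢
    by_cases hca : c a = 0
    · rw [hca, map_zero, zero_mul, zero_add] at hc ⊢
      exact (hX c hc).trans (le_max_left _ _)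
    · have hca' : algebraMap k Ω (c a) ≠ 0 := fun h => hca ((map_eq_zero _).1 h)
      have e : algebraMap k Ω (c a) * x a + ∑ i ∈ S, algebraMap k Ω (c i) * x i =
          algebraMap k Ω (c a) * (x a + ∑ i ∈ S, algebraMap k Ω (c i / c a) * x i) := by
        rw [mul_add, Finset.mul_sum]
        congr 1
        refine Finset.sum_congr rfl fun i _ => ?_
        rw [map_div₀]
        field_simp
      rw [e] at hc ⊢
      have h6 := right_ne_zero_of_mul hc
      rw [v.map_mul hca' h6, h0.triv _ hca, zero_add]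
      exact (hY _ h6).trans (le_max_right _ _)

/-- The values of the polynomials of bounded degree are bounded. -/
theorem exists_bdd_poly (h0 : Ctx0 k v) {m : ℕ} (g : Fin m → Ω) (d : ℕ) :
    ∃ X : ℝ, ∀ P : MvPolynomial (Fin m) k, P.totalDegree ≤ d → MvPolynomial.aeval g P ≠ 0 →
      v (MvPolynomial.aeval g P) ≤ X := by
  classical
  have hfin : {M : Fin m →₀ ℕ | M.degree ≤ d}.Finite := by
    refine (Set.finite_Iic (Finsupp.equivFunOnFinite.symm fun _ : Fin m => d)).subset ?_
    intro M hM i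
    have h1 : M i ≤ M.degree := Finsupp.le_degree i M
    exact h1.trans hM
  obtain ⟨X, hX⟩ := exists_bdd (v := v) h0 hfin.toFinset fun M : Fin m →₀ ℕ => ∏ i, g i ^ M i
  refine ⟨X, fun P hP => ?_⟩
  have e : MvPolynomial.aeval g P = ∑ M ∈ hfin.toFinset, algebraMap k Ω (P.coeff M) *
      ∏ i, g i ^ M i := by
    rw [MvPolynomial.aeval_def, MvPolynomial.eval₂_eq']
    refine Finset.sum_subset (fun M hM => ?_) fun M _ hM => ?_
    · rw [Set.Finite.mem_toFinset]
      have h1 := MvPolynomial.le_totalDegree hM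
      rw [Finsupp.sum_fintype _ _ (fun _ => rfl), ← Finsupp.degree_eq_sum] at h1
      exact h1.trans hP
    · rw [MvPolynomial.notMem_support_iff.1 hM, map_zero, zero_mul]
  rw [e]
  exact hX fun M => P.coeff M

/-- Polynomials of bounded degree are uniformly continuous. -/
theorem exists_unif (h0 : Ctx0 k v) {m : ℕ} (g : Fin m → Ω) (d : ℕ) (B : ℝ) :
    ∃ δ : ℝ, ∀ t : Fin m → Ω, (∀ i, v.Ge δ (g i - t i)) → ∀ P : MvPolynomial (Fin m) k,
      P.totalDegree ≤ d → v.Ge B (MvPolynomial.aeval g P - MvPolynomial.aeval t P) := by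
  classical
  have hfin : {M : Fin m →₀ ℕ | M.degree ≤ d}.Finite := by
    refine (Set.finite_Iic (Finsupp.equivFunOnFinite.symm fun _ : Fin m => d)).subset ?_
    intro M hM i
    have h1 : M i ≤ M.degree := Finsupp.le_degree i M
    exact h1.trans hM
  have hJF : ∀ M : Fin m →₀ ℕ, JF v (⊥ : IntermediateField k Ω) g Set.univ
      fun t => ∏ i, t i ^ M i := fun M => JF.prod _ _ fun i _ => (JF.coord (Set.mem_univ i)).pow _
  choose δ hδ using fun M => (hJF M).cont B
  obtain ⟨X, hX⟩ := (hfin.toFinset.image δ).bddAbove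
  refine ⟨X, fun t ht P hP => ?_⟩
  have e : MvPolynomial.aeval g P - MvPolynomial.aeval t P = ∑ M ∈ P.support,
      algebraMap k Ω (P.coeff M) * (∏ i, g i ^ M i - ∏ i, t i ^ M i) := by
    rw [MvPolynomial.aeval_def, MvPolynomial.aeval_def, MvPolynomial.eval₂_eq',
      MvPolynomial.eval₂_eq', ← Finset.sum_sub_distrib]
    exact Finset.sum_congr rfl fun M _ => by ring
  rw [e]
  refine RVal.Ge.sum _ _ fun M hM => ?_
  have h1 := MvPolynomial.le_totalDegree hM
  rw [Finsupp.sum_fintype _ _ (fun _ => rfl), ← Finsupp.degree_eq_sum] at h1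
  refine ((h0.ge (P.coeff M)).mul (hδ M t fun i _ => (ht i).mono ?_)).mono (by linarith)
  exact hX (Finset.mem_coe.2 (Finset.mem_image_of_mem δ (hfin.mem_toFinset.2 (h1.trans hP))))

/-- A common denominator. -/
theorem exists_den {m : ℕ} {g : Fin m → Ω} {ι : Type*} [Fintype ι] {c : ι → Ω}
    (hc : ∀ i, c i ∈ kr k g) : ∃ (Q : MvPolynomial (Fin m) k) (P : ι → MvPolynomial (Fin m) k),
      MvPolynomial.aeval g Q ≠ 0 ∧ ∀ i, c i * MvPolynomial.aeval g Q = MvPolynomial.aeval g (P i) := by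
  classical
  have h1 : ∀ i, ∃ A B : MvPolynomial (Fin m) k, MvPolynomial.aeval g B ≠ 0 ∧
      c i = MvPolynomial.aeval g A / MvPolynomial.aeval g B := by
    intro i
    obtain ⟨A, B, hAB⟩ := (IntermediateField.mem_adjoin_range_iff (F := k) g (c i)).1 (hc i)
    by_cases hB : MvPolynomial.aeval g B = 0
    · refine ⟨0, 1, by rw [map_one]; exact one_ne_zero, ?_⟩
      rw [hAB, hB, div_zero, map_zero, zero_div]
    · exact ⟨A, B, hB, hAB⟩
  choose A B hB hAB using h1
  refine ⟨∏ i, B i, fun i => A i * ∏ j ∈ Finset.univ.erase i, B j, ?_, fun i => ?_⟩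
  · rw [map_prod]
    exact Finset.prod_ne_zero_iff.2 fun i _ => hB i
  · rw [← Finset.mul_prod_erase _ _ (Finset.mem_univ i), map_mul, map_mul, hAB i, ← mul_assoc,
      div_mul_cancel₀ _ (hB i)]

section Bd

variable [IsAlgClosed k] {p : ℕ} [Fact p.Prime] [CharP k p] [CharP Ω p]

/-- **Openness**: every polynomial in `g` is near an element of `k(t)`. -/
theorem near_poly (h0 : Ctx0 k v) {m n : ℕ} {g : Fin m → Ω} {s : Fin n → Ω} {C : ℝ}
    (hs : PBasis p (kr k g) s) (ho : OI p v (kr k g) s C) (hC : 0 ≤ C) {η : ℝ} (hη : 0 < η)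
    (hηC : C + η ≤ p * η) :
    ∃ δ : ℝ, ∀ t : Fin m → Ω, (∀ i, v.Ge δ (g i - t i)) → ∀ P : MvPolynomial (Fin m) k,
      ∃ b ∈ kr k t, NrC v η (MvPolynomial.aeval g P) b := by
  classical
  have hp2 := (Fact.out : p.Prime).two_le
  -- the coefficients of the monomials in `g`
  have hmon : ∀ α : Fin m → Fin p, mon g α ∈ kr k g := fun α =>
    prod_mem fun i _ => pow_mem (mem_kr g i) _
  choose c hc hcm using fun α => hs.span _ (hmon α)
  obtain ⟨Q, R, hQ, hR⟩ := exists_den (k := k) (g := g)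
    (c := fun x : (Fin m → Fin p) × (Fin n → Fin p) => c x.1 x.2) fun x => hc x.1 x.2
  set D : ℕ := Finset.univ.sup fun x => (R x).totalDegree with hD
  have hDx : ∀ x, (R x).totalDegree ≤ D := fun x =>
    Finset.le_sup (f := fun x => (R x).totalDegree) (Finset.mem_univ x)
  set F : Ω := MvPolynomial.aeval g Q with hF
  -- the base
  obtain ⟨X, hX⟩ := exists_bdd_poly (v := v) h0 g (2 * D)
  obtain ⟨δ₁, hδ₁⟩ := exists_unif (v := v) h0 g (2 * D) (X + η)
  obtain ⟨δ₂, hδ₂⟩ := exists_unif (v := v) h0 g Q.totalDegree (v F + (C + η))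
  -- the monomials in `s`
  have hsm : ∀ β : Fin n → Fin p, ∃ A : (Fin m → Ω) → Ω, mon s β = A g ∧
      JF v (⊥ : IntermediateField k Ω) g Set.univ A := by
    intro β
    have h1 : mon s β ∈ kr k g := prod_mem fun i _ => pow_mem (hs.mem i) _
    obtain ⟨A, B, hAB⟩ := (IntermediateField.mem_adjoin_range_iff (F := k) g (mon s β)).1 h1
    by_cases hB : MvPolynomial.aeval g B = 0
    · refine ⟨fun _ => 0, ?_, JF.const (zero_mem _)⟩
      rw [hAB, hB, div_zero]
    · have hJ : ∀ P : MvPolynomial (Fin m) k, JF v (⊥ : IntermediateField k Ω) g Set.univ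
          fun t => MvPolynomial.aeval t P := by
        intro P
        refine ⟨fun M _ t ht => P4.aeval_mem (fun i => ht i (Set.mem_univ i)) P, fun B => ?_⟩
        obtain ⟨δ, hδ⟩ := exists_unif (v := v) h0 g P.totalDegree B
        exact ⟨δ, fun t ht => hδ t (fun i => ht i (Set.mem_univ i)) P le_rfl⟩
      exact ⟨fun t => MvPolynomial.aeval t A / MvPolynomial.aeval t B, hAB, (hJ A).div (hJ B) hB⟩
  choose A hA hAJ using hsm
  choose δ₃ hδ₃ using fun β => (hAJ β).cont (v (mon s β) + (C + η))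
  obtain ⟨δ₄, hδ₄⟩ : ∃ δ₄ : ℝ, ∀ β, δ₃ β ≤ δ₄ := by
    obtain ⟨Y, hY⟩ := (Finset.univ.image δ₃).bddAbove
    exact ⟨Y, fun β => hY (Finset.mem_coe.2 (Finset.mem_image_of_mem δ₃ (Finset.mem_univ β)))⟩
  refine ⟨max (max δ₁ δ₂) δ₄, fun t ht => ?_⟩
  have ht1 : ∀ i, v.Ge δ₁ (g i - t i) := fun i =>
    (ht i).mono ((le_max_left _ _).trans (le_max_left _ _))
  have ht2 : ∀ i, v.Ge δ₂ (g i - t i) := fun i =>
    (ht i).mono ((le_max_right _ _).trans (le_max_left _ _))
  have htm : ∀ i, t i ∈ kr k t := fun i => mem_kr t i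
  -- the denominator
  set F' : Ω := MvPolynomial.aeval t Q with hF'
  have hFF : NrC v (C + η) F F' :=
    ⟨fun h => absurd h hQ, hδ₂ t ht2 Q le_rfl⟩
  -- the monomials
  have hms : ∀ β : Fin n → Fin p, mon s β ≠ 0 := by
    intro β h1
    have h2 := hs.ind (fun γ => if γ = β then 1 else 0) (fun γ => by
      split_ifs
      exacts [one_mem _, zero_mem _]) (by
      rw [pcomb, Finset.sum_eq_single β]
      · rw [h1, mul_zero]
      · intro γ _ hγ
        rw [if_neg hγ, zero_pow (Fact.out : p.Prime).ne_zero, zero_mul]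
      · exact fun h => absurd (Finset.mem_univ β) h) β
    rw [if_pos rfl] at h2
    exact one_ne_zero h2
  have hmm : ∀ β, NrC v (C + η) (mon s β) (A β t) := by
    intro β
    refine ⟨fun h => absurd h (hms β), ?_⟩
    have h1 := hδ₃ β t fun i _ => (ht i).mono ((hδ₄ β).trans (le_max_right _ _))
    rwa [← hA β] at h1
  have hmt : ∀ β, A β t ∈ kr k t := fun β => (hAJ β).mem _ bot_le t fun i _ => htm i
  have key : ∀ d : ℕ, ∀ P : MvPolynomial (Fin m) k, P.totalDegree ≤ d →
      ∃ b ∈ kr k t, NrC v η (MvPolynomial.aeval g P) b := by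
    intro d
    induction d using Nat.strong_induction_on with
    | _ d ih =>
      intro P hP
      by_cases hP0 : MvPolynomial.aeval g P = 0
      · exact ⟨0, zero_mem _, by rw [hP0]; exact NrC.zero⟩
      rcases Nat.lt_or_ge (2 * D) d with hd | hd
      · -- the step
        obtain ⟨q, hq, hPq⟩ := P4.exists_decomp p P hP
        -- the coefficients
        let e : (Fin n → Fin p) → MvPolynomial (Fin m) k := fun β => ∑ α, q α * R (α, β)
        have hed : ∀ β, (e β).totalDegree ≤ d - 1 := by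
          intro β
          refine MvPolynomial.totalDegree_finsetSum_le fun α _ => ?_
          refine (MvPolynomial.totalDegree_mul _ _).trans ?_
          have h1 := hq α
          have h2 := hDx (α, β)
          have h3 : 2 * (q α).totalDegree ≤ d := (Nat.mul_le_mul_right _ hp2).trans h1
          omega
        choose b hb hbn using fun β => ih (d - 1) (by omega) (e β) (hed β)
        have hsum : MvPolynomial.aeval g P * F ^ p = pcomb s fun β => MvPolynomial.aeval g (e β) := by
          have h1 : MvPolynomial.aeval g P = ∑ α, (MvPolynomial.aeval g (q α)) ^ p * mon g α := by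
            conv_lhs => rw [hPq]
            exact P4.aeval_decomp g q
          rw [h1, Finset.sum_mul]
          have h2 : ∀ α, MvPolynomial.aeval g (q α) ^ p * mon g α * F ^ p =
              ∑ β, (MvPolynomial.aeval g (q α * R (α, β))) ^ p * mon s β := by
            intro α
            rw [hcm α, pcomb, Finset.mul_sum, Finset.sum_mul]
            refine Finset.sum_congr rfl fun β _ => ?_
            rw [map_mul, ← hR (α, β), mul_pow, mul_pow]
            ring
          rw [Finset.sum_congr rfl fun α _ => h2 α, Finset.sum_comm, pcomb]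
          refine Finset.sum_congr rfl fun β _ => ?_
          rw [← Finset.sum_mul, map_sum, sum_pow_char]
        have hF0 : F ^ p ≠ 0 := pow_ne_zero _ hQ
        set W : Ω := pcomb s fun β => MvPolynomial.aeval g (e β) with hW
        have hW0 : W ≠ 0 := by
          rw [← hsum]
          exact mul_ne_zero hP0 hF0
        set W' : Ω := ∑ β, b β ^ p * A β t with hW'
        have hterm : ∀ β, NrC v (C + η) (MvPolynomial.aeval g (e β) ^ p * mon s β)
            (b β ^ p * A β t) := fun β =>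
          (((hbn β).pow_char p).mono hηC).mul (hmm β) (by linarith)
        have hoi := ho (fun β => MvPolynomial.aeval g (e β)) (fun β => P4.aeval_mem (mem_kr g) _)
          (v W) (RVal.ge_self (v := v) W)
        have hWW : NrC v η W W' := by
          refine ⟨fun h => absurd h hW0, ?_⟩
          have e1 : W - W' = ∑ β, (MvPolynomial.aeval g (e β) ^ p * mon s β - b β ^ p * A β t) := by
            rw [Finset.sum_sub_distrib]
            rfl
          rw [e1]
          refine RVal.Ge.sum _ _ fun β _ => ?_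
          by_cases hz : MvPolynomial.aeval g (e β) ^ p * mon s β = 0
          · rw [hz, (hterm β).1 hz, sub_zero]
            exact RVal.Ge.zero
          · refine (hterm β).2.mono ?_
            have := hoi β hz
            linarith
        refine ⟨W' / F' ^ p, div_mem (sum_mem fun β _ => mul_mem (pow_mem (hb β) _) (hmt β))
          (pow_mem (P4.aeval_mem htm _) _), ?_⟩
        have e2 : MvPolynomial.aeval g P = W / F ^ p := by
          rw [← hsum, mul_div_cancel_right₀ _ hF0]
        rw [e2]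
        refine hWW.div (((hFF.pow_char p).mono ?_)) hη
        have h6 : (2 : ℝ) ≤ p := by exact_mod_cast hp2
        nlinarith
      · -- the base
        refine ⟨MvPolynomial.aeval t P, P4.aeval_mem htm _, fun h => absurd h hP0, ?_⟩
        refine (hδ₁ t ht1 P (hP.trans hd)).mono ?_
        have := hX P (hP.trans hd) hP0
        linarith
  exact fun P => key _ P le_rfl

/-- **Openness**: every element of `k(g)` is near an element of `k(t)`. -/
theorem near_all (h0 : Ctx0 k v) {m : ℕ} {g : Fin m → Ω} (hBD : BD p v (kr k g)) (η : ℝ) :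
    ∃ δ : ℝ, ∀ t : Fin m → Ω, (∀ i, v.Ge δ (g i - t i)) → ∀ a ∈ kr k g,
      ∃ b ∈ kr k t, NrC v η a b := by
  obtain ⟨n, s, hs, C, hC⟩ := hBD
  have ho : OI p v (kr k g) s (max C 0) := (OI.of_orth_pb hC hs).mono le_rfl (le_max_left _ _)
  have hp2 : (2 : ℝ) ≤ p := by exact_mod_cast (Fact.out : p.Prime).two_le
  obtain ⟨η', hη', hη'0, hη'1⟩ : ∃ η' : ℝ, η ≤ η' ∧ 0 < η' ∧ max C 0 + η' ≤ p * η' := by
    refine ⟨max η (max C 0 + 1), le_max_left _ _, ?_, ?_⟩
    · have h1 := le_max_right η (max C 0 + 1)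
      have h2 := le_max_right C 0
      linarith
    · have h1 := le_max_right η (max C 0 + 1)
      have h2 := le_max_right C 0
      nlinarith
  obtain ⟨δ, hδ⟩ := near_poly h0 hs ho (le_max_right _ _) hη'0 hη'1
  refine ⟨δ, fun t ht a ha => ?_⟩
  obtain ⟨A, B, hAB⟩ := (IntermediateField.mem_adjoin_range_iff (F := k) g a).1 ha
  obtain ⟨b, hb, hb'⟩ := hδ t ht A
  obtain ⟨c, hc, hc'⟩ := hδ t ht B
  refine ⟨b / c, div_mem hb hc, ?_⟩
  rw [hAB]
  exact (hb'.div hc' hη'0).mono hη'

/-- **Openness of generation.** -/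
theorem pert_fg (h0 : Ctx0 k v) {m : ℕ} {g : Fin m → Ω} (hBD : BD p v (kr k g)) :
    ∃ δ : ℝ, ∀ M : IntermediateField k Ω, M ≤ clI v (kr k g) →
      (∃ t : Fin m → Ω, (∀ i, t i ∈ M) ∧ ∀ i, v.Ge δ (g i - t i)) →
      clI v M = clI v (kr k g) := by
  obtain ⟨δ, hδ⟩ := near_all h0 hBD 1
  refine ⟨δ, fun M hM ⟨t, htM, ht⟩ => ?_⟩
  symm
  refine TWM.engineF (R₀ := (kr k g : Set Ω)) (c := 1) ?_ (cld_clI v _) ?_ one_pos ?_
  · exact (clI_mono hM).trans (le_of_eq (clI_clI _))
  · intro b hb B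
    exact mem_clI.1 hb B
  · intro b hb _
    obtain ⟨c, hc, hbc⟩ := hδ t ht b hb
    refine ⟨c, le_clI M ?_, hbc.2⟩
    have h1 : kr k t ≤ M := by
      rw [kr, IntermediateField.adjoin_le_iff]
      rintro _ ⟨i, rfl⟩
      exact htM i
    exact h1 hc

/-- Bounded distortion passes to the dense finitely generated fields of the same transcendence
degree. -/
theorem bd_of_dense (hc : CompleteV v) {K₀ E : IntermediateField k Ω} (hK : K₀.FG) (hE : E.FG)
    (hBD : BD p v K₀) (hcl : clI v K₀ = clI v E) (htr : Algebra.trdeg k E = Algebra.trdeg k K₀) :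
    BD p v E := by
  obtain ⟨n, s, hs, C, hC⟩ := id hBD
  have h1 : Algebra.trdeg k K₀ = n := (hs.trdeg p hK).1
  have hos : OI p v (clI v K₀) s C := (OI.of_orth_pb hC hs).cl
  have hpb : PBasis p (clI v K₀) s := pbasis_clI hc hs hos
  have hBD' : BD p v (clI v K₀) := ⟨_, s, hpb, C, hos.orth⟩
  exact (TWJ.BD_dense hBD' hpb hE hcl.symm).2 (by rw [htr, h1])

/-- **Fields with elements near the generators `T`.** -/
theorem hen_eq_of_near' (h0 : Ctx0 k v) (hc : CompleteV v) {K₀ : IntermediateField k Ω}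
    (hK : K₀.FG) (hBD : BD p v K₀) {m : ℕ} {T : Fin m → Ω}
    (hcl : clI v K₀ = clI v (kr k T)) (htr : Algebra.trdeg k (kr k T) = Algebra.trdeg k K₀) :
    ∃ δ : ℝ, ∀ E : IntermediateField k Ω, E.FG → E ≤ hen v K₀ →
      (∃ t : Fin m → Ω, (∀ i, t i ∈ E) ∧ ∀ i, v.Ge δ (T i - t i)) → hen v E = hen v K₀ := by
  have hT : BD p v (kr k T) := bd_of_dense hc hK
    (IntermediateField.fg_adjoin_of_finite (Set.finite_range _)) hBD hcl htr
  obtain ⟨δ, hδ⟩ := pert_fg h0 hT
  refine ⟨δ, fun E hE hle ht => hen_eq_of_clI p hc hK hE hBD hle ?_⟩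
  have hEcl : E ≤ clI v (kr k T) := by
    rw [← hcl, ← clI_hen K₀]
    exact hle.trans (le_clI _)
  rw [hδ E hEcl ht, ← hcl]
  exact le_clI K₀

/-- **Moved generators generate** (the general form). -/
theorem hen_eq_of_moved' (h0 : Ctx0 k v) (hc : CompleteV v) {K₀ : IntermediateField k Ω}
    (hK : K₀.FG) (hBD : BD p v K₀) {m : ℕ} {T : Fin m → Ω}
    (hcl : clI v K₀ = clI v (kr k T)) (htr : Algebra.trdeg k (kr k T) = Algebra.trdeg k K₀)
    {N₀ : IntermediateField k Ω} {S : Finset ℕ} {A : Fin m → ℕ → (Fin m → Ω) → Ω}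
    (hA : ∀ i, ∀ l ∈ S, JF v N₀ T {j | j < i} (A i l)) (B₀ : ℝ) :
    ∃ Λ : ℝ, ∀ (d d' : Ω) (T' : Fin m → Ω) (E : IntermediateField k Ω), v.Ge B₀ d →
      v.Ge Λ (d - d') → (∀ i, T' i = T i + ∑ l ∈ S, A i l T * d ^ l) → E.FG → E ≤ hen v K₀ →
      N₀ ≤ E → d' ∈ E → (∀ i, T' i ∈ E) → hen v E = hen v K₀ := by
  obtain ⟨δ, hδ⟩ := hen_eq_of_near' h0 hc hK hBD hcl htr
  obtain ⟨Λ, hΛ⟩ := exists_back hA B₀ δ
  exact ⟨Λ, fun d d' T' E h1 h2 h3 hE hle h4 h5 h6 =>
    hδ E hE hle (hΛ d d' T' E h1 h2 h3 h4 h5 h6)⟩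

end Bd

end Pool.Agent.TWEX
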