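import Pool.Agent.Lib.TWEX.RadC

/-!
# TANK W, leaf (II.f): the semantic classes

Let `E` be a class of fields, stable under `K(α)`, `α ^ p ∈ K`, and under homomorphisms near the
identity.

* `SF p v E F`: `F` has a strict overconvergent arc, and the floors of finite shape over `F` are in `E`;
* `SC p v E C σ Φ`: the floors of finite shape over `C`, `Φ` are in `SF`;
* `SF.near`, `SC.near`, `SF.iso`, `SC.up`; `rcls`: `RCls p v (SC p v E) (SF p v E)`;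
* `rfl_near`: `RFl` is stable under homomorphisms near the identity.
-/

set_option autoImplicit false
set_option linter.unusedSectionVars false

open Polynomial Finset

namespace Pool.Agent.TWEX

open Pool.Agent.H15JM (RVal)
open Pool.Agent.LU1 (VPos adj)
open Pool.Agent.D2 (Ctx0)
open Pool.Agent.D2P (clI mem_clI mem_adj_iff mem_adj_self adj_le)
open Pool.Agent.TWM
open Pool.Agent.TWII (Nr PG LP)
open Pool.Agent.TWLM (HSd Oi Arc eval_mem_cadj)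
open Pool.Agent.TW (mon pcomb PBasis Full)
open Pool.Agent.TWS7 (FGc Irr)
open Pool.Agent.TWN1 (RCls RFl Set0)
open Iso (KN)

universe u'

variable {k Ω : Type u'} [Field k] [Field Ω] [Algebra k Ω] {v : RVal Ω}
  {C F K : IntermediateField k Ω} {w z : Ω} {ρ σ κ : ℝ} {Φ : ℕ → Ω → Ω}
  {E : IntermediateField k Ω → Prop}

/-- A closed field with a strict overconvergent arc. -/
structure AO (p : ℕ) (v : RVal Ω) (K : IntermediateField k Ω) (σ : ℝ) (Φ : ℕ → Ω → Ω) : Prop where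
  kn : KN p v K
  arc : Arc v K σ Φ
  oi : Oi v K σ Φ
  irr : Irr v K σ

theorem AO.tr {p : ℕ} (hΩ : CompleteV v) {T : C →ₐ[k] Ω} (hT : Iv v T) (h : AO p v C σ Φ) :
    AO p v T.fieldRange σ (tr T Φ) where
  kn := KN.tr hΩ hT h.kn
  arc := tr_arc hT h.arc
  oi := tr_oi hT h.arc.toHSd h.oi
  irr n hn f hf hf0 h1 := by
    obtain ⟨x, rfl⟩ := mem_rg hf
    have hx0 : (x : Ω) ≠ 0 := ne_zero_of_image hf0
    rw [(hT.val hx0).2] at h1
    exact h.irr n hn x x.2 hx0 h1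

/-- Floors with a strict overconvergent arc; `E` contains the floors of finite shape over them. -/
def SF (p : ℕ) (v : RVal Ω) (E : IntermediateField k Ω → Prop) (F : IntermediateField k Ω) :
    Prop :=
  FGc v 3 F ∧ ∃ (σ : ℝ) (Φ : ℕ → Ω → Ω), AO p v F σ Φ ∧
    ∀ (z : Ω) (s : ℝ), TL v F z s → FinSh v F σ s Φ z → E (cadj v F z)

/-- Fields with a strict overconvergent arc; `SF` contains the floors of finite shape over them. -/
def SC (p : ℕ) (v : RVal Ω) (E : IntermediateField k Ω → Prop) (C : IntermediateField k Ω) (σ : ℝ)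
    (Φ : ℕ → Ω → Ω) : Prop :=
  FGc v 2 C ∧ AO p v C σ Φ ∧
    ∀ (w : Ω) (r : ℝ), TL v C w r → FinSh v C σ r Φ w → SF p v E (cadj v C w)

/-- The class `E` is stable under homomorphisms near the identity. -/
def NearSt (v : RVal Ω) (E : IntermediateField k Ω → Prop) : Prop :=
  ∀ (K : IntermediateField k Ω) (T : K →ₐ[k] Ω) (κ : ℝ), 0 < κ → Near v T κ → E K → E T.fieldRange

variable [IsAlgClosed Ω]

/-- Stability of the floors of finite shape. -/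
theorem near_fin {p : ℕ} (hΩ : CompleteV v) (hE : NearSt v E) {T : C →ₐ[k] Ω} (hT : Near v T κ)
    (hκ : 0 < κ) (hA : AO p v C σ Φ)
    (h : ∀ (z : Ω) (s : ℝ), TL v C z s → FinSh v C σ s Φ z → E (cadj v C z)) {z : Ω} {s : ℝ}
    (hz : TL v T.fieldRange z s) (hf : FinSh v T.fieldRange σ s (tr T Φ) z) :
    E (cadj v T.fieldRange z) := by
  obtain ⟨z', h1, h2, h3, h4⟩ := near_down hT hκ hA.arc.toHSd hA.oi hz hf
  obtain ⟨T', h5, -, -, h6⟩ := exists_near_ext hΩ h2 hT hκ (half_pos hκ) h1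
  rw [h4, ← h6]
  exact hE _ T' _ (div_pos (lt_min hκ (half_pos hκ)) (by norm_num)) h5 (h z' s h2 h3)

theorem SF.near {p : ℕ} (hΩ : CompleteV v) (hE : NearSt v E) : NearSt v (SF p v E) := by
  rintro F T κ hκ hT ⟨h1, σ, Φ, hA, h2⟩
  exact ⟨FGc.tr hΩ h1 (hT.iv hκ), σ, tr T Φ, hA.tr hΩ (hT.iv hκ), fun z s hz hf =>
    near_fin hΩ hE hT hκ hA h2 hz hf⟩

theorem SC.near {p : ℕ} (hΩ : CompleteV v) (hE : NearSt v E) {T : C →ₐ[k] Ω} (hT : Near v T κ)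
    (hκ : 0 < κ) (h : SC p v E C σ Φ) : SC p v E T.fieldRange σ (tr T Φ) := by
  obtain ⟨h1, hA, h2⟩ := h
  exact ⟨FGc.tr hΩ h1 (hT.iv hκ), hA.tr hΩ (hT.iv hκ), fun w r hw hf =>
    near_fin hΩ (SF.near hΩ hE) hT hκ hA h2 hw hf⟩

section Up

variable [IsAlgClosed k] {p : ℕ} [hp : Fact p.Prime] [CharP k p] [CharP Ω p]

/-- The arc of `K(α)`. -/
theorem AO.up (h0 : Ctx0 k v) (hΩ : CompleteV v) (h : AO p v K σ Φ) {α : Ω} (hα : α ^ p ∈ K) :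
    ∃ Ψ : ℕ → Ω → Ω, AO p v (cadj v K α) (σ / p) Ψ ∧ (∀ x ∈ cadj v K α, x ^ p ∈ K) ∧
      ∀ (z : Ω) (ρ : ℝ), TL v (cadj v K α) z ρ → FinSh v (cadj v K α) (σ / p) ρ Ψ z →
        TL v K (z ^ p) (p * ρ) ∧ FinSh v K σ (p * ρ) Φ (z ^ p) := by
  have hp0 : (0 : ℝ) < p := by exact_mod_cast hp.out.pos
  obtain ⟨μ, Θ, Ψ, hU, -⟩ := Iso.iso_up h0 hΩ h.kn h.arc h.oi hα
  refine ⟨Ψ, ⟨hU.kn, hU.arc, hU.aoi, fun n hn f hf hf0 h1 => ?_⟩, fun x hx => (hU.pow x hx).1,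
    fun z ρ hz hf => ⟨tl_pow hz (le_cadj v K α) fun x hx => (hU.pow x hx).1, ?_⟩⟩
  · refine h.irr n hn (f ^ p) (hU.pow f hf).1 (pow_ne_zero _ hf0) ?_
    rw [v.map_pow hf0, h1]
    field_simp
  · refine finSh_pow h.arc h.oi hU.arc hU.aoi (fun x hx => (hU.pow x hx).1) hU.ni.pos
      (fun x hx l b hb => ?_) hz hf
    obtain ⟨h1, h2⟩ := hU.pow x hx
    have h3 := (hU.near (x ^ p) h1 b hb l).neg
    rw [neg_sub] at h3
    rw [h2]
    exact h3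

/-- Two adjunctions. -/
theorem cadj_pow_cadj (hα : K ≤ C) {α : Ω} (hCα : C = cadj v K α)
    (z : Ω) : cadj v (cadj v (cadj v K (z ^ p)) α) z = cadj v C z := by
  refine le_antisymm ?_ ?_
  · refine cadj_le (cld_cadj _ _ _) (cadj_le (cld_cadj _ _ _) (cadj_le (cld_cadj _ _ _)
      (hα.trans (le_cadj v C z)) (pow_mem (self_mem_cadj _ _ _) p)) ?_) (self_mem_cadj _ _ _)
    refine le_cadj v C z ?_
    rw [hCα]
    exact self_mem_cadj _ _ _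
  · refine cadj_le (cld_cadj _ _ _) ?_ (self_mem_cadj _ _ _)
    rw [hCα]
    exact (cadj_le (cld_cadj _ _ _) ((le_cadj _ _ _).trans (le_cadj _ _ _))
      (self_mem_cadj _ _ _)).trans (le_cadj _ _ _)

theorem SF.iso (h0 : Ctx0 k v) (hΩ : CompleteV v)
    (hup : ∀ (K : IntermediateField k Ω) (α : Ω), E K → α ^ p ∈ K → E (cadj v K α))
    (hF : SF p v E F) {α : Ω} (hα : α ^ p ∈ F) : SF p v E (cadj v F α) := by
  obtain ⟨h1, σ, Φ, hA, h2⟩ := hF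
  obtain ⟨Ψ, h3, h4, h5⟩ := hA.up h0 hΩ hα
  refine ⟨FGc.root h0 hΩ h1 hA.kn hα, σ / p, Ψ, h3, fun z s hz hf => ?_⟩
  obtain ⟨h6, h7⟩ := h5 z s hz hf
  have h8 := h2 _ _ h6 h7
  rw [← cadj_pow_cadj (p := p) (le_cadj v F α) rfl z]
  refine hup _ z (hup _ α h8 (le_cadj _ _ _ hα)) ?_
  exact le_cadj _ _ _ (self_mem_cadj _ _ _)

theorem SC.up (h0 : Ctx0 k v) (hΩ : CompleteV v)
    (hup : ∀ (K : IntermediateField k Ω) (α : Ω), E K → α ^ p ∈ K → E (cadj v K α))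
    (hC : SC p v E C σ Φ) {β : Ω} (hβ : β ^ p ∈ C) :
    ∃ Ψ : ℕ → Ω → Ω, SC p v E (cadj v C β) (σ / p) Ψ := by
  obtain ⟨h1, hA, h2⟩ := hC
  obtain ⟨Ψ, h3, h4, h5⟩ := hA.up h0 hΩ hβ
  refine ⟨Ψ, FGc.root h0 hΩ h1 hA.kn hβ, h3, fun z s hz hf => ?_⟩
  obtain ⟨h6, h7⟩ := h5 z s hz hf
  have h8 := h2 _ _ h6 h7
  rw [← cadj_pow_cadj (p := p) (le_cadj v C β) rfl z]
  refine SF.iso h0 hΩ hup (SF.iso h0 hΩ hup h8 (le_cadj _ _ _ hβ)) ?_
  exact le_cadj _ _ _ (self_mem_cadj _ _ _)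

omit [IsAlgClosed k] [IsAlgClosed Ω] [CharP k p] [CharP Ω p] hp in
/-- A finite shape. -/
theorem finSh_of_set0 {Z : PowerSeries Ω} {κ' : ℕ → ℝ} {n₀ : ℕ} (h : Set0 v C Φ w Z κ' ρ σ)
    (hn₀ : ∀ n : ℕ, n₀ ≤ n → Gt v (ρ - n * σ) (PowerSeries.coeff n Z)) : FinSh v C σ ρ Φ w := by
  refine ⟨n₀, fun l hl => ⟨κ' l, h.kpos l, fun c hc h1 => ?_⟩⟩
  have h2 := h.near l (by omega) c hc _ h1
  have e : Φ l c = PowerSeries.coeff l Z - (PowerSeries.coeff l Z - Φ l c) := by ring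
  show v.Ge (ρ - l * σ) (Φ l c)
  rw [e]
  refine (hn₀ l hl.le).ge.sub (h2.mono ?_)
  have h3 := h.kpos l
  have h4 : ρ ≤ min (ρ - κ' l + κ' l) (ρ + κ' l / 2) := le_min (by linarith) (by linarith)
  linarith

/-- **The classes `SC`, `SF`.** -/
theorem rcls (h0 : Ctx0 k v) (hΩ : CompleteV v)
    (hup : ∀ (K : IntermediateField k Ω) (α : Ω), E K → α ^ p ∈ K → E (cadj v K α))
    (hnear : NearSt v E) : RCls p v (SC p v E) (SF p v E) where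
  cld h := h.2.1.kn.cld
  arc h := h.2.1.arc
  oi h := h.2.1.oi
  irr h := h.2.1.irr
  fin h hZ hn₀ := h.2.2 _ _ hZ.tl (finSh_of_set0 hZ hn₀)
  iso h hα := h.iso h0 hΩ hup hα
  exch := by
    intro C σ ρ ν Φ w c r hC hw hc _ hnpg hr hrν
    obtain ⟨F₀, -, -, -, hCF⟩ := hC.1
    have hF₀ : F₀ ≤ C := by
      rw [hCF]
      exact le_clI F₀
    obtain ⟨m, t₀, ht₀⟩ := hC.2.1.kn.pb
    obtain ⟨g, hg, β, hβ, -, κ, hκ, T, hT, -, θ, -, h1, h2⟩ := exch1 p h0 hΩ hC.2.1.kn.cld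
      hC.2.1.kn.imm ht₀ hF₀ (fun x hx b => mem_clI.1 (by rwa [hCF] at hx) b) hw hc hnpg hr hrν
    obtain ⟨Ψ, h3⟩ := hC.up h0 hΩ hup (hF₀ hβ)
    rw [Iso.cadj_eq_adj hΩ hC.2.1.kn.cld (hF₀ hβ)] at h3
    exact ⟨g, hg, T.fieldRange, σ / p, tr T Ψ, θ, SC.near hΩ hnear hT hκ h3, h1, h2⟩

/-- `RFl` is stable under homomorphisms near the identity. -/
theorem rfl_near (h0 : Ctx0 k v) (hΩ : CompleteV v)
    (hup : ∀ (K : IntermediateField k Ω) (α : Ω), E K → α ^ p ∈ K → E (cadj v K α))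
    (hnear : NearSt v E) : NearSt v (RFl v (SC p v E) (SF p v E)) := by
  rintro F T κ hκ hT (h1 | ⟨C, σ, Φ, w, Z, κ', ρ, hC, hZ, -, rfl⟩)
  · exact Or.inl (SF.near hΩ hnear F T κ hκ hT h1)
  · obtain ⟨S, hS, h2, h3⟩ := near_floor hΩ hZ.tl hT hκ
    rw [h3]
    exact RFl.tl (rcls h0 hΩ hup hnear) (SC.near hΩ hnear hS hκ hC) h2

end Up

end Pool.Agent.TWEX
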