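import Pool.Agent.Lib.TWEX.EvTr
import Pool.Agent.Lib.TWEX.RadS

/-!
# TANK W, exit on an isogeny class: transport along homomorphisms near the identity

* `SX0.tr`: transport of an arc with a dense overconvergent subfield;
* `nearSt_eve`: the class `EVe` is stable under homomorphisms near the identity.
-/

set_option autoImplicit false

open Polynomial Finset

namespace Pool.Agent.TWEX

open Pool.Agent.H15JM (RVal)
open Pool.Agent.D2 (Ctx0)
open Pool.Agent.TWM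
open Pool.Agent.TWLM (HSd Oi Arc)
open Pool.Agent.TWEX.Iso (KN SX0 OC)

universe u

variable {k Ω : Type u} [Field k] [Field Ω] [Algebra k Ω] {v : RVal Ω}
  {K : IntermediateField k Ω} {T : K →ₐ[k] Ω} {Φ : ℕ → Ω → Ω} {p : ℕ} {σ κ : ℝ}

theorem tr_oc (hT : Iv v T) (h : HSd K Φ) {x : K} (ho : OC v σ Φ (x : Ω)) :
    OC v σ (tr T Φ) (T x) := by
  obtain ⟨ρ, hρ, B, hB⟩ := ho
  refine ⟨ρ, hρ, B, fun l => ?_⟩
  rw [tr_apply (h.mem l x x.2), hT _ _]
  exact hB l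

/-- Transport of an arc with a dense overconvergent subfield. -/
theorem SX0.tr (hΩ : CompleteV v) (hT : Iv v T) (h : SX0 p v K σ Φ) :
    SX0 p v T.fieldRange σ (tr T Φ) := by
  refine ⟨KN.tr hΩ hT h.kn, tr_arc hT h.arc, tr_oi hT h.arc.toHSd h.oi, fun y hy b => ?_⟩
  obtain ⟨x, rfl⟩ := mem_rg hy
  obtain ⟨g, hg, h1, h2⟩ := h.oc x x.2 b
  refine ⟨T ⟨g, hg⟩, rg_mem _, tr_oc hT h.arc.toHSd h1, ?_⟩
  rw [← map_sub, hT _ _]
  exact h2

/-- **The class `EVe` is stable under homomorphisms near the identity.** -/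
theorem nearSt_eve [IsAlgClosed Ω] (h0 : Ctx0 k v) (hΩ : CompleteV v) :
    NearSt (k := k) v (EVe p v) := by
  rintro K T κ hκ hT ⟨σ, Ψ, h1, h2⟩
  have hI : Iv v T := hT.iv hκ
  exact ⟨σ, TWEX.tr T Ψ, SX0.tr hΩ hI h1, EVu.map h0 hΩ h1.kn.cld (fun x hx => (hI.val hx).2)
    (fun l x hx => h1.arc.mem l x hx) (fun l x => tr_apply (h1.arc.mem l x x.2)) h2⟩

/-- The same for a homomorphism which preserves the values. -/
theorem EVe.tr [IsAlgClosed Ω] (h0 : Ctx0 k v) (hΩ : CompleteV v) (hI : Iv v T)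
    (h : EVe p v K) : EVe p v T.fieldRange := by
  obtain ⟨σ, Ψ, h1, h2⟩ := h
  exact ⟨σ, TWEX.tr T Ψ, SX0.tr hΩ hI h1, EVu.map h0 hΩ h1.kn.cld (fun x hx => (hI.val hx).2)
    (fun l x hx => h1.arc.mem l x hx) (fun l x => tr_apply (h1.arc.mem l x x.2)) h2⟩

end Pool.Agent.TWEX
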