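import Pool.Agent.Lib.TWEX.PullI
import Pool.Agent.Lib.D2P.R0

/-!
# TANK W, exit: extension of isometries

`ι : Ω → Ω'` isometric, `Ω'` complete, `K = clI (ι K₀)`, `χ : K → Ω'` isometric: there is an isometric
`ι₂ : Ω → Ω'` with `ι₂ x = χ (ι x)` for all `x` with `ι x ∈ K` (`exists_ext_iso`).
-/

set_option autoImplicit false
set_option linter.unusedSectionVars false

open Polynomial

namespace Pool.Agent.TWEX

open Pool.Agent.H15JM (RVal)
open Pool.Agent.LU1 (VPos adj)
open Pool.Agent.LUC (Cl clF)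
open Pool.Agent.D2 (Ctx0)
open Pool.Agent.D2P (hen clI mem_clI mem_hen le_hen hen_hen hen_mono hen_le val_root)
open Pool.Agent.TWM (CompleteV le_clI clI_mono clI_clI clI_hen Cld ge_sub_comm Gt Dense)
open Pool.Agent.TWS (IsoE)

universe u

section Norm

variable {k Ω : Type u} [Field k] [Field Ω] [Algebra k Ω] {v : RVal Ω}

omit [Field k] [Algebra k Ω] in
theorem val_mprod {c : ℝ} (s : Multiset Ω) (hs : ∀ x ∈ s, x ≠ 0 ∧ v x = c) :
    s.prod ≠ 0 ∧ v s.prod = s.card * c := by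
  induction s using Multiset.induction_on with
  | empty =>
    rw [Multiset.prod_zero, Multiset.card_zero, Nat.cast_zero, zero_mul]
    exact ⟨one_ne_zero, v.map_one⟩
  | cons a s ih =>
    obtain ⟨h1, h2⟩ := ih fun x hx => hs x (Multiset.mem_cons_of_mem hx)
    obtain ⟨h3, h4⟩ := hs a (Multiset.mem_cons_self a s)
    rw [Multiset.prod_cons, Multiset.card_cons]
    refine ⟨mul_ne_zero h3 h1, ?_⟩
    rw [v.map_mul h3 h1, h2, h4]
    push_cast
    ring

/-- The value of the constant coefficient of the minimal polynomial. -/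
theorem val_coeff0 [IsAlgClosed Ω] (h : Ctx0 k v) {M : IntermediateField k Ω} (hM : hen v M = M)
    {a : Ω} (ha : IsAlgebraic M a) (ha0 : a ≠ 0) :
    ((minpoly M a).coeff 0 : Ω) ≠ 0 ∧
      v ((minpoly M a).coeff 0 : Ω) = (minpoly M a).natDegree * v a := by
  have hint : IsIntegral M a := ha.isIntegral
  set f := (minpoly M a).map (algebraMap M Ω) with hf
  have hmon : f.Monic := (minpoly.monic hint).map _
  have hsp : f.Splits := IsAlgClosed.splits f
  have hc : f.coeff 0 = ((minpoly M a).coeff 0 : Ω) := by rw [hf, coeff_map]; rfl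
  have hdeg : f.natDegree = (minpoly M a).natDegree := natDegree_map _
  have h1 : ∀ x ∈ f.roots, x ≠ 0 ∧ v x = v a := by
    intro x hx
    have h2 : aeval x (minpoly M a) = 0 := by
      have h3 := (mem_roots'.1 hx).2
      rwa [IsRoot.def, hf, eval_map, ← aeval_def] at h3
    refine ⟨?_, val_root h hM ha h2⟩
    rintro rfl
    apply ha0
    rw [← minpoly.coeff_zero_eq_zero hint]
    rw [← coeff_zero_eq_aeval_zero'] at h2
    exact (map_eq_zero_iff _ (algebraMap M Ω).injective).1 h2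
  obtain ⟨h2, h3⟩ := val_mprod f.roots h1
  rw [← hc, hsp.coeff_zero_eq_prod_roots_of_monic hmon]
  have hneg : ((-1 : Ω) ^ f.natDegree) ≠ 0 ∧ v ((-1 : Ω) ^ f.natDegree) = 0 := by
    have h4 : v (-1 : Ω) = 0 := by
      have h5 : (-1 : Ω) ≠ 0 := neg_ne_zero.2 one_ne_zero
      have h6 := v.map_mul h5 h5
      rw [neg_mul_neg, one_mul, v.map_one] at h6
      linarith
    refine ⟨pow_ne_zero _ (neg_ne_zero.2 one_ne_zero), ?_⟩
    rw [RVal.map_pow _ (neg_ne_zero.2 one_ne_zero), h4, mul_zero]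
  refine ⟨mul_ne_zero hneg.1 h2, ?_⟩
  rw [v.map_mul hneg.1 h2, hneg.2, zero_add, h3, ← hsp.natDegree_eq_card_roots, hdeg]

end Norm

/-- A homomorphism into an algebraically closed field extends to an algebraic extension. -/
theorem exists_lift_ac {K L M : Type*} [Field K] [Field L] [Field M] [Algebra K L]
    [Algebra.IsAlgebraic K L] [IsAlgClosed M] (f : K →+* M) :
    ∃ g : L →+* M, ∀ x : K, g (algebraMap K L x) = f x := by
  let _ := f.toAlgebra
  exact ⟨(IsAlgClosed.lift : L →ₐ[K] M).toRingHom, fun x =>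
    AlgHom.commutes (IsAlgClosed.lift : L →ₐ[K] M) x⟩

section Ext

variable {k Ω Ω' : Type u} [Field k] [Field Ω] [Algebra k Ω] [Field Ω'] [Algebra k Ω']
  {v : RVal Ω} {w : RVal Ω'} {ι : Ω →ₐ[k] Ω'}

/-- The range of an isometry of a closed field is closed. -/
theorem cld_range (hcw : CompleteV w) {K : IntermediateField k Ω'} (hK : Cld w K)
    (χ : K →ₐ[k] Ω') (hχ : ∀ x : K, (x : Ω') ≠ 0 → w (χ x) = w (x : Ω')) :
    Cld w χ.fieldRange := by
  have hge : ∀ (x : K) (c : ℝ), w.Ge c (χ x) ↔ w.Ge c (x : Ω') := by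
    intro x c
    by_cases hx : (x : Ω') = 0
    · have h1 : x = 0 := Subtype.ext hx
      rw [h1, map_zero]
      exact Iff.rfl
    · have h1 : χ x ≠ 0 := fun h2 => hx (by
        have h3 : x = 0 := (map_eq_zero_iff χ χ.injective).1 h2
        rw [h3]
        rfl)
      constructor
      · intro h2 _
        rw [← hχ x hx]
        exact h2 h1
      · intro h2 _
        rw [hχ x hx]
        exact h2 hx
  intro y hy
  have h1 : ∀ n : ℕ, ∃ x : K, w.Ge n (y - χ x) := by
    intro n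
    obtain ⟨z, hz, h2⟩ := mem_clI.1 hy n
    obtain ⟨x, rfl⟩ := AlgHom.mem_fieldRange.1 hz
    exact ⟨x, h2⟩
  choose x hx using h1
  obtain ⟨a, ha⟩ := hcw (fun n => (x n : Ω')) (by
    intro c
    obtain ⟨N, hN⟩ := exists_nat_ge c
    refine ⟨N, fun m n hm hn => ?_⟩
    have h2 := ((hx n).mono (hN.trans (by exact_mod_cast hn))).sub
      ((hx m).mono (hN.trans (by exact_mod_cast hm)))
    rw [sub_sub_sub_cancel_left, ← map_sub] at h2
    exact (hge (x m - x n) c).1 h2)
  have haK : a ∈ K := by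
    refine hK (mem_clI.2 fun c => ?_)
    obtain ⟨N, hN⟩ := ha c
    exact ⟨x N, (x N).2, hN N le_rfl⟩
  refine AlgHom.mem_fieldRange.2 ⟨⟨a, haK⟩, ?_⟩
  by_contra hne
  have h0 : y - χ ⟨a, haK⟩ ≠ 0 := fun h2 => hne (sub_eq_zero.1 h2).symm
  obtain ⟨N, hN⟩ := ha (w (y - χ ⟨a, haK⟩) + 1)
  obtain ⟨M, hM⟩ := exists_nat_ge (w (y - χ ⟨a, haK⟩) + 1)
  have h2 := hN (max N M) (le_max_left _ _)
  have h3 := (hge (⟨a, haK⟩ - x (max N M)) _).2 h2
  have h4 := (hx (max N M)).mono (hM.trans (by exact_mod_cast le_max_right N M))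
  rw [map_sub] at h3
  have h5 := (h4.sub h3) (by
    rw [show y - χ (x (max N M)) - (χ ⟨a, haK⟩ - χ (x (max N M))) = y - χ ⟨a, haK⟩ by ring]
    exact h0)
  rw [show y - χ (x (max N M)) - (χ ⟨a, haK⟩ - χ (x (max N M))) = y - χ ⟨a, haK⟩ by ring] at h5
  linarith

/-- **Extension of an isometry of a closed field to its algebraic closure.** -/
theorem exists_ext_alg [IsAlgClosed Ω'] (h0 : Ctx0 k w) (hcw : CompleteV w)
    {K : IntermediateField k Ω'} (hK : Cld w K) (χ : K →ₐ[k] Ω')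
    (hχ : ∀ x : K, (x : Ω') ≠ 0 → w (χ x) = w (x : Ω')) :
    ∃ g : algebraicClosure K Ω' →+* Ω', (∀ x : K, g (algebraMap K (algebraicClosure K Ω') x) = χ x) ∧
      ∀ y : algebraicClosure K Ω', (y : Ω') ≠ 0 → w (g y) = w (y : Ω') := by
  obtain ⟨g, hg⟩ := exists_lift_ac (L := algebraicClosure K Ω') (χ : K →+* Ω')
  refine ⟨g, hg, fun y hy => ?_⟩
  set N := χ.fieldRange with hN
  have hKh : hen w K = K := le_antisymm (fun x hx => hK (mem_clI.2 fun c => (mem_hen.1 hx).1 c))
    (le_hen K)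
  have hNh : hen w N = N := le_antisymm (fun x hx =>
    cld_range hcw hK χ hχ (mem_clI.2 fun c => (mem_hen.1 hx).1 c)) (le_hen N)
  have hyalg : IsAlgebraic K (y : Ω') := mem_algebraicClosure_iff.1 y.2
  have hyint : IsIntegral K (y : Ω') := hyalg.isIntegral
  have hgy0 : g y ≠ 0 := fun h1 => hy (by
    have h2 : y = 0 := (map_eq_zero_iff g g.injective).1 h1
    rw [h2]
    rfl)
  let e : K ≃ₐ[k] N := AlgEquiv.ofInjectiveField χ
  have he : ∀ x : K, ((e x : N) : Ω') = χ x := fun x => rfl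
  set f := minpoly K (y : Ω') with hf
  set f' := f.map (e : K →+* N) with hf'
  have hroot : aeval (g y) f' = 0 := by
    have h1 : aeval y f = 0 := by
      have h3 := Polynomial.aeval_algHom_apply (algebraicClosure K Ω').val y f
      have h4 : aeval ((algebraicClosure K Ω').val y) f = 0 := minpoly.aeval K (y : Ω')
      rw [h4] at h3
      exact (map_eq_zero_iff _ (algebraicClosure K Ω').val.injective).1 h3.symm
    have h2 : g (aeval y f) = 0 := by rw [h1, map_zero]
    rw [aeval_def, hom_eval₂] at h2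
    rw [hf', aeval_def, eval₂_map]
    have h3 : (algebraMap N Ω').comp (e : K →+* N) = g.comp (algebraMap K (algebraicClosure K Ω')) := by
      ext x
      show ((e x : N) : Ω') = g (algebraMap K _ x)
      rw [he, hg]
      rfl
    rw [h3]
    exact h2
  have hmin : minpoly N (g y) = f' := by
    symm
    refine minpoly.eq_of_irreducible_of_monic ?_ hroot ((minpoly.monic hyint).map _)
    have h1 := minpoly.irreducible hyint
    have h2 : f' = Polynomial.mapEquiv (e : K ≃+* N) f := rfl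
    rw [h2]
    exact (MulEquiv.irreducible_iff (Polynomial.mapEquiv (e : K ≃+* N))).2 h1
  have hgalg : IsAlgebraic N (g y) := ⟨f', by
    rw [hf']
    exact (Polynomial.map_ne_zero_iff (e : K ≃+* N).injective).2 (minpoly.ne_zero hyint), hroot⟩
  obtain ⟨h1, h2⟩ := val_coeff0 h0 hKh hyalg hy
  obtain ⟨-, h3⟩ := val_coeff0 h0 hNh hgalg hgy0
  rw [hmin] at h3
  have h4 : ((f'.coeff 0 : N) : Ω') = χ (f.coeff 0) := by
    rw [hf', coeff_map]
    rfl
  have h5 : f'.natDegree = f.natDegree := natDegree_map_eq_of_injective (e : K ≃+* N).injective f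
  rw [h4, h5, hχ _ h1, h2] at h3
  have h6 : ((minpoly K (y : Ω')).natDegree : ℝ) ≠ 0 := by
    exact_mod_cast (minpoly.natDegree_pos hyint).ne'
  exact (mul_left_cancel₀ h6 h3).symm

/-- **Extension of isometries.** -/
theorem exists_ext_iso [IsAlgClosed Ω'] (h0 : Ctx0 k w) (hcw : CompleteV w) (hd : IsoE v w ι)
    {K₀ : IntermediateField k Ω} (hΩ : ∀ g : Ω, IsAlgebraic K₀ g)
    (χ : clI w (K₀.map ι) →ₐ[k] Ω')
    (hχ : ∀ x : clI w (K₀.map ι), (x : Ω') ≠ 0 → w (χ x) = w (x : Ω')) :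
    ∃ ι₂ : Ω →ₐ[k] Ω', IsoE v w ι₂ ∧
      ∀ (x : Ω) (hx : ι x ∈ clI w (K₀.map ι)), ι₂ x = χ ⟨ι x, hx⟩ := by
  obtain ⟨g, hg, hgv⟩ := exists_ext_alg h0 hcw (TWM.cld_clI w (K₀.map ι)) χ hχ
  have hmem : ∀ x : Ω, ι x ∈ algebraicClosure (clI w (K₀.map ι)) Ω' := by
    intro x
    refine mem_algebraicClosure_iff.2 ?_
    have h1 : IsAlgebraic (K₀.map ι) (ι x) := Dense.isAlgebraic_iff.2 (hΩ x)
    exact D2P.isAlgebraic_mono (le_clI (K₀.map ι)) h1
  have hgk : ∀ (x : Ω) (hx : ι x ∈ clI w (K₀.map ι)), g ⟨ι x, hmem x⟩ = χ ⟨ι x, hx⟩ := by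
    intro x hx
    rw [← hg ⟨ι x, hx⟩]
    rfl
  let ι₂ : Ω →ₐ[k] Ω' :=
    { toFun := fun x => g ⟨ι x, hmem x⟩
      map_one' := by
        rw [show (⟨ι 1, hmem 1⟩ : algebraicClosure (clI w (K₀.map ι)) Ω') = 1 from Subtype.ext (map_one ι), map_one]
      map_mul' := fun x y => by
        rw [← map_mul]
        congr 1
        exact Subtype.ext (map_mul ι x y)
      map_zero' := by
        rw [show (⟨ι 0, hmem 0⟩ : algebraicClosure (clI w (K₀.map ι)) Ω') = 0 from Subtype.ext (map_zero ι), map_zero]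
      map_add' := fun x y => by
        rw [← map_add]
        congr 1
        exact Subtype.ext (map_add ι x y)
      commutes' := fun c => by
        have h1 : ι (algebraMap k Ω c) ∈ clI w (K₀.map ι) := by
          rw [ι.commutes]
          exact IntermediateField.algebraMap_mem _ c
        rw [hgk _ h1]
        have h2 : (⟨ι (algebraMap k Ω c), h1⟩ : clI w (K₀.map ι)) =
            algebraMap k (clI w (K₀.map ι)) c := Subtype.ext (ι.commutes c)
        rw [h2, χ.commutes] }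
  refine ⟨ι₂, ⟨fun a ha => ?_⟩, hgk⟩
  show w (g ⟨ι a, hmem a⟩) = v a
  rw [hgv ⟨ι a, hmem a⟩ (IsoE.ne_zero ha), hd.val a ha]

end Ext

end Pool.Agent.TWEX
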