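import Pool.Agent.Lib.TWEX.StepA
import Pool.Agent.Lib.TWEX.Ext
import Pool.Agent.Lib.TWMF.S8

/-!
# TANK W: the model of a step `K ⊆ K(α)`

`exists_model_stepM`: `L₀` a dense subfield of `K(α)`, `α ^ p ∈ K`. Then `L₀ = K₀(b₀)`, with `K₀` dense in `K`
for an embedding `ι'` as near to `ι` as wanted.
-/

set_option autoImplicit false

open Finset

namespace Pool.Agent.TWEX

open Pool.Agent.H15JM (RVal)
open Pool.Agent.LU1 (adj)
open Pool.Agent.D2 (Ctx0)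
open Pool.Agent.D2P (hen clI mem_clI mem_adj_self adj_le isAlgebraic_trans_le isAlgebraic_of_pow
  isAlgebraic_of_mem rootF)
open Pool.Agent.TW (mon pcomb PBasis Spn BD Qp mem_Qp Qp_le')
open Pool.Agent.TWM
open Pool.Agent.TWS (IsoE)
open Pool.Agent.TWMF.Stb (cf cf_mem cf_spec pb_ne Dt map_mem_cl)
open Pool.Agent.TWEX.Iso (adj_pow_mem cadj_eq_adj)

universe u

variable {k Ω Ω' : Type u} [Field k] [Field Ω] [Algebra k Ω] [Field Ω'] [Algebra k Ω']
  {v : RVal Ω} {w : RVal Ω'} {ι : Ω →ₐ[k] Ω'} {p : ℕ}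

/-- Powers of the elements of the closure. -/
theorem pow_mem_clI [hp : Fact p.Prime] [CharP Ω' p] {L₀ K₀ : IntermediateField k Ω}
    (hpow : ∀ x ∈ L₀, x ^ p ∈ K₀) {y : Ω'} (hy : y ∈ clI w (L₀.map ι)) :
    y ^ p ∈ clI w (K₀.map ι) := by
  have hp0 : (0 : ℝ) < p := by exact_mod_cast hp.out.pos
  refine mem_clI.2 fun b => ?_
  obtain ⟨_, ⟨x, hx, rfl⟩, h1⟩ := mem_clI.1 hy (b / p)
  refine ⟨ι x ^ p, ⟨x ^ p, hpow x hx, ?_⟩, ?_⟩
  · exact map_pow ι x p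
  · have h2 := ge_pow h1 p
    rw [mul_div_cancel₀ _ hp0.ne'] at h2
    rw [← sub_pow_char]
    exact h2

/-- The image of a `p`-combination. -/
theorem map_pcomb_hom {n : ℕ} (b : Fin n → Ω) (c : (Fin n → Fin p) → Ω) :
    ι (pcomb b c) = pcomb (fun i => ι (b i)) fun α => ι (c α) := by
  rw [pcomb, pcomb, map_sum]
  refine sum_congr rfl fun α _ => ?_
  rw [map_mul, map_pow, mon, mon, map_prod]
  congr 1
  exact prod_congr rfl fun i _ => map_pow ι _ _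

/-- **The model.** -/
theorem exists_model_stepM [IsAlgClosed k] [IsAlgClosed Ω] [IsAlgClosed Ω'] [hp : Fact p.Prime]
    [CharP Ω p] [CharP Ω' p] (h0 : Ctx0 k w) (hcw : CompleteV w) (hd : IsoE v w ι)
    {L₀ : IntermediateField k Ω} (hfg : L₀.FG) (hΩ : ∀ g : Ω, IsAlgebraic L₀ g) (hBD : BD p v L₀)
    {K : IntermediateField k Ω'} (hK : Cld w K) {α g : Ω'} (hα : α ^ p ∈ K) (hαK : α ∉ K)
    (hg : g ∈ K) (hcl : clI w (L₀.map ι) = cadj w K α) {n : ℕ} {s : Fin (n + 1) → Ω'} {e : ℝ}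
    (hs : PBasis p K s) (ho : OI p w K s e) (hs0 : s 0 = (α - g) ^ p) (G : ℝ) :
    ∃ (ι' : Ω →ₐ[k] Ω') (s₀ : Fin (n + 1) → Ω) (b₀ : Ω) (K₀ : IntermediateField k Ω),
      IsoE v w ι' ∧ K₀.FG ∧ (∀ g : Ω, IsAlgebraic K₀ g) ∧ BD p v K₀ ∧ clI w (K₀.map ι') = K ∧
      (∀ j, s₀ j ∈ K₀) ∧ (∀ j, ι' (s₀ j) = s j) ∧ b₀ ^ p = s₀ 0 ∧ ι' b₀ = α - g ∧
      L₀ = adj K₀ b₀ ∧ b₀ ∉ hen v K₀ ∧
      ∀ x ∈ hen v L₀, ∀ b : ℝ, v.Ge b x → w.Ge (b + G) (ι' x - ι x) := by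
  classical
  have hp0 : (0 : ℝ) < p := by exact_mod_cast hp.out.pos
  have hp2 : (2 : ℝ) ≤ p := by exact_mod_cast hp.out.two_le
  obtain ⟨β, hβ⟩ : ∃ β, β = α - g := ⟨_, rfl⟩
  rw [← hβ] at hs0 ⊢
  have hβp : β ^ p ∈ K := hs0 ▸ hs.mem 0
  have hβK : β ∉ K := fun h1 => hαK (by
    have e1 : α = β + g := by rw [hβ]; ring
    rw [e1]
    exact add_mem h1 hg)
  -- the field `L`
  have hL : clI w (L₀.map ι) = adj K β := by
    rw [hcl, cadj_eq_adj hcw hK hα]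
    refine le_antisymm (adj_le (mem_adj_self K β).2 ?_) (adj_le (mem_adj_self K α).2 ?_)
    · have e1 : α = β + g := by rw [hβ]; ring
      rw [e1]
      exact add_mem (mem_adj_self K β).1 ((mem_adj_self K β).2 hg)
    · rw [hβ]
      exact sub_mem (mem_adj_self K α).1 ((mem_adj_self K α).2 hg)
  obtain ⟨L, hLd⟩ : ∃ L, L = clI w (L₀.map ι) := ⟨_, rfl⟩
  have hLK : K ≤ L := by
    rw [hLd, hL]
    exact (mem_adj_self K β).2
  have hLp : ∀ x ∈ L, x ^ p ∈ K := fun x hx => by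
    rw [hLd, hL] at hx
    exact adj_pow_mem hβp hx
  have hLc : Cld w L := by
    rw [hLd]
    exact cld_clI _ _
  obtain ⟨e', he'⟩ : ∃ e', e' = max e 0 + max e 0 / p := ⟨_, rfl⟩
  have he0 : 0 ≤ e' := by
    rw [he']
    have : (0 : ℝ) ≤ max e 0 := le_max_right _ _
    positivity
  have hpb : PBasis p L (rt β s) := by
    rw [hLd, hL]
    exact pb_root hs ho hs0.symm
  have hoi : OI p w L (rt β s) e' := by
    rw [hLd, hL, he']
    exact oi_root hs (ho.mono le_rfl (le_max_left _ _)) hs0.symm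
  -- the approximations
  obtain ⟨κ₁, hκ₁⟩ : ∃ κ₁, κ₁ = max G (2 * e' + 1) := ⟨_, rfl⟩
  have hκG : G ≤ κ₁ := by
    rw [hκ₁]
    exact le_max_left _ _
  have hκe : 2 * e' + 1 ≤ κ₁ := by
    rw [hκ₁]
    exact le_max_right _ _
  have hκ0 : 0 < κ₁ := by linarith
  have hap : ∀ i, ∃ b ∈ L₀, w.Ge (w (rt β s i) + (κ₁ + e')) (ι b - rt β s i) := by
    intro i
    have h1 := hpb.mem i
    rw [hLd] at h1
    obtain ⟨_, ⟨y, hy, rfl⟩, h2⟩ := mem_clI.1 h1 (w (rt β s i) + (κ₁ + e'))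
    refine ⟨y, hy, ?_⟩
    rw [← neg_sub]
    exact h2.neg
  choose b hbL hbn using hap
  have hιL : ∀ x ∈ L₀, ι x ∈ L := fun x hx => by
    rw [hLd]
    exact le_clI _ ⟨x, hx, rfl⟩
  have hD : Dt p w L L (rt β s) (fun i => ι (b i)) e' (κ₁ + e') κ₁ :=
    ⟨hcw, hLc, le_rfl, hpb, hoi, ⟨pb_ne hpb, fun i => hιL _ (hbL i), hbn, by linarith⟩, he0, by
      nlinarith, le_rfl⟩
  obtain ⟨ψ, hψ, hψn⟩ := hD.exists_aut h0
  have hψs := Iso.symm_near hκ0 hψn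
  -- the embedding
  have hge : ∀ (y : L) (c : ℝ), w.Ge c (y : Ω') → w.Ge c ((ψ.symm y : L) : Ω') := by
    intro y c hc
    have e1 : ((ψ.symm y : L) : Ω') = ((ψ.symm y : L) : Ω') - y + y := by ring
    rw [e1]
    exact ((hψs y c hc).mono (by linarith)).add hc
  have hval : ∀ y : L, (y : Ω') ≠ 0 → w ((ψ.symm y : L) : Ω') = w (y : Ω') := by
    intro y hy
    have h1 : Gt w (w (y : Ω')) ((y : Ω') - (ψ.symm y : L)) := by
      rw [← neg_sub]
      exact (Gt.of_ge (hψs y _ (w.ge_self _)) (by linarith)).neg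
    exact (Gt.val_eq hy h1).2
  subst hLd
  obtain ⟨ι', hι', hιχ⟩ := exists_ext_iso h0 hcw hd hΩ
    ((clI w (L₀.map ι)).val.comp (ψ.symm : clI w (L₀.map ι) →ₐ[k] clI w (L₀.map ι)))
    (fun x hx => hval x hx)
  have hι : ∀ (x : Ω) (hx : ι x ∈ clI w (L₀.map ι)),
      ι' x = ((ψ.symm ⟨ι x, hx⟩ : clI w (L₀.map ι)) : Ω') := fun x hx => hιχ x hx
  have hιb : ∀ i, ι' (b i) = rt β s i := by
    intro i
    rw [hι _ (hιL _ (hbL i))]
    have e1 : (⟨ι (b i), hιL _ (hbL i)⟩ : clI w (L₀.map ι)) = ψ ⟨rt β s i, hpb.mem i⟩ :=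
      Subtype.ext (hψ i (hpb.mem i)).symm
    rw [e1, ψ.symm_apply_apply]
  have hι'L : ∀ x ∈ L₀, ι' x ∈ clI w (L₀.map ι) := fun x hx => by
    rw [hι x (hιL x hx)]
    exact (ψ.symm _).2
  have hcl' : clI w (L₀.map ι') = clI w (L₀.map ι) := by
    refine le_antisymm (clI_le hLc ?_) fun y hy => mem_clI.2 fun c => ?_
    · rintro _ ⟨x, hx, rfl⟩
      exact hι'L x hx
    · obtain ⟨_, ⟨x, hx, rfl⟩, h1⟩ := mem_clI.1 (ψ ⟨y, hy⟩).2 c
      refine ⟨ι' x, ⟨x, hx, rfl⟩, ?_⟩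
      have h2 := hge (ψ ⟨y, hy⟩ - ⟨ι x, hιL x hx⟩) c h1
      rw [map_sub, ψ.symm_apply_apply] at h2
      rw [hι x (hιL x hx)]
      exact h2
  -- the field `K₀`
  obtain ⟨S, hS⟩ := hfg
  obtain ⟨K₀, hK₀⟩ : ∃ K₀ : IntermediateField k Ω, K₀ = IntermediateField.adjoin k
    (((S.image fun x => x ^ p) ∪ univ.image fun i : Fin n => b i.succ : Finset Ω) : Set Ω) :=
    ⟨_, rfl⟩
  have hSL : ∀ x ∈ S, x ∈ L₀ := fun x hx => by
    rw [← hS]
    exact IntermediateField.subset_adjoin k _ hx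
  have hbK : ∀ i : Fin n, b i.succ ∈ K₀ := fun i => by
    rw [hK₀]
    refine IntermediateField.subset_adjoin k _ ?_
    exact mem_union_right _ (mem_image_of_mem _ (mem_univ i))
  have hpow : ∀ x ∈ L₀, x ^ p ∈ K₀ := by
    have h1 : L₀ ≤ rootF p 1 K₀ := by
      rw [← hS]
      refine IntermediateField.adjoin_le_iff.2 fun x hx => (mem_rootF1 p).2 ?_
      rw [hK₀]
      refine IntermediateField.subset_adjoin k _ ?_
      exact mem_union_left _ (mem_image_of_mem _ hx)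
    exact fun x hx => (mem_rootF1 p).1 (h1 hx)
  have hK₀L : K₀ ≤ L₀ := by
    rw [hK₀]
    refine IntermediateField.adjoin_le_iff.2 fun x hx => ?_
    rcases mem_union.1 (mem_coe.1 hx) with h1 | h1
    · obtain ⟨y, hy, rfl⟩ := mem_image.1 h1
      exact pow_mem (hSL y hy) p
    · obtain ⟨i, -, rfl⟩ := mem_image.1 h1
      exact hbL _
  have hK₀K : K₀ ≤ K.comap ι' := by
    rw [hK₀]
    refine IntermediateField.adjoin_le_iff.2 fun x hx => ?_
    rcases mem_union.1 (mem_coe.1 hx) with h1 | h1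
    · obtain ⟨y, hy, rfl⟩ := mem_image.1 h1
      show ι' (y ^ p) ∈ K
      rw [map_pow]
      exact hLp _ (hι'L y (hSL y hy))
    · obtain ⟨i, -, rfl⟩ := mem_image.1 h1
      show ι' (b i.succ) ∈ K
      rw [hιb, rt_succ]
      exact hs.mem _
  have hclK : clI w (K₀.map ι') = K := by
    refine le_antisymm (clI_le hK ?_) fun y hy => ?_
    · rintro _ ⟨x, hx, rfl⟩
      exact hK₀K hx
    · rw [cf_spec hs hy, pcomb]
      refine sum_mem fun β' _ => mul_mem ?_ (prod_mem fun i _ => pow_mem ?_ _)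
      · refine pow_mem_clI hpow ?_
        rw [hcl']
        exact hLK (cf_mem hs y β')
      · refine Fin.cases ?_ (fun i => ?_) i
        · have e1 : s 0 = ι' (b 0) ^ p := by
            rw [hιb, rt_zero, hs0]
          rw [e1]
          refine pow_mem_clI hpow (le_clI _ ⟨b 0, hbL 0, rfl⟩)
        · have e1 : s i.succ = ι' (b i.succ) := by
            rw [hιb, rt_succ]
          rw [e1]
          exact le_clI _ ⟨b i.succ, hbK i, rfl⟩
  have hadj : L₀ = adj K₀ (b 0) := by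
    refine le_antisymm (fun x hx => ?_) (adj_le hK₀L (hbL 0))
    have hb : ∀ i, b i ∈ adj K₀ (b 0) := by
      intro i
      refine Fin.cases ?_ (fun i => ?_) i
      · exact (mem_adj_self K₀ (b 0)).1
      · exact (mem_adj_self K₀ (b 0)).2 (hbK i)
    have key : Spn (Qp p L₀) (mon (p := p) b) x := by
      refine spn_of_dense hBD.bdq Qp_le'
        (fun γ => prod_mem fun i _ => pow_mem (hbL i) _) (fun u hu c => ?_) hx
      have hu' : ι' u ∈ clI w (L₀.map ι) := hι'L u hu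
      have hap : ∀ γ : Fin (n + 1) → Fin p, ∃ c' ∈ L₀,
          w.Ge ((c - w (mon (rt β s) γ)) / p) (cf hpb (ι' u) γ - ι' c') := by
        intro γ
        have h1 : cf hpb (ι' u) γ ∈ clI w (L₀.map ι') := hcl'.ge (cf_mem hpb (ι' u) γ)
        obtain ⟨_, ⟨y, hy, rfl⟩, h2⟩ := mem_clI.1 h1 ((c - w (mon (rt β s) γ)) / p)
        exact ⟨y, hy, h2⟩
      choose c' hc' hcn using hap
      refine ⟨pcomb b c', ⟨fun γ => c' γ ^ p, fun γ => mem_Qp.2 ⟨_, hc' γ, rfl⟩, rfl⟩, ?_⟩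
      rw [← hι'.ge_iff, map_sub, map_pcomb_hom, funext hιb, cf_spec hpb hu', pcomb_sub, pcomb]
      refine RVal.Ge.sum _ _ fun γ _ => ?_
      have h1 := (ge_pow (hcn γ) p).mul (w.ge_self (mon (rt β s) γ))
      rw [mul_div_cancel₀ _ hp0.ne'] at h1
      exact h1.mono (by linarith)
    obtain ⟨q, hq, h1⟩ := key
    rw [h1]
    refine sum_mem fun γ _ => mul_mem ?_ (prod_mem fun i _ => pow_mem (hb i) _)
    obtain ⟨c', hc', h2⟩ := mem_Qp.1 (hq γ)
    rw [← h2]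
    exact (mem_adj_self K₀ (b 0)).2 (hpow c' hc')
  refine ⟨ι', Fin.cons (b 0 ^ p) fun i => b i.succ, b 0, K₀, hι', ?_, fun x => ?_, ?_, hclK,
    fun j => ?_, fun j => ?_, rfl, hιb 0, hadj, fun h1 => ?_, fun x hx c hc => ?_⟩
  · exact ⟨_, hK₀.symm⟩
  · exact isAlgebraic_trans_le hK₀L
      (fun a ha => isAlgebraic_of_pow hp.out.pos (isAlgebraic_of_mem (hpow a ha))) (hΩ x)
  · exact TW.BD.of_pow hBD hK₀L (e := 1) fun a ha => by
      rw [pow_one]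
      exact hpow a ha
  · refine Fin.cases ?_ (fun i => ?_) j
    · exact hpow _ (hbL 0)
    · exact hbK i
  · refine Fin.cases ?_ (fun i => ?_) j
    · show ι' (b 0 ^ p) = s 0
      rw [map_pow, hιb, rt_zero, hs0]
    · exact hιb i.succ
  · have h2 := map_mem_cl hι' h1
    rw [hclK, hιb, rt_zero] at h2
    exact hβK h2
  · have h1 := map_mem_cl hd hx
    rw [hι x h1]
    exact (hψs ⟨ι x, h1⟩ c (hd.ge_iff.2 hc)).mono (by linarith)

end Pool.Agent.TWEX
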