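import Pool.Agent.Lib.TWEX.EvUp
import Pool.Agent.Lib.TWEX.StepM

/-!
# TANK W, exit on an isogeny class: the class `EVe` is stable under `p`-th roots

`stm`: the model of the step. `EVe.up`: if `K` has an arc with motions, so has `K(α)`, `α ^ p ∈ K`.
-/

set_option autoImplicit false

namespace Pool.Agent.TWEX

open Pool.Agent.H15JM (RVal)
open Pool.Agent.D2 (Ctx0)
open Pool.Agent.TW (PBasis)
open Pool.Agent.TWM
open Pool.Agent.TWEX.Iso (KN)

universe u

variable {k Ω : Type u} [Field k] [Field Ω] [Algebra k Ω] {w : RVal Ω}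
  {K : IntermediateField k Ω} {p : ℕ} [hp : Fact p.Prime] [CharP Ω p] {α : Ω}

/-- The model of the step. -/
theorem stm [CharP k p] [IsAlgClosed k] [IsAlgClosed Ω] (h0 : Ctx0 k w) (hc : CompleteV w)
    (hα : α ^ p ∈ K) {n : ℕ} {s : Fin (n + 1) → Ω} {g : Ω} {e : ℝ} (hK : KN p w K)
    (hαK : α ∉ K) (hg : g ∈ K) (hs : PBasis p K s) (ho : OI p w K s e)
    (hs0 : s 0 = (α - g) ^ p) : StM p w K α g s := by
  intro Ω₀ i1 i2 i3 v ι L₀ hι hFG hΩ hBD hcl G
  have hch : CharP Ω₀ p := charP_of_injective_algebraMap (algebraMap k Ω₀).injective p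
  obtain ⟨ι', s₀, b₀, K₀, h1, h2, h3, h4, h5, h6, h7, h8, h9, h10, -, h11⟩ :=
    exists_model_stepM h0 hc hι hFG hΩ hBD hK.cld hα hαK hg hcl hs ho hs0 G
  exact ⟨ι', s₀, b₀, K₀, h1, h2, h3, h4, h5, h6, h7, h8, h9, h10, h11⟩

/-- **The class of fields which have an arc with motions is stable under `p`-th roots.** -/
theorem EVe.up [CharP k p] [IsAlgClosed k] [IsAlgClosed Ω] (h0 : Ctx0 k w) (hc : CompleteV w)
    (hE : EVe p w K) (hα : α ^ p ∈ K) : EVe p w (cadj w K α) :=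
  hE.up_of h0 hc hα fun _ _ _ _ hK hαK hg _ hs ho hs0 => stm h0 hc hα hK hαK hg hs ho hs0

end Pool.Agent.TWEX
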