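import Pool.Agent.Lib.TWEX.T4a
import Pool.Agent.Lib.TWN1.RadU
import Pool.Agent.Lib.TWS7.Dich

/-!
# TANK W, leaf (II.f), two floors, 2: the class of the towers

* `RFl.exch`: exchange over a field of the class `RFl`;
* `T4 p v E K`: `K` is in `E`, or it is a floor over a field of the class `RFl`;
* `T4.near`, `T4.dich` (the dichotomy), `T4.up` (`K(α)`, `α ^ p ∈ K`), `T4.up_pow`.
-/

set_option autoImplicit false
set_option linter.unusedSectionVars false

open Polynomial Finset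

namespace Pool.Agent.TWEX

open Pool.Agent.H15JM (RVal)
open Pool.Agent.LU1 (VPos adj)
open Pool.Agent.D2 (Ctx0)
open Pool.Agent.D2P (clI mem_clI mem_adj_iff mem_adj_self adj_le)
open Pool.Agent.TWM
open Pool.Agent.TWII (PG LP)
open Pool.Agent.TWLM (HSd Oi Arc)
open Pool.Agent.TWS7 (FGc Irr Unhit unhit_of_unh)
open Pool.Agent.TWN1 (RCls RFl Unh unh_or_finS n1_res radu exists_dist level_of_dist cadj_of_mem)
open Iso (KN)

universe u'

variable {k Ω : Type u'} [Field k] [Field Ω] [Algebra k Ω] {v : RVal Ω}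
  {E : IntermediateField k Ω → Prop} {F K : IntermediateField k Ω} {z a : Ω} {ρ ν : ℝ}
  [IsAlgClosed k] [IsAlgClosed Ω] {p : ℕ} [hp : Fact p.Prime] [CharP k p] [CharP Ω p]

/-- **Exchange over a field of the class `RFl`.** -/
theorem RFl.exch (h0 : Ctx0 k v) (hΩ : CompleteV v)
    (hup : ∀ (K : IntermediateField k Ω) (α : Ω), E K → α ^ p ∈ K → E (cadj v K α))
    (hnear : NearSt v E) (hF : RFl v (SC p v E) (SF p v E) F) (hz : TL v F z ρ) {c r : Ω}
    (hc : c ∈ F) (hnpg : ¬ PG p v F ν c) (hr : r ∈ cadj v F z) (hrν : Gt v ν r) :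
    ∃ g ∈ F, ∃ (F' : IntermediateField k Ω) (θ : Ω), RFl v (SC p v E) (SF p v E) F' ∧
      TL v F' (z - θ) ρ ∧
      ∀ u : Ω, u ^ p = c - g ^ p + r → cadj v (cadj v F z) u = cadj v F' (z - θ) := by
  have hkn := RFl.kn hΩ hF
  obtain ⟨F₀, -, -, -, hFF⟩ := RFl.fgc hF
  have hF₀ : F₀ ≤ F := by
    rw [hFF]
    exact TWM.le_clI F₀
  obtain ⟨m, t₀, ht₀⟩ := hkn.pb
  obtain ⟨g, hg, β, hβ, -, κ, hκ, T, hT, -, θ, -, h1, h2⟩ := exch1 p h0 hΩ hkn.cld hkn.imm ht₀ hF₀
    (fun x hx b => mem_clI.1 (by rwa [hFF] at hx) b) hz hc hnpg hr hrν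
  have h3 := RFl.step (rcls h0 hΩ hup hnear) hF (hF₀ hβ)
  rw [Iso.cadj_eq_adj hΩ hkn.cld (hF₀ hβ)] at h3
  exact ⟨g, hg, T.fieldRange, θ, rfl_near h0 hΩ hup hnear _ T κ hκ hT h3, h1, h2⟩

/-- A field of the class `E`, or a floor over a field of the class `RFl`. -/
def T4 (p : ℕ) (v : RVal Ω) (E : IntermediateField k Ω → Prop) (K : IntermediateField k Ω) :
    Prop :=
  E K ∨ ∃ (F : IntermediateField k Ω) (z : Ω) (s : ℝ), RFl v (SC p v E) (SF p v E) F ∧
    TL v F z s ∧ K = cadj v F z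

/-- Homomorphisms near the identity. -/
theorem T4.near (h0 : Ctx0 k v) (hΩ : CompleteV v)
    (hup : ∀ (K : IntermediateField k Ω) (α : Ω), E K → α ^ p ∈ K → E (cadj v K α))
    (hnear : NearSt v E) : NearSt v (T4 p v E) := by
  rintro K T κ hκ hT (h1 | ⟨F, z, s, hF, hz, rfl⟩)
  · exact Or.inl (hnear K T κ hκ hT h1)
  · obtain ⟨S, hS, h2, h3⟩ := near_floor hΩ hz hT hκ
    exact Or.inr ⟨S.fieldRange, _, s, rfl_near h0 hΩ hup hnear F S κ hκ hS hF, h2, h3⟩

/-- **The dichotomy.** -/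
theorem T4.dich (h0 : Ctx0 k v) (hΩ : CompleteV v)
    (hup : ∀ (K : IntermediateField k Ω) (α : Ω), E K → α ^ p ∈ K → E (cadj v K α))
    (hnear : NearSt v E) (h : T4 p v E K) (ha : a ∈ K) (hlp : LP p v K ν a) :
    E K ∨ ∃ (F : IntermediateField k Ω) (z : Ω) (s : ℝ), RFl v (SC p v E) (SF p v E) F ∧
      TL v F z s ∧ K = cadj v F z ∧ Unh p v F K z s ν a := by
  rcases h with h1 | ⟨F, z, s, hF, hz, hK⟩
  · exact Or.inl h1
  have key : ∀ (F : IntermediateField k Ω) (z : Ω) (s : ℝ), SF p v E F → TL v F z s →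
      K = cadj v F z → E K ∨ ∃ (F : IntermediateField k Ω) (z : Ω) (s : ℝ),
        RFl v (SC p v E) (SF p v E) F ∧ TL v F z s ∧ K = cadj v F z ∧ Unh p v F K z s ν a := by
    intro F z s hF hz hK
    obtain ⟨h1, σ, Φ, hA, h2⟩ := hF
    rcases unh_or_finS (σ := σ) hz hK ha hlp with h3 | h3
    · exact Or.inr ⟨F, z, s, Or.inl ⟨h1, σ, Φ, hA, h2⟩, hz, hK, h3⟩
    · left
      rw [hK]
      exact h2 z s hz (h3 Φ hA.arc hA.oi)
  rcases hF with hF | ⟨C, σ, Φ, w, Z, κ', ρ, hC, hZ, -, rfl⟩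
  · exact key F z s hF hz hK
  · rcases n1_res hΩ hC.2.1.arc hC.2.1.oi hZ.tl hz hK ha hlp with
      ⟨w', z', r, r', hg, h1⟩ | ⟨w', z', r, r', hg, h1, -⟩
    · exact Or.inr ⟨_, z', r', RFl.tl (rcls h0 hΩ hup hnear) hC hg.t1, hg.t2, hg.eq, h1⟩
    · exact key _ z' r' (hC.2.2 w' r hg.t1 h1) hg.t2 hg.eq

/-- Unhit. -/
theorem T4.unhit (h0 : Ctx0 k v) (hΩ : CompleteV v)
    (hup : ∀ (K : IntermediateField k Ω) (α : Ω), E K → α ^ p ∈ K → E (cadj v K α))
    (hnear : NearSt v E) (h : T4 p v E K) (ha : a ∈ K) (hlp : LP p v K ν a) :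
    E K ∨ Unhit p v 3 K ν a := by
  rcases T4.dich h0 hΩ hup hnear h ha hlp with h1 | ⟨F, z, s, hF, hz, hK, h1⟩
  · exact Or.inl h1
  · exact Or.inr (unhit_of_unh (RFl.fgc hF) hz hK h1)

/-- **The step.** -/
theorem T4.up (h0 : Ctx0 k v) (hΩ : CompleteV v)
    (hup : ∀ (K : IntermediateField k Ω) (α : Ω), E K → α ^ p ∈ K → E (cadj v K α))
    (hnear : NearSt v E) (h : T4 p v E K) {α : Ω} (hα : α ^ p ∈ K) : T4 p v E (cadj v K α) := by
  have hp0 : (0 : ℝ) < p := by exact_mod_cast hp.out.pos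
  have hsub : ∀ x g : Ω, x ^ p - g ^ p = (x - g) ^ p := fun x g => (sub_pow_char ..).symm
  by_cases hEK : E K
  · exact Or.inl (hup K α hEK hα)
  have hcl : Cld v K := by
    rcases h with h1 | ⟨F, z, s, -, -, rfl⟩
    · exact absurd h1 hEK
    · exact cld_cadj _ _ _
  by_cases hαK : α ∈ K
  · rw [cadj_of_mem hcl hαK]
    exact h
  obtain ⟨s, hs1, hs2⟩ := exists_dist hcl hαK
  obtain ⟨hlp, hnpg⟩ := level_of_dist (p := p) hs1 hs2
  set ν : ℝ := p * s with hν
  rcases T4.dich h0 hΩ hup hnear h hα hlp with h1 | ⟨F, z, ρ, hF, hz, rfl, hu⟩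
  · exact absurd h1 hEK
  obtain ⟨e, he, hev, c, hc, G, hG, hr⟩ := radu hz hα hlp hu
  have hkn := RFl.kn hΩ hF
  by_cases he0 : e = 0
  · -- `α ^ p = G ^ p + c + r`
    obtain ⟨r, hrdef⟩ : ∃ r, r = α ^ p - e * z - c - G ^ p := ⟨_, rfl⟩
    rw [← hrdef] at hr
    have hαr : α ^ p = G ^ p + c + r := by
      rw [hrdef, he0]
      ring
    have hrF : r ∈ cadj v F z := by
      rw [hrdef, he0, zero_mul, sub_zero]
      exact sub_mem (sub_mem hα (le_cadj v F z hc)) (pow_mem hG p)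
    have hcnpg : ¬ PG p v F ν c := fun h1 => hnpg (by
      rw [hαr]
      exact ((PG.of_pow hG).add h1.up).add (PG.of_gt hr))
    obtain ⟨g, hg, F', θ, hF', hz', h1⟩ := RFl.exch h0 hΩ hup hnear hF hz hc hcnpg hrF hr
    have h2 : cadj v (cadj v F z) α = cadj v F' (z - θ) := by
      rw [← h1 (α - (G + g)) (by
        rw [sub_pow_char, add_pow_char, hαr]
        ring), cadj_sub_mem (add_mem hG (le_cadj v F z hg))]
    exact Or.inr ⟨F', z - θ, ρ, hF', hz', h2⟩
  · -- `α ^ p = G ^ p + c + e z + r`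
    obtain ⟨β, hβ⟩ : ∃ β, β = α - G := ⟨_, rfl⟩
    have hβp : β ^ p = α ^ p - G ^ p := by rw [hβ, sub_pow_char]
    have hβF : β ^ p ∈ cadj v F z := by
      rw [hβp]
      exact sub_mem hα (pow_mem hG p)
    obtain ⟨hTL, hcadj⟩ := hz.generator (w := β ^ p) he he0 hc hβF (by
      have e1 : β ^ p - (e * z + c) = α ^ p - e * z - c - G ^ p := by
        rw [hβp]
        ring
      rw [e1, hev he0, sub_add_cancel]
      exact hr)
    rw [hev he0, sub_add_cancel] at hTL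
    have hαβ : cadj v (cadj v F z) α = cadj v (cadj v F z) β := by
      rw [hβ, cadj_sub_mem hG]
    have hβC : cadj v (cadj v F z) β = cadj v F β := by
      refine le_antisymm (cadj_le (cld_cadj _ _ _) ?_ (self_mem_cadj _ _ _))
        (cadj_mono (le_cadj v F z) β)
      rw [← hcadj]
      exact cadj_le (cld_cadj _ _ _) (le_cadj _ _ _) (pow_mem (self_mem_cadj _ _ _) p)
    rw [hαβ]
    -- the distance of `β` to `F`
    have hfar : ∀ θ : Ω, IsAlgebraic F θ → β ≠ θ ∧ v (β - θ) < s := by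
      intro θ hθ
      obtain ⟨h1, h2⟩ := hTL.far (θ ^ p) (hθ.pow p)
      have h3 : β ≠ θ := fun h4 => h1 (by rw [h4])
      refine ⟨h3, ?_⟩
      rw [hsub, v.map_pow (sub_ne_zero.2 h3)] at h2
      exact lt_of_mul_lt_mul_left h2 hp0.le
    by_cases hlim : Lim v F s β
    · rw [hβC]
      exact Or.inr ⟨F, β, s, hF, ⟨hlim, hfar⟩, rfl⟩
    · unfold Lim at hlim
      push Not at hlim
      obtain ⟨ε₀, hε₀, hlim⟩ := hlim
      have hβn : β ∉ F := fun h1 => (hfar β (isAlgebraic_algebraMap (R := F) (⟨β, h1⟩ : F))).1 rfl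
      obtain ⟨s', hs'1, hs'2⟩ := exists_dist (F := F) hkn.cld hβn
      have hs's : s' ≤ s - ε₀ := by
        by_contra h1
        obtain ⟨g, hg, h2⟩ := hs'1 (s' - (s - ε₀)) (by linarith)
        rw [sub_sub_cancel] at h2
        exact hlim g hg h2
      obtain ⟨c₀, hc₀, h3⟩ := hTL.lim (p * (ε₀ / 2)) (by positivity)
      obtain ⟨r, hrdef⟩ : ∃ r, r = β ^ p - c₀ := ⟨_, rfl⟩
      rw [← hrdef] at h3
      have hlt : p * s' < ν - p * (ε₀ / 2) := by
        rw [hν]
        nlinarith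
      have hrTL : TL v F r ν := by
        rw [hrdef]
        exact hTL.sub_mem hc₀
      have hrc : cadj v F r = cadj v F z := by
        rw [hrdef, cadj_sub_mem hc₀, hcadj]
      have hcnpg : ¬ PG p v F (p * s') c₀ := by
        rintro ⟨g, hg, h4⟩
        refine hs'2 g hg ?_
        have h5 : Gt v (p * s') ((β - g) ^ p) := by
          have e1 : (β - g) ^ p = r + (c₀ - g ^ p) := by
            rw [← hsub, hrdef]
            ring
          rw [e1]
          exact (Gt.of_ge h3 hlt).add h4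
        have h6 := TWN1.Gt.of_pow_gt h5
        rwa [mul_div_cancel_left₀ _ hp0.ne'] at h6
      obtain ⟨g, hg, F', θ, hF', hz', h4⟩ := RFl.exch h0 hΩ hup hnear hF hrTL hc₀ hcnpg
        (self_mem_cadj v F r) (Gt.of_ge h3 hlt)
      have h5 : cadj v (cadj v F z) β = cadj v F' (r - θ) := by
        rw [← h4 (β - g) (by
          rw [← hsub, hrdef]
          ring), hrc, cadj_sub_mem (le_cadj v F z hg)]
      exact Or.inr ⟨F', r - θ, ν, hF', hz', h5⟩

/-! ### Isogenies -/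

omit [IsAlgClosed k] [IsAlgClosed Ω] hp [CharP k p] [CharP Ω p] in
/-- A class which is stable under `K(α)`, `α ^ p ∈ K`, is stable under `K(x)`, `x ^ p ^ e ∈ K`. -/
theorem up_pow {Q : IntermediateField k Ω → Prop}
    (hup : ∀ (K : IntermediateField k Ω) (α : Ω), Q K → α ^ p ∈ K → Q (cadj v K α)) (e : ℕ)
    {M : IntermediateField k Ω} {x : Ω} (hM : Q M) (hx : x ^ p ^ e ∈ M) : Q (cadj v M x) := by
  induction e generalizing x with
  | zero =>
    rw [pow_zero, pow_one] at hx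
    exact hup M x hM (pow_mem hx p)
  | succ e ih =>
    have h1 := ih (x := x ^ p) (by rwa [← pow_mul, ← pow_succ'])
    have h2 : cadj v (cadj v M (x ^ p)) x = cadj v M x :=
      le_antisymm (cadj_le (cld_cadj _ _ _) (cadj_le (cld_cadj _ _ _) (le_cadj _ _ _)
        (pow_mem (self_mem_cadj _ _ _) p)) (self_mem_cadj _ _ _)) (cadj_mono (le_cadj _ _ _) x)
    rw [← h2]
    exact hup _ x h1 (self_mem_cadj _ _ _)

omit [IsAlgClosed k] [IsAlgClosed Ω] hp [CharP k p] [CharP Ω p] in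
/-- **Isogenies**: a class which is stable under `K(α)`, `α ^ p ∈ K`, contains the closures of
finitely generated fields between a field of the class and its radical closure. -/
theorem up_isg {Q : IntermediateField k Ω → Prop}
    (hup : ∀ (K : IntermediateField k Ω) (α : Ω), Q K → α ^ p ∈ K → Q (cadj v K α)) {d : ℕ}
    {M : IntermediateField k Ω} (hM : Q M) (hMK : M ≤ K) (hK : FGc v d K)
    (hpow : ∀ x ∈ K, ∃ e : ℕ, x ^ p ^ e ∈ M) : Q K := by
  classical
  have hcl := hK.cld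
  obtain ⟨F, hF, -, -, hKF⟩ := hK
  obtain ⟨S, hS⟩ := hF
  have key : ∀ S' : Finset Ω, (∀ x ∈ S', x ∈ K) → ∃ M' : IntermediateField k Ω, Q M' ∧ Cld v M' ∧
      M ≤ M' ∧ M' ≤ K ∧ ∀ x ∈ S', x ∈ M' := by
    intro S'
    induction S' using Finset.induction_on with
    | empty =>
      intro _
      exact ⟨cadj v M 0, hup M 0 hM (pow_mem (zero_mem M) p), cld_cadj _ _ _, le_cadj _ _ _,
        cadj_le hcl hMK (zero_mem K), fun x hx => by simp at hx⟩
    | insert a S' _ ih =>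
      intro h1
      obtain ⟨M', h2, -, h3, h4, h5⟩ := ih fun x hx => h1 x (mem_insert_of_mem hx)
      have haK := h1 a (mem_insert_self a S')
      obtain ⟨e, he⟩ := hpow a haK
      refine ⟨cadj v M' a, up_pow hup e h2 (h3 he), cld_cadj _ _ _, h3.trans (le_cadj _ _ _),
        cadj_le hcl h4 haK, fun x hx => ?_⟩
      rcases mem_insert.1 hx with rfl | hx
      · exact self_mem_cadj _ _ _
      · exact le_cadj _ _ _ (h5 x hx)
  obtain ⟨M', h1, h2, -, h3, h4⟩ := key S fun x hx => by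
    rw [hKF]
    exact TWM.le_clI F (by
      rw [← hS]
      exact IntermediateField.subset_adjoin k _ hx)
  have h5 : M' = K := by
    refine le_antisymm h3 ?_
    rw [hKF]
    refine fun x hx => h2 (TWM.clI_mono ?_ hx)
    rw [← hS, IntermediateField.adjoin_le_iff]
    exact fun x hx => h4 x hx
  rwa [← h5]

end Pool.Agent.TWEX
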