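import Pool.Agent.Lib.TWC.HandH

/-!
# TANK W, leaf (II.f), the isogeny class: the tower of `p`-th powers

* `kp_cadj`, `kp_bot`: the `p`-th powers of a closure;
* `SFl.kp`, `TL.kp`, `FGc.kp`, `Irr.kp`, `STow.kp`: the tower of the `p`-th powers;
* `STm.twist`: iteration.
-/

set_option autoImplicit false
set_option linter.unusedSectionVars false

open Polynomial Finset

namespace Pool.Agent.TWEX

open Pool.Agent.H15JM (RVal)
open Pool.Agent.LU1 (VPos adj)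
open Pool.Agent.D2P (hen clI mem_clI mem_adj_self adj_le rootF mem_rootF)
open Pool.Agent.TW (STm Full trdeg_eq_of_alg)
open Pool.Agent.TWM
open Pool.Agent.TWLM (HSd Oi)
open Pool.Agent.TWC (kp kp_le cld_kp rt_eq ge_root_l)
open Pool.Agent.TWS7 (FGc Irr PDiv STow)

universe u

variable {k Ω : Type u} [Field k] [Field Ω] [Algebra k Ω] {v : RVal Ω}
  {L N C M : IntermediateField k Ω} {D : ℕ → Ω → Ω} {y z : Ω} {σ ρ : ℝ}
  {p : ℕ} [hp : Fact p.Prime] [IsAlgClosed k] [IsAlgClosed Ω] [CharP k p] [CharP Ω p]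

omit [IsAlgClosed Ω] in
theorem pow_mem_kp {x : Ω} (hx : x ∈ L) : x ^ p ∈ kp p L := ⟨x, hx, rfl⟩

omit [IsAlgClosed Ω] in
theorem kp_bot : kp p (⊥ : IntermediateField k Ω) = ⊥ := le_antisymm (kp_le p) bot_le

omit [IsAlgClosed k] in
theorem le_root_of {K : IntermediateField k Ω} (h : ∀ x ∈ L, x ^ p ∈ K) : L ≤ rootF p 1 K :=
  fun x hx => mem_rootF.2 (by rw [pow_one]; exact h x hx)

theorem kp_clI : kp p (clI v L) = clI v (kp p L) := by
  refine le_antisymm ?_ (TWC.clI_le' ?_ (cld_kp p (cld_clI v L)))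
  · rintro _ ⟨x, hx, rfl⟩
    have h1 : clI v L ≤ rootF p 1 (clI v (kp p L)) := TWC.clI_le'
      (le_root_of fun x hx => le_clI _ (pow_mem_kp hx)) (TWC.cld_rootFn p 1 (cld_clI _ _))
    have h2 := mem_rootF.1 (h1 hx)
    rwa [pow_one] at h2
  · rintro _ ⟨x, hx, rfl⟩
    exact pow_mem_kp (le_clI _ hx)

theorem kp_cadj : kp p (cadj v N y) = cadj v (kp p N) (y ^ p) := by
  refine le_antisymm ?_ (cadj_le (cld_kp p (cld_cadj _ _ _)) ?_
    (pow_mem_kp (self_mem_cadj _ _ _)))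
  · rintro _ ⟨x, hx, rfl⟩
    have h1 : cadj v N y ≤ rootF p 1 (cadj v (kp p N) (y ^ p)) :=
      cadj_le (TWC.cld_rootFn p 1 (cld_cadj _ _ _))
        (le_root_of fun x hx => le_cadj _ _ _ (pow_mem_kp hx))
        (mem_rootF.2 (by rw [pow_one]; exact self_mem_cadj _ _ _))
    have h2 := mem_rootF.1 (h1 hx)
    rwa [pow_one] at h2
  · rintro _ ⟨x, hx, rfl⟩
    exact pow_mem_kp (le_cadj _ _ _ hx)

/-! ### The maps -/

/-- The maps on the `p`-th powers. -/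
noncomputable def tw (p : ℕ) [Fact p.Prime] [CharP Ω p] (D : ℕ → Ω → Ω) (l : ℕ) (x : Ω) : Ω :=
  D l (TWC.rt p 1 x) ^ p

omit [IsAlgClosed k] [CharP k p] in
theorem rt_one_pow (x : Ω) : TWC.rt p 1 (x ^ p) = x := rt_eq p (by rw [pow_one])

omit [IsAlgClosed k] [CharP k p] in
theorem tw_pow (l : ℕ) (x : Ω) : tw p D l (x ^ p) = D l x ^ p := by
  rw [tw, rt_one_pow]

theorem HSd.kp (h : HSd L D) : HSd (kp p L) (tw p D) where
  mem := by
    rintro l _ ⟨x, hx, rfl⟩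
    rw [tw_pow]
    exact pow_mem_kp (h.mem l x hx)
  c0 := by
    rintro _ ⟨x, hx, rfl⟩
    rw [tw_pow, h.c0 x hx]
  add := by
    rintro l _ ⟨x, hx, rfl⟩ _ ⟨y, hy, rfl⟩
    rw [← add_pow_char, tw_pow, tw_pow, tw_pow, h.add l x hx y hy, add_pow_char]
  mul := by
    rintro l _ ⟨x, hx, rfl⟩ _ ⟨y, hy, rfl⟩
    rw [← mul_pow, tw_pow, h.mul l x hx y hy, sum_pow_char]
    exact Finset.sum_congr rfl fun i _ => by rw [tw_pow, tw_pow, mul_pow]
  con := by
    intro l hl c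
    obtain ⟨c', rfl⟩ := IsAlgClosed.exists_pow_nat_eq c hp.out.pos
    rw [map_pow, tw_pow, h.con l hl c', zero_pow hp.out.ne_zero]

omit [IsAlgClosed k] [CharP k p] in
/-- The polynomials with `p`-th powers as coefficients. -/
theorem exists_root_poly {f : Polynomial Ω} [PerfectRing k p] [CharP k p]
    (hf : f ∈ PI (kp p N)) : ∃ g ∈ PI N, f = g.map (frobenius Ω p) := by
  refine ⟨f.map ((iterateFrobeniusEquiv Ω p 1).symm : Ω →+* Ω), fun i => ?_, ?_⟩
  · obtain ⟨x, hx, h1⟩ := hf i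
    rw [coeff_map, ← h1]
    have h2 : ((iterateFrobeniusEquiv Ω p 1).symm : Ω →+* Ω) (x ^ p) = x := rt_one_pow x
    rw [h2]
    exact hx
  · ext i
    rw [coeff_map, coeff_map]
    obtain ⟨x, hx, h1⟩ := hf i
    rw [← h1]
    have h2 : ((iterateFrobeniusEquiv Ω p 1).symm : Ω →+* Ω) (x ^ p) = x := rt_one_pow x
    rw [h2]
    rfl

omit [IsAlgClosed k] [CharP k p] [IsAlgClosed Ω] in
theorem map_frob_eval (g : Polynomial Ω) (y : Ω) :
    (g.map (frobenius Ω p)).eval (y ^ p) = g.eval y ^ p := by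
  have h1 : y ^ p = frobenius Ω p y := rfl
  rw [eval_map, h1, eval₂_at_apply]
  rfl

omit [IsAlgClosed k] [CharP k p] [IsAlgClosed Ω] in
theorem map_frob_hasse (g : Polynomial Ω) (j : ℕ) :
    hasseDeriv j (g.map (frobenius Ω p)) = (hasseDeriv j g).map (frobenius Ω p) := by
  ext n
  rw [coeff_map, hasseDeriv_coeff, hasseDeriv_coeff, coeff_map, map_mul, map_natCast]

omit [IsAlgClosed Ω] in
theorem map_frob_mem {g : Polynomial Ω} (hg : g ∈ PI N) : g.map (frobenius Ω p) ∈ PI (kp p N) :=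
  fun i => by
    rw [coeff_map]
    exact ⟨_, hg i, rfl⟩

theorem SFl.kp (h : SFl p v N y σ D) : SFl p v (kp p N) (y ^ p) (p * σ) (tw p D) where
  hsd := by
    rw [← kp_cadj]
    exact HSd.kp h.hsd
  poly := by
    intro j f hf
    obtain ⟨g, hg, rfl⟩ := exists_root_poly hf
    rw [map_frob_eval, map_frob_hasse, map_frob_eval, tw_pow, h.poly j g hg]
  comp := by
    intro i j x hx
    rw [← kp_cadj] at hx
    obtain ⟨x, hx, rfl⟩ := hx
    rw [tw_pow, tw_pow, tw_pow, h.comp i j x hx, mul_pow]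
    congr 1
    exact map_natCast (frobenius Ω p) _
  str := by
    intro n hn
    obtain ⟨η, hη, h1⟩ := h.str n hn
    have hp0 : (0 : ℝ) < p := by exact_mod_cast hp.out.pos
    refine ⟨p * η, mul_pos hp0 hη, fun x hx b hb => ?_⟩
    rw [← kp_cadj] at hx
    obtain ⟨x, hx, rfl⟩ := hx
    rw [tw_pow]
    have h2 : v.Ge (b / p) x := ge_root_l hp.out.pos (by rwa [mul_div_cancel₀ _ hp0.ne'])
    refine (TWII.ge_pow' (h1 x hx _ h2) p).mono (le_of_eq ?_)
    field_simp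
  oi := by
    rw [← kp_cadj]
    have hp0 : (0 : ℝ) < p := by exact_mod_cast hp.out.pos
    rintro _ ⟨x, hx, rfl⟩ c
    obtain ⟨n₀, h1⟩ := h.oi x hx (c / p)
    refine ⟨n₀, fun l hl => ?_⟩
    rw [tw_pow]
    refine (TWII.ge_pow' (h1 l hl) p).mono (le_of_eq ?_)
    field_simp
  dense := by
    rw [← kp_cadj]
    have hp0 : (0 : ℝ) < p := by exact_mod_cast hp.out.pos
    rintro _ ⟨x, hx, rfl⟩ b
    obtain ⟨f, hf, h1⟩ := h.dense x hx (b / p)
    refine ⟨_, map_frob_mem hf, ?_⟩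
    rw [map_frob_eval, ← sub_pow_char]
    refine (TWII.ge_pow' h1 p).mono (le_of_eq ?_)
    field_simp
  lim := by
    intro δ hδ
    have hp0 : (0 : ℝ) < p := by exact_mod_cast hp.out.pos
    obtain ⟨j, n, hn, h1⟩ := h.lim (δ / p) (div_pos hδ hp0)
    refine ⟨j, n ^ p, pow_mem_kp hn, ?_⟩
    rw [← pow_mul, mul_comm p, pow_mul, ← sub_pow_char]
    refine (TWII.ge_pow' h1 p).mono (le_of_eq ?_)
    field_simp

theorem TL.kp (h : TL v C z ρ) : TL v (kp p C) (z ^ p) (p * ρ) := by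
  have hp0 : (0 : ℝ) < p := by exact_mod_cast hp.out.pos
  refine ⟨fun ε hε => ?_, fun θ hθ => ?_⟩
  · obtain ⟨a, ha, h1⟩ := h.lim (ε / p) (div_pos hε hp0)
    refine ⟨a ^ p, pow_mem_kp ha, ?_⟩
    rw [← sub_pow_char]
    refine (TWII.ge_pow' h1 p).mono (le_of_eq ?_)
    field_simp
  · obtain ⟨η, rfl⟩ := IsAlgClosed.exists_pow_nat_eq θ hp.out.pos
    have h1 : IsAlgebraic (TWC.kp p C) η := D2P.isAlgebraic_of_pow hp.out.pos hθ
    have h2 : IsAlgebraic C η := D2P.alg_mono (kp_le p) h1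
    obtain ⟨h3, h4⟩ := h.far η h2
    have h5 : z - η ≠ 0 := sub_ne_zero.2 h3
    refine ⟨fun h6 => h3 (frobenius_inj Ω p h6), ?_⟩
    rw [← sub_pow_char, v.map_pow h5]
    exact mul_lt_mul_of_pos_left h4 hp0

omit [IsAlgClosed Ω] in
theorem fg_kp (h : L.FG) : (kp p L).FG := by
  classical
  obtain ⟨S, hS⟩ := h
  refine ⟨S.image fun x => x ^ p, le_antisymm ?_ ?_⟩
  · rw [IntermediateField.adjoin_le_iff]
    intro x hx
    obtain ⟨y, hy, rfl⟩ := Finset.mem_image.1 (Finset.mem_coe.1 hx)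
    refine pow_mem_kp ?_
    rw [← hS]
    exact IntermediateField.subset_adjoin k _ hy
  · rintro _ ⟨x, hx, rfl⟩
    have h1 : L ≤ rootF p 1 (IntermediateField.adjoin k
        ((S.image fun x => x ^ p : Finset Ω) : Set Ω)) := by
      rw [← hS, IntermediateField.adjoin_le_iff]
      intro x hx
      refine mem_rootF.2 ?_
      rw [pow_one]
      exact IntermediateField.subset_adjoin k _ (Finset.mem_coe.2 (Finset.mem_image_of_mem _ hx))
    have h2 := mem_rootF.1 (h1 hx)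
    rwa [pow_one] at h2

theorem FGc.kp {d : ℕ} (h : FGc v d L) : FGc v d (kp p L) := by
  obtain ⟨F, hF, hFf, hFt, rfl⟩ := h
  refine ⟨TWC.kp p F, fg_kp hF, fun g hg => ?_, ?_, kp_clI⟩
  · obtain ⟨m, hm, c, hc, hc0, h1⟩ := hFf g hg
    refine ⟨p * m, Nat.mul_pos hp.out.pos hm, c ^ p, pow_mem_kp hc, pow_ne_zero _ hc0, ?_⟩
    rw [v.map_pow hc0, h1]
    push_cast
    ring
  · rw [← hFt]
    exact (trdeg_eq_of_alg (kp_le p (K := F)) fun a ha =>
      D2P.isAlgebraic_of_pow hp.out.pos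
        (isAlgebraic_algebraMap (⟨a ^ p, pow_mem_kp ha⟩ : TWC.kp p F))).symm

theorem Irr.kp (h : Irr v L σ) : Irr v (kp p L) (p * σ) := by
  have hp0 : (0 : ℝ) < p := by exact_mod_cast hp.out.pos
  rintro n hn _ ⟨f, hf, rfl⟩ hf0 h1
  have hf0' : f ≠ 0 := fun h2 => hf0 (by rw [h2, zero_pow hp.out.ne_zero])
  refine h n hn f hf hf0' ?_
  rw [v.map_pow hf0'] at h1
  have h2 : (p : ℝ) * v f = p * (n * σ) := by rw [h1]; ring
  exact mul_left_cancel₀ hp0.ne' h2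

theorem STow.kp {u : Ω} {s : ℝ} (h : STow p v N y σ D u ρ z s M) :
    STow p v (kp p N) (y ^ p) (p * σ) (tw p D) (u ^ p) (p * ρ) (z ^ p) (p * s) (kp p M) where
  cN := cld_kp p h.cN
  val := by
    obtain ⟨x, hx, hx0, h1⟩ := h.val
    refine ⟨x ^ p, pow_mem_kp hx, pow_ne_zero _ hx0, ?_⟩
    rw [v.map_pow hx0]
    exact mul_ne_zero (by exact_mod_cast hp.out.ne_zero) h1
  sfl := SFl.kp h.sfl
  fg := by
    rw [← kp_cadj]
    exact FGc.kp h.fg
  irr := Irr.kp h.irr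
  tu := by
    rw [← kp_cadj]
    exact TL.kp h.tu
  tw := by
    rw [← kp_cadj, ← kp_cadj]
    exact TL.kp h.tw
  eq := by
    rw [← kp_cadj, ← kp_cadj, ← kp_cadj, ← h.eq]

theorem STm.kp (h : STm p k Ω v M) : STm p k Ω v (kp p M) := by
  obtain ⟨x, y, σ, D, u, ρ, z, s, hx, hvx, h1⟩ := h
  refine ⟨x ^ p, y ^ p, p * σ, tw p D, u ^ p, p * ρ, z ^ p, p * s, pow_ne_zero _ hx, ?_, ?_⟩
  · rw [v.map_pow hx]
    exact mul_ne_zero (by exact_mod_cast hp.out.ne_zero) hvx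
  · have h2 := STow.kp h1
    rwa [kp_cadj, kp_bot] at h2

/-- **The tower of the `p ^ e`-th powers.** -/
theorem STm.twist (h : STm p k Ω v M) (e : ℕ) : ∃ M' : IntermediateField k Ω,
    STm p k Ω v M' ∧ (∀ x ∈ M', ∃ y ∈ M, x = y ^ p ^ e) ∧ ∀ y ∈ M, y ^ p ^ e ∈ M' := by
  induction e with
  | zero => exact ⟨M, h, fun x hx => ⟨x, hx, by rw [pow_zero, pow_one]⟩, fun y hy => by
      rwa [pow_zero, pow_one]⟩
  | succ e ih =>
    obtain ⟨M', h1, h2, h3⟩ := ih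
    refine ⟨TWC.kp p M', STm.kp h1, ?_, fun y hy => ?_⟩
    · rintro _ ⟨x, hx, rfl⟩
      obtain ⟨y, hy, rfl⟩ := h2 x hx
      exact ⟨y, hy, by rw [← pow_mul, ← pow_succ]⟩
    · rw [pow_succ, pow_mul]
      exact pow_mem_kp (h3 y hy)

end Pool.Agent.TWEX
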