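import Pool.Agent.Lib.TWEX.BaseT
import Pool.Agent.Lib.TWEX.EvUpC
import Pool.Agent.Lib.TWEX.EvNear
import Pool.Agent.Lib.TWEX.T4
import Pool.Agent.Lib.TWS7.Asm
import Pool.Agent.Lib.TWEX.Twist

/-!
# TANK W, leaf (II.f), the isogeny class: the strict leaf

* `t4_of_stow`: the exact strict tower is in `T4 p w (EVe p w)`;
* `t4_of_isg`: the closed fields isogenous to a field of the class `T4` are in it;
* `motE_of_eve`: motions without effect, for a field of the class `EVe`;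
* `strLeafC`: `StrLeafC p k`.
-/

set_option autoImplicit false

open Polynomial Finset

namespace Pool.Agent.TWEX

open Pool.Agent.H15JM (RVal)
open Pool.Agent.LU1 (VPos adj)
open Pool.Agent.D2 (Ctx0)
open Pool.Agent.D2P (hen clI mem_clI mem_adj_self adj_le)
open Pool.Agent.TW (PBasis BD Mot Ctx CritM ClC STm StrLeafC Isg full_of_alg HRone)
open Pool.Agent.TWM
open Pool.Agent.TWS (IsoE)
open Pool.Agent.TWII (PG LP)
open Pool.Agent.TWS7 (FGc Irr PDiv STow MotE Unhit)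
open Pool.Agent.TWN1 (RFl RCls)
open Iso (KN SX0)

universe u

section

variable {k Ω : Type u} [Field k] [Field Ω] [Algebra k Ω] {w : RVal Ω}
  {M K : IntermediateField k Ω} {p : ℕ}

/-- `σ` is incommensurable with the values of a subfield. -/
theorem Irr.of_le {σ : ℝ} (h : Irr w K σ) (hMK : M ≤ K) : Irr w M σ :=
  fun n hn f hf hf0 => h n hn f (hMK hf) hf0

/-- **The exact strict tower is in the class `T4`.** -/
theorem t4_of_stow [IsAlgClosed k] [IsAlgClosed Ω] [Fact p.Prime] [CharP k p] [CharP Ω p]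
    (h : Ctx k w 1) (hcw : CompleteV w)
    (hup : ∀ (K : IntermediateField k Ω) (α : Ω), EVe p w K → α ^ p ∈ K → EVe p w (cadj w K α))
    (hnear : NearSt (k := k) w (EVe p w)) {x y u z : Ω} {σ ρ s : ℝ} {D : ℕ → Ω → Ω} (hx : x ≠ 0)
    (hwx : w x ≠ 0)
    (hS : STow p w (cadj w (⊥ : IntermediateField k Ω) x) y σ D u ρ z s M)
    (hdiv : PDiv p w M) : T4 p w (EVe p w) M := by
  have hM := hS.eq
  have hdiv' : PDiv p w (cadj w (cadj w (⊥ : IntermediateField k Ω) x) y) := by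
    rw [hM] at hdiv
    exact PDiv.of_cadj hS.tu (PDiv.of_cadj hS.tw hdiv)
  have hirr : Irr w (cadj w (cadj w (⊥ : IntermediateField k Ω) x) y) σ := by
    have h1 := hS.irr
    rw [hM] at h1
    exact Irr.of_le h1 ((le_cadj _ _ _).trans (le_cadj _ _ _))
  have hC := sc_base h hcw hx hwx hS.sfl hdiv' hS.fg hirr
  exact Or.inr ⟨_, z, s, RFl.tl (rcls h.toCtx0 hcw hup hnear) hC hS.tu, hS.tw, hM⟩

end

section

variable {k Ω Ω' : Type u} [Field k] [Field Ω] [Algebra k Ω] [Field Ω'] [Algebra k Ω']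
  {v : RVal Ω} {w : RVal Ω'} {ι : Ω →ₐ[k] Ω'} {K₀ : IntermediateField k Ω} {p : ℕ}

/-- **Motions without effect.** -/
theorem motE_of_eve [IsAlgClosed k] [IsAlgClosed Ω] [IsAlgClosed Ω'] [Fact p.Prime]
    [CharP k p] [CharP Ω p] [CharP Ω' p] (h : Ctx k v 1) (hd : IsoE v w ι) (hK : K₀.FG)
    (hΩ : ∀ g : Ω, IsAlgebraic K₀ g) (htr : Algebra.trdeg k K₀ = (4 : ℕ)) (hBD : BD p v K₀)
    (hE : EVe p w (clI w (K₀.map ι))) {a : Ω} (ha : a ∈ K₀) {ν : ℝ}
    (hlp : LP p w (clI w (K₀.map ι)) ν (ι a)) : MotE p v K₀ ν a := by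
  obtain ⟨σ, Ψ, hX, hEV⟩ := hE
  have ham : ι a ∈ clI w (K₀.map ι) := TWM.le_clI _ (Dense.apply_mem_map.2 ha)
  obtain ⟨μ, hμ, H, hH, -, h1⟩ := Iso.exists_crit hX.arc hX.oi ham hlp
  exact motE_of_ev0 h hd (hEV Ω inferInstance inferInstance inferInstance v ι K₀ h hd hK hΩ htr hBD rfl) ha
    (hX.arc.toHSd.c0 _ ham) fun l hl => ⟨H l, hH l, Gt.of_ge (h1 l hl) (by linarith)⟩

end

/-- **The strict leaf.** -/
theorem strLeafC (p : ℕ) [Fact p.Prime] (k : Type u) [Field k] [IsAlgClosed k] [CharP k p] :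
    StrLeafC p k := by
  rintro Ω _ _ _ _ v h K₀ hK hΩ htr hBDK - - - ⟨hpd, Ω', iF, iA, ι, w, iC, hcw, hd, M, hM, hi, hS⟩
    g hg hgp hBD
  have : CharP Ω' p := Dense.charP ι p
  have hI : IsoE v w ι := ⟨hd.val⟩
  have hw : Ctx k w 1 := hd.ctx h
  have hu : ∀ (K : IntermediateField k Ω') (α : Ω'), EVe p w K → α ^ p ∈ K →
      EVe p w (cadj w K α) := fun K α hE hα => EVe.up hw.toCtx0 hcw hE hα
  have hn : NearSt (k := k) w (EVe p w) := nearSt_eve hw.toCtx0 hcw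
  have hgm : ι (g ^ p) ∈ clI w (K₀.map ι) := TWM.le_clI _ (Dense.apply_mem_map.2 hgp)
  have hFG : FGc w 4 (clI w (K₀.map ι)) := ⟨K₀.map ι, Dense.fg_map hK,
    (Dense.full_iff hd).2 (full_of_alg hΩ), by rw [Dense.trdeg_map]; exact htr, rfl⟩
  have hpdK : PDiv p w (clI w (K₀.map ι)) := by
    rw [TW.pdiv_iff_vg, TWS.VG.clI, TWC.vg_map hI]
    exact TW.pdiv_iff_vg.1 hpd
  obtain ⟨e, h1, h2⟩ := hi
  obtain ⟨M', hS', h3, h4⟩ := STm.twist hS e
  have hle : M' ≤ clI w (K₀.map ι) := fun x hx => by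
    obtain ⟨y, hy, rfl⟩ := h3 x hx
    exact h2 y hy
  have hpow : ∀ x ∈ clI w (K₀.map ι), x ^ p ^ (e + e) ∈ M' := fun x hx => by
    rw [pow_add, pow_mul]
    exact h4 _ (h1 x hx)
  have hi' : Isg p M' (clI w (K₀.map ι)) :=
    ⟨e + e, fun x hx => pow_mem (hle hx) _, hpow⟩
  obtain ⟨x, y, σ, D, u, ρ, z, s, hx, hwx, hT⟩ := hS'
  have hT4 : T4 p w (EVe p w) M' := t4_of_stow hw hcw hu hn hx hwx hT (TW.pdiv_isg hi' hpdK)
  have hKT : T4 p w (EVe p w) (clI w (K₀.map ι)) :=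
    up_isg (fun K α hK hα => T4.up hw.toCtx0 hcw hu hn hK hα) hT4 hle hFG
      fun x hx => ⟨_, hpow x hx⟩
  rcases TWS7.alt_of p h hcw hd hK (full_of_alg hΩ) htr hBDK hg hgp hBD (fun ν h5 h6 => by
    rcases T4.unhit hw.toCtx0 hcw hu hn hKT hgm h5 with h7 | h7
    · exact Or.inr (motE_of_eve h hI hK hΩ htr hBDK h7 hgp h5)
    · exact Or.inl h7) with
    h5 | ⟨ν, h5, -, h7⟩
  · exact Or.inl h5
  · exact Or.inr (TWS7.mobQ0_of_mot p h hK hΩ hBDK hpd hgp h5 h7)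

end Pool.Agent.TWEX
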