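import Pool.Agent.Lib.TWEX.IsoR
import Pool.Agent.Lib.TWMF.S7
import Pool.Agent.Lib.TWS7.Unhit
import Pool.Agent.Lib.TWEX.KArc0

/-!
# TANK W, leaf (II), the base of the classes

* `pb_clI`: the closure of a field with a finite `p`-basis has a finite `p`-basis;
* `KN.cadj`: `KN` goes up a floor; `kn_base`: the exact strict field;
* `exists_arc₁`, `exists_arc₂`: the arcs of the exact tower, in two steps.
-/

set_option autoImplicit false

open Polynomial Finset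

namespace Pool.Agent.TWEX

open Pool.Agent.H15JM (RVal)
open Pool.Agent.LU1 (VPos adj)
open Pool.Agent.D2 (Ctx0)
open Pool.Agent.D2P (hen clI mem_clI mem_adj_self adj_le)
open Pool.Agent.TW (mon pcomb PBasis Qp mem_Qp Qp_le' Bas Spn finite_of_spn exists_mon_bas)
open Pool.Agent.TWM
open Pool.Agent.TWLM (HSd Oi Arc)
open Pool.Agent.TWN1 (Set0)
open Pool.Agent.TWII
open Pool.Agent.TWS7 (Irr FGc PDiv)
open Iso (KN)

universe u

variable {k Ω : Type u} [Field k] [Field Ω] [Algebra k Ω] {v : RVal Ω}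
  {p : ℕ} [hp : Fact p.Prime] [CharP Ω p]

/-- **The closure of a field with a finite `p`-basis.** -/
theorem pb_clI [IsAlgClosed k] [IsAlgClosed Ω] (hc : CompleteV v) {E : IntermediateField k Ω}
    (h : ∃ (n : ℕ) (t : Fin n → Ω), PBasis p E t) :
    ∃ (n : ℕ) (t : Fin n → Ω), PBasis p (clI v E) t := by
  classical
  have hroot : ∀ c : Ω, ∃ b : Ω, b ^ p = c := fun c =>
    IsAlgClosed.exists_pow_nat_eq c hp.out.pos
  have hp0 : (0 : ℝ) < p := by exact_mod_cast hp.out.pos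
  obtain ⟨n, t, ht⟩ := h
  obtain ⟨L, hL⟩ : ∃ L, L = clI v E := ⟨_, rfl⟩
  rw [← hL]
  have hLc : Cld v L := by
    rw [hL]
    exact cld_clI v E
  have hEL : E ≤ L := by
    rw [hL]
    exact le_clI E
  let M : IntermediateField k Ω := (Qp p L).toIntermediateField fun c => by
    obtain ⟨c', rfl⟩ := IsAlgClosed.exists_pow_nat_eq c hp.out.pos
    rw [map_pow]
    exact mem_Qp.2 ⟨_, L.algebraMap_mem c', rfl⟩
  have hMm : ∀ x : Ω, x ∈ M ↔ x ∈ Qp p L := fun x => Iff.rfl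
  have hM : Cld v M := by
    intro a ha
    rw [mem_clI] at ha
    obtain ⟨α, rfl⟩ := hroot a
    rw [hMm, mem_Qp]
    refine ⟨α, hLc ?_, rfl⟩
    rw [mem_clI]
    intro c
    obtain ⟨b, hb, h1⟩ := ha (p * c)
    obtain ⟨b', hb', rfl⟩ := mem_Qp.1 ((hMm b).1 hb)
    rw [← sub_pow_char] at h1
    exact ⟨b', hb', ge_of_pow h1⟩
  have hW := CldM.span hc hM (Finset.univ.image (mon (p := p) t))
  have key : ∀ u ∈ L, Spn (Qp p L) (mon (p := p) t) u := by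
    intro u hu
    have h1 : u ∈ Submodule.span M ((Finset.univ.image (mon (p := p) t) : Finset Ω) : Set Ω) := by
      refine hW u fun c => ?_
      rw [hL] at hu
      obtain ⟨a, ha, h1⟩ := mem_clI.1 hu c
      obtain ⟨c', hc', rfl⟩ := ht.span a ha
      refine ⟨pcomb t c', sum_mem fun β _ => ?_, h1⟩
      exact Submodule.smul_mem _ (⟨c' β ^ p, mem_Qp.2 ⟨c' β, hEL (hc' β), rfl⟩⟩ : M)
        (Submodule.subset_span (by simp))
    rw [Finset.coe_image, Finset.coe_univ, Set.image_univ] at h1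
    obtain ⟨c, hc⟩ := (Submodule.mem_span_range_iff_exists_fun M).1 h1
    exact ⟨fun j => c j, fun j => (c j).2, hc.symm⟩
  obtain ⟨m, s, hs, hb⟩ := exists_mon_bas (p := p) (E := L.toSubfield) Qp_le'
    (fun u hu => mem_Qp.2 ⟨u, hu, rfl⟩) (finite_of_spn Qp_le' key)
  exact ⟨m, s, PBasis.of_bas hs hb⟩

/-- The closure of `K(z)`. -/
theorem pb_cadj [IsAlgClosed k] [IsAlgClosed Ω] (hc : CompleteV v) {K : IntermediateField k Ω}
    (h : ∃ (n : ℕ) (t : Fin n → Ω), PBasis p K t) (z : Ω) :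
    ∃ (n : ℕ) (t : Fin n → Ω), PBasis p (cadj v K z) t :=
  pb_clI hc (Iso.pb_up h)

omit [CharP Ω p] in
/-- The base field. -/
theorem pb_bot [IsAlgClosed k] : ∃ (n : ℕ) (t : Fin n → Ω), PBasis p (⊥ : IntermediateField k Ω) t := by
  refine ⟨0, Fin.elim0, fun i => i.elim0, fun u hu => ?_, fun c _ h0 α => ?_⟩
  · obtain ⟨c, rfl⟩ := IntermediateField.mem_bot.1 hu
    obtain ⟨c', rfl⟩ := IsAlgClosed.exists_pow_nat_eq c hp.out.pos
    refine ⟨fun _ => algebraMap k Ω c', fun _ => (⊥ : IntermediateField k Ω).algebraMap_mem c', ?_⟩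
    simp [pcomb, mon]
  · have h1 : pcomb (Fin.elim0 : Fin 0 → Ω) c = c α ^ p := by
      rw [pcomb, Fintype.sum_eq_single α fun β hβ => absurd (Subsingleton.elim β α) hβ]
      simp [mon]
    rw [h1] at h0
    exact (pow_eq_zero_iff hp.out.ne_zero).1 h0

/-- **`KN` goes up a floor.** -/
theorem KN.cadj [IsAlgClosed k] [IsAlgClosed Ω] (hc : CompleteV v) {K : IntermediateField k Ω}
    (h : KN p v K) {z : Ω} {s : ℝ} (hz : TL v K z s) : KN p v (cadj v K z) := by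
  refine ⟨cld_cadj v K z, fun f hf hf0 => ?_, pb_cadj hc h.pb z⟩
  obtain ⟨a, ha, h1⟩ := hz.imm.imm f hf hf0
  obtain ⟨ha0, hav⟩ := Gt.val_eq hf0 h1
  obtain ⟨g, hg, h2⟩ := h.imm a ha ha0
  rw [hav] at h2
  refine ⟨g, le_cadj v K z hg, ?_⟩
  have e : f - g ^ p = (f - a) + (a - g ^ p) := by ring
  rw [e]
  exact h1.add h2

/-- The closure of `k(x, y)`. -/
theorem kn_base [IsAlgClosed k] [IsAlgClosed Ω] (h0 : Ctx0 k v) (hc : CompleteV v) {x y : Ω}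
    (hdiv : PDiv p v (cadj v (cadj v (⊥ : IntermediateField k Ω) x) y)) :
    KN p v (cadj v (cadj v (⊥ : IntermediateField k Ω) x) y) :=
  ⟨cld_cadj v _ y, TWMF.Stb.imm_of_div h0 hdiv, pb_cadj hc (pb_cadj hc pb_bot x) y⟩

omit hp [CharP Ω p] in
/-- Values of a floor. -/
theorem Irr.cadj [IsAlgClosed Ω] {K : IntermediateField k Ω} {σ : ℝ} (h : Irr v K σ) {z : Ω} {s : ℝ}
    (hz : TL v K z s) : Irr v (cadj v K z) σ := by
  intro n hn f hf hf0 h1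
  obtain ⟨a, ha, h2⟩ := hz.imm.imm f hf hf0
  obtain ⟨ha0, hav⟩ := Gt.val_eq hf0 h2
  exact h n hn a ha ha0 (hav.trans h1)

omit hp [CharP Ω p] in
theorem PDiv.of_cadj [IsAlgClosed Ω] {K : IntermediateField k Ω} {z : Ω} {s : ℝ} (hz : TL v K z s)
    (h : PDiv p v (cadj v K z)) : PDiv p v K := by
  intro f hf hf0
  obtain ⟨g, hg, hg0, h1⟩ := h f (le_cadj v K z hf) hf0
  obtain ⟨a, ha, h2⟩ := hz.imm.imm g hg hg0
  obtain ⟨ha0, hav⟩ := Gt.val_eq hg0 h2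
  exact ⟨a, ha, ha0, by rw [h1, hav]⟩

omit hp [CharP Ω p] in
/-- The derivations of a strict floor are an arc. -/
theorem SFl.arc {N : IntermediateField k Ω} {y : Ω} {σ : ℝ} {D : ℕ → Ω → Ω}
    (h : SFl p v N y σ D) : Arc v (cadj v N y) σ D := by
  refine ⟨h.hsd, fun l hl => ?_⟩
  obtain ⟨η, hη, h1⟩ := h.str l hl
  exact ⟨l * σ - η, by linarith, fun f hf b hb => (h1 f hf b hb).mono (by linarith)⟩

/-! ### The arcs of the exact tower -/

omit hp [CharP Ω p] in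
/-- The first ring `N₀[y]`. -/
theorem ring₁ {N₀ N : IntermediateField k Ω} (hN₀ : N₀ ≤ N)
    (hden : ∀ x ∈ N, ∀ b : ℝ, ∃ c ∈ N₀, v.Ge b (x - c)) {y : Ω} {σ : ℝ} {D : ℕ → Ω → Ω}
    (h : SFl p v N y σ D) :
    (∀ x ∈ Adn N₀ {y}, x ∈ TWM.cadj v N y ∧ ∀ n : ℕ, D n x ∈ Adn N₀ {y}) ∧
      ∀ x ∈ TWM.cadj v N y, ∀ b : ℝ, ∃ c ∈ Adn N₀ {y}, v.Ge b (x - c) := by
  have hNC : N ≤ TWM.cadj v N y := le_cadj v N y
  have hyC : y ∈ TWM.cadj v N y := self_mem_cadj v N y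
  refine ⟨adn_stable h.hsd (hN₀.trans hNC) (fun x hx n hn => h.const (hN₀ hx) hn)
    (S := {y}) (fun x hx => by rw [Set.mem_singleton_iff.1 hx]; exact hyC) (fun x hx n hn => by
      rw [Set.mem_singleton_iff.1 hx]
      by_cases hn1 : n = 1
      · rw [hn1, h.coord_one]
        exact one_mem _
      · rw [h.coord_two (by omega)]
        exact zero_mem _), ?_⟩
  intro x hx b
  obtain ⟨f, hf, h1⟩ := h.dense x hx b
  obtain ⟨g, hg, h2⟩ := approx_poly (R := N₀) hden y hf b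
  refine ⟨g.eval y, eval_mem_adn (Set.mem_singleton y) fun i => mem_adn_of_mem (hg i), ?_⟩
  have e : x - g.eval y = (x - f.eval y) + (f.eval y - g.eval y) := by ring
  rw [e]
  exact h1.add h2

omit hp [CharP Ω p] in
/-- **The arc of the first floor over the strict floor**, jets in `N₀[y]`. -/
theorem exists_arc₁ [IsAlgClosed Ω] (hcv : CompleteV v)
    {N₀ N : IntermediateField k Ω} (hN₀ : N₀ ≤ N)
    (hden : ∀ x ∈ N, ∀ b : ℝ, ∃ c ∈ N₀, v.Ge b (x - c)) {y : Ω} {σ : ℝ} {D : ℕ → Ω → Ω}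
    (h : SFl p v N y σ D) (hirr : Irr v (TWM.cadj v N y) σ) {u : Ω} {r : ℝ}
    (htu : TL v (TWM.cadj v N y) u r) (hu : FinSh v (TWM.cadj v N y) σ r D u) :
    ∃ Ψ₁ : ℕ → Ω → Ω, Arc v (TWM.cadj v (TWM.cadj v N y) u) σ Ψ₁ ∧
      Oi v (TWM.cadj v (TWM.cadj v N y) u) σ Ψ₁ ∧
      (∀ l : ℕ, ∀ x ∈ TWM.cadj v N y, Ψ₁ l x = D l x) ∧
      (∀ l : ℕ, l ≠ 0 → Ψ₁ l u ∈ Adn N₀ {y}) ∧ ∃ L : ℕ, ∀ l : ℕ, L < l → Ψ₁ l u = 0 := by
  obtain ⟨hs1, hd1⟩ := ring₁ hN₀ hden h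
  obtain ⟨Z, κ, hZ, hZp⟩ := exists_set0_dense h.hsd h.oi h.str htu
    (R := Adn N₀ {y}) (fun x hx => (hs1 x hx).1) hd1 (fun x hx => (hs1 x hx).2)
  obtain ⟨Ψ₁, n₁, ha, ho, he, hj⟩ := hu.exists_arc hcv hZ le_rfl hirr
  refine ⟨Ψ₁, ha, ho, he, fun l hl => ?_, n₁ + 1, fun l hl => ?_⟩
  · rw [hj l hl]
    split_ifs
    · exact hZp l
    · exact zero_mem _
  · rw [hj l (by omega), if_neg (by omega)]

omit hp [CharP Ω p] in
/-- **The arc of the second floor over the strict floor**. -/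
theorem exists_arc₂ [IsAlgClosed Ω] (hcv : CompleteV v)
    {N₀ N : IntermediateField k Ω} (hN₀ : N₀ ≤ N)
    (hden : ∀ x ∈ N, ∀ b : ℝ, ∃ c ∈ N₀, v.Ge b (x - c)) {y : Ω} {σ : ℝ} {D : ℕ → Ω → Ω}
    (h : SFl p v N y σ D) (hirr : Irr v (TWM.cadj v N y) σ) {u z : Ω} {r s : ℝ}
    (htu : TL v (TWM.cadj v N y) u r) {Ψ₁ : ℕ → Ω → Ω}
    (ha : Arc v (TWM.cadj v (TWM.cadj v N y) u) σ Ψ₁)
    (ho : Oi v (TWM.cadj v (TWM.cadj v N y) u) σ Ψ₁)
    (he : ∀ l : ℕ, ∀ x ∈ TWM.cadj v N y, Ψ₁ l x = D l x)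
    (hju : ∀ l : ℕ, l ≠ 0 → Ψ₁ l u ∈ Adn N₀ {y}) (hfu : ∃ L : ℕ, ∀ l : ℕ, L < l → Ψ₁ l u = 0)
    (htz : TL v (TWM.cadj v (TWM.cadj v N y) u) z s)
    (hz : FinSh v (TWM.cadj v (TWM.cadj v N y) u) σ s Ψ₁ z) :
    ∃ Ψ : ℕ → Ω → Ω,
      KArc0 p v N₀ N y σ D (TWM.cadj v (TWM.cadj v (TWM.cadj v N y) u) z) u z r s Ψ := by
  have hC : TWM.cadj v N y ≤ TWM.cadj v (TWM.cadj v N y) u := le_cadj v _ u
  have hNC : N ≤ TWM.cadj v N y := le_cadj v N y
  have hyC : y ∈ TWM.cadj v N y := self_mem_cadj v N y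
  have hu1 : u ∈ TWM.cadj v (TWM.cadj v N y) u := self_mem_cadj v _ u
  obtain ⟨hs1, hd1⟩ := ring₁ hN₀ hden h
  -- the second ring
  have hs2 := adn_stable ha.toHSd ((hN₀.trans hNC).trans hC) (fun x hx n hn => by
      rw [he n x (hNC (hN₀ hx))]
      exact h.const (hN₀ hx) hn) (S := {y, u}) (fun x hx => by
      rcases hx with rfl | hx
      · exact hC hyC
      · rw [Set.mem_singleton_iff.1 hx]
        exact hu1) (fun x hx n hn => by
      rcases hx with rfl | hx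
      · rw [he n _ hyC]
        by_cases hn1 : n = 1
        · rw [hn1, h.coord_one]
          exact one_mem _
        · rw [h.coord_two (by omega)]
          exact zero_mem _
      · rw [Set.mem_singleton_iff.1 hx]
        exact Algebra.adjoin_mono (Set.singleton_subset_iff.2 (Set.mem_insert _ _)) (hju n hn))
  have hd2 : ∀ x ∈ TWM.cadj v (TWM.cadj v N y) u, ∀ b : ℝ, ∃ c ∈ Adn N₀ {y, u},
      v.Ge b (x - c) := by
    intro x hx b
    obtain ⟨f, hf, h1⟩ := htu.dense hx b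
    obtain ⟨g, hg, h2⟩ := approx_poly hd1 u hf b
    refine ⟨g.eval u, eval_mem_adn (Set.mem_insert_of_mem _ (Set.mem_singleton u)) fun i =>
      Algebra.adjoin_mono (Set.singleton_subset_iff.2 (Set.mem_insert _ _)) (hg i), ?_⟩
    have e : x - g.eval u = (x - f.eval u) + (f.eval u - g.eval u) := by ring
    rw [e]
    exact h1.add h2
  obtain ⟨Z', κ', hZ', hZp'⟩ := exists_set0_dense ha.toHSd ho (fun n hn => by
    obtain ⟨m, hm, h1⟩ := ha.str n hn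
    exact ⟨n * σ - m, by linarith, fun x hx b hb => (h1 x hx b hb).mono (by linarith)⟩) htz
    (R := Adn N₀ {y, u}) (fun x hx => (hs2 x hx).1) hd2 (fun x hx => (hs2 x hx).2)
  obtain ⟨Ψ, n₂, ha', ho', he', hj'⟩ := hz.exists_arc hcv hZ' le_rfl (Irr.cadj hirr htu)
  obtain ⟨L, hL⟩ := hfu
  refine ⟨Ψ,
    { fl := h
      tu := htu
      tz := htz
      eq := rfl
      arc := ha'
      oi := ho'
      ext := fun l x hx => by rw [he' l x (hC hx), he l x hx]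
      jet_u := fun l hl => ?_
      fin_u := ⟨L, fun l hl => by rw [he' l u hu1, hL l hl]⟩
      jet_z := fun l hl => ?_
      fin_z := ⟨n₂ + 1, fun l hl => ?_⟩
      le0 := hN₀
      den0 := hden
      ju0 := fun l hl => ?_
      jz0 := fun l hl => ?_ }⟩
  · rw [he' l u hu1]
    obtain ⟨f, hf, h1⟩ := mem_adn_singleton (hju l hl)
    exact ⟨f, fun i => hN₀ (hf i), h1⟩
  · rw [hj' l hl]
    split_ifs
    · exact hZ'.zmem l
    · exact zero_mem _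
  · rw [hj' l (by omega), if_neg (by omega)]
  · rw [he' l u hu1]
    exact mem_adn_singleton (hju l hl)
  · rw [hj' l hl]
    split_ifs
    · exact hZp' l
    · exact zero_mem _

/-- **The base of the classes**: floors of finite shape over the exact strict field. -/
theorem base_floors [IsAlgClosed k] [IsAlgClosed Ω] (h0 : Ctx0 k v) (hcv : CompleteV v)
    {N₀ : IntermediateField k Ω} {x y : Ω}
    (hN₀ : N₀ ≤ TWM.cadj v (⊥ : IntermediateField k Ω) x)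
    (hden : ∀ f ∈ TWM.cadj v (⊥ : IntermediateField k Ω) x, ∀ b : ℝ, ∃ c ∈ N₀, v.Ge b (f - c))
    {σ : ℝ} {D : ℕ → Ω → Ω} (h : SFl p v (TWM.cadj v (⊥ : IntermediateField k Ω) x) y σ D)
    (hdiv : PDiv p v (TWM.cadj v (TWM.cadj v (⊥ : IntermediateField k Ω) x) y))
    (hfg : FGc v 2 (TWM.cadj v (TWM.cadj v (⊥ : IntermediateField k Ω) x) y))
    (hirr : Irr v (TWM.cadj v (TWM.cadj v (⊥ : IntermediateField k Ω) x) y) σ)
    (E : IntermediateField k Ω → Prop)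
    (hE : ∀ (u z : Ω) (r s : ℝ) (Ψ : ℕ → Ω → Ω),
      KArc0 p v N₀ (TWM.cadj v (⊥ : IntermediateField k Ω) x) y σ D
        (TWM.cadj v (TWM.cadj v (TWM.cadj v (TWM.cadj v (⊥ : IntermediateField k Ω) x) y) u) z)
        u z r s Ψ →
      KN p v (TWM.cadj v (TWM.cadj v (TWM.cadj v (TWM.cadj v (⊥ : IntermediateField k Ω) x) y) u) z) →
      E (TWM.cadj v (TWM.cadj v (TWM.cadj v (TWM.cadj v (⊥ : IntermediateField k Ω) x) y) u) z)) :
    (KN p v (TWM.cadj v (TWM.cadj v (⊥ : IntermediateField k Ω) x) y) ∧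
      Arc v (TWM.cadj v (TWM.cadj v (⊥ : IntermediateField k Ω) x) y) σ D ∧
      Oi v (TWM.cadj v (TWM.cadj v (⊥ : IntermediateField k Ω) x) y) σ D ∧
      Irr v (TWM.cadj v (TWM.cadj v (⊥ : IntermediateField k Ω) x) y) σ ∧
      FGc v 2 (TWM.cadj v (TWM.cadj v (⊥ : IntermediateField k Ω) x) y)) ∧
    ∀ (u : Ω) (r : ℝ), TL v (TWM.cadj v (TWM.cadj v (⊥ : IntermediateField k Ω) x) y) u r →
      FinSh v (TWM.cadj v (TWM.cadj v (⊥ : IntermediateField k Ω) x) y) σ r D u →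
      ∃ Ψ₁ : ℕ → Ω → Ω,
        (KN p v (TWM.cadj v (TWM.cadj v (TWM.cadj v (⊥ : IntermediateField k Ω) x) y) u) ∧
        Arc v (TWM.cadj v (TWM.cadj v (TWM.cadj v (⊥ : IntermediateField k Ω) x) y) u) σ Ψ₁ ∧
        Oi v (TWM.cadj v (TWM.cadj v (TWM.cadj v (⊥ : IntermediateField k Ω) x) y) u) σ Ψ₁ ∧
        Irr v (TWM.cadj v (TWM.cadj v (TWM.cadj v (⊥ : IntermediateField k Ω) x) y) u) σ ∧
        FGc v 3 (TWM.cadj v (TWM.cadj v (TWM.cadj v (⊥ : IntermediateField k Ω) x) y) u)) ∧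
        ∀ (z : Ω) (s : ℝ),
          TL v (TWM.cadj v (TWM.cadj v (TWM.cadj v (⊥ : IntermediateField k Ω) x) y) u) z s →
          FinSh v (TWM.cadj v (TWM.cadj v (TWM.cadj v (⊥ : IntermediateField k Ω) x) y) u) σ s Ψ₁ z →
          E (TWM.cadj v (TWM.cadj v (TWM.cadj v (TWM.cadj v (⊥ : IntermediateField k Ω) x) y) u) z) := by
  have hkn := kn_base h0 hcv hdiv
  refine ⟨⟨hkn, SFl.arc h, h.oi, hirr, hfg⟩, fun u r htu hu => ?_⟩
  obtain ⟨Ψ₁, ha, ho, he, hju, hfu⟩ := exists_arc₁ hcv hN₀ hden h hirr htu hu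
  have hkn1 := KN.cadj hcv hkn htu
  refine ⟨Ψ₁, ⟨hkn1, ha, ho, Irr.cadj hirr htu, hfg.cadj htu⟩, fun z s htz hz => ?_⟩
  obtain ⟨Ψ, hΨ⟩ := exists_arc₂ hcv hN₀ hden h hirr htu ha ho he hju hfu htz hz
  exact hE u z r s Ψ hΨ (KN.cadj hcv hkn1 htz)

end Pool.Agent.TWEX
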