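import Pool.Agent.Lib.TWEX.IsoR
import Pool.Agent.Lib.TWMF.S5

/-!
# TANK W: isogeny of strict arcs, S: the class `SX0`

`SX0 p v K σ Φ`: `K` closed, immediate over `K ^ p`, with a finite `p`-basis, `Φ` a strict
overconvergent arc, the elements with linear decay are dense. `SX0.up`: the class is stable under
isogeny, with a record: conjugation by an automorphism `ψ` of `K` near the identity, then composition
with a system `Θ` near the identity, with linear decay, then `p`-th roots.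
-/

set_option autoImplicit false

open Finset

namespace Pool.Agent.TWEX

open Pool.Agent.H15JM (RVal)
open Pool.Agent.LU1 (adj)
open Pool.Agent.D2 (Ctx0)
open Pool.Agent.D2P (clI mem_clI mem_adj_self adj_le)
open Pool.Agent.TW (PBasis adj_eq)
open Pool.Agent.TWM
open Pool.Agent.TWII (PG LP)
open Pool.Agent.TWLM (HSd Oi Arc)
open Pool.Agent.TWN1 (ser coeff_ser ahom ahom_apply)

universe u

namespace Iso

variable {k Ω : Type u} [Field k] [Field Ω] [Algebra k Ω] {v : RVal Ω}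
  {K : IntermediateField k Ω} {Φ Θ : ℕ → Ω → Ω} {p : ℕ} {σ ν : ℝ} {α x y : Ω}

/-- Linearly decaying elements are dense. -/
structure SX0 (p : ℕ) (v : RVal Ω) (K : IntermediateField k Ω) (σ : ℝ) (Φ : ℕ → Ω → Ω) : Prop where
  kn : KN p v K
  arc : Arc v K σ Φ
  oi : Oi v K σ Φ
  oc : ∀ x ∈ K, ∀ b : ℝ, ∃ g ∈ K, OC v σ Φ g ∧ v.Ge b (x - g)

/-! ### The calculus of linear decay -/

theorem OC.add (h : HSd K Φ) (hx : x ∈ K) (hy : y ∈ K) (h1 : OC v σ Φ x) (h2 : OC v σ Φ y) :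
    OC v σ Φ (x + y) := by
  obtain ⟨ρ, hρ, B, hB⟩ := h1
  obtain ⟨ρ', hρ', B', hB'⟩ := h2
  refine ⟨max ρ ρ', max_lt hρ hρ', min B B', fun l => ?_⟩
  have e1 := mul_le_mul_of_nonneg_left (le_max_left ρ ρ') (Nat.cast_nonneg (α := ℝ) l)
  have e2 := mul_le_mul_of_nonneg_left (le_max_right ρ ρ') (Nat.cast_nonneg (α := ℝ) l)
  rw [h.add l x hx y hy]
  exact ((hB l).mono (by linarith [min_le_left B B'])).add
    ((hB' l).mono (by linarith [min_le_right B B']))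

theorem OC.mul (h : HSd K Φ) (hx : x ∈ K) (hy : y ∈ K) (h1 : OC v σ Φ x) (h2 : OC v σ Φ y) :
    OC v σ Φ (x * y) := by
  obtain ⟨ρ, hρ, B, hB⟩ := h1
  obtain ⟨ρ', hρ', B', hB'⟩ := h2
  refine ⟨max ρ ρ', max_lt hρ hρ', B + B', fun l => ?_⟩
  rw [h.mul l x hx y hy]
  refine RVal.Ge.sum _ _ fun i hi => ((hB i.1).mul (hB' i.2)).mono ?_
  have h3 : i.1 + i.2 = l := by simpa using hi
  have e1 := mul_le_mul_of_nonneg_left (le_max_left ρ ρ') (Nat.cast_nonneg (α := ℝ) i.1)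
  have e2 := mul_le_mul_of_nonneg_left (le_max_right ρ ρ') (Nat.cast_nonneg (α := ℝ) i.2)
  rw [← h3]
  push_cast
  linarith

theorem OC.const (h : HSd K Φ) (c : k) : OC v σ Φ (algebraMap k Ω c) := by
  refine ⟨σ - 1, by linarith, v (algebraMap k Ω c), fun l => ?_⟩
  by_cases hl : l = 0
  · rw [hl, h.c0 _ (K.algebraMap_mem c)]
    exact (v.ge_self _).mono (by simp)
  · rw [h.con l hl]
    exact RVal.Ge.zero

theorem OC.pow (h : HSd K Φ) (hx : x ∈ K) (h1 : OC v σ Φ x) (n : ℕ) : OC v σ Φ (x ^ n) := by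
  induction n with
  | zero =>
    rw [pow_zero, ← map_one (algebraMap k Ω)]
    exact OC.const h 1
  | succ n ih =>
    rw [pow_succ]
    exact ih.mul h (pow_mem hx n) hx h1

theorem OC.sum (h : HSd K Φ) {ι : Type*} (S : Finset ι) (f : ι → Ω) (hf : ∀ i ∈ S, f i ∈ K)
    (h1 : ∀ i ∈ S, OC v σ Φ (f i)) : OC v σ Φ (∑ i ∈ S, f i) := by
  classical
  induction S using Finset.induction_on with
  | empty =>
    rw [sum_empty, ← map_zero (algebraMap k Ω)]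
    exact OC.const h 0
  | insert a S ha ih =>
    rw [sum_insert ha]
    exact (h1 a (mem_insert_self a S)).add h (hf a (mem_insert_self a S))
      (sum_mem fun i hi => hf i (mem_insert_of_mem hi))
      (ih (fun i hi => hf i (mem_insert_of_mem hi)) fun i hi => h1 i (mem_insert_of_mem hi))

/-! ### Conjugation -/

section Conj

variable (ψ : K ≃ₐ[k] K)

/-- `ψ Φ ψ⁻¹`. -/
noncomputable def conj (Φ : ℕ → Ω → Ω) (l : ℕ) (x : Ω) : Ω := by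
  classical
  exact if hx : x ∈ K then (if h : Φ l (ψ.symm ⟨x, hx⟩ : K) ∈ K then
    (ψ ⟨Φ l (ψ.symm ⟨x, hx⟩ : K), h⟩ : K) else 0) else 0

theorem conj_apply (h : HSd K Φ) (l : ℕ) {x : Ω} (hx : x ∈ K) :
    conj ψ Φ l x = (ψ ⟨Φ l (ψ.symm ⟨x, hx⟩ : K), h.mem l _ (ψ.symm ⟨x, hx⟩).2⟩ : K) := by
  rw [conj, dif_pos hx, dif_pos (h.mem l _ (ψ.symm ⟨x, hx⟩).2)]

theorem conj_map (h : HSd K Φ) (l : ℕ) (x : K) :
    conj ψ Φ l (ψ x : K) = (ψ ⟨Φ l (x : Ω), h.mem l _ x.2⟩ : K) := by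
  rw [conj_apply ψ h l (ψ x).2]
  congr 2
  simp

theorem conj_hsd (h : HSd K Φ) : HSd K (conj ψ Φ) := by
  refine ⟨fun l x hx => ?_, fun x hx => ?_, fun l x hx y hy => ?_, fun l x hx y hy => ?_,
    fun l hl c => ?_⟩
  · rw [conj_apply ψ h l hx]
    exact (ψ _).2
  · rw [conj_apply ψ h 0 hx]
    have e : (⟨Φ 0 (ψ.symm ⟨x, hx⟩ : K), h.mem 0 _ (ψ.symm ⟨x, hx⟩).2⟩ : K) = ψ.symm ⟨x, hx⟩ :=
      Subtype.ext (h.c0 _ (ψ.symm ⟨x, hx⟩).2)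
    rw [e, ψ.apply_symm_apply]
  · rw [conj_apply ψ h l hx, conj_apply ψ h l hy, conj_apply ψ h l (add_mem hx hy),
      ← K.toSubalgebra.coe_add, ← map_add]
    congr 2
    apply Subtype.ext
    have e : (ψ.symm ⟨x + y, add_mem hx hy⟩ : K) = ψ.symm ⟨x, hx⟩ + ψ.symm ⟨y, hy⟩ := by
      rw [← map_add]
      rfl
    show Φ l (ψ.symm ⟨x + y, add_mem hx hy⟩ : K) = Φ l (ψ.symm ⟨x, hx⟩ : K) + Φ l (ψ.symm ⟨y, hy⟩ : K)
    rw [e]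
    exact h.add l _ (ψ.symm ⟨x, hx⟩).2 _ (ψ.symm ⟨y, hy⟩).2
  · have e : (ψ.symm ⟨x * y, mul_mem hx hy⟩ : K) = ψ.symm ⟨x, hx⟩ * ψ.symm ⟨y, hy⟩ := by
      rw [← map_mul]
      rfl
    have e1 : (⟨Φ l (ψ.symm ⟨x * y, mul_mem hx hy⟩ : K),
        h.mem l _ (ψ.symm ⟨x * y, mul_mem hx hy⟩).2⟩ : K) = ∑ i ∈ antidiagonal l,
        (⟨Φ i.1 (ψ.symm ⟨x, hx⟩ : K), h.mem _ _ (ψ.symm ⟨x, hx⟩).2⟩ : K) *
          ⟨Φ i.2 (ψ.symm ⟨y, hy⟩ : K), h.mem _ _ (ψ.symm ⟨y, hy⟩).2⟩ := by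
      apply Subtype.ext
      rw [AddSubmonoidClass.coe_finsetSum]
      show Φ l (ψ.symm ⟨x * y, mul_mem hx hy⟩ : K) = ∑ i ∈ antidiagonal l,
        Φ i.1 (ψ.symm ⟨x, hx⟩ : K) * Φ i.2 (ψ.symm ⟨y, hy⟩ : K)
      rw [e]
      exact h.mul l _ (ψ.symm ⟨x, hx⟩).2 _ (ψ.symm ⟨y, hy⟩).2
    rw [conj_apply ψ h l (mul_mem hx hy), e1, map_sum, AddSubmonoidClass.coe_finsetSum]
    refine sum_congr rfl fun i _ => ?_
    rw [map_mul, conj_apply ψ h _ hx, conj_apply ψ h _ hy]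
    rfl
  · rw [conj_apply ψ h l (K.algebraMap_mem c)]
    have e : (ψ.symm ⟨algebraMap k Ω c, K.algebraMap_mem c⟩ : K) = algebraMap k K c :=
      ψ.symm.commutes c
    have e1 : (⟨Φ l (ψ.symm ⟨algebraMap k Ω c, K.algebraMap_mem c⟩ : K),
        h.mem l _ (ψ.symm ⟨algebraMap k Ω c, K.algebraMap_mem c⟩).2⟩ : K) = 0 := by
      apply Subtype.ext
      show Φ l (ψ.symm ⟨algebraMap k Ω c, K.algebraMap_mem c⟩ : K) = 0
      rw [e]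
      exact h.con l hl c
    rw [e1, map_zero]
    rfl

variable {ψ} {κ : ℝ}

theorem symm_near (hκ : 0 < κ)
    (hψ : ∀ x : K, ∀ b : ℝ, v.Ge b (x : Ω) → v.Ge (b + κ) ((ψ x : Ω) - x)) :
    ∀ y : K, ∀ b : ℝ, v.Ge b (y : Ω) → v.Ge (b + κ) ((ψ.symm y : Ω) - y) := by
  intro y b hb
  obtain ⟨x, rfl⟩ : ∃ x, y = ψ x := ⟨ψ.symm y, by simp⟩
  rw [ψ.symm_apply_apply]
  by_cases hx0 : (x : Ω) = 0
  · have h1 : x = 0 := Subtype.ext hx0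
    rw [h1, map_zero]
    simp only [sub_self]
    exact RVal.Ge.zero
  · have h1 := hψ x _ (v.ge_self (x : Ω))
    have h2 : Gt v (v (x : Ω)) ((x : Ω) - (ψ x : Ω)) := by
      rw [← neg_sub]
      exact (Gt.of_ge h1 (by linarith)).neg
    obtain ⟨h3, h4⟩ := Gt.val_eq hx0 h2
    have h5 : b ≤ v (x : Ω) := h4 ▸ hb h3
    rw [← neg_sub]
    exact (h1.mono (by linarith)).neg

theorem near_iso (hκ : 0 < κ)
    (hψ : ∀ x : K, ∀ b : ℝ, v.Ge b (x : Ω) → v.Ge (b + κ) ((ψ x : Ω) - x)) (x : K) {b : ℝ}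
    (hb : v.Ge b (x : Ω)) : v.Ge b (ψ x : Ω) := by
  have e : (ψ x : Ω) = ((ψ x : Ω) - x) + x := by ring
  rw [e]
  exact ((hψ x b hb).mono (by linarith)).add hb

variable (hκ : 0 < κ) (hψ : ∀ x : K, ∀ b : ℝ, v.Ge b (x : Ω) → v.Ge (b + κ) ((ψ x : Ω) - x))
include hκ hψ

theorem conj_arc (h : Arc v K σ Φ) : Arc v K σ (conj ψ Φ) := by
  refine ⟨conj_hsd ψ h.toHSd, fun l hl => ?_⟩
  obtain ⟨n, hn, h1⟩ := h.str l hl
  refine ⟨n, hn, fun f hf b hb => ?_⟩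
  rw [conj_apply ψ h.toHSd l hf]
  exact near_iso hκ hψ _ (h1 _ (ψ.symm ⟨f, hf⟩).2 b
    (near_iso (ψ := ψ.symm) hκ (symm_near hκ hψ) ⟨f, hf⟩ hb))

theorem conj_oi (h : HSd K Φ) (ho : Oi v K σ Φ) : Oi v K σ (conj ψ Φ) := by
  intro f hf C
  obtain ⟨L, hL⟩ := ho _ (ψ.symm ⟨f, hf⟩).2 C
  refine ⟨L, fun l hl => ?_⟩
  rw [conj_apply ψ h l hf]
  exact near_iso hκ hψ _ (hL l hl)

theorem conj_oc (h : HSd K Φ) (x : K) (ho : OC v σ Φ (x : Ω)) : OC v σ (conj ψ Φ) (ψ x : Ω) := by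
  obtain ⟨ρ, hρ, B, hB⟩ := ho
  refine ⟨ρ, hρ, B, fun l => ?_⟩
  rw [conj_map ψ h l x]
  exact near_iso hκ hψ _ (hB l)

theorem conj_near (h : Arc v K σ Φ) {x : Ω} (hx : x ∈ K) {b : ℝ} (hb : v.Ge b x) (l : ℕ) :
    v.Ge (b + κ - l * σ) (conj ψ Φ l x - Φ l x) := by
  have h1 := symm_near hκ hψ ⟨x, hx⟩ b hb
  have h2 : v.Ge b (ψ.symm ⟨x, hx⟩ : Ω) :=
    near_iso (ψ := ψ.symm) hκ (symm_near hκ hψ) ⟨x, hx⟩ hb
  have h3 := arc_nrm h _ (ψ.symm ⟨x, hx⟩).2 _ h2 l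
  have h4 := arc_nrm h _ (sub_mem (ψ.symm ⟨x, hx⟩).2 hx) _ h1 l
  rw [coeff_ser] at h3 h4
  rw [hsd_sub h.toHSd l (ψ.symm ⟨x, hx⟩).2 hx] at h4
  have h5 := hψ ⟨Φ l (ψ.symm ⟨x, hx⟩ : K), h.mem l _ (ψ.symm ⟨x, hx⟩).2⟩ _ h3
  rw [conj_apply ψ h.toHSd l hx]
  have e : ((ψ ⟨Φ l (ψ.symm ⟨x, hx⟩ : K), h.mem l _ (ψ.symm ⟨x, hx⟩).2⟩ : K) : Ω) - Φ l x =
      (((ψ ⟨Φ l (ψ.symm ⟨x, hx⟩ : K), h.mem l _ (ψ.symm ⟨x, hx⟩).2⟩ : K) : Ω) -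
        Φ l (ψ.symm ⟨x, hx⟩ : K)) + (Φ l (ψ.symm ⟨x, hx⟩ : K) - Φ l x) := by ring
  rw [e]
  exact (h5.mono (by linarith)).add h4

theorem conj_sx (h : SX0 p v K σ Φ) : SX0 p v K σ (conj ψ Φ) := by
  refine ⟨h.kn, conj_arc hκ hψ h.arc, conj_oi hκ hψ h.arc.toHSd h.oi, fun x hx b => ?_⟩
  obtain ⟨g, hg, h1, h2⟩ := h.oc _ (ψ.symm ⟨x, hx⟩).2 b
  refine ⟨_, (ψ ⟨g, hg⟩).2, conj_oc hκ hψ h.arc.toHSd ⟨g, hg⟩ h1, ?_⟩
  have h3 := near_iso hκ hψ (ψ.symm ⟨x, hx⟩ - ⟨g, hg⟩) (b := b) h2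
  rw [map_sub, ψ.apply_symm_apply] at h3
  exact h3

end Conj

end Iso

end Pool.Agent.TWEX
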