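import Pool.Agent.Lib.TWMF.E3
import Pool.Agent.Lib.TWEX.IsoS

/-!
# TANK W, exit on an isogeny class: definitions

* `EV0`: the motions of `K₀` given by the arc `Ψ`, on finite subsets of `K₀`;
* `EVu`: every dense finitely generated subfield of `K` has the motions given by the arc of `K`;
* `EVe`: `K` has an arc with these motions;
* `motE_of_ev0`: motions without effect.
-/

set_option autoImplicit false

open Polynomial Finset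

namespace Pool.Agent.TWEX

open Pool.Agent.H15JM (RVal)
open Pool.Agent.D2P (hen le_hen clI mem_clI)
open Pool.Agent.TW (PBasis BD Mot Ctx)
open Pool.Agent.TWM
open Pool.Agent.TWLM (HSd Oi Arc)
open Pool.Agent.TWS (IsoE)
open Pool.Agent.TWEX.Iso (KN SX0)

universe u

/-- Motions of `K₀` of amounts which are powers of `p ^ s`, of all the radii near `σ`, which are the
evaluation of the arc `Ψ` on a given finite subset of `K₀`, up to a given precision. -/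
def EV0 {k Ω Ω' : Type u} [Field k] [Field Ω] [Algebra k Ω] [Field Ω'] [Algebra k Ω']
    (p : ℕ) (v : RVal Ω) (w : RVal Ω') (ι : Ω →ₐ[k] Ω') (K₀ : IntermediateField k Ω)
    (Ψ : ℕ → Ω' → Ω') (σ : ℝ) : Prop :=
  ∀ S : Finset Ω, (∀ x ∈ S, x ∈ K₀) → ∀ (c : ℝ) (s : ℕ), ∃ M₀ : ℕ, ∀ M : ℕ, M₀ ≤ M →
    ∀ ρ₁ : ℝ, ρ₁ < σ → ∃ ρ₀ : ℝ, ρ₁ ≤ ρ₀ ∧ ρ₀ < σ ∧ ∀ ρ : ℝ, ρ₀ < ρ → ρ < σ →
      (∀ (m : ℤ) (f : Ω), m ≠ 0 → f ≠ 0 → v f ≠ m * ρ) →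
      ∃ (φ : ℕ → (Ω ≃ₐ[k] Ω)) (e : ℕ → Ω), (∀ i, e i ∈ hen v K₀) ∧
        (∀ i, e i ≠ 0 ∧ ρ₀ ≤ v (e i ^ p ^ s) ∧ v (e i ^ p ^ s) < ρ) ∧
        Mot v K₀ φ (fun i => e i ^ p ^ s) ρ ∧
        ∀ x ∈ S, ∀ i, w.Ge c (ι (φ i x) -
          ∑ l ∈ Finset.range (M + 1), Ψ l (ι x) * ι (e i ^ p ^ s) ^ l)

section

variable {k Ω : Type u} [Field k] [Field Ω] [Algebra k Ω]

/-- The motions given by the arc `Ψ` of `K`, for all the dense finitely generated subfields of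
transcendence degree `4`. -/
def EVu (p : ℕ) (w : RVal Ω) (K : IntermediateField k Ω) (Ψ : ℕ → Ω → Ω) (σ : ℝ) : Prop :=
  ∀ (Ω₀ : Type u) (_ : Field Ω₀) (_ : Algebra k Ω₀) (_ : IsAlgClosed Ω₀) (v : RVal Ω₀)
    (ι : Ω₀ →ₐ[k] Ω) (K₀ : IntermediateField k Ω₀), Ctx k v 1 → IsoE v w ι → K₀.FG →
    (∀ g : Ω₀, IsAlgebraic K₀ g) → Algebra.trdeg k K₀ = (4 : ℕ) → BD p v K₀ →
    clI w (K₀.map ι) = K → EV0 p v w ι K₀ Ψ σ

/-- `K` has an arc with motions. -/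
def EVe (p : ℕ) (w : RVal Ω) (K : IntermediateField k Ω) : Prop :=
  ∃ (σ : ℝ) (Ψ : ℕ → Ω → Ω), SX0 p w K σ Ψ ∧ EVu p w K Ψ σ

end

variable {k Ω Ω' : Type u} [Field k] [Field Ω] [Algebra k Ω] [Field Ω'] [Algebra k Ω']
  {v : RVal Ω} {w : RVal Ω'} {ι : Ω →ₐ[k] Ω'} {K₀ : IntermediateField k Ω} {Ψ : ℕ → Ω' → Ω'}
  {σ ν : ℝ} {p : ℕ} {a : Ω}

/-- From the motions on the henselization. -/
theorem ev0_of_ev (h : TWMF.EV p v w ι K₀ Ψ σ) : EV0 p v w ι K₀ Ψ σ := by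
  intro S hS c s
  obtain ⟨M₀, h1⟩ := h S (fun x hx => le_hen _ (hS x hx)) c s
  refine ⟨M₀, fun M hM ρ₁ hρ => ?_⟩
  obtain ⟨ρ₀, h2, h3, h4⟩ := h1 M hM ρ₁ hρ
  refine ⟨ρ₀, h2, h3, fun ρ h5 h6 h7 => ?_⟩
  obtain ⟨φ, e, h8, h9, h10, -, h11⟩ := h4 ρ h5 h6 h7
  exact ⟨φ, e, h8, h9, h10, h11⟩

/-- **Motions without effect, from (EV).** -/
theorem motE_of_ev0 [IsAlgClosed k] [hp : Fact p.Prime] [CharP Ω p] [CharP Ω' p] {r : ℕ}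
    (h : Ctx k v r) (hd : IsoE v w ι) (hEV : EV0 p v w ι K₀ Ψ σ) (ha : a ∈ K₀)
    (hc0 : Ψ 0 (ι a) = ι a)
    (hnull : ∀ l : ℕ, l ≠ 0 → ∃ g ∈ clI w (K₀.map ι), Gt w (ν - l * σ) (Ψ l (ι a) - g ^ p)) :
    ∃ (φ : ℕ → (Ω ≃ₐ[k] Ω)) (δ : ℕ → Ω) (μ κ : ℝ), 0 < κ ∧ Mot v K₀ φ δ μ ∧
      ∀ i, ∃ b ∈ hen v K₀, v.Ge (ν + κ) (φ i a - a - b ^ p) := by
  classical
  obtain ⟨M, hM⟩ := hEV {a} (fun x hx => by rw [Finset.mem_singleton.1 hx]; exact ha) (ν + 1) 1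
  have hM := hM M le_rfl
  have hex : ∀ l : ℕ, ∃ g ∈ K₀, l ≠ 0 → ∃ κ : ℝ, 0 < κ ∧
      w.Ge (ν - l * σ + κ) (Ψ l (ι a) - ι g ^ p) := by
    intro l
    by_cases hl : l = 0
    · exact ⟨0, zero_mem _, fun h0 => absurd hl h0⟩
    · obtain ⟨g, hg, h1⟩ := TWMF.exists_null (hnull l hl)
      exact ⟨g, hg, fun _ => h1⟩
  choose g hg hgκ using hex
  obtain ⟨κ, hκ, hκl⟩ := TWEX.exists_margin (Finset.range (M + 1))
    (fun l κ => l ≠ 0 → w.Ge (ν - l * σ + κ) (Ψ l (ι a) - ι (g l) ^ p))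
    (fun l _ => by
      by_cases hl : l = 0
      · exact ⟨1, one_pos, fun h0 => absurd hl h0⟩
      · obtain ⟨κ, h1, h2⟩ := hgκ l hl
        exact ⟨κ, h1, fun _ => h2⟩)
    (fun l _ κ κ' h1 h2 hl => (h2 hl).mono (by linarith))
  obtain ⟨ε, hε, hε'⟩ : ∃ ε : ℝ, 0 < ε ∧ ((M : ℝ) + 1) * ε ≤ κ / 2 := by
    refine ⟨κ / 2 / (M + 1), by positivity, ?_⟩
    rw [mul_div_cancel₀ _ (by positivity)]
  obtain ⟨ρ₀, h1, h2, h3⟩ := hM (σ - ε) (by linarith)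
  obtain ⟨ρ, h4, h5, hirr⟩ := TWMF.exists_irr h h2
  obtain ⟨φ, e, he, hev, hmot, hval⟩ := h3 ρ h4 h5 hirr
  refine ⟨φ, _, ρ, min 1 (κ / 2), lt_min one_pos (by positivity), hmot, fun i => ?_⟩
  refine ⟨∑ l ∈ (Finset.range (M + 1)).erase 0, g l * e i ^ l,
    sum_mem fun l _ => mul_mem (le_hen _ (hg l)) (pow_mem (he i) l), ?_⟩
  have h6 := hval a (Finset.mem_singleton_self a) i
  have hdi : w.Ge (σ - ε) (ι (e i ^ p ^ 1)) := hd.ge_iff.2 fun _ => h1.trans (hev i).2.1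
  have h7 : w.Ge (ν + κ / 2) (∑ l ∈ (Finset.range (M + 1)).erase 0,
      (Ψ l (ι a) - ι (g l) ^ p) * ι (e i ^ p ^ 1) ^ l) := by
    refine RVal.Ge.sum _ _ fun l hl => ?_
    obtain ⟨hl0, hl⟩ := Finset.mem_erase.1 hl
    refine ((hκl l hl hl0).mul (TWM.ge_pow hdi l)).mono ?_
    have h8 : (l : ℝ) ≤ M + 1 := by exact_mod_cast (Finset.mem_range.1 hl).le
    have h9 := (mul_le_mul_of_nonneg_right h8 hε.le).trans hε'
    linarith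
  rw [← hd.ge_iff]
  have e' : ι (φ i a - a - (∑ l ∈ (Finset.range (M + 1)).erase 0, g l * e i ^ l) ^ p) =
      (ι (φ i a) - ∑ l ∈ Finset.range (M + 1), Ψ l (ι a) * ι (e i ^ p ^ 1) ^ l) +
      ∑ l ∈ (Finset.range (M + 1)).erase 0, (Ψ l (ι a) - ι (g l) ^ p) * ι (e i ^ p ^ 1) ^ l := by
    rw [sum_pow_char, ← Finset.add_sum_erase (Finset.range (M + 1)) _
      (Finset.mem_range.2 (Nat.succ_pos M)), hc0, pow_zero, mul_one, map_sub, map_sub, map_sum]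
    simp only [sub_mul, Finset.sum_sub_distrib, map_mul, map_pow, mul_pow, pow_one]
    have e2 : ∑ x ∈ (Finset.range (M + 1)).erase 0, ι (g x) ^ p * (ι (e i) ^ x) ^ p =
        ∑ x ∈ (Finset.range (M + 1)).erase 0, ι (g x) ^ p * (ι (e i) ^ p) ^ x :=
      Finset.sum_congr rfl fun l _ => by rw [← pow_mul, ← pow_mul, mul_comm l p]
    rw [e2]
    ring
  rw [e']
  exact (h6.mono (by linarith [min_le_left 1 (κ / 2)])).add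
    (h7.mono (by linarith [min_le_right 1 (κ / 2)]))

end Pool.Agent.TWEX
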