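import Pool.Agent.Lib.TWEX.Pull
import Pool.Agent.Lib.TWS.Tr

/-!
# TANK W, exit: pull back from a complete field, `ι` isometric (not necessarily dense)

`ι : Ω → Ω'` isometric, `Ω'` complete: the statements of `Pull.lean`.
* `clI_of_hen_iso`, `algInd_of_hen_iso`, `exists_pull_iso`, `gen_tri_iso`.
-/

set_option autoImplicit false
set_option linter.unusedSectionVars false

open Polynomial

namespace Pool.Agent.TWEX

open Pool.Agent.H15JM (RVal)
open Pool.Agent.LU1 (VPos adj)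
open Pool.Agent.LUC (Cl clF)
open Pool.Agent.D2 (Ctx0)
open Pool.Agent.D2P (hen clI mem_clI mem_hen le_hen hen_hen hen_mono hen_le mem_adj_self adj_le)
open Pool.Agent.TW
open Pool.Agent.TWM (CompleteV le_clI clI_mono clI_clI clI_hen OI pbasis_clI cld_clI PI ge_pow
  ge_sub_comm Gt Dense)
open Pool.Agent.TWS (IsoE)

universe u

variable {k Ω Ω' : Type u} [Field k] [Field Ω] [Algebra k Ω] [Field Ω'] [Algebra k Ω']
  {v : RVal Ω} {w : RVal Ω'} {ι : Ω →ₐ[k] Ω'}

section Bd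

variable [IsAlgClosed k] [IsAlgClosed Ω] {p : ℕ} [Fact p.Prime] [CharP k p] [CharP Ω' p]

omit [IsAlgClosed k] in
/-- The closures in `Ω'` of fields with the same henselization. -/
theorem clI_of_hen_iso (hd : IsoE v w ι) {K E : IntermediateField k Ω} (h : hen v K = hen v E) :
    clI w (K.map ι) = clI w (E.map ι) := by
  have h1 : hen w (K.map ι) = hen w (E.map ι) := by rw [hd.hen_map, hd.hen_map, h]
  rw [← clI_hen (K.map ι), h1, clI_hen]

/-- `n = trdeg K₀` generators of the henselization are independent. -/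
theorem algInd_of_hen_iso (hcw : CompleteV w) (hd : IsoE v w ι) {K₀ : IntermediateField k Ω}
    (hK : K₀.FG) {n : ℕ} (htr : Algebra.trdeg k K₀ = n) (hBD : BD p v K₀) {t : Fin n → Ω}
    (hhen : hen v K₀ = hen v (kr k t)) : AlgebraicIndependent k t := by
  have h1 := (oi_of_gen (p := p) (T := fun i => ι (t i)) hcw (Dense.fg_map hK)
    (by rw [Dense.trdeg_map, htr]) (hd.bd_iff.2 hBD) (by
      rw [clI_of_hen_iso hd hhen, map_kr])).2.2
  exact (AlgHom.algebraicIndependent_iff ι (Dense.inj ι)).1 h1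

/-- **Pull back of coordinates.** -/
theorem exists_pull_iso (h0' : Ctx0 k w) (hcw : CompleteV w) (hd : IsoE v w ι)
    {K₀ : IntermediateField k Ω} (hK : K₀.FG) {n : ℕ} (htr : Algebra.trdeg k K₀ = n)
    (hBD : BD p v K₀) {T : Fin n → Ω'} (hcl : clI w (K₀.map ι) = clI w (kr k T)) (η : ℝ) :
    ∃ t : Fin n → Ω, (∀ i, t i ∈ K₀) ∧ hen v K₀ = hen v (kr k t) ∧ AlgebraicIndependent k t ∧
      AlgebraicIndependent k T ∧
      ∃ j : kr k t →ₐ[k] Ω', (∀ i (hi : t i ∈ kr k t), j ⟨t i, hi⟩ = T i) ∧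
        (∀ e : kr k t, (e : Ω) ≠ 0 → w (j e) = v (e : Ω)) ∧
        (∀ e : kr k t, w.Ge (v (e : Ω) + η) (j e - ι e)) ∧ ∀ e, j e ∈ kr k T := by
  classical
  have hK' : (K₀.map ι).FG := Dense.fg_map hK
  have htr' : Algebra.trdeg k (K₀.map ι) = n := by rw [Dense.trdeg_map, htr]
  have hBD' : BD p w (K₀.map ι) := hd.bd_iff.2 hBD
  obtain ⟨δ₁, hδ₁⟩ := transport h0' hcw hK' htr' hBD' hcl (max η 1)
  obtain ⟨δ₂, hδ₂⟩ := TWM.exit_gen h0' hcw hK' htr' hBD' hcl
  have hT := oi_of_gen hcw hK' htr' hBD' hcl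
  have hTm : ∀ i, T i ∈ clI w (K₀.map ι) := fun i => by
    rw [hcl]
    exact le_clI _ (mem_kr T i)
  choose t' ht'K ht'n using fun i => mem_clI.1 (hTm i) (max δ₁ δ₂)
  choose t ht hιt using ht'K
  obtain rfl : (fun i => ι (t i)) = t' := funext hιt
  obtain ⟨κ, hκ, hN⟩ := hδ₁ (fun i => ι (t i)) fun i => (ht'n i).mono (le_max_left _ _)
  obtain ⟨-, -, -, hai', -, hhen'⟩ := hδ₂ (fun i => ι (t i)) (fun i => ⟨t i, ht i, rfl⟩)
    fun i => (ht'n i).mono (le_max_right _ _)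
  have hhen : hen v K₀ = hen v (kr k t) := by
    rw [← map_kr, hd.hen_map, hd.hen_map] at hhen'
    exact Dense.map_inj hhen'
  have hai : AlgebraicIndependent k t := (AlgHom.algebraicIndependent_iff ι (Dense.inj ι)).1 hai'
  obtain ⟨φ, hφ1, hφ2, hφ3, -⟩ := (near_symm hN hT.2.2).exists_hom hai'
  -- the restriction of `ι`
  have hmem : ∀ x : kr k t, ι x ∈ kr k fun i => ι (t i) := fun x => by
    rw [← map_kr]
    exact ⟨x, x.2, rfl⟩
  let ι₀ : kr k t →ₐ[k] kr k fun i => ι (t i) :=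
    (ι.comp (kr k t).val).codRestrict (kr k fun i => ι (t i)).toSubalgebra hmem
  have hι₀ : ∀ x : kr k t, (ι₀ x : Ω') = ι x := fun _ => rfl
  have hne : ∀ e : kr k t, (e : Ω) ≠ 0 → (ι₀ e : Ω') ≠ 0 := fun e he => IsoE.ne_zero he
  have hge : ∀ e : kr k t, (e : Ω) ≠ 0 → w.Ge (v (e : Ω) + κ) (φ (ι₀ e) - ι e) := by
    intro e he
    have h1 := hφ2 (ι₀ e) (hne e he)
    rw [hι₀, hd.val _ he] at h1
    exact h1
  refine ⟨t, ht, hhen, hai, hT.2.2, φ.comp ι₀, fun i hi => ?_, fun e he => ?_, fun e => ?_,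
    fun e => hφ3 _⟩
  · have h1 := hφ1 i (hmem ⟨t i, hi⟩)
    exact h1
  · have h1 := hge e he
    have h2 := TWM.Gt.val_eq (v := w) (x := ι e) (y := φ (ι₀ e)) (IsoE.ne_zero he)
      (TWM.Gt.of_ge (ge_sub_comm h1) (by
        rw [hd.val _ he]
        have := hN.pos
        linarith))
    rw [hd.val _ he] at h2
    exact h2.2
  · by_cases he : (e : Ω) = 0
    · have h1 : e = 0 := Subtype.ext he
      rw [h1, map_zero]
      show w.Ge _ (0 - ι 0)
      rw [map_zero, sub_zero]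
      exact RVal.Ge.zero
    · exact (hge e he).mono (by linarith [le_max_left η 1])

/-- **Generation in `Ω`, with triangular rational jets.** -/
theorem gen_tri_iso (h0' : Ctx0 k w) (hcw : CompleteV w) (hd : IsoE v w ι)
    {K₀ : IntermediateField k Ω} (hK : K₀.FG) (hBD : BD p v K₀) {m : ℕ} {t : Fin m → Ω}
    (hhen : hen v K₀ = hen v (kr k t)) {H : Fin m → Polynomial Ω} (hc0 : ∀ i, (H i).coeff 0 = t i)
    (htri : ∀ i, ∀ l : ℕ, l ≠ 0 → ∃ P Q : MvPolynomial (Fin m) k, (∀ j ∈ P.vars, j < i) ∧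
      (∀ j ∈ Q.vars, j < i) ∧ MvPolynomial.aeval t Q ≠ 0 ∧
      (H i).coeff l = MvPolynomial.aeval t P / MvPolynomial.aeval t Q) (B₀ : ℝ) :
    ∃ Λ : ℝ, ∀ (d d' : Ω) (E : IntermediateField k Ω), v.Ge B₀ d → v.Ge Λ (d - d') → d' ∈ E →
      (∀ i, (H i).eval d ∈ E) → E.FG → E ≤ hen v K₀ → hen v E = hen v K₀ := by
  classical
  have hK' : (K₀.map ι).FG := Dense.fg_map hK
  have hBD' : BD p w (K₀.map ι) := hd.bd_iff.2 hBD
  have hcl : clI w (K₀.map ι) = clI w (kr k fun i => ι (t i)) := by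
    rw [clI_of_hen_iso hd hhen, map_kr]
  have htr : Algebra.trdeg k (kr k fun i => ι (t i)) = Algebra.trdeg k (K₀.map ι) := by
    rw [← map_kr, Dense.trdeg_map, Dense.trdeg_map, trdeg_of_hen hhen]
  -- the degrees
  obtain ⟨D, hD⟩ : ∃ D : ℕ, ∀ i, (H i).natDegree ≤ D :=
    ⟨Finset.univ.sup fun i => (H i).natDegree, fun i =>
      Finset.le_sup (f := fun i => (H i).natDegree) (Finset.mem_univ i)⟩
  choose! P Q hP hQ hQ0 hPQ using htri
  let A : Fin m → ℕ → (Fin m → Ω') → Ω' := fun i l s =>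
    MvPolynomial.aeval s (P i l) / MvPolynomial.aeval s (Q i l)
  have hJ : ∀ (R : MvPolynomial (Fin m) k) (i : Fin m), (∀ j ∈ R.vars, j < i) →
      JF w (⊥ : IntermediateField k Ω') (fun i => ι (t i)) {j | j < i}
        fun s => MvPolynomial.aeval s R := by
    intro R i hR
    have e : (fun s => MvPolynomial.aeval s R) = fun s : Fin m → Ω' => ∑ d ∈ R.support,
        algebraMap k Ω' (R.coeff d) * ∏ i, s i ^ d i := by
      funext s
      rw [MvPolynomial.aeval_def, MvPolynomial.eval₂_eq']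
    rw [e]
    refine JF.sum _ _ fun d hd => (JF.const (IntermediateField.algebraMap_mem _ _)).mul
      (JF.prod _ _ fun l _ => ?_)
    by_cases hl : d l = 0
    · simp only [hl, pow_zero]
      exact JF.one
    · refine (JF.coord (hR l ?_)).pow _
      rw [MvPolynomial.mem_vars_iff_mem_support]
      exact ⟨d, hd, Finsupp.mem_support_iff.2 hl⟩
  have hA : ∀ i, ∀ l ∈ Finset.Icc 1 D, JF w (⊥ : IntermediateField k Ω') (fun i => ι (t i))
      {j | j < i} (A i l) := by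
    intro i l hl
    have hl0 : l ≠ 0 := by
      have := (Finset.mem_Icc.1 hl).1
      omega
    refine (hJ _ i (hP i l hl0)).div (hJ _ i (hQ i l hl0)) ?_
    rw [aeval_map]
    exact IsoE.ne_zero (hQ0 i l hl0)
  have hAt : ∀ i l, l ≠ 0 → A i l (fun i => ι (t i)) = ι ((H i).coeff l) := by
    intro i l hl
    show MvPolynomial.aeval (fun i => ι (t i)) (P i l) /
      MvPolynomial.aeval (fun i => ι (t i)) (Q i l) = _
    rw [aeval_map, aeval_map, ← map_div₀, ← hPQ i l hl]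
  obtain ⟨Λ, hΛ⟩ := hen_eq_of_moved' h0' hcw hK' hBD' hcl htr hA B₀
  refine ⟨Λ, fun d d' E hdB hdd hd'E hHE hE hle => ?_⟩
  have h1 := hΛ (ι d) (ι d') (fun i => ι ((H i).eval d)) (E.map ι) (hd.ge_iff.2 hdB)
    (by rw [← map_sub]; exact hd.ge_iff.2 hdd) (fun i => ?_) (Dense.fg_map hE)
    (by rw [hd.hen_map]; exact Dense.map_le_map_iff.2 hle) bot_le
    (Dense.apply_mem_map.2 hd'E) (fun i => Dense.apply_mem_map.2 (hHE i))
  · rw [hd.hen_map, hd.hen_map] at h1
    exact Dense.map_inj h1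
  · have h2 : (H i).eval d = t i + ∑ l ∈ Finset.Icc 1 D, (H i).coeff l * d ^ l := by
      rw [eval_eq_sum_range' (Nat.lt_succ_of_le (hD i)), Finset.range_eq_Ico,
        Finset.sum_eq_sum_Ico_succ_bot (Nat.succ_pos _), hc0, pow_zero, mul_one]
      congr 1
    rw [h2, map_add, map_sum]
    congr 1
    refine Finset.sum_congr rfl fun l hl => ?_
    have hl0 : l ≠ 0 := by
      have := (Finset.mem_Icc.1 hl).1
      omega
    rw [hAt i l hl0, map_mul, map_pow]

end Bd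

end Pool.Agent.TWEX
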