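import Pool.Agent.Lib.TWEX.Near0
import Pool.Agent.Lib.TWEX.KArc0
import Pool.Agent.Lib.TWMF.X1

/-!
# TANK W, exit of the strict case, 8: the exit data of a tower

* `exists_clear`: polynomials over `k(x)`, a common denominator;
* `amt_of_karc`, `cross_of_karc`: amounts and crossing;
* `exists_xd`: the exit data `XD` of a tower of two floors over a strict first floor over the closure of
  `k(x)`.
-/

set_option autoImplicit false

open Polynomial Finset

namespace Pool.Agent.TWEX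

open Pool.Agent.H15JM (RVal)
open Pool.Agent.LU1 (VPos adj)
open Pool.Agent.D2 (Ctx0)
open Pool.Agent.D2P (clI mem_clI mem_adj_iff mem_adj_self)
open Pool.Agent.TWM
open Pool.Agent.TWLM (HSd Oi Arc)
open Pool.Agent.TWN1 (Set0)
open Pool.Agent.TWMF (XD Tri mv)
open Pool.Agent.TW (kr)

universe u'

variable {k Ω : Type u'} [Field k] [Field Ω] [Algebra k Ω] {v : RVal Ω}
  {N₀ N L : IntermediateField k Ω} {D Ψ : ℕ → Ω → Ω} {x y u w : Ω} {σ ρ s : ℝ}

/-- A common denominator. -/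
theorem exists_clear {m : ℕ} (hN₀ : N₀ = IntermediateField.adjoin k {x})
    (F : MvPolynomial (Fin m) N₀) (i₀ : Fin m) :
    ∃ (P : MvPolynomial (Fin m) k) (q : Polynomial k), aeval x q ≠ 0 ∧
      ∀ T' : Fin m → Ω, T' i₀ = x →
        MvPolynomial.aeval T' F * aeval x q = MvPolynomial.aeval T' P := by
  subst hN₀
  have hX : ∀ (q : Polynomial k) (T' : Fin m → Ω), T' i₀ = x →
      MvPolynomial.aeval T' (aeval (MvPolynomial.X i₀ : MvPolynomial (Fin m) k) q) = aeval x q := by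
    intro q T' hT'
    rw [← Polynomial.aeval_algHom_apply, MvPolynomial.aeval_X, hT']
  induction F using MvPolynomial.induction_on with
  | C c =>
    obtain ⟨c, hc⟩ := c
    obtain ⟨a, b, rfl⟩ := IntermediateField.mem_adjoin_simple_iff k c |>.1 hc
    by_cases hb : aeval x b = 0
    · refine ⟨0, 1, by rw [map_one]; exact one_ne_zero, fun T' _ => ?_⟩
      rw [MvPolynomial.aeval_C, map_zero]
      change (aeval x a / aeval x b) * _ = 0
      rw [hb, div_zero, zero_mul]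
    · refine ⟨aeval (MvPolynomial.X i₀) a, b, hb, fun T' hT' => ?_⟩
      rw [MvPolynomial.aeval_C, hX a T' hT']
      change (aeval x a / aeval x b) * _ = _
      exact div_mul_cancel₀ _ hb
  | add F G hF hG =>
    obtain ⟨P, q, hq, h1⟩ := hF
    obtain ⟨P', q', hq', h2⟩ := hG
    refine ⟨P * aeval (MvPolynomial.X i₀) q' + P' * aeval (MvPolynomial.X i₀) q, q * q', by
      rw [map_mul]; exact mul_ne_zero hq hq', fun T' hT' => ?_⟩
    rw [map_add, map_add, map_mul, map_mul, map_mul, hX q T' hT', hX q' T' hT', ← h1 T' hT',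
      ← h2 T' hT']
    ring
  | mul_X F i hF =>
    obtain ⟨P, q, hq, h1⟩ := hF
    refine ⟨P * MvPolynomial.X i, q, hq, fun T' hT' => ?_⟩
    rw [map_mul, map_mul, MvPolynomial.aeval_X, MvPolynomial.aeval_X, ← h1 T' hT']
    ring

/-- Polynomials over `N₀` as polynomials with coefficients of type `N₀`. -/
theorem exists_lift {f : Polynomial Ω} (hf : f ∈ PI N₀) :
    ∃ f₀ : Polynomial N₀, f₀.map (algebraMap N₀ Ω) = f := by
  refine ⟨∑ i ∈ range (f.natDegree + 1), C ⟨f.coeff i, hf i⟩ * X ^ i, ?_⟩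
  rw [Polynomial.map_sum]
  conv_rhs => rw [f.as_sum_range_C_mul_X_pow]
  refine sum_congr rfl fun i _ => ?_
  rw [Polynomial.map_mul, Polynomial.map_pow, map_X, map_C]
  rfl

/-- Evaluation of lifted polynomials. -/
theorem aeval_lift {m : ℕ} {f : Polynomial Ω} {f₀ : Polynomial N₀}
    (h : f₀.map (algebraMap N₀ Ω) = f) (T' : Fin m → Ω) (F : MvPolynomial (Fin m) N₀) :
    MvPolynomial.aeval T' (aeval F f₀) = f.eval (MvPolynomial.aeval T' F) := by
  rw [← Polynomial.aeval_algHom_apply, ← h, eval_map_algebraMap]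

/-- The straightened coordinate as a polynomial. -/
theorem exists_pu {p : ℕ} {hh : ℕ → Polynomial Ω} (hhm : ∀ l, hh l ∈ PI N₀) (l₀ j : ℕ) {n : Ω}
    (hn : n ∈ N₀) {m : ℕ} (i₁ i₂ : Fin m) : ∃ F : MvPolynomial (Fin m) N₀,
      ∀ T' : Fin m → Ω, MvPolynomial.aeval T' F = Upt p hh l₀ j n (T' i₁) (T' i₂) := by
  choose h₀ hh₀ using fun l => exists_lift (hhm l)
  refine ⟨MvPolynomial.X i₂ ^ p ^ j + ∑ l ∈ Icc 1 l₀,
    (aeval (MvPolynomial.X i₁ : MvPolynomial (Fin m) N₀) (h₀ l)) ^ p ^ j *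
      (MvPolynomial.C ⟨n, hn⟩ - MvPolynomial.X i₁ ^ p ^ j) ^ l, fun T' => ?_⟩
  rw [map_add, map_pow, MvPolynomial.aeval_X, map_sum, Upt]
  congr 1
  refine sum_congr rfl fun l _ => ?_
  rw [map_mul, map_pow, map_pow, map_sub, map_pow, MvPolynomial.aeval_X, MvPolynomial.aeval_C,
    aeval_lift (hh₀ l), MvPolynomial.aeval_X]
  rfl

section karc

variable {p : ℕ} {K : IntermediateField k Ω} {z : Ω} {r : ℝ}
  (h : KArc0 p v N₀ N y σ D K u z r s Ψ)
include h

theorem KArc0.cle : cadj v N y ≤ K := by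
  rw [h.eq]
  exact (le_cadj v _ u).trans (le_cadj v _ z)

theorem KArc0.nle : N ≤ K := (le_cadj v N y).trans h.cle

theorem KArc0.ymem : y ∈ K := h.cle (self_mem_cadj v N y)

theorem KArc0.umem : u ∈ K := by
  rw [h.eq]
  exact le_cadj v _ z (self_mem_cadj v _ u)

theorem KArc0.zmem : z ∈ K := by
  rw [h.eq]
  exact self_mem_cadj v _ z

theorem KArc0.cld : Cld v K := by
  rw [h.eq]
  exact cld_cadj v _ z

theorem KArc0.const {x : Ω} (hx : x ∈ N) {l : ℕ} (hl : l ≠ 0) : Ψ l x = 0 := by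
  rw [h.ext l x (le_cadj v N y hx)]
  exact h.fl.const hx hl

theorem KArc0.norm (l : ℕ) {x : Ω} (hx : x ∈ K) {b : ℝ} (hb : v.Ge b x) :
    v.Ge (b - l * σ) (Ψ l x) := by
  by_cases hl : l = 0
  · rw [hl, h.arc.c0 x hx]
    exact hb.mono (by simp)
  · obtain ⟨n, hn, h1⟩ := h.arc.str l hl
    exact (h1 x hx b hb).mono (by linarith)

/-- Elements of `N₀` near `y ^ (p ^ j)`. -/
theorem KArc0.lim (δ : ℝ) (hδ : 0 < δ) :
    ∃ j : ℕ, ∃ n ∈ N₀, v.Ge (p ^ j * (σ - δ)) (y ^ p ^ j - n) := by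
  obtain ⟨j, n, hn, h1⟩ := h.fl.lim δ hδ
  obtain ⟨n', hn', h2⟩ := h.den0 n hn (p ^ j * (σ - δ))
  refine ⟨j, n', hn', ?_⟩
  have e : y ^ p ^ j - n' = (y ^ p ^ j - n) + (n - n') := by ring
  rw [e]
  exact h1.add h2

/-- The jets of `u`. -/
theorem KArc0.set0 : ∃ κ : ℕ → ℝ, Set0 v (cadj v N y) D u
    (PowerSeries.mk fun n => if n = 0 then 0 else Ψ n u) κ r σ := by
  have h1 : ∀ n : ℕ, ∃ κ : ℝ, 0 < κ ∧ (n ≠ 0 → ∀ x ∈ K, ∀ b : ℝ, v.Ge b x →
      v.Ge (b - n * σ + κ) (Ψ n x)) := by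
    intro n
    by_cases hn : n = 0
    · exact ⟨1, one_pos, fun h => absurd hn h⟩
    · obtain ⟨m, hm, h2⟩ := h.arc.str n hn
      exact ⟨n * σ - m, by linarith, fun _ x hx b hb => (h2 x hx b hb).mono (by linarith)⟩
  choose κ hκ hstr using h1
  refine ⟨κ,
    { hsd := h.fl.hsd
      oi := h.fl.oi
      tl := h.tu
      z0 := by rw [PowerSeries.coeff_mk, if_pos rfl]
      zmem := fun n => ?_
      kpos := hκ
      str := fun n hn x hx b hb => ?_
      near := fun n hn d hd b hb => ?_ }⟩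
  · rw [PowerSeries.coeff_mk]
    split_ifs with hn
    · exact zero_mem _
    · obtain ⟨f, hf, h2⟩ := h.jet_u n hn
      rw [h2]
      exact TWLM.eval_mem_cadj hf
  · rw [← h.ext n x hx]
    exact hstr n hn x (h.cle hx) b hb
  · rw [PowerSeries.coeff_mk, if_neg hn, ← h.ext n d hd, ← h.arc.sub n h.umem (h.cle hd)]
    refine (hstr n hn _ (sub_mem h.umem (h.cle hd)) b hb).mono ?_
    linarith [min_le_left (b + κ n) (r + κ n / 2)]

/-- **Amounts.** -/
theorem amt_of_karc [IsAlgClosed Ω] [hp : Fact p.Prime] [CharP Ω p] (h0 : Ctx0 k v)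
    (hcv : CompleteV v) (hcN : Cld v N) (hN₀ : N₀ = IntermediateField.adjoin k {x}) (hx0 : x ≠ 0)
    (hxv : v x ≠ 0) {H : Fin 4 → Polynomial Ω}
    (hH : ∀ i l, (H i).coeff l = Ψ l ((![x, y, u, z] : Fin 4 → Ω) i)) (e : ℕ) (Λ : ℝ) :
    ∃ σ₀ : ℝ, σ₀ < σ ∧ ∀ a b : ℝ, σ₀ ≤ a → a < b → b ≤ σ →
      ∃ P Q : MvPolynomial (Fin 4) k, ∃ d : Ω,
        MvPolynomial.aeval (![x, y, u, z] : Fin 4 → Ω) P ≠ 0 ∧
        MvPolynomial.aeval (![x, y, u, z] : Fin 4 → Ω) Q ≠ 0 ∧
        d = (MvPolynomial.aeval (![x, y, u, z] : Fin 4 → Ω) P /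
          MvPolynomial.aeval (![x, y, u, z] : Fin 4 → Ω) Q) ^ p ^ e ∧ a < v d ∧ v d < b ∧
        v.Ge Λ (d - (MvPolynomial.aeval (mv H d) P / MvPolynomial.aeval (mv H d) Q) ^ p ^ e) := by
  classical
  obtain ⟨T, hT⟩ : ∃ T : Fin 4 → Ω, T = ![x, y, u, z] := ⟨_, rfl⟩
  rw [← hT] at hH ⊢
  have hT0 : T 0 = x := by rw [hT]; rfl
  have hT1 : T 1 = y := by rw [hT]; rfl
  have hT2 : T 2 = u := by rw [hT]; rfl
  have hT3 : T 3 = z := by rw [hT]; rfl
  have hp0 : (0 : ℝ) < (p : ℝ) ^ e := pow_pos (by exact_mod_cast hp.out.pos) e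
  have hxN₀ : x ∈ N₀ := by
    rw [hN₀]
    exact IntermediateField.mem_adjoin_simple_self k x
  have hxN : x ∈ N := h.le0 hxN₀
  have hTK : ∀ i, T i ∈ K := by
    intro i
    fin_cases i
    · exact hT0 ▸ h.nle hxN
    · exact hT1 ▸ h.ymem
    · exact hT2 ▸ h.umem
    · exact hT3 ▸ h.zmem
  -- the visible jets
  obtain ⟨l₀, hl₀⟩ := h.fin_u
  obtain ⟨κ, hZ⟩ := h.set0
  obtain ⟨Z, hZd⟩ : ∃ Z : PowerSeries Ω, Z = PowerSeries.mk fun n => if n = 0 then 0 else Ψ n u :=
    ⟨_, rfl⟩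
  rw [← hZd] at hZ
  have hZc : ∀ n, n ≠ 0 → PowerSeries.coeff n Z = Ψ n u := fun n hn => by
    rw [hZd, PowerSeries.coeff_mk, if_neg hn]
  have hZ0 : PowerSeries.coeff 0 Z = 0 := hZ.z0
  have hvis : ∀ l, l ≠ 0 → Ψ l u = vis Z l₀ l := by
    intro l hl
    unfold vis
    split_ifs with h1
    · exact hl₀ l (by omega)
    · exact (hZc l hl).symm
  have hex : ∀ l, ∃ f ∈ PI N₀, f.eval y = vis Z l₀ l := by
    intro l
    by_cases hl : l = 0
    · refine ⟨0, zero_mem _, ?_⟩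
      unfold vis
      rw [if_pos (Or.inl hl), eval_zero]
    · obtain ⟨f, hf, h1⟩ := h.ju0 l hl
      exact ⟨f, hf, by rw [← h1, hvis l hl]⟩
  choose hh hhm hhe using hex
  have hZp : ∀ n, ∃ f ∈ PI N, PowerSeries.coeff n Z = f.eval y := by
    intro n
    by_cases hn : n = 0
    · exact ⟨0, zero_mem _, by rw [hn, hZ0, eval_zero]⟩
    · obtain ⟨f, hf, h1⟩ := h.jet_u n hn
      exact ⟨f, hf, by rw [hZc n hn, h1]⟩
  obtain ⟨j, n, lam, hn, hlam, hfar, hjets⟩ := exists_near₀ h.fl h.le0 h.lim hZ hZp (l₀ := l₀)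
    (fun n hn => by
      rw [hZc n (by omega), hl₀ n hn]
      exact Gt.zero)
  obtain ⟨hUΨ, -⟩ := hjets K Ψ h.cle h.umem h.cld h.arc.toHSd (fun l x hx b hb => h.norm l hx hb)
    h.ext hvis
  have hUU : Ust p Z l₀ j n y u = Upt p hh l₀ j n y u := by
    unfold Ust Upt
    congr 1
    exact sum_congr rfl fun l _ => by rw [hhe]
  obtain ⟨F, hF⟩ := exists_pu (p := p) hhm l₀ j hn (1 : Fin 4) 2
  have hFT : MvPolynomial.aeval T F = Ust p Z l₀ j n y u := by
    rw [hF, hT1, hT2, hUU]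
  set U := Ust p Z l₀ j n y u with hU
  have hUC : U ∈ cadj v N U := self_mem_cadj v N U
  -- the values
  have hdense : ∀ a b : ℝ, a < b → ∃ c ∈ adj N₀ U, c ≠ 0 ∧ a < v c ∧ v c < b := by
    intro a b hab
    obtain ⟨c, hc, hc0, h1, h2⟩ := dense_values h0 hcv hcN (le_cadj v N U) hxN hx0 hxv hUC
      (fun h3 => (hfar U h3).1 rfl) hab
    have hle : cadj v N U ≤ clI v (adj N₀ U) := by
      refine cadj_le (cld_clI v _) (fun a ha => ?_) (le_clI _ (mem_adj_self N₀ U).1)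
      exact clI_mono (mem_adj_self N₀ U).2 (mem_clI.2 fun b => h.den0 a ha b)
    obtain ⟨c', hc', h3⟩ := mem_clI.1 (hle hc) (v c + 1)
    obtain ⟨h4, h5⟩ := Gt.val_eq hc0 (Gt.of_ge h3 (by linarith))
    exact ⟨c', hc', h4, by rw [h5]; exact h1, by rw [h5]; exact h2⟩
  set β := lam / 2 with hβ
  have hβ0 : 0 < β := by positivity
  obtain ⟨s', hs'⟩ := exists_amt (p := p) (N := N₀) (U := U) (R := p ^ j * r) (g := lam - β)
    (by rw [hβ]; linarith) (fun θ hθ => ⟨(hfar θ (D2P.isAlgebraic_mono h.le0 hθ)).1,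
      (hfar θ (D2P.isAlgebraic_mono h.le0 hθ)).2.le⟩) hdense ((σ - β) / p ^ e) (Λ / p ^ e)
  refine ⟨σ - β, by linarith, fun a b ha hab hb => ?_⟩
  obtain ⟨f, hf, q, hq, hf0, hq0, h1, h2, h3⟩ := hs' (a / p ^ e) (b / p ^ e)
    (div_le_div_of_nonneg_right ha hp0.le) (div_lt_div_of_pos_right hab hp0)
  obtain ⟨f₀, hf₀⟩ := exists_lift hf
  obtain ⟨q₀, hq₀⟩ := exists_lift hq
  obtain ⟨Pf, qf, hqf, hPf⟩ := exists_clear hN₀ (aeval F f₀) 0
  obtain ⟨Pq, qq, hqq, hPq⟩ := exists_clear hN₀ (aeval F q₀) 0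
  have hX : ∀ (q : Polynomial k) (T' : Fin 4 → Ω), T' 0 = x →
      MvPolynomial.aeval T' (aeval (MvPolynomial.X 0 : MvPolynomial (Fin 4) k) q) = aeval x q := by
    intro q T' hT'
    rw [← Polynomial.aeval_algHom_apply, MvPolynomial.aeval_X, hT']
  have key : ∀ T' : Fin 4 → Ω, T' 0 = x →
      MvPolynomial.aeval T' ((Pf * aeval (MvPolynomial.X 0 : MvPolynomial (Fin 4) k) qq) ^ p ^ s') /
        MvPolynomial.aeval T' ((Pq * aeval (MvPolynomial.X 0 : MvPolynomial (Fin 4) k) qf) ^ p ^ s') =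
      (f.eval (MvPolynomial.aeval T' F) / q.eval (MvPolynomial.aeval T' F)) ^ p ^ s' := by
    intro T' hT'
    rw [map_pow, map_pow, map_mul, map_mul, hX qq T' hT', hX qf T' hT', ← hPf T' hT', ← hPq T' hT',
      aeval_lift hf₀, aeval_lift hq₀, ← div_pow]
    congr 1
    by_cases hq1 : q.eval (MvPolynomial.aeval T' F) = 0
    · rw [hq1, zero_mul, zero_mul, div_zero, div_zero]
    · field_simp
  have hkT := key T hT0
  rw [hFT] at hkT
  set c := (f.eval U / q.eval U) ^ p ^ s' with hc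
  have hc0 : c ≠ 0 := pow_ne_zero _ (div_ne_zero hf0 hq0)
  have hvc : v (c ^ p ^ e) = p ^ e * v c := by
    rw [v.map_pow hc0]
    push_cast
    ring
  have hne : MvPolynomial.aeval T ((Pf * aeval (MvPolynomial.X 0 : MvPolynomial (Fin 4) k) qq) ^
      p ^ s') ≠ 0 ∧ MvPolynomial.aeval T ((Pq * aeval (MvPolynomial.X 0 :
        MvPolynomial (Fin 4) k) qf) ^ p ^ s') ≠ 0 := by
    constructor
    · intro h5
      rw [h5, zero_div] at hkT
      exact hc0 hkT.symm
    · intro h5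
      rw [h5, div_zero] at hkT
      exact hc0 hkT.symm
  refine ⟨_, _, c ^ p ^ e, hne.1, hne.2, by rw [hkT], ?_, ?_, ?_⟩
  · rw [hvc]
    rw [div_lt_iff₀ hp0] at h1
    linarith
  · rw [hvc]
    rw [lt_div_iff₀ hp0] at h2
    linarith
  · have hd : v.Ge (σ - β) (c ^ p ^ e) := fun _ => by
      rw [hvc]
      rw [div_lt_iff₀ hp0] at h1
      linarith
    have hm0 : mv H (c ^ p ^ e) 0 = x := by
      unfold mv
      have h5 : H 0 = C x := by
        ext l
        rw [hH, hT0, coeff_C]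
        split_ifs with hl
        · rw [hl, h.arc.c0 x (h.nle hxN)]
        · exact h.const hxN hl
      rw [h5, eval_C]
    rw [key (mv H (c ^ p ^ e)) hm0]
    have h5 := near_of_jets (N := N₀) (L := K) (Φ := Ψ) (t := T) (H := H) h.arc.toHSd
      (h.le0.trans h.nle) (fun x hx l hl => h.const (h.le0 hx) hl) hTK hH (P := F)
      (R := p ^ j * r) (lam := lam) (β := β) (by rw [hβ]; linarith) (by rw [hFT]; exact hUΨ) hd
    rw [hFT] at h5
    have h6 := h3 _ h5
    have e1 : c ^ p ^ e - ((f.eval (MvPolynomial.aeval (mv H (c ^ p ^ e)) F) /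
        q.eval (MvPolynomial.aeval (mv H (c ^ p ^ e)) F)) ^ p ^ s') ^ p ^ e =
        (c - (f.eval (MvPolynomial.aeval (mv H (c ^ p ^ e)) F) /
        q.eval (MvPolynomial.aeval (mv H (c ^ p ^ e)) F)) ^ p ^ s') ^ p ^ e := by
      rw [sub_pow_char_pow]
    rw [e1]
    refine (ge_pow (ge_sub_comm h6) (p ^ e)).mono ?_
    push_cast
    rw [mul_div_cancel₀ _ hp0.ne']

/-- **Crossing.** -/
theorem cross_of_karc [hp : Fact p.Prime] [CharP Ω p] (hN₀ : N₀ = IntermediateField.adjoin k {x})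
    {H : Fin 4 → Polynomial Ω} (hH : ∀ i l, (H i).coeff l = Ψ l ((![x, y, u, z] : Fin 4 → Ω) i))
    {ρ : ℝ} (hρ : ρ < σ) : ∃ (P : MvPolynomial (Fin 4) k) (l : ℕ),
      l ≠ 0 ∧ (MvPolynomial.aeval H P).coeff l ≠ 0 ∧ ∀ i : ℕ, i ≠ l →
        Gt v (v ((MvPolynomial.aeval H P).coeff l) + l * ρ - i * ρ)
          ((MvPolynomial.aeval H P).coeff i) := by
  classical
  obtain ⟨T, hT⟩ : ∃ T : Fin 4 → Ω, T = ![x, y, u, z] := ⟨_, rfl⟩
  rw [← hT] at hH
  have hT0 : T 0 = x := by rw [hT]; rfl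
  have hT1 : T 1 = y := by rw [hT]; rfl
  have hxN₀ : x ∈ N₀ := by
    rw [hN₀]
    exact IntermediateField.mem_adjoin_simple_self k x
  have hxN : x ∈ N := h.le0 hxN₀
  have hH0 : H 0 = C x := by
    ext l
    rw [hH, hT0, coeff_C]
    split_ifs with hl
    · rw [hl, h.arc.c0 x (h.nle hxN)]
    · exact h.const hxN hl
  have hH1 : H 1 = C y + X := by
    ext l
    have hyC := self_mem_cadj v N y
    rw [hH, hT1, coeff_add, coeff_C, coeff_X, h.ext l y hyC]
    rcases Nat.lt_trichotomy l 1 with hl | hl | hl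
    · obtain rfl : l = 0 := by omega
      rw [if_pos rfl, if_neg (by omega), add_zero, h.fl.hsd.c0 y hyC]
    · subst hl
      rw [if_neg one_ne_zero, if_pos rfl, zero_add, h.fl.coord_one]
    · rw [if_neg (by omega), if_neg (by omega), add_zero, h.fl.coord_two (by omega)]
  obtain ⟨j, n, hn, h1⟩ := h.lim ((σ - ρ) / 2) (by linarith)
  rw [hN₀] at hn
  obtain ⟨a, b, hab⟩ := IntermediateField.mem_adjoin_simple_iff k n |>.1 hn
  -- the denominator
  obtain ⟨a, b, hb, hab⟩ : ∃ a b : Polynomial k, aeval x b ≠ 0 ∧ n * aeval x b = aeval x a := by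
    by_cases hb : aeval x b = 0
    · refine ⟨0, 1, by rw [map_one]; exact one_ne_zero, ?_⟩
      rw [hab, hb, div_zero, zero_mul, map_zero]
    · exact ⟨a, b, hb, by rw [hab]; exact div_mul_cancel₀ _ hb⟩
  have hpj : p ^ j ≠ 0 := (pow_pos hp.out.pos j).ne'
  have hXT : ∀ q : Polynomial k, MvPolynomial.aeval T
      (aeval (MvPolynomial.X 0 : MvPolynomial (Fin 4) k) q) = aeval x q := by
    intro q
    rw [← Polynomial.aeval_algHom_apply, MvPolynomial.aeval_X, hT0]
  have hXH : ∀ q : Polynomial k, MvPolynomial.aeval H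
      (aeval (MvPolynomial.X 0 : MvPolynomial (Fin 4) k) q) = C (aeval x q) := by
    intro q
    rw [← Polynomial.aeval_algHom_apply, MvPolynomial.aeval_X, hH0]
    have h2 := Polynomial.aeval_algHom_apply (CAlgHom (R := k) (A := Ω)) x q
    exact h2
  refine ⟨aeval (MvPolynomial.X 0 : MvPolynomial (Fin 4) k) b * MvPolynomial.X 1 ^ p ^ j -
    aeval (MvPolynomial.X 0 : MvPolynomial (Fin 4) k) a, p ^ j, hpj,
    TWMF.cross_of_two (T := T) hpj hb ?_ ?_⟩
  · have hchar : CharP (Polynomial Ω) p := inferInstance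
    rw [map_sub, map_mul, map_pow, MvPolynomial.aeval_X, hXH, hXH, hH1, map_sub, map_mul, map_pow,
      MvPolynomial.aeval_X, hXT, hXT, hT1, add_pow_char_pow, ← hab]
    simp only [map_sub, map_mul, map_pow]
    ring
  · rw [map_sub, map_mul, map_pow, MvPolynomial.aeval_X, hXT, hXT, hT1, ← hab]
    have e : aeval x b * y ^ p ^ j - n * aeval x b = aeval x b * (y ^ p ^ j - n) := by ring
    rw [e]
    have hpj0 : (0 : ℝ) < (p : ℝ) ^ j := pow_pos (by exact_mod_cast hp.out.pos) j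
    refine Gt.of_ge ((RVal.ge_self (v := v) (aeval x b)).mul h1) ?_
    push_cast
    nlinarith

omit h in
/-- Elements of `k(T_j : j ∈ J)`. -/
theorem tri_of_mem {m : ℕ} {T : Fin m → Ω} {i : Fin m} {c : Ω}
    (hc : c ∈ IntermediateField.adjoin k (T '' {j | j < i})) : Tri k T i c := by
  have h1 : T '' {j | j < i} = Set.range fun j : {j : Fin m // j < i} => T j := by
    ext a
    constructor
    · rintro ⟨j, hj, rfl⟩
      exact ⟨⟨j, hj⟩, rfl⟩
    · rintro ⟨⟨j, hj⟩, rfl⟩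
      exact ⟨j, hj, rfl⟩
  rw [h1, IntermediateField.mem_adjoin_range_iff] at hc
  obtain ⟨P, Q, hPQ⟩ := hc
  by_cases hQ : MvPolynomial.aeval (fun j : {j : Fin m // j < i} => T j) Q = 0
  · refine ⟨0, 1, fun j hj => ?_, fun j hj => ?_, ?_, ?_⟩
    · simp at hj
    · simp [MvPolynomial.vars_one] at hj
    · rw [map_one]
      exact one_ne_zero
    · rw [hPQ, hQ, div_zero, map_zero, zero_div]
  · have hr : ∀ R : MvPolynomial {j : Fin m // j < i} k,
        (∀ j ∈ (MvPolynomial.rename (fun j : {j : Fin m // j < i} => (j : Fin m)) R).vars, j < i) ∧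
        MvPolynomial.aeval T (MvPolynomial.rename (fun j : {j : Fin m // j < i} => (j : Fin m)) R) =
          MvPolynomial.aeval (fun j : {j : Fin m // j < i} => T j) R := by
      intro R
      refine ⟨fun j hj => ?_, ?_⟩
      · classical
        obtain ⟨j', -, rfl⟩ := Finset.mem_image.1 (MvPolynomial.vars_rename _ _ hj)
        exact j'.2
      · rw [MvPolynomial.aeval_rename]
        rfl
    refine ⟨MvPolynomial.rename (fun j : {j : Fin m // j < i} => (j : Fin m)) P,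
      MvPolynomial.rename (fun j : {j : Fin m // j < i} => (j : Fin m)) Q, (hr P).1, (hr Q).1, ?_, ?_⟩
    · rw [(hr Q).2]
      exact hQ
    · rw [(hr P).2, (hr Q).2, hPQ]

/-- **The exit data**, amounts `p ^ e`-th powers. -/
theorem exists_xd_pow [IsAlgClosed Ω] [hp : Fact p.Prime] [CharP Ω p] (h0 : Ctx0 k v)
    (hcv : CompleteV v) (hcN : Cld v N) (hN₀ : N₀ = IntermediateField.adjoin k {x}) (hx0 : x ≠ 0)
    (hxv : v x ≠ 0) (hind : AlgebraicIndependent k (![x, y, u, z] : Fin 4 → Ω)) :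
    ∃ H : Fin 4 → Polynomial Ω, (∀ i l, (H i).coeff l = Ψ l ((![x, y, u, z] : Fin 4 → Ω) i)) ∧
      ∀ e : ℕ, XD k (p ^ e) v (![x, y, u, z] : Fin 4 → Ω) H σ := by
  classical
  obtain ⟨T, hT⟩ : ∃ T : Fin 4 → Ω, T = ![x, y, u, z] := ⟨_, rfl⟩
  have hT0 : T 0 = x := by rw [hT]; rfl
  have hT1 : T 1 = y := by rw [hT]; rfl
  have hT2 : T 2 = u := by rw [hT]; rfl
  have hT3 : T 3 = z := by rw [hT]; rfl
  have hxN₀ : x ∈ N₀ := by
    rw [hN₀]
    exact IntermediateField.mem_adjoin_simple_self k x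
  have hxN : x ∈ N := h.le0 hxN₀
  have hyC := self_mem_cadj v N y
  have hTK : ∀ i, T i ∈ K := by
    intro i
    fin_cases i
    · exact hT0 ▸ h.nle hxN
    · exact hT1 ▸ h.ymem
    · exact hT2 ▸ h.umem
    · exact hT3 ▸ h.zmem
  -- the degree
  obtain ⟨M, hM⟩ : ∃ M : ℕ, ∀ i l, M < l → Ψ l (T i) = 0 := by
    obtain ⟨M₁, h1⟩ := h.fin_u
    obtain ⟨M₂, h2⟩ := h.fin_z
    refine ⟨M₁ + M₂ + 1, fun i l hl => ?_⟩
    fin_cases i
    · change Ψ l (T 0) = 0
      rw [hT0]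
      exact h.const hxN (by omega)
    · change Ψ l (T 1) = 0
      rw [hT1, h.ext l y hyC]
      exact h.fl.coord_two (by omega)
    · change Ψ l (T 2) = 0
      rw [hT2]
      exact h1 l (by omega)
    · change Ψ l (T 3) = 0
      rw [hT3]
      exact h2 l (by omega)
  set H : Fin 4 → Polynomial Ω := fun i => ∑ l ∈ range (M + 1), monomial l (Ψ l (T i)) with hHd
  have hH : ∀ i l, (H i).coeff l = Ψ l (T i) := by
    intro i l
    rw [hHd]
    simp only [finsetSum_coeff, coeff_monomial]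
    rw [sum_ite_eq' (range (M + 1)) l]
    split_ifs with hl
    · rfl
    · exact (hM i l (by simpa using hl)).symm
  rw [hT] at hH
  refine ⟨H, hH, fun e => ?_⟩
  rw [← hT] at hH hind ⊢
  refine
    { ind := hind
      c0 := fun i => by rw [hH, h.arc.c0 _ (hTK i)]
      tri := fun i l hl => tri_of_mem ?_
      str := fun P hP l hl => ?_
      amt := fun Λ => ?_
      cross := ⟨σ - 1, by linarith, fun ρ _ hρ => ?_⟩ }
  · -- triangular
    have hle : ∀ i : Fin 4, 0 < i → N₀ ≤ IntermediateField.adjoin k (T '' {j | j < i}) := by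
      intro i hi
      rw [hN₀, IntermediateField.adjoin_simple_le_iff]
      exact IntermediateField.subset_adjoin k _ ⟨0, hi, hT0⟩
    rw [hH]
    fin_cases i
    · change Ψ l (T 0) ∈ _
      rw [hT0, h.const hxN hl]
      exact zero_mem _
    · change Ψ l (T 1) ∈ _
      rw [hT1, h.ext l y hyC]
      by_cases hl1 : l = 1
      · rw [hl1, h.fl.coord_one]
        exact one_mem _
      · rw [h.fl.coord_two (by omega)]
        exact zero_mem _
    · change Ψ l (T 2) ∈ _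
      rw [hT2]
      obtain ⟨f, hf, h1⟩ := h.ju0 l hl
      rw [h1, eval_eq_sum_range]
      refine sum_mem fun i _ => mul_mem (hle 2 (by decide) (hf i)) (pow_mem ?_ i)
      exact IntermediateField.subset_adjoin k _ ⟨1, by decide, hT1⟩
    · change Ψ l (T 3) ∈ _
      rw [hT3]
      have h1 := h.jz0 l hl
      generalize Ψ l z = a at h1
      induction h1 using Algebra.adjoin_induction with
      | mem a ha =>
        rcases ha with rfl | ha
        · exact IntermediateField.subset_adjoin k _ ⟨1, by decide, hT1⟩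
        · rw [Set.mem_singleton_iff.1 ha]
          exact IntermediateField.subset_adjoin k _ ⟨2, by decide, hT2⟩
      | algebraMap c => exact hle 3 (by decide) c.2
      | add a b _ _ ha hb => exact add_mem ha hb
      | mul a b _ _ ha hb => exact mul_mem ha hb
  · -- strict jets
    have h1 := str_of_arc (N := (⊥ : IntermediateField k Ω)) (L := K) (Φ := Ψ) (t := T) (H := H)
      (σ := σ) h.arc bot_le (fun a ha l hl => by
        obtain ⟨c, rfl⟩ := IntermediateField.mem_bot.1 ha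
        exact h.arc.con l hl c) hTK hH
      (MvPolynomial.map (algebraMap k (⊥ : IntermediateField k Ω)) P) hl
    rwa [MvPolynomial.aeval_map_algebraMap, MvPolynomial.aeval_map_algebraMap] at h1
  · have h1 := amt_of_karc h h0 hcv hcN hN₀ hx0 hxv (H := H) (by rw [← hT]; exact hH) e Λ
    rw [← hT] at h1
    exact h1
  · have h1 := cross_of_karc h hN₀ (H := H) (by rw [← hT]; exact hH) hρ
    exact h1

/-- **The exit data.** -/
theorem exists_xd [IsAlgClosed Ω] [hp : Fact p.Prime] [CharP Ω p] (h0 : Ctx0 k v)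
    (hcv : CompleteV v) (hcN : Cld v N) (hN₀ : N₀ = IntermediateField.adjoin k {x}) (hx0 : x ≠ 0)
    (hxv : v x ≠ 0) (hind : AlgebraicIndependent k (![x, y, u, z] : Fin 4 → Ω)) :
    ∃ H : Fin 4 → Polynomial Ω, (∀ i l, (H i).coeff l = Ψ l ((![x, y, u, z] : Fin 4 → Ω) i)) ∧
      XD k p v (![x, y, u, z] : Fin 4 → Ω) H σ := by
  obtain ⟨H, h1, h2⟩ := exists_xd_pow h h0 hcv hcN hN₀ hx0 hxv hind
  have h3 := h2 1
  rw [pow_one] at h3
  exact ⟨H, h1, h3⟩

end karc

/-- `k(x)`. -/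
theorem adj_bot (x : Ω) : adj (⊥ : IntermediateField k Ω) x = IntermediateField.adjoin k {x} :=
  bot_sup_eq _

/-- The closure of `k(x, y, u, z)`. -/
theorem cl_tower (v : RVal Ω) (x y u z : Ω) :
    cadj v (cadj v (cadj v (cadj v (⊥ : IntermediateField k Ω) x) y) u) z =
      clI v (kr k (![x, y, u, z] : Fin 4 → Ω)) := by
  have hle : kr k (![x, y, u, z] : Fin 4 → Ω) ≤
      cadj v (cadj v (cadj v (cadj v (⊥ : IntermediateField k Ω) x) y) u) z := by
    refine IntermediateField.adjoin_le_iff.2 ?_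
    rintro _ ⟨i, rfl⟩
    have h1 := self_mem_cadj v (⊥ : IntermediateField k Ω) x
    have h2 := self_mem_cadj v (cadj v (⊥ : IntermediateField k Ω) x) y
    have h3 := self_mem_cadj v (cadj v (cadj v (⊥ : IntermediateField k Ω) x) y) u
    have h4 := self_mem_cadj v (cadj v (cadj v (cadj v (⊥ : IntermediateField k Ω) x) y) u) z
    fin_cases i
    · exact le_cadj v _ z (le_cadj v _ u (le_cadj v _ y h1))
    · exact le_cadj v _ z (le_cadj v _ u h2)
    · exact le_cadj v _ z h3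
    · exact h4
  have hm : ∀ i, (![x, y, u, z] : Fin 4 → Ω) i ∈ clI v (kr k (![x, y, u, z] : Fin 4 → Ω)) :=
    fun i => le_clI _ (IntermediateField.subset_adjoin _ _ ⟨i, rfl⟩)
  refine le_antisymm ?_ ?_
  · have hc := cld_clI v (kr k (![x, y, u, z] : Fin 4 → Ω))
    exact cadj_le hc (cadj_le hc (cadj_le hc (cadj_le hc bot_le (hm 0)) (hm 1)) (hm 2)) (hm 3)
  · have hc := cld_cadj v (cadj v (cadj v (cadj v (⊥ : IntermediateField k Ω) x) y) u) z
    exact (clI_mono hle).trans (clI_le hc le_rfl)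

end Pool.Agent.TWEX
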