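import Pool.Agent.Lib.TWEX.BaseS
import Pool.Agent.Lib.TWEX.RadS
import Pool.Agent.Lib.TWEX.EV
import Pool.Agent.Lib.TWEX.PullI
import Pool.Agent.Lib.TWEX.XdA

/-!
# TANK W, leaf (II), the base of the classes: `SC p w (EVe p w)` contains the exact strict fields

* `sx_of_karc0`: `SX0` for the exact tower;
* `ctx_of_iso`: rational rank one goes down along an isometric embedding;
* `evu_of_karc0`: the motions given by the arc of the exact tower;
* `sc_base`: the exact strict field is in `SC p w (EVe p w)`.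
-/

set_option autoImplicit false

open Polynomial Finset

namespace Pool.Agent.TWEX

open Pool.Agent.H15JM (RVal)
open Pool.Agent.LU1 (VPos adj)
open Pool.Agent.D2 (Ctx0)
open Pool.Agent.D2P (hen clI mem_clI mem_adj_self adj_le)
open Pool.Agent.TW (PBasis BD Mot Ctx kr)
open Pool.Agent.TWM
open Pool.Agent.TWLM (HSd Oi Arc)
open Pool.Agent.TWS (IsoE)
open Pool.Agent.TWII
open Pool.Agent.TWS7 (Irr FGc PDiv)
open Iso (KN SX0 OC)

universe u

section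

variable {k Ω : Type u} [Field k] [Field Ω] [Algebra k Ω] {v : RVal Ω}
  {N₀ N K : IntermediateField k Ω} {y u z : Ω} {σ r s : ℝ} {D Ψ : ℕ → Ω → Ω} {p : ℕ}

/-- Elements with finitely many jets. -/
theorem oc_of_fin {x : Ω} (h : ∃ L : ℕ, ∀ l : ℕ, L < l → Ψ l x = 0) : OC v σ Ψ x := by
  obtain ⟨L, hL⟩ := h
  obtain ⟨B, hB⟩ : ∃ B : ℝ, ∀ l ∈ range (L + 1), B ≤ v (Ψ l x) + l * (σ - 1) := by
    obtain ⟨l₀, -, h1⟩ := (range (L + 1)).exists_min_image
      (fun l : ℕ => v (Ψ l x) + l * (σ - 1)) ⟨0, mem_range.2 (Nat.succ_pos L)⟩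
    exact ⟨_, h1⟩
  refine ⟨σ - 1, by linarith, B, fun l h0 => ?_⟩
  have hl : l ∈ range (L + 1) := by
    by_contra h1
    exact h0 (hL l (by simpa using h1))
  linarith [hB l hl]

/-- The elements of the ring `N₀[y, u, z]`. -/
theorem oc_of_adn (h : KArc0 p v N₀ N y σ D K u z r s Ψ) {x : Ω}
    (hx : x ∈ Adn N₀ ({y, u, z} : Set Ω)) : x ∈ K ∧ OC v σ Ψ x := by
  have hy0 : ∀ l : ℕ, 1 < l → Ψ l y = 0 := fun l hl => by
    rw [h.ext l y (self_mem_cadj v N y)]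
    exact h.fl.coord_two hl
  induction hx using Algebra.adjoin_induction with
  | mem x hx =>
    rcases hx with rfl | hx
    · exact ⟨h.ymem, oc_of_fin ⟨1, hy0⟩⟩
    · rcases hx with rfl | hx
      · exact ⟨h.umem, oc_of_fin h.fin_u⟩
      · rw [Set.mem_singleton_iff.1 hx]
        exact ⟨h.zmem, oc_of_fin h.fin_z⟩
  | algebraMap c =>
    exact ⟨h.nle (h.le0 c.2), oc_of_fin ⟨0, fun l hl => h.const (h.le0 c.2) (by omega)⟩⟩
  | add x y _ _ hx hy =>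
    exact ⟨add_mem hx.1 hy.1, OC.add h.arc.toHSd hx.1 hy.1 hx.2 hy.2⟩
  | mul x y _ _ hx hy =>
    exact ⟨mul_mem hx.1 hy.1, OC.mul h.arc.toHSd hx.1 hy.1 hx.2 hy.2⟩

/-- The ring `N₀[y, u, z]` is dense. -/
theorem dense_adn [IsAlgClosed Ω] (h : KArc0 p v N₀ N y σ D K u z r s Ψ) {x : Ω} (hx : x ∈ K)
    (b : ℝ) : ∃ g ∈ Adn N₀ ({y, u, z} : Set Ω), v.Ge b (x - g) := by
  obtain ⟨-, hd1⟩ := ring₁ h.le0 h.den0 h.fl
  have hd2 : ∀ x ∈ cadj v (cadj v N y) u, ∀ b : ℝ, ∃ c ∈ Adn N₀ ({y, u} : Set Ω),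
      v.Ge b (x - c) := by
    intro x hx b
    obtain ⟨f, hf, h1⟩ := h.tu.dense hx b
    obtain ⟨g, hg, h2⟩ := approx_poly hd1 u hf b
    refine ⟨g.eval u, eval_mem_adn (Set.mem_insert_of_mem _ (Set.mem_singleton u)) fun i =>
      Algebra.adjoin_mono (Set.singleton_subset_iff.2 (Set.mem_insert _ _)) (hg i), ?_⟩
    have e : x - g.eval u = (x - f.eval u) + (f.eval u - g.eval u) := by ring
    rw [e]
    exact h1.add h2
  rw [h.eq] at hx
  obtain ⟨f, hf, h1⟩ := h.tz.dense hx b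
  obtain ⟨g, hg, h2⟩ := approx_poly hd2 z hf b
  have hsub : ({y, u} : Set Ω) ⊆ {y, u, z} := by
    intro a ha
    rcases ha with rfl | ha
    · exact Set.mem_insert _ _
    · rw [Set.mem_singleton_iff.1 ha]
      exact Set.mem_insert_of_mem _ (Set.mem_insert _ _)
  refine ⟨g.eval z, eval_mem_adn (Set.mem_insert_of_mem _ (Set.mem_insert_of_mem _
    (Set.mem_singleton z))) fun i => Algebra.adjoin_mono hsub (hg i), ?_⟩
  have e : x - g.eval z = (x - f.eval z) + (f.eval z - g.eval z) := by ring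
  rw [e]
  exact h1.add h2

/-- **`SX0` for the exact tower.** -/
theorem sx_of_karc0 [IsAlgClosed Ω] (h : KArc0 p v N₀ N y σ D K u z r s Ψ) (hK : KN p v K) :
    SX0 p v K σ Ψ := by
  refine ⟨hK, h.arc, h.oi, fun x hx b => ?_⟩
  obtain ⟨g, hg, h1⟩ := dense_adn h hx b
  exact ⟨g, (oc_of_adn h hg).1, (oc_of_adn h hg).2, h1⟩

end

section

variable {k Ω Ω' : Type u} [Field k] [Field Ω] [Algebra k Ω] [Field Ω'] [Algebra k Ω']
  {v : RVal Ω} {w : RVal Ω'} {ι : Ω →ₐ[k] Ω'}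

/-- Rational rank one goes down. -/
theorem ctx_of_iso (hd : IsoE v w ι) (h : Ctx k w 1) {a : Ω} (ha : a ≠ 0) (hva : v a ≠ 0) :
    Ctx k v 1 where
  toCtx0 := hd.ctx0 h.toCtx0
  rpos := one_pos
  rank := by
    obtain ⟨X, hX, hind, hspan⟩ := h.rank
    have h1 : ∀ g : Ω', g ≠ 0 → ∃ q : ℚ, w g = q * w (X 0) := by
      intro g hg
      have h2 := hspan g hg
      have h3 : Set.range (fun i => w (X i)) = {w (X 0)} := by
        rw [Set.range_unique]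
        rfl
      rw [h3, Submodule.mem_span_singleton] at h2
      obtain ⟨q, hq⟩ := h2
      exact ⟨q, by rw [← hq, Rat.smul_def]⟩
    obtain ⟨q, hq⟩ := h1 (ι a) (TWS.IsoE.ne_zero ha)
    rw [hd.val a ha] at hq
    have hq0 : (q : ℝ) ≠ 0 := by
      intro h0
      rw [h0, zero_mul] at hq
      exact hva hq
    refine ⟨fun _ => a, fun _ => ha, ?_, fun g hg => ?_⟩
    · rw [linearIndependent_unique_iff]
      exact hva
    · obtain ⟨q', hq'⟩ := h1 (ι g) (TWS.IsoE.ne_zero hg)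
      rw [hd.val g hg] at hq'
      have h3 : Set.range (fun _ : Fin 1 => v a) = {v a} := by
        rw [Set.range_unique]
      rw [h3, Submodule.mem_span_singleton]
      refine ⟨q' / q, ?_⟩
      rw [Rat.smul_def, hq, hq']
      push_cast
      field_simp

/-- **The motions of the exact tower.** -/
theorem ev_of_karc0 [IsAlgClosed k] [IsAlgClosed Ω] [IsAlgClosed Ω'] {p : ℕ} [Fact p.Prime]
    [CharP k p] [CharP Ω' p] (h : Ctx k w 1) (hcw : CompleteV w) {x y u z : Ω'} {σ r s : ℝ}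
    {D Ψ : ℕ → Ω' → Ω'} {K : IntermediateField k Ω'} (hx : x ≠ 0) (hwx : w x ≠ 0)
    (hA : KArc0 p w (adj (⊥ : IntermediateField k Ω') x) (cadj w (⊥ : IntermediateField k Ω') x) y
      σ D K u z r s Ψ) {K₀ : IntermediateField k Ω} (hd : IsoE v w ι) (hK : K₀.FG)
    (hΩ : ∀ g : Ω, IsAlgebraic K₀ g) (htr : Algebra.trdeg k K₀ = (4 : ℕ)) (hBD : BD p v K₀)
    (hcl : clI w (K₀.map ι) = K) : TWMF.EV p v w ι K₀ Ψ σ := by
  have hxK : x ∈ K := hA.nle (self_mem_cadj w _ x)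
  have hcl' : clI w (K₀.map ι) = clI w (kr k (![x, y, u, z] : Fin 4 → Ω')) := by
    rw [← cl_tower, hcl]
    exact hA.eq
  -- rational rank one
  have h1 : Ctx k v 1 := by
    rw [← hcl, mem_clI] at hxK
    obtain ⟨_, ⟨a, ha, rfl⟩, h2⟩ := hxK (w x + 1)
    obtain ⟨h3, h4⟩ := Gt.val_eq hx (Gt.of_ge h2 (by linarith))
    have ha0 : a ≠ 0 := fun h0 => h3 (by rw [h0, map_zero])
    have h5 : w (ι a) = w x := h4
    exact ctx_of_iso hd h ha0 (by rw [← hd.val a ha0, h5]; exact hwx)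
  obtain ⟨-, -, -, -, hind, -⟩ := exists_pull_iso h.toCtx0 hcw hd hK htr hBD hcl' 0
  obtain ⟨H, hH, hX⟩ := exists_xd_pow hA h.toCtx0 hcw (cld_cadj w _ x) (adj_bot x) hx hwx hind
  exact TWMF.ev_of_xd_iso h1 h.toCtx0 hcw hd hK hΩ htr hBD hcl' hX (by rw [hcl]; exact hA.arc.toHSd)
    (by rw [hcl]; exact TWMF.ptw_of_arc hA.arc) (by rw [hcl]; exact hA.oi) hH

end

/-- **The base of the classes.** -/
theorem sc_base {k Ω : Type u} [Field k] [Field Ω] [Algebra k Ω] {w : RVal Ω} [IsAlgClosed k]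
    [IsAlgClosed Ω] {p : ℕ} [Fact p.Prime] [CharP k p] [CharP Ω p] (h : Ctx k w 1)
    (hcw : CompleteV w) {x y : Ω} {σ : ℝ} {D : ℕ → Ω → Ω} (hx : x ≠ 0) (hwx : w x ≠ 0)
    (hS : SFl p w (cadj w (⊥ : IntermediateField k Ω) x) y σ D)
    (hdiv : PDiv p w (cadj w (cadj w (⊥ : IntermediateField k Ω) x) y))
    (hfg : FGc w 2 (cadj w (cadj w (⊥ : IntermediateField k Ω) x) y))
    (hirr : Irr w (cadj w (cadj w (⊥ : IntermediateField k Ω) x) y) σ) :
    SC p w (EVe p w) (cadj w (cadj w (⊥ : IntermediateField k Ω) x) y) σ D := by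
  have hle : adj (⊥ : IntermediateField k Ω) x ≤ cadj w (⊥ : IntermediateField k Ω) x := le_clI _
  have hden : ∀ f ∈ cadj w (⊥ : IntermediateField k Ω) x, ∀ b : ℝ,
      ∃ c ∈ adj (⊥ : IntermediateField k Ω) x, w.Ge b (f - c) := fun f hf b => mem_clI.1 hf b
  obtain ⟨⟨h1, h2, h3, h4, h5⟩, h6⟩ := base_floors h.toCtx0 hcw hle hden hS hdiv hfg hirr
    (EVe p w) (fun u z r s Ψ hA hK => ⟨σ, Ψ, sx_of_karc0 hA hK,
      fun Ω₀ _ _ _ v ι K₀ _ hd hK₀ hΩ htr hBD hcl =>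
        ev0_of_ev (ev_of_karc0 h hcw hx hwx hA hd hK₀ hΩ htr hBD hcl)⟩)
  refine ⟨h5, ⟨h1, h2, h3, h4⟩, fun u r hu hf => ?_⟩
  obtain ⟨Ψ₁, ⟨g1, g2, g3, g4, g5⟩, g6⟩ := h6 u r hu hf
  exact ⟨g5, σ, Ψ₁, ⟨g1, g2, g3, g4⟩, g6⟩

end Pool.Agent.TWEX
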