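import Pool.Agent.Lib.TWEX.IsoD

/-!
# TANK W: comparison of a near automorphism with a system near the identity

`tru Θ M δ x = ∑_(l ≤ M) Θ_l (x) δ ^ l`. `cmp`: `Θ` is near the identity at the radius `σ`, and
overconvergent. If `f : K → Ω` is near the identity and `f (s j)` is near `tru Θ M δ (s j)` for a
`p`-basis `s` of `K`, then `f x` is near `tru Θ M δ x`.
-/

set_option autoImplicit false

open Finset

namespace Pool.Agent.TWEX

open Pool.Agent.H15JM (RVal)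
open Pool.Agent.TW (mon pcomb PBasis)
open Pool.Agent.TWM
open Pool.Agent.TWMF.Stb (cf cf_mem cf_spec cf_ge)
open Pool.Agent.TWLM (HSd Oi Arc)

universe u

namespace Iso

variable {k Ω : Type u} [Field k] [Field Ω] [Algebra k Ω] {v : RVal Ω}
  {K : IntermediateField k Ω} {Θ : ℕ → Ω → Ω} {p n : ℕ} {s : Fin n → Ω} {σ μ lam e : ℝ}

/-- The truncated sum. -/
def tru (Θ : ℕ → Ω → Ω) (M : ℕ) (δ x : Ω) : Ω := ∑ l ∈ range (M + 1), Θ l x * δ ^ l

theorem tru_add (h : HSd K Θ) (M : ℕ) (δ : Ω) {x y : Ω} (hx : x ∈ K) (hy : y ∈ K) :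
    tru Θ M δ (x + y) = tru Θ M δ x + tru Θ M δ y := by
  unfold tru
  rw [← sum_add_distrib]
  refine sum_congr rfl fun l _ => ?_
  rw [h.add l x hx y hy]
  ring

theorem tru_zero (h : HSd K Θ) (M : ℕ) (δ : Ω) : tru Θ M δ 0 = 0 := by
  unfold tru
  refine sum_eq_zero fun l _ => ?_
  rw [h.zero, zero_mul]

theorem tru_sum (h : HSd K Θ) (M : ℕ) (δ : Ω) {ι : Type*} (S : Finset ι) (f : ι → Ω)
    (hf : ∀ i ∈ S, f i ∈ K) : tru Θ M δ (∑ i ∈ S, f i) = ∑ i ∈ S, tru Θ M δ (f i) := by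
  classical
  induction S using Finset.induction_on with
  | empty => rw [sum_empty, sum_empty, tru_zero h]
  | insert a S ha ih =>
    rw [sum_insert ha, sum_insert ha, tru_add h M δ (hf a (mem_insert_self a S))
      (sum_mem fun i hi => hf i (mem_insert_of_mem hi)), ih fun i hi => hf i (mem_insert_of_mem hi)]

theorem tru_one (h : HSd K Θ) (M : ℕ) (δ : Ω) : tru Θ M δ 1 = 1 := by
  unfold tru
  rw [sum_eq_single 0]
  · rw [h.c0 1 K.one_mem, pow_zero, mul_one]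
  · intro l _ hl
    rw [h.one l hl, zero_mul]
  · intro h1
    exact absurd (mem_range.2 (Nat.succ_pos M)) h1

/-- `Q` holds for `M` large, `δ` of value near `σ` or larger, and `f` near the identity, near the
truncated sums on `s`. -/
def Ev (v : RVal Ω) (K : IntermediateField k Ω) (Θ : ℕ → Ω → Ω) (s : Fin n → Ω) (σ lam : ℝ)
    (Q : ℕ → Ω → (K →ₐ[k] Ω) → Prop) : Prop :=
  ∃ M₀ : ℕ, ∀ M : ℕ, M₀ ≤ M → ∃ ρ₀ : ℝ, ρ₀ < σ ∧ ∃ c' : ℝ, ∀ δ : Ω, v.Ge ρ₀ δ →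
    ∀ f : K →ₐ[k] Ω, (∀ x : K, ∀ b : ℝ, v.Ge b (x : Ω) → v.Ge (b + lam) (f x - x)) →
      (∀ j, ∀ hj : s j ∈ K, v.Ge c' (f ⟨s j, hj⟩ - tru Θ M δ (s j))) → Q M δ f

variable {Q Q' : ℕ → Ω → (K →ₐ[k] Ω) → Prop}

theorem Ev.imp (h : Ev v K Θ s σ lam Q) (hQ : ∀ M δ f, Q M δ f → Q' M δ f) :
    Ev v K Θ s σ lam Q' := by
  obtain ⟨M₀, h1⟩ := h
  refine ⟨M₀, fun M hM => ?_⟩
  obtain ⟨ρ₀, hρ, c', h2⟩ := h1 M hM
  exact ⟨ρ₀, hρ, c', fun δ hδ f hf hj => hQ _ _ _ (h2 δ hδ f hf hj)⟩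

theorem Ev.and (h : Ev v K Θ s σ lam Q) (h' : Ev v K Θ s σ lam Q') :
    Ev v K Θ s σ lam fun M δ f => Q M δ f ∧ Q' M δ f := by
  obtain ⟨M₀, h1⟩ := h
  obtain ⟨M₁, h2⟩ := h'
  refine ⟨max M₀ M₁, fun M hM => ?_⟩
  obtain ⟨ρ₀, hρ, c', h3⟩ := h1 M ((le_max_left _ _).trans hM)
  obtain ⟨ρ₁, hρ', c'', h4⟩ := h2 M ((le_max_right _ _).trans hM)
  refine ⟨max ρ₀ ρ₁, max_lt hρ hρ', max c' c'', fun δ hδ f hf hj => ⟨h3 δ (hδ.mono
    (le_max_left _ _)) f hf fun j hj' => (hj j hj').mono (le_max_left _ _),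
    h4 δ (hδ.mono (le_max_right _ _)) f hf fun j hj' => (hj j hj').mono (le_max_right _ _)⟩⟩

theorem Ev.triv (h : ∀ M δ f, Q M δ f) : Ev v K Θ s σ lam Q :=
  ⟨0, fun M _ => ⟨σ - 1, by linarith, 0, fun δ _ f _ _ => h M δ f⟩⟩

theorem Ev.all {ι : Type*} (S : Finset ι) {R : ι → ℕ → Ω → (K →ₐ[k] Ω) → Prop}
    (h : ∀ i ∈ S, Ev v K Θ s σ lam (R i)) :
    Ev v K Θ s σ lam fun M δ f => ∀ i ∈ S, R i M δ f := by
  classical
  induction S using Finset.induction_on with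
  | empty => exact Ev.triv fun M δ f i hi => absurd hi (notMem_empty i)
  | insert a S ha ih =>
    refine ((h a (mem_insert_self a S)).and (ih fun i hi => h i (mem_insert_of_mem hi))).imp ?_
    rintro M δ f ⟨h1, h2⟩ i hi
    rcases mem_insert.1 hi with rfl | hi
    exacts [h1, h2 i hi]

/-- The size of `M`. -/
theorem Ev.large (N : ℕ) : Ev v K Θ s σ lam fun M _ _ => N ≤ M :=
  ⟨N, fun M hM => ⟨σ - 1, by linarith, 0, fun _ _ _ _ _ => hM⟩⟩

/-- The nearness of `f`. -/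
theorem Ev.gain : Ev v K Θ s σ lam fun _ _ f => ∀ x : K, ∀ b : ℝ, v.Ge b (x : Ω) →
    v.Ge (b + lam) (f x - x) :=
  ⟨0, fun M _ => ⟨σ - 1, by linarith, 0, fun _ _ _ hf _ => hf⟩⟩

theorem Ev.base (c : ℝ) : Ev v K Θ s σ lam fun M δ f => ∀ j, ∀ hj : s j ∈ K,
    v.Ge c (f ⟨s j, hj⟩ - tru Θ M δ (s j)) :=
  ⟨0, fun M _ => ⟨σ - 1, by linarith, c, fun _ _ _ _ hj => hj⟩⟩

/-- The powers of `δ`. -/
theorem Ev.dpow (A : ℕ) {η : ℝ} (hη : 0 < η) : Ev v K Θ s σ lam fun M δ _ =>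
    ∀ l : ℕ, l ≤ A * (M + 1) → v.Ge (l * σ - η) (δ ^ l) := by
  refine ⟨0, fun M _ => ?_⟩
  have h0 : (0 : ℝ) < A * (M + 1) + 1 := by positivity
  refine ⟨σ - η / (A * (M + 1) + 1), ?_, 0, fun δ hδ f _ _ l hl => ?_⟩
  · have : 0 < η / ((A : ℝ) * (M + 1) + 1) := by positivity
    linarith
  · refine (ge_pow hδ l).mono ?_
    have h1 : (l : ℝ) ≤ A * (M + 1) := by exact_mod_cast hl
    have h2 : (l : ℝ) * (η / (A * (M + 1) + 1)) ≤ η := by
      rw [mul_div_assoc', div_le_iff₀ h0]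
      nlinarith
    linarith

section

variable (h : NI v K σ μ Θ)
include h

/-- The bound of the truncated sum. -/
theorem Ev.tru_ge {x : Ω} (hx : x ∈ K) {b η : ℝ} (hη : 0 < η) (hb : v.Ge b x) :
    Ev v K Θ s σ lam fun M δ _ => v.Ge (b - η) (tru Θ M δ x) := by
  refine (Ev.dpow 1 hη).imp fun M δ f h1 => RVal.Ge.sum _ _ fun l hl => ?_
  have h2 : l ≤ 1 * (M + 1) := by
    have := mem_range.1 hl
    omega
  exact ((h.ge l hx hb).mul (h1 l h2)).mono (by linarith)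

/-- The trivial estimate. -/
theorem Ev.tru_near {x : Ω} (hx : x ∈ K) {b g : ℝ} (hg : g < μ) (hg' : g < lam) (hb : v.Ge b x) :
    Ev v K Θ s σ lam fun M δ f => v.Ge (b + g) (f ⟨x, hx⟩ - tru Θ M δ x) := by
  refine ((Ev.dpow 1 (sub_pos.2 hg)).and Ev.gain).imp ?_
  rintro M δ f ⟨h1, h2⟩
  have e : f ⟨x, hx⟩ - tru Θ M δ x = (f ⟨x, hx⟩ - x) -
      ∑ l ∈ range M, Θ (l + 1) x * δ ^ (l + 1) := by
    unfold tru
    rw [sum_range_succ', h.hsd.c0 x hx]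
    ring
  rw [e]
  refine ((h2 ⟨x, hx⟩ b hb).mono (by linarith)).sub (RVal.Ge.sum _ _ fun l hl => ?_)
  have h3 : l + 1 ≤ 1 * (M + 1) := by
    have := mem_range.1 hl
    omega
  exact ((h.nr (l + 1) (Nat.succ_ne_zero l) x hx b hb).mul (h1 (l + 1) h3)).mono (by linarith)

variable (ho : Oi v K σ Θ)
include ho

/-- Multiplicativity. -/
theorem Ev.tru_mul {x y : Ω} (hx : x ∈ K) (hy : y ∈ K) (C : ℝ) :
    Ev v K Θ s σ lam fun M δ _ => v.Ge C (tru Θ M δ x * tru Θ M δ y - tru Θ M δ (x * y)) := by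
  obtain ⟨J, hJ⟩ := ho x hx (C + 1 - v y)
  obtain ⟨J', hJ'⟩ := ho y hy (C + 1 - v x)
  refine ((Ev.dpow 2 one_pos).and (Ev.large (J + J'))).imp ?_
  rintro M δ f ⟨h1, h2⟩
  have e1 : tru Θ M δ x * tru Θ M δ y = ∑ i ∈ range (M + 1) ×ˢ range (M + 1),
      Θ i.1 x * Θ i.2 y * δ ^ (i.1 + i.2) := by
    unfold tru
    rw [sum_mul_sum, ← sum_product']
    refine sum_congr rfl fun i _ => ?_
    rw [pow_add]
    ring
  have e2 : tru Θ M δ (x * y) = ∑ i ∈ (range (M + 1) ×ˢ range (M + 1)).filter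
      (fun i => i.1 + i.2 ≤ M), Θ i.1 x * Θ i.2 y * δ ^ (i.1 + i.2) := by
    have h3 : ∀ l ∈ range (M + 1), Θ l (x * y) * δ ^ l =
        ∑ i ∈ antidiagonal l, Θ i.1 x * Θ i.2 y * δ ^ (i.1 + i.2) := by
      intro l _
      rw [h.hsd.mul l x hx y hy, sum_mul]
      refine sum_congr rfl fun i hi => ?_
      have h4 : i.1 + i.2 = l := by simpa using hi
      rw [h4]
    unfold tru
    rw [sum_congr rfl h3, sum_sigma']
    refine sum_nbij' (fun x => x.2) (fun i => ⟨i.1 + i.2, i⟩) ?_ ?_ ?_ ?_ ?_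
    · rintro ⟨l, ⟨a, b⟩⟩ hi
      simp only [mem_sigma, mem_range, HasAntidiagonal.mem_antidiagonal] at hi
      simp only [mem_filter, mem_product, mem_range]
      omega
    · rintro ⟨a, b⟩ hi
      simp only [mem_filter, mem_product, mem_range] at hi
      simp only [mem_sigma, mem_range, HasAntidiagonal.mem_antidiagonal]
      refine ⟨?_, ?_⟩ <;> first | omega | (dsimp only; try omega)
    · rintro ⟨l, ⟨a, b⟩⟩ hi
      simp only [mem_sigma, mem_range, HasAntidiagonal.mem_antidiagonal] at hi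
      obtain ⟨-, h5⟩ := hi
      subst h5
      rfl
    · rintro ⟨a, b⟩ _
      rfl
    · rintro ⟨l, ⟨a, b⟩⟩ _
      rfl
  rw [e1, e2, ← sum_filter_add_sum_filter_not (range (M + 1) ×ˢ range (M + 1))
    (fun i => i.1 + i.2 ≤ M), add_sub_cancel_left]
  refine RVal.Ge.sum _ _ fun i hi => ?_
  simp only [mem_filter, mem_product, mem_range, not_le] at hi
  obtain ⟨⟨h3, h4⟩, h5⟩ := hi
  have h6 := h1 (i.1 + i.2) (by omega)
  push_cast at h6
  by_cases h7 : J ≤ i.1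
  · exact (((hJ i.1 h7).mul (h.ge i.2 hy (v.ge_self y))).mul h6).mono (by linarith)
  · exact (((h.ge i.1 hx (v.ge_self x)).mul (hJ' i.2 (by omega))).mul h6).mono (by linarith)

/-- Powers. -/
theorem Ev.tru_pow {x : Ω} (hx : x ∈ K) (a : ℕ) : ∀ C : ℝ,
    Ev v K Θ s σ lam fun M δ _ => v.Ge C (tru Θ M δ x ^ a - tru Θ M δ (x ^ a)) := by
  induction a with
  | zero =>
    intro C
    refine Ev.triv fun M δ f => ?_
    rw [pow_zero, pow_zero, tru_one h.hsd, sub_self]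
    exact RVal.Ge.zero
  | succ a ih =>
    intro C
    refine (((ih (C - (v x - 1))).and (Ev.tru_ge h hx one_pos (v.ge_self x))).and
      (Ev.tru_mul h ho (pow_mem hx a) hx C)).imp ?_
    rintro M δ f ⟨⟨h1, h2⟩, h3⟩
    have e : tru Θ M δ x ^ (a + 1) - tru Θ M δ (x ^ (a + 1)) =
        (tru Θ M δ x ^ a - tru Θ M δ (x ^ a)) * tru Θ M δ x +
          (tru Θ M δ (x ^ a) * tru Θ M δ x - tru Θ M δ (x ^ a * x)) := by
      rw [pow_succ x a]
      ring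
    rw [e]
    exact ((h1.mul h2).mono (by linarith)).add h3

omit h ho in
/-- `f x` is the truncated sum, with any precision. -/
def PP (v : RVal Ω) (K : IntermediateField k Ω) (Θ : ℕ → Ω → Ω) (s : Fin n → Ω) (σ lam : ℝ)
    (x : Ω) : Prop :=
  ∃ hx : x ∈ K, ∀ C : ℝ, Ev v K Θ s σ lam fun M δ f => v.Ge C (f ⟨x, hx⟩ - tru Θ M δ x)

omit ho in
theorem PP.one : PP v K Θ s σ lam (1 : Ω) :=
  ⟨K.one_mem, fun C => Ev.triv fun M δ f => by
    have e : (⟨1, K.one_mem⟩ : K) = 1 := rfl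
    rw [e, map_one, tru_one h.hsd, sub_self]
    exact RVal.Ge.zero⟩

theorem PP.mul (hlam : 0 < lam) {x y : Ω} (hx : PP v K Θ s σ lam x) (hy : PP v K Θ s σ lam y) :
    PP v K Θ s σ lam (x * y) := by
  obtain ⟨hxK, hx⟩ := hx
  obtain ⟨hyK, hy⟩ := hy
  refine ⟨mul_mem hxK hyK, fun C => ?_⟩
  refine ((((hx (C - v y)).and (hy (C - (v x - 1)))).and ((Ev.tru_ge h hxK one_pos
    (v.ge_self x)).and Ev.gain)).and (Ev.tru_mul h ho hxK hyK C)).imp ?_
  rintro M δ f ⟨⟨⟨h1, h2⟩, h3, h4⟩, h5⟩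
  have e0 : (⟨x * y, mul_mem hxK hyK⟩ : K) = ⟨x, hxK⟩ * ⟨y, hyK⟩ := rfl
  have e : f ⟨x * y, mul_mem hxK hyK⟩ - tru Θ M δ (x * y) =
      (f ⟨x, hxK⟩ - tru Θ M δ x) * f ⟨y, hyK⟩ + tru Θ M δ x * (f ⟨y, hyK⟩ - tru Θ M δ y) +
        (tru Θ M δ x * tru Θ M δ y - tru Θ M δ (x * y)) := by
    rw [e0, map_mul]
    ring
  have h6 : v.Ge (v y) (f ⟨y, hyK⟩) := by
    have e1 : f ⟨y, hyK⟩ = (f ⟨y, hyK⟩ - y) + y := by ring
    rw [e1]
    exact ((h4 ⟨y, hyK⟩ _ (v.ge_self y)).mono (by linarith)).add (v.ge_self y)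
  rw [e]
  exact (((h1.mul h6).mono (by linarith)).add ((h3.mul h2).mono (by linarith))).add h5

theorem PP.pow (hlam : 0 < lam) {x : Ω} (hx : PP v K Θ s σ lam x) (a : ℕ) :
    PP v K Θ s σ lam (x ^ a) := by
  induction a with
  | zero =>
    rw [pow_zero]
    exact PP.one h
  | succ a ih =>
    rw [pow_succ]
    exact PP.mul h ho hlam ih hx

theorem PP.mon (hlam : 0 < lam) (hs : ∀ i, s i ∈ K) (α : Fin n → Fin p) :
    PP v K Θ s σ lam (mon s α) := by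
  classical
  unfold TW.mon
  induction (univ : Finset (Fin n)) using Finset.induction_on with
  | empty =>
    rw [prod_empty]
    exact PP.one h
  | insert a S ha ih =>
    rw [prod_insert ha]
    refine PP.mul h ho hlam (PP.pow h ho hlam ⟨hs a, fun C => (Ev.base C).imp fun M δ f h1 =>
      h1 a (hs a)⟩ _) ih

variable [hp : Fact p.Prime] [CharP Ω p]

/-- The gain is multiplied by `p`. -/
theorem Ev.step (hlam : 0 < lam) {c z : Ω} (hc : c ∈ K) (hz : PP v K Θ s σ lam z) {γ γ' : ℝ}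
    (hG : Ev v K Θ s σ lam fun M δ f => v.Ge γ (f ⟨c, hc⟩ - tru Θ M δ c))
    (hγ : γ' ≤ p * γ + v z) (hx : c ^ p * z ∈ K) :
    Ev v K Θ s σ lam fun M δ f => v.Ge γ' (f ⟨c ^ p * z, hx⟩ - tru Θ M δ (c ^ p * z)) := by
  obtain ⟨hzK, hz⟩ := hz
  refine ((((hG.and (hz (γ' - p * (v c - 1)))).and ((Ev.tru_ge h hc one_pos (v.ge_self c)).and
    (Ev.tru_ge h hzK one_pos (v.ge_self z)))).and ((Ev.tru_pow h ho hc p (γ' - (v z - 1))).and
    Ev.gain)).and (Ev.tru_mul h ho (pow_mem hc p) hzK γ')).imp ?_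
  rintro M δ f ⟨⟨⟨⟨h1, h2⟩, h3, h4⟩, h5, h6⟩, h7⟩
  have e0 : (⟨c ^ p * z, hx⟩ : K) = ⟨c, hc⟩ ^ p * ⟨z, hzK⟩ := rfl
  have e : f ⟨c ^ p * z, hx⟩ - tru Θ M δ (c ^ p * z) =
      (f ⟨c, hc⟩ - tru Θ M δ c) ^ p * f ⟨z, hzK⟩ +
      tru Θ M δ c ^ p * (f ⟨z, hzK⟩ - tru Θ M δ z) +
      (tru Θ M δ c ^ p - tru Θ M δ (c ^ p)) * tru Θ M δ z +
      (tru Θ M δ (c ^ p) * tru Θ M δ z - tru Θ M δ (c ^ p * z)) := by
    rw [e0, map_mul, map_pow, sub_pow_char]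
    ring
  have h8 : v.Ge (v z) (f ⟨z, hzK⟩) := by
    have e1 : f ⟨z, hzK⟩ = (f ⟨z, hzK⟩ - z) + z := by ring
    rw [e1]
    exact ((h6 ⟨z, hzK⟩ _ (v.ge_self z)).mono (by linarith)).add (v.ge_self z)
  rw [e]
  exact (((((ge_pow h1 p).mul h8).mono (by linarith)).add
    (((ge_pow h3 p).mul h2).mono (by linarith))).add ((h5.mul h4).mono (by linarith))).add h7

/-- The induction. -/
theorem Ev.ind (hlam : 0 < lam) (hs : PBasis p K s) (hoi : OI p v K s e) {g : ℝ} (hg : g < μ)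
    (hg' : g < lam) (r : ℕ) : ∀ x : Ω, ∀ hx : x ∈ K, ∀ b : ℝ, v.Ge b x →
      Ev v K Θ s σ lam fun M δ f =>
        v.Ge (b + (e / (p - 1) + p ^ r * (g - e / (p - 1)))) (f ⟨x, hx⟩ - tru Θ M δ x) := by
  have hp1 : (0 : ℝ) < (p : ℝ) - 1 := by
    have : (1 : ℝ) < p := by exact_mod_cast hp.out.one_lt
    linarith
  induction r with
  | zero =>
    intro x hx b hb
    refine (Ev.tru_near h hx hg hg' hb).imp fun M δ f h1 => ?_
    refine h1.mono (le_of_eq ?_)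
    rw [pow_zero]
    ring
  | succ r ih =>
    intro x hx b hb
    have hm : ∀ α : Fin n → Fin p, cf hs x α ^ p * mon s α ∈ K := fun α =>
      mul_mem (pow_mem (cf_mem hs x α) p) (prod_mem fun i _ => pow_mem (hs.mem i) _)
    have hex : e / ((p : ℝ) - 1) * (p - 1) = e := by field_simp
    have hterm : ∀ α ∈ (univ : Finset (Fin n → Fin p)), Ev v K Θ s σ lam fun M δ f =>
        v.Ge (b + (e / (p - 1) + p ^ (r + 1) * (g - e / (p - 1))))
          (f ⟨_, hm α⟩ - tru Θ M δ (cf hs x α ^ p * mon s α)) := by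
      intro α _
      by_cases h0 : cf hs x α ^ p * mon s α = 0
      · refine Ev.triv fun M δ f => ?_
        have e0 : (⟨_, hm α⟩ : K) = 0 := Subtype.ext h0
        rw [e0, map_zero, h0, tru_zero h.hsd, sub_self]
        exact RVal.Ge.zero
      · have hc0 : cf hs x α ≠ 0 := fun h1 => h0 (by
          rw [h1, zero_pow hp.out.ne_zero, zero_mul])
        have hm0 : mon s α ≠ 0 := fun h1 => h0 (by rw [h1, mul_zero])
        have h2 := cf_ge hs hoi hx hb α h0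
        rw [v.map_mul (pow_ne_zero p hc0) hm0, v.map_pow hc0] at h2
        refine Ev.step h ho hlam (cf_mem hs x α) (PP.mon h ho hlam hs.mem α)
          (ih _ (cf_mem hs x α) _ (v.ge_self _)) ?_ (hm α)
        rw [pow_succ]
        nlinarith
    refine (Ev.all univ hterm).imp fun M δ f h1 => ?_
    have e1 : (⟨x, hx⟩ : K) = ∑ α : Fin n → Fin p, (⟨_, hm α⟩ : K) := by
      apply Subtype.ext
      rw [AddSubmonoidClass.coe_finsetSum]
      exact cf_spec hs hx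
    have e2 : tru Θ M δ x = ∑ α : Fin n → Fin p, tru Θ M δ (cf hs x α ^ p * mon s α) := by
      rw [← tru_sum h.hsd M δ _ _ fun α _ => hm α]
      congr 1
      exact cf_spec hs hx
    rw [e1, map_sum, e2, ← sum_sub_distrib]
    exact RVal.Ge.sum _ _ fun α hα => h1 α hα

/-- **The comparison.** -/
theorem cmp (hs : PBasis p K s) (hoi : OI p v K s e) (hlam : 0 < lam)
    (he1 : e < (p - 1) * μ) (he2 : e < (p - 1) * lam) (T : Finset Ω) (hT : ∀ x ∈ T, x ∈ K) (c : ℝ) :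
    Ev v K Θ s σ lam fun M δ f => ∀ x ∈ T, ∀ hx : x ∈ K, v.Ge c (f ⟨x, hx⟩ - tru Θ M δ x) := by
  have hp1 : (0 : ℝ) < (p : ℝ) - 1 := by
    have : (1 : ℝ) < p := by exact_mod_cast hp.out.one_lt
    linarith
  have hd1 : e / (p - 1) < μ := by
    rw [div_lt_iff₀ hp1]
    linarith
  have hd2 : e / (p - 1) < lam := by
    rw [div_lt_iff₀ hp1]
    linarith
  obtain ⟨g, hg1, hg2⟩ := exists_between (lt_min hd1 hd2)
  have hg3 : 0 < g - e / (p - 1) := by linarith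
  refine Ev.all T fun x hxT => ?_
  have hx := hT x hxT
  obtain ⟨r, hr⟩ := exists_nat_ge ((c - v x - e / (p - 1)) / (g - e / (p - 1)))
  rw [div_le_iff₀ hg3] at hr
  refine (Ev.ind h ho hlam hs hoi (hg2.trans_le (min_le_left _ _)) (hg2.trans_le (min_le_right _ _))
    r x hx _ (v.ge_self x)).imp fun M δ f h1 _ => h1.mono ?_
  have h2 : (r : ℝ) ≤ (p : ℝ) ^ r := by exact_mod_cast (Nat.lt_pow_self hp.out.one_lt).le
  have h3 := mul_le_mul_of_nonneg_right h2 hg3.le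
  linarith

end

end Iso

end Pool.Agent.TWEX
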