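import Pool.Agent.Lib.TWEX.IsoD
import Pool.Agent.Lib.TWMF.S1

/-!
# TANK W: composition of truncated evaluations

`comp_near`: `Φ = Θ ∘ Φ'`, `f` an embedding of `K` near the evaluation of `Θ` at `δ`: `f` maps the
truncated evaluation of `Φ'` near the one of `Φ`.
-/

set_option autoImplicit false

open Polynomial Finset

namespace Pool.Agent.TWEX

open Pool.Agent.H15JM (RVal)
open Pool.Agent.TWM
open Pool.Agent.TWLM (HSd Oi Arc)
open Pool.Agent.TWEX.Iso (NI hcomp)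

universe u

variable {k Ω : Type u} [Field k] [Field Ω] [Algebra k Ω] {v : RVal Ω}

/-- Finitely many thresholds. -/
theorem exists_thr {α : Type*} (T : Finset α) (P : α → ℕ → Prop)
    (h : ∀ x ∈ T, ∃ N : ℕ, ∀ n, N ≤ n → P x n) : ∃ N : ℕ, ∀ x ∈ T, ∀ n, N ≤ n → P x n := by
  classical
  induction T using Finset.induction_on with
  | empty => exact ⟨0, fun x hx => absurd hx (notMem_empty x)⟩
  | insert a T _ ih =>
    obtain ⟨N, hN⟩ := ih fun x hx => h x (mem_insert_of_mem hx)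
    obtain ⟨N', hN'⟩ := h a (mem_insert_self a T)
    refine ⟨max N N', fun x hx n hn => ?_⟩
    rcases mem_insert.1 hx with rfl | hx
    · exact hN' n ((le_max_right _ _).trans hn)
    · exact hN x hx n ((le_max_left _ _).trans hn)

/-- A common lower bound. -/
theorem exists_low (S : Finset Ω) : ∃ b : ℝ, ∀ x ∈ S, v.Ge b x := by
  classical
  induction S using Finset.induction_on with
  | empty => exact ⟨0, fun x hx => absurd hx (notMem_empty x)⟩
  | insert a S _ ih =>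
    obtain ⟨b, hb⟩ := ih
    refine ⟨min b (v a), fun x hx => ?_⟩
    rcases mem_insert.1 hx with rfl | hx
    · exact (v.ge_self x).mono (min_le_right _ _)
    · exact (hb x hx).mono (min_le_left _ _)

/-- The double sum. -/
theorem sum_anti {R : Type*} [AddCommMonoid R] (M : ℕ) (a : ℕ → ℕ → R) :
    ∑ n ∈ range (M + 1), ∑ i ∈ antidiagonal n, a i.1 i.2 =
      ∑ l ∈ range (M + 1), ∑ i ∈ range (M + 1), if i + l ≤ M then a i l else 0 := by
  classical
  have h1 : ∑ q ∈ ((range (M + 1)) ×ˢ (range (M + 1))).filter (fun q => q.1 + q.2 ≤ M),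
      a q.1 q.2 = ∑ n ∈ range (M + 1), ∑ i ∈ antidiagonal n, a i.1 i.2 := by
    rw [← sum_fiberwise_of_maps_to (t := range (M + 1)) (g := fun q : ℕ × ℕ => q.1 + q.2)
      (fun q hq => by
        have := (mem_filter.1 hq).2
        exact mem_range.2 (by omega))]
    refine sum_congr rfl fun n hn => sum_congr ?_ fun _ _ => rfl
    ext q
    have hn' := mem_range.1 hn
    simp only [mem_filter, mem_product, mem_range, HasAntidiagonal.mem_antidiagonal]
    constructor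
    · rintro ⟨-, h2⟩
      exact h2
    · intro h2
      exact ⟨⟨⟨by omega, by omega⟩, by omega⟩, h2⟩
  rw [← h1, sum_filter, sum_product_right]

variable {K : IntermediateField k Ω} {Θ Φ Φ' : ℕ → Ω → Ω} {σ μ : ℝ}

/-- **Composition of truncated evaluations.** -/
theorem comp_near (h : NI v K σ μ Θ) (hΘ : Oi v K σ Θ) (h' : HSd K Φ')
    (hn : ∀ l : ℕ, ∀ x ∈ K, ∀ b : ℝ, v.Ge b x → v.Ge (b - l * σ) (Φ' l x)) (ho : Oi v K σ Φ')
    (hΦ : ∀ n : ℕ, ∀ x ∈ K, hcomp Θ Φ' n x = Φ n x) (S : Finset Ω) (hS : ∀ x ∈ S, x ∈ K)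
    (c : ℝ) : ∃ (T₀ : Finset Ω) (c₀ Λ : ℝ) (M₀ : ℕ), (∀ x ∈ T₀, x ∈ K) ∧
      ∀ M : ℕ, M₀ ≤ M → ∃ ρ₀ : ℝ, ρ₀ < σ ∧ ∀ δ, ∀ hδ : δ ∈ K, δ ≠ 0 → ρ₀ ≤ v δ →
        ∀ f : K →ₐ[k] Ω, (∀ x : K, ∀ b : ℝ, v.Ge b (x : Ω) → v.Ge b (f x)) →
        v.Ge (v δ + Λ) (f ⟨δ, hδ⟩ - δ) →
        (∀ x, ∀ hx : x ∈ K, x ∈ T₀ →
          v.Ge c₀ (f ⟨x, hx⟩ - ∑ l ∈ range (M + 1), Θ l x * δ ^ l)) →
        ∀ x ∈ S, ∀ hx : ∑ l ∈ range (M + 1), Φ' l x * δ ^ l ∈ K,
          v.Ge c (f ⟨_, hx⟩ - ∑ l ∈ range (M + 1), Φ l x * δ ^ l) := by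
  classical
  obtain ⟨b, hb⟩ := exists_low (v := v) S
  obtain ⟨L, hL⟩ := exists_thr S (fun x n => v.Ge (c + 1 - n * σ) (Φ' n x)) fun x hx =>
    ho x (hS x hx) (c + 1)
  obtain ⟨C', hC'⟩ : ∃ C' : ℝ, C' = c + 1 + L * (|σ| + 1) := ⟨_, rfl⟩
  obtain ⟨L₁, hL₁⟩ := exists_thr (S ×ˢ range L)
    (fun q n => v.Ge (C' - n * σ) (Θ n (Φ' q.2 q.1))) fun q hq => by
      have h1 := mem_product.1 hq
      exact hΘ _ (h'.mem q.2 q.1 (hS _ h1.1)) C'
  refine ⟨(S ×ˢ range L).image fun q => Φ' q.2 q.1, c + L * (|σ| + 1), |c - b| + 1, L + L₁, ?_,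
    fun M hM => ⟨σ - 1 / (M + 1), by
      have : (0 : ℝ) < 1 / (M + 1) := by positivity
      linarith, fun δ hδ hδ0 hρ f hf hfδ hfT x hx hxK => ?_⟩⟩
  · intro y hy
    obtain ⟨q, hq, rfl⟩ := mem_image.1 hy
    exact h'.mem q.2 q.1 (hS _ (mem_product.1 hq).1)
  have hM0 : (0 : ℝ) < M + 1 := by positivity
  have hxm := hS x hx
  have hσD : σ - v δ ≤ 1 / (M + 1) := by linarith
  -- the estimates
  have hle1 : ∀ n : ℕ, n ≤ M → (n : ℝ) * (σ - v δ) ≤ 1 := by
    intro n hn1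
    rcases le_total (σ - v δ) 0 with h1 | h1
    · exact (mul_nonpos_of_nonneg_of_nonpos (Nat.cast_nonneg n) h1).trans zero_le_one
    · have h2 : (n : ℝ) ≤ M + 1 := by
        have : (n : ℝ) ≤ M := by exact_mod_cast hn1
        linarith
      calc (n : ℝ) * (σ - v δ) ≤ (M + 1) * (1 / (M + 1)) :=
            mul_le_mul h2 hσD h1 hM0.le
        _ = 1 := mul_one_div_cancel hM0.ne'
  have hle2 : ∀ n : ℕ, n < L → -(L * (|σ| + 1)) ≤ (n : ℝ) * v δ := by
    intro n hn1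
    have h1 : 1 / ((M : ℝ) + 1) ≤ 1 := by
      rw [div_le_one hM0]
      have : (0 : ℝ) ≤ M := Nat.cast_nonneg M
      linarith
    have h2 : -(|σ| + 1) ≤ v δ := by linarith [neg_abs_le σ]
    have h3 : (n : ℝ) ≤ L := by exact_mod_cast hn1.le
    have h4 : 0 ≤ |σ| + 1 := by positivity
    calc -(L * (|σ| + 1)) ≤ -(n * (|σ| + 1)) := by
          have := mul_le_mul_of_nonneg_right h3 h4
          linarith
      _ = n * (-(|σ| + 1)) := by ring
      _ ≤ n * v δ := mul_le_mul_of_nonneg_left h2 (Nat.cast_nonneg n)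
  have hδp : ∀ n : ℕ, v.Ge (n * v δ) (δ ^ n) := fun n => ge_pow (v.ge_self δ) n
  -- the image of the sum
  have hsum : f ⟨_, hxK⟩ = ∑ l ∈ range (M + 1), f ⟨Φ' l x, h'.mem l x hxm⟩ * f ⟨δ, hδ⟩ ^ l := by
    have e1 : (⟨_, hxK⟩ : K) =
        ∑ l ∈ range (M + 1), (⟨Φ' l x, h'.mem l x hxm⟩ : K) * ⟨δ, hδ⟩ ^ l := by
      apply Subtype.ext
      push_cast
      rfl
    rw [e1, map_sum]
    exact sum_congr rfl fun l _ => by rw [map_mul, map_pow]
  -- the truncated sums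
  obtain ⟨t, ht⟩ : ∃ t : ℕ → Ω, ∀ l, t l =
      if l < L then ∑ i ∈ range (M + 1), Θ i (Φ' l x) * δ ^ i else 0 := ⟨_, fun _ => rfl⟩
  have hmain : f ⟨_, hxK⟩ - ∑ l ∈ range (M + 1), Φ l x * δ ^ l =
      ∑ l ∈ range (M + 1), f ⟨Φ' l x, h'.mem l x hxm⟩ * (f ⟨δ, hδ⟩ ^ l - δ ^ l) +
      ∑ l ∈ range (M + 1), (f ⟨Φ' l x, h'.mem l x hxm⟩ - t l) * δ ^ l +
      ∑ l ∈ range (M + 1), ∑ i ∈ range (M + 1),
        ((if l < L then Θ i (Φ' l x) * δ ^ (i + l) else 0) -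
          if i + l ≤ M then Θ i (Φ' l x) * δ ^ (i + l) else 0) := by
    have e1 : ∑ l ∈ range (M + 1), Φ l x * δ ^ l = ∑ l ∈ range (M + 1), ∑ i ∈ range (M + 1),
        if i + l ≤ M then Θ i (Φ' l x) * δ ^ (i + l) else 0 := by
      rw [← sum_anti M fun i l => Θ i (Φ' l x) * δ ^ (i + l)]
      refine sum_congr rfl fun n _ => ?_
      rw [← hΦ n x hxm]
      unfold hcomp
      rw [sum_mul]
      exact sum_congr rfl fun i hi => by rw [HasAntidiagonal.mem_antidiagonal.1 hi]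
    have e2 : ∑ l ∈ range (M + 1), t l * δ ^ l = ∑ l ∈ range (M + 1), ∑ i ∈ range (M + 1),
        if l < L then Θ i (Φ' l x) * δ ^ (i + l) else 0 := by
      refine sum_congr rfl fun l _ => ?_
      rw [ht l]
      by_cases hl : l < L
      · simp only [if_pos hl]
        rw [sum_mul]
        exact sum_congr rfl fun i _ => by rw [mul_assoc, ← pow_add]
      · simp only [if_neg hl]
        rw [zero_mul, sum_const_zero]
    have e3 : ∑ l ∈ range (M + 1), ∑ i ∈ range (M + 1),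
        ((if l < L then Θ i (Φ' l x) * δ ^ (i + l) else 0) -
          if i + l ≤ M then Θ i (Φ' l x) * δ ^ (i + l) else 0) =
        ∑ l ∈ range (M + 1), t l * δ ^ l - ∑ l ∈ range (M + 1), Φ l x * δ ^ l := by
      rw [e1, e2, ← sum_sub_distrib]
      exact sum_congr rfl fun l _ => by rw [sum_sub_distrib]
    rw [e3, hsum]
    have e4 : ∑ l ∈ range (M + 1), (f ⟨Φ' l x, h'.mem l x hxm⟩ - t l) * δ ^ l =
        ∑ l ∈ range (M + 1), f ⟨Φ' l x, h'.mem l x hxm⟩ * δ ^ l -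
          ∑ l ∈ range (M + 1), t l * δ ^ l := by
      rw [← sum_sub_distrib]
      exact sum_congr rfl fun l _ => by rw [sub_mul]
    have e5 : ∑ l ∈ range (M + 1), f ⟨Φ' l x, h'.mem l x hxm⟩ * (f ⟨δ, hδ⟩ ^ l - δ ^ l) =
        ∑ l ∈ range (M + 1), f ⟨Φ' l x, h'.mem l x hxm⟩ * f ⟨δ, hδ⟩ ^ l -
          ∑ l ∈ range (M + 1), f ⟨Φ' l x, h'.mem l x hxm⟩ * δ ^ l := by
      rw [← sum_sub_distrib]
      exact sum_congr rfl fun l _ => by rw [mul_sub]
    rw [e4, e5]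
    ring
  rw [hmain]
  refine (RVal.Ge.add (RVal.Ge.add ?_ ?_) ?_)
  · refine RVal.Ge.sum _ _ fun l hl => ?_
    have hlM : l ≤ M := Nat.lt_succ_iff.1 (mem_range.1 hl)
    have h1 := hf ⟨Φ' l x, h'.mem l x hxm⟩ _ (hn l x hxm b (hb x hx))
    have h2 := (TWMF.Stb.pow_near hfδ (by positivity) l).2
    refine (h1.mul h2).mono ?_
    have h3 := hle1 l hlM
    have h4 := le_abs_self (c - b)
    have h5 : b - l * σ + (l * v δ + (|c - b| + 1)) = b + (|c - b| + 1) - l * (σ - v δ) := by ring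
    rw [h5]
    linarith
  · refine RVal.Ge.sum _ _ fun l hl => ?_
    have hlM : l ≤ M := Nat.lt_succ_iff.1 (mem_range.1 hl)
    rw [ht l]
    by_cases hlL : l < L
    · rw [if_pos hlL]
      have h1 := hfT (Φ' l x) (h'.mem l x hxm)
        (mem_image.2 ⟨(x, l), mem_product.2 ⟨hx, mem_range.2 hlL⟩, rfl⟩)
      refine (h1.mul (hδp l)).mono ?_
      linarith [hle2 l hlL]
    · rw [if_neg hlL, sub_zero]
      have h1 := hf ⟨Φ' l x, h'.mem l x hxm⟩ _ (hL x hx l (not_lt.1 hlL))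
      refine (h1.mul (hδp l)).mono ?_
      have h3 := hle1 l hlM
      have h5 : c + 1 - l * σ + l * v δ = c + 1 - l * (σ - v δ) := by ring
      rw [h5]
      linarith
  · refine RVal.Ge.sum _ _ fun l hl => RVal.Ge.sum _ _ fun i hi => ?_
    have hlM : l ≤ M := Nat.lt_succ_iff.1 (mem_range.1 hl)
    have hiM : i ≤ M := Nat.lt_succ_iff.1 (mem_range.1 hi)
    by_cases hlL : l < L
    · rw [if_pos hlL]
      by_cases hil : i + l ≤ M
      · rw [if_pos hil, sub_self]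
        exact RVal.Ge.zero
      · rw [if_neg hil, sub_zero]
        have h1 : v.Ge (C' - i * σ) (Θ i (Φ' l x)) :=
          hL₁ (x, l) (mem_product.2 ⟨hx, mem_range.2 hlL⟩) i (by omega)
        refine (h1.mul (hδp (i + l))).mono ?_
        have h3 := hle1 i hiM
        have h4 := hle2 l hlL
        have h5 : C' - i * σ + ((i + l : ℕ) : ℝ) * v δ = C' - i * (σ - v δ) + l * v δ := by
          push_cast
          ring
        rw [h5, hC']
        linarith
    · rw [if_neg hlL]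
      by_cases hil : i + l ≤ M
      · rw [if_pos hil, zero_sub]
        refine RVal.Ge.neg ?_
        have h1 := h.ge i (h'.mem l x hxm) (hL x hx l (not_lt.1 hlL))
        refine (h1.mul (hδp (i + l))).mono ?_
        have h3 := hle1 (i + l) hil
        have h5 : c + 1 - l * σ - i * σ + ((i + l : ℕ) : ℝ) * v δ =
            c + 1 - ((i + l : ℕ) : ℝ) * (σ - v δ) := by
          push_cast
          ring
        rw [h5]
        linarith
      · rw [if_neg hil, sub_zero]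
        exact RVal.Ge.zero

end Pool.Agent.TWEX
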