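import Pool.Agent.Lib.TWEX.Straight

/-!
# TANK W, exit of the strict case, 2: fields of nearly constant elements

`Ncl v Φ σ' x`: the norm of `Φ n` at `x` is `≤ n σ'`.
* `near_const`: if `Φ n U` is `≥ R - n σ'`, `R` not less than the distance of `U` and the algebraic
  elements over `N`, then all the elements of the closure of `N(U)` are `Ncl`;
* `dense_values`: a field `F ≥ N` which is not algebraic over the closed field `N` has a dense group
  of values.
-/

set_option autoImplicit false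

open Polynomial Finset

namespace Pool.Agent.TWEX

open Pool.Agent.H15JM (RVal)
open Pool.Agent.LU1 (VPos adj)
open Pool.Agent.D2 (Ctx0)
open Pool.Agent.D2P (mem_clI mem_adj_iff mem_adj_self)
open Pool.Agent.TWM
open Pool.Agent.TWLM (HSd)
open Pool.Agent.TWN1 (ser coeff_ser pow_ge EV)

universe u'

variable {k Ω : Type u'} [Field k] [Field Ω] [Algebra k Ω] {v : RVal Ω}
  {L N : IntermediateField k Ω} {Φ : ℕ → Ω → Ω} {σ σ' R : ℝ}

/-- The norm of `Φ n` at `x` is `≤ n σ'`. -/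
def Ncl (v : RVal Ω) (Φ : ℕ → Ω → Ω) (σ' : ℝ) (x : Ω) : Prop :=
  ∀ (n : ℕ) (b : ℝ), v.Ge b x → v.Ge (b - n * σ') (Φ n x)

theorem Ncl.of_val {x : Ω} (hx : x ≠ 0) (h : ∀ n : ℕ, v.Ge (v x - n * σ') (Φ n x)) :
    Ncl v Φ σ' x := fun n b hb => (h n).mono (by linarith [hb hx])

theorem Ncl.val {x : Ω} (h : Ncl v Φ σ' x) (n : ℕ) : v.Ge (v x - n * σ') (Φ n x) :=
  h n (v x) (fun _ => le_rfl)

theorem Ncl.zero (h : HSd L Φ) : Ncl v Φ σ' (0 : Ω) := fun n b _ => by
  rw [h.zero n]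
  exact RVal.Ge.zero

theorem Ncl.mul (h : HSd L Φ) {x y : Ω} (hxL : x ∈ L) (hyL : y ∈ L) (hx : Ncl v Φ σ' x)
    (hy : Ncl v Φ σ' y) : Ncl v Φ σ' (x * y) := by
  by_cases hx0 : x = 0
  · rw [hx0, zero_mul]
    exact Ncl.zero h
  by_cases hy0 : y = 0
  · rw [hy0, mul_zero]
    exact Ncl.zero h
  refine Ncl.of_val (mul_ne_zero hx0 hy0) fun n => ?_
  rw [h.mul n x hxL y hyL, v.map_mul hx0 hy0]
  refine RVal.Ge.sum _ _ fun i hi => ((hx.val i.1).mul (hy.val i.2)).mono (le_of_eq ?_)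
  have h1 : i.1 + i.2 = n := by simpa using hi
  rw [← h1]
  push_cast
  ring

theorem Ncl.inv (h : HSd L Φ) {x : Ω} (hxL : x ∈ L) (hx : Ncl v Φ σ' x) : Ncl v Φ σ' x⁻¹ := by
  by_cases hx0 : x = 0
  · rw [hx0, inv_zero]
    exact Ncl.zero h
  have hxi := inv_ne_zero hx0
  have hiL : x⁻¹ ∈ L := inv_mem hxL
  refine Ncl.of_val hxi fun n => ?_
  induction n using Nat.strong_induction_on with
  | _ n ih =>
    by_cases hn : n = 0
    · rw [hn, h.c0 _ hiL]
      exact fun _ => by simp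
    have h1 := h.mul n x hxL x⁻¹ hiL
    rw [mul_inv_cancel₀ hx0, h.one n hn] at h1
    rw [← add_sum_erase (HasAntidiagonal.antidiagonal n) _
      (show (0, n) ∈ HasAntidiagonal.antidiagonal n by simp), h.c0 x hxL] at h1
    have h2 : Φ n x⁻¹ = -(x⁻¹ * ∑ i ∈ (HasAntidiagonal.antidiagonal n).erase (0, n),
        Φ i.1 x * Φ i.2 x⁻¹) := by
      have h3 : x * Φ n x⁻¹ = -∑ i ∈ (HasAntidiagonal.antidiagonal n).erase (0, n),
          Φ i.1 x * Φ i.2 x⁻¹ := by
        linear_combination -h1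
      calc Φ n x⁻¹ = x⁻¹ * (x * Φ n x⁻¹) := by field_simp
        _ = _ := by rw [h3]; ring
    rw [h2]
    refine RVal.Ge.neg ?_
    have h4 : v.Ge (0 - n * σ') (∑ i ∈ (HasAntidiagonal.antidiagonal n).erase (0, n),
        Φ i.1 x * Φ i.2 x⁻¹) := by
      refine RVal.Ge.sum _ _ fun i hi => ?_
      obtain ⟨h5, h6⟩ := mem_erase.1 hi
      have h7 : i.1 + i.2 = n := by simpa using h6
      have h8 : i.2 < n := by
        by_contra h9
        apply h5
        ext
        · change i.1 = 0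
          omega
        · change i.2 = n
          omega
      refine ((hx.val i.1).mul (ih i.2 h8)).mono (le_of_eq ?_)
      rw [v.map_inv hx0, ← h7]
      push_cast
      ring
    refine ((RVal.ge_self (v := v) x⁻¹).mul h4).mono (le_of_eq ?_)
    ring

/-- The polynomials. -/
theorem Ncl.poly [IsAlgClosed Ω] (h : HSd L Φ) (hNL : N ≤ L)
    (hN : ∀ x ∈ N, ∀ l : ℕ, l ≠ 0 → Φ l x = 0) {U : Ω} (hU : U ∈ L)
    (hUσ : ∀ n : ℕ, n ≠ 0 → v.Ge (R - n * σ') (Φ n U))
    (hfar : ∀ θ : Ω, IsAlgebraic N θ → U ≠ θ ∧ v (U - θ) ≤ R) {f : Polynomial Ω}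
    (hf : f ∈ PI N) : Ncl v Φ σ' (f.eval U) := by
  intro n b hb
  by_cases h0 : f = 0
  · rw [h0, eval_zero, h.zero n]
    exact RVal.Ge.zero
  have hjet : ∀ j : ℕ, v.Ge (b - j * R) ((hasseDeriv j f).eval U) := by
    intro j
    have h1 := Roots.taylor_ge (v := v) h0 (fun θ hθ => hfar θ (isAlgebraic_root hf h0 hθ)) j
    rw [taylor_coeff] at h1
    have h2 : f.eval U ≠ 0 := fun h3 => (hfar U (isAlgebraic_root hf h0 h3)).1 rfl
    exact h1.mono (by linarith [hb h2])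
  have hfL : f ∈ PI L := PI_mono hNL hf
  have h1 : Φ n (f.eval U) = PowerSeries.coeff n (EV Φ f (PowerSeries.C U +
      (ser Φ U - PowerSeries.C U))) := by
    rw [add_sub_cancel, TWN1.EV_ser h hfL hU, coeff_ser]
  rw [h1, TWN1.coeff_EV_taylor h hfL le_rfl]
  refine RVal.Ge.sum _ _ fun j _ => RVal.Ge.sum _ _ fun i hi => ?_
  have h2 : i.1 + i.2 = n := by simpa using hi
  -- the value at `C U`
  have h3 : EV Φ (hasseDeriv j f) (PowerSeries.C U) =
      PowerSeries.C ((hasseDeriv j f).eval U) := by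
    rw [EV, Polynomial.sum, eval_eq_sum, Polynomial.sum, map_sum]
    refine sum_congr rfl fun l _ => ?_
    rw [ser_const h (hNL (hasse_mem_PI hf j l)) (hN _ (hasse_mem_PI hf j l)), map_mul, map_pow]
  rw [h3, PowerSeries.coeff_C]
  by_cases h4 : i.1 = 0
  · rw [if_pos h4]
    have h5 : i.2 = n := by omega
    rw [h5]
    refine ((hjet j).mul (pow_ge (a := R) (σ := σ') (fun m => ?_) j n)).mono (le_of_eq (by ring))
    rw [map_sub, coeff_ser, PowerSeries.coeff_C]
    split_ifs with hm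
    · rw [hm, h.c0 U hU, sub_self]
      exact RVal.Ge.zero
    · rw [sub_zero]
      exact hUσ m hm
  · rw [if_neg h4, zero_mul]
    exact RVal.Ge.zero

/-- The elements of the closure of `N(U)`. -/
theorem near_const [IsAlgClosed Ω] (h : HSd L Φ) (hL : Cld v L)
    (hn : ∀ n : ℕ, ∀ x ∈ L, ∀ b, v.Ge b x → v.Ge (b - n * σ) (Φ n x)) (hNL : N ≤ L)
    (hN : ∀ x ∈ N, ∀ l : ℕ, l ≠ 0 → Φ l x = 0) {U : Ω} (hU : U ∈ L)
    (hUσ : ∀ n : ℕ, n ≠ 0 → v.Ge (R - n * σ') (Φ n U))
    (hfar : ∀ θ : Ω, IsAlgebraic N θ → U ≠ θ ∧ v (U - θ) ≤ R) :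
    ∀ f ∈ cadj v N U, Ncl v Φ σ' f := by
  have hle : cadj v N U ≤ L := cadj_le hL hNL hU
  have hadj : ∀ f ∈ adj N U, Ncl v Φ σ' f := by
    intro f hf
    rw [mem_adj_iff, IntermediateField.mem_adjoin_simple_iff] at hf
    obtain ⟨P, Q, rfl⟩ := hf
    have hPI : ∀ P : Polynomial N, P.map (algebraMap N Ω) ∈ PI N := fun P i => by
      rw [coeff_map]
      exact (P.coeff i).2
    rw [← eval_map_algebraMap, ← eval_map_algebraMap, div_eq_mul_inv]
    exact Ncl.mul h (eval_mem (PI_mono hNL (hPI P)) hU) (inv_mem (eval_mem (PI_mono hNL (hPI Q)) hU))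
      (Ncl.poly h hNL hN hU hUσ hfar (hPI P))
      (Ncl.inv h (eval_mem (PI_mono hNL (hPI Q)) hU) (Ncl.poly h hNL hN hU hUσ hfar (hPI Q)))
  intro f hf
  by_cases hf0 : f = 0
  · rw [hf0]
    exact Ncl.zero h
  refine Ncl.of_val hf0 fun n => ?_
  obtain ⟨g, hg, h1⟩ := mem_clI.1 hf (max (v f + 1) (v f - n * σ' + n * σ))
  have hgL : g ∈ L := hle (le_clI _ hg)
  obtain ⟨h2, h3⟩ := Gt.val_eq hf0 (Gt.of_ge h1 (lt_max_of_lt_left (by linarith)))
  have h4 := hn n _ (sub_mem (hle hf) hgL) _ h1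
  rw [h.sub n (hle hf) hgL] at h4
  have e : Φ n f = (Φ n f - Φ n g) + Φ n g := by ring
  rw [e]
  refine (h4.mono ?_).add ((hadj g hg).val n |>.mono (by rw [h3]))
  linarith [le_max_right (v f + 1) (v f - n * σ' + n * σ)]

/-! ### Values -/

/-- The group of values of `F`. -/
def vgr (v : RVal Ω) (F : IntermediateField k Ω) : AddSubgroup ℝ where
  carrier := {c | ∃ f ∈ F, f ≠ 0 ∧ v f = c}
  zero_mem' := ⟨1, F.one_mem, one_ne_zero, v.map_one⟩
  add_mem' := by
    rintro a b ⟨f, hf, hf0, rfl⟩ ⟨g, hg, hg0, rfl⟩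
    exact ⟨f * g, mul_mem hf hg, mul_ne_zero hf0 hg0, v.map_mul hf0 hg0⟩
  neg_mem' := by
    rintro a ⟨f, hf, hf0, rfl⟩
    exact ⟨f⁻¹, inv_mem hf, inv_ne_zero hf0, v.map_inv hf0⟩

theorem mem_vgr {F : IntermediateField k Ω} {c : ℝ} : c ∈ vgr v F ↔ ∃ f ∈ F, f ≠ 0 ∧ v f = c :=
  Iff.rfl

/-- A discretely valued field over a closed field with the same residue field is algebraic. -/
theorem algebraic_of_discrete (h0 : Ctx0 k v) (hc : CompleteV v) (hN : Cld v N)
    {F : IntermediateField k Ω} (hNF : N ≤ F) {x : Ω} (hx : x ∈ N) (hx0 : x ≠ 0) (hxv : v x ≠ 0)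
    {γ : ℝ} (hγ : vgr v F = AddSubgroup.closure {γ}) {g : Ω} (hg : g ∈ F) : IsAlgebraic N g := by
  classical
  -- a positive generator
  obtain ⟨γ, hγ0, hγ⟩ : ∃ γ : ℝ, 0 < γ ∧ ∀ c, c ∈ vgr v F ↔ ∃ m : ℤ, (m : ℝ) * γ = c := by
    have h1 : ∀ c, c ∈ vgr v F ↔ ∃ m : ℤ, (m : ℝ) * γ = c := by
      intro c
      rw [hγ, AddSubgroup.mem_closure_singleton]
      simp only [zsmul_eq_mul]
    rcases lt_trichotomy γ 0 with h2 | h2 | h2
    · refine ⟨-γ, by linarith, fun c => (h1 c).trans ⟨?_, ?_⟩⟩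
      · rintro ⟨m, rfl⟩
        exact ⟨-m, by push_cast; ring⟩
      · rintro ⟨m, rfl⟩
        exact ⟨-m, by push_cast; ring⟩
    · exfalso
      obtain ⟨m, hm⟩ := (h1 (v x)).1 ⟨x, hNF hx, hx0, rfl⟩
      rw [h2, mul_zero] at hm
      exact hxv hm.symm
    · exact ⟨γ, h2, h1⟩
  obtain ⟨π, hπ, hπ0, hπv⟩ := (hγ γ).2 ⟨1, by rw [Int.cast_one, one_mul]⟩
  -- an element of `N` of value `e γ`
  obtain ⟨t, e, ht, ht0, he, htv⟩ : ∃ (t : Ω) (e : ℕ), t ∈ N ∧ t ≠ 0 ∧ 0 < e ∧ v t = e * γ := by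
    obtain ⟨m, hm⟩ := (hγ (v x)).1 ⟨x, hNF hx, hx0, rfl⟩
    have hm0 : m ≠ 0 := by
      rintro rfl
      rw [Int.cast_zero, zero_mul] at hm
      exact hxv hm.symm
    rcases lt_trichotomy m 0 with h1 | h1 | h1
    · refine ⟨x⁻¹, m.natAbs, inv_mem hx, inv_ne_zero hx0, Int.natAbs_pos.2 hm0, ?_⟩
      rw [v.map_inv hx0, ← hm, Nat.cast_natAbs, abs_of_neg h1]
      push_cast
      ring
    · exact absurd h1 hm0
    · refine ⟨x, m.natAbs, hx, hx0, Int.natAbs_pos.2 hm0, ?_⟩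
      rw [← hm, Nat.cast_natAbs, abs_of_pos h1]
  set V : Submodule N Ω := Submodule.span N ((((range e).image fun i => π ^ i : Finset Ω)) : Set Ω)
    with hV
  have hVc : CldM v V := CldM.span hc hN _
  -- `F` is in `V`
  have hFV : ∀ f ∈ F, f ∈ V := by
    intro f hf
    refine hVc f ?_
    -- the approximations
    have key : ∀ n : ℕ, ∃ s ∈ V, s ∈ F ∧ v.Ge (v f + n * γ) (f - s) := by
      intro n
      induction n with
      | zero =>
        refine ⟨0, V.zero_mem, F.zero_mem, ?_⟩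
        rw [sub_zero]
        exact fun _ => by simp
      | succ n ih =>
        obtain ⟨s, hs, hsF, h1⟩ := ih
        by_cases h2 : f - s = 0
        · exact ⟨s, hs, hsF, by rw [h2]; exact RVal.Ge.zero⟩
        obtain ⟨m, hm⟩ := (hγ (v (f - s))).1 ⟨f - s, sub_mem hf hsF, h2, rfl⟩
        -- the monomial
        obtain ⟨i, a, hi, hia⟩ : ∃ (i : ℕ) (a : ℤ), i < e ∧ m = a * e + i := by
          refine ⟨(m % e).toNat, m / e, ?_, ?_⟩
          · have := Int.emod_lt_of_pos m (by exact_mod_cast he : (0 : ℤ) < e)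
            have h3 := Int.emod_nonneg m (by exact_mod_cast he.ne' : (e : ℤ) ≠ 0)
            omega
          · have h3 := Int.emod_nonneg m (by exact_mod_cast he.ne' : (e : ℤ) ≠ 0)
            have h4 := Int.mul_ediv_add_emod m e
            rw [Int.toNat_of_nonneg h3]
            linarith [mul_comm (e : ℤ) (m / e)]
        set μ : Ω := t ^ a * π ^ i with hμ
        have hμ0 : μ ≠ 0 := mul_ne_zero (zpow_ne_zero _ ht0) (pow_ne_zero _ hπ0)
        have hμv : v μ = v (f - s) := by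
          rw [hμ, v.map_mul (zpow_ne_zero _ ht0) (pow_ne_zero _ hπ0), v.map_zpow ht0,
            v.map_pow hπ0, htv, hπv, ← hm, hia]
          push_cast
          ring
        have hμF : μ ∈ F := mul_mem (zpow_mem (hNF ht) _) (pow_mem hπ _)
        have hμV : ∀ c : N, (c : Ω) * μ ∈ V := by
          intro c
          have h3 : (c : Ω) * μ = ((c * ⟨t ^ a, zpow_mem ht _⟩ : N)) • π ^ i := by
            rw [hμ, Algebra.smul_def]
            change (c : Ω) * (t ^ a * π ^ i) = ((c : Ω) * t ^ a) * π ^ i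
            ring
          rw [h3]
          refine V.smul_mem _ (Submodule.subset_span ?_)
          rw [coe_image]
          exact ⟨i, by simpa using hi, rfl⟩
        have hq0 : (f - s) / μ ≠ 0 := div_ne_zero h2 hμ0
        have hqv : v ((f - s) / μ) = 0 := by
          rw [div_eq_mul_inv, v.map_mul h2 (inv_ne_zero hμ0), v.map_inv hμ0, hμv]
          ring
        obtain ⟨c, hc0, hc1⟩ := h0.res _ hq0 hqv
        have hcN : algebraMap k Ω c ∈ N := N.algebraMap_mem c
        refine ⟨s + algebraMap k Ω c * μ, V.add_mem hs (hμV ⟨_, hcN⟩),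
          add_mem hsF (mul_mem (hNF hcN) hμF), ?_⟩
        intro h5
        have h6 : f - (s + algebraMap k Ω c * μ) = ((f - s) / μ - algebraMap k Ω c) * μ := by
          field_simp
          ring
        have h7 : (f - s) / μ - algebraMap k Ω c ≠ 0 := by
          intro h8
          rw [h6, h8, zero_mul] at h5
          exact h5 rfl
        have h8 : 0 < v ((f - s) / μ - algebraMap k Ω c) := hc1 h7
        obtain ⟨m', hm'⟩ := (hγ (v (f - (s + algebraMap k Ω c * μ)))).1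
          ⟨_, sub_mem hf (add_mem hsF (mul_mem (hNF hcN) hμF)), h5, rfl⟩
        have h9 : v (f - (s + algebraMap k Ω c * μ)) =
            v ((f - s) / μ - algebraMap k Ω c) + v (f - s) := by
          rw [h6, v.map_mul h7 hμ0, hμv]
        have h10 : (m : ℝ) * γ < m' * γ := by
          rw [hm, hm', h9]
          linarith
        have h11 : m < m' := by
          have := lt_of_mul_lt_mul_right h10 hγ0.le
          exact_mod_cast this
        have h12 : ((m : ℝ) + 1) * γ ≤ m' * γ :=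
          mul_le_mul_of_nonneg_right (by exact_mod_cast h11) hγ0.le
        have h13 := h1 h2
        push_cast
        linarith
    intro c
    obtain ⟨n, hn⟩ := exists_nat_gt ((c - v f) / γ)
    rw [div_lt_iff₀ hγ0] at hn
    obtain ⟨s, hs, -, h1⟩ := key n
    exact ⟨s, hs, h1.mono (by linarith)⟩
  -- finiteness
  have hfg : V.FG := ⟨_, rfl⟩
  have hNoe : IsNoetherian N V := isNoetherian_of_fg_of_noetherian V hfg
  have hle : Subalgebra.toSubmodule (Algebra.adjoin N {g}) ≤ V := by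
    rw [Algebra.adjoin_eq_span, Submodule.span_le]
    intro y hy
    refine hFV y ?_
    have h1 : Submonoid.closure {g} ≤ F.toSubalgebra.toSubmonoid :=
      (Submonoid.closure_le).2 (by simpa using hg)
    exact h1 hy
  have hNoe' : IsNoetherian N (Subalgebra.toSubmodule (Algebra.adjoin N {g})) :=
    isNoetherian_of_le hle
  exact (isIntegral_of_submodule_noetherian _ hNoe' g
    (Algebra.self_mem_adjoin_singleton N g)).isAlgebraic

/-- **Dense values.** -/
theorem dense_values (h0 : Ctx0 k v) (hc : CompleteV v) (hN : Cld v N)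
    {F : IntermediateField k Ω} (hNF : N ≤ F) {x : Ω} (hx : x ∈ N) (hx0 : x ≠ 0) (hxv : v x ≠ 0)
    {g : Ω} (hg : g ∈ F) (htr : ¬ IsAlgebraic N g) {a b : ℝ} (hab : a < b) :
    ∃ c ∈ F, c ≠ 0 ∧ a < v c ∧ v c < b := by
  rcases AddSubgroup.dense_or_cyclic (vgr v F) with h1 | ⟨γ, hγ⟩
  · obtain ⟨y, hy, h2⟩ := h1.exists_mem_open isOpen_Ioo (Set.nonempty_Ioo.2 hab)
    obtain ⟨c, hc, hc0, rfl⟩ := mem_vgr.1 hy
    exact ⟨c, hc, hc0, h2.1, h2.2⟩
  · exact absurd (algebraic_of_discrete h0 hc hN hNF hx hx0 hxv hγ hg) htr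

end Pool.Agent.TWEX
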