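import Pool.Agent.Lib.TWEX.Opn
import Pool.Agent.Lib.TWMF.S3

/-!
# TANK W, exit of the strict case: embedding of a dense model into the henselization

* `exists_emb`: a finitely generated field `E₀` with bounded distortion in the closure of `K₀` embeds
  into the henselization of `K₀`, near the identity (any relative precision);
* `exists_model`: if `E₀` is dense in the closure of `K₀`, of the same transcendence degree, the image
  has the henselization of `K₀`.
-/

set_option autoImplicit false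

open Polynomial

namespace Pool.Agent.TWEX

open Pool.Agent.H15JM (RVal)
open Pool.Agent.LU1 (VPos adj)
open Pool.Agent.LUC (Cl clF)
open Pool.Agent.D2 (Ctx0)
open Pool.Agent.D2P (hen clI mem_clI mem_hen le_hen hen_hen hen_mono hen_le mem_adj_self adj_le)
open Pool.Agent.TW
open Pool.Agent.TWM (CompleteV le_clI clI_mono clI_clI clI_hen OI pbasis_clI cld_clI PI ge_pow
  ge_sub_comm Gt)

universe u

variable {k Ω : Type u} [Field k] [Field Ω] [Algebra k Ω] {v : RVal Ω}

section Bd

variable [IsAlgClosed k] {p : ℕ} [Fact p.Prime] [CharP k p] [CharP Ω p]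

/-- **Embedding near the identity.** -/
theorem exists_emb (h0 : Ctx0 k v) (hc : CompleteV v) {K₀ E₀ : IntermediateField k Ω}
    (hE : E₀.FG) (hBD : BD p v E₀) (hle : E₀ ≤ clI v K₀) (η : ℝ) :
    ∃ e : E₀ →ₐ[k] Ω, (∀ a, e a ∈ hen v K₀) ∧ ∀ a : E₀, v.Ge (v (a : Ω) + η) (e a - a) := by
  classical
  obtain ⟨n, s, hs, C, hC⟩ := hBD
  have hp2 : (2 : ℝ) ≤ p := by exact_mod_cast (Fact.out : p.Prime).two_le
  have ho : OI p v E₀ s (max C 0) := (OI.of_orth_pb hC hs).mono le_rfl (le_max_left _ _)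
  have hs0 : ∀ i, s i ≠ 0 := by
    intro i hi
    let β : Fin n → Fin p := fun j => if j = i then ⟨1, (Fact.out : p.Prime).one_lt⟩ else
      ⟨0, (Fact.out : p.Prime).pos⟩
    have hm : mon s β = 0 := by
      refine Finset.prod_eq_zero (Finset.mem_univ i) ?_
      rw [hi]
      simp [β]
    have h2 := hs.ind (fun γ => if γ = β then 1 else 0) (fun γ => by
      split_ifs
      exacts [one_mem _, zero_mem _]) (by
      rw [pcomb, Finset.sum_eq_single β]
      · rw [hm, mul_zero]
      · intro γ _ hγ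
        rw [if_neg hγ, zero_pow (Fact.out : p.Prime).ne_zero, zero_mul]
      · exact fun h => absurd (Finset.mem_univ β) h) β
    rw [if_pos rfl] at h2
    exact one_ne_zero h2
  set κ₁ : ℝ := max η (2 * max C 0 + 1) with hκ₁
  have h1 : η ≤ κ₁ := le_max_left _ _
  have h2 : 2 * max C 0 + 1 ≤ κ₁ := le_max_right _ _
  have h3 : 0 ≤ max C 0 := le_max_right _ _
  -- the new coordinates
  choose s' hs'K hs' using fun i => mem_clI.1 (hle (hs.mem i)) (v (s i) + (κ₁ + max C 0))
  have hdt : TWMF.Stb.Dt p v E₀ (clI v K₀) s s' (max C 0) (κ₁ + max C 0) κ₁ :=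
    { hc := hc
      cld := cld_clI v K₀
      le := hle
      ht := hs
      ho := ho
      hn :=
        { ne := hs0
          mem := fun i => le_clI K₀ (hs'K i)
          near := fun i => ge_sub_comm (hs' i)
          pos := by linarith }
      h0 := h3
      h1 := by nlinarith
      h2 := le_rfl }
  obtain ⟨e, he, hes, hnear⟩ := hdt.exists_hom h0
  refine ⟨e, fun a => ?_, fun a => (hnear a _ (RVal.ge_self (v := v) (a : Ω))).mono (by linarith)⟩
  rw [mem_hen]
  refine ⟨mem_clI.1 (he a), ?_⟩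
  -- separability over `k(s')`
  have hsm : ∀ i, s i ∈ E₀ := hs.mem
  have hle' : kr k s ≤ E₀ := by
    rw [kr, IntermediateField.adjoin_le_iff]
    rintro _ ⟨i, rfl⟩
    exact hsm i
  have htr := (hs.trdeg p hE).1
  have hai : AlgebraicIndependent k s := (ho.mono hle' le_rfl).algInd hs0
  have halg : ∀ a ∈ E₀, IsAlgebraic (kr k s) a := fun a ha =>
    TWM.alg_of_trdeg hai hsm (fun i => IntermediateField.subset_adjoin k (Set.range s) ⟨i, rfl⟩)
      (by rw [htr, Fintype.card_fin]) ha
  have hsep : ∀ a ∈ E₀, IsSeparable (kr k s) a := TWM.sep_of_ind (p := p) (t := s) hle' halg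
    (fun u hu => TWM.span_adjoin (p := p) (t := s) rfl hu)
    (fun c hc h0 => ho.ind hs0 c hc h0)
  -- the polynomial
  obtain ⟨f, hf, hfa⟩ : ∃ f : Polynomial (kr k s), f.Separable ∧ aeval (a : Ω) f = 0 :=
    ⟨minpoly (kr k s) (a : Ω), hsep a a.2, minpoly.aeval _ _⟩
  -- the restriction of `e` to `k(s)`
  let φ : kr k s →ₐ[k] Ω := e.comp (IntermediateField.inclusion hle')
  have hφ : ∀ x, φ x ∈ K₀ := by
    intro x
    have h4 : kr k s ≤ (K₀.comap e).map (E₀.val) := by
      rw [kr, IntermediateField.adjoin_le_iff]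
      rintro _ ⟨i, rfl⟩
      refine ⟨⟨s i, hsm i⟩, ?_, rfl⟩
      show e ⟨s i, hsm i⟩ ∈ K₀
      rw [hes i (hsm i)]
      exact hs'K i
    obtain ⟨y, hy, hyx⟩ := h4 x.2
    have h5 : y = IntermediateField.inclusion hle' x := Subtype.ext hyx
    show e (IntermediateField.inclusion hle' x) ∈ K₀
    rw [← h5]
    exact hy
  let φ₀ : kr k s →+* K₀ := (φ : kr k s →+* Ω).codRestrict K₀.toSubfield.toSubring hφ
  have h6 : (f.map φ₀).Separable := hf.map
  show (minpoly K₀ (e a)).Separable
  refine h6.of_dvd (minpoly.dvd K₀ (e a) ?_)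
  -- the root
  have h8 : eval a (f.map (IntermediateField.inclusion hle').toRingHom) = 0 := by
    apply Subtype.ext
    have h9 : ((eval a (f.map (IntermediateField.inclusion hle').toRingHom) : E₀) : Ω) =
        aeval (a : Ω) f := by
      rw [eval_map, aeval_def]
      exact hom_eval₂ f (IntermediateField.inclusion hle').toRingHom E₀.val.toRingHom a
    rw [h9, hfa]
    rfl
  have h7 : eval₂ (e : E₀ →+* Ω) (e a)
      (f.map (IntermediateField.inclusion hle').toRingHom) = 0 := by
    have h10 := eval₂_at_apply (p := f.map (IntermediateField.inclusion hle').toRingHom)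
      (e : E₀ →+* Ω) a
    rw [h8, map_zero] at h10
    exact h10
  rw [eval₂_map] at h7
  rw [aeval_def, eval₂_map]
  exact h7

omit [IsAlgClosed k] [CharP k p] [Fact p.Prime] [CharP Ω p] in
/-- Homomorphisms and generators. -/
theorem map_mem_of_gen {E₀ M : IntermediateField k Ω} (e : E₀ →ₐ[k] Ω) {m : ℕ} {g : Fin m → Ω}
    (hg : kr k g = E₀) (hgE : ∀ i, g i ∈ E₀) (h : ∀ i, e ⟨g i, hgE i⟩ ∈ M) (a : E₀) : e a ∈ M := by
  have h4 : kr k g ≤ (M.comap e).map (E₀.val) := by
    rw [kr, IntermediateField.adjoin_le_iff]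
    rintro _ ⟨i, rfl⟩
    exact ⟨⟨g i, hgE i⟩, h i, rfl⟩
  have ha : (a : Ω) ∈ kr k g := by
    rw [hg]
    exact a.2
  obtain ⟨y, hy, hyx⟩ := h4 ha
  have h5 : y = a := Subtype.ext hyx
  rw [← h5]
  exact hy

/-- **A model in the henselization.** -/
theorem exists_model (h0 : Ctx0 k v) (hc : CompleteV v) {K₀ E₀ : IntermediateField k Ω}
    (hK : K₀.FG) (hE : E₀.FG) (hBD : BD p v K₀) (hcl : clI v K₀ = clI v E₀)
    (htr : Algebra.trdeg k E₀ = Algebra.trdeg k K₀) (η : ℝ) :
    ∃ e : E₀ →ₐ[k] Ω, (∀ a, e a ∈ hen v K₀) ∧ (∀ a : E₀, v.Ge (v (a : Ω) + η) (e a - a)) ∧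
      hen v e.fieldRange = hen v K₀ := by
  classical
  have hBDE := bd_of_dense hc hK hE hBD hcl htr
  -- generators
  obtain ⟨G, hG⟩ := id hE
  let g : Fin G.card → Ω := fun i => (G.equivFin.symm i : Ω)
  have hg : Set.range g = (G : Set Ω) := by
    ext x
    constructor
    · rintro ⟨i, rfl⟩
      exact (G.equivFin.symm i).2
    · intro hx
      exact ⟨G.equivFin ⟨x, hx⟩, by simp [g]⟩
  have hkg : kr k g = E₀ := by rw [kr, hg, hG]
  obtain ⟨δ, hδ⟩ := hen_eq_of_near' h0 hc hK hBD (T := g) (by rw [hkg]; exact hcl)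
    (by rw [hkg]; exact htr)
  obtain ⟨Y, hY⟩ := (G.image fun x => δ - v x).bddAbove
  obtain ⟨e, he, hne⟩ := exists_emb h0 hc hE hBDE (K₀ := K₀) (by rw [hcl]; exact le_clI _)
    (max η Y)
  refine ⟨e, he, fun a => (hne a).mono (by linarith [le_max_left η Y]), ?_⟩
  have hgE : ∀ i, g i ∈ E₀ := fun i => by
    rw [← hkg]
    exact mem_kr g i
  refine hδ _ ?_ ?_ ⟨fun i => e ⟨g i, hgE i⟩, fun i => ⟨_, rfl⟩, fun i => ?_⟩
  · have h1 : e.fieldRange = kr k fun i => e ⟨g i, hgE i⟩ := by
      apply le_antisymm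
      · rintro _ ⟨a, rfl⟩
        exact map_mem_of_gen e hkg hgE (fun i => mem_kr (fun i => e ⟨g i, hgE i⟩) i) a
      · rw [kr, IntermediateField.adjoin_le_iff]
        rintro _ ⟨i, rfl⟩
        exact ⟨_, rfl⟩
    rw [h1]
    exact IntermediateField.fg_adjoin_of_finite (Set.finite_range _)
  · rintro _ ⟨a, rfl⟩
    exact he a
  · refine ge_sub_comm ((hne _).mono ?_)
    have h1 := hY (Finset.mem_coe.2 (Finset.mem_image_of_mem (fun x => δ - v x)
      (G.equivFin.symm i).2))
    have h2 := le_max_right η Y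
    show δ ≤ v (g i) + max η Y
    have h3 : v (g i) = v ((G.equivFin.symm i : Ω)) := rfl
    linarith

end Bd

end Pool.Agent.TWEX
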