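import Pool.Agent.Lib.TWEX.Cmp

/-!
# TANK W: evaluation of a system near the identity

`EvA v K σ κ Θ`: for `δ ∈ K` of value `< σ`, near `σ`, there is an automorphism of `K` near the
identity, near the truncated sums of `Θ` at `δ` on a finite set.
-/

set_option autoImplicit false

open Finset

namespace Pool.Agent.TWEX

open Pool.Agent.H15JM (RVal)
open Pool.Agent.D2 (Ctx0)
open Pool.Agent.TW (mon pcomb PBasis)
open Pool.Agent.TWM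
open Pool.Agent.TWLM (HSd Oi Arc)

universe u

namespace Iso

variable {k Ω : Type u} [Field k] [Field Ω] [Algebra k Ω] {v : RVal Ω}
  {K : IntermediateField k Ω} {Θ : ℕ → Ω → Ω} {p n : ℕ} {s : Fin n → Ω} {σ μ e : ℝ}

/-- Automorphisms of `K` near the evaluations of `Θ`. -/
def EvA (v : RVal Ω) (K : IntermediateField k Ω) (σ κ : ℝ) (Θ : ℕ → Ω → Ω) : Prop :=
  ∀ T₀ : Finset Ω, (∀ x ∈ T₀, x ∈ K) → ∀ c : ℝ, ∃ M₀ : ℕ, ∀ M : ℕ, M₀ ≤ M →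
    ∃ ρ₀ : ℝ, ρ₀ < σ ∧ ∀ d ∈ K, d ≠ 0 → ρ₀ < v d → v d < σ → ∃ θ : K ≃ₐ[k] K,
      (∀ (x : K) (b : ℝ), v.Ge b (x : Ω) → v.Ge (b + κ) ((θ x : Ω) - x)) ∧
      ∀ (x : Ω) (hx : x ∈ K), x ∈ T₀ →
        v.Ge c ((θ ⟨x, hx⟩ : Ω) - ∑ l ∈ range (M + 1), Θ l x * d ^ l)

/-- **Evaluation.** -/
theorem eva [hp : Fact p.Prime] [CharP Ω p] [IsAlgClosed k] (h0 : Ctx0 k v) (hc : CompleteV v)
    (hK : Cld v K) (h : NI v K σ μ Θ) (ho : Oi v K σ Θ) (hs : PBasis p K s) (hoi : OI p v K s e)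
    (hne : ∀ i, s i ≠ 0) (he : 0 ≤ e) (he8 : 8 * e ≤ μ) : EvA v K σ (3 * μ / 8) Θ := by
  intro T₀ hT c
  have hp2 : (2 : ℝ) ≤ p := by exact_mod_cast hp.out.two_le
  have hμ := h.pos
  obtain ⟨M₀, h1⟩ := cmp (lam := 3 * μ / 8) h ho hs hoi (by linarith) (by nlinarith) (by nlinarith)
    T₀ hT c
  refine ⟨M₀, fun M hM => ?_⟩
  obtain ⟨ρ₀, hρ, c', h2⟩ := h1 M hM
  have hM1 : (0 : ℝ) < (M : ℝ) + 1 := by positivity
  refine ⟨max ρ₀ (σ - μ / 2 / (M + 1)), max_lt hρ (by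
    have : 0 < μ / 2 / ((M : ℝ) + 1) := by positivity
    linarith), fun d hd hd0 hd1 hd2 => ?_⟩
  have hdρ : v.Ge ρ₀ d := fun _ => ((le_max_left _ _).trans_lt hd1).le
  have hdρ' : v.Ge (σ - μ / 2 / (M + 1)) d := fun _ => ((le_max_right _ _).trans_lt hd1).le
  have hn : TWMF.Stb.Nrs v K s (fun j => tru Θ M d (s j)) (μ / 2) := by
    refine ⟨hne, fun j => sum_mem fun l _ => mul_mem (h.hsd.mem l _ (hs.mem j)) (pow_mem hd l),
      fun j => ?_, by linarith⟩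
    have e1 : tru Θ M d (s j) - s j = ∑ l ∈ range M, Θ (l + 1) (s j) * d ^ (l + 1) := by
      unfold tru
      rw [sum_range_succ', h.hsd.c0 _ (hs.mem j)]
      ring
    rw [e1]
    refine RVal.Ge.sum _ _ fun l hl => ((h.nr (l + 1) (Nat.succ_ne_zero l) _ (hs.mem j) _
      (v.ge_self _)).mul (ge_pow hdρ' (l + 1))).mono ?_
    have h3 : ((l + 1 : ℕ) : ℝ) ≤ (M : ℝ) + 1 := by
      have := mem_range.1 hl
      exact_mod_cast (by omega : l + 1 ≤ M + 1)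
    have h4 : ((l + 1 : ℕ) : ℝ) * (μ / 2 / (M + 1)) ≤ μ / 2 := by
      rw [mul_div_assoc', div_le_iff₀ hM1]
      nlinarith
    linarith
  have hD : TWMF.Stb.Dt p v K K s (fun j => tru Θ M d (s j)) e (μ / 2) (3 * μ / 8) :=
    ⟨hc, hK, le_rfl, hs, hoi, hn, he, by nlinarith, by linarith⟩
  obtain ⟨θ, h3, h4⟩ := hD.exists_aut h0
  refine ⟨θ, h4, fun x hx hxT => ?_⟩
  exact h2 d hdρ (K.val.comp (θ : K →ₐ[k] K)) (fun x b hb => h4 x b hb) (fun j hj => by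
    show v.Ge c' ((θ ⟨s j, hj⟩ : Ω) - tru Θ M d (s j))
    rw [h3 j hj, sub_self]
    exact RVal.Ge.zero) x hxT hx

end Iso

end Pool.Agent.TWEX
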