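import Pool.Agent.Lib.TWEX.IsoS

/-!
# TANK W: isogeny of strict arcs, T: the class `SX0` is stable under isogeny

`SX0.up`, with the record `UpR`; `SX0.iso`, without the record.
-/

set_option autoImplicit false

open Finset

namespace Pool.Agent.TWEX

open Pool.Agent.H15JM (RVal)
open Pool.Agent.LU1 (adj)
open Pool.Agent.D2 (Ctx0)
open Pool.Agent.D2P (clI mem_clI mem_adj_self adj_le)
open Pool.Agent.TW (PBasis adj_eq)
open Pool.Agent.TWM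
open Pool.Agent.TWII (PG LP)
open Pool.Agent.TWLM (HSd Oi Arc)
open Pool.Agent.TWN1 (ser coeff_ser ahom ahom_apply)

universe u

namespace Iso

variable {k Ω : Type u} [Field k] [Field Ω] [Algebra k Ω] {v : RVal Ω}
  {K : IntermediateField k Ω} {Φ Θ : ℕ → Ω → Ω} {p : ℕ} {σ ν : ℝ} {α x y : Ω}
  [hp : Fact p.Prime] [CharP Ω p]

omit hp [CharP Ω p] in
theorem ge_root {x : Ω} {b : ℝ} (hp0 : (0 : ℝ) < p) (h : v.Ge b (x ^ p)) : v.Ge (b / p) x := by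
  intro h0
  have h1 := h (pow_ne_zero p h0)
  rw [v.map_pow h0] at h1
  rw [div_le_iff₀ hp0, mul_comm]
  exact h1

/-- Elements of `K(α)` are polynomials in `α`. -/
theorem adj_poly (hα : α ^ p ∈ K) {u : Ω} (hu : u ∈ adj K α) :
    ∃ F : Polynomial K, u = Polynomial.aeval α F := by
  have hu' : u ∈ adj K α := hu
  rw [adj_eq, IntermediateField.mem_restrictScalars,
    IntermediateField.mem_adjoin_simple_iff] at hu'
  obtain ⟨A, B, rfl⟩ := hu'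
  have hBm : Polynomial.aeval α B ∈ adj K α := by
    rw [adj_eq, IntermediateField.mem_restrictScalars]
    exact (IntermediateField.mem_adjoin_simple_iff K _).2 ⟨B, 1, by simp⟩
  have hBp : (Polynomial.aeval α B) ^ p ∈ K := adj_pow_mem hα hBm
  refine ⟨Polynomial.C (⟨_, inv_mem hBp⟩ : K) * (A * B ^ (p - 1)), ?_⟩
  rw [map_mul, map_mul, map_pow, Polynomial.aeval_C]
  show _ = ((Polynomial.aeval α B) ^ p)⁻¹ * _
  by_cases hB : Polynomial.aeval α B = 0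
  · rw [hB, div_zero, zero_pow hp.out.ne_zero, inv_zero, zero_mul]
  · have h2 : Polynomial.aeval α B ^ p =
        Polynomial.aeval α B * Polynomial.aeval α B ^ (p - 1) := by
      rw [← pow_succ', Nat.sub_add_cancel hp.out.one_le]
    rw [h2]
    field_simp

omit [CharP Ω p] in
/-- The criterion, with linear decay. -/
theorem crit_lin {a : Ω} (hoc : OC v σ Φ a) {μ' : ℝ} (hμ' : 0 < μ')
    (hcr : ∀ m : ℕ, m ≠ 0 → ∃ g ∈ K, v.Ge (ν - m * σ + μ') (Φ m a - g ^ p)) :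
    ∃ ρ₁ : ℝ, ρ₁ < σ ∧ ∃ H : ℕ → Ω, (∀ m, H m ∈ K) ∧
      (∀ m : ℕ, m ≠ 0 → v.Ge (ν + μ' / 2 - m * ρ₁) (Φ m a - H m ^ p)) ∧
      ∀ r : ℝ, ∃ L : ℕ, ∀ j : ℕ, L ≤ j → v.Ge (r - j * ρ₁) (Φ j a - H j ^ p) := by
  classical
  obtain ⟨ρ', hρ', B, hB⟩ := hoc
  have hδ : 0 < (σ - ρ') / 2 := by linarith
  obtain ⟨N, hN⟩ := exists_nat_ge ((ν + μ' / 2 - B) / ((σ - ρ') / 2))
  rw [div_le_iff₀ hδ] at hN
  have hNpos : (0 : ℝ) < (N : ℝ) + 1 := by positivity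
  set ρ₁ : ℝ := max ((ρ' + σ) / 2) (σ - μ' / (2 * (N + 1))) with hρ₁
  have hr1 : ρ₁ < σ := by
    rw [hρ₁]
    refine max_lt (by linarith) ?_
    have : 0 < μ' / (2 * ((N : ℝ) + 1)) := by positivity
    linarith
  have hr2 : ρ' < ρ₁ := lt_of_lt_of_le (by linarith) (le_max_left _ _)
  have hr3 : (ρ' + σ) / 2 ≤ ρ₁ := le_max_left _ _
  have hr4 : σ - μ' / (2 * (N + 1)) ≤ ρ₁ := le_max_right _ _
  have h1 : ∀ m : ℕ, ∃ g ∈ K, (m ≠ 0 → m < N → v.Ge (ν - m * σ + μ') (Φ m a - g ^ p)) ∧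
      (N ≤ m → g = 0) := by
    intro m
    by_cases hm : m ≠ 0 ∧ m < N
    · obtain ⟨g, hg, h2⟩ := hcr m hm.1
      exact ⟨g, hg, fun _ _ => h2, fun h3 => absurd hm.2 (not_lt.2 h3)⟩
    · exact ⟨0, K.zero_mem, fun h2 h3 => absurd ⟨h2, h3⟩ hm, fun _ => rfl⟩
  choose H hH h2 h3 using h1
  refine ⟨ρ₁, hr1, H, hH, fun m hm => ?_, fun r => ?_⟩
  · by_cases hmN : m < N
    · refine (h2 m hm hmN).mono ?_
      have h1 : (m : ℝ) ≤ N + 1 := by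
        have : (m : ℝ) < N := by exact_mod_cast hmN
        linarith
      have h2 : (m : ℝ) * (σ - ρ₁) ≤ (N + 1) * (μ' / (2 * (N + 1))) :=
        mul_le_mul h1 (by linarith) (by linarith) hNpos.le
      have h3 : ((N : ℝ) + 1) * (μ' / (2 * (N + 1))) = μ' / 2 := by
        field_simp
      rw [h3] at h2
      linarith
    · rw [h3 m (not_lt.1 hmN), zero_pow hp.out.ne_zero, sub_zero]
      refine (hB m).mono ?_
      have h3 : (N : ℝ) ≤ m := by exact_mod_cast not_lt.1 hmN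
      have h4 := mul_le_mul_of_nonneg_right h3 hδ.le
      have h5 := mul_le_mul_of_nonneg_left hr3 (Nat.cast_nonneg (α := ℝ) m)
      nlinarith
  · have hd : 0 < ρ₁ - ρ' := by linarith
    obtain ⟨M, hM⟩ := exists_nat_ge ((r - B) / (ρ₁ - ρ'))
    rw [div_le_iff₀ hd] at hM
    refine ⟨max M N, fun j hj => ?_⟩
    have h1 : M ≤ j := (le_max_left _ _).trans hj
    rw [h3 j ((le_max_right _ _).trans hj), zero_pow hp.out.ne_zero, sub_zero]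
    refine (hB j).mono ?_
    have h4 : (M : ℝ) ≤ j := by exact_mod_cast h1
    have h5 := mul_le_mul_of_nonneg_right h4 hd.le
    nlinarith

/-- The record. -/
structure UpR (p : ℕ) (v : RVal Ω) (K : IntermediateField k Ω) (σ : ℝ) (Φ : ℕ → Ω → Ω) (α : Ω)
    (ψ : K ≃ₐ[k] K) (Φ' Θ Ψ : ℕ → Ω → Ω) (κ ρ₁ μ e : ℝ) (n : ℕ) (s : Fin (n + 1) → Ω) (g : Ω) :
    Prop where
  kpos : 0 < κ
  knear : ∀ x : K, ∀ b : ℝ, v.Ge b (x : Ω) → v.Ge (b + κ) ((ψ x : Ω) - x)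
  sx2 : SX0 p v K σ (conj ψ Φ)
  pb : PBasis p K s
  orth : OI p v K s e
  ne : ∀ i, s i ≠ 0
  epos : 0 < e
  e8 : 8 * e ≤ μ
  gm : g ∈ K
  s0 : s 0 = (α - g) ^ p
  lt : ρ₁ < σ
  ni : NI v K ρ₁ μ Θ
  comp : ∀ n, ∀ x ∈ K, ∑ i ∈ antidiagonal n, Θ i.1 (Φ' i.2 x) = conj ψ Φ n x
  pw : ∀ l, l ≠ 0 → ∃ y ∈ K, Φ' l (s 0) = y ^ p
  sx' : SX0 p v K σ Φ'
  near : ∀ x ∈ K, ∀ b : ℝ, v.Ge b x → ∀ l : ℕ, v.Ge (b + μ - l * σ) (Φ' l x - Φ l x)
  root : ∀ x ∈ cadj v K α, x ^ p ∈ K ∧ ∀ l, Ψ l x ^ p = Φ' l (x ^ p)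
  sx : SX0 p v (cadj v K α) (σ / p) Ψ

/-- From the correction to `K(α)`. -/
theorem sx_root [IsAlgClosed Ω] (hc : CompleteV v) {X : ℕ → Ω → Ω} (hX : SX0 p v K σ X)
    (hα : α ^ p ∈ K) (hoc : OC v σ X (α ^ p)) (hpow : ∀ l, l ≠ 0 → ∃ y ∈ K, X l (α ^ p) = y ^ p) :
    ∃ Ψ : ℕ → Ω → Ω, SX0 p v (cadj v K α) (σ / p) Ψ ∧
      ∀ x ∈ cadj v K α, x ^ p ∈ K ∧ ∀ l, Ψ l x ^ p = X l (x ^ p) := by
  classical
  have hL := cadj_eq_adj hc hX.kn.cld hα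
  have hp0 : (0 : ℝ) < p := by exact_mod_cast hp.out.pos
  have hK := (mem_adj_self K α).2
  have hαL := (mem_adj_self K α).1
  have hco := coef_adj hX.arc.toHSd hα (fun l => by
    by_cases hl : l = 0
    · exact ⟨α, hαL, by rw [hl, hX.arc.c0 _ hα]⟩
    · obtain ⟨y, hy, h1⟩ := hpow l hl
      exact ⟨y, hK hy, h1⟩)
  obtain ⟨Ψ, h1, h2, h3⟩ := arc_root hX.arc hX.oi (fun x hx => adj_pow_mem hα hx) hco
  refine ⟨Ψ, ⟨hX.kn.up hc hα, by rw [hL]; exact h1, by rw [hL]; exact h2, ?_⟩, fun x hx => ?_⟩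
  · have hroot : ∀ x ∈ adj K α, OC v σ X (x ^ p) → OC v (σ / p) Ψ x := by
      rintro x hx ⟨ρ, hρ, B, hB⟩
      refine ⟨ρ / p, (div_lt_div_iff_of_pos_right hp0).2 hρ, B / p, fun l => ?_⟩
      have h4 := hB l
      rw [← h3 x hx l] at h4
      refine (ge_root hp0 h4).mono (le_of_eq ?_)
      ring
    intro x hx b
    rw [hL] at hx ⊢
    obtain ⟨F, rfl⟩ := adj_poly hα hx
    have hap : ∀ i : ℕ, ∃ c ∈ K, OC v σ X c ∧ v.Ge (b - v (α ^ i)) ((F.coeff i : Ω) - c) := fun i =>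
      hX.oc _ (F.coeff i).2 _
    choose c hc1 hc2 hc3 using hap
    refine ⟨∑ i ∈ range (F.natDegree + 1), c i * α ^ i, sum_mem fun i _ =>
      mul_mem (hK (hc1 i)) (pow_mem hαL i), hroot _ (sum_mem fun i _ =>
      mul_mem (hK (hc1 i)) (pow_mem hαL i)) ?_, ?_⟩
    · rw [sum_pow_char]
      have e : ∀ i, (c i * α ^ i) ^ p = c i ^ p * (α ^ p) ^ i := fun i => by
        rw [mul_pow, ← pow_mul, ← pow_mul, mul_comm i p]
      simp only [e]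
      exact OC.sum hX.arc.toHSd _ _ (fun i _ => mul_mem (pow_mem (hc1 i) p) (pow_mem hα i))
        fun i _ => ((hc2 i).pow hX.arc.toHSd (hc1 i) p).mul hX.arc.toHSd (pow_mem (hc1 i) p)
          (pow_mem hα i) (hoc.pow hX.arc.toHSd hα i)
    · rw [Polynomial.aeval_eq_sum_range, ← sum_sub_distrib]
      refine RVal.Ge.sum _ _ fun i _ => ?_
      rw [Algebra.smul_def]
      show v.Ge b ((F.coeff i : Ω) * α ^ i - c i * α ^ i)
      rw [← sub_mul]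
      exact ((hc3 i).mul (v.ge_self (α ^ i))).mono (by linarith)
  · rw [hL] at hx
    exact ⟨adj_pow_mem hα hx, h3 x hx⟩

/-- **Stability under isogeny**, with the record. -/
theorem SX0.up [CharP k p] [IsAlgClosed k] [IsAlgClosed Ω] (h0 : Ctx0 k v) (hc : CompleteV v)
    (hX : SX0 p v K σ Φ) (hα : α ^ p ∈ K) (hαK : α ∉ K) {e₀ : ℝ} (he₀ : 0 < e₀) :
    ∃ (ψ : K ≃ₐ[k] K) (Φ' Θ Ψ : ℕ → Ω → Ω) (κ ρ₁ μ e : ℝ) (n : ℕ) (s : Fin (n + 1) → Ω) (g : Ω),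
      e ≤ e₀ ∧ UpR p v K σ Φ α ψ Φ' Θ Ψ κ ρ₁ μ e n s g := by
  have hinj : ∀ {x y : Ω}, x ^ p = y ^ p → x = y := fun {x y} h => frobenius_inj Ω p h
  have hp2 : (2 : ℝ) ≤ p := by exact_mod_cast hp.out.two_le
  have hap : ∀ g ∈ K, α ^ p ≠ g ^ p := fun g hg h1 => hαK (by rw [hinj h1]; exact hg)
  obtain ⟨ν, hlp, hng⟩ := exists_level hX.kn.cld hap
    (fun x => IsAlgClosed.exists_pow_nat_eq x hp.out.pos)
  obtain ⟨μ', hμ', H, hH, -, hcr⟩ := exists_crit hX.arc hX.oi hα hlp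
  obtain ⟨m, t₀, ht₀⟩ := hX.kn.pb
  obtain ⟨e, he⟩ : ∃ e : ℝ, e = min e₀ (min (μ' / 64) (1 / 4)) := ⟨_, rfl⟩
  have hepos : 0 < e := by
    rw [he]
    exact lt_min he₀ (lt_min (by linarith) (by norm_num))
  have he1 : e ≤ e₀ := by rw [he]; exact min_le_left _ _
  have he2 : e ≤ μ' / 64 := by rw [he]; exact (min_le_right _ _).trans (min_le_left _ _)
  have he3 : e ≤ 1 / 4 := by rw [he]; exact (min_le_right _ _).trans (min_le_right _ _)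
  obtain ⟨n, s, hs, hso, hs0, g, hg, hsg, -⟩ := TWMF.Stb.exists_base h0 hc hX.kn.cld hX.kn.imm ht₀ hα
    hap hepos
  have hvs : v (s 0) ≤ ν := by
    by_contra h1
    exact hng ⟨g, hg, fun _ => by rw [← hsg]; exact not_le.1 h1⟩
  -- the conjugation
  obtain ⟨κ, hκ⟩ : ∃ κ : ℝ, κ = max (1 + μ') (ν + μ' - v (s 0)) := ⟨_, rfl⟩
  have hκ1 : 1 + μ' ≤ κ := by rw [hκ]; exact le_max_left _ _
  have hκ2 : ν + μ' - v (s 0) ≤ κ := by rw [hκ]; exact le_max_right _ _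
  obtain ⟨s', hs'K, hs'oc, hs'n⟩ := hX.oc _ (hs.mem 0) (v (s 0) + κ)
  have hη : v.Ge (v (s 0) + κ) (s' - s 0) := by
    rw [← neg_sub]
    exact hs'n.neg
  have hn := TWMF.Stb.nrs_update hs.mem hs0 (sub_mem hs'K (hs.mem 0)) (κ := κ) (by linarith) hη
  have hD : TWMF.Stb.Dt p v K K s (Function.update s 0 (s 0 + (s' - s 0))) e κ (κ - e) :=
    ⟨hc, hX.kn.cld, le_rfl, hs, hso, hn, hepos.le, by nlinarith, by linarith⟩
  obtain ⟨χ, hχ1, hχ2⟩ := hD.exists_aut h0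
  have hχs : (χ ⟨s 0, hs.mem 0⟩ : Ω) = s' := by
    rw [hχ1 0 (hs.mem 0), Function.update_self]
    ring
  have hκe : 0 < κ - e := by linarith
  have hψ := symm_near hκe hχ2
  have h2 : SX0 p v K σ (conj χ.symm Φ) := conj_sx hκe hψ hX
  have hsoc : OC v σ (conj χ.symm Φ) (s 0) := by
    have h3 := conj_oc hκe hψ hX.arc.toHSd ⟨s', hs'K⟩ hs'oc
    have h4 : χ.symm ⟨s', hs'K⟩ = ⟨s 0, hs.mem 0⟩ := by
      rw [AlgEquiv.symm_apply_eq]
      exact Subtype.ext hχs.symm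
    rwa [h4] at h3
  -- the criterion
  have hlp0 : LP p v K ν (s 0) := fun ε hε => by
    obtain ⟨g', hg', h3⟩ := hlp ε hε
    refine ⟨g' - g, sub_mem hg' hg, ?_⟩
    rw [hsg, sub_pow_char, sub_sub_sub_cancel_right]
    exact h3
  have hng0 : ¬ PG p v K ν (s 0) := by
    rintro ⟨g', hg', h3⟩
    refine hng ⟨g + g', add_mem hg hg', ?_⟩
    rw [add_pow_char, ← sub_sub, ← hsg]
    exact h3
  have hcr2 : ∀ m : ℕ, m ≠ 0 → ∃ g ∈ K, v.Ge (ν - m * σ + μ')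
      (conj χ.symm Φ m (s 0) - g ^ p) := by
    intro m hm
    have h3 : (χ.symm ⟨s', hs'K⟩ : Ω) = s 0 := by
      have h4 : χ.symm ⟨s', hs'K⟩ = ⟨s 0, hs.mem 0⟩ := by
        rw [AlgEquiv.symm_apply_eq]
        exact Subtype.ext hχs.symm
      rw [h4]
    have hm0 : (⟨Φ m s', hX.arc.mem m s' hs'K⟩ : K) = ⟨Φ m s', hX.arc.mem m s' hs'K⟩ := rfl
    -- `Φ m s'` is near a `p`-th power
    obtain ⟨y, hy, h5⟩ : ∃ y ∈ K, v.Ge (ν - m * σ + μ') (Φ m s' - y ^ p) := by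
      refine ⟨H m - (if p ∣ m then Φ (m / p) g else 0), ?_, ?_⟩
      · split_ifs
        · exact sub_mem (hH m) (hX.arc.mem _ g hg)
        · exact sub_mem (hH m) K.zero_mem
      · have e1 : Φ m s' = Φ m (s' - s 0) + Φ m (s 0) := by
          rw [hsd_sub hX.arc.toHSd m hs'K (hs.mem 0)]
          ring
        have e2 : Φ m (s 0) = Φ m (α ^ p) - (if p ∣ m then Φ (m / p) g ^ p else 0) := by
          rw [hsg, hsd_sub hX.arc.toHSd m hα (pow_mem hg p), hsd_pow hX.arc.toHSd m hg]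
        have e3 : Φ m s' - (H m - (if p ∣ m then Φ (m / p) g else 0)) ^ p =
            Φ m (s' - s 0) + (Φ m (α ^ p) - H m ^ p) := by
          rw [e1, e2, sub_pow_char]
          split_ifs
          · ring
          · rw [zero_pow hp.out.ne_zero]
            ring
        rw [e3]
        have h6 := arc_nrm hX.arc _ (sub_mem hs'K (hs.mem 0)) _ hη m
        rw [coeff_ser] at h6
        exact (h6.mono (by linarith)).add ((hcr m hm).mono (by linarith))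
    refine ⟨(χ.symm ⟨y, hy⟩ : Ω), (χ.symm ⟨y, hy⟩).2, ?_⟩
    rw [← h3, conj_map χ.symm hX.arc.toHSd m ⟨s', hs'K⟩]
    have h7 := near_iso hκe hψ (⟨Φ m s', hX.arc.mem m s' hs'K⟩ - ⟨y, hy⟩ ^ p) (b := ν - m * σ + μ') h5
    rw [map_sub, map_pow] at h7
    exact h7
  obtain ⟨ρ₁, hρ₁, H', hH', hcr', hov⟩ := crit_lin hsoc hμ' hcr2
  have hz : (0 : Ω) ^ p = 0 := zero_pow hp.out.ne_zero
  obtain ⟨H'', T, t1, t2, t3, t4, t5, t6⟩ :=
    theta_core h2.arc.toHSd (hs.mem 0) (κ := μ' / 2) (by linarith) hH' hcr' hov hng0 hs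
      (hso.mono le_rfl (by linarith)) hs0 K.zero_mem (by rw [hz, sub_zero])
  have hti := t1.inv
  have hX' : SX0 p v K σ (hcomp (hinv T) (conj χ.symm Φ)) :=
    ⟨hX.kn, hti.arc h2.arc hρ₁.le, (hti.mono hρ₁.le).oi (hti.oi_of_lt hρ₁) h2.arc.toHSd h2.oi,
      fun x hx b => by
        obtain ⟨c, hc1, hc2, hc3⟩ := h2.oc x hx b
        exact ⟨c, hc1, hti.oc h2.arc.toHSd hρ₁ hc1 hc2, hc3⟩⟩
  have hpw := theta_pow h2.arc.toHSd t1.hsd (hs.mem 0) K.zero_mem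
    (show s 0 = s 0 - 0 ^ p by rw [hz, sub_zero]) t3 t5
  have hα' : (α - g) ^ p = s 0 := by rw [sub_pow_char, hsg]
  have hcad : cadj v K (α - g) = cadj v K α := cadj_sub_mem hg
  obtain ⟨Ψ, hΨ1, hΨ2⟩ := sx_root (α := α - g) hc hX' (by rw [hα']; exact hs.mem 0)
    (by rw [hα']; exact hti.oc h2.arc.toHSd hρ₁ (hs.mem 0) hsoc)
    (fun l hl => by rw [hα']; exact hpw l hl)
  rw [hcad] at hΨ1 hΨ2
  refine ⟨χ.symm, _, T, Ψ, κ - e, ρ₁, μ' / 2 / 2, e, n, s, g, he1, hκe, hψ, h2, hs, hso, hs0,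
    hepos, by linarith, hg, hα'.symm, hρ₁, t1, fun l x hx => ?_, hpw, hX', fun x hx b hb l => ?_,
    hΨ2, hΨ1⟩
  · have h5 := congrArg (PowerSeries.coeff l) (hat_hinv t1.hsd (pk_ser h2.arc.toHSd hx))
    rw [← ser_hcomp, coeff_hat, coeff_ser] at h5
    simp only [coeff_ser] at h5
    exact h5
  · have h5 := hti.near h2.arc hρ₁.le hx hb l
    have h6 := conj_near hκe hψ hX.arc hx hb l
    have e1 : hcomp (hinv T) (conj χ.symm Φ) l x - Φ l x =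
        (hcomp (hinv T) (conj χ.symm Φ) l x - conj χ.symm Φ l x) +
          (conj χ.symm Φ l x - Φ l x) := by ring
    rw [e1]
    exact h5.add (h6.mono (by linarith))

/-- Stability under isogeny, without the record. -/
theorem SX0.iso [CharP k p] [IsAlgClosed k] [IsAlgClosed Ω] (h0 : Ctx0 k v) (hc : CompleteV v)
    (hX : SX0 p v K σ Φ) (hα : α ^ p ∈ K) :
    ∃ (Φ' Ψ : ℕ → Ω → Ω) (μ : ℝ), 0 < μ ∧ SX0 p v K σ Φ' ∧
      (∀ x ∈ K, ∀ b : ℝ, v.Ge b x → ∀ l : ℕ, v.Ge (b + μ - l * σ) (Φ' l x - Φ l x)) ∧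
      (∀ x ∈ cadj v K α, x ^ p ∈ K ∧ ∀ l, Ψ l x ^ p = Φ' l (x ^ p)) ∧
      SX0 p v (cadj v K α) (σ / p) Ψ := by
  have hz : (0 : Ω) ^ p = 0 := zero_pow hp.out.ne_zero
  by_cases hαK : α ∈ K
  · obtain ⟨Ψ, h1, h2⟩ := sx_root (α := 0) hc hX (by rw [hz]; exact K.zero_mem)
      (by rw [hz, ← map_zero (algebraMap k Ω)]; exact OC.const hX.arc.toHSd 0)
      (fun l _ => ⟨0, K.zero_mem, by rw [hz, hX.arc.toHSd.zero]⟩)
    have e : cadj v K 0 = cadj v K α :=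
      le_antisymm (cadj_le (cld_cadj _ _ _) (le_cadj _ _ _) (zero_mem _))
        (cadj_le (cld_cadj _ _ _) (le_cadj _ _ _) (le_cadj v K 0 hαK))
    rw [e] at h1 h2
    exact ⟨Φ, Ψ, 1, one_pos, hX, fun x _ b _ l => by
      rw [sub_self]
      exact RVal.Ge.zero, h2, h1⟩
  · obtain ⟨ψ, Φ', Θ, Ψ, κ, ρ₁, μ, e, n, s, g, -, h⟩ := hX.up h0 hc hα hαK one_pos
    exact ⟨Φ', Ψ, μ, h.ni.pos, h.sx', h.near, h.root, h.sx⟩

end Iso

end Pool.Agent.TWEX
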