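import Pool.Agent.Lib.TWEX.EV
import Pool.Agent.Lib.TWEX.IsoT
import Pool.Agent.Lib.TWMF.S8
import Pool.Agent.Lib.TWW.WM3

/-!
# TANK W, exit on an isogeny class: the core of the step

`ev_core`: the motions of `K₀` given by the arc `Φ₂ = Θ ∘ Φ'` give motions of `K₀(g)`, `g ^ p = s 0`,
for the arc `Ψ` with `Ψ l x ^ p = Φ' l (x ^ p)`.
-/

set_option autoImplicit false

open Finset

namespace Pool.Agent.TWEX

open Pool.Agent.H15JM (RVal)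
open Pool.Agent.LU1 (adj)
open Pool.Agent.D2 (Ctx0)
open Pool.Agent.D2P (hen le_hen hen_mono clI mem_clI mem_adj_self)
open Pool.Agent.TW (PBasis BD Mot Ctx)
open Pool.Agent.TWM
open Pool.Agent.TWLM (HSd Oi Arc)
open Pool.Agent.TWS (IsoE)

universe u

/-- Evaluation of a composition `Φ₂ = Θ ∘ Φ'` at an amount `e ^ p ^ s`: `θ` is the evaluation of
`Θ`. -/
def CompH {k Ω' : Type u} [Field k] [Field Ω'] [Algebra k Ω'] (p : ℕ) (w : RVal Ω')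
    (K : IntermediateField k Ω') (σ μ : ℝ) (Φ' Φ₂ : ℕ → Ω' → Ω') : Prop :=
  ∀ (S : Finset Ω'), (∀ x ∈ S, x ∈ K) → ∀ c : ℝ, ∃ s₀ M₀ : ℕ, ∀ s M : ℕ, s₀ ≤ s → M₀ ≤ M →
    ∃ ρ₀ : ℝ, ρ₀ < σ ∧ ∀ e ∈ K, w.Ge ρ₀ (e ^ p ^ s) →
      ∃ θ : K ≃ₐ[k] K, (∀ x : K, ∀ b : ℝ, w.Ge b (x : Ω') → w.Ge (b + μ) ((θ x : Ω') - x)) ∧
        ∀ x ∈ S, ∀ z : K, (z : Ω') = ∑ l ∈ range (M + 1), Φ' l x * (e ^ p ^ s) ^ l →
          w.Ge c ((θ z : Ω') - ∑ l ∈ range (M + 1), Φ₂ l x * (e ^ p ^ s) ^ l)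

variable {k Ω Ω' : Type u} [Field k] [Field Ω] [Algebra k Ω] [Field Ω'] [Algebra k Ω']
  {v : RVal Ω} {w : RVal Ω'} {ι : Ω →ₐ[k] Ω'} {K₀ : IntermediateField k Ω}

omit [Algebra k Ω] in
/-- A common bound. -/
theorem exists_bound (S : Finset Ω) : ∃ B : ℝ, ∀ x ∈ S, v.Ge B x := by
  by_cases hne : S.Nonempty
  · obtain ⟨x₀, -, hx₀⟩ := S.exists_min_image (fun x => v x) hne
    exact ⟨v x₀, fun x hx _ => hx₀ x hx⟩
  · exact ⟨0, fun x hx => absurd ⟨x, hx⟩ hne⟩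

/-- The image of an element is in the henselization. -/
theorem mot_mem {φ : ℕ → (Ω ≃ₐ[k] Ω)} {δ : ℕ → Ω} {ρ : ℝ} (hM : Mot v K₀ φ δ ρ) (i : ℕ) {x : Ω}
    (hx : x ∈ K₀) : φ i x ∈ hen v K₀ := by
  rw [← hM.hen_eq i]
  exact le_hen _ ⟨x, hx, rfl⟩

/-- **The core of the step.** -/
theorem ev_core [IsAlgClosed k] [IsAlgClosed Ω] {p : ℕ} [hp : Fact p.Prime] [CharP k p]
    [CharP Ω p] [CharP Ω' p] (hd : IsoE v w ι) (h0 : Ctx0 k w) (hc : CompleteV w) (hK₀ : K₀.FG)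
    (hΩ : ∀ g : Ω, IsAlgebraic K₀ g) (hBD : BD p v K₀) {σ μ e₀ : ℝ} (hμ : 0 < μ) (he₀ : 0 ≤ e₀)
    {Φ' Φ₂ Ψ : ℕ → Ω' → Ω'} (hcomp : CompH p w (clI w (K₀.map ι)) σ μ Φ' Φ₂)
    (h2 : Arc w (clI w (K₀.map ι)) σ Φ₂) (h' : Arc w (clI w (K₀.map ι)) σ Φ')
    {n : ℕ} {s : Fin (n + 1) → Ω} (hs : ∀ j, s j ∈ K₀)
    (hpb : PBasis p (clI w (K₀.map ι)) fun j => ι (s j))
    (ho : OI p w (clI w (K₀.map ι)) (fun j => ι (s j)) e₀)
    (hpw : ∀ l, l ≠ 0 → ∃ y ∈ clI w (K₀.map ι), Φ' l (ι (s 0)) = y ^ p)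
    {g : Ω} (hg : g ^ p = s 0) (hroot : ∀ x ∈ adj K₀ g, ∀ l, Ψ l (ι x) ^ p = Φ' l (ι x ^ p))
    (hEV : EV0 p v w ι K₀ Φ₂ σ) : EV0 p v w ι (adj K₀ g) Ψ (σ / p) := by
  classical
  have hp0 : (0 : ℝ) < p := by exact_mod_cast hp.out.pos
  have hp2 : (2 : ℝ) ≤ p := by exact_mod_cast hp.out.two_le
  have hιK : ∀ x ∈ hen v K₀, ι x ∈ clI w (K₀.map ι) := fun x hx => TWMF.Stb.map_mem_cl hd hx
  intro S hS c t
  have hpow : ∀ x ∈ adj K₀ g, x ^ p ∈ K₀ := fun x hx =>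
    Iso.adj_pow_mem (by rw [hg]; exact hs 0) hx
  obtain ⟨S₁, hS₁⟩ : ∃ S₁ : Finset Ω, S₁ = insert (s 0) (S.image fun x => x ^ p) := ⟨_, rfl⟩
  have hS0 : s 0 ∈ S₁ := by rw [hS₁]; exact mem_insert_self _ _
  have hSp : ∀ x ∈ S, x ^ p ∈ S₁ := fun x hx => by
    rw [hS₁]
    exact mem_insert_of_mem (mem_image_of_mem _ hx)
  have hSK : ∀ x ∈ S₁, x ∈ K₀ := by
    intro x hx
    rw [hS₁] at hx
    rcases mem_insert.1 hx with rfl | hx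
    · exact hs 0
    · obtain ⟨y, hy, rfl⟩ := mem_image.1 hx
      exact hpow y (hS y hy)
  obtain ⟨β, hβ⟩ := exists_bound (v := v) S₁
  -- the precisions
  obtain ⟨c₂, hc₂⟩ : ∃ c₂ : ℝ, c₂ = max (p * c) (β - 1) := ⟨_, rfl⟩
  have hc₂1 : p * c ≤ c₂ := by rw [hc₂]; exact le_max_left _ _
  have hc₂2 : β - 1 ≤ c₂ := by rw [hc₂]; exact le_max_right _ _
  obtain ⟨κ₁, hκ₁⟩ : ∃ κ₁ : ℝ, κ₁ = max (c₂ - β + 1) (2 * e₀ + 1) := ⟨_, rfl⟩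
  have hκ₁1 : c₂ - β + 1 ≤ κ₁ := by rw [hκ₁]; exact le_max_left _ _
  have hκ₁2 : 2 * e₀ + 1 ≤ κ₁ := by rw [hκ₁]; exact le_max_right _ _
  have hκ₁0 : 0 < κ₁ := by linarith
  have hκ₁3 : 2 * e₀ < ((p : ℝ) - 1) * κ₁ := by nlinarith
  obtain ⟨c₃, hc₃⟩ : ∃ c₃ : ℝ, c₃ = v (s 0) + (κ₁ + e₀) := ⟨_, rfl⟩
  obtain ⟨c₄, hc₄⟩ : ∃ c₄ : ℝ, c₄ = max c₂ c₃ := ⟨_, rfl⟩
  have hc₄1 : c₂ ≤ c₄ := by rw [hc₄]; exact le_max_left _ _
  have hc₄2 : c₃ ≤ c₄ := by rw [hc₄]; exact le_max_right _ _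
  obtain ⟨s₀, M₁, hco⟩ := hcomp (S₁.image ι) (fun x hx => by
    obtain ⟨y, hy, rfl⟩ := mem_image.1 hx
    exact hιK _ (le_hen _ (hSK y hy))) c₄
  obtain ⟨q, hq⟩ : ∃ q, q = t + s₀ := ⟨_, rfl⟩
  obtain ⟨M₂, hM₂⟩ := hEV S₁ hSK c₄ (q + 1)
  refine ⟨max M₁ M₂, fun M hM r₁ hr₁ => ?_⟩
  obtain ⟨ρc, hρc, hco⟩ := hco (q + 1) M (by omega) ((le_max_left _ _).trans hM)
  have hM1 : (0 : ℝ) < (M : ℝ) + 1 := by positivity
  obtain ⟨ρ₀, h1, h3, h4⟩ := hM₂ M ((le_max_right _ _).trans hM)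
    (max (max (p * r₁) ρc) (σ - 1 / ((M : ℝ) + 1))) (max_lt (max_lt (by
      rw [lt_div_iff₀ hp0] at hr₁
      linarith) hρc) (by
      have : (0 : ℝ) < 1 / ((M : ℝ) + 1) := by positivity
      linarith))
  have h1a : p * r₁ ≤ ρ₀ := ((le_max_left _ _).trans (le_max_left _ _)).trans h1
  have h1b : ρc ≤ ρ₀ := ((le_max_right _ _).trans (le_max_left _ _)).trans h1
  have h1c : σ - 1 / ((M : ℝ) + 1) ≤ ρ₀ := (le_max_right _ _).trans h1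
  refine ⟨ρ₀ / p, by rw [le_div_iff₀ hp0]; linarith, (div_lt_div_iff_of_pos_right hp0).2 h3,
    fun ρ hρ1 hρ2 hirr => ?_⟩
  rw [div_lt_iff₀ hp0] at hρ1
  rw [lt_div_iff₀ hp0] at hρ2
  obtain ⟨φ, e, he, hev, hmot, hval⟩ := h4 (p * ρ) (by linarith) (by linarith) (fun m f hm hf => by
    have h5 := hirr (p * m) f (mul_ne_zero (by exact_mod_cast hp.out.ne_zero) hm) hf
    push_cast at h5
    intro h6
    exact h5 (by rw [h6]; ring))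
  -- the corrections
  have hex : ∀ i, ∃ τ : Ω ≃ₐ[k] Ω, (∀ x ∈ hen v K₀, τ x ∈ hen v K₀) ∧
      (∀ x ∈ hen v K₀, ∃ y ∈ hen v K₀, τ y = x) ∧
      (∀ x ∈ hen v K₀, ∀ b : ℝ, v.Ge b x → v.Ge (b + min μ κ₁) (τ x - x)) ∧
      (∃ b ∈ hen v K₀, τ.symm (φ i (s 0)) = s 0 + b ^ p) ∧
      ∀ x ∈ S₁, w.Ge c₂ (ι (τ.symm (φ i x)) -
        ∑ l ∈ range (M + 1), Φ' l (ι x) * (ι (e i) ^ p ^ (q + 1)) ^ l) := by
    intro i
    have hιe : ι (e i) ∈ clI w (K₀.map ι) := hιK _ (he i)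
    have hge : w.Ge ρ₀ (ι (e i) ^ p ^ (q + 1)) := by
      rw [← map_pow, hd.ge_iff]
      exact fun _ => (hev i).2.1
    obtain ⟨θ, hθ1, hθ2⟩ := hco (ι (e i)) hιe (hge.mono h1b)
    obtain ⟨d, hdd⟩ : ∃ d, d = ι (e i) ^ p ^ (q + 1) := ⟨_, rfl⟩
    rw [← hdd] at hge hθ2
    have hdK : d ∈ clI w (K₀.map ι) := by rw [hdd]; exact pow_mem hιe _
    have hιS : ∀ x ∈ S₁, ι x ∈ clI w (K₀.map ι) := fun x hx => hιK _ (le_hen _ (hSK x hx))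
    obtain ⟨Z', hZ'⟩ : ∃ Z' : Ω → Ω', ∀ x, Z' x = ∑ l ∈ range (M + 1), Φ' l (ι x) * d ^ l :=
      ⟨_, fun _ => rfl⟩
    obtain ⟨Z, hZ⟩ : ∃ Z : Ω → Ω', ∀ x, Z x = ∑ l ∈ range (M + 1), Φ₂ l (ι x) * d ^ l :=
      ⟨_, fun _ => rfl⟩
    have hZ'K : ∀ x ∈ S₁, Z' x ∈ clI w (K₀.map ι) := fun x hx => by
      rw [hZ']
      exact sum_mem fun l _ => mul_mem (h'.mem l _ (hιS x hx)) (pow_mem hdK l)
    have hθZ : ∀ x (hx : x ∈ S₁), w.Ge c₄ ((θ ⟨Z' x, hZ'K x hx⟩ : Ω') - Z x) := fun x hx => by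
      rw [hZ x]
      exact hθ2 (ι x) (mem_image_of_mem _ hx) ⟨Z' x, hZ'K x hx⟩ (hZ' x)
    have hφZ : ∀ x ∈ S₁, w.Ge c₄ (ι (φ i x) - Z x) := fun x hx => by
      have h5 := hval x hx i
      rw [map_pow, ← hdd] at h5
      rw [hZ x]
      exact h5
    -- the power
    have hyex : ∀ l, ∃ y ∈ clI w (K₀.map ι), l ≠ 0 → Φ' l (ι (s 0)) = y ^ p := fun l => by
      by_cases hl : l = 0
      · exact ⟨0, zero_mem _, fun h => absurd hl h⟩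
      · obtain ⟨y, hy, h5⟩ := hpw l hl
        exact ⟨y, hy, fun _ => h5⟩
    choose y hyK hy using hyex
    obtain ⟨Y, hY⟩ : ∃ Y : Ω', Y = ∑ l ∈ (range (M + 1)).erase 0, y l * (ι (e i) ^ p ^ q) ^ l :=
      ⟨_, rfl⟩
    have hYK : Y ∈ clI w (K₀.map ι) := by
      rw [hY]
      exact sum_mem fun l _ => mul_mem (hyK l) (pow_mem (pow_mem hιe _) l)
    have hYp : Z' (s 0) = ι (s 0) + Y ^ p := by
      rw [hZ', ← add_sum_erase (range (M + 1)) _ (mem_range.2 (Nat.succ_pos M)),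
        h'.c0 _ (hιS _ hS0), pow_zero, mul_one, hY, sum_pow_char]
      congr 1
      refine sum_congr rfl fun l hl => ?_
      rw [hy l (mem_erase.1 hl).1, mul_pow, hdd]
      congr 1
      rw [← pow_mul, ← pow_mul, ← pow_mul, pow_succ]
      ring
    obtain ⟨_, ⟨B, hB, rfl⟩, hB'⟩ := mem_clI.1 (θ ⟨Y, hYK⟩).2 (c₃ / p)
    have hBp : w.Ge c₃ ((θ ⟨Y, hYK⟩ : Ω') ^ p - ι B ^ p) := by
      have h5 := TWM.ge_pow hB' p
      rw [mul_div_cancel₀ _ hp0.ne'] at h5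
      have e1 : (θ ⟨Y, hYK⟩ : Ω') ^ p - ι B ^ p = ((θ ⟨Y, hYK⟩ : Ω') - ι B) ^ p :=
        (sub_pow_char _ _).symm
      rw [e1]
      exact h5
    have hch : ∀ j, ∃ y ∈ hen v K₀, w.Ge (v (s j) + (κ₁ + e₀)) (ι y - θ ⟨ι (s j), hpb.mem j⟩) ∧
        (j = 0 → y = φ i (s 0) - B ^ p) := by
      intro j
      by_cases hj : j = 0
      · subst hj
        refine ⟨φ i (s 0) - B ^ p, sub_mem (mot_mem hmot i (hs 0)) (pow_mem (le_hen _ hB) p), ?_,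
          fun _ => rfl⟩
        have e1 : (θ ⟨Z' (s 0), hZ'K _ hS0⟩ : Ω') = θ ⟨ι (s 0), hpb.mem 0⟩ +
            (θ ⟨Y, hYK⟩ : Ω') ^ p := by
          have e2 : (⟨Z' (s 0), hZ'K _ hS0⟩ : clI w (K₀.map ι)) =
              ⟨ι (s 0), hpb.mem 0⟩ + ⟨Y, hYK⟩ ^ p := Subtype.ext hYp
          rw [e2, map_add, map_pow]
          rfl
        have e2 : ι (φ i (s 0) - B ^ p) - θ ⟨ι (s 0), hpb.mem 0⟩ =
            (ι (φ i (s 0)) - Z (s 0)) - ((θ ⟨Z' (s 0), hZ'K _ hS0⟩ : Ω') - Z (s 0)) +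
              ((θ ⟨Y, hYK⟩ : Ω') ^ p - ι B ^ p) := by
          rw [e1, map_sub, map_pow]
          ring
        rw [e2]
        exact (((hφZ _ hS0).mono hc₄2).sub ((hθZ _ hS0).mono hc₄2) |>.add hBp).mono (by rw [hc₃])
      · obtain ⟨_, ⟨y, hy, rfl⟩, h5⟩ := mem_clI.1 (θ ⟨ι (s j), hpb.mem j⟩).2 (v (s j) + (κ₁ + e₀))
        refine ⟨y, le_hen _ hy, ?_, fun h6 => absurd h6 hj⟩
        have h6 := h5.neg
        rwa [neg_sub] at h6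
    choose s' hs'H hs'n hs'0 using hch
    obtain ⟨τ, t1, t2, t3, t4, t5⟩ := TWMF.Stb.henaut_gen hd h0 hc hK₀ hΩ hBD he₀ hμ hκ₁3 hpb ho
      (fun j => le_hen _ (hs j)) hs'H θ hθ1 hs'n
    have hκ : 0 < min μ κ₁ := lt_min hμ hκ₁0
    refine ⟨τ, t1, t2, t3, ?_, fun x hx => ?_⟩
    · obtain ⟨b, hb, hb'⟩ := t2 B (le_hen _ hB)
      refine ⟨b, hb, ?_⟩
      rw [AlgEquiv.symm_apply_eq, map_add, map_pow, hb', t4, hs'0 0 rfl]
      ring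
    · obtain ⟨y', hy', hyx⟩ := t2 _ (mot_mem hmot i (hSK x hx))
      have e1 : τ.symm (φ i x) = y' := by rw [← hyx, AlgEquiv.symm_apply_apply]
      rw [e1, ← hdd, ← hZ' x]
      -- bounds
      have hZβ : w.Ge (β - 1) (Z x) := by
        rw [hZ x]
        refine RVal.Ge.sum _ _ fun l hl => ?_
        have h5 := Iso.arc_nrm h2 _ (hιS x hx) _ (hd.ge_iff.2 (hβ x hx)) l
        rw [TWN1.coeff_ser] at h5
        refine (h5.mul (TWM.ge_pow hge l)).mono ?_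
        have h6 : (l : ℝ) ≤ M := by exact_mod_cast Nat.lt_succ_iff.1 (mem_range.1 hl)
        have h7 : (l : ℝ) * (σ - ρ₀) ≤ 1 := by
          have h8 : (l : ℝ) * (σ - ρ₀) ≤ l * (1 / ((M : ℝ) + 1)) :=
            mul_le_mul_of_nonneg_left (by linarith) (Nat.cast_nonneg l)
          refine h8.trans ?_
          rw [mul_one_div, div_le_one hM1]
          linarith
        linarith
      have hφβ : v.Ge (β - 1) (φ i x) := by
        rw [← hd.ge_iff]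
        have e2 : ι (φ i x) = (ι (φ i x) - Z x) + Z x := by ring
        rw [e2]
        exact ((hφZ x hx).mono (by linarith)).add hZβ
      have hyβ : v.Ge (β - 1) y' := by
        have h5 := TWMF.Stb.symm_gain hκ t2 t3 _ (mot_mem hmot i (hSK x hx)) _ hφβ
        rw [e1] at h5
        have e2 : y' = (y' - φ i x) + φ i x := by ring
        rw [e2]
        exact (h5.mono (by linarith)).add hφβ
      have h5 := t5 y' hy' _ hyβ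
      rw [hyx] at h5
      have h6 : w.Ge c₂ ((θ (⟨Z' x, hZ'K x hx⟩ - ⟨ι y', TWMF.Stb.map_mem_cl hd hy'⟩) : Ω')) := by
        rw [map_sub]
        have e2 : (((θ ⟨Z' x, hZ'K x hx⟩ - θ ⟨ι y', TWMF.Stb.map_mem_cl hd hy'⟩ :
            clI w (K₀.map ι)) : Ω')) = ((θ ⟨Z' x, hZ'K x hx⟩ : Ω') - Z x) - (ι (φ i x) - Z x) +
              (ι (φ i x) - θ ⟨ι y', TWMF.Stb.map_mem_cl hd hy'⟩) := by
          push_cast
          ring
        rw [e2]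
        exact (((hθZ x hx).mono hc₄1).sub ((hφZ x hx).mono hc₄1)).add (h5.mono (by linarith))
      have h7 := Iso.near_iso (ψ := θ.symm) hμ (Iso.symm_near hμ hθ1) _ h6
      rw [AlgEquiv.symm_apply_apply] at h7
      have h8 := h7.neg
      have e2 : -(((⟨Z' x, hZ'K x hx⟩ - ⟨ι y', TWMF.Stb.map_mem_cl hd hy'⟩ :
          clI w (K₀.map ι)) : Ω')) = ι y' - Z' x := by
        push_cast
        ring
      rwa [e2] at h8
  choose τ t1 t2 t3 t4 t5 using hex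
  have hκ : 0 < min μ κ₁ := lt_min hμ hκ₁0
  have hqe : ∀ i, (e i ^ p ^ s₀) ^ p ^ t = e i ^ p ^ q := fun i => by
    rw [← pow_mul, ← pow_add, hq, add_comm]
  have hval2 : ∀ i, v (e i ^ p ^ (q + 1)) = p * v (e i ^ p ^ q) := fun i => by
    rw [pow_succ, pow_mul, v.map_pow (pow_ne_zero _ (hev i).1)]
  have hmot' := TWMF.Stb.mot_comp_symm hmot hκ t1 t2 t3
  refine ⟨fun i => (φ i).trans (τ i).symm, fun i => e i ^ p ^ s₀, fun i =>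
    hen_mono (mem_adj_self K₀ g).2 (pow_mem (he i) _), fun i => ⟨pow_ne_zero _ (hev i).1, ?_, ?_⟩,
    ?_, fun x hx i => ?_⟩
  · rw [hqe, div_le_iff₀ hp0]
    have := (hev i).2.1
    rw [hval2] at this
    linarith
  · rw [hqe]
    have := (hev i).2.2
    rw [hval2] at this
    exact lt_of_mul_lt_mul_left this hp0.le
  · have h5 := Mot.root p (hd.ctx0 h0) hmot' (δ' := fun i => (e i ^ p ^ s₀) ^ p ^ t) (fun i => by
      rw [hqe, ← pow_mul, ← pow_succ]) (g := g) (by rw [hg]; exact hs 0) (fun i => by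
      obtain ⟨b, hb, h6⟩ := t4 i
      refine ⟨1, one_mem _, b, hb, one_ne_zero, ?_⟩
      show (τ i).symm (φ i (g ^ p)) = _
      rw [hg, h6, one_pow, one_mul])
    rwa [mul_div_cancel_left₀ _ hp0.ne'] at h5
  · refine (Iso.ge_root hp0 (b := c₂) ?_).mono (by rw [le_div_iff₀ hp0]; linarith)
    have h5 := t5 i (x ^ p) (hSp x hx)
    have e1 : (ι (((φ i).trans (τ i).symm) x) - ∑ l ∈ range (M + 1), Ψ l (ι x) *
        ι ((e i ^ p ^ s₀) ^ p ^ t) ^ l) ^ p = ι ((τ i).symm (φ i (x ^ p))) -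
        ∑ l ∈ range (M + 1), Φ' l (ι (x ^ p)) * (ι (e i) ^ p ^ (q + 1)) ^ l := by
      rw [sub_pow_char, sum_pow_char]
      congr 1
      · rw [map_pow, map_pow, map_pow]
        rfl
      · refine sum_congr rfl fun l _ => ?_
        rw [mul_pow, hroot x (hS x hx), hqe, map_pow, map_pow]
        congr 1
        rw [← pow_mul, ← pow_mul, ← pow_mul, pow_succ]
        ring
    rw [e1]
    exact h5

end Pool.Agent.TWEX
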