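import Pool.Agent.Lib.TWEX.EvStep
import Pool.Agent.Lib.TWEX.Ext

/-!
# TANK W, exit on an isogeny class: transport and comparison

* `EVu.map`: transport of the motions along an isometric embedding;
* `ev0_cmp`: motions for an embedding `ι'` near `ι`.
-/

set_option autoImplicit false

open Finset

namespace Pool.Agent.TWEX

open Pool.Agent.H15JM (RVal)
open Pool.Agent.LU1 (adj)
open Pool.Agent.D2 (Ctx0)
open Pool.Agent.D2P (hen le_hen hen_mono clI mem_clI mem_adj_self)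
open Pool.Agent.TW (PBasis BD Mot Ctx)
open Pool.Agent.TWM
open Pool.Agent.TWLM (HSd Oi Arc)
open Pool.Agent.TWS (IsoE)

universe u

section

variable {k Ω : Type u} [Field k] [Field Ω] [Algebra k Ω] {w : RVal Ω}
  {K : IntermediateField k Ω} {p : ℕ} {σ : ℝ}

/-- **Transport of the motions along an isometric embedding.** -/
theorem EVu.map [IsAlgClosed Ω] (h0 : Ctx0 k w) (hc : CompleteV w) (hcl : Cld w K)
    {T : K →ₐ[k] Ω} (hT : ∀ x : K, (x : Ω) ≠ 0 → w (T x) = w (x : Ω)) {Ψ Ψ' : ℕ → Ω → Ω}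
    (hΨ : ∀ l, ∀ x ∈ K, Ψ l x ∈ K) (hΨ' : ∀ l, ∀ x : K, Ψ' l (T x) = T ⟨Ψ l x, hΨ l x x.2⟩)
    (h : EVu p w K Ψ σ) : EVu p w T.fieldRange Ψ' σ := by
  intro Ω₀ i1 i2 i3 v ι' K₀ hctx hι' hFG hΩ htr hBD hcl'
  have hTge : ∀ (x : K) (b : ℝ), w.Ge b (T x) ↔ w.Ge b (x : Ω) := by
    intro x b
    by_cases hx : (x : Ω) = 0
    · have h1 : x = 0 := Subtype.ext hx
      rw [h1, map_zero]
      exact Iff.rfl
    · have h1 : T x ≠ 0 := fun h2 => hx (by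
        rw [(map_eq_zero_iff T T.injective).1 h2]
        rfl)
      constructor
      · intro h2 _
        rw [← hT x hx]
        exact h2 h1
      · intro h2 _
        rw [hT x hx]
        exact h2 hx
  let Te : K ≃ₐ[k] T.fieldRange := AlgEquiv.ofInjectiveField T
  have hTe : ∀ x : K, (Te x : Ω) = T x := fun _ => rfl
  let χ : clI w (K₀.map ι') →ₐ[k] Ω :=
    (K.val.comp (Te.symm : T.fieldRange →ₐ[k] K)).comp (IntermediateField.inclusion hcl'.le)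
  have hχT : ∀ (x : Ω) (hx : x ∈ clI w (K₀.map ι')), ∃ z : K, χ ⟨x, hx⟩ = z ∧ T z = x := by
    intro x hx
    refine ⟨Te.symm ⟨x, hcl'.le hx⟩, rfl, ?_⟩
    rw [← hTe, AlgEquiv.apply_symm_apply]
  obtain ⟨ι₂, hι₂, h2⟩ := exists_ext_iso h0 hc hι' hΩ χ (by
    rintro ⟨x, hx⟩ hx0
    obtain ⟨z, h3, h4⟩ := hχT x hx
    have hz : (z : Ω) ≠ 0 := fun h5 => hx0 (by
      have h6 : z = 0 := Subtype.ext h5
      show x = 0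
      rw [← h4, h6, map_zero])
    rw [h3]
    show w (z : Ω) = w x
    rw [← hT z hz, h4])
  have hz : ∀ x : Ω₀, ι' x ∈ clI w (K₀.map ι') → ∃ z : K, ι₂ x = z ∧ T z = ι' x := by
    intro x hx
    obtain ⟨z, h3, h4⟩ := hχT _ hx
    exact ⟨z, by rw [h2 x hx, h3], h4⟩
  have hhen : ∀ x ∈ hen v K₀, ι' x ∈ clI w (K₀.map ι') := fun x hx =>
    TWMF.Stb.map_mem_cl hι' hx
  have hcl2 : clI w (K₀.map ι₂) = K := by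
    refine le_antisymm (fun x hx => hcl fun b => ?_) fun x hx => mem_clI.2 fun b => ?_
    · obtain ⟨_, ⟨y, hy, rfl⟩, h4⟩ := mem_clI.1 hx b
      obtain ⟨z, h5, -⟩ := hz y (hhen y (le_hen _ hy))
      exact ⟨ι₂ y, by rw [h5]; exact z.2, h4⟩
    · have h3 : T ⟨x, hx⟩ ∈ clI w (K₀.map ι') := hcl'.ge ⟨_, rfl⟩
      obtain ⟨_, ⟨y, hy, rfl⟩, h4⟩ := mem_clI.1 h3 b
      obtain ⟨z, h5, h6⟩ := hz y (hhen y (le_hen _ hy))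
      refine ⟨ι₂ y, ⟨y, hy, rfl⟩, ?_⟩
      rw [h5]
      have h7 : T (⟨x, hx⟩ - z) = T ⟨x, hx⟩ - ι' y := by rw [map_sub, h6]
      exact (hTge (⟨x, hx⟩ - z) b).1 (by rw [h7]; exact h4)
  have h4 := h Ω₀ i1 i2 i3 v ι₂ K₀ hctx hι₂ hFG hΩ htr hBD hcl2
  intro S hS c t
  obtain ⟨M₀, hM⟩ := h4 S hS c t
  refine ⟨M₀, fun M hM' ρ₁ hρ₁ => ?_⟩
  obtain ⟨ρ₀, a1, a2, a3⟩ := hM M hM' ρ₁ hρ₁
  refine ⟨ρ₀, a1, a2, fun ρ b1 b2 b3 => ?_⟩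
  obtain ⟨φ, e, c1, c2, c3, c4⟩ := a3 ρ b1 b2 b3
  refine ⟨φ, e, c1, c2, c3, fun x hx i => ?_⟩
  have c5 := c4 x hx i
  obtain ⟨zA, z1, z2⟩ := hz (φ i x) (hhen _ (mot_mem c3 i (hS x hx)))
  obtain ⟨zx, z3, z4⟩ := hz x (hhen _ (le_hen _ (hS x hx)))
  obtain ⟨zE, z5, z6⟩ := hz (e i ^ p ^ t) (hhen _ (pow_mem (c1 i) _))
  rw [z1, z3, z5] at c5
  rw [← z2, ← z4, ← z6]
  have e1 : T zA - ∑ l ∈ range (M + 1), Ψ' l (T zx) * T zE ^ l =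
      T (zA - ∑ l ∈ range (M + 1), ⟨Ψ l zx, hΨ l zx zx.2⟩ * zE ^ l) := by
    rw [map_sub, map_sum]
    congr 1
    refine sum_congr rfl fun l _ => ?_
    rw [map_mul, map_pow, hΨ']
  rw [e1, hTge]
  push_cast
  exact c5

end

section

variable {k Ω Ω' : Type u} [Field k] [Field Ω] [Algebra k Ω] [Field Ω'] [Algebra k Ω']
  {v : RVal Ω} {w : RVal Ω'} {ι ι' : Ω →ₐ[k] Ω'} {K₀ : IntermediateField k Ω}
  {L : IntermediateField k Ω'} {Ψ : ℕ → Ω' → Ω'} {σ : ℝ} {p : ℕ}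

/-- **Comparison.** -/
theorem ev0_cmp [IsAlgClosed Ω] (hι : IsoE v w ι) (hι' : IsoE v w ι')
    (hL : clI w (K₀.map ι) = L) (hL' : clI w (K₀.map ι') = L) (hΨ : Arc w L σ Ψ)
    {S : Finset Ω} (hS : ∀ x ∈ S, x ∈ K₀) {c β G : ℝ} (hβ : ∀ x ∈ S, v.Ge β x) (hG0 : 0 ≤ G)
    (hG : c + 2 - β ≤ G)
    (hn : ∀ x ∈ hen v K₀, ∀ b : ℝ, v.Ge b x → w.Ge (b + G) (ι' x - ι x)) (t : ℕ)
    (h : ∃ M₀ : ℕ, ∀ M : ℕ, M₀ ≤ M →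
      ∀ ρ₁ : ℝ, ρ₁ < σ → ∃ ρ₀ : ℝ, ρ₁ ≤ ρ₀ ∧ ρ₀ < σ ∧ ∀ ρ : ℝ, ρ₀ < ρ → ρ < σ →
        (∀ (m : ℤ) (f : Ω), m ≠ 0 → f ≠ 0 → v f ≠ m * ρ) →
        ∃ (φ : ℕ → (Ω ≃ₐ[k] Ω)) (e : ℕ → Ω), (∀ i, e i ∈ hen v K₀) ∧
          (∀ i, e i ≠ 0 ∧ ρ₀ ≤ v (e i ^ p ^ t) ∧ v (e i ^ p ^ t) < ρ) ∧
          Mot v K₀ φ (fun i => e i ^ p ^ t) ρ ∧
          ∀ x ∈ S, ∀ i, w.Ge c (ι' (φ i x) -
            ∑ l ∈ range (M + 1), Ψ l (ι' x) * ι' (e i ^ p ^ t) ^ l)) :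
    ∃ M₀ : ℕ, ∀ M : ℕ, M₀ ≤ M →
      ∀ ρ₁ : ℝ, ρ₁ < σ → ∃ ρ₀ : ℝ, ρ₁ ≤ ρ₀ ∧ ρ₀ < σ ∧ ∀ ρ : ℝ, ρ₀ < ρ → ρ < σ →
        (∀ (m : ℤ) (f : Ω), m ≠ 0 → f ≠ 0 → v f ≠ m * ρ) →
        ∃ (φ : ℕ → (Ω ≃ₐ[k] Ω)) (e : ℕ → Ω), (∀ i, e i ∈ hen v K₀) ∧
          (∀ i, e i ≠ 0 ∧ ρ₀ ≤ v (e i ^ p ^ t) ∧ v (e i ^ p ^ t) < ρ) ∧
          Mot v K₀ φ (fun i => e i ^ p ^ t) ρ ∧
          ∀ x ∈ S, ∀ i, w.Ge c (ι (φ i x) -
            ∑ l ∈ range (M + 1), Ψ l (ι x) * ι (e i ^ p ^ t) ^ l) := by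
  obtain ⟨M₀, hM⟩ := h
  refine ⟨M₀, fun M hM' r₁ hr₁ => ?_⟩
  have hM1 : (0 : ℝ) < (M : ℝ) + 1 := by positivity
  obtain ⟨ρ₀, a1, a2, a3⟩ := hM M hM' (max r₁ (σ - 1 / ((M : ℝ) + 1))) (max_lt hr₁ (by
    have : (0 : ℝ) < 1 / ((M : ℝ) + 1) := by positivity
    linarith))
  have a4 : σ - 1 / ((M : ℝ) + 1) ≤ ρ₀ := (le_max_right _ _).trans a1
  refine ⟨ρ₀, (le_max_left _ _).trans a1, a2, fun ρ b1 b2 b3 => ?_⟩
  obtain ⟨φ, e, c1, c2, c3, c4⟩ := a3 ρ b1 b2 b3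
  refine ⟨φ, e, c1, c2, c3, fun x hx i => ?_⟩
  have c5 := c4 x hx i
  obtain ⟨d, hd⟩ : ∃ d, d = e i ^ p ^ t := ⟨_, rfl⟩
  rw [← hd] at c5 ⊢
  have hdH : d ∈ hen v K₀ := by rw [hd]; exact pow_mem (c1 i) _
  have hdg : v.Ge ρ₀ d := by
    rw [hd]
    exact fun _ => (c2 i).2.1
  have hxH := le_hen (v := v) _ (hS x hx)
  have hφH := mot_mem c3 i (hS x hx)
  have hιx : ι x ∈ L := hL ▸ TWMF.Stb.map_mem_cl hι hxH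
  have hι'x : ι' x ∈ L := hL' ▸ TWMF.Stb.map_mem_cl hι' hxH
  have hl : ∀ l ∈ range (M + 1), (l : ℝ) * (σ - ρ₀) ≤ 1 := by
    intro l hl
    have h6 : (l : ℝ) ≤ M := by exact_mod_cast Nat.lt_succ_iff.1 (mem_range.1 hl)
    have h8 : (l : ℝ) * (σ - ρ₀) ≤ l * (1 / ((M : ℝ) + 1)) :=
      mul_le_mul_of_nonneg_left (by linarith) (Nat.cast_nonneg l)
    refine h8.trans ?_
    rw [mul_one_div, div_le_one hM1]
    linarith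
  have hnrm : ∀ y ∈ L, ∀ b : ℝ, w.Ge b y → ∀ l : ℕ, w.Ge (b - l * σ) (Ψ l y) := by
    intro y hy b hb l
    have h5 := Iso.arc_nrm hΨ y hy b hb l
    rwa [TWN1.coeff_ser] at h5
  have h1 : w.Ge (β - 1) (∑ l ∈ range (M + 1), Ψ l (ι' x) * ι' d ^ l) := by
    refine RVal.Ge.sum _ _ fun l hl' => ?_
    refine ((hnrm _ hι'x _ (hι'.ge_iff.2 (hβ x hx)) l).mul
      (TWM.ge_pow (hι'.ge_iff.2 hdg) l)).mono ?_
    have := hl l hl'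
    linarith
  have h2 : v.Ge (min c (β - 1)) (φ i x) := by
    rw [← hι'.ge_iff]
    have e1 : ι' (φ i x) = (ι' (φ i x) - ∑ l ∈ range (M + 1), Ψ l (ι' x) * ι' d ^ l) +
        ∑ l ∈ range (M + 1), Ψ l (ι' x) * ι' d ^ l := by ring
    rw [e1]
    exact (c5.mono (min_le_left _ _)).add (h1.mono (min_le_right _ _))
  have hG' : c ≤ min c (β - 1) + G := by
    rcases min_choice c (β - 1) with h3 | h3
    · rw [h3]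
      linarith
    · rw [h3]
      linarith
  have h3 : w.Ge c (ι' (φ i x) - ι (φ i x)) := (hn _ hφH _ h2).mono hG'
  have h4 : w.Ge c (∑ l ∈ range (M + 1), (Ψ l (ι' x) - Ψ l (ι x)) * ι' d ^ l) := by
    refine RVal.Ge.sum _ _ fun l hl' => ?_
    rw [← Iso.hsd_sub hΨ.toHSd l hι'x hιx]
    refine ((hnrm _ (sub_mem hι'x hιx) _ (hn _ hxH _ (hβ x hx)) l).mul
      (TWM.ge_pow (hι'.ge_iff.2 hdg) l)).mono ?_
    have := hl l hl'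
    linarith
  have h5 : w.Ge c (∑ l ∈ range (M + 1), Ψ l (ι x) * (ι' d ^ l - ι d ^ l)) := by
    refine RVal.Ge.sum _ _ fun l hl' => ?_
    refine ((hnrm _ hιx _ (hι.ge_iff.2 (hβ x hx)) l).mul (TWMF.pow_near (hι'.ge_iff.2 hdg)
      (hι.ge_iff.2 hdg) (hn _ hdH _ hdg) l)).mono ?_
    have := hl l hl'
    linarith
  have e1 : ι (φ i x) - ∑ l ∈ range (M + 1), Ψ l (ι x) * ι d ^ l =
      (ι' (φ i x) - ∑ l ∈ range (M + 1), Ψ l (ι' x) * ι' d ^ l) - (ι' (φ i x) - ι (φ i x)) +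
      ∑ l ∈ range (M + 1), (Ψ l (ι' x) - Ψ l (ι x)) * ι' d ^ l +
      ∑ l ∈ range (M + 1), Ψ l (ι x) * (ι' d ^ l - ι d ^ l) := by
    simp only [sub_mul, mul_sub, sum_sub_distrib]
    ring
  rw [e1]
  exact ((c5.sub h3).add h4).add h5

end

end Pool.Agent.TWEX
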