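import Pool.Agent.Lib.TWEX.CompN

/-!
# TANK W: evaluation of systems with linear decay

`exists_eval`: `Θ` near the identity at the radius `ρ`, `δ` of value `> ρ`: the sum of `Θ l x * δ ^ l`
is an automorphism of `K` near the identity.
`exists_comp`: composition of evaluations.
-/

set_option autoImplicit false

open Polynomial Finset

namespace Pool.Agent.TWEX

open Pool.Agent.H15JM (RVal)
open Pool.Agent.D2P (mem_clI)
open Pool.Agent.TWM
open Pool.Agent.TWLM (HSd Oi Arc)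
open Pool.Agent.TWEX.Iso (NI hcomp)

universe u

namespace Evl

variable {k Ω : Type u} [Field k] [Field Ω] [Algebra k Ω] {v : RVal Ω}
  {K : IntermediateField k Ω} {Θ : ℕ → Ω → Ω} {ρ μ d b : ℝ} {δ x y : Ω}

/-- The partial sums. -/
def ptl (Θ : ℕ → Ω → Ω) (δ : Ω) (M : ℕ) (x : Ω) : Ω := ∑ l ∈ range M, Θ l x * δ ^ l

theorem term_ge (h : NI v K ρ μ Θ) (hδ : v.Ge (ρ + d) δ) (l : ℕ) (hx : x ∈ K)
    (hb : v.Ge b x) : v.Ge (b + l * d) (Θ l x * δ ^ l) := by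
  refine ((h.ge l hx hb).mul (ge_pow hδ l)).mono (le_of_eq ?_)
  ring

theorem term_near (h : NI v K ρ μ Θ) (hδ : v.Ge (ρ + d) δ) (hd : 0 ≤ d) {l : ℕ} (hl : l ≠ 0)
    (hx : x ∈ K) (hb : v.Ge b x) : v.Ge (b + μ) (Θ l x * δ ^ l) := by
  refine ((h.nr l hl x hx b hb).mul (ge_pow hδ l)).mono ?_
  have h1 : 0 ≤ (l : ℝ) * d := mul_nonneg (Nat.cast_nonneg l) hd
  have h2 : b + μ - l * ρ + l * (ρ + d) = b + μ + l * d := by ring
  rw [h2]
  linarith

theorem ptl_mem (h : NI v K ρ μ Θ) (hδK : δ ∈ K) (M : ℕ) (hx : x ∈ K) : ptl Θ δ M x ∈ K :=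
  sum_mem fun l _ => mul_mem (h.hsd.mem l x hx) (pow_mem hδK l)

theorem ptl_add (h : NI v K ρ μ Θ) (M : ℕ) (hx : x ∈ K) (hy : y ∈ K) :
    ptl Θ δ M (x + y) = ptl Θ δ M x + ptl Θ δ M y := by
  unfold ptl
  rw [← sum_add_distrib]
  exact sum_congr rfl fun l _ => by rw [h.hsd.add l x hx y hy, add_mul]

theorem ptl_step (h : NI v K ρ μ Θ) (hδ : v.Ge (ρ + d) δ) (hd : 0 ≤ d) {M N : ℕ} (hMN : M ≤ N)
    (hx : x ∈ K) (hb : v.Ge b x) : v.Ge (b + M * d) (ptl Θ δ N x - ptl Θ δ M x) := by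
  unfold ptl
  rw [← sum_range_add_sum_Ico _ hMN, add_sub_cancel_left]
  refine RVal.Ge.sum _ _ fun l hl => ?_
  refine (term_ge h hδ l hx hb).mono ?_
  have h1 : (M : ℝ) ≤ l := by exact_mod_cast (mem_Ico.1 hl).1
  have := mul_le_mul_of_nonneg_right h1 hd
  linarith

theorem ptl_mul (h : NI v K ρ μ Θ) (hδ : v.Ge (ρ + d) δ) (hd : 0 ≤ d) (M : ℕ) (hx : x ∈ K)
    (hy : y ∈ K) {b' : ℝ} (hb : v.Ge b x) (hb' : v.Ge b' y) :
    v.Ge (b + b' + M * d) (ptl Θ δ (M + 1) x * ptl Θ δ (M + 1) y - ptl Θ δ (M + 1) (x * y)) := by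
  have e1 : ptl Θ δ (M + 1) x * ptl Θ δ (M + 1) y =
      ∑ l ∈ range (M + 1), ∑ i ∈ range (M + 1), Θ i x * Θ l y * δ ^ (i + l) := by
    unfold ptl
    rw [sum_mul_sum, sum_comm]
    exact sum_congr rfl fun l _ => sum_congr rfl fun i _ => by rw [pow_add]; ring
  have e2 : ptl Θ δ (M + 1) (x * y) = ∑ l ∈ range (M + 1), ∑ i ∈ range (M + 1),
      if i + l ≤ M then Θ i x * Θ l y * δ ^ (i + l) else 0 := by
    rw [← sum_anti M fun i l => Θ i x * Θ l y * δ ^ (i + l)]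
    unfold ptl
    refine sum_congr rfl fun n _ => ?_
    rw [h.hsd.mul n x hx y hy, sum_mul]
    exact sum_congr rfl fun i hi => by rw [HasAntidiagonal.mem_antidiagonal.1 hi]
  rw [e1, e2, ← sum_sub_distrib]
  refine RVal.Ge.sum _ _ fun l _ => ?_
  rw [← sum_sub_distrib]
  refine RVal.Ge.sum _ _ fun i _ => ?_
  by_cases hil : i + l ≤ M
  · rw [if_pos hil, sub_self]
    exact RVal.Ge.zero
  · rw [if_neg hil, sub_zero]
    have e3 : Θ i x * Θ l y * δ ^ (i + l) = (Θ i x * δ ^ i) * (Θ l y * δ ^ l) := by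
      rw [pow_add]
      ring
    rw [e3]
    refine ((term_ge h hδ i hx hb).mul (term_ge h hδ l hy hb')).mono ?_
    have h1 : (M : ℝ) ≤ i + l := by
      have : M ≤ i + l := by omega
      exact_mod_cast this
    have := mul_le_mul_of_nonneg_right h1 hd
    linarith

theorem ptl_const (h : NI v K ρ μ Θ) (M : ℕ) (c : k) :
    ptl Θ δ (M + 1) (algebraMap k Ω c) = algebraMap k Ω c := by
  unfold ptl
  rw [sum_eq_single 0]
  · rw [h.hsd.c0 _ (K.algebraMap_mem c), pow_zero, mul_one]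
  · intro l _ hl
    rw [h.hsd.con l hl, zero_mul]
  · intro h1
    exact absurd (mem_range.2 (Nat.succ_pos M)) h1

theorem ptl_near (h : NI v K ρ μ Θ) (hδ : v.Ge (ρ + d) δ) (hd : 0 ≤ d) (M : ℕ) (hx : x ∈ K)
    (hb : v.Ge b x) : v.Ge (b + μ) (ptl Θ δ (M + 1) x - x) := by
  unfold ptl
  rw [sum_range_succ', h.hsd.c0 x hx, pow_zero, mul_one, add_sub_cancel_right]
  exact RVal.Ge.sum _ _ fun l _ => term_near h hδ hd (Nat.succ_ne_zero l) hx hb

/-- The limit. -/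
theorem exists_lim (h : NI v K ρ μ Θ) (hc : CompleteV v) (hK : Cld v K) (hδK : δ ∈ K)
    (hδ : v.Ge (ρ + d) δ) (hd : 0 < d) (hx : x ∈ K) :
    ∃ y ∈ K, ∀ M : ℕ, ∀ b : ℝ, v.Ge b x → v.Ge (b + M * d) (y - ptl Θ δ M x) := by
  obtain ⟨y, hy⟩ := hc (fun M => ptl Θ δ M x) fun c => by
    obtain ⟨N, hN⟩ := exists_nat_ge ((c - v x) / d)
    rw [div_le_iff₀ hd] at hN
    refine ⟨N, fun m n hm hn => ?_⟩
    have e1 : ptl Θ δ m x - ptl Θ δ n x =
        (ptl Θ δ m x - ptl Θ δ N x) - (ptl Θ δ n x - ptl Θ δ N x) := by ring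
    show v.Ge c (ptl Θ δ m x - ptl Θ δ n x)
    rw [e1]
    exact ((ptl_step h hδ hd.le hm hx (v.ge_self x)).mono (by linarith)).sub
      ((ptl_step h hδ hd.le hn hx (v.ge_self x)).mono (by linarith))
  refine ⟨y, hK (mem_clI.2 fun c => ?_), fun M b hb => ?_⟩
  · obtain ⟨N, hN⟩ := hy c
    exact ⟨ptl Θ δ N x, ptl_mem h hδK N hx, hN N le_rfl⟩
  · obtain ⟨N, hN⟩ := hy (b + M * d)
    have e1 : y - ptl Θ δ M x = (y - ptl Θ δ (max M N) x) +
        (ptl Θ δ (max M N) x - ptl Θ δ M x) := by ring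
    rw [e1]
    exact (hN _ (le_max_right _ _)).add (ptl_step h hδ hd.le (le_max_left _ _) hx hb)

/-- Surjectivity of maps near the identity. -/
theorem surj_of_near (hc : CompleteV v) (hK : Cld v K) (F : K →ₐ[k] K) (hμ : 0 < μ)
    (hF : ∀ x : K, ∀ b : ℝ, v.Ge b (x : Ω) → v.Ge (b + μ) ((F x : Ω) - x)) :
    Function.Surjective F := by
  intro y
  obtain ⟨f, hf0, hfs⟩ : ∃ f : ℕ → K, f 0 = y ∧ ∀ m, f (m + 1) = f m + (y - F (f m)) :=
    ⟨fun m => Nat.rec y (fun _ z => z + (y - F z)) m, rfl, fun _ => rfl⟩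
  have hr : ∀ m : ℕ, v.Ge (v (y : Ω) + (m + 1) * μ) ((y : Ω) - F (f m)) := by
    intro m
    induction m with
    | zero =>
      rw [hf0, Nat.cast_zero, zero_add, one_mul]
      have h1 := (hF y _ (v.ge_self _)).neg
      rwa [neg_sub] at h1
    | succ m ih =>
      have e1 : (y : Ω) - F (f (m + 1)) =
          -((F (y - F (f m)) : Ω) - ((y - F (f m) : K) : Ω)) := by
        rw [hfs, map_add]
        push_cast
        ring
      rw [e1]
      have h2 : v.Ge (v (y : Ω) + (m + 1) * μ) ((y - F (f m) : K) : Ω) := ih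
      refine ((hF _ _ h2).neg).mono ?_
      push_cast
      linarith
  have hstep : ∀ N m : ℕ, N ≤ m → v.Ge (v (y : Ω) + (N + 1) * μ) ((f m : Ω) - f N) := by
    intro N m hm
    induction m, hm using Nat.le_induction with
    | base => rw [sub_self]; exact RVal.Ge.zero
    | succ m hm ih =>
      have e1 : (f (m + 1) : Ω) - f N = ((y : Ω) - F (f m)) + ((f m : Ω) - f N) := by
        rw [hfs]
        push_cast
        ring
      rw [e1]
      refine ((hr m).mono ?_).add ih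
      have h3 : (N : ℝ) ≤ m := by exact_mod_cast hm
      nlinarith
  obtain ⟨x, hx⟩ := hc (fun m => (f m : Ω)) fun c => by
    obtain ⟨N, hN⟩ := exists_nat_ge ((c - v (y : Ω)) / μ)
    rw [div_le_iff₀ hμ] at hN
    refine ⟨N, fun m m' hm hm' => ?_⟩
    have e1 : (f m : Ω) - f m' = ((f m : Ω) - f N) - ((f m' : Ω) - f N) := by ring
    rw [e1]
    exact ((hstep N m hm).mono (by linarith)).sub ((hstep N m' hm').mono (by linarith))
  have hxK : x ∈ K := hK (mem_clI.2 fun c => by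
    obtain ⟨N, hN⟩ := hx c
    exact ⟨f N, (f N).2, hN N le_rfl⟩)
  refine ⟨⟨x, hxK⟩, Subtype.ext ?_⟩
  rw [← sub_eq_zero]
  refine eq_zero_of_ge_all (v := v) fun c => ?_
  obtain ⟨N, hN⟩ := hx c
  obtain ⟨M, hM⟩ := exists_nat_ge ((c - v (y : Ω)) / μ)
  rw [div_le_iff₀ hμ] at hM
  have h1 : v.Ge c (((⟨x, hxK⟩ : K) - f (max N M) : K) : Ω) := hN _ (le_max_left _ _)
  have e1 : (F ⟨x, hxK⟩ : Ω) - y = (((F ((⟨x, hxK⟩ : K) - f (max N M)) : K) : Ω) -
      (((⟨x, hxK⟩ : K) - f (max N M) : K) : Ω)) + (((⟨x, hxK⟩ : K) - f (max N M) : K) : Ω) -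
      ((y : Ω) - F (f (max N M))) := by
    rw [map_sub]
    push_cast
    ring
  rw [e1]
  refine (((hF _ _ h1).mono (by linarith)).add h1).sub ((hr (max N M)).mono ?_)
  have h3 : (M : ℝ) ≤ (max N M : ℕ) := by exact_mod_cast le_max_right N M
  nlinarith

/-- **Evaluation.** -/
theorem exists_eval (h : NI v K ρ μ Θ) (hc : CompleteV v) (hK : Cld v K) (hδK : δ ∈ K)
    (hδ : v.Ge (ρ + d) δ) (hd : 0 < d) : ∃ F : K ≃ₐ[k] K,
      (∀ x : K, ∀ b : ℝ, v.Ge b (x : Ω) → v.Ge (b + μ) ((F x : Ω) - x)) ∧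
      ∀ x : K, ∀ M : ℕ, ∀ b : ℝ, v.Ge b (x : Ω) →
        v.Ge (b + M * d) ((F x : Ω) - ∑ l ∈ range M, Θ l x * δ ^ l) := by
  have hex : ∀ x : K, ∃ y : K, ∀ M : ℕ, ∀ b : ℝ, v.Ge b (x : Ω) →
      v.Ge (b + M * d) ((y : Ω) - ptl Θ δ M x) := by
    intro x
    obtain ⟨y, hy, h1⟩ := exists_lim h hc hK hδK hδ hd x.2
    exact ⟨⟨y, hy⟩, h1⟩
  choose L hL using hex
  -- uniqueness
  have hun : ∀ x y : K, ∀ B : ℝ, (∀ M : ℕ, v.Ge (B + M * d) ((y : Ω) - ptl Θ δ (M + 1) x)) →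
      L x = y := by
    intro x y B h1
    apply Subtype.ext
    rw [← sub_eq_zero]
    refine eq_zero_of_ge_all (v := v) fun c => ?_
    obtain ⟨M, hM⟩ := exists_nat_ge ((c - min B (v (x : Ω))) / d)
    rw [div_le_iff₀ hd] at hM
    have e1 : (L x : Ω) - y = ((L x : Ω) - ptl Θ δ (M + 1) x) - ((y : Ω) - ptl Θ δ (M + 1) x) := by
      ring
    rw [e1]
    refine ((hL x (M + 1) _ (v.ge_self _)).mono ?_).sub ((h1 M).mono ?_)
    · push_cast
      linarith [min_le_right B (v (x : Ω))]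
    · linarith [min_le_left B (v (x : Ω))]
  let F : K →ₐ[k] K :=
    { toFun := L
      map_one' := by
        refine hun 1 1 0 fun M => ?_
        have e1 : ptl Θ δ (M + 1) ((1 : K) : Ω) = 1 := by
          have h2 := ptl_const (δ := δ) h M (1 : k)
          rwa [map_one] at h2
        rw [e1]
        show v.Ge _ ((1 : Ω) - 1)
        rw [sub_self]
        exact RVal.Ge.zero
      map_zero' := by
        refine hun 0 0 0 fun M => ?_
        have e1 : ptl Θ δ (M + 1) ((0 : K) : Ω) = 0 := by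
          have h2 := ptl_const (δ := δ) h M (0 : k)
          rwa [map_zero] at h2
        rw [e1]
        show v.Ge _ ((0 : Ω) - 0)
        rw [sub_self]
        exact RVal.Ge.zero
      map_add' := fun x y => by
        refine hun (x + y) (L x + L y) (min (v (x : Ω)) (v (y : Ω))) fun M => ?_
        have e1 : ((L x + L y : K) : Ω) - ptl Θ δ (M + 1) ((x + y : K) : Ω) =
            ((L x : Ω) - ptl Θ δ (M + 1) x) + ((L y : Ω) - ptl Θ δ (M + 1) y) := by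
          push_cast
          rw [ptl_add h (M + 1) x.2 y.2]
          ring
        rw [e1]
        refine ((hL x (M + 1) _ (v.ge_self _)).mono ?_).add ((hL y (M + 1) _ (v.ge_self _)).mono ?_)
        · push_cast
          linarith [min_le_left (v (x : Ω)) (v (y : Ω))]
        · push_cast
          linarith [min_le_right (v (x : Ω)) (v (y : Ω))]
      map_mul' := fun x y => by
        refine hun (x * y) (L x * L y) (v (x : Ω) + v (y : Ω)) fun M => ?_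
        have e1 : ((L x * L y : K) : Ω) - ptl Θ δ (M + 1) ((x * y : K) : Ω) =
            ((L x : Ω) - ptl Θ δ (M + 1) x) * L y +
            ptl Θ δ (M + 1) x * ((L y : Ω) - ptl Θ δ (M + 1) y) +
            (ptl Θ δ (M + 1) x * ptl Θ δ (M + 1) y - ptl Θ δ (M + 1) ((x * y : K) : Ω)) := by
          push_cast
          ring
        have hM0 : 0 ≤ (M : ℝ) * d := mul_nonneg (Nat.cast_nonneg M) hd.le
        have hx1 := hL x (M + 1) _ (v.ge_self _)
        have hy1 := hL y (M + 1) _ (v.ge_self _)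
        have hpx : v.Ge (v (x : Ω)) (ptl Θ δ (M + 1) x) := by
          have e2 : ptl Θ δ (M + 1) x = (ptl Θ δ (M + 1) x - x) + x := by ring
          rw [e2]
          exact ((ptl_near h hδ hd.le M x.2 (v.ge_self _)).mono (by linarith [h.pos])).add
            (v.ge_self _)
        have hLy : v.Ge (v (y : Ω)) (L y : Ω) := by
          have h2 := hL y 0 _ (v.ge_self _)
          unfold ptl at h2
          rwa [sum_range_zero, sub_zero, Nat.cast_zero, zero_mul, add_zero] at h2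
        rw [e1]
        refine (((hx1.mul hLy).mono ?_).add ((hpx.mul hy1).mono ?_)).add
          (ptl_mul h hδ hd.le M x.2 y.2 (v.ge_self _) (v.ge_self _))
        · push_cast
          linarith
        · push_cast
          linarith
      commutes' := fun c => by
        refine hun _ _ 0 fun M => ?_
        have e1 : ptl Θ δ (M + 1) ((algebraMap k K c : K) : Ω) = algebraMap k Ω c :=
          ptl_const h M c
        rw [e1]
        show v.Ge _ (algebraMap k Ω c - algebraMap k Ω c)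
        rw [sub_self]
        exact RVal.Ge.zero }
  have hF : ∀ x : K, ∀ b : ℝ, v.Ge b (x : Ω) → v.Ge (b + μ) ((F x : Ω) - x) := by
    intro x b hb
    obtain ⟨M, hM⟩ := exists_nat_ge (μ / d)
    rw [div_le_iff₀ hd] at hM
    have e1 : (F x : Ω) - x = ((L x : Ω) - ptl Θ δ (M + 1) x) + (ptl Θ δ (M + 1) x - x) := by
      show (L x : Ω) - x = _
      ring
    rw [e1]
    refine ((hL x (M + 1) b hb).mono ?_).add (ptl_near h hδ hd.le M x.2 hb)
    push_cast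
    linarith
  exact ⟨AlgEquiv.ofBijective F ⟨F.injective, surj_of_near hc hK F h.pos hF⟩, hF,
    fun x M b hb => hL x M b hb⟩

end Evl

section

variable {k Ω : Type u} [Field k] [Field Ω] [Algebra k Ω] {v : RVal Ω}
  {K : IntermediateField k Ω} {Θ Φ' Φ : ℕ → Ω → Ω} {ρ₁ σ μ : ℝ}

/-- **Composition of evaluations.** -/
theorem exists_comp (p : ℕ) [hp : Fact p.Prime] [CharP Ω p] (hc : CompleteV v) (hK : Cld v K)
    (hΘ : NI v K ρ₁ μ Θ) (hr : ρ₁ < σ) (hΦ : Arc v K σ Φ') (ho : Oi v K σ Φ')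
    (hcomp : ∀ n : ℕ, ∀ x ∈ K, ∑ i ∈ antidiagonal n, Θ i.1 (Φ' i.2 x) = Φ n x)
    (S : Finset Ω) (hS : ∀ x ∈ S, x ∈ K) (c : ℝ) :
    ∃ s₀ M₀ : ℕ, ∀ s M : ℕ, s₀ ≤ s → M₀ ≤ M → ∃ ρ₀ : ℝ, ρ₀ < σ ∧ ∀ e ∈ K,
      v.Ge ρ₀ (e ^ p ^ s) → ∃ θ : K ≃ₐ[k] K,
        (∀ x : K, ∀ b : ℝ, v.Ge b (x : Ω) → v.Ge (b + μ) ((θ x : Ω) - x)) ∧
        ∀ x ∈ S, ∀ z : K, (z : Ω) = ∑ l ∈ range (M + 1), Φ' l x * (e ^ p ^ s) ^ l →
          v.Ge c ((θ z : Ω) - ∑ l ∈ range (M + 1), Φ l x * (e ^ p ^ s) ^ l) := by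
  have hn : ∀ l : ℕ, ∀ x ∈ K, ∀ b : ℝ, v.Ge b x → v.Ge (b - l * σ) (Φ' l x) := by
    intro l x hx b hb
    by_cases hl : l = 0
    · subst hl
      rw [hΦ.c0 x hx]
      simpa using hb
    · obtain ⟨a, ha, h1⟩ := hΦ.str l hl
      exact (h1 x hx b hb).mono (by linarith)
  obtain ⟨T₀, c₀, Λ, M₀, hT₀, hmain⟩ := comp_near (hΘ.mono hr.le) (hΘ.oi_of_lt hr) hΦ.toHSd hn ho
    (Φ := Φ) (fun n x hx => hcomp n x hx) S hS c
  obtain ⟨d, hd⟩ : ∃ d : ℝ, d = (σ - ρ₁) / 2 := ⟨_, rfl⟩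
  have hd0 : 0 < d := by rw [hd]; linarith
  obtain ⟨b, hb⟩ := exists_low (v := v) T₀
  obtain ⟨M₁, hM₁⟩ := exists_nat_ge ((c₀ - b) / d)
  rw [div_le_iff₀ hd0] at hM₁
  obtain ⟨s₀, hs₀⟩ := exists_nat_ge (Λ / μ)
  rw [div_le_iff₀ hΘ.pos] at hs₀
  refine ⟨s₀, max M₀ M₁, fun s M hs hM => ?_⟩
  obtain ⟨ρ₀, hρ₀, h1⟩ := hmain M ((le_max_left _ _).trans hM)
  refine ⟨max ρ₀ (ρ₁ + d), max_lt hρ₀ (by rw [hd]; linarith), fun e he hge => ?_⟩
  have hps : p ^ s ≠ 0 := pow_ne_zero _ hp.out.ne_zero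
  by_cases he0 : e = 0
  · refine ⟨AlgEquiv.refl, fun x b _ => ?_, fun x hx z hz => ?_⟩
    · show v.Ge (b + μ) ((x : Ω) - x)
      rw [sub_self]
      exact RVal.Ge.zero
    · have hxK := hS x hx
      have e1 : ∀ Ψ : ℕ → Ω → Ω, ∑ l ∈ range (M + 1), Ψ l x * (e ^ p ^ s) ^ l = Ψ 0 x := by
        intro Ψ
        rw [he0, zero_pow hps, sum_eq_single 0]
        · rw [pow_zero, mul_one]
        · intro l _ hl
          rw [zero_pow hl, mul_zero]
        · intro h2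
          exact absurd (mem_range.2 (Nat.succ_pos M)) h2
      show v.Ge c ((z : Ω) - _)
      rw [hz, e1, e1, ← hcomp 0 x hxK]
      have e2 : ∑ i ∈ antidiagonal 0, Θ i.1 (Φ' i.2 x) = Φ' 0 x := by
        rw [Finset.HasAntidiagonal.antidiagonal_zero, sum_singleton]
        exact hΘ.hsd.c0 _ (hΦ.mem 0 x hxK)
      rw [e2, sub_self]
      exact RVal.Ge.zero
  have hδ0 : e ^ p ^ s ≠ 0 := pow_ne_zero _ he0
  have hδK : e ^ p ^ s ∈ K := pow_mem he _
  have hvδ : v (e ^ p ^ s) = ((p ^ s : ℕ) : ℝ) * v e := v.map_pow he0 _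
  have hge1 : ρ₀ ≤ v (e ^ p ^ s) := (le_max_left _ _).trans (hge hδ0)
  obtain ⟨θ, h2, h3⟩ := Evl.exists_eval hΘ hc hK hδK (hge.mono (le_max_right _ _)) hd0
  refine ⟨θ, h2, fun x hx z hz => ?_⟩
  have hzK : ∑ l ∈ range (M + 1), Φ' l x * (e ^ p ^ s) ^ l ∈ K := by
    rw [← hz]
    exact z.2
  have hz' : z = ⟨_, hzK⟩ := Subtype.ext hz
  rw [hz']
  refine h1 _ hδK hδ0 hge1 (K.val.comp (θ : K →ₐ[k] K)) (fun y b' hb' => ?_) ?_ ?_ x hx hzK
  · show v.Ge b' (θ y : Ω)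
    have e1 : (θ y : Ω) = ((θ y : Ω) - y) + y := by ring
    rw [e1]
    exact ((h2 y b' hb').mono (by linarith [hΘ.pos])).add hb'
  · show v.Ge _ ((θ ⟨e ^ p ^ s, hδK⟩ : Ω) - e ^ p ^ s)
    have e1 : (⟨e ^ p ^ s, hδK⟩ : K) = ⟨e, he⟩ ^ p ^ s := Subtype.ext rfl
    have e2 : (θ ⟨e ^ p ^ s, hδK⟩ : Ω) - e ^ p ^ s = ((θ ⟨e, he⟩ : Ω) - e) ^ p ^ s := by
      rw [e1, map_pow, sub_pow_char_pow]
      rfl
    rw [e2]
    have h4 : v.Ge (v e + μ) ((θ ⟨e, he⟩ : Ω) - e) := h2 ⟨e, he⟩ _ (v.ge_self e)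
    refine (ge_pow h4 (p ^ s)).mono ?_
    rw [hvδ, mul_add]
    have h5 : Λ ≤ ((p ^ s : ℕ) : ℝ) * μ := by
      refine hs₀.trans (mul_le_mul_of_nonneg_right ?_ hΘ.pos.le)
      have h6 : s₀ ≤ p ^ s := hs.trans (Nat.lt_pow_self hp.out.one_lt).le
      exact_mod_cast h6
    linarith
  · intro y hy hyT
    show v.Ge c₀ ((θ ⟨y, hy⟩ : Ω) - _)
    refine (h3 ⟨y, hy⟩ (M + 1) b (hb y hyT)).mono ?_
    have h4 : (M₁ : ℝ) ≤ M := by exact_mod_cast (le_max_right M₀ M₁).trans hM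
    have h5 := mul_le_mul_of_nonneg_right h4 hd0.le
    push_cast
    linarith

end

end Pool.Agent.TWEX
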