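import Pool.Agent.Lib.TWEX.EvTr
import Pool.Agent.Lib.TWEX.EvalK

/-!
# TANK W, exit on an isogeny class: the step

`EVe.up_of`: the class `EVe` is stable under adjunction of `p`-th roots, from the model of the step.
-/

set_option autoImplicit false

open Finset

namespace Pool.Agent.TWEX

open Pool.Agent.H15JM (RVal)
open Pool.Agent.LU1 (adj)
open Pool.Agent.D2 (Ctx0)
open Pool.Agent.D2P (hen le_hen hen_mono clI mem_clI mem_adj_self)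
open Pool.Agent.TW (PBasis BD Mot Ctx)
open Pool.Agent.TWM
open Pool.Agent.TWLM (HSd Oi Arc)
open Pool.Agent.TWS (IsoE)
open Pool.Agent.TWEX.Iso (KN SX0 conj)

universe u

variable {k Ω : Type u} [Field k] [Field Ω] [Algebra k Ω]

/-- The model of the step. -/
def StM (p : ℕ) (w : RVal Ω) (K : IntermediateField k Ω) (α g : Ω) {n : ℕ}
    (s : Fin (n + 1) → Ω) : Prop :=
  ∀ (Ω₀ : Type u) (_ : Field Ω₀) (_ : Algebra k Ω₀) (_ : IsAlgClosed Ω₀) (v : RVal Ω₀)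
    (ι : Ω₀ →ₐ[k] Ω) (L₀ : IntermediateField k Ω₀), IsoE v w ι → L₀.FG →
    (∀ g : Ω₀, IsAlgebraic L₀ g) → BD p v L₀ → clI w (L₀.map ι) = cadj w K α → ∀ G : ℝ,
    ∃ (ι' : Ω₀ →ₐ[k] Ω) (s₀ : Fin (n + 1) → Ω₀) (b₀ : Ω₀) (K₀ : IntermediateField k Ω₀),
      IsoE v w ι' ∧ K₀.FG ∧ (∀ g : Ω₀, IsAlgebraic K₀ g) ∧ BD p v K₀ ∧
      clI w (K₀.map ι') = K ∧ (∀ j, s₀ j ∈ K₀) ∧ (∀ j, ι' (s₀ j) = s j) ∧ b₀ ^ p = s₀ 0 ∧
      ι' b₀ = α - g ∧ L₀ = adj K₀ b₀ ∧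
      ∀ x ∈ hen v L₀, ∀ b : ℝ, v.Ge b x → w.Ge (b + G) (ι' x - ι x)

variable {w : RVal Ω} {K : IntermediateField k Ω} {p : ℕ} {σ : ℝ} {α : Ω}

/-- Conjugation. -/
theorem EVu.conj [IsAlgClosed Ω] (h0 : Ctx0 k w) (hc : CompleteV w) (hcl : Cld w K)
    (ψ : K ≃ₐ[k] K) {κ : ℝ} (hκ : 0 < κ)
    (hψ : ∀ x : K, ∀ b : ℝ, w.Ge b (x : Ω) → w.Ge (b + κ) ((ψ x : Ω) - x)) {Φ : ℕ → Ω → Ω}
    (hΦ : HSd K Φ) (h : EVu p w K Φ σ) : EVu p w K (Iso.conj ψ Φ) σ := by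
  have h1 := EVu.map h0 hc hcl (T := K.val.comp (ψ : K →ₐ[k] K)) (fun x hx => by
    show w (ψ x : Ω) = w (x : Ω)
    have h2 := hψ x _ (w.ge_self (x : Ω))
    have h3 : Gt w (w (x : Ω)) ((x : Ω) - (ψ x : Ω)) := by
      rw [← neg_sub]
      exact (Gt.of_ge h2 (by linarith)).neg
    exact (Gt.val_eq hx h3).2) (Ψ := Φ) (Ψ' := Iso.conj ψ Φ) hΦ.mem (fun l x =>
      Iso.conj_map ψ hΦ l x) h
  have h2 : (K.val.comp (ψ : K →ₐ[k] K)).fieldRange = K := by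
    ext x
    constructor
    · rintro ⟨y, rfl⟩
      exact (ψ y).2
    · intro hx
      refine ⟨ψ.symm ⟨x, hx⟩, ?_⟩
      show (ψ (ψ.symm ⟨x, hx⟩) : Ω) = x
      rw [AlgEquiv.apply_symm_apply]
  rwa [h2] at h1

/-- **The step.** -/
theorem EVe.up_of [hp : Fact p.Prime] [CharP Ω p] [CharP k p] [IsAlgClosed k] [IsAlgClosed Ω] (h0 : Ctx0 k w) (hc : CompleteV w)
    (hE : EVe p w K) (hα : α ^ p ∈ K)
    (hM : ∀ (n : ℕ) (s : Fin (n + 1) → Ω) (g : Ω) (e : ℝ), KN p w K → α ∉ K → g ∈ K → 0 < e →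
      PBasis p K s → OI p w K s e → s 0 = (α - g) ^ p → StM p w K α g s) :
    EVe p w (cadj w K α) := by
  obtain ⟨σ, Φ, hX, hEV⟩ := hE
  by_cases hαK : α ∈ K
  · have e : cadj w K α = K := le_antisymm (cadj_le hX.kn.cld le_rfl hαK) (le_cadj _ _ _)
    rw [e]
    exact ⟨σ, Φ, hX, hEV⟩
  obtain ⟨ψ, Φ', Θ, Ψ, κ, ρ₁, μ, e, n, s, g, -, hU⟩ := hX.up h0 hc hα hαK one_pos
  have hStM := hM n s g e hX.kn hαK hU.gm hU.epos hU.pb hU.orth hU.s0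
  have hEV2 := hEV.conj h0 hc hX.kn.cld ψ hU.kpos hU.knear hX.arc.toHSd
  refine ⟨σ / p, Ψ, hU.sx, ?_⟩
  intro Ω₀ i1 i2 i3 v ι L₀ hctx hι hFG hΩ htr hBD hcl S hS c t
  have hch : CharP Ω₀ p := charP_of_injective_algebraMap (algebraMap k Ω₀).injective p
  obtain ⟨β, hβ⟩ := exists_bound (v := v) S
  obtain ⟨ι', s₀, b₀, K₀, a1, a2, a3, a4, a5, a6, a7, a8, a9, a10, a11⟩ :=
    hStM Ω₀ i1 i2 i3 v ι L₀ hι hFG hΩ hBD hcl (max 0 (c + 2 - β))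
  have htr' : Algebra.trdeg k K₀ = (4 : ℕ) := by
    rw [← htr, a10]
    refine (TW.trdeg_eq_of_alg (mem_adj_self K₀ b₀).2 fun x hx => ?_).symm
    have h1 : x ^ p ∈ K₀ := Iso.adj_pow_mem (by rw [a8]; exact a6 0) hx
    exact ((isAlgebraic_algebraMap (⟨x ^ p, h1⟩ : K₀)).of_pow hp.out.pos)
  have hE2 := hEV2 Ω₀ i1 i2 i3 v ι' K₀ hctx a1 a2 a3 htr' a4 a5
  have hs : (fun j => ι' (s₀ j)) = s := funext a7
  have hle : ∀ {x : Ω₀}, x ∈ adj K₀ b₀ → ι' x ∈ cadj w K α := by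
    intro x hx
    have h1 : adj K₀ b₀ ≤ (cadj w K α).comap ι' := by
      refine D2P.adj_le (fun y hy => ?_) ?_
      · show ι' y ∈ cadj w K α
        exact le_cadj w K α (by rw [← a5]; exact TWM.le_clI _ ⟨y, hy, rfl⟩)
      · show ι' b₀ ∈ cadj w K α
        rw [a9]
        exact sub_mem (self_mem_cadj w K α) (le_cadj w K α hU.gm)
    exact h1 hx
  have hcore : EV0 p v w ι' (adj K₀ b₀) Ψ (σ / p) := by
    refine ev_core a1 h0 hc a2 a3 a4 hU.ni.pos hU.epos.le (Φ' := Φ') (Φ₂ := Iso.conj ψ Φ) ?_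
      (by rw [a5]; exact hU.sx2.arc) (by rw [a5]; exact hU.sx'.arc) a6
      (by rw [a5, hs]; exact hU.pb) (by rw [a5, hs]; exact hU.orth) (by
        rw [a5, a7]
        exact hU.pw) a8 (fun x hx l => ?_) hE2
    · rw [a5]
      intro S' hS' c'
      exact exists_comp p hc hX.kn.cld hU.ni hU.lt hU.sx'.arc hU.sx'.oi hU.comp S' hS' c'
    · exact (hU.root _ (hle hx)).2 l
  have hcl' : clI w ((adj K₀ b₀).map ι') = cadj w K α := by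
    refine le_antisymm (clI_le (cld_cadj _ _ _) ?_) (cadj_le (cld_clI _ _) ?_ ?_)
    · rintro _ ⟨x, hx, rfl⟩
      exact hle hx
    · rw [← a5]
      exact clI_le (cld_clI _ _) (fun x hx => TWM.le_clI _ (by
        obtain ⟨y, hy, rfl⟩ := hx
        exact ⟨y, (mem_adj_self K₀ b₀).2 hy, rfl⟩))
    · have h1 : ι' b₀ ∈ clI w ((adj K₀ b₀).map ι') :=
        TWM.le_clI _ ⟨b₀, (mem_adj_self K₀ b₀).1, rfl⟩
      have h2 : g ∈ clI w ((adj K₀ b₀).map ι') := by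
        have h3 : K ≤ clI w ((adj K₀ b₀).map ι') := by
          rw [← a5]
          exact clI_le (cld_clI _ _) (fun x hx => TWM.le_clI _ (by
            obtain ⟨y, hy, rfl⟩ := hx
            exact ⟨y, (mem_adj_self K₀ b₀).2 hy, rfl⟩))
        exact h3 hU.gm
      have h3 := add_mem h1 h2
      rwa [a9, sub_add_cancel] at h3
  rw [a10] at hS hcl a11 ⊢
  exact ev0_cmp hι a1 hcl hcl' hU.sx.arc hS hβ (le_max_left _ _) (le_max_right _ _) a11 t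
    (hcore S hS c t)

end Pool.Agent.TWEX
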