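import Pool.Agent.Lib.TWMF.S3
import Pool.Agent.Lib.TWEX.Flo

/-!
# TANK W, line (II.f): the exchange lemma, 1

`T` is an embedding of the closed field `C` in the closure `X` of `C(w)`, near the identity. Then
`X` is the closure of `T(C)(w)`, and `w` has the same radius over `T(C)`, as soon as `w` is not too
large. If `u' ^ p = T (g' ^ p)` then the closure of `X(u')` is the closure of `C''(w)`, where `C''`
is the image of `C(g')`.
-/

set_option autoImplicit false

open Polynomial Finset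

namespace Pool.Agent.TWEX

open Pool.Agent.H15JM (RVal)
open Pool.Agent.LU1 (VPos adj)
open Pool.Agent.D2 (Ctx0)
open Pool.Agent.D2P (hen clI mem_clI mem_adj_iff mem_adj_self adj_le)
open Pool.Agent.TWM

universe u'

variable {k Ω : Type u'} [Field k] [Field Ω] [Algebra k Ω] {v : RVal Ω}
  {C X : IntermediateField k Ω} {w : Ω} {ρ κ δ : ℝ}

/-- `T` is near the identity. -/
def Near (v : RVal Ω) {C : IntermediateField k Ω} (T : C →ₐ[k] Ω) (κ : ℝ) : Prop :=
  ∀ (x : C) (b : ℝ), v.Ge b (x : Ω) → v.Ge (b + κ) (T x - x)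

section Basic

variable {T : C →ₐ[k] Ω}

theorem Near.ge (hT : Near v T κ) (hκ : 0 < κ) {x : C} {b : ℝ} (hb : v.Ge b (x : Ω)) :
    v.Ge b (T x) := by
  have e : T x = (T x - x) + x := by ring
  rw [e]
  exact ((hT x b hb).mono (by linarith)).add hb

theorem Near.val (hT : Near v T κ) (hκ : 0 < κ) {x : C} (hx : (x : Ω) ≠ 0) :
    T x ≠ 0 ∧ v (T x) = v (x : Ω) := by
  refine Gt.val_eq hx ?_
  have h1 := (hT x _ (v.ge_self (x : Ω))).neg
  rw [neg_sub] at h1
  exact Gt.of_ge h1 (by linarith)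

theorem Near.ge_iff (hT : Near v T κ) (hκ : 0 < κ) {x : C} {b : ℝ} :
    v.Ge b (T x) ↔ v.Ge b (x : Ω) := by
  refine ⟨fun h hx => ?_, fun h => hT.ge hκ h⟩
  obtain ⟨h1, h2⟩ := hT.val hκ hx
  rw [← h2]
  exact h h1

theorem ne_zero_of_image {x : C} (hx : T x ≠ 0) : (x : Ω) ≠ 0 := by
  intro h
  have h1 : x = 0 := Subtype.ext h
  exact hx (by rw [h1, map_zero])

/-- The image is closed. -/
theorem Near.cld (hΩ : CompleteV v) (hT : Near v T κ) (hκ : 0 < κ) (hC : Cld v C) :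
    Cld v T.fieldRange := by
  intro y hy
  have hy' := mem_clI.1 hy
  have h1 : ∀ n : ℕ, ∃ x : C, v.Ge (n : ℝ) (y - T x) := by
    intro n
    obtain ⟨z, hz, h2⟩ := hy' n
    obtain ⟨x, rfl⟩ := AlgHom.mem_fieldRange.1 hz
    exact ⟨x, h2⟩
  choose x hx using h1
  have hd : ∀ m n : ℕ, ∀ c : ℝ, c ≤ m → c ≤ n → v.Ge c ((x m : Ω) - x n) := by
    intro m n c hm hn
    have h2 : v.Ge c (T (x m - x n)) := by
      rw [map_sub]
      have e : T (x m) - T (x n) = (y - T (x n)) - (y - T (x m)) := by ring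
      rw [e]
      exact ((hx n).mono hn).sub ((hx m).mono hm)
    have h3 := (hT.ge_iff hκ).1 h2
    simpa using h3
  obtain ⟨a, ha⟩ := hΩ (fun n => (x n : Ω)) fun c => by
    obtain ⟨N, hN⟩ := exists_nat_ge c
    refine ⟨N, fun m n hm hn => hd m n c (hN.trans (by exact_mod_cast hm))
      (hN.trans (by exact_mod_cast hn))⟩
  have haC : a ∈ C := hC (mem_clI.2 fun c => by
    obtain ⟨N, hN⟩ := ha c
    exact ⟨x N, (x N).2, hN N le_rfl⟩)
  refine AlgHom.mem_fieldRange.2 ⟨⟨a, haC⟩, ?_⟩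
  rw [← sub_eq_zero]
  refine eq_zero_of_ge_all (v := v) fun c => ?_
  obtain ⟨N, hN⟩ := ha c
  obtain ⟨M, hM⟩ := exists_nat_ge c
  have e : T ⟨a, haC⟩ - y = T (⟨a, haC⟩ - x (max N M)) - (y - T (x (max N M))) := by
    rw [map_sub]
    ring
  rw [e]
  refine (hT.ge hκ ?_).sub ((hx (max N M)).mono ?_)
  · exact hN _ (le_max_left _ _)
  · exact hM.trans (by exact_mod_cast le_max_right N M)

end Basic

section Key

variable [IsAlgClosed Ω] {T : C →ₐ[k] Ω}

/-- The jets. -/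
theorem TL.hasse_ge (hw : TL v C w ρ) {f : Polynomial Ω} (hf : f ∈ PI C) {b : ℝ}
    (hb : v.Ge b (f.eval w)) (l : ℕ) : v.Ge (b - l * ρ) ((hasseDeriv l f).eval w) := by
  by_cases h0 : f = 0
  · rw [h0, map_zero, eval_zero]
    exact RVal.Ge.zero
  · have hfa : f ∈ PI (TWM.algc C) := PI_mono (le_algc C) hf
    have h1 := hw.weak hfa h0 l
    rw [taylor_coeff] at h1
    exact h1.mono (by linarith [hb (hw.eval_ne hfa h0)])

omit [IsAlgClosed Ω] in
theorem map_mem_PI (P : Polynomial C) : P.map (algebraMap C Ω) ∈ PI C := fun i => by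
  rw [coeff_map]
  exact (P.coeff i).2

omit [IsAlgClosed Ω] in
theorem hasseDeriv_map' {A : Type*} [CommRing A] (f : A →+* Ω) (l : ℕ) (P : Polynomial A) :
    hasseDeriv l (P.map f) = (hasseDeriv l P).map f := by
  ext n
  rw [hasseDeriv_coeff, coeff_map, coeff_map, hasseDeriv_coeff, map_mul, map_natCast]

omit [Algebra k Ω] [Field k] [IsAlgClosed Ω] in
/-- The difference of two powers. -/
theorem pow_sub_pow_ge {x y : Ω} {a b : ℝ} (hx : v.Ge a x) (hy : v.Ge a y) (hxy : v.Ge b (x - y))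
    (l : ℕ) : v.Ge (b + (l - 1) * a) (x ^ l - y ^ l) := by
  induction l with
  | zero =>
    rw [pow_zero, pow_zero, sub_self]
    exact RVal.Ge.zero
  | succ l ih =>
    have e : x ^ (l + 1) - y ^ (l + 1) = x ^ l * (x - y) + (x ^ l - y ^ l) * y := by ring
    rw [e]
    refine (((ge_pow hx l).mul hxy).mono ?_).add ((ih.mul hy).mono ?_)
    · push_cast
      linarith
    · push_cast
      linarith

/-- The value of the transported polynomial. -/
theorem near_eval (hw : TL v C w ρ) (hT : Near v T κ) (hκ : 0 < κ) (hδ : 0 < δ)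
    (hw0 : v.Ge (ρ - κ + δ) w) (P : Polynomial C) {b : ℝ}
    (hb : v.Ge b ((P.map (algebraMap C Ω)).eval w)) :
    v.Ge (b + min κ δ / 4) ((P.map (T : C →+* Ω)).eval w - (P.map (algebraMap C Ω)).eval w) := by
  classical
  set μ : ℝ := min κ δ with hμ
  have hμ0 : 0 < μ := lt_min hκ hδ
  have hμκ : μ ≤ κ := min_le_left _ _
  have hμδ : μ ≤ δ := min_le_right _ _
  set d : ℕ := P.natDegree with hd
  set Pm := P.map (algebraMap C Ω) with hPm
  have hPmI : Pm ∈ PI C := map_mem_PI P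
  obtain ⟨δ₂, hδ₂, h2⟩ := TWN1.TL.deep hw ((range (d + 1)).image fun l => hasseDeriv l Pm) fun f hf => by
    obtain ⟨l, _, rfl⟩ := mem_image.1 hf
    exact hasse_mem_PI hPmI l
  have hd0 : (0 : ℝ) ≤ d := Nat.cast_nonneg d
  have hd1 : (0 : ℝ) < (d : ℝ) + 1 := by positivity
  set δ₁ : ℝ := min δ₂ (μ / 4 / ((d : ℝ) + 1)) with hδ₁
  have hδ₁0 : 0 < δ₁ := lt_min hδ₂ (by positivity)
  have hδ₁d : ((d : ℝ) + 1) * δ₁ ≤ μ / 4 := by
    have h3 : δ₁ ≤ μ / 4 / ((d : ℝ) + 1) := min_le_right _ _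
    calc ((d : ℝ) + 1) * δ₁ ≤ ((d : ℝ) + 1) * (μ / 4 / ((d : ℝ) + 1)) :=
          mul_le_mul_of_nonneg_left h3 hd1.le
      _ = μ / 4 := by field_simp
  have hδ₁μ : δ₁ ≤ μ / 4 := by nlinarith
  obtain ⟨θ, hθC, hθ⟩ := hw.lim δ₁ hδ₁0
  set θ' : C := ⟨θ, hθC⟩ with hθ'
  -- the displacement of `θ`
  have hθge : v.Ge (ρ - κ + μ / 2) θ := by
    have e : θ = w - (w - θ) := by ring
    rw [e]
    exact (hw0.mono (by linarith)).sub (hθ.mono (by linarith))
  have hdis : v.Ge (ρ + μ / 2) (T θ' - θ) := (hT θ' _ hθge).mono (by linarith)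
  have hwT : v.Ge (ρ - δ₁) (w - T θ') := by
    have e : w - T θ' = (w - θ) - (T θ' - θ) := by ring
    rw [e]
    exact hθ.sub (hdis.mono (by linarith))
  -- the coefficients
  have hcoef : ∀ l, ((taylor θ' P).coeff l : Ω) = (hasseDeriv l Pm).eval θ := by
    intro l
    rw [← taylor_coeff]
    have h3 := congrArg (fun f => f.coeff l) (map_taylor P θ' (algebraMap C Ω))
    simp only [coeff_map] at h3
    exact h3
  have hjet : ∀ l ∈ range (d + 1), v.Ge (b - l * ρ) ((taylor θ' P).coeff l : Ω) := by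
    intro l hl
    rw [hcoef]
    have h3 := TL.hasse_ge hw hPmI hb l
    exact ((h2 θ (hθ.mono (by linarith [min_le_left δ₂ (μ / 4 / ((d : ℝ) + 1))])) _
      (mem_image_of_mem _ hl)).1 _).1 h3
  have e1 : (P.map (algebraMap C Ω)).eval w =
      ∑ l ∈ range (d + 1), ((taylor θ' P).coeff l : Ω) * (w - θ) ^ l := by
    have h3 : (P.map (algebraMap C Ω)).eval w =
        ((taylor θ' P).map (algebraMap C Ω)).eval (w - θ) := by
      rw [map_taylor, taylor_eval]
      congr 1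
      show w = w - θ + θ
      ring
    rw [h3, eval_eq_sum_range' (n := d + 1)
      (natDegree_map_le.trans_lt (by rw [natDegree_taylor]; omega))]
    exact sum_congr rfl fun l _ => by rw [coeff_map]; rfl
  have e2 : (P.map (T : C →+* Ω)).eval w =
      ∑ l ∈ range (d + 1), T ((taylor θ' P).coeff l) * (w - T θ') ^ l := by
    have h3 : (P.map (T : C →+* Ω)).eval w =
        ((taylor θ' P).map (T : C →+* Ω)).eval (w - T θ') := by
      rw [map_taylor, taylor_eval]
      congr 1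
      show w = w - T θ' + T θ'
      ring
    rw [h3, eval_eq_sum_range' (n := d + 1)
      (natDegree_map_le.trans_lt (by rw [natDegree_taylor]; omega))]
    exact sum_congr rfl fun l _ => by rw [coeff_map]; rfl
  rw [e1, e2, ← sum_sub_distrib]
  refine RVal.Ge.sum _ _ fun l hl => ?_
  have hld : (l : ℝ) ≤ d := by
    have h3 : l ≤ d := by simpa [Nat.lt_succ_iff] using hl
    exact_mod_cast h3
  have e : T ((taylor θ' P).coeff l) * (w - T θ') ^ l -
      ((taylor θ' P).coeff l : Ω) * (w - θ) ^ l =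
      (T ((taylor θ' P).coeff l) - ((taylor θ' P).coeff l : Ω)) * (w - T θ') ^ l +
      ((taylor θ' P).coeff l : Ω) * ((w - T θ') ^ l - (w - θ) ^ l) := by ring
  rw [e]
  have h5 : l * δ₁ ≤ μ / 4 := by
    refine le_trans ?_ hδ₁d
    exact mul_le_mul_of_nonneg_right (by linarith) hδ₁0.le
  have hl0 : (0 : ℝ) ≤ l := Nat.cast_nonneg l
  refine (((hT _ _ (hjet l hl)).mul (ge_pow hwT l)).mono ?_).add
    (((hjet l hl).mul (pow_sub_pow_ge hwT hθ (b := ρ + μ / 2) ?_ l)).mono ?_)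
  · nlinarith
  · have e3 : w - T θ' - (w - θ) = -(T θ' - θ) := by ring
    rw [e3]
    exact hdis.neg
  · nlinarith

/-- The value of the transported polynomial. -/
theorem near_eval_ge_iff (hw : TL v C w ρ) (hT : Near v T κ) (hκ : 0 < κ) (hδ : 0 < δ)
    (hw0 : v.Ge (ρ - κ + δ) w) {P : Polynomial C} (hP : P ≠ 0) :
    (P.map (T : C →+* Ω)).eval w ≠ 0 ∧
      v ((P.map (T : C →+* Ω)).eval w) = v ((P.map (algebraMap C Ω)).eval w) := by
  have hμ0 : 0 < min κ δ := lt_min hκ hδ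
  have h0 : (P.map (algebraMap C Ω)).eval w ≠ 0 := hw.eval_ne (PI_mono (le_algc C) (map_mem_PI P))
    (by rwa [Ne, Polynomial.map_eq_zero])
  refine Gt.val_eq h0 ?_
  have h1 := (near_eval hw hT hκ hδ hw0 P (v.ge_self _)).neg
  rw [neg_sub] at h1
  exact Gt.of_ge h1 (by linarith)

/-- The transported polynomials are strict. -/
theorem near_strE (hw : TL v C w ρ) (hT : Near v T κ) (hκ : 0 < κ) (hδ : 0 < δ)
    (hw0 : v.Ge (ρ - κ + δ) w) {P : Polynomial C} (hP : P ≠ 0) :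
    StrE v w ρ (P.map (T : C →+* Ω)) := by
  have hμ0 : 0 < min κ δ := lt_min hκ hδ
  obtain ⟨h1, h2⟩ := near_eval_ge_iff hw hT hκ hδ hw0 hP
  refine ⟨h1, fun l hl hne => ?_⟩
  have e : (taylor w (P.map (T : C →+* Ω))).coeff l =
      ((hasseDeriv l P).map (T : C →+* Ω)).eval w := by
    rw [taylor_coeff, hasseDeriv_map']
  rw [e] at hne ⊢
  have h3 : hasseDeriv l P ≠ 0 := by
    intro h4
    rw [h4, Polynomial.map_zero, eval_zero] at hne
    exact hne rfl
  obtain ⟨h5, h6⟩ := near_eval_ge_iff hw hT hκ hδ hw0 h3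
  rw [h6, h2]
  have hP' : P.map (algebraMap C Ω) ≠ 0 := by rwa [Ne, Polynomial.map_eq_zero]
  have h7 := hw.strict (PI_mono (le_algc C) (map_mem_PI P)) hP' hl
  rw [taylor_coeff, hasseDeriv_map'] at h7
  have h8 := h7 (hw.eval_ne (PI_mono (le_algc C) (map_mem_PI _))
    (by rwa [Ne, Polynomial.map_eq_zero]))
  linarith

omit [IsAlgClosed Ω] in
/-- Every polynomial over the image is transported from `C`. -/
theorem exists_map_eq (T : C →ₐ[k] Ω) (g : Polynomial T.fieldRange) :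
    ∃ P : Polynomial C, P.map (T : C →+* Ω) = g.map (algebraMap T.fieldRange Ω) := by
  have h1 : ∀ i, ∃ x : C, T x = (g.coeff i : Ω) := fun i => by
    obtain ⟨x, hx⟩ := AlgHom.mem_fieldRange.1 (g.coeff i).2
    exact ⟨x, hx⟩
  choose x hx using h1
  refine ⟨∑ i ∈ range (g.natDegree + 1), monomial i (x i), ?_⟩
  ext n
  rw [coeff_map, coeff_map, finsetSum_coeff]
  simp only [coeff_monomial]
  rw [sum_ite_eq' (range (g.natDegree + 1)) n]
  split_ifs with h2
  · exact hx n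
  · rw [map_zero, coeff_eq_zero_of_natDegree_lt (by simpa using h2), map_zero]

/-- **The radius over the image.** -/
theorem near_TL (hw : TL v C w ρ) (hT : Near v T κ) (hκ : 0 < κ) (hδ : 0 < δ)
    (hw0 : v.Ge (ρ - κ + δ) w) : TL v T.fieldRange w ρ where
  lim := by
    intro ε hε
    have hμ0 : 0 < min κ δ := lt_min hκ hδ
    have hμκ : min κ δ ≤ κ := min_le_left _ _
    have hμδ : min κ δ ≤ δ := min_le_right _ _
    obtain ⟨θ, hθC, hθ⟩ := hw.lim (min ε (min κ δ / 4)) (lt_min hε (by positivity))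
    have hθ1 : v.Ge (ρ - ε) (w - θ) := hθ.mono (by linarith [min_le_left ε (min κ δ / 4)])
    have hθ2 : v.Ge (ρ - min κ δ / 4) (w - θ) := hθ.mono (by linarith [min_le_right ε (min κ δ / 4)])
    have hθge : v.Ge (ρ - κ + min κ δ / 2) θ := by
      have e : θ = w - (w - θ) := by ring
      rw [e]
      exact (hw0.mono (by linarith)).sub (hθ2.mono (by linarith))
    refine ⟨T ⟨θ, hθC⟩, AlgHom.mem_fieldRange.2 ⟨_, rfl⟩, ?_⟩
    have e : w - T ⟨θ, hθC⟩ = (w - θ) - (T ⟨θ, hθC⟩ - θ) := by ring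
    rw [e]
    exact hθ1.sub ((hT ⟨θ, hθC⟩ _ hθge).mono (by linarith))
  far := by
    intro θ hθ
    have hint : IsIntegral T.fieldRange θ := hθ.isIntegral
    obtain ⟨P, hP⟩ := exists_map_eq T (minpoly T.fieldRange θ)
    have h0 : P ≠ 0 := by
      intro h
      rw [h, Polynomial.map_zero] at hP
      exact minpoly.ne_zero hint ((Polynomial.map_eq_zero _).1 hP.symm)
    refine StrE.far (near_strE hw hT hκ hδ hw0 h0) ?_
    rw [hP, eval_map_algebraMap, minpoly.aeval]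

/-- **The closure.** -/
theorem near_cadj (hw : TL v C w ρ) (hT : Near v T κ) (hTX : ∀ x, T x ∈ cadj v C w) (hκ : 0 < κ)
    (hδ : 0 < δ) (hw0 : v.Ge (ρ - κ + δ) w) : cadj v T.fieldRange w = cadj v C w := by
  have hle : cadj v T.fieldRange w ≤ cadj v C w := by
    refine cadj_le (cld_cadj _ _ _) ?_ (self_mem_cadj _ _ _)
    intro y hy
    obtain ⟨x, rfl⟩ := AlgHom.mem_fieldRange.1 hy
    exact hTX x
  refine le_antisymm hle fun x hx => ?_
  have hμ0 : 0 < min κ δ := lt_min hκ hδ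
  -- one step
  have step : ∀ (b : ℝ), ∀ y ∈ cadj v C w, v.Ge b y →
      ∃ y' ∈ cadj v T.fieldRange w, v.Ge (b + min κ δ / 4) (y - y') := by
    intro b y hy hb
    obtain ⟨f, hf, h1⟩ := hw.dense hy (b + min κ δ / 4)
    have h2 : v.Ge b (f.eval w) := by
      have e : f.eval w = y - (y - f.eval w) := by ring
      rw [e]
      exact hb.sub (h1.mono (by linarith))
    obtain ⟨P, hP⟩ : ∃ P : Polynomial C, P.map (algebraMap C Ω) = f := by
      refine ⟨∑ i ∈ range (f.natDegree + 1), monomial i (⟨f.coeff i, hf i⟩ : C), ?_⟩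
      ext n
      rw [coeff_map, finsetSum_coeff]
      simp only [coeff_monomial]
      rw [sum_ite_eq' (range (f.natDegree + 1)) n]
      split_ifs with h2
      · rfl
      · rw [map_zero, coeff_eq_zero_of_natDegree_lt (by simpa using h2)]
    rw [← hP] at h1 h2
    refine ⟨(P.map (T : C →+* Ω)).eval w, ?_, ?_⟩
    · refine eval_mem (fun i => ?_) (self_mem_cadj _ _ _)
      rw [coeff_map]
      exact le_cadj _ _ _ (AlgHom.mem_fieldRange.2 ⟨_, rfl⟩)
    · have h3 := near_eval hw hT hκ hδ hw0 P h2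
      have e : y - (P.map (T : C →+* Ω)).eval w = (y - (P.map (algebraMap C Ω)).eval w) -
          ((P.map (T : C →+* Ω)).eval w - (P.map (algebraMap C Ω)).eval w) := by ring
      rw [e]
      exact h1.sub h3
  have iter : ∀ n : ℕ, ∃ y ∈ cadj v T.fieldRange w, v.Ge (v x + n * (min κ δ / 4)) (x - y) := by
    intro n
    induction n with
    | zero =>
      refine ⟨0, zero_mem _, ?_⟩
      rw [Nat.cast_zero, zero_mul, add_zero, sub_zero]
      exact v.ge_self x
    | succ n ih =>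
      obtain ⟨y, hy, h1⟩ := ih
      obtain ⟨y', hy', h2⟩ := step _ (x - y) (sub_mem hx (hle hy)) h1
      refine ⟨y + y', add_mem hy hy', ?_⟩
      have e : x - (y + y') = x - y - y' := by ring
      rw [e]
      refine h2.mono ?_
      push_cast
      linarith
  refine cld_cadj v T.fieldRange w (mem_clI.2 fun c => ?_)
  obtain ⟨n, hn⟩ := exists_nat_ge ((c - v x) / (min κ δ / 4))
  rw [div_le_iff₀ (by positivity)] at hn
  obtain ⟨y, hy, h1⟩ := iter n
  exact ⟨y, hy, h1.mono (by linarith)⟩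

end Key

section Root

variable [IsAlgClosed Ω] (p : ℕ) [hp : Fact p.Prime] [CharP Ω p]

omit [Algebra k Ω] [Field k] [IsAlgClosed Ω] in
theorem pow_p_inj {a b : Ω} (h : a ^ p = b ^ p) : a = b := by
  have h1 : (a - b) ^ p = 0 := by rw [sub_pow_char, h, sub_self]
  exact sub_eq_zero.1 (pow_eq_zero_iff hp.out.ne_zero |>.1 h1)

/-- `T` extends to the roots. -/
theorem exists_rootHom (T : C →ₐ[k] Ω) {C₁ : IntermediateField k Ω} (h1 : ∀ x ∈ C₁, x ^ p ∈ C) :
    ∃ T₁ : C₁ →ₐ[k] Ω, ∀ x : C₁, (T₁ x) ^ p = T ⟨(x : Ω) ^ p, h1 x x.2⟩ := by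
  have hex : ∀ x : C₁, ∃ y : Ω, y ^ p = T ⟨(x : Ω) ^ p, h1 x x.2⟩ := fun x =>
    IsAlgClosed.exists_pow_nat_eq _ hp.out.pos
  choose r hr using hex
  refine ⟨
    { toFun := r
      map_one' := ?_
      map_mul' := ?_
      map_zero' := ?_
      map_add' := ?_
      commutes' := ?_ }, hr⟩
  · refine pow_p_inj p ?_
    rw [hr, one_pow]
    have e : (⟨((1 : C₁) : Ω) ^ p, h1 _ (1 : C₁).2⟩ : C) = 1 := Subtype.ext (by simp)
    rw [e, map_one]
  · intro x y
    refine pow_p_inj p ?_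
    rw [hr, mul_pow, hr, hr, ← map_mul]
    congr 1
    exact Subtype.ext (by simp [mul_pow])
  · refine pow_p_inj p ?_
    rw [hr, zero_pow hp.out.ne_zero]
    have e : (⟨((0 : C₁) : Ω) ^ p, h1 _ (0 : C₁).2⟩ : C) = 0 :=
      Subtype.ext (by simp [zero_pow hp.out.ne_zero])
    rw [e, map_zero]
  · intro x y
    refine pow_p_inj p ?_
    rw [add_pow_char, hr, hr, hr, ← map_add]
    congr 1
    exact Subtype.ext (by simp [add_pow_char])
  · intro c
    refine pow_p_inj p ?_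
    rw [hr, ← map_pow]
    have e : (⟨((algebraMap k C₁ c : C₁) : Ω) ^ p, h1 _ (algebraMap k C₁ c).2⟩ : C) =
        algebraMap k C (c ^ p) := Subtype.ext (by
      show (algebraMap k Ω c) ^ p = algebraMap k Ω (c ^ p)
      rw [map_pow])
    rw [e, AlgHom.commutes]

/-- **The exchange lemma, 1.** -/
theorem exch0 (hΩ : CompleteV v) (hC : Cld v C) (hw : TL v C w ρ) {T : C →ₐ[k] Ω}
    (hT : Near v T κ) (hTX : ∀ x, T x ∈ cadj v C w) (hκ : 0 < κ) (hδ : 0 < δ)
    (hw0 : v.Ge (ρ - κ + δ) w) {g u : Ω} (hg : g ^ p ∈ C) (hu : u ^ p = T ⟨g ^ p, hg⟩) :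
    ∃ T' : adj C g →ₐ[k] Ω, Near v T' (κ / p) ∧
      (T' ⟨g, (mem_adj_self C g).1⟩ = u) ∧
      (∀ (x : Ω) (hx : x ∈ C), T' ⟨x, (mem_adj_self C g).2 hx⟩ = T ⟨x, hx⟩) ∧
      Cld v T'.fieldRange ∧ TL v T'.fieldRange w ρ ∧
      cadj v T'.fieldRange w = cadj v (cadj v C w) u := by
  have hp0 : (0 : ℝ) < p := by exact_mod_cast hp.out.pos
  have h1 : ∀ x ∈ adj C g, x ^ p ∈ C := fun x hx =>
    (mem_rootF1 p).1 (adj_le (le_rootF p C) ((mem_rootF1 p).2 hg) hx)
  obtain ⟨T₁, hT₁⟩ := exists_rootHom p T h1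
  have hu' : T₁ ⟨g, (mem_adj_self C g).1⟩ = u := pow_p_inj p (by rw [hT₁, hu])
  have hres : ∀ (x : Ω) (hx : x ∈ C), T₁ ⟨x, (mem_adj_self C g).2 hx⟩ = T ⟨x, hx⟩ := by
    intro x hx
    refine pow_p_inj p ?_
    rw [hT₁, ← map_pow]
    rfl
  have hN : Near v T₁ (κ / p) := by
    intro x b hb
    refine ge_of_pow (p := p) ?_
    rw [sub_pow_p, hT₁]
    refine (hT ⟨(x : Ω) ^ p, h1 x x.2⟩ (p * b) (ge_pow hb p)).mono (le_of_eq ?_)
    field_simp
  have hκp : 0 < κ / p := div_pos hκ hp0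
  have hcl : Cld v (adj C g) := cld_adj hΩ hC (isAlgebraic_of_pow_mem p hg)
  have hle : T.fieldRange ≤ T₁.fieldRange := by
    intro y hy
    obtain ⟨x, rfl⟩ := AlgHom.mem_fieldRange.1 hy
    exact AlgHom.mem_fieldRange.2 ⟨_, hres x x.2⟩
  have hle' : T₁.fieldRange ≤ TWM.algc T.fieldRange := by
    intro y hy
    obtain ⟨x, rfl⟩ := AlgHom.mem_fieldRange.1 hy
    refine mem_algc.2 (isAlgebraic_of_pow_mem p ?_)
    show (T₁ x) ^ p ∈ _
    rw [hT₁]
    exact AlgHom.mem_fieldRange.2 ⟨_, rfl⟩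
  have hTL := near_TL hw hT hκ hδ hw0
  refine ⟨T₁, hN, hu', hres, hN.cld hΩ hκp hcl, hTL.mono hle hle', le_antisymm ?_ ?_⟩
  · refine cadj_le (cld_cadj _ _ _) ?_ (le_cadj _ _ _ (self_mem_cadj _ _ _))
    intro y hy
    obtain ⟨x, rfl⟩ := AlgHom.mem_fieldRange.1 hy
    -- the preimage of the right side is a field containing `C` and `g`
    have h2 : (x : Ω) ∈ ((cadj v (cadj v C w) u).comap T₁).map (adj C g).val := by
      refine adj_le (F := ((cadj v (cadj v C w) u).comap T₁).map (adj C g).val) ?_ ?_ x.2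
      · intro z hz
        refine ⟨⟨z, (mem_adj_self C g).2 hz⟩, ?_, rfl⟩
        show T₁ _ ∈ cadj v (cadj v C w) u
        rw [hres z hz]
        exact le_cadj _ _ _ (hTX _)
      · refine ⟨⟨g, (mem_adj_self C g).1⟩, ?_, rfl⟩
        show T₁ _ ∈ cadj v (cadj v C w) u
        rw [hu']
        exact self_mem_cadj _ _ _
    obtain ⟨z, hz, h3⟩ := h2
    have h4 : z = x := Subtype.ext h3
    rw [← h4]
    exact hz
  · have h2 : cadj v C w ≤ cadj v T₁.fieldRange w := by
      rw [← near_cadj hw hT hTX hκ hδ hw0]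
      exact cadj_le (cld_cadj _ _ _) (hle.trans (le_cadj _ _ _)) (self_mem_cadj _ _ _)
    refine cadj_le (cld_cadj _ _ _) h2 (le_cadj _ _ _ ?_)
    rw [← hu']
    exact AlgHom.mem_fieldRange.2 ⟨_, rfl⟩

end Root

end Pool.Agent.TWEX
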