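import Pool.Agent.Lib.TWEX.Exch0
import Pool.Agent.Lib.TWMF.S4
import Pool.Agent.Lib.TWII.Soc

/-!
# TANK W, leaf (II.f): the exchange lemma, 2

* `exists_base0`: an element which is not a `p`-th power, modulo `p`-th powers, is moved into a dense
  subfield by an automorphism near the identity;
* `exists_exch_hom`: `c - g ^ p + r` is the image of an element of a dense subfield;
* `exch1`: the exchange lemma.
-/

set_option autoImplicit false

open Polynomial Finset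

namespace Pool.Agent.TWEX

open Pool.Agent.H15JM (RVal)
open Pool.Agent.LU1 (VPos adj)
open Pool.Agent.D2 (Ctx0)
open Pool.Agent.D2P (clI mem_clI mem_adj_iff mem_adj_self adj_le)
open Pool.Agent.TWM
open Pool.Agent.TWII (PG LP)
open Pool.Agent.TW (mon pcomb Orth PBasis BD)
open Pool.Agent.TWMF.Stb

universe u'

variable {k Ω : Type u'} [Field k] [Field Ω] [Algebra k Ω] {v : RVal Ω}
  {C F₀ : IntermediateField k Ω} {w c r : Ω} {ρ ν κ : ℝ}

/-- The inverse of an automorphism near the identity. -/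
theorem near_aut_symm (hκ : 0 < κ) {ψ : C ≃ₐ[k] C}
    (hψ : ∀ x : C, ∀ b : ℝ, v.Ge b (x : Ω) → v.Ge (b + κ) ((ψ x : Ω) - x)) :
    ∀ x : C, ∀ b : ℝ, v.Ge b (x : Ω) → v.Ge (b + κ) ((ψ.symm x : Ω) - x) := by
  intro y b hb
  have hN : Near v (C.val.comp (ψ : C →ₐ[k] C)) κ := fun x b hx => hψ x b hx
  have h1 : v.Ge b ((ψ.symm y : C) : Ω) := by
    rw [← hN.ge_iff hκ]
    show v.Ge b ((ψ (ψ.symm y) : C) : Ω)
    rwa [ψ.apply_symm_apply]
  have h2 := hψ (ψ.symm y) b h1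
  rw [ψ.apply_symm_apply] at h2
  have e : ((ψ.symm y : C) : Ω) - y = -((y : Ω) - (ψ.symm y : C)) := by ring
  rw [e]
  exact h2.neg

variable [IsAlgClosed k] [IsAlgClosed Ω] (p : ℕ) [hp : Fact p.Prime] [CharP k p] [CharP Ω p]

/-- **A good `p`-basis element in a dense subfield.** -/
theorem exists_base0 (h0 : Ctx0 k v) (hΩ : CompleteV v) (hC : Cld v C)
    (himm : ∀ f ∈ C, f ≠ 0 → ∃ g ∈ C, Gt v (v f) (f - g ^ p))
    {m : ℕ} {t₀ : Fin m → Ω} (ht₀ : PBasis p C t₀) (hF : F₀ ≤ C)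
    (hFd : ∀ x ∈ C, ∀ b : ℝ, ∃ y ∈ F₀, v.Ge b (x - y)) (hc : c ∈ C) (hcp : ∀ g ∈ C, c ≠ g ^ p)
    {κ : ℝ} (hκ : 0 < κ) :
    ∃ (n : ℕ) (s : Fin (n + 1) → Ω), PBasis p C s ∧ OI p v C s (κ / 8) ∧ (∀ i, s i ≠ 0) ∧
      ∃ g ∈ C, s 0 = c - g ^ p ∧ (∃ σ : ℝ, σ - κ / 8 ≤ v (s 0) ∧
        ∀ b ∈ C, s 0 ≠ b ^ p ∧ v (s 0 - b ^ p) < σ) ∧
      ∃ s₀ ∈ F₀, v.Ge (v (s 0) + κ) (s₀ - s 0) ∧ (∀ b ∈ C, s₀ ≠ b ^ p) ∧
        ∃ ψ : C ≃ₐ[k] C, (∀ hs : s 0 ∈ C, (ψ ⟨s 0, hs⟩ : Ω) = s₀) ∧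
          ∀ x : C, ∀ b : ℝ, v.Ge b (x : Ω) → v.Ge (b + κ / 2) ((ψ x : Ω) - x) := by
  obtain ⟨n, s, hs, ho, hs0, g, hg, hsg, σ, hσ1, hσ2⟩ := exists_base h0 hΩ hC himm ht₀ hc hcp
    (e := κ / 8) (by positivity)
  obtain ⟨s₀, hs₀, h1⟩ := hFd (s 0) (hs.mem 0) (v (s 0) + κ)
  have h1' : v.Ge (v (s 0) + κ) (s₀ - s 0) := by
    have e : s₀ - s 0 = -(s 0 - s₀) := by ring
    rw [e]
    exact h1.neg
  have hp1 : (1 : ℝ) ≤ (p : ℝ) - 1 := by
    have : (2 : ℝ) ≤ p := by exact_mod_cast hp.out.two_le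
    linarith
  have hnp : ∀ b ∈ C, s₀ ≠ b ^ p := by
    intro b hb h2
    obtain ⟨h3, h4⟩ := hσ2 b hb
    rw [← h2] at h3 h4
    have h5 := h1 (sub_ne_zero.2 h3)
    linarith
  have hDt : Dt p v C C s (Function.update s 0 s₀) (κ / 8) κ (κ / 2) :=
    { hc := hΩ
      cld := hC
      le := le_rfl
      ht := hs
      ho := ho
      hn :=
        { ne := hs0
          mem := by
            intro i
            by_cases hi : i = 0
            · rw [hi, Function.update_self]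
              exact hF hs₀
            · rw [Function.update_of_ne hi]
              exact hs.mem i
          near := by
            intro i
            by_cases hi : i = 0
            · rw [hi, Function.update_self]
              exact h1'
            · rw [Function.update_of_ne hi, sub_self]
              exact RVal.Ge.zero
          pos := hκ }
      h0 := by positivity
      h1 := by nlinarith
      h2 := by linarith }
  obtain ⟨ψ, h2, h3⟩ := hDt.exists_aut h0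
  refine ⟨n, s, hs, ho, hs0, g, hg, hsg, ⟨σ, hσ1, hσ2⟩, s₀, hs₀, h1', hnp, ψ, fun hi => ?_, h3⟩
  rw [h2 0 hi, Function.update_self]

/-- **The exchange homomorphism.** -/
theorem exists_exch_hom (h0 : Ctx0 k v) (hΩ : CompleteV v) (hC : Cld v C)
    (himm : ∀ f ∈ C, f ≠ 0 → ∃ g ∈ C, Gt v (v f) (f - g ^ p))
    {m : ℕ} {t₀ : Fin m → Ω} (ht₀ : PBasis p C t₀) (hF : F₀ ≤ C)
    (hFd : ∀ x ∈ C, ∀ b : ℝ, ∃ y ∈ F₀, v.Ge b (x - y)) (hc : c ∈ C)
    (hnpg : ¬ PG p v C ν c) {X : IntermediateField k Ω} (hX : Cld v X) (hCX : C ≤ X) (hr : r ∈ X)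
    (hrν : Gt v ν r) :
    ∃ g ∈ C, ∃ s₀ ∈ F₀, (∀ b ∈ C, s₀ ≠ b ^ p) ∧ ∃ κ : ℝ, 0 < κ ∧ ∃ T : C →ₐ[k] Ω,
      Near v T κ ∧ (∀ x, T x ∈ X) ∧ ∀ hs : s₀ ∈ C, T ⟨s₀, hs⟩ = c - g ^ p + r := by
  obtain ⟨κ, hκ, hrκ⟩ := TWLM.exists_ge_of_gt hrν
  have hcp : ∀ g ∈ C, c ≠ g ^ p := by
    intro g hg h1
    exact hnpg (by rw [h1]; exact PG.of_pow hg)
  obtain ⟨n, s, hs, ho, hs0, g, hg, hsg, ⟨σ, hσ1, hσ2⟩, s₀, hs₀, h1, hnp, ψ, hψ0, hψ⟩ :=
    exists_base0 p h0 hΩ hC himm ht₀ hF hFd hc hcp hκ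
  have hp1 : (1 : ℝ) ≤ (p : ℝ) - 1 := by
    have : (2 : ℝ) ≤ p := by exact_mod_cast hp.out.two_le
    linarith
  -- `v (s 0) ≤ ν`
  have hsν : v (s 0) ≤ ν := by
    by_contra h2
    refine hnpg ⟨g, hg, fun h3 => ?_⟩
    rw [← hsg]
    exact not_le.1 h2
  have hDt : Dt p v C X s (Function.update s 0 (s 0 + r)) (κ / 8) κ (κ / 2) :=
    { hc := hΩ
      cld := hX
      le := hCX
      ht := hs
      ho := ho
      hn :=
        { ne := hs0
          mem := by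
            intro i
            by_cases hi : i = 0
            · rw [hi, Function.update_self]
              exact add_mem (hCX (hs.mem 0)) hr
            · rw [Function.update_of_ne hi]
              exact hCX (hs.mem i)
          near := by
            intro i
            by_cases hi : i = 0
            · rw [hi, Function.update_self, add_sub_cancel_left]
              exact hrκ.mono (by linarith)
            · rw [Function.update_of_ne hi, sub_self]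
              exact RVal.Ge.zero
          pos := hκ }
      h0 := by positivity
      h1 := by nlinarith
      h2 := by linarith }
  obtain ⟨T, hTX, hT0, hT⟩ := hDt.exists_hom h0
  refine ⟨g, hg, s₀, hs₀, hnp, κ / 2, half_pos hκ, T.comp (ψ.symm : C →ₐ[k] C), ?_,
    fun x => hTX _, fun h2 => ?_⟩
  · intro x b hb
    have h3 := near_aut_symm (half_pos hκ) hψ x b hb
    have h4 : v.Ge b ((ψ.symm x : C) : Ω) := by
      have e : ((ψ.symm x : C) : Ω) = (((ψ.symm x : C) : Ω) - x) + x := by ring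
      rw [e]
      exact (h3.mono (by linarith)).add hb
    have h5 := hT (ψ.symm x) b h4
    have e : (T.comp (ψ.symm : C →ₐ[k] C)) x - x = (T (ψ.symm x) - ((ψ.symm x : C) : Ω)) +
        (((ψ.symm x : C) : Ω) - x) := by
      show T (ψ.symm x) - x = _
      ring
    rw [e]
    exact h5.add h3
  · have h3 : ψ.symm ⟨s₀, h2⟩ = ⟨s 0, hs.mem 0⟩ := by
      rw [AlgEquiv.symm_apply_eq]
      exact Subtype.ext (hψ0 (hs.mem 0)).symm
    show T (ψ.symm ⟨s₀, h2⟩) = _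
    rw [h3, hT0 0 (hs.mem 0), Function.update_self, hsg]

/-- **The exchange lemma.** -/
theorem exch1 (h0 : Ctx0 k v) (hΩ : CompleteV v) (hC : Cld v C)
    (himm : ∀ f ∈ C, f ≠ 0 → ∃ g ∈ C, Gt v (v f) (f - g ^ p))
    {m : ℕ} {t₀ : Fin m → Ω} (ht₀ : PBasis p C t₀) (hF : F₀ ≤ C)
    (hFd : ∀ x ∈ C, ∀ b : ℝ, ∃ y ∈ F₀, v.Ge b (x - y)) (hw : TL v C w ρ) (hc : c ∈ C)
    (hnpg : ¬ PG p v C ν c) (hr : r ∈ cadj v C w) (hrν : Gt v ν r) :
    ∃ g ∈ C, ∃ β : Ω, β ^ p ∈ F₀ ∧ β ∉ C ∧ ∃ κ : ℝ, 0 < κ ∧ ∃ T' : adj C β →ₐ[k] Ω,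
      Near v T' κ ∧ Cld v T'.fieldRange ∧ ∃ θ ∈ C, TL v T'.fieldRange (w - θ) ρ ∧
      ∀ u : Ω, u ^ p = c - g ^ p + r →
        cadj v (cadj v C w) u = cadj v T'.fieldRange (w - θ) := by
  obtain ⟨g, hg, s₀, hs₀, hnp, κ, hκ, T, hT, hTX, hT0⟩ := exists_exch_hom p h0 hΩ hC himm ht₀ hF
    hFd hc hnpg (cld_cadj v C w) (le_cadj v C w) hr hrν
  obtain ⟨β, hβ⟩ := IsAlgClosed.exists_pow_nat_eq s₀ hp.out.pos
  obtain ⟨θ, hθ, h1⟩ := hw.lim (κ / 2) (half_pos hκ)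
  have hβC : β ^ p ∈ C := by
    rw [hβ]
    exact hF hs₀
  obtain ⟨u₀, hu₀⟩ := IsAlgClosed.exists_pow_nat_eq (c - g ^ p + r) hp.out.pos
  have hw' : TL v C (w - θ) ρ := hw.sub_mem hθ
  have hcw : cadj v C (w - θ) = cadj v C w := cadj_sub_mem hθ
  obtain ⟨T', h2, h3, h4, h5, h6, h7⟩ := exch0 p hΩ hC hw' hT (fun x => by
    rw [hcw]
    exact hTX x) hκ (δ := κ / 2) (half_pos hκ) (h1.mono (by linarith)) hβC (u := u₀) (by
      rw [hu₀, ← hT0 (hF hs₀)]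
      congr 1
      exact Subtype.ext hβ.symm)
  have hp0 : (0 : ℝ) < p := by exact_mod_cast hp.out.pos
  refine ⟨g, hg, β, by rw [hβ]; exact hs₀, fun h8 => hnp β h8 hβ.symm, κ / p, div_pos hκ hp0, T',
    h2, h5, θ, hθ, h6, fun u hu => ?_⟩
  have h8 : u = u₀ := pow_p_inj p (by rw [hu, hu₀])
  rw [h8, h7, hcw]

end Pool.Agent.TWEX
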