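import Pool.Agent.Lib.TWJ.EXG
import Pool.Agent.Lib.TWM.X2

/-!
# TANK W, exit of the strict case, generation (1)

* `root_mem_of_bd`: a `p`-th root, in the closure, of an element of a field with bounded distortion;
* `hen_eq_of_clI`: a finitely generated subfield of the henselization of `K₀` with the same closure
  has the same henselization.
-/

set_option autoImplicit false

open Polynomial

namespace Pool.Agent.TWEX

open Pool.Agent.H15JM (RVal)
open Pool.Agent.LU1 (VPos adj)
open Pool.Agent.LUC (Cl clF)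
open Pool.Agent.D2 (Ctx0)
open Pool.Agent.D2P (hen clI mem_clI mem_hen le_hen hen_hen hen_mono hen_le mem_adj_self adj_le)
open Pool.Agent.TW
open Pool.Agent.TWM (CompleteV le_clI clI_mono clI_clI clI_hen OI pbasis_clI cld_clI)

universe u

variable {k Ω : Type u} [Field k] [Field Ω] [Algebra k Ω] {v : RVal Ω}

/-- A `p`-th root in the closure. -/
theorem root_mem_of_bd (p : ℕ) [hp : Fact p.Prime] [CharP Ω p] {E : IntermediateField k Ω}
    (hBD : BD p v E) {y : Ω} (hy : y ∈ clI v E) (hyp : y ^ p ∈ E) : y ∈ E := by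
  classical
  have hp0 := hp.out.pos
  obtain ⟨n, t, ht, C, hC⟩ := hBD
  obtain ⟨c, hc, hcy⟩ := ht.span _ hyp
  by_contra hyE
  let α₀ : Fin n → Fin p := fun _ => ⟨0, hp0⟩
  have hm0 : mon t α₀ = 1 := by
    unfold mon
    exact Finset.prod_eq_one fun i _ => pow_zero _
  -- a coefficient
  obtain ⟨α, hα, hcα⟩ : ∃ α, α ≠ α₀ ∧ c α ≠ 0 := by
    by_contra hno
    push Not at hno
    apply hyE
    have h1 : y ^ p = (c α₀) ^ p := by
      rw [hcy, pcomb, Finset.sum_eq_single α₀]
      · rw [hm0, mul_one]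
      · intro α _ hα
        rw [hno α hα, zero_pow hp.out.ne_zero, zero_mul]
      · exact fun h => absurd (Finset.mem_univ _) h
    have h2 : (y - c α₀) ^ p = 0 := by rw [sub_pow_char, h1, sub_self]
    have h3 := sub_eq_zero.1 (pow_eq_zero_iff hp.out.ne_zero |>.1 h2)
    rw [h3]
    exact hc _
  by_cases hmα : mon t α = 0
  · -- the monomials are not zero
    have h1 := ht.ind (Pi.single α 1) (fun β => by
      by_cases h : β = α
      · subst h
        rw [Pi.single_eq_same]
        exact E.one_mem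
      · rw [Pi.single_eq_of_ne h]
        exact E.zero_mem) (by
      rw [pcomb, Finset.sum_eq_single α]
      · rw [hmα, mul_zero]
      · intro β _ hβ
        rw [Pi.single_eq_of_ne hβ, zero_pow hp.out.ne_zero, zero_mul]
      · exact fun h => absurd (Finset.mem_univ _) h) α
    rw [Pi.single_eq_same] at h1
    exact one_ne_zero h1
  have hx0 : c α ^ p * mon t α ≠ 0 := mul_ne_zero (pow_ne_zero _ hcα) hmα
  set B : ℝ := (|v (c α ^ p * mon t α)| + |C|) + 1 with hB
  obtain ⟨w, hw, hyw⟩ := mem_clI.1 hy B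
  have hyw0 : y - w ≠ 0 := by
    intro h
    rw [sub_eq_zero.1 h] at hyE
    exact hyE hw
  have h1 : y ^ p - w ^ p = pcomb t (fun β => if β = α₀ then c α₀ - w else c β) := by
    rw [hcy, pcomb, pcomb, ← Finset.add_sum_erase _ _ (Finset.mem_univ α₀),
      ← Finset.add_sum_erase _ (fun β => (if β = α₀ then c α₀ - w else c β) ^ p * mon t β)
        (Finset.mem_univ α₀)]
    rw [if_pos rfl, hm0, mul_one, mul_one, sub_pow_char]
    have h2 : ∑ x ∈ Finset.univ.erase α₀, (if x = α₀ then c α₀ - w else c x) ^ p * mon t x =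
        ∑ x ∈ Finset.univ.erase α₀, c x ^ p * mon t x :=
      Finset.sum_congr rfl fun x hx => by rw [if_neg (Finset.ne_of_mem_erase hx)]
    rw [h2]
    ring
  have h2 : y ^ p - w ^ p ≠ 0 := by
    rw [← sub_pow_char]
    exact pow_ne_zero _ hyw0
  have h3 := hC (fun β => if β = α₀ then c α₀ - w else c β) (fun β => by
    split_ifs
    · exact E.sub_mem (hc _) hw
    · exact hc _) (by rwa [← h1]) α
  rw [if_neg hα, ← h1] at h3
  have h4 := h3 hx0
  rw [← sub_pow_char, v.map_pow hyw0] at h4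
  have h5 := hyw hyw0
  have h6 : (1 : ℝ) ≤ p := by exact_mod_cast hp.out.one_le
  have h7 := le_abs_self (v (c α ^ p * mon t α))
  have h8 := le_abs_self C
  have h9 := abs_nonneg (v (c α ^ p * mon t α))
  have h10 := abs_nonneg C
  have h11 : v (y - w) ≤ p * v (y - w) := by nlinarith
  linarith

theorem mem_of_pow_clI (p : ℕ) [hp : Fact p.Prime] [CharP Ω p] {E : IntermediateField k Ω}
    (hBD : BD p v E) (n : ℕ) {y : Ω} (hy : y ∈ clI v E) (hyp : y ^ p ^ n ∈ E) : y ∈ E := by
  induction n generalizing y with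
  | zero => simpa using hyp
  | succ n ih =>
    refine root_mem_of_bd p hBD hy (ih (pow_mem hy p) ?_)
    rwa [← pow_mul, ← pow_succ']

/-- **Subfields with the same closure.** -/
theorem hen_eq_of_clI [IsAlgClosed k] (p : ℕ) [hp : Fact p.Prime] [CharP k p] [CharP Ω p]
    (hcv : CompleteV v) {K₀ E : IntermediateField k Ω} (hK : K₀.FG) (hE : E.FG)
    (hBD : BD p v K₀) (hle : E ≤ hen v K₀) (hcl : K₀ ≤ clI v E) : hen v E = hen v K₀ := by
  classical
  obtain ⟨n, s, hs, C, hC⟩ := id hBD
  have htr : Algebra.trdeg k K₀ = n := (hs.trdeg p hK).1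
  have hos : OI p v (clI v K₀) s C := (OI.of_orth_pb hC hs).cl
  have hpb : PBasis p (clI v K₀) s := pbasis_clI hcv hs hos
  have hBD' : BD p v (clI v K₀) := ⟨_, s, hpb, C, hos.orth⟩
  have hcl' : clI v E = clI v K₀ := by
    apply le_antisymm
    · rw [← clI_hen K₀]
      exact clI_mono hle
    · rw [← clI_clI (v := v) (E := E)]
      exact clI_mono hcl
  obtain ⟨hge, hbd⟩ := TWJ.BD_dense hBD' hpb hE hcl'
  have hW : ∀ {A : IntermediateField k Ω}, A ≤ TGL44.Wc K₀ → Algebra.trdeg k A ≤ n := by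
    intro A hA
    have h1 : Algebra.trdeg k A ≤ Algebra.trdeg k (TGL44.Wc K₀) :=
      _root_.trdeg_le_of_injective (IntermediateField.inclusion hA)
        (IntermediateField.inclusion_injective hA)
    rwa [TGL44.trdeg_Wc, htr] at h1
  have hhW : hen v K₀ ≤ TGL44.Wc K₀ := fun x hx =>
    TGL44.mem_Wc.2 (mem_hen.1 hx).2.isIntegral.isAlgebraic
  have htrE : Algebra.trdeg k E = n := le_antisymm (hW (hle.trans hhW)) hge
  have hBDE := (hbd htrE).hen'
  refine le_antisymm (hen_le (hen_hen _) hle) (hen_le (hen_hen _) fun x hx => ?_)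
  have halg : IsAlgebraic E x := by
    by_contra hX
    have h1 : adj E x ≤ TGL44.Wc K₀ :=
      adj_le (hle.trans hhW) (TGL44.le_Wc hx)
    have h2 := hW h1
    rw [HRLU.trdeg_adj hX, htrE] at h2
    have h3 : n + 1 ≤ n := by exact_mod_cast h2
    omega
  obtain ⟨m, hm⟩ := TWM.exists_sep_pow (p := p) halg
  refine mem_of_pow_clI p hBDE m ?_ ?_
  · rw [clI_hen]
    exact hcl hx
  · rw [mem_hen]
    exact ⟨mem_clI.1 (pow_mem (hcl hx) _), hm⟩

end Pool.Agent.TWEX
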