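import Pool.Agent.Lib.TWEX.GenA
import Pool.Agent.Lib.TWM.S8b
import Pool.Agent.Lib.TWLM.Fib
import Mathlib.RingTheory.MvPolynomial.Basic

/-!
# TANK W, exit of the strict case, generation (2)

* `JF v N₀ T J A`: `A` is a function of the coordinates in `J`, continuous at `T`, with values in
  every field which contains `N₀` and these coordinates (polynomials and quotients over `N₀`);
* `exists_back`: if `T' i = T i + ∑ A i l (T) d^l` (triangular) and `d'` is near `d`, every field which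
  contains `N₀`, the `T' i` and `d'` contains coordinates near `T`;
* `transport`: coordinates near `T` are isometric to `T`;
* `hen_eq_of_near`: a finitely generated subfield of the henselization of `K₀` which contains
  coordinates near `T` has the henselization of `K₀`;
* `hen_eq_of_moved`: both together.
-/

set_option autoImplicit false

open Polynomial

namespace Pool.Agent.TWEX

open Pool.Agent.H15JM (RVal)
open Pool.Agent.LU1 (VPos adj)
open Pool.Agent.LUC (Cl clF)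
open Pool.Agent.D2 (Ctx0)
open Pool.Agent.D2P (hen clI mem_clI mem_hen le_hen hen_hen hen_mono hen_le mem_adj_self adj_le)
open Pool.Agent.TW
open Pool.Agent.TWM (CompleteV le_clI clI_mono clI_clI clI_hen OI pbasis_clI cld_clI PI ge_pow
  ge_sub_comm Gt)

universe u

variable {k Ω : Type u} [Field k] [Field Ω] [Algebra k Ω] {v : RVal Ω}

/-- A function of the coordinates in `J`, continuous at `T`, with values in every field which
contains `N₀` and these coordinates. -/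
structure JF (v : RVal Ω) (N₀ : IntermediateField k Ω) {m : ℕ} (T : Fin m → Ω) (J : Set (Fin m))
    (A : (Fin m → Ω) → Ω) : Prop where
  mem : ∀ M : IntermediateField k Ω, N₀ ≤ M → ∀ t : Fin m → Ω, (∀ j ∈ J, t j ∈ M) → A t ∈ M
  cont : ∀ B : ℝ, ∃ δ : ℝ, ∀ t : Fin m → Ω, (∀ j ∈ J, v.Ge δ (T j - t j)) → v.Ge B (A T - A t)

namespace JF

variable {N₀ : IntermediateField k Ω} {m : ℕ} {T : Fin m → Ω} {J J' : Set (Fin m)}
  {A A' : (Fin m → Ω) → Ω}

theorem mono (h : JF v N₀ T J A) (hJ : J ⊆ J') : JF v N₀ T J' A :=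
  ⟨fun M hM t ht => h.mem M hM t fun j hj => ht j (hJ hj), fun B => by
    obtain ⟨δ, hδ⟩ := h.cont B
    exact ⟨δ, fun t ht => hδ t fun j hj => ht j (hJ hj)⟩⟩

theorem const {n : Ω} (hn : n ∈ N₀) : JF v N₀ T J fun _ => n :=
  ⟨fun _ hM _ _ => hM hn, fun B => ⟨0, fun t _ => by rw [sub_self]; exact RVal.Ge.zero⟩⟩

theorem coord {j : Fin m} (hj : j ∈ J) : JF v N₀ T J fun t => t j :=
  ⟨fun _ _ _ ht => ht j hj, fun B => ⟨B, fun _ ht => ht j hj⟩⟩

theorem add (h : JF v N₀ T J A) (h' : JF v N₀ T J A') : JF v N₀ T J fun t => A t + A' t :=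
  ⟨fun M hM t ht => add_mem (h.mem M hM t ht) (h'.mem M hM t ht), fun B => by
    obtain ⟨δ, hδ⟩ := h.cont B
    obtain ⟨δ', hδ'⟩ := h'.cont B
    refine ⟨max δ δ', fun t ht => ?_⟩
    have h1 := hδ t fun j hj => (ht j hj).mono (le_max_left _ _)
    have h2 := hδ' t fun j hj => (ht j hj).mono (le_max_right _ _)
    rw [add_sub_add_comm]
    exact h1.add h2⟩

theorem neg (h : JF v N₀ T J A) : JF v N₀ T J fun t => -A t :=
  ⟨fun M hM t ht => neg_mem (h.mem M hM t ht), fun B => by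
    obtain ⟨δ, hδ⟩ := h.cont B
    refine ⟨δ, fun t ht => ?_⟩
    have e : -A T - -A t = -(A T - A t) := by ring
    rw [e]
    exact (hδ t ht).neg⟩

theorem sub (h : JF v N₀ T J A) (h' : JF v N₀ T J A') : JF v N₀ T J fun t => A t - A' t := by
  have := h.add h'.neg
  simpa only [sub_eq_add_neg] using this

theorem mul (h : JF v N₀ T J A) (h' : JF v N₀ T J A') : JF v N₀ T J fun t => A t * A' t :=
  ⟨fun M hM t ht => mul_mem (h.mem M hM t ht) (h'.mem M hM t ht), fun B => by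
    obtain ⟨c, hc⟩ := TWLM.exists_ge v (A T)
    obtain ⟨c', hc'⟩ := TWLM.exists_ge v (A' T)
    obtain ⟨δ, hδ⟩ := h.cont (max (B - c') (|B|))
    obtain ⟨δ', hδ'⟩ := h'.cont (max (B - c) (|B|))
    refine ⟨max δ δ', fun t ht => ?_⟩
    have h1 := hδ t fun j hj => (ht j hj).mono (le_max_left _ _)
    have h2 := hδ' t fun j hj => (ht j hj).mono (le_max_right _ _)
    have e : A T * A' T - A t * A' t = (A T - A t) * A' T + A T * (A' T - A' t) -
        (A T - A t) * (A' T - A' t) := by ring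
    rw [e]
    refine (RVal.Ge.add ?_ ?_).sub ?_
    · exact (h1.mul hc').mono (by linarith [le_max_left (B - c') (|B|)])
    · exact (hc.mul h2).mono (by linarith [le_max_left (B - c) (|B|)])
    · exact (h1.mul h2).mono (by
        linarith [le_max_right (B - c') (|B|), le_max_right (B - c) (|B|), le_abs_self B,
          abs_nonneg B])⟩

theorem one : JF v N₀ T J fun _ => (1 : Ω) := const N₀.one_mem

theorem pow (h : JF v N₀ T J A) (n : ℕ) : JF v N₀ T J fun t => A t ^ n := by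
  induction n with
  | zero =>
    simp only [pow_zero]
    exact one
  | succ n ih =>
    simp only [pow_succ]
    exact ih.mul h

theorem sum {ι : Type*} (S : Finset ι) (f : ι → (Fin m → Ω) → Ω)
    (hf : ∀ i ∈ S, JF v N₀ T J (f i)) : JF v N₀ T J fun t => ∑ i ∈ S, f i t := by
  classical
  induction S using Finset.induction_on with
  | empty =>
    simp only [Finset.sum_empty]
    exact const N₀.zero_mem
  | insert a S ha ih =>
    simp only [Finset.sum_insert ha]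
    exact (hf a (Finset.mem_insert_self a S)).add
      (ih fun i hi => hf i (Finset.mem_insert_of_mem hi))

theorem prod {ι : Type*} (S : Finset ι) (f : ι → (Fin m → Ω) → Ω)
    (hf : ∀ i ∈ S, JF v N₀ T J (f i)) : JF v N₀ T J fun t => ∏ i ∈ S, f i t := by
  classical
  induction S using Finset.induction_on with
  | empty =>
    simp only [Finset.prod_empty]
    exact one
  | insert a S ha ih =>
    simp only [Finset.prod_insert ha]
    exact (hf a (Finset.mem_insert_self a S)).mul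
      (ih fun i hi => hf i (Finset.mem_insert_of_mem hi))

/-- Continuity of the inverse. -/
theorem inv (h : JF v N₀ T J A) (h0 : A T ≠ 0) : JF v N₀ T J fun t => (A t)⁻¹ :=
  ⟨fun M hM t ht => inv_mem (h.mem M hM t ht), fun B => by
    obtain ⟨δ, hδ⟩ := h.cont (max (B + 2 * v (A T)) (v (A T) + 1))
    refine ⟨δ, fun t ht => ?_⟩
    have h1 := hδ t ht
    obtain ⟨h2, h3⟩ := TWM.Gt.val_eq (v := v) h0
      (TWM.Gt.of_ge (h1.mono (le_max_right _ _)) (by linarith))
    have e : (A T)⁻¹ - (A t)⁻¹ = -(A T - A t) * (A T * A t)⁻¹ := by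
      field_simp
      ring
    rw [e]
    refine (h1.neg.mul (RVal.ge_self (v := v) (A T * A t)⁻¹)).mono ?_
    rw [v.map_inv (mul_ne_zero h0 h2), v.map_mul h0 h2, h3]
    linarith [le_max_left (B + 2 * v (A T)) (v (A T) + 1)]⟩

theorem div (h : JF v N₀ T J A) (h' : JF v N₀ T J A') (h0 : A' T ≠ 0) :
    JF v N₀ T J fun t => A t / A' t := by
  simp only [div_eq_mul_inv]
  exact h.mul (h'.inv h0)

/-- Polynomials over `N₀` in one coordinate. -/
theorem eval {f : Polynomial Ω} (hf : f ∈ PI N₀) (h : JF v N₀ T J A) :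
    JF v N₀ T J fun t => f.eval (A t) := by
  have e : (fun t => f.eval (A t)) = fun t => ∑ i ∈ Finset.range (f.natDegree + 1),
      f.coeff i * A t ^ i := by
    funext t
    rw [eval_eq_sum_range]
  rw [e]
  exact sum _ _ fun i _ => (const (hf i)).mul (h.pow i)

/-- Polynomials over `N₀`. -/
theorem aeval {P : MvPolynomial (Fin m) N₀} (hP : ∀ j ∈ P.vars, j ∈ J) :
    JF v N₀ T J fun t => MvPolynomial.aeval t P := by
  classical
  have e : (fun t => MvPolynomial.aeval t P) = fun t : Fin m → Ω => ∑ d ∈ P.support,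
      ((P.coeff d : N₀) : Ω) * ∏ i, t i ^ d i := by
    funext t
    rw [MvPolynomial.aeval_def, MvPolynomial.eval₂_eq']
    rfl
  rw [e]
  refine sum _ _ fun d hd => (const (P.coeff d).2).mul (prod _ _ fun i _ => ?_)
  by_cases hi : d i = 0
  · simp only [hi, pow_zero]
    exact one
  · refine (coord (hP i ?_)).pow _
    rw [MvPolynomial.mem_vars_iff_mem_support]
    exact ⟨d, hd, Finsupp.mem_support_iff.2 hi⟩

end JF

/-- Powers of near elements. -/
theorem pow_near {d d' : Ω} {B Λ : ℝ} (hd : v.Ge B d) (hd' : v.Ge B d') (h : v.Ge Λ (d - d'))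
    (l : ℕ) : v.Ge (Λ + (l - 1 : ℕ) * B) (d ^ l - d' ^ l) := by
  rcases Nat.eq_zero_or_pos l with rfl | hl
  · rw [pow_zero, pow_zero, sub_self]
    exact RVal.Ge.zero
  · rw [← geom_sum₂_mul, mul_comm (Finset.sum _ _)]
    refine h.mul (RVal.Ge.sum _ _ fun i hi => ?_)
    rw [Finset.mem_range] at hi
    refine ((ge_pow hd i).mul (ge_pow hd' (l - 1 - i))).mono (le_of_eq ?_)
    rw [← add_mul, ← Nat.cast_add]
    congr 2
    omega

/-- **Going back.** -/
theorem exists_back {N₀ : IntermediateField k Ω} {m : ℕ} {T : Fin m → Ω} {S : Finset ℕ}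
    {A : Fin m → ℕ → (Fin m → Ω) → Ω} (hA : ∀ i, ∀ l ∈ S, JF v N₀ T {j | j < i} (A i l))
    (B₀ δ₀ : ℝ) :
    ∃ Λ : ℝ, ∀ (d d' : Ω) (T' : Fin m → Ω) (M : IntermediateField k Ω), v.Ge B₀ d →
      v.Ge Λ (d - d') → (∀ i, T' i = T i + ∑ l ∈ S, A i l T * d ^ l) → N₀ ≤ M → d' ∈ M →
      (∀ i, T' i ∈ M) → ∃ t : Fin m → Ω, (∀ i, t i ∈ M) ∧ ∀ i, v.Ge δ₀ (T i - t i) := by
  classical
  have key : ∀ s : ℕ, s ≤ m → ∀ δ₀ : ℝ, ∃ Λ : ℝ, ∀ (d d' : Ω) (T' : Fin m → Ω)
      (M : IntermediateField k Ω), v.Ge B₀ d →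
      v.Ge Λ (d - d') → (∀ i, T' i = T i + ∑ l ∈ S, A i l T * d ^ l) → N₀ ≤ M → d' ∈ M →
      (∀ i, T' i ∈ M) → ∃ t : Fin m → Ω, ∀ i : Fin m, (i : ℕ) < s → t i ∈ M ∧
        v.Ge δ₀ (T i - t i) := by
    intro s
    induction s with
    | zero => exact fun _ _ => ⟨0, fun _ _ T' _ _ _ _ _ _ _ => ⟨T', fun i hi => by omega⟩⟩
    | succ s ih =>
      intro hs δ₀
      let i₀ : Fin m := ⟨s, hs⟩
      -- the continuity of the coefficients
      have hex : ∀ l : ℕ, ∃ δ : ℝ, l ∈ S → ∀ t : Fin m → Ω, (∀ j, j < i₀ → v.Ge δ (T j - t j)) →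
          v.Ge (δ₀ - l * B₀) (A i₀ l T - A i₀ l t) := by
        intro l
        by_cases hl : l ∈ S
        · obtain ⟨δ, hδ⟩ := (hA i₀ l hl).cont (δ₀ - l * B₀)
          exact ⟨δ, fun _ t ht => hδ t ht⟩
        · exact ⟨0, fun h => absurd h hl⟩
      choose δ hδ using hex
      have hex2 : ∀ l : ℕ, ∃ c : ℝ, v.Ge c (A i₀ l T) := fun l => TWLM.exists_ge v _
      choose c hc using hex2
      obtain ⟨δ₁, hδ₁, hδ₁'⟩ : ∃ δ₁ : ℝ, δ₀ ≤ δ₁ ∧ ∀ l ∈ S, δ l ≤ δ₁ := by
        obtain ⟨X, hX⟩ := (S.image δ).bddAbove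
        exact ⟨max δ₀ X, le_max_left _ _, fun l hl =>
          (hX (Finset.mem_coe.2 (Finset.mem_image_of_mem δ hl))).trans (le_max_right _ _)⟩
      obtain ⟨Λ₁, hΛ₁⟩ := ih (by omega) δ₁
      obtain ⟨Λ₂, hΛ₂⟩ : ∃ Λ₂ : ℝ, ∀ l ∈ S, δ₀ - c l - (l - 1 : ℕ) * B₀ ≤ Λ₂ := by
        obtain ⟨X, hX⟩ := (S.image fun l => δ₀ - c l - (l - 1 : ℕ) * B₀).bddAbove
        exact ⟨X, fun l hl => hX (Finset.mem_coe.2
          (Finset.mem_image_of_mem (fun l : ℕ => δ₀ - c l - (l - 1 : ℕ) * B₀) hl))⟩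
      refine ⟨max (max Λ₁ Λ₂) B₀, fun d d' T' M hd hdd hT' hNM hd'M hT'M => ?_⟩
      obtain ⟨t, ht⟩ := hΛ₁ d d' T' M hd (hdd.mono ((le_max_left _ _).trans (le_max_left _ _)))
        hT' hNM hd'M hT'M
      have hd' : v.Ge B₀ d' := by
        have e : d' = d - (d - d') := by ring
        rw [e]
        exact hd.sub (hdd.mono (le_max_right _ _))
      have hltM : ∀ j ∈ {j : Fin m | j < i₀}, t j ∈ M := fun j hj => (ht j hj).1
      refine ⟨Function.update t i₀ (T' i₀ - ∑ l ∈ S, A i₀ l t * d' ^ l), fun i hi => ?_⟩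
      by_cases hii : i = i₀
      · subst hii
        rw [Function.update_self]
        refine ⟨sub_mem (hT'M _) (sum_mem fun l hl => mul_mem ((hA i₀ l hl).mem M hNM t hltM)
          (pow_mem hd'M l)), ?_⟩
        have e : T i₀ - (T' i₀ - ∑ l ∈ S, A i₀ l t * d' ^ l) =
            -∑ l ∈ S, ((A i₀ l T - A i₀ l t) * d' ^ l + A i₀ l T * (d ^ l - d' ^ l)) := by
          have e1 : ∑ l ∈ S, ((A i₀ l T - A i₀ l t) * d' ^ l + A i₀ l T * (d ^ l - d' ^ l)) =
              ∑ l ∈ S, A i₀ l T * d ^ l - ∑ l ∈ S, A i₀ l t * d' ^ l := by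
            rw [← Finset.sum_sub_distrib]
            refine Finset.sum_congr rfl fun l _ => ?_
            ring
          rw [e1, hT']
          ring
        rw [e]
        refine (RVal.Ge.sum _ _ fun l hl => RVal.Ge.add ?_ ?_).neg
        · refine ((hδ l hl t fun j hj => ((ht j hj).2).mono (hδ₁' l hl)).mul
            (ge_pow hd' l)).mono (le_of_eq (by ring))
        · refine ((hc l).mul (pow_near hd hd' hdd l)).mono ?_
          have h1 := hΛ₂ l hl
          have h2 : Λ₂ ≤ max (max Λ₁ Λ₂) B₀ := (le_max_right _ _).trans (le_max_left _ _)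
          linarith
      · rw [Function.update_of_ne hii]
        have hi' : (i : ℕ) < s := by
          have : (i : ℕ) ≠ s := fun h => hii (Fin.ext h)
          omega
        exact ⟨(ht i hi').1, (ht i hi').2.mono hδ₁⟩
  obtain ⟨Λ, hΛ⟩ := key m le_rfl δ₀
  refine ⟨Λ, fun d d' T' M h1 h2 h3 h4 h5 h6 => ?_⟩
  obtain ⟨t, ht⟩ := hΛ d d' T' M h1 h2 h3 h4 h5 h6
  exact ⟨t, fun i => (ht i i.2).1, fun i => (ht i i.2).2⟩

section Bd

variable [IsAlgClosed k] {p : ℕ} [Fact p.Prime] [CharP k p] [CharP Ω p]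

/-- Bounded distortion of generators of the closure. -/
theorem oi_of_gen (hc : CompleteV v) {E : IntermediateField k Ω} (hE : E.FG) {n : ℕ}
    (htr : Algebra.trdeg k E = n) (hBD : BD p v E) {T : Fin n → Ω}
    (hcl : clI v E = clI v (kr k T)) :
    (∀ i, T i ≠ 0) ∧ (∃ C : ℝ, OI p v (clI v E) T C) ∧ AlgebraicIndependent k T := by
  obtain ⟨m, s, hs, C, hC⟩ := id hBD
  have hm : m = n := by
    have h1 := (hs.trdeg p hE).1
    rw [htr] at h1
    exact_mod_cast h1.symm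
  subst hm
  have hos : OI p v (clI v E) s C := (OI.of_orth_pb hC hs).cl
  have hpb : PBasis p (clI v E) s := pbasis_clI hc hs hos
  have hBD' : BD p v (clI v E) := ⟨_, s, hpb, C, hos.orth⟩
  obtain ⟨-, hT0, C₁, hC₁⟩ := TWM.gen_of_bas hBD' hpb hcl.symm
  refine ⟨hT0, ⟨C₁, hC₁⟩, ?_⟩
  have hle : kr k T ≤ clI v E := by
    rw [hcl]
    exact le_clI _
  exact (hC₁.mono hle le_rfl).algInd hT0

/-- **Transport.** Coordinates near `T` are isometric to `T`. -/
theorem transport (h0 : Ctx0 k v) (hc : CompleteV v) {E : IntermediateField k Ω} (hE : E.FG)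
    {n : ℕ} (htr : Algebra.trdeg k E = n) (hBD : BD p v E) {T : Fin n → Ω}
    (hcl : clI v E = clI v (kr k T)) (η : ℝ) :
    ∃ δ : ℝ, ∀ t : Fin n → Ω, (∀ i, v.Ge δ (T i - t i)) → ∃ κ : ℝ, η ≤ κ ∧ Near k v T t κ := by
  obtain ⟨hT0, ⟨C, hC⟩, -⟩ := oi_of_gen hc hE htr hBD hcl
  have hle : kr k T ≤ clI v E := by
    rw [hcl]
    exact le_clI _
  obtain ⟨C', hC', hN⟩ := TWM.near_of_oi h0 (hC.mono hle le_rfl) hT0
  refine ⟨(∑ i, |v (T i)|) + (C' + max η 1), fun t ht => ?_⟩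
  refine ⟨C' + max η 1 - C', by linarith [le_max_left η 1], ?_⟩
  refine hN (C' + max η 1) t (by linarith [le_max_right η 1]) fun i => (ht i).mono ?_
  have h1 : |v (T i)| ≤ ∑ i, |v (T i)| :=
    Finset.single_le_sum (f := fun i => |v (T i)|) (fun i _ => abs_nonneg _) (Finset.mem_univ i)
  linarith [le_abs_self (v (T i))]

/-- **Fields with coordinates near `T`.** -/
theorem hen_eq_of_near (h0 : Ctx0 k v) (hc : CompleteV v) {K₀ : IntermediateField k Ω}
    (hK : K₀.FG) {n : ℕ} (htr : Algebra.trdeg k K₀ = n) (hBD : BD p v K₀) {T : Fin n → Ω}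
    (hcl : clI v K₀ = clI v (kr k T)) :
    ∃ δ : ℝ, ∀ E : IntermediateField k Ω, E.FG → E ≤ hen v K₀ →
      (∃ t : Fin n → Ω, (∀ i, t i ∈ E) ∧ ∀ i, v.Ge δ (T i - t i)) → hen v E = hen v K₀ := by
  obtain ⟨hT0, ⟨C, hC⟩, -⟩ := oi_of_gen hc hK htr hBD hcl
  obtain ⟨δ, hδ⟩ := TWM.pert h0 hcl.symm hC hT0
  refine ⟨δ, fun E hE hle ⟨t, htE, htT⟩ => hen_eq_of_clI p hc hK hE hBD hle ?_⟩
  have hEcl : E ≤ clI v K₀ := by
    rw [← clI_hen K₀]
    exact hle.trans (le_clI _)
  have h1 := hδ t (fun i => hEcl (htE i)) htT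
  refine (le_clI (v := v) K₀).trans ?_
  rw [← h1]
  exact clI_mono (IntermediateField.adjoin_le_iff.2 (by rintro _ ⟨i, rfl⟩; exact htE i))

/-- **Moved coordinates generate**: `T` are coordinates of `K₀` over `k`, `T' i = T i + ∑ A i l(T) d^l`
(triangular; `A i l = 0` for the coordinates of `N₀`), `E` is finitely generated, in the henselization
of `K₀`, contains `N₀`, the `T' i` and an element `d'` near enough to `d`. -/
theorem hen_eq_of_moved (h0 : Ctx0 k v) (hc : CompleteV v) {K₀ : IntermediateField k Ω}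
    (hK : K₀.FG) {n : ℕ} (htr : Algebra.trdeg k K₀ = n) (hBD : BD p v K₀) {T : Fin n → Ω}
    (hcl : clI v K₀ = clI v (kr k T)) {N₀ : IntermediateField k Ω} {S : Finset ℕ}
    {A : Fin n → ℕ → (Fin n → Ω) → Ω} (hA : ∀ i, ∀ l ∈ S, JF v N₀ T {j | j < i} (A i l))
    (B₀ : ℝ) :
    ∃ Λ : ℝ, ∀ (d d' : Ω) (T' : Fin n → Ω) (E : IntermediateField k Ω), v.Ge B₀ d →
      v.Ge Λ (d - d') → (∀ i, T' i = T i + ∑ l ∈ S, A i l T * d ^ l) → E.FG → E ≤ hen v K₀ →
      N₀ ≤ E → d' ∈ E → (∀ i, T' i ∈ E) → hen v E = hen v K₀ := by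
  obtain ⟨δ, hδ⟩ := hen_eq_of_near h0 hc hK htr hBD hcl
  obtain ⟨Λ, hΛ⟩ := exists_back hA B₀ δ
  exact ⟨Λ, fun d d' T' E h1 h2 h3 hE hle h4 h5 h6 =>
    hδ E hE hle (hΛ d d' T' E h1 h2 h3 h4 h5 h6)⟩

end Bd

end Pool.Agent.TWEX
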