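import Pool.Agent.Lib.TWEX.IsoB

/-!
# TANK W: isogeny of strict arcs

`K` closed with a strict overconvergent arc `Phi` of radius `σ`, `α ^ p` in `K`. Then the closure of
`K(α)` has a strict overconvergent arc of radius `σ / p`, near `Phi` on `K` with a uniform gain.
-/

set_option autoImplicit false

open Finset

namespace Pool.Agent.TWEX

open Pool.Agent.H15JM (RVal)
open Pool.Agent.D2P (clI mem_clI)
open Pool.Agent.TW (mon pcomb PBasis)
open Pool.Agent.TWM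
open Pool.Agent.TWII (PG LP)
open Pool.Agent.TWLM (HSd Oi Arc)
open Pool.Agent.TWN1 (ser coeff_ser ahom ahom_apply)

universe u

namespace Iso

attribute [local instance] psCharP

variable {k Ω : Type u} [Field k] [Field Ω] [Algebra k Ω] {v : RVal Ω}
  {K : IntermediateField k Ω} {Φ : ℕ → Ω → Ω} {p : ℕ} {σ ν : ℝ} {x : Ω}

/-! ### Elementary facts about arcs -/

theorem arc_nrm (h : Arc v K σ Φ) (x : Ω) (hx : x ∈ K) (b : ℝ) (hb : v.Ge b x) :
    GG v σ b (ser Φ x) := by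
  intro j
  rw [coeff_ser]
  rcases Nat.eq_zero_or_pos j with rfl | hj
  · rw [h.c0 x hx]
    exact hb.mono (by simp)
  · obtain ⟨n, hn, h1⟩ := h.str j hj.ne'
    exact (h1 x hx b hb).mono (by linarith)

theorem hsd_sub (h : HSd K Φ) (l : ℕ) {f g : Ω} (hf : f ∈ K) (hg : g ∈ K) :
    Φ l (f - g) = Φ l f - Φ l g := by
  have h1 := h.add l (f - g) (sub_mem hf hg) g hg
  rw [sub_add_cancel] at h1
  rw [h1]
  ring

variable [hp : Fact p.Prime] [CharP Ω p]

/-- The coefficients of a `p`-th power. -/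
theorem hsd_pow (h : HSd K Φ) (l : ℕ) {f : Ω} (hf : f ∈ K) :
    Φ l (f ^ p) = if p ∣ l then Φ (l / p) f ^ p else 0 := by
  have h1 : ser Φ (f ^ p) = ser Φ f ^ p := by
    have h2 := map_pow (ahom h) ⟨f, hf⟩ p
    rw [ahom_apply, ahom_apply] at h2
    exact h2
  have h3 := congrArg (PowerSeries.coeff l) h1
  rw [coeff_ser, TWII.coeff_pow_p] at h3
  rw [h3]
  split_ifs
  · rw [coeff_ser]
  · rfl

/-- **The criterion.** The coefficients of a limit of `p`-th powers, uniformly. -/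
theorem exists_crit (h : Arc v K σ Φ) (ho : Oi v K σ Φ) (hx : x ∈ K) (hl : LP p v K ν x) :
    ∃ μ : ℝ, 0 < μ ∧ ∃ H : ℕ → Ω, (∀ m, H m ∈ K) ∧ (∃ m₀ : ℕ, ∀ m, m₀ ≤ m → H m = 0) ∧
      ∀ m : ℕ, m ≠ 0 → v.Ge (ν - m * σ + μ) (Φ m x - H m ^ p) := by
  obtain ⟨m₀, hm₀⟩ := ho x hx (ν + 1)
  have h1 : ∀ m : ℕ, ∃ μ : ℝ, 0 < μ ∧ ∃ g ∈ K, m ≠ 0 → v.Ge (ν - m * σ + μ) (Φ m x - g ^ p) := by
    intro m
    by_cases hm : m = 0
    · exact ⟨1, one_pos, 0, K.zero_mem, fun h2 => absurd hm h2⟩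
    obtain ⟨n, hn, h2⟩ := h.str m hm
    have hη : 0 < (m * σ - n) / 2 := by linarith
    obtain ⟨g, hg, h3⟩ := hl _ hη
    have h4 := h2 _ (sub_mem hx (pow_mem hg p)) _ h3
    rw [hsd_sub h.toHSd m hx (pow_mem hg p), hsd_pow h.toHSd m hg] at h4
    split_ifs at h4 with h5
    · exact ⟨_, hη, _, h.mem (m / p) g hg, fun _ => h4.mono (by linarith)⟩
    · refine ⟨_, hη, 0, K.zero_mem, fun _ => ?_⟩
      rw [zero_pow hp.out.ne_zero]
      exact h4.mono (by linarith)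
  choose μ hμ H hH h2 using h1
  have h3 : ∀ N : ℕ, ∃ μ' : ℝ, 0 < μ' ∧ ∀ m < N, μ' ≤ μ m := by
    intro N
    induction N with
    | zero => exact ⟨1, one_pos, fun m hm => absurd hm (Nat.not_lt_zero m)⟩
    | succ N ih =>
      obtain ⟨μ', h4, h5⟩ := ih
      refine ⟨min μ' (μ N), lt_min h4 (hμ N), fun m hm => ?_⟩
      rcases Nat.lt_succ_iff_lt_or_eq.1 hm with h6 | rfl
      · exact (min_le_left _ _).trans (h5 m h6)
      · exact min_le_right _ _
  obtain ⟨μ', h4, h5⟩ := h3 m₀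
  refine ⟨min μ' 1, lt_min h4 one_pos, fun m => if m < m₀ then H m else 0, fun m => ?_,
    ⟨m₀, fun m hm => if_neg (by omega)⟩, fun m hm => ?_⟩
  · dsimp only
    split_ifs
    exacts [hH m, K.zero_mem]
  · dsimp only
    split_ifs with h6
    · exact (h2 m hm).mono (by linarith [min_le_left μ' 1, h5 m h6])
    · rw [zero_pow hp.out.ne_zero, sub_zero]
      exact (hm₀ m (by omega)).mono (by linarith [min_le_right μ' 1])

/-! ### The arc of `K` with coefficients `p`-th powers of `K(α)` -/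

/-- **The corrected arc.** -/
theorem exists_corr [IsAlgClosed k] (h : Arc v K σ Φ) (ho : Oi v K σ Φ) {a : Ω} (ha : a ∈ K)
    (hl : LP p v K ν a) (hng : ¬ PG p v K ν a)
    (hbase : ∀ e : ℝ, 0 < e → ∃ (n : ℕ) (s : Fin (n + 1) → Ω), PBasis p K s ∧ OI p v K s e ∧
      (∀ i, s i ≠ 0) ∧ ∃ g ∈ K, s 0 = a - g ^ p) :
    ∃ (μ μ' : ℝ) (n : ℕ) (s : Fin (n + 1) → Ω) (g : Ω) (H : ℕ → Ω) (T : ℕ → Ω → Ω),
      0 < μ ∧ μ ≤ μ' ∧ PBasis p K s ∧ OI p v K s (μ / 2) ∧ (∀ i, s i ≠ 0) ∧ g ∈ K ∧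
      s 0 = a - g ^ p ∧ (∀ m, H m ∈ K) ∧ Arc v K σ T ∧ Oi v K σ T ∧
      (∀ i, i ≠ 0 → ∀ l, T l (s i) = Φ l (s i)) ∧ (∀ l, l ≠ 0 → T l (s 0) = H l ^ p) ∧
      (∀ l : ℕ, l ≠ 0 → v.Ge (ν - l * σ + μ') (T l (s 0) - Φ l (s 0))) ∧
      ∀ x ∈ K, ∀ b : ℝ, v.Ge b x → ∀ l : ℕ, v.Ge (b + μ - l * σ) (T l x - Φ l x) := by
  classical
  obtain ⟨μ', hμ', H, hH, ⟨m₀, hm₀⟩, hcr⟩ := exists_crit h ho ha hl
  obtain ⟨n, s, hs, hoi, hne, g, hg, hs0⟩ := hbase (μ' / 4) (by linarith)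
  have hvs : v (s 0) ≤ ν := by
    by_contra h1
    exact hng ⟨g, hg, fun _ => by rw [← hs0]; exact not_le.1 h1⟩
  set H' : ℕ → Ω := fun m => H m - if p ∣ m then Φ (m / p) g else 0 with hH'
  have hH'm : ∀ m, H' m ∈ K := fun m => by
    rw [hH']
    dsimp only
    split_ifs
    · exact sub_mem (hH m) (h.mem _ g hg)
    · exact sub_mem (hH m) K.zero_mem
  have hΦs : ∀ m, Φ m (s 0) = Φ m a - if p ∣ m then Φ (m / p) g ^ p else 0 := fun m => by
    rw [hs0, hsd_sub h.toHSd m ha (pow_mem hg p), hsd_pow h.toHSd m hg]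
  have hdiff : ∀ m, H' m ^ p - Φ m (s 0) = -(Φ m a - H m ^ p) := fun m => by
    rw [hΦs, hH']
    dsimp only
    split_ifs
    · rw [sub_pow_char]
      ring
    · rw [sub_zero, sub_zero]
      ring
  set S' : Fin (n + 1) → PowerSeries Ω := fun i => if i = 0 then
    PowerSeries.mk fun m => if m = 0 then s 0 else H' m ^ p else ser Φ (s i) with hS'
  have hS0 : ∀ m, PowerSeries.coeff m (S' 0) = if m = 0 then s 0 else H' m ^ p := fun m => by
    rw [hS']
    dsimp only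
    rw [if_pos rfl, PowerSeries.coeff_mk]
  have hSi : ∀ i, i ≠ 0 → S' i = ser Φ (s i) := fun i hi => by
    rw [hS']
    dsimp only
    rw [if_neg hi]
  have hD : Dat p v K s Φ S' σ (μ' / 4) (μ' / 2) μ' := by
    refine ⟨hs, hoi, h.toHSd, ho, arc_nrm h, hne, fun i => ?_, fun i l => ?_, fun i l => ?_,
      fun i r => ?_, by linarith, ?_, by linarith⟩
    · by_cases hi : i = 0
      · rw [hi, hS0, if_pos rfl]
      · rw [hSi i hi, coeff_ser, h.c0 _ (hs.mem i)]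
    · by_cases hi : i = 0
      · rw [hi, hS0]
        split_ifs
        · exact hs.mem 0
        · exact pow_mem (hH'm l) p
      · rw [hSi i hi, coeff_ser]
        exact h.mem _ _ (hs.mem i)
    · by_cases hi : i = 0
      · rw [hi, map_sub, hS0, coeff_ser]
        by_cases hl0 : l = 0
        · rw [if_pos hl0, hl0, h.c0 _ (hs.mem 0), sub_self]
          exact RVal.Ge.zero
        · rw [if_neg hl0, hdiff]
          exact (hcr l hl0).neg.mono (by linarith)
      · rw [hSi i hi, sub_self, map_zero]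
        exact RVal.Ge.zero
    · by_cases hi : i = 0
      · subst hi
        obtain ⟨L, hL⟩ := ho _ (hs.mem 0) r
        obtain ⟨L', hL'⟩ := ho a ha r
        refine ⟨max (max L L') (m₀ + 1), fun j hj => ?_⟩
        have h1 : L ≤ j := ((le_max_left _ _).trans (le_max_left _ _)).trans hj
        have h2 : L' ≤ j := ((le_max_right _ _).trans (le_max_left _ _)).trans hj
        have h3 : m₀ + 1 ≤ j := (le_max_right _ _).trans hj
        rw [hS0, if_neg (by omega)]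
        have e : H' j ^ p = Φ j (s 0) - (Φ j a - H j ^ p) := by
          rw [sub_eq_iff_eq_add.1 (hdiff j)]
          ring
        rw [e, hm₀ j (by omega), zero_pow hp.out.ne_zero, sub_zero]
        exact (hL j h1).sub (hL' j h2)
      · obtain ⟨L, hL⟩ := ho _ (hs.mem i) r
        refine ⟨L, fun j hj => ?_⟩
        rw [hSi i hi, coeff_ser]
        exact hL j hj
    · have h2 : (2 : ℝ) ≤ p := by exact_mod_cast hp.out.two_le
      nlinarith
  obtain ⟨T, hT1, hT2, hT3, hT4⟩ := hD.exists_hsd h.str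
  have hT0 : ∀ l, l ≠ 0 → T l (s 0) = H' l ^ p := fun l hl0 => by
    have h1 := congrArg (PowerSeries.coeff l) (hT3 0)
    rwa [coeff_ser, hS0, if_neg hl0] at h1
  refine ⟨μ' / 2, μ', n, s, g, H', T, by linarith, by linarith, hs, ?_, hne, hg, hs0, hH'm, hT1,
    hT2, fun i hi l => ?_, hT0, fun l hl0 => ?_, hT4⟩
  · have e : μ' / 2 / 2 = μ' / 4 := by ring
    rwa [e]
  · have h1 := congrArg (PowerSeries.coeff l) (hT3 i)
    rwa [hSi i hi, coeff_ser, coeff_ser] at h1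
  · rw [hT0 l hl0, hdiff]
    exact (hcr l hl0).neg

end Iso

end Pool.Agent.TWEX
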