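import Pool.Agent.Lib.TWMF.S3
import Pool.Agent.Lib.TWN1.Base

/-!
# TANK W: isogeny of strict arcs, A: systems with prescribed values on a `p`-basis

`s` is a `p`-basis of `K`, `S' i` a power series with constant term `s i`. The functions
`psiS 0 x = x`, `psiS (m + 1) (∑ c_α ^ p s ^ α) = ∑ (psiS m c_α) ^ p S' ^ α` converge coefficientwise
to a homomorphism `TS` from `K` to the power series, `TS (s i) = S' i`.
-/

set_option autoImplicit false

open Finset

namespace Pool.Agent.TWEX

open Pool.Agent.H15JM (RVal)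
open Pool.Agent.TW (mon pcomb PBasis)
open Pool.Agent.TWM
open Pool.Agent.TWMF.Stb (cf cf_mem cf_spec cf_uniq cf_add qx rx mon_mul mon_one)
open Pool.Agent.TWLM (HSd Oi Arc)

universe u

namespace Iso

section PS

variable {Ω : Type u} [Field Ω] {n p : ℕ}

theorem psCharP [CharP Ω p] : CharP (PowerSeries Ω) p :=
  charP_of_injective_ringHom (f := PowerSeries.C (R := Ω)) PowerSeries.C_injective p

attribute [local instance] psCharP

/-- The monomials in power series. -/
noncomputable def monS (S' : Fin n → PowerSeries Ω) (α : Fin n → Fin p) : PowerSeries Ω :=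
  ∏ i, S' i ^ (α i : ℕ)

theorem coeff_zero_monS {s : Fin n → Ω} {S' : Fin n → PowerSeries Ω}
    (h0 : ∀ i, PowerSeries.coeff 0 (S' i) = s i) (α : Fin n → Fin p) :
    PowerSeries.coeff 0 (monS S' α) = mon s α := by
  rw [monS, mon, PowerSeries.coeff_zero_eq_constantCoeff_apply, map_prod]
  refine prod_congr rfl fun i _ => ?_
  rw [map_pow, ← PowerSeries.coeff_zero_eq_constantCoeff_apply, h0]

theorem monS_mul [hp : Fact p.Prime] (S' : Fin n → PowerSeries Ω) (α β : Fin n → Fin p) :
    monS S' α * monS S' β = monS S' (qx α β) ^ p * monS S' (rx α β) := by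
  unfold monS
  rw [← prod_mul_distrib, ← prod_pow, ← prod_mul_distrib]
  refine prod_congr rfl fun i _ => ?_
  show S' i ^ (α i : ℕ) * S' i ^ (β i : ℕ) =
    (S' i ^ (((α i : ℕ) + β i) / p)) ^ p * S' i ^ (((α i : ℕ) + β i) % p)
  rw [← pow_add, ← pow_mul, ← pow_add]
  congr 1
  rw [mul_comm]
  exact (Nat.div_add_mod _ _).symm

theorem monS_one [hp : Fact p.Prime] (S' : Fin n → PowerSeries Ω) (i : Fin n) :
    monS S' (fun j => if j = i then (⟨1, hp.out.one_lt⟩ : Fin p) else ⟨0, hp.out.pos⟩) = S' i := by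
  unfold monS
  rw [prod_eq_single i]
  · simp
  · intro j _ hj
    simp [hj]
  · exact fun h2 => absurd (mem_univ i) h2

/-- Divisible by all the powers. -/
theorem eq_zero_of_dvd {f : PowerSeries Ω} (h : ∀ m : ℕ, PowerSeries.X ^ m ∣ f) : f = 0 := by
  ext l
  rw [map_zero]
  exact PowerSeries.X_pow_dvd_iff.1 (h (l + 1)) l (Nat.lt_succ_self l)

theorem dvd_powp {f : PowerSeries Ω} {N : ℕ} (hp : 2 ≤ p) (h : PowerSeries.X ^ (N + 1) ∣ f) :
    PowerSeries.X ^ (N + 1 + 1) ∣ f ^ p := by
  have h1 := pow_dvd_pow_of_dvd h p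
  rw [← pow_mul] at h1
  refine (pow_dvd_pow _ ?_).trans h1
  nlinarith

end PS

section T

attribute [local instance] psCharP

variable {k Ω : Type u} [Field k] [Field Ω] [Algebra k Ω] {K : IntermediateField k Ω} {p n : ℕ}
  {s : Fin n → Ω}

/-- The approximations. -/
noncomputable def psiS (ht : PBasis p K s) (S' : Fin n → PowerSeries Ω) : ℕ → Ω → PowerSeries Ω
  | 0, x => PowerSeries.C x
  | m + 1, x => ∑ α, psiS ht S' m (cf ht x α) ^ p * monS S' α

/-- The limit. -/
noncomputable def TS (ht : PBasis p K s) (S' : Fin n → PowerSeries Ω) (x : Ω) : PowerSeries Ω :=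
  PowerSeries.mk fun l => PowerSeries.coeff l (psiS ht S' (l + 1) x)

variable [hp : Fact p.Prime] [CharP Ω p] {S' : Fin n → PowerSeries Ω}

theorem psiS_sub_step (ht : PBasis p K s) (m m' : ℕ) (x : Ω) :
    psiS ht S' (m + 1) x - psiS ht S' (m' + 1) x =
      ∑ α, (psiS ht S' m (cf ht x α) - psiS ht S' m' (cf ht x α)) ^ p * monS S' α := by
  rw [psiS, psiS, ← sum_sub_distrib]
  refine sum_congr rfl fun α _ => ?_
  rw [sub_pow_char, sub_mul]

theorem psiS_step (ht : PBasis p K s) (h0 : ∀ i, PowerSeries.coeff 0 (S' i) = s i) (m : ℕ) :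
    ∀ x ∈ K, PowerSeries.X ^ (m + 1) ∣ psiS ht S' (m + 1) x - psiS ht S' m x := by
  induction m with
  | zero =>
    intro x hx
    rw [PowerSeries.X_pow_dvd_iff]
    intro l hl
    obtain rfl : l = 0 := by omega
    rw [map_sub, psiS, psiS, map_sum, PowerSeries.coeff_zero_C, sub_eq_zero]
    conv_rhs => rw [cf_spec ht hx, pcomb]
    refine sum_congr rfl fun α _ => ?_
    rw [PowerSeries.coeff_zero_eq_constantCoeff_apply, map_mul, map_pow, psiS,
      PowerSeries.constantCoeff_C, ← PowerSeries.coeff_zero_eq_constantCoeff_apply,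
      coeff_zero_monS h0]
  | succ m ih =>
    intro x hx
    rw [psiS_sub_step]
    exact dvd_sum fun α _ => (dvd_powp hp.out.two_le (ih _ (cf_mem ht x α))).mul_right _

theorem psiS_sub (ht : PBasis p K s) (h0 : ∀ i, PowerSeries.coeff 0 (S' i) = s i) {m m' : ℕ}
    (hm : m ≤ m') {x : Ω} (hx : x ∈ K) :
    PowerSeries.X ^ (m + 1) ∣ psiS ht S' m' x - psiS ht S' m x := by
  induction m', hm using Nat.le_induction with
  | base =>
    rw [sub_self]
    exact dvd_zero _
  | succ m' hm ih =>
    have e1 : psiS ht S' (m' + 1) x - psiS ht S' m x =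
        (psiS ht S' (m' + 1) x - psiS ht S' m' x) + (psiS ht S' m' x - psiS ht S' m x) := by
      ring
    rw [e1]
    exact dvd_add ((pow_dvd_pow _ (by omega)).trans (psiS_step ht h0 m' x hx)) ih

theorem TS_sub (ht : PBasis p K s) (h0 : ∀ i, PowerSeries.coeff 0 (S' i) = s i) (m : ℕ) {x : Ω}
    (hx : x ∈ K) : PowerSeries.X ^ (m + 1) ∣ TS ht S' x - psiS ht S' m x := by
  rw [PowerSeries.X_pow_dvd_iff]
  intro l hl
  rw [map_sub, TS, PowerSeries.coeff_mk, sub_eq_zero]
  have h1 := PowerSeries.X_pow_dvd_iff.1 (psiS_sub ht h0 (le_max_left (l + 1) m) hx) l (by omega)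
  have h2 := PowerSeries.X_pow_dvd_iff.1 (psiS_sub ht h0 (le_max_right (l + 1) m) hx) l hl
  rw [map_sub, sub_eq_zero] at h1 h2
  rw [← h1, h2]

/-- The fixed point equation. -/
theorem TS_fix (ht : PBasis p K s) (h0 : ∀ i, PowerSeries.coeff 0 (S' i) = s i) {x : Ω}
    (hx : x ∈ K) : TS ht S' x = ∑ α, TS ht S' (cf ht x α) ^ p * monS S' α := by
  rw [← sub_eq_zero]
  refine eq_zero_of_dvd fun m => (pow_dvd_pow _ (Nat.le_succ m)).trans ?_
  have e1 : TS ht S' x - ∑ α, TS ht S' (cf ht x α) ^ p * monS S' α =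
      (TS ht S' x - psiS ht S' (m + 1) x) -
        ∑ α, (TS ht S' (cf ht x α) - psiS ht S' m (cf ht x α)) ^ p * monS S' α := by
    have e2 : ∑ α, (TS ht S' (cf ht x α) - psiS ht S' m (cf ht x α)) ^ p * monS S' α =
        ∑ α, TS ht S' (cf ht x α) ^ p * monS S' α - psiS ht S' (m + 1) x := by
      rw [psiS, ← sum_sub_distrib]
      refine sum_congr rfl fun α _ => ?_
      rw [sub_pow_char, sub_mul]
    rw [e2]
    ring
  rw [e1]
  refine dvd_sub ((pow_dvd_pow _ (by omega)).trans (TS_sub ht h0 (m + 1) hx)) ?_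
  exact dvd_sum fun α _ => ((pow_dvd_pow _ (by omega)).trans
    (dvd_powp hp.out.two_le (TS_sub ht h0 m (cf_mem ht x α)))).mul_right _

theorem TS_add (ht : PBasis p K s) {x y : Ω} (hx : x ∈ K) (hy : y ∈ K) :
    TS ht S' (x + y) = TS ht S' x + TS ht S' y := by
  have hadd : ∀ m : ℕ, ∀ x ∈ K, ∀ y ∈ K,
      psiS ht S' m (x + y) = psiS ht S' m x + psiS ht S' m y := by
    intro m
    induction m with
    | zero =>
      intro x _ y _
      rw [psiS, psiS, psiS, map_add]
    | succ m ih =>
      intro x hx y hy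
      rw [psiS, psiS, psiS, ← sum_add_distrib]
      refine sum_congr rfl fun α _ => ?_
      rw [cf_add ht hx hy, ih _ (cf_mem ht x α) _ (cf_mem ht y α), add_pow_char, add_mul]
  ext l
  rw [map_add, TS, TS, TS, PowerSeries.coeff_mk, PowerSeries.coeff_mk, PowerSeries.coeff_mk,
    hadd _ x hx y hy, map_add]

theorem TS_zero (ht : PBasis p K s) : TS ht S' 0 = 0 := by
  have h1 := TS_add (S' := S') ht (zero_mem K) (zero_mem K)
  rw [add_zero] at h1
  exact left_eq_add.1 h1

theorem TS_sum (ht : PBasis p K s) {ι : Type*} (I : Finset ι) (f : ι → Ω) (hf : ∀ i ∈ I, f i ∈ K) :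
    TS ht S' (∑ i ∈ I, f i) = ∑ i ∈ I, TS ht S' (f i) := by
  classical
  induction I using Finset.induction_on with
  | empty => rw [sum_empty, sum_empty, TS_zero]
  | insert a I ha ih =>
    rw [sum_insert ha, sum_insert ha,
      TS_add ht (hf a (mem_insert_self a I)) (sum_mem fun i hi => hf i (mem_insert_of_mem hi)),
      ih fun i hi => hf i (mem_insert_of_mem hi)]

/-- The value on a monomial. -/
theorem TS_mon (ht : PBasis p K s) (h0 : ∀ i, PowerSeries.coeff 0 (S' i) = s i) {y : Ω}
    (hy : y ∈ K) (α : Fin n → Fin p) :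
    TS ht S' (y ^ p * mon s α) = TS ht S' y ^ p * monS S' α := by
  classical
  have hx : y ^ p * mon s α ∈ K := mul_mem (pow_mem hy p)
    (prod_mem fun i _ => pow_mem (ht.mem i) _)
  have hz : (0 : Ω) ^ p = 0 := zero_pow hp.out.ne_zero
  have hzS : (0 : PowerSeries Ω) ^ p = 0 := zero_pow hp.out.ne_zero
  have e1 : y ^ p * mon s α = pcomb s (Pi.single α y : (Fin n → Fin p) → Ω) := by
    rw [pcomb, sum_eq_single α]
    · rw [Pi.single_eq_same]
    · intro β _ hβ
      rw [Pi.single_eq_of_ne hβ, hz, zero_mul]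
    · exact fun h1 => absurd (mem_univ α) h1
  have hm : ∀ β, (Pi.single α y : (Fin n → Fin p) → Ω) β ∈ K := by
    intro β
    by_cases hβ : β = α
    · rw [hβ, Pi.single_eq_same]
      exact hy
    · rw [Pi.single_eq_of_ne hβ]
      exact zero_mem K
  rw [TS_fix ht h0 hx, e1, cf_uniq ht hm, sum_eq_single α]
  · rw [Pi.single_eq_same]
  · intro β _ hβ
    rw [Pi.single_eq_of_ne hβ, TS_zero, hzS, zero_mul]
  · exact fun h1 => absurd (mem_univ α) h1

/-- The constants. -/
theorem TS_const [IsAlgClosed k] (ht : PBasis p K s) (h0 : ∀ i, PowerSeries.coeff 0 (S' i) = s i)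
    (c : k) : TS ht S' (algebraMap k Ω c) = PowerSeries.C (algebraMap k Ω c) := by
  have e2 : monS S' (fun _ => (⟨0, hp.out.pos⟩ : Fin p)) = 1 := by simp [monS]
  have e3 : mon s (fun _ => (⟨0, hp.out.pos⟩ : Fin p)) = 1 := by simp [mon]
  have key : ∀ m : ℕ, ∀ c : k, PowerSeries.X ^ (m + 1) ∣
      TS ht S' (algebraMap k Ω c) - PowerSeries.C (algebraMap k Ω c) := by
    intro m
    induction m with
    | zero =>
      intro c
      have h1 := TS_sub ht h0 0 (K.algebraMap_mem c)
      rwa [psiS] at h1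
    | succ m ih =>
      intro c
      obtain ⟨d, hd⟩ := IsAlgClosed.exists_pow_nat_eq c hp.out.pos
      have h1 := TS_mon ht h0 (K.algebraMap_mem d) (fun _ => (⟨0, hp.out.pos⟩ : Fin p))
      rw [e3, mul_one, e2, mul_one, ← map_pow, hd] at h1
      rw [h1, ← hd, map_pow, map_pow, ← sub_pow_char]
      exact dvd_powp hp.out.two_le (ih d)
  rw [← sub_eq_zero]
  exact eq_zero_of_dvd fun m => (pow_dvd_pow _ (Nat.le_succ m)).trans (key m c)

theorem TS_one [IsAlgClosed k] (ht : PBasis p K s)
    (h0 : ∀ i, PowerSeries.coeff 0 (S' i) = s i) : TS ht S' 1 = 1 := by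
  have h1 := TS_const ht h0 (1 : k)
  rwa [map_one, map_one] at h1

theorem TS_mon' [IsAlgClosed k] (ht : PBasis p K s) (h0 : ∀ i, PowerSeries.coeff 0 (S' i) = s i)
    (α : Fin n → Fin p) : TS ht S' (mon s α) = monS S' α := by
  have h1 := TS_mon ht h0 (one_mem K) α
  rwa [one_pow, one_mul, TS_one ht h0, one_pow, one_mul] at h1

theorem TS_basis [IsAlgClosed k] (ht : PBasis p K s)
    (h0 : ∀ i, PowerSeries.coeff 0 (S' i) = s i) (i : Fin n) : TS ht S' (s i) = S' i := by
  have h1 := TS_mon' ht h0 (fun j => if j = i then (⟨1, hp.out.one_lt⟩ : Fin p) else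
    ⟨0, hp.out.pos⟩)
  rwa [mon_one, monS_one] at h1

/-- The coefficient of index zero. -/
theorem coeff_zero_TS (ht : PBasis p K s) (h0 : ∀ i, PowerSeries.coeff 0 (S' i) = s i) {x : Ω}
    (hx : x ∈ K) : PowerSeries.coeff 0 (TS ht S' x) = x := by
  have h1 := PowerSeries.X_pow_dvd_iff.1 (TS_sub ht h0 0 hx) 0 (by omega)
  rwa [map_sub, psiS, PowerSeries.coeff_zero_C, sub_eq_zero] at h1

/-- Multiplicativity. -/
theorem TS_mul [IsAlgClosed k] (ht : PBasis p K s) (h0 : ∀ i, PowerSeries.coeff 0 (S' i) = s i)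
    {x y : Ω} (hx : x ∈ K) (hy : y ∈ K) : TS ht S' (x * y) = TS ht S' x * TS ht S' y := by
  classical
  have key : ∀ m : ℕ, ∀ x ∈ K, ∀ y ∈ K, PowerSeries.X ^ (m + 1) ∣
      TS ht S' (x * y) - TS ht S' x * TS ht S' y := by
    intro m
    induction m with
    | zero =>
      intro x hx y hy
      rw [PowerSeries.X_pow_dvd_iff]
      intro l hl
      obtain rfl : l = 0 := by omega
      rw [map_sub, coeff_zero_TS ht h0 (mul_mem hx hy),
        PowerSeries.coeff_zero_eq_constantCoeff_apply, map_mul,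
        ← PowerSeries.coeff_zero_eq_constantCoeff_apply,
        ← PowerSeries.coeff_zero_eq_constantCoeff_apply,
        coeff_zero_TS ht h0 hx, coeff_zero_TS ht h0 hy, sub_self]
    | succ m ih =>
      intro x hx y hy
      have hsK : ∀ α : Fin n → Fin p, mon s α ∈ K := fun α =>
        prod_mem fun i _ => pow_mem (ht.mem i) _
      have haK := cf_mem ht x
      have hcK := cf_mem ht y
      have exy : x * y = ∑ α, ∑ β,
          (cf ht x α * cf ht y β * mon s (qx α β)) ^ p * mon s (rx α β) := by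
        conv_lhs => rw [cf_spec ht hx, cf_spec ht hy, pcomb, pcomb, sum_mul_sum]
        refine sum_congr rfl fun α _ => sum_congr rfl fun β _ => ?_
        rw [mul_pow, mul_pow]
        linear_combination (cf ht x α ^ p * cf ht y β ^ p) * mon_mul s α β
      have e1 : TS ht S' (x * y) =
          ∑ α, ∑ β, TS ht S' (cf ht x α * cf ht y β * mon s (qx α β)) ^ p * monS S' (rx α β) := by
        have hm : ∀ α β, (cf ht x α * cf ht y β * mon s (qx α β)) ^ p * mon s (rx α β) ∈ K :=
          fun α β => mul_mem (pow_mem (mul_mem (mul_mem (haK α) (hcK β)) (hsK _)) p) (hsK _)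
        conv_lhs => rw [exy]
        rw [TS_sum ht _ _ fun α _ => sum_mem fun β _ => hm α β]
        refine sum_congr rfl fun α _ => ?_
        rw [TS_sum ht _ _ fun β _ => hm α β]
        refine sum_congr rfl fun β _ => ?_
        exact TS_mon ht h0 (mul_mem (mul_mem (haK α) (hcK β)) (hsK _)) _
      have e2 : TS ht S' x * TS ht S' y =
          ∑ α, ∑ β, (TS ht S' (cf ht x α) * TS ht S' (cf ht y β) * monS S' (qx α β)) ^ p *
            monS S' (rx α β) := by
        rw [TS_fix ht h0 hx, TS_fix ht h0 hy, sum_mul_sum]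
        refine sum_congr rfl fun α _ => sum_congr rfl fun β _ => ?_
        rw [mul_pow, mul_pow]
        linear_combination (TS ht S' (cf ht x α) ^ p * TS ht S' (cf ht y β) ^ p) *
          monS_mul S' α β
      have e3 : TS ht S' (x * y) - TS ht S' x * TS ht S' y = ∑ α, ∑ β,
          (TS ht S' (cf ht x α * cf ht y β * mon s (qx α β)) -
            TS ht S' (cf ht x α) * TS ht S' (cf ht y β) * monS S' (qx α β)) ^ p *
            monS S' (rx α β) := by
        rw [e1, e2, ← sum_sub_distrib]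
        refine sum_congr rfl fun α _ => ?_
        rw [← sum_sub_distrib]
        refine sum_congr rfl fun β _ => ?_
        rw [sub_pow_char, sub_mul]
      rw [e3]
      refine dvd_sum fun α _ => dvd_sum fun β _ => Dvd.dvd.mul_right
        (dvd_powp hp.out.two_le ?_) _
      have e4 : TS ht S' (cf ht x α * cf ht y β * mon s (qx α β)) -
          TS ht S' (cf ht x α) * TS ht S' (cf ht y β) * monS S' (qx α β) =
          (TS ht S' (cf ht x α * cf ht y β * mon s (qx α β)) -
            TS ht S' (cf ht x α * cf ht y β) * TS ht S' (mon s (qx α β))) +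
          (TS ht S' (cf ht x α * cf ht y β) - TS ht S' (cf ht x α) * TS ht S' (cf ht y β)) *
            monS S' (qx α β) := by
        rw [TS_mon' ht h0]
        ring
      rw [e4]
      exact dvd_add (ih _ (mul_mem (haK α) (hcK β)) _ (hsK _))
        ((ih _ (haK α) _ (hcK β)).mul_right _)
  rw [← sub_eq_zero]
  exact eq_zero_of_dvd fun m => (pow_dvd_pow _ (Nat.le_succ m)).trans (key m x hx y hy)

omit hp [CharP Ω p] in
/-- The coefficients are in `K`. -/
theorem coeff_TS_mem (ht : PBasis p K s) (hS : ∀ i l, PowerSeries.coeff l (S' i) ∈ K) {x : Ω}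
    (hx : x ∈ K) (l : ℕ) : PowerSeries.coeff l (TS ht S' x) ∈ K := by
  have hpow : ∀ (f : PowerSeries Ω), (∀ l, PowerSeries.coeff l f ∈ K) → ∀ (a l : ℕ),
      PowerSeries.coeff l (f ^ a) ∈ K := fun f hf a l => TWN1.pow_coeff_mem K hf a l
  have hmul : ∀ (f g : PowerSeries Ω), (∀ l, PowerSeries.coeff l f ∈ K) →
      (∀ l, PowerSeries.coeff l g ∈ K) → ∀ l, PowerSeries.coeff l (f * g) ∈ K := by
    intro f g hf hg l
    rw [PowerSeries.coeff_mul]
    exact sum_mem fun i _ => mul_mem (hf _) (hg _)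
  have hmon : ∀ α : Fin n → Fin p, ∀ l, PowerSeries.coeff l (monS S' α) ∈ K := by
    classical
    intro α
    unfold monS
    induction (univ : Finset (Fin n)) using Finset.induction_on with
    | empty =>
      intro l
      rw [prod_empty, PowerSeries.coeff_one]
      split_ifs
      exacts [one_mem K, zero_mem K]
    | insert i I hi ih =>
      rw [prod_insert hi]
      exact hmul _ _ (hpow _ (hS i) _) ih
  have key : ∀ m : ℕ, ∀ x ∈ K, ∀ l, PowerSeries.coeff l (psiS ht S' m x) ∈ K := by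
    intro m
    induction m with
    | zero =>
      intro x hx l
      rw [psiS, PowerSeries.coeff_C]
      split_ifs
      exacts [hx, zero_mem K]
    | succ m ih =>
      intro x hx l
      rw [psiS, map_sum]
      exact sum_mem fun α _ => hmul _ _ (hpow _ (ih _ (cf_mem ht x α)) p) (hmon α) l
  rw [TS, PowerSeries.coeff_mk]
  exact key _ x hx l

end T

end Iso

end Pool.Agent.TWEX
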