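import Pool.Agent.Lib.TWEX.IsoA

/-!
# TANK W: isogeny of strict arcs, B: norms and overconvergence

`Phi` is an arc of `K`, `S' i` near the power series of `s i`. Then `TS` is near the power series
of `Phi`, with a uniform gain, and overconvergent.
-/

set_option autoImplicit false

open Finset

namespace Pool.Agent.TWEX

open Pool.Agent.H15JM (RVal)
open Pool.Agent.TW (mon pcomb PBasis)
open Pool.Agent.TWM

open Pool.Agent.TWMF.Stb (cf cf_mem cf_spec cf_uniq cf_add cf_ge)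
open Pool.Agent.TWLM (HSd Oi Arc)
open Pool.Agent.TWN1 (ser coeff_ser ahom ahom_apply)

universe u

namespace Iso

attribute [local instance] psCharP

section G

variable {Ω : Type u} [Field Ω] {v : RVal Ω} {σ b b' r : ℝ} {N : ℕ} {f g : PowerSeries Ω}

/-- The Gauss norm, indices `< N`. -/
def GT (v : RVal Ω) (σ : ℝ) (N : ℕ) (b : ℝ) (f : PowerSeries Ω) : Prop :=
  ∀ j < N, v.Ge (b - j * σ) (PowerSeries.coeff j f)

/-- The Gauss norm. -/
def GG (v : RVal Ω) (σ b : ℝ) (f : PowerSeries Ω) : Prop :=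
  ∀ j : ℕ, v.Ge (b - j * σ) (PowerSeries.coeff j f)

/-- The Gauss norm, and the norm of the tail. -/
def Tail (v : RVal Ω) (σ b r : ℝ) (f : PowerSeries Ω) : Prop :=
  GG v σ b f ∧ ∃ L : ℕ, ∀ j : ℕ, L ≤ j → v.Ge (b + r - j * σ) (PowerSeries.coeff j f)

theorem GG.gt (h : GG v σ b f) (N : ℕ) : GT v σ N b f := fun j _ => h j

theorem GT.mono (h : GT v σ N b f) (hb : b' ≤ b) : GT v σ N b' f := fun j hj =>
  (h j hj).mono (by linarith)

theorem GG.mono (h : GG v σ b f) (hb : b' ≤ b) : GG v σ b' f := fun j =>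
  (h j).mono (by linarith)

theorem GT.mul (hf : GT v σ N b f) (hg : GT v σ N b' g) : GT v σ N (b + b') (f * g) := by
  intro j hj
  rw [PowerSeries.coeff_mul]
  refine RVal.Ge.sum _ _ fun i hi => ?_
  have h1 : i.1 + i.2 = j := by simpa using hi
  refine ((hf i.1 (by omega)).mul (hg i.2 (by omega))).mono (le_of_eq ?_)
  rw [← h1]
  push_cast
  ring

theorem GG.mul (hf : GG v σ b f) (hg : GG v σ b' g) : GG v σ (b + b') (f * g) := fun j =>
  GT.mul (hf.gt (j + 1)) (hg.gt (j + 1)) j (Nat.lt_succ_self j)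

theorem GG.one : GG v σ 0 (1 : PowerSeries Ω) := by
  intro j
  rw [PowerSeries.coeff_one]
  split_ifs with h
  · rw [h]
    intro _
    rw [v.map_one]
    simp
  · exact RVal.Ge.zero

theorem GG.pow (hf : GG v σ b f) (a : ℕ) : GG v σ (a * b) (f ^ a) := by
  induction a with
  | zero =>
    rw [pow_zero, Nat.cast_zero, zero_mul]
    exact GG.one
  | succ a ih =>
    rw [pow_succ]
    refine (ih.mul hf).mono (le_of_eq ?_)
    push_cast
    ring

theorem GT.sum {ι : Type*} (S : Finset ι) (F : ι → PowerSeries Ω)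
    (hF : ∀ i ∈ S, GT v σ N b (F i)) : GT v σ N b (∑ i ∈ S, F i) := by
  intro j hj
  rw [map_sum]
  exact RVal.Ge.sum _ _ fun i hi => hF i hi j hj

theorem GG.sum {ι : Type*} (S : Finset ι) (F : ι → PowerSeries Ω)
    (hF : ∀ i ∈ S, GG v σ b (F i)) : GG v σ b (∑ i ∈ S, F i) := by
  intro j
  rw [map_sum]
  exact RVal.Ge.sum _ _ fun i hi => hF i hi j

theorem GT.powp {p : ℕ} [hp : Fact p.Prime] [CharP Ω p] (hN : 1 ≤ N) (hf : GT v σ N b f) :
    GT v σ (N + 1) (p * b) (f ^ p) := by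
  intro j hj
  rw [TWII.coeff_pow_p]
  split_ifs with h
  · obtain ⟨i, rfl⟩ := h
    have hp2 := hp.out.two_le
    rw [Nat.mul_div_cancel_left _ hp.out.pos]
    have h1 : i < N := by
      rcases Nat.eq_zero_or_pos i with h0 | h0
      · omega
      · have h3 : 2 * i ≤ p * i := Nat.mul_le_mul_right i hp2
        omega
    refine (ge_pow (hf i h1) p).mono (le_of_eq ?_)
    push_cast
    ring
  · exact RVal.Ge.zero

theorem Tail.mul (hf : Tail v σ b r f) (hg : Tail v σ b' r g) : Tail v σ (b + b') r (f * g) := by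
  obtain ⟨h1, L, h2⟩ := hf
  obtain ⟨h3, L', h4⟩ := hg
  refine ⟨h1.mul h3, L + L', fun j hj => ?_⟩
  rw [PowerSeries.coeff_mul]
  refine RVal.Ge.sum _ _ fun i hi => ?_
  have h5 : i.1 + i.2 = j := by simpa using hi
  by_cases h6 : L ≤ i.1
  · refine ((h2 i.1 h6).mul (h3 i.2)).mono (le_of_eq ?_)
    rw [← h5]
    push_cast
    ring
  · refine ((h1 i.1).mul (h4 i.2 (by omega))).mono (le_of_eq ?_)
    rw [← h5]
    push_cast
    ring

theorem Tail.one : Tail v σ 0 r (1 : PowerSeries Ω) := by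
  refine ⟨GG.one, 1, fun j hj => ?_⟩
  rw [PowerSeries.coeff_one, if_neg (by omega)]
  exact RVal.Ge.zero

theorem Tail.pow (hf : Tail v σ b r f) (a : ℕ) : Tail v σ (a * b) r (f ^ a) := by
  induction a with
  | zero =>
    rw [pow_zero, Nat.cast_zero, zero_mul]
    exact Tail.one
  | succ a ih =>
    rw [pow_succ]
    have h1 := ih.mul hf
    have e : (a : ℝ) * b + b = ((a + 1 : ℕ) : ℝ) * b := by
      push_cast
      ring
    rwa [e] at h1

theorem Tail.powp {p : ℕ} [hp : Fact p.Prime] [CharP Ω p] (hf : Tail v σ b r f) :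
    Tail v σ (p * b) (p * r) (f ^ p) := by
  obtain ⟨h1, L, h2⟩ := hf
  refine ⟨h1.pow p, p * L, fun j hj => ?_⟩
  rw [TWII.coeff_pow_p]
  split_ifs with h
  · obtain ⟨i, rfl⟩ := h
    rw [Nat.mul_div_cancel_left _ hp.out.pos]
    refine (ge_pow (h2 i (Nat.le_of_mul_le_mul_left hj hp.out.pos)) p).mono (le_of_eq ?_)
    push_cast
    ring
  · exact RVal.Ge.zero

theorem Tail.sum {ι : Type*} (S : Finset ι) (F : ι → PowerSeries Ω)
    (hF : ∀ i ∈ S, Tail v σ b r (F i)) : Tail v σ b r (∑ i ∈ S, F i) := by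
  classical
  refine ⟨GG.sum S F fun i hi => (hF i hi).1, ?_⟩
  have key : ∃ L : ℕ, ∀ i ∈ S, ∀ j : ℕ, L ≤ j → v.Ge (b + r - j * σ) (PowerSeries.coeff j (F i)) := by
    induction S using Finset.induction_on with
    | empty => exact ⟨0, fun i hi => absurd hi (notMem_empty i)⟩
    | insert i S hi ih =>
      obtain ⟨L, hL⟩ := ih fun j hj => hF j (mem_insert_of_mem hj)
      obtain ⟨-, L', hL'⟩ := hF i (mem_insert_self i S)
      refine ⟨max L L', fun a ha j hj => ?_⟩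
      rcases mem_insert.1 ha with rfl | ha
      · exact hL' j ((le_max_right _ _).trans hj)
      · exact hL a ha j ((le_max_left _ _).trans hj)
  obtain ⟨L, hL⟩ := key
  refine ⟨L, fun j hj => ?_⟩
  rw [map_sum]
  exact RVal.Ge.sum _ _ fun i hi => hL i hi j hj

end G

section D

variable {k Ω : Type u} [Field k] [Field Ω] [Algebra k Ω] {v : RVal Ω}
  {K : IntermediateField k Ω} {Φ : ℕ → Ω → Ω} {p n : ℕ} {s : Fin n → Ω}
  {S' : Fin n → PowerSeries Ω} {σ ε μ μ' : ℝ}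

/-- The data. -/
structure Dat (p : ℕ) (v : RVal Ω) (K : IntermediateField k Ω) {n : ℕ} (s : Fin n → Ω)
    (Φ : ℕ → Ω → Ω) (S' : Fin n → PowerSeries Ω) (σ ε μ μ' : ℝ) : Prop where
  ht : PBasis p K s
  ho : OI p v K s ε
  hsd : HSd K Φ
  oi : Oi v K σ Φ
  nrm : ∀ x ∈ K, ∀ b : ℝ, v.Ge b x → GG v σ b (ser Φ x)
  ne : ∀ i, s i ≠ 0
  z : ∀ i, PowerSeries.coeff 0 (S' i) = s i
  mem : ∀ i l, PowerSeries.coeff l (S' i) ∈ K
  near : ∀ i, GG v σ (v (s i) + μ') (S' i - ser Φ (s i))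
  ov : ∀ i, ∀ r : ℝ, ∃ L : ℕ, ∀ j : ℕ, L ≤ j → v.Ge (r - j * σ) (PowerSeries.coeff j (S' i))
  e0 : 0 ≤ ε
  e1 : ε < (p - 1) * μ
  e2 : μ + ε ≤ μ'

variable [hp : Fact p.Prime] [CharP Ω p] (h : Dat p v K s Φ S' σ ε μ μ')
include h

omit [CharP Ω p] in
theorem Dat.pos : 0 < μ := by
  have hp1 : (0 : ℝ) < (p : ℝ) - 1 := by
    have : (1 : ℝ) < p := by exact_mod_cast hp.out.one_lt
    linarith
  by_contra h0
  have h1 := mul_nonpos_of_nonneg_of_nonpos hp1.le (not_lt.1 h0)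
  linarith [h.e0, h.e1]

omit [CharP Ω p] in
theorem Dat.gS (i : Fin n) : GG v σ (v (s i)) (S' i) := by
  intro j
  have e : PowerSeries.coeff j (S' i) = PowerSeries.coeff j (S' i - ser Φ (s i)) +
      PowerSeries.coeff j (ser Φ (s i)) := by
    rw [map_sub]
    ring
  rw [e]
  exact ((h.near i j).mono (by linarith [h.pos, h.e0, h.e2])).add
    (h.nrm _ (h.ht.mem i) _ (v.ge_self _) j)

omit [CharP Ω p] in
theorem Dat.tS (i : Fin n) (r : ℝ) : Tail v σ (v (s i)) r (S' i) :=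
  ⟨h.gS i, h.ov i _⟩

omit [CharP Ω p] in
/-- Powers. -/
theorem Dat.pow_near (i : Fin n) (a : ℕ) : GG v σ (a * v (s i)) (S' i ^ a) ∧
    GG v σ (a * v (s i) + μ') (S' i ^ a - ser Φ (s i) ^ a) := by
  have hφ := h.nrm _ (h.ht.mem i) _ (v.ge_self (s i))
  induction a with
  | zero =>
    refine ⟨(h.gS i).pow 0, fun j => ?_⟩
    rw [pow_zero, pow_zero, sub_self, map_zero]
    exact RVal.Ge.zero
  | succ a ih =>
    refine ⟨(h.gS i).pow (a + 1), ?_⟩
    have e1 : S' i ^ (a + 1) - ser Φ (s i) ^ (a + 1) =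
        S' i ^ a * (S' i - ser Φ (s i)) + (S' i ^ a - ser Φ (s i) ^ a) * ser Φ (s i) := by ring
    rw [e1]
    intro j
    rw [map_add]
    refine (((ih.1.mul (h.near i)) j).mono ?_).add (((ih.2.mul hφ) j).mono ?_) <;>
    · push_cast
      linarith

omit [CharP Ω p] in
/-- Monomials. -/
theorem Dat.mon_near (α : Fin n → Fin p) : GG v σ (v (mon s α)) (monS S' α) ∧
    GG v σ (v (mon s α) + μ') (monS S' α - monS (fun i => ser Φ (s i)) α) ∧
    ∀ r : ℝ, Tail v σ (v (mon s α)) r (monS S' α) := by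
  classical
  unfold TW.mon monS
  induction (univ : Finset (Fin n)) using Finset.induction_on with
  | empty =>
    simp only [prod_empty, sub_self, v.map_one]
    refine ⟨GG.one, fun j => ?_, fun r => Tail.one⟩
    rw [map_zero]
    exact RVal.Ge.zero
  | insert a S ha ih =>
    obtain ⟨ih1, ih2, ih3⟩ := ih
    rw [prod_insert ha, prod_insert ha, prod_insert ha]
    have h0 : ∏ i ∈ S, s i ^ (α i : ℕ) ≠ 0 := prod_ne_zero_iff.2 fun i _ => pow_ne_zero _ (h.ne i)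
    have h1 : s a ^ (α a : ℕ) ≠ 0 := pow_ne_zero _ (h.ne a)
    obtain ⟨h2, h3⟩ := h.pow_near a (α a : ℕ)
    rw [v.map_mul h1 h0, v.map_pow (h.ne a)]
    have hφ : GG v σ (v (∏ i ∈ S, s i ^ (α i : ℕ))) (∏ i ∈ S, ser Φ (s i) ^ (α i : ℕ)) := by
      intro j
      have e : PowerSeries.coeff j (∏ i ∈ S, ser Φ (s i) ^ (α i : ℕ)) =
          PowerSeries.coeff j (∏ i ∈ S, S' i ^ (α i : ℕ)) -
          PowerSeries.coeff j (∏ i ∈ S, S' i ^ (α i : ℕ) -
            ∏ i ∈ S, ser Φ (s i) ^ (α i : ℕ)) := by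
        rw [map_sub]
        ring
      rw [e]
      exact (ih1 j).sub ((ih2 j).mono (by linarith [h.pos, h.e0, h.e2]))
    refine ⟨h2.mul ih1, ?_, fun r => ((h.tS a r).pow (α a : ℕ)).mul (ih3 r)⟩
    have e1 : S' a ^ (α a : ℕ) * ∏ i ∈ S, S' i ^ (α i : ℕ) -
        ser Φ (s a) ^ (α a : ℕ) * ∏ i ∈ S, ser Φ (s i) ^ (α i : ℕ) =
        S' a ^ (α a : ℕ) * (∏ i ∈ S, S' i ^ (α i : ℕ) - ∏ i ∈ S, ser Φ (s i) ^ (α i : ℕ)) +
        (S' a ^ (α a : ℕ) - ser Φ (s a) ^ (α a : ℕ)) *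
          ∏ i ∈ S, ser Φ (s i) ^ (α i : ℕ) := by ring
    rw [e1]
    intro j
    rw [map_add]
    refine (((h2.mul ih2) j).mono ?_).add (((h3.mul hφ) j).mono ?_) <;> linarith

omit [CharP Ω p] in
omit hp in
theorem Dat.ser_fix {x : Ω} (hx : x ∈ K) : ser Φ x =
    ∑ α, ser Φ (cf h.ht x α) ^ p * monS (fun i => ser Φ (s i)) α := by
  have hc := cf_mem h.ht x
  have e1 : (⟨x, hx⟩ : K) = ∑ α : Fin n → Fin p, (⟨cf h.ht x α, hc α⟩ : K) ^ p *
      ∏ i, (⟨s i, h.ht.mem i⟩ : K) ^ (α i : ℕ) := by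
    apply Subtype.ext
    push_cast
    exact cf_spec h.ht hx
  have e2 := congrArg (ahom h.hsd) e1
  rw [ahom_apply, map_sum] at e2
  rw [e2]
  refine sum_congr rfl fun α _ => ?_
  rw [map_mul, map_pow, map_prod, ahom_apply, monS]
  congr 1
  refine prod_congr rfl fun i _ => ?_
  rw [map_pow, ahom_apply]

/-- `TS` is near the arc, uniformly. -/
theorem Dat.TS_near (N : ℕ) : ∀ x ∈ K, ∀ b : ℝ, v.Ge b x →
    GT v σ N (b + μ) (TS h.ht S' x - ser Φ x) := by
  induction N with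
  | zero => intro x _ b _ j hj; exact absurd hj (Nat.not_lt_zero j)
  | succ N ih =>
    intro x hx b hb
    rcases Nat.eq_zero_or_pos N with hN | hN
    · intro j hj
      obtain rfl : j = 0 := by omega
      rw [map_sub, coeff_zero_TS h.ht h.z hx, coeff_ser, h.hsd.c0 x hx, sub_self]
      exact RVal.Ge.zero
    have e1 : TS h.ht S' x - ser Φ x =
        ∑ α, (TS h.ht S' (cf h.ht x α) - ser Φ (cf h.ht x α)) ^ p * monS S' α +
          ∑ α, ser Φ (cf h.ht x α) ^ p * (monS S' α - monS (fun i => ser Φ (s i)) α) := by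
      conv_lhs => rw [TS_fix h.ht h.z hx, h.ser_fix hx]
      rw [← sum_sub_distrib, ← sum_add_distrib]
      refine sum_congr rfl fun α _ => ?_
      rw [sub_pow_char]
      ring
    rw [e1]
    have hz : (0 : PowerSeries Ω) ^ p = 0 := zero_pow hp.out.ne_zero
    have hs0 : ser Φ (0 : Ω) = 0 := by
      ext l
      rw [coeff_ser, h.hsd.zero, map_zero]
    have key : ∀ α : Fin n → Fin p, GT v σ (N + 1) (b + μ)
        ((TS h.ht S' (cf h.ht x α) - ser Φ (cf h.ht x α)) ^ p * monS S' α) ∧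
        GT v σ (N + 1) (b + μ)
          (ser Φ (cf h.ht x α) ^ p * (monS S' α - monS (fun i => ser Φ (s i)) α)) := by
      intro α
      obtain ⟨hm1, hm2, -⟩ := h.mon_near α
      by_cases hc0 : cf h.ht x α = 0
      · rw [hc0, TS_zero, hs0, sub_self, hz, zero_mul, zero_mul]
        exact ⟨fun j _ => by rw [map_zero]; exact RVal.Ge.zero,
          fun j _ => by rw [map_zero]; exact RVal.Ge.zero⟩
      · have hm0 : mon s α ≠ 0 := mon_ne h.ne α
        have h2 := cf_ge h.ht h.ho hx hb α (mul_ne_zero (pow_ne_zero p hc0) hm0)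
        rw [v.map_mul (pow_ne_zero p hc0) hm0, v.map_pow hc0] at h2
        refine ⟨(((ih _ (cf_mem h.ht x α) _ (v.ge_self _)).powp hN).mul (hm1.gt _)).mono ?_,
          ((((h.nrm _ (cf_mem h.ht x α) _ (v.ge_self _)).pow p).gt _).mul (hm2.gt _)).mono ?_⟩
        · have := h.e1
          linarith
        · linarith [h.e2]
    intro j hj
    rw [map_add]
    exact (GT.sum _ _ (fun α _ => (key α).1) j hj).add (GT.sum _ _ (fun α _ => (key α).2) j hj)

theorem Dat.TS_gg {x : Ω} (hx : x ∈ K) {b : ℝ} (hb : v.Ge b x) : GG v σ b (TS h.ht S' x) := by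
  intro j
  have e : PowerSeries.coeff j (TS h.ht S' x) = PowerSeries.coeff j (TS h.ht S' x - ser Φ x) +
      PowerSeries.coeff j (ser Φ x) := by
    rw [map_sub]
    ring
  rw [e]
  exact ((h.TS_near (j + 1) x hx b hb j (Nat.lt_succ_self j)).mono (by linarith [h.pos])).add
    (h.nrm x hx b hb j)

/-- Overconvergence. -/
theorem Dat.TS_tail (m : ℕ) : ∀ x ∈ K, ∀ b : ℝ, v.Ge b x →
    Tail v σ b (μ + m * ((p - 1) * μ - ε)) (TS h.ht S' x) := by
  have hp1 : (1 : ℝ) ≤ p := by exact_mod_cast hp.out.one_lt.le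
  have hδ : 0 < ((p : ℝ) - 1) * μ - ε := by linarith [h.e1]
  induction m with
  | zero =>
    intro x hx b hb
    refine ⟨h.TS_gg hx hb, ?_⟩
    obtain ⟨L, hL⟩ := h.oi x hx (b + μ)
    refine ⟨L, fun j hj => ?_⟩
    have e : PowerSeries.coeff j (TS h.ht S' x) = PowerSeries.coeff j (TS h.ht S' x - ser Φ x) +
        PowerSeries.coeff j (ser Φ x) := by
      rw [map_sub]
      ring
    rw [e, Nat.cast_zero, zero_mul, add_zero, coeff_ser]
    exact (h.TS_near (j + 1) x hx b hb j (Nat.lt_succ_self j)).add (hL j hj)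
  | succ m ih =>
    intro x hx b hb
    refine ⟨h.TS_gg hx hb, ?_⟩
    have hz : (0 : PowerSeries Ω) ^ p = 0 := zero_pow hp.out.ne_zero
    have key : Tail v σ (b - ε) (p * (μ + m * ((p - 1) * μ - ε)))
        (∑ α, TS h.ht S' (cf h.ht x α) ^ p * monS S' α) := by
      refine Tail.sum _ _ fun α _ => ?_
      by_cases hc0 : cf h.ht x α = 0
      · rw [hc0, TS_zero, hz, zero_mul]
        exact ⟨fun j => by rw [map_zero]; exact RVal.Ge.zero,
          0, fun j _ => by rw [map_zero]; exact RVal.Ge.zero⟩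
      · have hm0 : mon s α ≠ 0 := mon_ne h.ne α
        have h2 := cf_ge h.ht h.ho hx hb α (mul_ne_zero (pow_ne_zero p hc0) hm0)
        rw [v.map_mul (pow_ne_zero p hc0) hm0, v.map_pow hc0] at h2
        obtain ⟨h3, L, h4⟩ := ((ih _ (cf_mem h.ht x α) _ (v.ge_self _)).powp (p := p)).mul
          ((h.mon_near α).2.2 _)
        exact ⟨h3.mono (by linarith), L, fun j hj => (h4 j hj).mono (by linarith)⟩
    rw [← TS_fix h.ht h.z hx] at key
    obtain ⟨-, L, hL⟩ := key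
    refine ⟨L, fun j hj => (hL j hj).mono ?_⟩
    have h4 : (0 : ℝ) ≤ m := Nat.cast_nonneg m
    push_cast
    nlinarith [mul_nonneg (mul_nonneg h4 hδ.le) (by linarith : (0 : ℝ) ≤ (p : ℝ) - 1)]

/-- The new arc. -/
theorem Dat.exists_hsd [IsAlgClosed k] (hstr : ∀ l : ℕ, l ≠ 0 → ∃ a : ℝ, a < l * σ ∧ ∀ f ∈ K,
    ∀ b : ℝ, v.Ge b f → v.Ge (b - a) (Φ l f)) :
    ∃ Ψ : ℕ → Ω → Ω, Arc v K σ Ψ ∧ Oi v K σ Ψ ∧ (∀ i, ser Ψ (s i) = S' i) ∧
      ∀ x ∈ K, ∀ b : ℝ, v.Ge b x → ∀ l : ℕ, v.Ge (b + μ - l * σ) (Ψ l x - Φ l x) := by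
  have hcoe : ∀ x, ser (fun l x => PowerSeries.coeff l (TS h.ht S' x)) x = TS h.ht S' x := by
    intro x
    ext l
    rw [coeff_ser]
  have hnear : ∀ x ∈ K, ∀ b : ℝ, v.Ge b x → ∀ l : ℕ, v.Ge (b + μ - l * σ)
      (PowerSeries.coeff l (TS h.ht S' x) - Φ l x) := by
    intro x hx b hb l
    have h1 := h.TS_near (l + 1) x hx b hb l (Nat.lt_succ_self l)
    rwa [map_sub, coeff_ser] at h1
  refine ⟨fun l x => PowerSeries.coeff l (TS h.ht S' x),
    ⟨⟨fun l f hf => coeff_TS_mem h.ht h.mem hf l, fun f hf => coeff_zero_TS h.ht h.z hf,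
      fun l f hf g hg => by rw [TS_add h.ht hf hg, map_add],
      fun l f hf g hg => by rw [TS_mul h.ht h.z hf hg, PowerSeries.coeff_mul],
      fun l hl c => by rw [TS_const h.ht h.z, PowerSeries.coeff_C, if_neg hl]⟩,
      fun l hl => ?_⟩, ?_, fun i => by rw [hcoe, TS_basis h.ht h.z], hnear⟩
  · obtain ⟨a, ha, h1⟩ := hstr l hl
    refine ⟨max a (l * σ - μ), max_lt ha (by linarith [h.pos]), fun f hf b hb => ?_⟩
    have e : PowerSeries.coeff l (TS h.ht S' f) =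
        (PowerSeries.coeff l (TS h.ht S' f) - Φ l f) + Φ l f := by ring
    rw [e]
    exact ((hnear f hf b hb l).mono (by linarith [le_max_right a (l * σ - μ)])).add
      ((h1 f hf b hb).mono (by linarith [le_max_left a (l * σ - μ)]))
  · intro f hf c
    have hδ : 0 < ((p : ℝ) - 1) * μ - ε := by linarith [h.e1]
    obtain ⟨m, hm⟩ := exists_nat_ge ((c - v f - μ) / (((p : ℝ) - 1) * μ - ε))
    rw [div_le_iff₀ hδ] at hm
    obtain ⟨-, L, hL⟩ := h.TS_tail m f hf _ (v.ge_self f)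
    exact ⟨L, fun l hl => (hL l hl).mono (by linarith)⟩

end D

end Iso

end Pool.Agent.TWEX
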