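import Pool.Agent.Lib.TWEX.Iso

/-!
# TANK W: isogeny of strict arcs, C: composition of Hasse-Schmidt systems

`hat Θ f = ∑ Θ (f_j) ε ^ j`: the `ε`-linear extension of `Θ` to power series over `K`; it is
multiplicative and injective. `hcomp Θ Φ`: the composition. `hsol Θ Φ`: the solution of
`Θ ∘ hsol Θ Φ = Φ`.
-/

set_option autoImplicit false

open Finset

namespace Pool.Agent.TWEX

open Pool.Agent.H15JM (RVal)
open Pool.Agent.TWM
open Pool.Agent.TWLM (HSd Oi Arc)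
open Pool.Agent.TWN1 (ser coeff_ser ahom ahom_apply)

universe u

namespace Iso

variable {k Ω : Type u} [Field k] [Field Ω] [Algebra k Ω] {v : RVal Ω}
  {K : IntermediateField k Ω} {Φ Θ : ℕ → Ω → Ω} {f g : PowerSeries Ω}

/-- The coefficients are in `K`. -/
def PK (K : IntermediateField k Ω) (f : PowerSeries Ω) : Prop := ∀ n, PowerSeries.coeff n f ∈ K

/-- The `ε`-linear extension. -/
noncomputable def hat (Θ : ℕ → Ω → Ω) (f : PowerSeries Ω) : PowerSeries Ω :=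
  PowerSeries.mk fun n => ∑ i ∈ antidiagonal n, Θ i.1 (PowerSeries.coeff i.2 f)

/-- The composition. -/
noncomputable def hcomp (Θ Φ : ℕ → Ω → Ω) (n : ℕ) (x : Ω) : Ω :=
  ∑ i ∈ antidiagonal n, Θ i.1 (Φ i.2 x)

omit [Algebra k Ω] [Field k] in
theorem coeff_hat (Θ : ℕ → Ω → Ω) (f : PowerSeries Ω) (n : ℕ) : PowerSeries.coeff n (hat Θ f) =
    ∑ i ∈ antidiagonal n, Θ i.1 (PowerSeries.coeff i.2 f) := PowerSeries.coeff_mk _ _

theorem pk_ser (h : HSd K Φ) {x : Ω} (hx : x ∈ K) : PK K (ser Φ x) := fun n => by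
  rw [coeff_ser]
  exact h.mem n x hx

theorem pk_C {x : Ω} (hx : x ∈ K) : PK K (PowerSeries.C x) := fun n => by
  rw [PowerSeries.coeff_C]
  split_ifs
  exacts [hx, K.zero_mem]

theorem PK.add (hf : PK K f) (hg : PK K g) : PK K (f + g) := fun n => by
  rw [map_add]
  exact add_mem (hf n) (hg n)

theorem PK.sub (hf : PK K f) (hg : PK K g) : PK K (f - g) := fun n => by
  rw [map_sub]
  exact sub_mem (hf n) (hg n)

theorem PK.mul (hf : PK K f) (hg : PK K g) : PK K (f * g) := fun n => by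
  rw [PowerSeries.coeff_mul]
  exact sum_mem fun i _ => mul_mem (hf _) (hg _)

theorem ser_mul' (h : HSd K Φ) {x y : Ω} (hx : x ∈ K) (hy : y ∈ K) :
    ser Φ (x * y) = ser Φ x * ser Φ y := by
  ext n
  rw [coeff_ser, h.mul n x hx y hy, PowerSeries.coeff_mul]
  simp only [coeff_ser]

theorem ser_add' (h : HSd K Φ) {x y : Ω} (hx : x ∈ K) (hy : y ∈ K) :
    ser Φ (x + y) = ser Φ x + ser Φ y := by
  ext n
  rw [coeff_ser, h.add n x hx y hy, map_add, coeff_ser, coeff_ser]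

theorem ser_con (h : HSd K Φ) (c : k) :
    ser Φ (algebraMap k Ω c) = PowerSeries.C (algebraMap k Ω c) := by
  ext n
  rw [coeff_ser, PowerSeries.coeff_C]
  split_ifs with hn
  · rw [hn, h.c0 _ (K.algebraMap_mem c)]
  · exact h.con n hn c

theorem pk_hat (h : HSd K Θ) (hf : PK K f) : PK K (hat Θ f) := fun n => by
  rw [coeff_hat]
  exact sum_mem fun i _ => h.mem _ _ (hf _)

theorem hat_C (h : HSd K Θ) {x : Ω} (_ : x ∈ K) : hat Θ (PowerSeries.C x) = ser Θ x := by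
  ext n
  rw [coeff_hat, coeff_ser, sum_eq_single (n, 0)]
  · simp [PowerSeries.coeff_C]
  · intro i hi hne
    have h1 : i.1 + i.2 = n := by simpa using hi
    have h2 : i.2 ≠ 0 := fun h2 => hne (Prod.ext (by simpa [h2] using h1) h2)
    rw [PowerSeries.coeff_C, if_neg h2, h.zero]
  · intro h1
    exact absurd (by simp) h1

theorem hat_add (h : HSd K Θ) (hf : PK K f) (hg : PK K g) :
    hat Θ (f + g) = hat Θ f + hat Θ g := by
  ext n
  rw [map_add, coeff_hat, coeff_hat, coeff_hat, ← sum_add_distrib]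
  refine sum_congr rfl fun i _ => ?_
  rw [map_add, h.add _ _ (hf _) _ (hg _)]

theorem hat_sub (h : HSd K Θ) (hf : PK K f) (hg : PK K g) :
    hat Θ (f - g) = hat Θ f - hat Θ g := by
  ext n
  rw [map_sub, coeff_hat, coeff_hat, coeff_hat, ← sum_sub_distrib]
  refine sum_congr rfl fun i _ => ?_
  rw [map_sub, h.sub _ (hf _) (hg _)]

theorem hat_mul (h : HSd K Θ) (hf : PK K f) (hg : PK K g) :
    hat Θ (f * g) = hat Θ f * hat Θ g := by
  ext n
  rw [coeff_hat, PowerSeries.coeff_mul]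
  have e1 : ∀ x : ℕ × ℕ, Θ x.1 (PowerSeries.coeff x.2 (f * g)) =
      ∑ y ∈ antidiagonal x.2 ×ˢ antidiagonal x.1, Θ y.2.1 (PowerSeries.coeff y.1.1 f) *
        Θ y.2.2 (PowerSeries.coeff y.1.2 g) := by
    intro x
    rw [PowerSeries.coeff_mul, h.sum x.1 _ _ fun y _ => mul_mem (hf _) (hg _), sum_product]
    exact sum_congr rfl fun y _ => h.mul _ _ (hf _) _ (hg _)
  have e2 : ∀ x : ℕ × ℕ, PowerSeries.coeff x.1 (hat Θ f) * PowerSeries.coeff x.2 (hat Θ g) =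
      ∑ y ∈ antidiagonal x.1 ×ˢ antidiagonal x.2, Θ y.1.1 (PowerSeries.coeff y.1.2 f) *
        Θ y.2.1 (PowerSeries.coeff y.2.2 g) := by
    intro x
    rw [coeff_hat, coeff_hat, sum_product, sum_mul]
    exact sum_congr rfl fun y _ => mul_sum _ _ _
  rw [sum_congr rfl fun x _ => e1 x, sum_congr rfl fun x _ => e2 x, sum_sigma', sum_sigma']
  refine sum_nbij' (fun x => ⟨(x.2.2.1 + x.2.1.1, x.2.2.2 + x.2.1.2),
    ((x.2.2.1, x.2.1.1), (x.2.2.2, x.2.1.2))⟩) (fun x => ⟨(x.2.1.1 + x.2.2.1, x.2.1.2 + x.2.2.2),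
    ((x.2.1.2, x.2.2.2), (x.2.1.1, x.2.2.1))⟩) ?_ ?_ ?_ ?_ ?_
  · rintro ⟨⟨a, b⟩, ⟨⟨c, d⟩, ⟨e, e'⟩⟩⟩ hx
    simp only [mem_sigma, mem_product, HasAntidiagonal.mem_antidiagonal] at hx ⊢
    obtain ⟨h1, h2, h3⟩ := hx
    refine ⟨?_, ?_, ?_⟩ <;> first | omega | (dsimp only; try omega)
  · rintro ⟨⟨a, b⟩, ⟨⟨c, d⟩, ⟨e, e'⟩⟩⟩ hx
    simp only [mem_sigma, mem_product, HasAntidiagonal.mem_antidiagonal] at hx ⊢
    obtain ⟨h1, h2, h3⟩ := hx
    refine ⟨?_, ?_, ?_⟩ <;> first | omega | (dsimp only; try omega)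
  · rintro ⟨⟨a, b⟩, ⟨⟨c, d⟩, ⟨e, e'⟩⟩⟩ hx
    simp only [mem_sigma, mem_product, HasAntidiagonal.mem_antidiagonal] at hx
    obtain ⟨h1, h2, h3⟩ := hx
    subst h2 h3
    rfl
  · rintro ⟨⟨a, b⟩, ⟨⟨c, d⟩, ⟨e, e'⟩⟩⟩ hx
    simp only [mem_sigma, mem_product, HasAntidiagonal.mem_antidiagonal] at hx
    obtain ⟨h1, h2, h3⟩ := hx
    subst h2 h3
    rfl
  · rintro ⟨⟨a, b⟩, ⟨⟨c, d⟩, ⟨e, e'⟩⟩⟩ _
    rfl

theorem hat_hat (h : HSd K Θ) (h' : HSd K Φ) (hf : PK K f) :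
    hat Θ (hat Φ f) = hat (hcomp Θ Φ) f := by
  ext n
  rw [coeff_hat, coeff_hat]
  have e1 : ∀ x : ℕ × ℕ, Θ x.1 (PowerSeries.coeff x.2 (hat Φ f)) =
      ∑ y ∈ antidiagonal x.2, Θ x.1 (Φ y.1 (PowerSeries.coeff y.2 f)) := by
    intro x
    rw [coeff_hat, h.sum x.1 _ _ fun y _ => h'.mem _ _ (hf _)]
  have e2 : ∀ x : ℕ × ℕ, hcomp Θ Φ x.1 (PowerSeries.coeff x.2 f) =
      ∑ y ∈ antidiagonal x.1, Θ y.1 (Φ y.2 (PowerSeries.coeff x.2 f)) := fun x => rfl
  rw [sum_congr rfl fun x _ => e1 x, sum_congr rfl fun x _ => e2 x, sum_sigma', sum_sigma']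
  refine sum_nbij' (fun x => ⟨(x.1.1 + x.2.1, x.2.2), (x.1.1, x.2.1)⟩)
    (fun x => ⟨(x.2.1, x.2.2 + x.1.2), (x.2.2, x.1.2)⟩) ?_ ?_ ?_ ?_ ?_
  · rintro ⟨⟨a, b⟩, ⟨c, d⟩⟩ hx
    simp only [mem_sigma, HasAntidiagonal.mem_antidiagonal] at hx ⊢
    obtain ⟨h1, h2⟩ := hx
    refine ⟨?_, ?_⟩ <;> first | omega | (dsimp only; try omega)
  · rintro ⟨⟨a, b⟩, ⟨c, d⟩⟩ hx
    simp only [mem_sigma, HasAntidiagonal.mem_antidiagonal] at hx ⊢
    obtain ⟨h1, h2⟩ := hx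
    refine ⟨?_, ?_⟩ <;> first | omega | (dsimp only; try omega)
  · rintro ⟨⟨a, b⟩, ⟨c, d⟩⟩ hx
    simp only [mem_sigma, HasAntidiagonal.mem_antidiagonal] at hx
    obtain ⟨h1, rfl⟩ := hx
    rfl
  · rintro ⟨⟨a, b⟩, ⟨c, d⟩⟩ hx
    simp only [mem_sigma, HasAntidiagonal.mem_antidiagonal] at hx
    obtain ⟨h1, rfl⟩ := hx
    rfl
  · rintro ⟨⟨a, b⟩, ⟨c, d⟩⟩ _
    rfl

omit [Algebra k Ω] [Field k] in
theorem ser_hcomp (Θ Φ : ℕ → Ω → Ω) (x : Ω) : ser (hcomp Θ Φ) x = hat Θ (ser Φ x) := by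
  ext n
  rw [coeff_ser, coeff_hat, hcomp]
  exact sum_congr rfl fun i _ => by rw [coeff_ser]

/-- The leading term. -/
theorem coeff_hat' (h : HSd K Θ) (hf : PK K f) (n : ℕ) : PowerSeries.coeff n (hat Θ f) =
    PowerSeries.coeff n f + ∑ i ∈ range n, Θ (n - i) (PowerSeries.coeff i f) := by
  rw [coeff_hat, Nat.sum_antidiagonal_eq_sum_range_succ_mk, sum_range_succ']
  dsimp only
  rw [Nat.sub_zero, h.c0 _ (hf n), add_comm]
  congr 1
  rw [← sum_range_reflect]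
  refine sum_congr rfl fun i hi => ?_
  have h1 : i < n := mem_range.1 hi
  congr 2
  · omega
  · congr 1
    omega

/-- Descent of the coefficients. -/
theorem mem_of_hat {G : Set Ω} (h : HSd K Θ) (hf : PK K f) (h0 : (0 : Ω) ∈ G)
    (hs : ∀ x ∈ G, ∀ y ∈ G, x - y ∈ G) (ha : ∀ x ∈ G, ∀ y ∈ G, x + y ∈ G)
    (hG : ∀ l x, x ∈ G → x ∈ K → Θ l x ∈ G) (hfG : ∀ n, PowerSeries.coeff n (hat Θ f) ∈ G) (n : ℕ) :
    PowerSeries.coeff n f ∈ G := by
  induction n using Nat.strong_induction_on with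
  | _ n ih =>
    have h1 := coeff_hat' h hf n
    have h2 : PowerSeries.coeff n f = PowerSeries.coeff n (hat Θ f) -
        ∑ i ∈ range n, Θ (n - i) (PowerSeries.coeff i f) := by
      rw [h1]
      ring
    rw [h2]
    refine hs _ (hfG n) _ ?_
    have key : ∀ S : Finset ℕ, (∀ i ∈ S, i < n) →
        ∑ i ∈ S, Θ (n - i) (PowerSeries.coeff i f) ∈ G := by
      intro S
      induction S using Finset.induction_on with
      | empty => exact fun _ => by rw [sum_empty]; exact h0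
      | insert a S ha' ih' =>
        intro hS
        rw [sum_insert ha']
        exact ha _ (hG _ _ (ih a (hS a (mem_insert_self a S))) (hf a)) _
          (ih' fun i hi => hS i (mem_insert_of_mem hi))
    exact key _ fun i hi => mem_range.1 hi

theorem hat_inj (h : HSd K Θ) (hf : PK K f) (hg : PK K g) (he : hat Θ f = hat Θ g) : f = g := by
  have h1 := mem_of_hat (G := {0}) (f := f - g) h (hf.sub hg) rfl
    (fun x hx y hy => by rw [Set.mem_singleton_iff] at *; rw [hx, hy, sub_zero])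
    (fun x hx y hy => by rw [Set.mem_singleton_iff] at *; rw [hx, hy, add_zero])
    (fun l x hx _ => by rw [Set.mem_singleton_iff] at *; rw [hx, h.zero])
    (fun n => by rw [hat_sub h hf hg, he, sub_self, map_zero]; rfl)
  ext n
  have h2 : PowerSeries.coeff n (f - g) = 0 := h1 n
  rw [map_sub] at h2
  exact sub_eq_zero.1 h2

theorem hcomp_hsd (h : HSd K Θ) (h' : HSd K Φ) : HSd K (hcomp Θ Φ) := by
  have e : ∀ x l, hcomp Θ Φ l x = PowerSeries.coeff l (hat Θ (ser Φ x)) := fun x l => by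
    rw [← ser_hcomp, coeff_ser]
  refine ⟨fun l x hx => ?_, fun x hx => ?_, fun l x hx y hy => ?_, fun l x hx y hy => ?_,
    fun l hl c => ?_⟩
  · rw [e]
    exact pk_hat h (pk_ser h' hx) l
  · rw [hcomp, Nat.antidiagonal_zero, sum_singleton, h'.c0 x hx, h.c0 x hx]
  · rw [e, e, e, ser_add' h' hx hy, hat_add h (pk_ser h' hx) (pk_ser h' hy), map_add]
  · rw [e, ser_mul' h' hx hy, hat_mul h (pk_ser h' hx) (pk_ser h' hy), PowerSeries.coeff_mul]
    exact sum_congr rfl fun i _ => by rw [e, e]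
  · rw [e, ser_con h' c, hat_C h (K.algebraMap_mem c), coeff_ser, h.con l hl]

/-- The solution of `Θ ∘ X = Φ`. -/
noncomputable def hsol (Θ Φ : ℕ → Ω → Ω) : ℕ → Ω → Ω
  | n => fun x => Φ n x - ∑ i : Fin n, Θ (n - i) (hsol Θ Φ i x)
decreasing_by exact i.2

omit [Algebra k Ω] [Field k] in
theorem hsol_eq (Θ Φ : ℕ → Ω → Ω) (n : ℕ) (x : Ω) :
    hsol Θ Φ n x = Φ n x - ∑ i ∈ range n, Θ (n - i) (hsol Θ Φ i x) := by
  rw [hsol, sum_range fun i => Θ (n - i) (hsol Θ Φ i x)]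

theorem hsol_mem (h : HSd K Θ) (h' : HSd K Φ) {x : Ω} (hx : x ∈ K) (n : ℕ) : hsol Θ Φ n x ∈ K := by
  induction n using Nat.strong_induction_on with
  | _ n ih =>
    rw [hsol_eq]
    exact sub_mem (h'.mem n x hx) (sum_mem fun i hi => h.mem _ _ (ih i (mem_range.1 hi)))

theorem hat_hsol (h : HSd K Θ) (h' : HSd K Φ) {x : Ω} (hx : x ∈ K) :
    hat Θ (ser (hsol Θ Φ) x) = ser Φ x := by
  ext n
  rw [coeff_hat' h (fun l => by rw [coeff_ser]; exact hsol_mem h h' hx l), coeff_ser, hsol_eq,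
    coeff_ser]
  simp only [coeff_ser]
  ring

theorem hsol_hsd (h : HSd K Θ) (h' : HSd K Φ) : HSd K (hsol Θ Φ) := by
  have hpk : ∀ x ∈ K, PK K (ser (hsol Θ Φ) x) := fun x hx l => by
    rw [coeff_ser]
    exact hsol_mem h h' hx l
  have e : ∀ x l, hsol Θ Φ l x = PowerSeries.coeff l (ser (hsol Θ Φ) x) := fun x l => by
    rw [coeff_ser]
  refine ⟨fun l x hx => hsol_mem h h' hx l, fun x hx => ?_, fun l x hx y hy => ?_,
    fun l x hx y hy => ?_, fun l hl c => ?_⟩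
  · rw [hsol_eq, range_zero, sum_empty, sub_zero, h'.c0 x hx]
  · have h1 : ser (hsol Θ Φ) (x + y) = ser (hsol Θ Φ) x + ser (hsol Θ Φ) y :=
      hat_inj h (hpk _ (add_mem hx hy)) ((hpk x hx).add (hpk y hy)) (by
        rw [hat_add h (hpk x hx) (hpk y hy), hat_hsol h h' hx, hat_hsol h h' hy,
          hat_hsol h h' (add_mem hx hy), ser_add' h' hx hy])
    rw [e, h1, map_add, coeff_ser, coeff_ser]
  · have h1 : ser (hsol Θ Φ) (x * y) = ser (hsol Θ Φ) x * ser (hsol Θ Φ) y :=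
      hat_inj h (hpk _ (mul_mem hx hy)) ((hpk x hx).mul (hpk y hy)) (by
        rw [hat_mul h (hpk x hx) (hpk y hy), hat_hsol h h' hx, hat_hsol h h' hy,
          hat_hsol h h' (mul_mem hx hy), ser_mul' h' hx hy])
    rw [e, h1, PowerSeries.coeff_mul]
    exact sum_congr rfl fun i _ => by rw [coeff_ser, coeff_ser]
  · have h1 : ser (hsol Θ Φ) (algebraMap k Ω c) = PowerSeries.C (algebraMap k Ω c) :=
      hat_inj h (hpk _ (K.algebraMap_mem c)) (pk_C (K.algebraMap_mem c)) (by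
        rw [hat_hsol h h' (K.algebraMap_mem c), hat_C h (K.algebraMap_mem c), ser_con h', ser_con h])
    rw [e, h1, PowerSeries.coeff_C, if_neg hl]

end Iso

end Pool.Agent.TWEX
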