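import Pool.Agent.Lib.TWEX.IsoC

/-!
# TANK W: isogeny of strict arcs, D: systems near the identity, with linear decay

`OC v σ Φ x`: linear decay of the jets of `x` below `σ`. `NI v K ρ μ Θ`: `Θ` is near the identity
at the radius `ρ`. If `ρ < σ`, the composition of `Θ` with a strict overconvergent arc of radius `σ`
is one.
-/

set_option autoImplicit false

open Finset

namespace Pool.Agent.TWEX

open Pool.Agent.H15JM (RVal)
open Pool.Agent.TWM
open Pool.Agent.TWLM (HSd Oi Arc)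
open Pool.Agent.TWN1 (ser coeff_ser ahom ahom_apply)

universe u

namespace Iso

variable {k Ω : Type u} [Field k] [Field Ω] [Algebra k Ω] {v : RVal Ω}
  {K : IntermediateField k Ω} {Φ Θ : ℕ → Ω → Ω} {σ ρ μ : ℝ} {x : Ω}

/-- Linear decay below `σ`. -/
def OC (v : RVal Ω) (σ : ℝ) (Φ : ℕ → Ω → Ω) (x : Ω) : Prop :=
  ∃ ρ : ℝ, ρ < σ ∧ ∃ B : ℝ, ∀ l : ℕ, v.Ge (B - l * ρ) (Φ l x)

/-- Near the identity, with linear decay. -/
structure NI (v : RVal Ω) (K : IntermediateField k Ω) (ρ μ : ℝ) (Θ : ℕ → Ω → Ω) : Prop where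
  hsd : HSd K Θ
  pos : 0 < μ
  nr : ∀ l : ℕ, l ≠ 0 → ∀ x ∈ K, ∀ b : ℝ, v.Ge b x → v.Ge (b + μ - l * ρ) (Θ l x)

/-- The trivial system. -/
def idd (l : ℕ) (x : Ω) : Ω := if l = 0 then x else 0

theorem idd_hsd (K : IntermediateField k Ω) : HSd K (idd (Ω := Ω)) := by
  refine ⟨fun l f hf => ?_, fun f _ => if_pos rfl, fun l f _ g _ => ?_, fun l f _ g _ => ?_,
    fun l hl c => if_neg hl⟩
  · unfold idd
    split_ifs
    exacts [hf, K.zero_mem]
  · unfold idd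
    split_ifs
    · rfl
    · rw [add_zero]
  · unfold idd
    by_cases hl : l = 0
    · rw [hl]
      simp
    · rw [if_neg hl]
      refine (sum_eq_zero fun i hi => ?_).symm
      have h1 : i.1 + i.2 = l := by simpa using hi
      by_cases h2 : i.1 = 0
      · rw [if_neg (show i.2 ≠ 0 by omega), mul_zero]
      · rw [if_neg h2, zero_mul]

theorem idd_ni (K : IntermediateField k Ω) (v : RVal Ω) (ρ : ℝ) (hμ : 0 < μ) :
    NI v K ρ μ (idd (Ω := Ω)) :=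
  ⟨idd_hsd K, hμ, fun l hl x _ b _ => by
    rw [idd, if_neg hl]
    exact RVal.Ge.zero⟩

omit [Algebra k Ω] [Field k] in
theorem ser_idd (x : Ω) : ser idd x = PowerSeries.C x := by
  ext n
  rw [coeff_ser, PowerSeries.coeff_C]
  rfl

omit [Algebra k Ω] [Field k] in
theorem hat_idd (f : PowerSeries Ω) : hat idd f = f := by
  ext n
  rw [coeff_hat, sum_eq_single (0, n)]
  · exact if_pos rfl
  · intro i hi hne
    have h1 : i.1 + i.2 = n := by simpa using hi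
    have h2 : i.1 ≠ 0 := fun h2 => hne (Prod.ext h2 (by simpa [h2] using h1))
    exact if_neg h2
  · intro h1
    exact absurd (by simp) h1

/-- The inverse system. -/
noncomputable def hinv (Θ : ℕ → Ω → Ω) : ℕ → Ω → Ω := hsol Θ idd

theorem hinv_hsd (h : HSd K Θ) : HSd K (hinv Θ) := hsol_hsd h (idd_hsd K)

theorem hat_congr {f : PowerSeries Ω} (hf : PK K f) (h : ∀ l, ∀ x ∈ K, Θ l x = Φ l x) :
    hat Θ f = hat Φ f := by
  ext n
  rw [coeff_hat, coeff_hat]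
  exact sum_congr rfl fun i _ => h _ _ (hf _)

theorem hcomp_hinv (h : HSd K Θ) (n : ℕ) {x : Ω} (hx : x ∈ K) : hcomp Θ (hinv Θ) n x = idd n x := by
  have h1 := congrArg (PowerSeries.coeff n) (hat_hsol h (idd_hsd K) hx)
  rw [← ser_hcomp, coeff_ser, coeff_ser] at h1
  exact h1

theorem hat_hinv (h : HSd K Θ) {f : PowerSeries Ω} (hf : PK K f) : hat Θ (hat (hinv Θ) f) = f := by
  rw [hat_hat h (hinv_hsd h) hf, hat_congr hf fun l x hx => hcomp_hinv h l hx, hat_idd]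

theorem hinv_hat (h : HSd K Θ) {f : PowerSeries Ω} (hf : PK K f) : hat (hinv Θ) (hat Θ f) = f :=
  hat_inj h (pk_hat (hinv_hsd h) (pk_hat h hf)) hf (hat_hinv h (pk_hat h hf))

theorem hinv_hcomp (h : HSd K Θ) (n : ℕ) {x : Ω} (hx : x ∈ K) : hcomp (hinv Θ) Θ n x = idd n x := by
  have h1 := congrArg (PowerSeries.coeff n) (hinv_hat h (pk_C (K := K) hx))
  rw [hat_C h hx, ← ser_hcomp, coeff_ser, PowerSeries.coeff_C] at h1
  exact h1

namespace NI

variable (h : NI v K ρ μ Θ)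
include h

theorem ge (l : ℕ) (hx : x ∈ K) {b : ℝ} (hb : v.Ge b x) : v.Ge (b - l * ρ) (Θ l x) := by
  by_cases hl : l = 0
  · rw [hl, h.hsd.c0 x hx]
    exact hb.mono (by simp)
  · exact (h.nr l hl x hx b hb).mono (by linarith [h.pos])

/-- The norm of the extension. -/
theorem hat_ge {f : PowerSeries Ω} (hf : PK K f) {B σ : ℝ} (hσ : ρ ≤ σ)
    (hB : ∀ l : ℕ, v.Ge (B - l * σ) (PowerSeries.coeff l f)) (l : ℕ) :
    v.Ge (B - l * σ) (PowerSeries.coeff l (hat Θ f)) := by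
  rw [coeff_hat]
  refine RVal.Ge.sum _ _ fun i hi => ?_
  have h1 : i.1 + i.2 = l := by simpa using hi
  refine (h.ge i.1 (hf _) (hB i.2)).mono ?_
  have h2 : (i.1 : ℝ) * ρ ≤ i.1 * σ := mul_le_mul_of_nonneg_left hσ (Nat.cast_nonneg _)
  rw [← h1]
  push_cast
  linarith

theorem hat_near {f : PowerSeries Ω} (hf : PK K f) {B σ : ℝ} (hσ : ρ ≤ σ)
    (hB : ∀ l : ℕ, v.Ge (B - l * σ) (PowerSeries.coeff l f)) (l : ℕ) :
    v.Ge (B + μ - l * σ) (PowerSeries.coeff l (hat Θ f) - PowerSeries.coeff l f) := by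
  rw [coeff_hat' h.hsd hf, add_sub_cancel_left]
  refine RVal.Ge.sum _ _ fun i hi => ?_
  have h1 : i < l := mem_range.1 hi
  refine (h.nr (l - i) (by omega) _ (hf _) _ (hB i)).mono ?_
  have h2 : ((l - i : ℕ) : ℝ) * ρ ≤ (l - i : ℕ) * σ :=
    mul_le_mul_of_nonneg_left hσ (Nat.cast_nonneg _)
  have h3 : (l : ℝ) = (l - i : ℕ) + i := by
    rw [Nat.cast_sub h1.le]
    ring
  rw [h3]
  linarith

/-- The inverse is near the identity. -/
theorem inv : NI v K ρ μ (hinv Θ) := by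
  refine ⟨hinv_hsd h.hsd, h.pos, fun l => ?_⟩
  induction l using Nat.strong_induction_on with
  | _ l ih =>
    intro hl x hx b hb
    rw [hinv, hsol_eq, idd, if_neg hl, zero_sub]
    refine (RVal.Ge.sum _ _ fun i hi => ?_).neg
    have h1 : i < l := mem_range.1 hi
    have h4 : v.Ge (b - i * ρ) (hsol Θ idd i x) := by
      by_cases hi0 : i = 0
      · rw [hi0, hsol_eq, range_zero, sum_empty, sub_zero, idd, if_pos rfl]
        exact hb.mono (by simp)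
      · exact (ih i h1 hi0 x hx b hb).mono (by linarith [h.pos])
    refine (h.nr (l - i) (by omega) _ ((hinv_hsd h.hsd).mem i x hx) _ h4).mono (le_of_eq ?_)
    rw [Nat.cast_sub h1.le]
    ring

/-- Overconvergence of the extension. -/
theorem hat_oi {f : PowerSeries Ω} (hf : PK K f) {σ : ℝ} (hσ : ρ < σ) {B : ℝ}
    (hB : ∀ l : ℕ, v.Ge (B - l * σ) (PowerSeries.coeff l f))
    (ho : ∀ C : ℝ, ∃ L : ℕ, ∀ l : ℕ, L ≤ l → v.Ge (C - l * σ) (PowerSeries.coeff l f)) (C : ℝ) :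
    ∃ L : ℕ, ∀ l : ℕ, L ≤ l → v.Ge (C - l * σ) (PowerSeries.coeff l (hat Θ f)) := by
  obtain ⟨J, hJ⟩ := ho C
  have hδ : 0 < σ - ρ := by linarith
  obtain ⟨M, hM⟩ := exists_nat_ge ((C - B) / (σ - ρ))
  rw [div_le_iff₀ hδ] at hM
  refine ⟨J + M, fun l hl => ?_⟩
  rw [coeff_hat]
  refine RVal.Ge.sum _ _ fun i hi => ?_
  have h1 : i.1 + i.2 = l := by simpa using hi
  have h2 : (i.1 : ℝ) * ρ ≤ i.1 * σ := mul_le_mul_of_nonneg_left hσ.le (Nat.cast_nonneg _)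
  by_cases h3 : J ≤ i.2
  · refine (h.ge i.1 (hf _) (hJ i.2 h3)).mono ?_
    rw [← h1]
    push_cast
    linarith
  · refine (h.ge i.1 (hf _) (hB i.2)).mono ?_
    have h4 : (M : ℝ) ≤ i.1 := by exact_mod_cast (show M ≤ i.1 by omega)
    rw [← h1]
    push_cast
    nlinarith

theorem mono {ρ' : ℝ} (hρ : ρ ≤ ρ') : NI v K ρ' μ Θ :=
  ⟨h.hsd, h.pos, fun l hl x hx b hb => (h.nr l hl x hx b hb).mono (by
    have := mul_le_mul_of_nonneg_left hρ (Nat.cast_nonneg (α := ℝ) l)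
    linarith)⟩

/-- Linear decay implies overconvergence. -/
theorem oi_of_lt {σ : ℝ} (hσ : ρ < σ) : Oi v K σ Θ := by
  intro f hf C
  have hδ : 0 < σ - ρ := by linarith
  obtain ⟨M, hM⟩ := exists_nat_ge ((C - v f) / (σ - ρ))
  rw [div_le_iff₀ hδ] at hM
  refine ⟨M, fun l hl => (h.ge l hf (v.ge_self f)).mono ?_⟩
  have h4 : (M : ℝ) ≤ l := by exact_mod_cast hl
  have h5 := mul_le_mul_of_nonneg_right h4 hδ.le
  nlinarith

omit h in
theorem exists_max (J : ℕ) (P : ℕ → ℕ → Prop) (hP : ∀ j < J, ∃ L : ℕ, ∀ i : ℕ, L ≤ i → P j i) :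
    ∃ L : ℕ, ∀ j < J, ∀ i : ℕ, L ≤ i → P j i := by
  induction J with
  | zero => exact ⟨0, fun j hj => absurd hj (Nat.not_lt_zero j)⟩
  | succ J ih =>
    obtain ⟨L, hL⟩ := ih fun j hj => hP j (by omega)
    obtain ⟨L', hL'⟩ := hP J (Nat.lt_succ_self J)
    refine ⟨max L L', fun j hj i hi => ?_⟩
    rcases Nat.lt_succ_iff_lt_or_eq.1 hj with h1 | rfl
    · exact hL j h1 i ((le_max_left _ _).trans hi)
    · exact hL' i ((le_max_right _ _).trans hi)

/-- Overconvergence of the extension, at the same radius. -/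
theorem hat_oi' (hΘ : Oi v K ρ Θ) {f : PowerSeries Ω} (hf : PK K f)
    (ho : ∀ C : ℝ, ∃ L : ℕ, ∀ l : ℕ, L ≤ l → v.Ge (C - l * ρ) (PowerSeries.coeff l f)) (C : ℝ) :
    ∃ L : ℕ, ∀ l : ℕ, L ≤ l → v.Ge (C - l * ρ) (PowerSeries.coeff l (hat Θ f)) := by
  obtain ⟨J, hJ⟩ := ho C
  obtain ⟨L, hL⟩ := exists_max J (fun j i => v.Ge (C - j * ρ - i * ρ)
    (Θ i (PowerSeries.coeff j f))) fun j _ => hΘ _ (hf j) (C - j * ρ)
  refine ⟨J + L, fun l hl => ?_⟩
  rw [coeff_hat]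
  refine RVal.Ge.sum _ _ fun i hi => ?_
  have h1 : i.1 + i.2 = l := by simpa using hi
  have e : C - l * ρ = C - i.2 * ρ - i.1 * ρ := by
    rw [← h1]
    push_cast
    ring
  rw [e]
  by_cases h3 : J ≤ i.2
  · exact h.ge i.1 (hf _) (hJ i.2 h3)
  · exact hL i.2 (by omega) i.1 (by omega)

/-- Overconvergence of the inverse. -/
theorem inv_oi (hΘ : Oi v K ρ Θ) : Oi v K ρ (hinv Θ) := by
  intro f hf C
  have key : ∀ m : ℕ, ∃ L : ℕ, ∀ l : ℕ, L ≤ l → v.Ge (v f + m * μ - l * ρ) (hinv Θ l f) := by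
    intro m
    induction m with
    | zero => exact ⟨0, fun l _ => (h.inv.ge l hf (v.ge_self f)).mono (by simp)⟩
    | succ m ih =>
      obtain ⟨L, hL⟩ := ih
      obtain ⟨L', hL'⟩ := exists_max L (fun j i => v.Ge (v f + (m + 1) * μ - j * ρ - i * ρ)
        (Θ i (hinv Θ j f))) fun j _ => hΘ _ ((hinv_hsd h.hsd).mem j f hf) _
      refine ⟨L + L' + 1, fun l hl => ?_⟩
      rw [hinv, hsol_eq, idd, if_neg (by omega), zero_sub]
      refine (RVal.Ge.sum _ _ fun i hi => ?_).neg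
      have h1 : i < l := mem_range.1 hi
      have h2 : ((l - i : ℕ) : ℝ) = l - i := by rw [Nat.cast_sub h1.le]
      by_cases h3 : L ≤ i
      · refine (h.nr (l - i) (by omega) _ ((hinv_hsd h.hsd).mem i f hf) _ (hL i h3)).mono
          (le_of_eq ?_)
        rw [h2]
        push_cast
        ring
      · refine (hL' i (by omega) (l - i) (by omega)).mono (le_of_eq ?_)
        rw [h2]
        push_cast
        ring
  obtain ⟨m, hm⟩ := exists_nat_ge ((C - v f) / μ)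
  rw [div_le_iff₀ h.pos] at hm
  obtain ⟨L, hL⟩ := key m
  exact ⟨L, fun l hl => (hL l hl).mono (by linarith)⟩

/-- The composition with an arc. -/
theorem arc (hΦ : Arc v K σ Φ) (hσ : ρ ≤ σ) : Arc v K σ (hcomp Θ Φ) := by
  refine ⟨hcomp_hsd h.hsd hΦ.toHSd, fun l hl => ?_⟩
  obtain ⟨n, hn, h1⟩ := hΦ.str l hl
  refine ⟨max n (l * σ - μ), max_lt hn (by linarith [h.pos]), fun f hf b hb => ?_⟩
  have h2 := h.hat_near (pk_ser hΦ.toHSd hf) hσ (arc_nrm hΦ f hf b hb) l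
  rw [← ser_hcomp, coeff_ser, coeff_ser] at h2
  have e : hcomp Θ Φ l f = (hcomp Θ Φ l f - Φ l f) + Φ l f := by ring
  rw [e]
  exact (h2.mono (by linarith [le_max_right n (l * σ - μ)])).add
    ((h1 f hf b hb).mono (by linarith [le_max_left n (l * σ - μ)]))

theorem near (hΦ : Arc v K σ Φ) (hσ : ρ ≤ σ) (hx : x ∈ K) {b : ℝ} (hb : v.Ge b x) (l : ℕ) :
    v.Ge (b + μ - l * σ) (hcomp Θ Φ l x - Φ l x) := by
  have h2 := h.hat_near (pk_ser hΦ.toHSd hx) hσ (arc_nrm hΦ x hx b hb) l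
  rwa [← ser_hcomp, coeff_ser, coeff_ser] at h2

theorem oi (hΘ : Oi v K ρ Θ) (hΦ : HSd K Φ) (ho : Oi v K ρ Φ) : Oi v K ρ (hcomp Θ Φ) := by
  intro f hf C
  obtain ⟨L, hL⟩ := h.hat_oi' hΘ (pk_ser hΦ hf)
    (fun C => by
      obtain ⟨L, hL⟩ := ho f hf C
      exact ⟨L, fun l hl => by rw [coeff_ser]; exact hL l hl⟩) C
  refine ⟨L, fun l hl => ?_⟩
  have h1 := hL l hl
  rwa [← ser_hcomp, coeff_ser] at h1

theorem oc (hΦ : HSd K Φ) (hσ : ρ < σ) (hx : x ∈ K) (ho : OC v σ Φ x) :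
    OC v σ (hcomp Θ Φ) x := by
  obtain ⟨ρ', hρ', B, hB⟩ := ho
  refine ⟨max ρ ρ', max_lt hσ hρ', B, fun l => ?_⟩
  have h1 := h.hat_ge (pk_ser hΦ hx) (le_max_left ρ ρ') (B := B) (fun l => by
    rw [coeff_ser]
    refine (hB l).mono ?_
    have := mul_le_mul_of_nonneg_left (le_max_right ρ ρ') (Nat.cast_nonneg (α := ℝ) l)
    linarith) l
  rwa [← ser_hcomp, coeff_ser] at h1

end NI

end Iso

end Pool.Agent.TWEX
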