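import Pool.Agent.Lib.TWEX.IsoD

/-!
# TANK W: isogeny of strict arcs, E: the correction

`a ∈ K` with linear decay. `Θ₁` near the identity with linear decay: `Θ₁ (s 0) = s 0 + o`, where
`Φ (s 0) = s 0 + (p-th powers) + o`, `Θ₁ (s j) = s j`. Then the coefficients of `Θ₁⁻¹ Φ (a)`, of index
`≥ 1`, are `p`-th powers.
-/

set_option autoImplicit false

open Finset

namespace Pool.Agent.TWEX

open Pool.Agent.H15JM (RVal)
open Pool.Agent.TW (mon pcomb PBasis)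
open Pool.Agent.TWM
open Pool.Agent.TWII (PG LP)
open Pool.Agent.TWLM (HSd Oi Arc)
open Pool.Agent.TWN1 (ser coeff_ser ahom ahom_apply)

universe u

namespace Iso

attribute [local instance] psCharP

variable {k Ω : Type u} [Field k] [Field Ω] [Algebra k Ω] {v : RVal Ω}
  {K : IntermediateField k Ω} {Φ Θ : ℕ → Ω → Ω} {p : ℕ} {σ ν : ℝ} {x : Ω}
  [hp : Fact p.Prime] [CharP Ω p]

/-- **The correction**, at the radius `ρ₁`, for a given `p`-basis. -/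
theorem theta_core [IsAlgClosed k] (h : HSd K Φ) {a : Ω} (ha : a ∈ K) {ρ₁ κ : ℝ}
    (hκ0 : 0 < κ) {H : ℕ → Ω} (hH : ∀ m, H m ∈ K)
    (hcr : ∀ m : ℕ, m ≠ 0 → v.Ge (ν + κ - m * ρ₁) (Φ m a - H m ^ p))
    (hov : ∀ r : ℝ, ∃ L : ℕ, ∀ j : ℕ, L ≤ j → v.Ge (r - j * ρ₁) (Φ j a - H j ^ p))
    (hng : ¬ PG p v K ν a) {n : ℕ} {s : Fin (n + 1) → Ω} (hs : PBasis p K s)
    (hoi : OI p v K s (κ / 4)) (hne : ∀ i, s i ≠ 0) {g : Ω} (hg : g ∈ K) (hs0 : s 0 = a - g ^ p) :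
    ∃ (H' : ℕ → Ω) (T : ℕ → Ω → Ω),
      NI v K ρ₁ (κ / 2) T ∧ Oi v K ρ₁ T ∧ (∀ m, H' m ∈ K) ∧
      (∀ i, i ≠ 0 → ∀ l, l ≠ 0 → T l (s i) = 0) ∧
      (∀ l, l ≠ 0 → T l (s 0) = Φ l (s 0) - H' l ^ p) ∧
      ∀ l : ℕ, l ≠ 0 → v.Ge (ν + κ - l * ρ₁) (T l (s 0)) := by
  classical
  have hvs : v (s 0) ≤ ν := by
    by_contra h1
    exact hng ⟨g, hg, fun _ => by rw [← hs0]; exact not_le.1 h1⟩
  set H' : ℕ → Ω := fun m => H m - if p ∣ m then Φ (m / p) g else 0 with hH'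
  have hH'm : ∀ m, H' m ∈ K := fun m => by
    rw [hH']
    dsimp only
    split_ifs
    · exact sub_mem (hH m) (h.mem _ g hg)
    · exact sub_mem (hH m) K.zero_mem
  have hdiff : ∀ m, Φ m (s 0) - H' m ^ p = Φ m a - H m ^ p := fun m => by
    rw [hs0, hsd_sub h m ha (pow_mem hg p), hsd_pow h m hg, hH']
    dsimp only
    split_ifs
    · rw [sub_pow_char]
      ring
    · rw [sub_zero, sub_zero]
  set S' : Fin (n + 1) → PowerSeries Ω := fun i => if i = 0 then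
    PowerSeries.mk fun m => if m = 0 then s 0 else Φ m a - H m ^ p else PowerSeries.C (s i) with hS'
  have hS0 : ∀ m, PowerSeries.coeff m (S' 0) = if m = 0 then s 0 else Φ m a - H m ^ p := fun m => by
    rw [hS']
    dsimp only
    rw [if_pos rfl, PowerSeries.coeff_mk]
  have hSi : ∀ i, i ≠ 0 → S' i = PowerSeries.C (s i) := fun i hi => by
    rw [hS']
    dsimp only
    rw [if_neg hi]
  have hD : Dat p v K s idd S' ρ₁ (κ / 4) (κ / 2) κ := by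
    refine ⟨hs, hoi, idd_hsd K, fun f _ C => ⟨1, fun l hl => ?_⟩, fun f _ b hb l => ?_, hne,
      fun i => ?_, fun i l => ?_, fun i l => ?_, fun i r => ?_, by linarith, ?_, by linarith⟩
    · rw [idd, if_neg (by omega)]
      exact RVal.Ge.zero
    · rw [coeff_ser, idd]
      split_ifs with hl0
      · rw [hl0]
        exact hb.mono (by simp)
      · exact RVal.Ge.zero
    · by_cases hi : i = 0
      · rw [hi, hS0, if_pos rfl]
      · rw [hSi i hi, PowerSeries.coeff_C, if_pos rfl]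
    · by_cases hi : i = 0
      · rw [hi, hS0]
        split_ifs
        · exact hs.mem 0
        · exact sub_mem (h.mem _ _ ha) (pow_mem (hH l) p)
      · rw [hSi i hi]
        exact pk_C (hs.mem i) l
    · by_cases hi : i = 0
      · rw [hi, map_sub, hS0, coeff_ser, idd]
        by_cases hl0 : l = 0
        · rw [if_pos hl0, if_pos hl0, sub_self]
          exact RVal.Ge.zero
        · rw [if_neg hl0, if_neg hl0, sub_zero]
          exact (hcr l hl0).mono (by linarith)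
      · rw [hSi i hi, ser_idd, sub_self, map_zero]
        exact RVal.Ge.zero
    · by_cases hi : i = 0
      · subst hi
        obtain ⟨L, hL⟩ := hov r
        refine ⟨max L 1, fun j hj => ?_⟩
        rw [hS0, if_neg (by have := (le_max_right L 1).trans hj; omega)]
        exact hL j ((le_max_left L 1).trans hj)
      · refine ⟨1, fun j hj => ?_⟩
        rw [hSi i hi, PowerSeries.coeff_C, if_neg (by omega)]
        exact RVal.Ge.zero
    · have h2 : (2 : ℝ) ≤ p := by exact_mod_cast hp.out.two_le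
      nlinarith
  obtain ⟨T, hT1, hT2, hT3, hT4⟩ := hD.exists_hsd fun l hl => ⟨l * ρ₁ - 1, by linarith,
    fun f _ b _ => by
      rw [idd, if_neg hl]
      exact RVal.Ge.zero⟩
  have hT0 : ∀ l, l ≠ 0 → T l (s 0) = Φ l (s 0) - H' l ^ p := fun l hl0 => by
    have h1 := congrArg (PowerSeries.coeff l) (hT3 0)
    rwa [coeff_ser, hS0, if_neg hl0, ← hdiff] at h1
  refine ⟨H', T, ⟨hT1.toHSd, by linarith, fun l hl x hx b hb => ?_⟩, hT2, hH'm,
    fun i hi l hl0 => ?_, hT0, fun l hl0 => ?_⟩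
  · have h1 := hT4 x hx b hb l
    rwa [idd, if_neg hl, sub_zero] at h1
  · have h1 := congrArg (PowerSeries.coeff l) (hT3 i)
    rwa [hSi i hi, coeff_ser, PowerSeries.coeff_C, if_neg hl0] at h1
  · rw [hT0 l hl0, hdiff]
    exact hcr l hl0

/-- **The correction**, at the radius `ρ₁`. -/
theorem exists_theta_core [IsAlgClosed k] (h : HSd K Φ) {a : Ω} (ha : a ∈ K) {ρ₁ κ : ℝ}
    (hκ0 : 0 < κ) {H : ℕ → Ω} (hH : ∀ m, H m ∈ K)
    (hcr : ∀ m : ℕ, m ≠ 0 → v.Ge (ν + κ - m * ρ₁) (Φ m a - H m ^ p))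
    (hov : ∀ r : ℝ, ∃ L : ℕ, ∀ j : ℕ, L ≤ j → v.Ge (r - j * ρ₁) (Φ j a - H j ^ p))
    (hng : ¬ PG p v K ν a) (hbase : ∃ (n : ℕ) (s : Fin (n + 1) → Ω), PBasis p K s ∧
      OI p v K s (κ / 4) ∧ (∀ i, s i ≠ 0) ∧ ∃ g ∈ K, s 0 = a - g ^ p) :
    ∃ (n : ℕ) (s : Fin (n + 1) → Ω) (g : Ω) (H' : ℕ → Ω) (T : ℕ → Ω → Ω),
      NI v K ρ₁ (κ / 2) T ∧ Oi v K ρ₁ T ∧ PBasis p K s ∧ OI p v K s (κ / 4) ∧ (∀ i, s i ≠ 0) ∧
      g ∈ K ∧ s 0 = a - g ^ p ∧ (∀ m, H' m ∈ K) ∧ (∀ i, i ≠ 0 → ∀ l, l ≠ 0 → T l (s i) = 0) ∧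
      (∀ l, l ≠ 0 → T l (s 0) = Φ l (s 0) - H' l ^ p) ∧
      ∀ l : ℕ, l ≠ 0 → v.Ge (ν + κ - l * ρ₁) (T l (s 0)) := by
  obtain ⟨n, s, hs, hoi, hne, g, hg, hs0⟩ := hbase
  obtain ⟨H', T, h1, h2, h3, h4, h5, h6⟩ :=
    theta_core h ha hκ0 hH hcr hov hng hs hoi hne hg hs0
  exact ⟨n, s, g, H', T, h1, h2, hs, hoi, hne, hg, hs0, h3, h4, h5, h6⟩

/-- The hypotheses at the radius `σ`. -/
theorem crit_oi (h : Arc v K σ Φ) (ho : Oi v K σ Φ) {a : Ω} (ha : a ∈ K) (hl : LP p v K ν a) :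
    ∃ κ : ℝ, 0 < κ ∧ ∃ H : ℕ → Ω, (∀ m, H m ∈ K) ∧
      (∀ m : ℕ, m ≠ 0 → v.Ge (ν + κ - m * σ) (Φ m a - H m ^ p)) ∧
      ∀ r : ℝ, ∃ L : ℕ, ∀ j : ℕ, L ≤ j → v.Ge (r - j * σ) (Φ j a - H j ^ p) := by
  obtain ⟨μ', hμ', H, hH, ⟨m₀, hm₀⟩, hcr⟩ := exists_crit h ho ha hl
  refine ⟨μ', hμ', H, hH, fun m hm => (hcr m hm).mono (by linarith), fun r => ?_⟩
  obtain ⟨L, hL⟩ := ho a ha r
  refine ⟨max L m₀, fun j hj => ?_⟩
  rw [hm₀ j ((le_max_right _ _).trans hj), zero_pow hp.out.ne_zero, sub_zero]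
  exact hL j ((le_max_left _ _).trans hj)

/-- The hypotheses at a radius `< σ`, for an element with linear decay. -/
theorem crit_oc (h : Arc v K σ Φ) (ho : Oi v K σ Φ) {a : Ω} (ha : a ∈ K) (hoc : OC v σ Φ a)
    (hl : LP p v K ν a) :
    ∃ ρ₁ : ℝ, ρ₁ < σ ∧ ∃ κ : ℝ, 0 < κ ∧ ∃ H : ℕ → Ω, (∀ m, H m ∈ K) ∧
      (∀ m : ℕ, m ≠ 0 → v.Ge (ν + κ - m * ρ₁) (Φ m a - H m ^ p)) ∧
      ∀ r : ℝ, ∃ L : ℕ, ∀ j : ℕ, L ≤ j → v.Ge (r - j * ρ₁) (Φ j a - H j ^ p) := by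
  obtain ⟨μ', hμ', H, hH, ⟨m₀, hm₀⟩, hcr⟩ := exists_crit h ho ha hl
  obtain ⟨ρ', hρ', B, hB⟩ := hoc
  have hδ : 0 < (σ - ρ') / 2 := by linarith
  obtain ⟨N', hN'⟩ := exists_nat_ge ((ν + μ' / 2 - B) / ((σ - ρ') / 2))
  rw [div_le_iff₀ hδ] at hN'
  set N : ℕ := max m₀ N' with hN
  have hNpos : (0 : ℝ) < (N : ℝ) + 1 := by positivity
  set ρ₁ : ℝ := max ((ρ' + σ) / 2) (σ - μ' / (2 * (N + 1))) with hρ₁
  have hr1 : ρ₁ < σ := by
    rw [hρ₁]
    refine max_lt (by linarith) ?_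
    have : 0 < μ' / (2 * ((N : ℝ) + 1)) := by positivity
    linarith
  have hr2 : ρ' < ρ₁ := lt_of_lt_of_le (by linarith) (le_max_left _ _)
  have hr3 : (ρ' + σ) / 2 ≤ ρ₁ := le_max_left _ _
  have hr4 : σ - μ' / (2 * (N + 1)) ≤ ρ₁ := le_max_right _ _
  refine ⟨ρ₁, hr1, μ' / 2, by linarith, H, hH, fun m hm => ?_, fun r => ?_⟩
  · by_cases hmN : m < N
    · refine (hcr m hm).mono ?_
      have h1 : (m : ℝ) ≤ N + 1 := by
        have : (m : ℝ) < N := by exact_mod_cast hmN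
        linarith
      have h2 : (m : ℝ) * (σ - ρ₁) ≤ (N + 1) * (μ' / (2 * (N + 1))) :=
        mul_le_mul h1 (by linarith) (by linarith) hNpos.le
      have h3 : ((N : ℝ) + 1) * (μ' / (2 * (N + 1))) = μ' / 2 := by
        field_simp
      rw [h3] at h2
      linarith
    · have h1 : m₀ ≤ m := (le_max_left m₀ N').trans (not_lt.1 hmN)
      have h2 : N' ≤ m := (le_max_right m₀ N').trans (not_lt.1 hmN)
      rw [hm₀ m h1, zero_pow hp.out.ne_zero, sub_zero]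
      refine (hB m).mono ?_
      have h3 : (N' : ℝ) ≤ m := by exact_mod_cast h2
      have h4 := mul_le_mul_of_nonneg_right h3 hδ.le
      have h5 := mul_le_mul_of_nonneg_left hr3 (Nat.cast_nonneg (α := ℝ) m)
      nlinarith
  · have hd : 0 < ρ₁ - ρ' := by linarith
    obtain ⟨M, hM⟩ := exists_nat_ge ((r - B) / (ρ₁ - ρ'))
    rw [div_le_iff₀ hd] at hM
    refine ⟨max M m₀, fun j hj => ?_⟩
    have h1 : M ≤ j := (le_max_left _ _).trans hj
    rw [hm₀ j ((le_max_right _ _).trans hj), zero_pow hp.out.ne_zero, sub_zero]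
    refine (hB j).mono ?_
    have h4 : (M : ℝ) ≤ j := by exact_mod_cast h1
    have h5 := mul_le_mul_of_nonneg_right h4 hd.le
    nlinarith

/-- The coefficients of `Θ₁⁻¹ Φ (a)` are `p`-th powers. -/
theorem theta_pow (h : HSd K Φ) {T : ℕ → Ω → Ω} (hT : HSd K T) {s g a : Ω} (hs : s ∈ K)
    (hg : g ∈ K) (has : s = a - g ^ p) {H : ℕ → Ω} (hH : ∀ m, H m ∈ K)
    (h1 : ∀ l, l ≠ 0 → T l s = Φ l s - H l ^ p) (l : ℕ) (hl : l ≠ 0) :
    ∃ y ∈ K, hcomp (hinv T) Φ l a = y ^ p := by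
  classical
  have hi := hinv_hsd hT
  have ha : a = s + g ^ p := by
    rw [has]
    ring
  set F : PowerSeries Ω := PowerSeries.mk fun m => if m = 0 then 0 else H m ^ p with hF
  have hFK : PK K F := fun m => by
    rw [hF, PowerSeries.coeff_mk]
    split_ifs
    exacts [K.zero_mem, pow_mem (hH m) p]
  have e1 : ser Φ s = ser T s + F := by
    ext m
    rw [coeff_ser, map_add, coeff_ser, hF, PowerSeries.coeff_mk]
    split_ifs with hm
    · rw [hm, h.c0 s hs, hT.c0 s hs, add_zero]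
    · rw [h1 m hm]
      ring
  have e2 : hat (hinv T) (ser Φ s) = PowerSeries.C s + hat (hinv T) F := by
    rw [e1, hat_add hi (pk_ser hT hs) hFK]
    congr 1
    rw [← hat_C hT hs, hinv_hat hT (pk_C hs)]
  have hsum : ∀ S : Finset (ℕ × ℕ), ∃ y ∈ K,
      ∑ i ∈ S, hinv T i.1 (PowerSeries.coeff i.2 F) = y ^ p := by
    intro S
    induction S using Finset.induction_on with
    | empty => exact ⟨0, K.zero_mem, by rw [sum_empty, zero_pow hp.out.ne_zero]⟩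
    | insert i S hiS ih =>
      obtain ⟨y, hy, h2⟩ := ih
      have h3 : ∃ z ∈ K, hinv T i.1 (PowerSeries.coeff i.2 F) = z ^ p := by
        rw [hF, PowerSeries.coeff_mk]
        split_ifs with hi0
        · exact ⟨0, K.zero_mem, by rw [hi.zero, zero_pow hp.out.ne_zero]⟩
        · rw [hsd_pow hi _ (hH _)]
          split_ifs
          · exact ⟨_, hi.mem _ _ (hH _), rfl⟩
          · exact ⟨0, K.zero_mem, by rw [zero_pow hp.out.ne_zero]⟩
      obtain ⟨z, hz, h4⟩ := h3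
      exact ⟨z + y, add_mem hz hy, by rw [sum_insert hiS, h4, h2, add_pow_char]⟩
  obtain ⟨y, hy, h2⟩ := hsum (antidiagonal l)
  have hc := hcomp_hsd hi h
  have e3 : hcomp (hinv T) Φ l s = y ^ p := by
    rw [← coeff_ser (hcomp (hinv T) Φ), ser_hcomp, e2, map_add, PowerSeries.coeff_C, if_neg hl,
      zero_add, coeff_hat, h2]
  rw [ha, hc.add l s hs _ (pow_mem hg p), e3, hsd_pow hc l hg]
  split_ifs
  · exact ⟨y + _, add_mem hy (hc.mem _ _ hg), by rw [add_pow_char]⟩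
  · exact ⟨y, hy, by rw [add_zero]⟩

end Iso

end Pool.Agent.TWEX
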