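import Pool.Agent.Lib.TWEX.IsoE
import Pool.Agent.Lib.TWMF.S4
import Pool.Agent.Lib.TWM.D0

/-!
# TANK W: isogeny of strict arcs, R: the theorem

`KN p v K`: `K` is closed, immediate over `K ^ p`, with a finite `p`-basis. `iso_up`: `K` has a strict
overconvergent arc `Φ` of radius `σ`, `α ^ p ∈ K`. Then the closure of `K(α)` has a strict
overconvergent arc `Ψ` of radius `σ / p`, `Ψ_l (x) ^ p = (Θ Φ)_l (x ^ p)`, `Θ` near the identity.
-/

set_option autoImplicit false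

open Finset

namespace Pool.Agent.TWEX

open Pool.Agent.H15JM (RVal)
open Pool.Agent.LU1 (adj)
open Pool.Agent.D2 (Ctx0)
open Pool.Agent.D2P (clI mem_clI mem_adj_self adj_le)
open Pool.Agent.TW (mon pcomb PBasis Qp mem_Qp Qp_le' Bas Spn finite_of_spn exists_mon_bas adj_eq)

open Pool.Agent.TWM
open Pool.Agent.TWII (PG LP)
open Pool.Agent.TWLM (HSd Oi Arc)
open Pool.Agent.TWN1 (ser coeff_ser ahom ahom_apply)

universe u

namespace Iso

variable {k Ω : Type u} [Field k] [Field Ω] [Algebra k Ω] {v : RVal Ω}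
  {K : IntermediateField k Ω} {Φ Θ : ℕ → Ω → Ω} {p : ℕ} {σ ν : ℝ} {α : Ω}

/-- Closed, immediate over the `p`-th powers, with a finite `p`-basis. -/
structure KN (p : ℕ) (v : RVal Ω) (K : IntermediateField k Ω) : Prop where
  cld : Cld v K
  imm : ∀ f ∈ K, f ≠ 0 → ∃ g ∈ K, Gt v (v f) (f - g ^ p)
  pb : ∃ (n : ℕ) (t : Fin n → Ω), PBasis p K t

variable [hp : Fact p.Prime] [CharP Ω p]

/-! ### The level -/

omit [CharP Ω p] in
theorem exists_level (hK : Cld v K) {a : Ω} (ha : ∀ g ∈ K, a ≠ g ^ p)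
    (hroot : ∀ x : Ω, ∃ y, y ^ p = x) [CharP Ω p] :
    ∃ ν : ℝ, LP p v K ν a ∧ ¬ PG p v K ν a := by
  obtain ⟨α, hα⟩ := hroot a
  have hαK : α ∉ K := fun h => ha α h hα.symm
  have hp0 : (0 : ℝ) < p := by exact_mod_cast hp.out.pos
  have hne : ∀ g ∈ K, α - g ≠ 0 := fun g hg h0 => hαK (by rw [sub_eq_zero.1 h0]; exact hg)
  have hsub : ∀ g : Ω, a - g ^ p = (α - g) ^ p := fun g => by rw [← hα, sub_pow_char]
  obtain ⟨b, hb⟩ : ∃ b : ℝ, ∀ g ∈ K, ¬ v.Ge b (α - g) := by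
    by_contra hcon
    push Not at hcon
    exact hαK (hK fun b => by
      obtain ⟨g, hg, h1⟩ := hcon b
      exact ⟨g, hg, h1⟩)
  set T : Set ℝ := {x | ∃ g ∈ K, x = v (α - g)} with hT
  have hTne : T.Nonempty := ⟨_, 0, zero_mem _, rfl⟩
  have hTb : BddAbove T := ⟨b, by
    rintro _ ⟨g, hg, rfl⟩
    by_contra h1
    exact hb g hg fun _ => (not_le.1 h1).le⟩
  refine ⟨p * sSup T, fun ε hε => ?_, ?_⟩
  · obtain ⟨_, ⟨g, hg, rfl⟩, h1⟩ := exists_lt_of_lt_csSup hTne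
      (show sSup T - ε / p < sSup T by linarith [div_pos hε hp0])
    refine ⟨g, hg, ?_⟩
    rw [hsub]
    intro _
    rw [v.map_pow (hne g hg)]
    have h2 := mul_le_mul_of_nonneg_left h1.le hp0.le
    have h3 : (p : ℝ) * (sSup T - ε / p) = p * sSup T - ε := by
      field_simp
    linarith
  · rintro ⟨g, hg, h1⟩
    rw [hsub] at h1
    have h2 := h1 (pow_ne_zero p (hne g hg))
    rw [v.map_pow (hne g hg)] at h2
    exact (lt_of_mul_lt_mul_left h2 hp0.le).not_ge (le_csSup hTb ⟨g, hg, rfl⟩)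

/-! ### The field `K(α)` -/

omit [CharP Ω p] in
theorem cadj_eq_adj (hc : CompleteV v) (hK : Cld v K) (hα : α ^ p ∈ K) :
    cadj v K α = adj K α :=
  le_antisymm (cadj_le (cld_adj hc hK (IsAlgebraic.of_pow hp.out.pos
    (isAlgebraic_algebraMap (⟨_, hα⟩ : K)))) (mem_adj_self K α).2 (mem_adj_self K α).1)
    (adj_le (le_cadj v K α) (self_mem_cadj v K α))

/-- The `p`-th powers of `K(α)` are in `K`. -/
theorem adj_pow_mem (hα : α ^ p ∈ K) {x : Ω} (hx : x ∈ adj K α) : x ^ p ∈ K := by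
  let S : IntermediateField k Ω :=
    { carrier := {y | y ^ p ∈ K}
      mul_mem' := fun {x y} hx hy => by
        show (x * y) ^ p ∈ K
        rw [mul_pow]
        exact mul_mem hx hy
      add_mem' := fun {x y} hx hy => by
        show (x + y) ^ p ∈ K
        rw [add_pow_char]
        exact add_mem hx hy
      algebraMap_mem' := fun c => pow_mem (K.algebraMap_mem c) p
      inv_mem' := fun x hx => by
        show (x⁻¹) ^ p ∈ K
        rw [inv_pow]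
        exact inv_mem hx }
  exact (adj_le (F := S) (fun y hy => pow_mem hy p) hα : adj K α ≤ S) hx

/-- The `p`-basis of `K(α)`. -/
theorem pb_up (hpb : ∃ (n : ℕ) (t : Fin n → Ω), PBasis p K t) :
    ∃ (n : ℕ) (t : Fin n → Ω), PBasis p (adj K α) t := by
  obtain ⟨n, t, ht⟩ := hpb
  have hle : K ≤ adj K α := (mem_adj_self K α).2
  have hzE : α ∈ adj K α := (mem_adj_self K α).1
  have key : ∀ u ∈ adj K α, Spn (Qp p (adj K α))
      (mon (p := p) (Fin.snoc t α : Fin (n + 1) → Ω)) u := by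
    intro u hu
    have key : ∀ F : Polynomial K, Spn (Qp p (adj K α))
        (mon (p := p) (Fin.snoc t α : Fin (n + 1) → Ω)) (Polynomial.aeval α F) := by
      intro F
      rw [Polynomial.aeval_eq_sum_range]
      refine Spn.sum _ fun i _ => ?_
      obtain ⟨c, hc, h1⟩ := ht.span (F.coeff i) (F.coeff i).2
      rw [Algebra.smul_def]
      change Spn _ _ ((F.coeff i : Ω) * α ^ i)
      rw [h1, pcomb, Finset.sum_mul]
      refine Spn.sum _ fun β _ => ?_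
      have h2 : c β ^ p * mon t β * α ^ i = (c β * α ^ (i / p)) ^ p *
          mon (Fin.snoc t α : Fin (n + 1) → Ω)
            (Fin.snoc β (⟨i % p, Nat.mod_lt _ hp.out.pos⟩ : Fin p) : Fin (n + 1) → Fin p) := by
        rw [TW.mon_snoc]
        simp only [Fin.snoc_castSucc, Fin.snoc_last]
        rw [mul_pow, ← pow_mul]
        conv_lhs => rw [← Nat.div_add_mod i p, pow_add]
        rw [mul_comm (i / p) p]
        ring
      rw [h2]
      exact Spn.smul (mem_Qp.2 ⟨_, mul_mem (hle (hc β)) (pow_mem hzE _), rfl⟩) (Spn.self _)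
    have hu' : u ∈ adj K α := hu
    rw [adj_eq, IntermediateField.mem_restrictScalars,
      IntermediateField.mem_adjoin_simple_iff] at hu'
    obtain ⟨A, B, rfl⟩ := hu'
    have h1 : Polynomial.aeval α A / Polynomial.aeval α B =
        ((Polynomial.aeval α B)⁻¹) ^ p * Polynomial.aeval α (A * B ^ (p - 1)) := by
      by_cases hB : Polynomial.aeval α B = 0
      · rw [hB, div_zero, inv_zero, zero_pow hp.out.ne_zero, zero_mul]
      · rw [map_mul, map_pow]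
        have h2 : Polynomial.aeval α B ^ p =
            Polynomial.aeval α B * Polynomial.aeval α B ^ (p - 1) := by
          rw [← pow_succ', Nat.sub_add_cancel hp.out.one_le]
        rw [inv_pow, h2]
        field_simp
    rw [h1]
    refine Spn.smul (mem_Qp.2 ⟨_, inv_mem ?_, rfl⟩) (key _)
    rw [adj_eq, IntermediateField.mem_restrictScalars]
    exact (IntermediateField.mem_adjoin_simple_iff K _).2 ⟨B, 1, by simp⟩
  obtain ⟨m, s, hs, hb⟩ := exists_mon_bas (p := p) (E := (adj K α).toSubfield) Qp_le'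
    (fun u hu => mem_Qp.2 ⟨u, hu, rfl⟩) (finite_of_spn Qp_le' key)
  exact ⟨m, s, PBasis.of_bas hs hb⟩

theorem KN.up (hc : CompleteV v) (hK : KN p v K) (hα : α ^ p ∈ K) : KN p v (cadj v K α) := by
  have hL := cadj_eq_adj hc hK.cld hα
  have hp0 : (0 : ℝ) < p := by exact_mod_cast hp.out.pos
  refine ⟨cld_cadj _ _ _, fun f hf hf0 => ?_, by rw [hL]; exact pb_up hK.pb⟩
  rw [hL] at hf
  have hroot : ∀ {x : Ω} {r : ℝ}, x ≠ 0 → Gt v (p * r) (x ^ p) → r < v x := fun {x r} hx h => by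
    have h1 := h (pow_ne_zero p hx)
    rw [v.map_pow hx] at h1
    exact lt_of_mul_lt_mul_left h1 hp0.le
  obtain ⟨g, hg, h1⟩ := hK.imm _ (adj_pow_mem hα hf) (pow_ne_zero p hf0)
  rw [← sub_pow_char, v.map_pow hf0] at h1
  have h2 : Gt v (v f) (f - g) := fun h0 => hroot h0 h1
  obtain ⟨hg0, hgv⟩ := Gt.val_eq hf0 h2
  obtain ⟨g', hg', h3⟩ := hK.imm g hg hg0
  refine ⟨g', le_cadj v K α hg', ?_⟩
  rw [hgv] at h3
  have e : f - g' ^ p = (f - g) + (g - g' ^ p) := by ring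
  rw [e]
  exact h2.add h3

/-! ### Roots -/

theorem arc_root [IsAlgClosed Ω] {L : IntermediateField k Ω} {X : ℕ → Ω → Ω} (hX : Arc v K σ X)
    (hXo : Oi v K σ X) (hLK : ∀ x ∈ L, x ^ p ∈ K)
    (hcoef : ∀ x ∈ L, ∀ l, ∃ z ∈ L, X l (x ^ p) = z ^ p) :
    ∃ Ψ : ℕ → Ω → Ω, Arc v L (σ / p) Ψ ∧ Oi v L (σ / p) Ψ ∧
      ∀ x ∈ L, ∀ l, Ψ l x ^ p = X l (x ^ p) := by
  have hp0 : (0 : ℝ) < p := by exact_mod_cast hp.out.pos
  choose r hr using fun x : Ω => IsAlgClosed.exists_pow_nat_eq x hp.out.pos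
  have hinj : ∀ {x y : Ω}, x ^ p = y ^ p → x = y := fun {x y} h => frobenius_inj Ω p h
  have hge : ∀ {x : Ω} {b : ℝ}, v.Ge (p * b) (x ^ p) → v.Ge b x := fun {x b} h h0 => by
    have h1 := h (pow_ne_zero p h0)
    rw [v.map_pow h0] at h1
    exact le_of_mul_le_mul_left h1 hp0
  refine ⟨fun l x => r (X l (x ^ p)), ⟨⟨fun l f hf => ?_, fun f hf => ?_, fun l f hf g hg => ?_,
    fun l f hf g hg => ?_, fun l hl c => ?_⟩, fun l hl => ?_⟩, fun f hf C => ?_, fun x _ l => hr _⟩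
  · obtain ⟨z, hz, h1⟩ := hcoef f hf l
    have h2 : r (X l (f ^ p)) = z := hinj (by rw [hr, h1])
    rw [h2]
    exact hz
  · exact hinj (by rw [hr, hX.c0 _ (hLK f hf)])
  · refine hinj ?_
    rw [hr, add_pow_char, add_pow_char, hr, hr, hX.add l _ (hLK f hf) _ (hLK g hg)]
  · refine hinj ?_
    rw [hr, mul_pow, hX.mul l _ (hLK f hf) _ (hLK g hg), sum_pow_char]
    exact sum_congr rfl fun i _ => by rw [mul_pow, hr, hr]
  · refine hinj ?_
    rw [hr, ← map_pow, hX.con l hl, zero_pow hp.out.ne_zero]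
  · obtain ⟨n, hn, h1⟩ := hX.str l hl
    refine ⟨n / p, ?_, fun f hf b hb => hge ?_⟩
    · rw [div_lt_iff₀ hp0]
      have e : (l : ℝ) * (σ / p) * p = l * σ := by field_simp
      rwa [e]
    · rw [hr]
      refine (h1 _ (hLK f hf) _ (ge_pow hb p)).mono (le_of_eq ?_)
      field_simp
  · obtain ⟨M, hM⟩ := hXo _ (hLK f hf) (p * C)
    refine ⟨M, fun l hl => hge ?_⟩
    rw [hr]
    refine (hM l hl).mono (le_of_eq ?_)
    field_simp

/-- The coefficients of `X (x ^ p)`, `x ∈ K(α)`, are `p`-th powers of `K(α)`. -/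
theorem coef_adj {X : ℕ → Ω → Ω} (hX : HSd K X) (hα : α ^ p ∈ K)
    (h1 : ∀ l, ∃ z ∈ adj K α, X l (α ^ p) = z ^ p) :
    ∀ x ∈ adj K α, ∀ l, ∃ z ∈ adj K α, X l (x ^ p) = z ^ p := by
  have hle : K ≤ adj K α := (mem_adj_self K α).2
  have hmul : ∀ x y : Ω, x ^ p ∈ K → y ^ p ∈ K → (∀ l, ∃ z ∈ adj K α, X l (x ^ p) = z ^ p) →
      (∀ l, ∃ z ∈ adj K α, X l (y ^ p) = z ^ p) → ∀ l, ∃ z ∈ adj K α, X l ((x * y) ^ p) = z ^ p := by
    intro x y hx hy hx' hy' l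
    choose z hz hz' using hx'
    choose w hw hw' using hy'
    refine ⟨∑ i ∈ antidiagonal l, z i.1 * w i.2, sum_mem fun i _ => mul_mem (hz _) (hw _), ?_⟩
    rw [mul_pow, hX.mul l _ hx _ hy, sum_pow_char]
    exact sum_congr rfl fun i _ => by rw [mul_pow, hz', hw']
  have hbase : ∀ y ∈ K, ∀ l, ∃ z ∈ adj K α, X l (y ^ p) = z ^ p := fun y hy l => by
    rw [hsd_pow hX l hy]
    split_ifs
    · exact ⟨_, hle (hX.mem _ _ hy), rfl⟩
    · exact ⟨0, zero_mem _, by rw [zero_pow hp.out.ne_zero]⟩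
  let S : IntermediateField k Ω :=
    { carrier := {y | y ^ p ∈ K ∧ ∀ l, ∃ z ∈ adj K α, X l (y ^ p) = z ^ p}
      mul_mem' := fun {x y} hx hy => by
        refine ⟨?_, hmul x y hx.1 hy.1 hx.2 hy.2⟩
        rw [mul_pow]
        exact mul_mem hx.1 hy.1
      add_mem' := fun {x y} hx hy => by
        refine ⟨?_, fun l => ?_⟩
        · rw [add_pow_char]
          exact add_mem hx.1 hy.1
        · obtain ⟨z, hz, h2⟩ := hx.2 l
          obtain ⟨w, hw, h3⟩ := hy.2 l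
          exact ⟨z + w, add_mem hz hw, by
            rw [add_pow_char, hX.add l _ hx.1 _ hy.1, h2, h3, add_pow_char]⟩
      algebraMap_mem' := fun c => ⟨pow_mem (K.algebraMap_mem c) p, hbase _ (K.algebraMap_mem c)⟩
      inv_mem' := fun x hx => by
        have h2 : (x ^ p)⁻¹ ∈ K := inv_mem hx.1
        by_cases hx0 : x = 0
        · rw [hx0, inv_zero]
          exact ⟨by rw [zero_pow hp.out.ne_zero]; exact K.zero_mem, hbase 0 K.zero_mem⟩
        have e : x⁻¹ = (x ^ p)⁻¹ * x ^ (p - 1) := by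
          have h3 : x ^ p = x * x ^ (p - 1) := by
            rw [← pow_succ', Nat.sub_add_cancel hp.out.one_le]
          rw [h3]
          field_simp
        have h4 : ∀ m : ℕ, (x ^ m) ^ p ∈ K ∧ ∀ l, ∃ z ∈ adj K α, X l ((x ^ m) ^ p) = z ^ p := by
          intro m
          induction m with
          | zero =>
            rw [pow_zero]
            exact ⟨by rw [one_pow]; exact K.one_mem, hbase 1 K.one_mem⟩
          | succ m ih =>
            rw [pow_succ]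
            refine ⟨?_, hmul _ _ ih.1 hx.1 ih.2 hx.2⟩
            rw [mul_pow]
            exact mul_mem ih.1 hx.1
        rw [e]
        refine ⟨?_, hmul _ _ (pow_mem h2 p) (h4 _).1 (hbase _ h2) (h4 _).2⟩
        rw [mul_pow]
        exact mul_mem (pow_mem h2 p) (h4 _).1 }
  exact fun x hx l => ((adj_le (F := S) (fun y hy => ⟨pow_mem hy p, hbase y hy⟩) ⟨hα, h1⟩ :
    adj K α ≤ S) hx).2 l

/-- The data of `iso_up`. -/
structure Up (p : ℕ) (v : RVal Ω) (K : IntermediateField k Ω) (σ : ℝ) (Φ : ℕ → Ω → Ω) (α : Ω)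
    (μ : ℝ) (Θ Ψ : ℕ → Ω → Ω) : Prop where
  ni : NI v K σ μ Θ
  oi : Oi v K σ Θ
  ni' : NI v K σ μ (hinv Θ)
  oi' : Oi v K σ (hinv Θ)
  kn : KN p v (cadj v K α)
  arc : Arc v (cadj v K α) (σ / p) Ψ
  aoi : Oi v (cadj v K α) (σ / p) Ψ
  pow : ∀ x ∈ cadj v K α, x ^ p ∈ K ∧ ∀ l, Ψ l x ^ p = hcomp (hinv Θ) Φ l (x ^ p)
  anch : ∀ x ∈ K, (∀ l, Ψ (p * l) x = hcomp (hinv Θ) Φ l x) ∧ ∀ n, ¬ p ∣ n → Ψ n x = 0
  near : ∀ x ∈ K, ∀ b : ℝ, v.Ge b x → ∀ l : ℕ, v.Ge (b + μ - l * σ) (hcomp (hinv Θ) Φ l x - Φ l x)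

/-- From the correction to the arc of `K(α)`. -/
theorem up_of [IsAlgClosed Ω] (hc : CompleteV v) (hK : KN p v K) (h : Arc v K σ Φ)
    (ho : Oi v K σ Φ) (hα : α ^ p ∈ K) {μ : ℝ} {T : ℕ → Ω → Ω} (hT : NI v K σ μ T)
    (hTo : Oi v K σ T) (hpow : ∀ l, l ≠ 0 → ∃ y ∈ K, hcomp (hinv T) Φ l (α ^ p) = y ^ p) :
    ∃ Ψ, Up p v K σ Φ α μ T Ψ := by
  have hL := cadj_eq_adj hc hK.cld hα
  have hi := hT.inv
  have hX : Arc v K σ (hcomp (hinv T) Φ) := hi.arc h le_rfl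
  have hXo : Oi v K σ (hcomp (hinv T) Φ) := hi.oi (hT.inv_oi hTo) h.toHSd ho
  have hco := coef_adj hX.toHSd hα (fun l => by
    by_cases hl : l = 0
    · exact ⟨α, (mem_adj_self K α).1, by rw [hl, hX.c0 _ hα]⟩
    · obtain ⟨y, hy, h1⟩ := hpow l hl
      exact ⟨y, (mem_adj_self K α).2 hy, h1⟩)
  obtain ⟨Ψ, h1, h2, h3⟩ := arc_root hX hXo (fun x hx => adj_pow_mem hα hx) hco
  have hinj : ∀ {x y : Ω}, x ^ p = y ^ p → x = y := fun {x y} h => frobenius_inj Ω p h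
  refine ⟨Ψ, ⟨hT, hTo, hi, hT.inv_oi hTo, hK.up hc hα, by rw [hL]; exact h1, by rw [hL]; exact h2,
    fun x hx => ?_, fun x hx => ⟨fun l => hinj ?_, fun n hn => ?_⟩,
    fun x hx b hb l => hi.near h le_rfl hx hb l⟩⟩
  · rw [hL] at hx
    exact ⟨adj_pow_mem hα hx, h3 x hx⟩
  · rw [h3 x ((mem_adj_self K α).2 hx), hsd_pow hX.toHSd _ hx, if_pos (dvd_mul_right p l),
      Nat.mul_div_cancel_left l hp.out.pos]
  · have h4 := h3 x ((mem_adj_self K α).2 hx) n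
    rw [hsd_pow hX.toHSd _ hx, if_neg hn] at h4
    exact (pow_eq_zero_iff hp.out.ne_zero).1 h4

/-- The record of the correction. -/
structure Cor (p : ℕ) (v : RVal Ω) (K : IntermediateField k Ω) (Φ : ℕ → Ω → Ω) (a : Ω)
    (μ ρ ν : ℝ) (T : ℕ → Ω → Ω) (n : ℕ) (s : Fin (n + 1) → Ω) (g : Ω) (H : ℕ → Ω) : Prop where
  pb : PBasis p K s
  or : OI p v K s (μ / 2)
  ne : ∀ i, s i ≠ 0
  gm : g ∈ K
  s0 : s 0 = a - g ^ p
  hm : ∀ m, H m ∈ K
  ti : ∀ i, i ≠ 0 → ∀ l, l ≠ 0 → T l (s i) = 0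
  t0 : ∀ l, l ≠ 0 → T l (s 0) = Φ l (s 0) - H l ^ p
  tn : ∀ l : ℕ, l ≠ 0 → v.Ge (ν + μ - l * ρ) (T l (s 0))

/-- **The strict overconvergent arc of `K(α)`**, with a `p`-basis as orthogonal as wanted. -/
theorem iso_up_small [CharP k p] [IsAlgClosed k] [IsAlgClosed Ω] (h0 : Ctx0 k v)
    (hc : CompleteV v) (hK : KN p v K) (h : Arc v K σ Φ) (ho : Oi v K σ Φ) (hα : α ^ p ∈ K)
    {e₀ : ℝ} (he₀ : 0 < e₀) :
    ∃ μ Θ Ψ, Up p v K σ Φ α μ Θ Ψ ∧ (α ∉ K → ∃ ν n s g H e, 0 < e ∧ e ≤ e₀ ∧ 8 * e ≤ μ ∧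
      OI p v K s e ∧ LP p v K ν (α ^ p) ∧ ¬ PG p v K ν (α ^ p) ∧
      Cor p v K Φ (α ^ p) μ σ ν Θ n s g H) := by
  have hinj : ∀ {x y : Ω}, x ^ p = y ^ p → x = y := fun {x y} h => frobenius_inj Ω p h
  by_cases hαK : α ∈ K
  · obtain ⟨Ψ, hΨ⟩ := up_of (T := idd) (μ := 1) hc hK h ho hα (idd_ni K v σ one_pos)
      (fun f _ C => ⟨1, fun l hl => by
        rw [idd, if_neg (by omega)]
        exact RVal.Ge.zero⟩) (fun l hl => by
        have hX := hcomp_hsd (hinv_hsd (idd_hsd K)) h.toHSd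
        rw [hsd_pow hX l hαK]
        split_ifs
        · exact ⟨_, hX.mem _ _ hαK, rfl⟩
        · exact ⟨0, K.zero_mem, by rw [zero_pow hp.out.ne_zero]⟩)
    exact ⟨1, idd, Ψ, hΨ, fun h1 => absurd hαK h1⟩
  · have hap : ∀ g ∈ K, α ^ p ≠ g ^ p := fun g hg h1 => hαK (by rw [hinj h1]; exact hg)
    obtain ⟨ν, hlp, hng⟩ := exists_level hK.cld hap
      (fun x => IsAlgClosed.exists_pow_nat_eq x hp.out.pos)
    obtain ⟨κ, hκ, H, hH, hcr, hov⟩ := crit_oi h ho hα hlp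
    obtain ⟨m, t₀, ht₀⟩ := hK.pb
    obtain ⟨e, he⟩ : ∃ e : ℝ, e = min e₀ (κ / 16) := ⟨_, rfl⟩
    have hepos : 0 < e := by
      rw [he]
      exact lt_min he₀ (by linarith)
    have he1 : e ≤ e₀ := by rw [he]; exact min_le_left _ _
    have he2 : e ≤ κ / 16 := by rw [he]; exact min_le_right _ _
    obtain ⟨n, s, hs, hso, hs0, g, hg, hsg, -⟩ := TWMF.Stb.exists_base h0 hc hK.cld hK.imm ht₀ hα
      hap hepos
    obtain ⟨H', T, h1, h2, h8, h9, h10, h11⟩ := theta_core h.toHSd hα hκ hH hcr hov hng hs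
      (hso.mono le_rfl (by linarith)) hs0 hg hsg
    obtain ⟨Ψ, hΨ⟩ := up_of hc hK h ho hα h1 h2
      (theta_pow h.toHSd h1.hsd (hs.mem 0) hg hsg h8 h10)
    exact ⟨κ / 2, T, Ψ, hΨ, fun _ => ⟨ν, n, s, g, H', e, hepos, he1, by linarith, hso, hlp, hng,
      hs, hso.mono le_rfl (by linarith), hs0, hg, hsg, h8, h9, h10,
      fun l hl => (h11 l hl).mono (by linarith)⟩⟩

/-- **The strict overconvergent arc of `K(α)`.** -/
theorem iso_up [CharP k p] [IsAlgClosed k] [IsAlgClosed Ω] (h0 : Ctx0 k v) (hc : CompleteV v)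
    (hK : KN p v K) (h : Arc v K σ Φ) (ho : Oi v K σ Φ) (hα : α ^ p ∈ K) :
    ∃ μ Θ Ψ, Up p v K σ Φ α μ Θ Ψ ∧ (α ∉ K → ∃ ν n s g H, LP p v K ν (α ^ p) ∧
      ¬ PG p v K ν (α ^ p) ∧ Cor p v K Φ (α ^ p) μ σ ν Θ n s g H) := by
  obtain ⟨μ, Θ, Ψ, h1, h2⟩ := iso_up_small h0 hc hK h ho hα one_pos
  refine ⟨μ, Θ, Ψ, h1, fun h3 => ?_⟩
  obtain ⟨ν, n, s, g, H, e, -, -, -, -, h4, h5, h6⟩ := h2 h3
  exact ⟨ν, n, s, g, H, h4, h5, h6⟩

end Iso

end Pool.Agent.TWEX
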