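import Pool.Agent.Lib.TWEX.Ctl

/-!
# TANK W, exit of the strict case, 7: nearly constant elements over a dense subfield

`exists_near₀`: the statement `exists_near`, the element near `y ^ (p ^ j)` in a dense subfield.
-/

set_option autoImplicit false

open Polynomial Finset

namespace Pool.Agent.TWEX

open Pool.Agent.H15JM (RVal)
open Pool.Agent.LU1 (VPos adj)
open Pool.Agent.D2 (Ctx0)
open Pool.Agent.D2P (mem_clI mem_adj_iff mem_adj_self)
open Pool.Agent.TWM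
open Pool.Agent.TWLM (HSd Oi)
open Pool.Agent.TWN1 (ser coeff_ser pow_ge EV Set0)

universe u'

variable {k Ω : Type u'} [Field k] [Field Ω] [Algebra k Ω] {v : RVal Ω}
  {N : IntermediateField k Ω} {D : ℕ → Ω → Ω} {y : Ω} {σ : ℝ}

/-- **Nearly constant elements.** -/
theorem exists_near₀ [IsAlgClosed Ω] {p : ℕ} [hp : Fact p.Prime] [CharP Ω p]
    (h : SFl p v N y σ D) {N₀ : IntermediateField k Ω} (hN₀ : N₀ ≤ N)
    (hlim : ∀ δ : ℝ, 0 < δ → ∃ j : ℕ, ∃ n ∈ N₀, v.Ge (p ^ j * (σ - δ)) (y ^ p ^ j - n))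
    {u : Ω} {r : ℝ} {Z : PowerSeries Ω} {κ : ℕ → ℝ}
    (hZ : Set0 v (cadj v N y) D u Z κ r σ)
    (hZp : ∀ n, ∃ f ∈ PI N, PowerSeries.coeff n Z = f.eval y) {l₀ : ℕ}
    (hfin : ∀ n : ℕ, l₀ < n → Gt v (r - n * σ) (PowerSeries.coeff n Z)) :
    ∃ (j : ℕ) (n : Ω) (lam : ℝ), n ∈ N₀ ∧ 0 < lam ∧
      (∀ θ : Ω, IsAlgebraic N θ → Ust p Z l₀ j n y u ≠ θ ∧
        v (Ust p Z l₀ j n y u - θ) < p ^ j * r) ∧
      ∀ (L : IntermediateField k Ω) (Ψ : ℕ → Ω → Ω), cadj v N y ≤ L → u ∈ L → Cld v L → HSd L Ψ →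
        (∀ l : ℕ, ∀ x ∈ L, ∀ b, v.Ge b x → v.Ge (b - l * σ) (Ψ l x)) →
        (∀ l : ℕ, ∀ x ∈ cadj v N y, Ψ l x = D l x) → (∀ l : ℕ, l ≠ 0 → Ψ l u = vis Z l₀ l) →
        (∀ l : ℕ, l ≠ 0 → v.Ge (p ^ j * r - l * (σ - lam)) (Ψ l (Ust p Z l₀ j n y u))) ∧
        ∀ f ∈ cadj v N (Ust p Z l₀ j n y u), Ncl v Ψ (σ - lam) f := by
  classical
  have hp0 : (0 : ℝ) < p := by exact_mod_cast hp.out.pos
  have hvisC : ∀ l, vis Z l₀ l ∈ cadj v N y := by
    intro l
    unfold vis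
    split_ifs
    exacts [zero_mem _, hZ.zmem l]
  -- the degree
  choose f hf hfZ using hZp
  obtain ⟨M, hM⟩ : ∃ M : ℕ, ∀ l ≤ l₀, (f l).natDegree ≤ M :=
    ⟨∑ l ∈ range (l₀ + 1), (f l).natDegree, fun l hl =>
      single_le_sum (f := fun l => (f l).natDegree) (fun _ _ => Nat.zero_le _)
        (mem_range.2 (by omega))⟩
  have hvisM : ∀ l m, M < m → D m (vis Z l₀ l) = 0 := by
    intro l m hm
    unfold vis
    split_ifs with hl
    · exact h.hsd.zero m
    · push Not at hl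
      rw [hfZ l, h.poly m _ (hf l), hasseDeriv_eq_zero_of_lt_natDegree _ _
        (lt_of_le_of_lt (hM l hl.2) hm), eval_zero]
  -- the margin
  obtain ⟨δ', hδ', hco⟩ : ∃ δ' : ℝ, 0 < δ' ∧ ∀ l m : ℕ, l ≠ 0 → l ≤ l₀ → m ≠ 0 →
      v.Ge (r - (l + m) * σ + δ')
        (D m (vis Z l₀ l) - (((l + m).choose m : ℕ) : Ω) * vis Z l₀ (l + m)) := by
    obtain ⟨δ', hδ', h1⟩ := exists_margin ((Icc 1 l₀) ×ˢ (Icc 1 (max l₀ M)))
      (fun x η => v.Ge (r - (x.1 + x.2) * σ + η)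
        (D x.2 (vis Z l₀ x.1) - (((x.1 + x.2).choose x.2 : ℕ) : Ω) * vis Z l₀ (x.1 + x.2)))
      (fun x hx => by
        obtain ⟨h2, h3⟩ := mem_product.1 hx
        obtain ⟨h4, h5⟩ := mem_Icc.1 h2
        obtain ⟨h6, h7⟩ := mem_Icc.1 h3
        have h8 := h.cocycle hZ (l := x.1) (m := x.2) (by omega)
        have h9 : vis Z l₀ x.1 = PowerSeries.coeff x.1 Z := by
          unfold vis
          rw [if_neg (by omega)]
        have hk1 := hZ.kpos x.1
        have hk2 := hZ.kpos (x.1 + x.2)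
        rw [h9]
        by_cases h10 : x.1 + x.2 ≤ l₀
        · have h11 : vis Z l₀ (x.1 + x.2) = PowerSeries.coeff (x.1 + x.2) Z := by
            unfold vis
            rw [if_neg (by omega)]
          rw [h11]
          exact ⟨_, lt_min (by linarith) (by linarith), h8⟩
        · have h11 : vis Z l₀ (x.1 + x.2) = 0 := by
            unfold vis
            rw [if_pos (by omega)]
          rw [h11, mul_zero, sub_zero]
          obtain ⟨η, hη, h12⟩ := TWLM.exists_ge_of_gt (hfin (x.1 + x.2) (by omega))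
          refine ⟨min (min (κ x.1 / 2) (κ (x.1 + x.2) / 2)) η,
            lt_min (lt_min (by linarith) (by linarith)) hη, ?_⟩
          have e : D x.2 (PowerSeries.coeff x.1 Z) = (D x.2 (PowerSeries.coeff x.1 Z) -
              (((x.1 + x.2).choose x.2 : ℕ) : Ω) * PowerSeries.coeff (x.1 + x.2) Z) +
              (((x.1 + x.2).choose x.2 : ℕ) : Ω) * PowerSeries.coeff (x.1 + x.2) Z := by ring
          rw [e]
          have h13 := (ge_natCast v ((x.1 + x.2).choose x.2)).mul h12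
          push_cast at h13
          refine (h8.mono ?_).add (h13.mono ?_)
          · linarith [min_le_left (min (κ x.1 / 2) (κ (x.1 + x.2) / 2)) η]
          · linarith [min_le_right (min (κ x.1 / 2) (κ (x.1 + x.2) / 2)) η])
      (fun x _ η η' hη h2 => h2.mono (by linarith))
    refine ⟨δ', hδ', fun l m hl hl' hm => ?_⟩
    by_cases hmM : m ≤ max l₀ M
    · exact h1 (l, m) (mem_product.2 ⟨mem_Icc.2 ⟨by omega, hl'⟩, mem_Icc.2 ⟨by omega, hmM⟩⟩)
    · have h2 : vis Z l₀ (l + m) = 0 := by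
        unfold vis
        rw [if_pos (by omega)]
      rw [h2, mul_zero, sub_zero, hvisM l m (by omega)]
      exact RVal.Ge.zero
  -- the distance
  set δt : ℝ := δ' / (2 * (l₀ + 1)) with hδt
  have hδt0 : 0 < δt := by positivity
  have hμ : 0 < δ' - l₀ * δt := by
    have h1 : (l₀ : ℝ) * δt ≤ δ' / 2 := by
      rw [hδt, mul_div_assoc', div_le_div_iff₀ (by positivity) (by norm_num)]
      nlinarith
    linarith
  obtain ⟨j, n, hn₀, hyn⟩ := hlim δt hδt0
  have hn : n ∈ N := hN₀ hn₀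
  set μ : ℝ := δ' - l₀ * δt with hμd
  set Deg : ℕ := l₀ + max l₀ M with hDeg
  set lam : ℝ := μ / (Deg + 1) with hlam
  have hlam0 : 0 < lam := by positivity
  have hNC : N ≤ cadj v N y := le_cadj v N y
  have hyC : y ∈ cadj v N y := self_mem_cadj v N y
  -- the distance of `U` and the algebraic elements
  have hfar : ∀ θ : Ω, IsAlgebraic N θ → Ust p Z l₀ j n y u ≠ θ ∧
      v (Ust p Z l₀ j n y u - θ) < p ^ j * r := by
    intro θ hθ
    obtain ⟨τ, hτ⟩ := IsAlgClosed.exists_pow_nat_eq n (pow_pos hp.out.pos j)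
    obtain ⟨θ₁, hθ₁⟩ := IsAlgClosed.exists_pow_nat_eq θ (pow_pos hp.out.pos j)
    have h1 : Ust p Z l₀ j n y u = (u + ∑ l ∈ Icc 1 l₀, vis Z l₀ l * (τ - y) ^ l) ^ p ^ j := by
      rw [Ust, add_pow_char_pow, sum_pow_char_pow]
      congr 1
      refine sum_congr rfl fun l _ => ?_
      rw [_root_.mul_pow, ← pow_mul, mul_comm l, pow_mul, sub_pow_char_pow, hτ]
    set θ₂ := θ₁ - ∑ l ∈ Icc 1 l₀, vis Z l₀ l * (τ - y) ^ l with hθ₂
    have halg : IsAlgebraic (cadj v N y) θ₂ := by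
      have h2 : ∀ x : Ω, x ∈ cadj v N y → x ∈ algc (cadj v N y) := fun x hx => le_algc _ hx
      have h3 : τ ∈ algc (cadj v N y) := by
        rw [mem_algc]
        exact IsAlgebraic.of_pow (pow_pos hp.out.pos j) (by
          rw [hτ]
          exact mem_algc.1 (h2 n (hNC hn)))
      have h4 : θ₁ ∈ algc (cadj v N y) := by
        rw [mem_algc]
        refine IsAlgebraic.of_pow (pow_pos hp.out.pos j) ?_
        rw [hθ₁]
        exact D2P.isAlgebraic_mono hNC hθ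
      exact mem_algc.1 (sub_mem h4 (sum_mem fun l _ => mul_mem (h2 _ (hvisC l))
        (pow_mem (sub_mem h3 (h2 _ hyC)) _)))
    obtain ⟨h2, h3⟩ := hZ.tl.far θ₂ halg
    have h4 : Ust p Z l₀ j n y u - θ = (u - θ₂) ^ p ^ j := by
      rw [h1, ← hθ₁, ← sub_pow_char_pow, hθ₂]
      congr 1
      ring
    have h5 : (u - θ₂) ≠ 0 := sub_ne_zero.2 h2
    refine ⟨fun h6 => ?_, ?_⟩
    · rw [h6, sub_self] at h4
      exact pow_ne_zero _ h5 h4.symm
    · rw [h4, v.map_pow h5]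
      push_cast
      exact mul_lt_mul_of_pos_left h3 (by positivity)
  refine ⟨j, n, lam, hn₀, hlam0, hfar, fun L Ψ hCL huL hLc hΨ hnorm hΨD hΨu => ?_⟩
  have hNL : N ≤ L := hNC.trans hCL
  have hN0 : ∀ x ∈ N, ∀ l : ℕ, l ≠ 0 → Ψ l x = 0 := fun x hx l hl => by
    rw [hΨD l x (hNC hx)]
    exact h.const hx hl
  obtain ⟨V, hV1, hV2, hV3⟩ := straight p hΨ hNL hN0 (hCL hyC) (by rw [hΨD 1 y hyC, h.coord_one])
    (fun l hl => by rw [hΨD l y hyC, h.coord_two hl]) huL (l₀ := l₀) (M := M)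
    (uu := vis Z l₀) hΨu (by unfold vis; rw [if_pos (Or.inl rfl)])
    (fun l hl => by unfold vis; rw [if_pos (Or.inr hl)]) (fun l => hCL (hvisC l))
    (fun l m hm => by rw [hΨD m _ (hvisC l), hvisM l m hm]) (r := r) (σ := σ) (δ' := δ') (δt := δt)
    hδt0.le (fun l m hl hl' hm => by
      rw [hΨD m _ (hvisC l)]
      exact hco l m hl hl' hm) j hn hyn
  have hUL : Ust p Z l₀ j n y u ∈ L := by
    refine add_mem (pow_mem huL _) (sum_mem fun l _ => mul_mem (pow_mem (hCL (hvisC l)) _)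
      (pow_mem (sub_mem (hNL hn) (pow_mem (hCL hyC) _)) _))
  have hUΨ : ∀ l : ℕ, l ≠ 0 → v.Ge (p ^ j * r - l * (σ - lam)) (Ψ l (Ust p Z l₀ j n y u)) := by
    intro l hl
    have h1 : Ψ l (Ust p Z l₀ j n y u) = PowerSeries.coeff l (V ^ p ^ j) := by
      rw [← hV3, coeff_ser]
      rfl
    rw [h1]
    by_cases hlj : p ^ j ∣ l
    · obtain ⟨i, rfl⟩ := hlj
      have hi : i ≠ 0 := by
        rintro rfl
        exact hl (mul_zero _)
      rw [TWLM.coeff_ps_pow_pow]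
      by_cases hid : Deg < i
      · rw [hV2 i hid, zero_pow (pow_pos hp.out.pos j).ne']
        exact RVal.Ge.zero
      · refine (ge_pow (hV1 i hi) (p ^ j)).mono ?_
        have h2 : (i : ℝ) * lam ≤ μ := by
          rw [hlam, mul_div_assoc', div_le_iff₀ (by positivity)]
          have h3 : (i : ℝ) ≤ Deg := by exact_mod_cast not_lt.1 hid
          nlinarith
        push_cast
        have h3 : (0 : ℝ) < (p : ℝ) ^ j := by positivity
        nlinarith
    · rw [TWLM.coeff_ps_pow_zero p _ _ _ hlj]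
      exact RVal.Ge.zero
  refine ⟨hUΨ, ?_⟩
  exact near_const hΨ hLc hnorm hNL hN0 hUL hUΨ fun θ hθ => ⟨(hfar θ hθ).1, (hfar θ hθ).2.le⟩

end Pool.Agent.TWEX
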