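import Pool.Agent.Lib.TWEX.IsoT

/-!
# TANK W: the `p`-basis of `K(β)`, `β ^ p = s 0`

`s` is a `p`-basis of `K`, `β ^ p = s 0`. Then `β, s 1, ..` is a `p`-basis of `K(β)`, with distortion
`≤ e + e / p` if the distortion of `s` is `≤ e`.
-/

set_option autoImplicit false

open Finset

namespace Pool.Agent.TWEX

open Pool.Agent.H15JM (RVal)
open Pool.Agent.LU1 (adj)
open Pool.Agent.D2P (mem_adj_self adj_le)
open Pool.Agent.TW (mon pcomb PBasis Spn Bas bas_pow adj_eq)
open Pool.Agent.TWM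

universe u

namespace Iso

variable {k Ω : Type u} [Field k] [Field Ω] [Algebra k Ω] {v : RVal Ω}
  {K : IntermediateField k Ω} {p n : ℕ} {s : Fin (n + 1) → Ω} {β : Ω} {e : ℝ}

omit [Algebra k Ω] [Field k] in
theorem mon_split (t : Fin (n + 1) → Ω) (i : Fin p) (α : Fin n → Fin p) :
    mon (p := p) t (Fin.cons i α : Fin (n + 1) → Fin p) =
      t 0 ^ (i : ℕ) * mon (fun j => t j.succ) α := by
  unfold TW.mon
  rw [Fin.prod_univ_succ]
  simp

omit [Algebra k Ω] [Field k] in
theorem pcomb_split (t : Fin (n + 1) → Ω) (c : (Fin (n + 1) → Fin p) → Ω) :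
    pcomb t c = ∑ i : Fin p, t 0 ^ (i : ℕ) *
      ∑ α : Fin n → Fin p, c (Fin.cons i α) ^ p * mon (fun j => t j.succ) α := by
  unfold TW.pcomb
  rw [← (Fin.consEquiv fun _ : Fin (n + 1) => Fin p).sum_comp, Fintype.sum_prod_type]
  refine sum_congr rfl fun i _ => ?_
  rw [mul_sum]
  refine sum_congr rfl fun α _ => ?_
  show c (Fin.cons i α) ^ p * mon (p := p) t (Fin.cons i α : Fin (n + 1) → Fin p) = _
  rw [mon_split]
  ring

variable [hp : Fact p.Prime] [CharP Ω p]

/-- Elements of `K(β)` in the basis `1, β, .., β ^ (p - 1)`. -/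
theorem adj_span (hβ : β ^ p ∈ K) {u : Ω} (hu : u ∈ adj K β) :
    ∃ d : Fin p → Ω, (∀ j, d j ∈ K) ∧ u = ∑ j, d j * β ^ (j : ℕ) := by
  obtain ⟨F, rfl⟩ := adj_poly hβ hu
  have key : Spn K.toSubfield (fun j : Fin p => β ^ (j : ℕ)) (Polynomial.aeval β F) := by
    rw [Polynomial.aeval_eq_sum_range]
    refine Spn.sum _ fun i _ => ?_
    rw [Algebra.smul_def]
    have e1 : (algebraMap K Ω (F.coeff i)) * β ^ i = ((F.coeff i : Ω) * (β ^ p) ^ (i / p)) *
        (fun j : Fin p => β ^ (j : ℕ)) ⟨i % p, Nat.mod_lt _ hp.out.pos⟩ := by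
      show (F.coeff i : Ω) * β ^ i = _
      dsimp only
      rw [mul_assoc, ← pow_mul, ← pow_add, Nat.div_add_mod]
    rw [e1]
    exact Spn.smul (mul_mem (F.coeff i).2 (pow_mem hβ _)) (Spn.self _)
  obtain ⟨d, hd, h1⟩ := key
  exact ⟨d, hd, h1⟩

theorem not_mem_root (hs : PBasis p K s) (hβ : β ^ p = s 0) : β ∉ K := by
  classical
  intro hβK
  have hp2 := hp.out.two_le
  have h1 := hs.ind (fun α => if α = Fin.cons (⟨0, hp.out.pos⟩ : Fin p) (fun _ => ⟨0, hp.out.pos⟩)
    then -β else if α = Fin.cons (⟨1, hp.out.one_lt⟩ : Fin p) (fun _ => ⟨0, hp.out.pos⟩) then 1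
      else 0) (fun α => by
        split_ifs
        exacts [neg_mem hβK, K.one_mem, K.zero_mem]) ?_
    (Fin.cons (⟨1, hp.out.one_lt⟩ : Fin p) (fun _ => ⟨0, hp.out.pos⟩))
  · have hne : (Fin.cons (⟨1, hp.out.one_lt⟩ : Fin p) (fun _ => ⟨0, hp.out.pos⟩) :
        Fin (n + 1) → Fin p) ≠ Fin.cons (⟨0, hp.out.pos⟩ : Fin p) (fun _ => ⟨0, hp.out.pos⟩) := by
      intro h2
      have h3 := congrArg (fun α : Fin (n + 1) → Fin p => ((α 0 : Fin p) : ℕ)) h2
      simp at h3
    rw [if_neg hne, if_pos rfl] at h1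
    exact one_ne_zero h1
  · unfold TW.pcomb
    rw [sum_eq_add_of_mem (Fin.cons (⟨0, hp.out.pos⟩ : Fin p) (fun _ => ⟨0, hp.out.pos⟩) :
      Fin (n + 1) → Fin p) (Fin.cons (⟨1, hp.out.one_lt⟩ : Fin p) (fun _ => ⟨0, hp.out.pos⟩))
      (mem_univ _) (mem_univ _)]
    · have hne : (Fin.cons (⟨1, hp.out.one_lt⟩ : Fin p) (fun _ => ⟨0, hp.out.pos⟩) :
          Fin (n + 1) → Fin p) ≠ Fin.cons (⟨0, hp.out.pos⟩ : Fin p) (fun _ => ⟨0, hp.out.pos⟩) := by
        intro h2
        have h3 := congrArg (fun α : Fin (n + 1) → Fin p => ((α 0 : Fin p) : ℕ)) h2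
        simp at h3
      dsimp only
      rw [if_pos rfl, if_neg hne, if_pos rfl, mon_split, mon_split]
      have e2 : mon (p := p) (fun j : Fin n => s j.succ) (fun _ => ⟨0, hp.out.pos⟩) = 1 := by
        simp [TW.mon]
      rw [e2, one_pow, ← hβ]
      have e3 : (-β) ^ p = -(β ^ p) := by
        rw [← zero_sub, sub_pow_char, zero_pow hp.out.ne_zero, zero_sub]
      rw [e3]
      simp
    · intro h2
      have h3 := congrArg (fun α : Fin (n + 1) → Fin p => ((α 0 : Fin p) : ℕ)) h2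
      simp at h3
    · intro α _ hα
      dsimp only
      rw [if_neg hα.1, if_neg hα.2, zero_pow hp.out.ne_zero, zero_mul]

/-- **The `p`-basis of `K(β)`.** -/
theorem pb_root (hs : PBasis p K s) (hβ : β ^ p = s 0) :
    PBasis p (adj K β) (Function.update s 0 β) := by
  classical
  have hβK : β ^ p ∈ K := by rw [hβ]; exact hs.mem 0
  have hle : K ≤ adj K β := (mem_adj_self K β).2
  have hβL : β ∈ adj K β := (mem_adj_self K β).1
  have hnot := not_mem_root hs hβ
  have ht0 : Function.update s 0 β 0 = β := Function.update_self _ _ _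
  have htj : ∀ j : Fin n, Function.update s 0 β j.succ = s j.succ := fun j =>
    Function.update_of_ne (Fin.succ_ne_zero j) _ _
  have hsplit : ∀ c : (Fin (n + 1) → Fin p) → Ω, pcomb (Function.update s 0 β) c =
      ∑ i : Fin p, β ^ (i : ℕ) *
        ∑ α : Fin n → Fin p, c (Fin.cons i α) ^ p * mon (fun j => s j.succ) α := by
    intro c
    rw [pcomb_split, ht0]
    simp only [htj]
  refine ⟨fun i => ?_, fun u hu => ?_, fun c hc h0 => ?_⟩
  · refine Fin.cases ?_ (fun j => ?_) i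
    · rw [ht0]
      exact hβL
    · rw [htj]
      exact hle (hs.mem _)
  · obtain ⟨d, hd, rfl⟩ := adj_span hβK hu
    choose a ha1 ha2 using fun j => hs.span (d j) (hd j)
    -- `d j = ∑ (a j (cons i α) β ^ i) ^ p s ^ α`
    refine ⟨fun γ => ∑ i : Fin p, a (γ 0) (Fin.cons i (Fin.tail γ)) * β ^ (i : ℕ), fun γ =>
      sum_mem fun i _ => mul_mem (hle (ha1 _ _)) (pow_mem hβL _), ?_⟩
    rw [hsplit]
    refine sum_congr rfl fun j _ => ?_
    rw [mul_comm, ha2 j, pcomb_split]
    congr 1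
    rw [← sum_comm.trans (sum_congr rfl fun i _ => (mul_sum _ _ _).symm)]
    refine sum_congr rfl fun α _ => ?_
    rw [Fin.cons_zero, Fin.tail_cons, sum_pow_char, sum_mul]
    refine sum_congr rfl fun i _ => ?_
    rw [mul_pow, ← pow_mul, mul_comm (i : ℕ) p, pow_mul, hβ]
    ring
  · rw [hsplit] at h0
    have hcK : ∀ γ, c γ ^ p ∈ K := fun γ => adj_pow_mem hβK (hc γ)
    have hind := (bas_pow (Q := K.toSubfield) (p := p) hnot hβK).ind
    have h1 := hind (fun i : Fin p => ∑ α : Fin n → Fin p,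
      c (Fin.cons i α) ^ p * mon (fun j => s j.succ) α) (fun i => sum_mem fun α _ =>
        mul_mem (hcK _) (prod_mem fun j _ => pow_mem (hs.mem _) _)) (by
          rw [← h0]
          exact sum_congr rfl fun i _ => mul_comm _ _)
    choose d hd1 hd2 using fun γ => adj_span hβK (hc γ)
    intro γ
    have h2 : pcomb s (fun δ => d (Fin.cons (γ 0) (Fin.tail δ)) (δ 0)) = 0 := by
      rw [pcomb_split, ← h1 (γ 0)]
      rw [← sum_comm.trans (sum_congr rfl fun i _ => (mul_sum _ _ _).symm)]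
      refine sum_congr rfl fun α _ => ?_
      rw [hd2 (Fin.cons (γ 0) α), sum_pow_char, sum_mul]
      refine sum_congr rfl fun i _ => ?_
      rw [Fin.cons_zero, Fin.tail_cons, mul_pow, ← pow_mul, mul_comm (i : ℕ) p, pow_mul, hβ]
      ring
    have h3 := hs.ind _ (fun δ => hd1 _ _) h2
    rw [hd2 γ]
    refine sum_eq_zero fun i _ => ?_
    have h4 := h3 (Fin.cons i (Fin.tail γ))
    rw [Fin.cons_zero, Fin.tail_cons, Fin.cons_self_tail] at h4
    rw [h4, zero_mul]

/-- **Its distortion.** -/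
theorem oi_root (hs : PBasis p K s) (hβ : β ^ p = s 0) (ho : OI p v K s e) :
    OI p v (adj K β) (Function.update s 0 β) (e + e / p) := by
  classical
  have hp0 : (0 : ℝ) < p := by exact_mod_cast hp.out.pos
  have hβK : β ^ p ∈ K := by rw [hβ]; exact hs.mem 0
  have ht0 : Function.update s 0 β 0 = β := Function.update_self _ _ _
  have htj : ∀ j : Fin n, Function.update s 0 β j.succ = s j.succ := fun j =>
    Function.update_of_ne (Fin.succ_ne_zero j) _ _
  have hsplit : ∀ c : (Fin (n + 1) → Fin p) → Ω, pcomb (Function.update s 0 β) c =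
      ∑ i : Fin p, β ^ (i : ℕ) *
        ∑ α : Fin n → Fin p, c (Fin.cons i α) ^ p * mon (fun j => s j.succ) α := by
    intro c
    rw [pcomb_split, ht0]
    simp only [htj]
  intro c hc b hb γ
  have hcK : ∀ γ, c γ ^ p ∈ K := fun γ => adj_pow_mem hβK (hc γ)
  obtain ⟨y, hy⟩ : ∃ y : Fin p → Ω, ∀ i, y i = ∑ α : Fin n → Fin p,
    c (Fin.cons i α) ^ p * mon (fun j => s j.succ) α := ⟨_, fun _ => rfl⟩
  have hyK : ∀ i, y i ∈ K := fun i => by
    rw [hy]
    exact sum_mem fun α _ => mul_mem (hcK _) (prod_mem fun j _ => pow_mem (hs.mem _) _)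
  have hx : pcomb (Function.update s 0 β) c = ∑ i : Fin p, β ^ (i : ℕ) * y i := by
    rw [hsplit]
    exact sum_congr rfl fun i _ => by rw [hy]
  rw [hx] at hb
  -- the first expansion
  set z0 : Fin n → Fin p := fun _ => ⟨0, hp.out.pos⟩ with hz0
  have hm0 : mon (p := p) (fun j : Fin n => s j.succ) z0 = 1 := by simp [TW.mon, hz0]
  have h1 : pcomb s (fun δ => if Fin.tail δ = z0 then y (δ 0) else 0) =
      (∑ i : Fin p, β ^ (i : ℕ) * y i) ^ p := by
    rw [pcomb_split, sum_pow_char]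
    refine sum_congr rfl fun i _ => ?_
    rw [sum_eq_single z0]
    · rw [Fin.cons_zero, Fin.tail_cons, if_pos rfl, hm0, mul_one, mul_pow, ← hβ, ← pow_mul,
        ← pow_mul, mul_comm p]
    · intro α _ hα
      rw [Fin.tail_cons, if_neg hα, zero_pow hp.out.ne_zero, zero_mul]
    · intro h2
      exact absurd (mem_univ _) h2
  have h2 := ho (fun δ => if Fin.tail δ = z0 then y (δ 0) else 0) (fun δ => by
    split_ifs
    exacts [hyK _, K.zero_mem]) (p * b) (by rw [h1]; exact ge_pow hb p)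
    (Fin.cons (γ 0) z0)
  rw [Fin.tail_cons, if_pos rfl, Fin.cons_zero, mon_split, hm0, mul_one, ← hβ, ← pow_mul,
    mul_comm p, pow_mul, ← mul_pow] at h2
  have h3 : v.Ge (b - e / p) (y (γ 0) * β ^ ((γ 0 : Fin p) : ℕ)) := by
    refine (ge_root hp0 h2).mono (le_of_eq ?_)
    field_simp
  have hmon : mon (p := p) (Function.update s 0 β) γ = β ^ ((γ 0 : Fin p) : ℕ) *
      mon (fun j => s j.succ) (Fin.tail γ) := by
    conv_lhs => rw [← Fin.cons_self_tail γ]
    rw [mon_split, ht0]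
    simp only [htj]
  by_cases hβ0 : β ^ ((γ 0 : Fin p) : ℕ) = 0
  · rw [hmon, hβ0, zero_mul, mul_zero]
    exact RVal.Ge.zero
  · have h4 : v.Ge (b - e / p - v (β ^ ((γ 0 : Fin p) : ℕ))) (y (γ 0)) := by
      intro hy0
      have h5 := h3 (mul_ne_zero hy0 hβ0)
      rw [v.map_mul hy0 hβ0] at h5
      linarith
    choose d hd1 hd2 using fun γ => adj_span hβK (hc γ)
    have h6 : pcomb s (fun δ => d (Fin.cons (γ 0) (Fin.tail δ)) (δ 0)) = y (γ 0) := by
      rw [pcomb_split, hy]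
      rw [← sum_comm.trans (sum_congr rfl fun i _ => (mul_sum _ _ _).symm)]
      refine sum_congr rfl fun α _ => ?_
      rw [hd2 (Fin.cons (γ 0) α), sum_pow_char, sum_mul]
      refine sum_congr rfl fun i _ => ?_
      rw [Fin.cons_zero, Fin.tail_cons, mul_pow, ← pow_mul, mul_comm (i : ℕ) p, pow_mul, hβ]
      ring
    have h7 := ho _ (fun δ => hd1 _ _) _ (by rw [h6]; exact h4)
    have h8 : c γ ^ p * mon (fun j => s j.succ) (Fin.tail γ) = ∑ i : Fin p,
        d γ i ^ p * mon (p := p) s (Fin.cons i (Fin.tail γ) : Fin (n + 1) → Fin p) := by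
      rw [hd2 γ, sum_pow_char, sum_mul]
      refine sum_congr rfl fun i _ => ?_
      rw [mon_split, mul_pow, ← pow_mul, mul_comm (i : ℕ) p, pow_mul, hβ]
      ring
    have h9 : v.Ge (b - e / p - v (β ^ ((γ 0 : Fin p) : ℕ)) - e)
        (c γ ^ p * mon (fun j => s j.succ) (Fin.tail γ)) := by
      rw [h8]
      refine RVal.Ge.sum _ _ fun i _ => ?_
      have h10 := h7 (Fin.cons i (Fin.tail γ))
      rw [Fin.cons_zero, Fin.tail_cons, Fin.cons_self_tail] at h10
      exact h10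
    have e1 : c γ ^ p * mon (p := p) (Function.update s 0 β) γ =
        (c γ ^ p * mon (fun j => s j.succ) (Fin.tail γ)) * β ^ ((γ 0 : Fin p) : ℕ) := by
      rw [hmon]
      ring
    rw [e1]
    exact (h9.mul (v.ge_self _)).mono (by linarith)

end Iso

end Pool.Agent.TWEX
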