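import Pool.Agent.Lib.TWEX.Pull
import Pool.Agent.Lib.TWEX.Emb

/-!
# TANK W, exit: pull back of a model

`exists_pull_model`: a finitely generated field `E₀` in `Ω'`, dense in the closure of `K₀`, of the same
transcendence degree, is isometric to a finitely generated field `E` in the henselization of `K₀`, near
the identity, with `hen E = hen K₀`.
-/

set_option autoImplicit false

open Polynomial

namespace Pool.Agent.TWEX

open Pool.Agent.H15JM (RVal)
open Pool.Agent.LU1 (VPos adj)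
open Pool.Agent.LUC (Cl clF)
open Pool.Agent.D2 (Ctx0)
open Pool.Agent.D2P (hen clI mem_clI mem_hen le_hen hen_hen hen_mono hen_le mem_adj_self adj_le)
open Pool.Agent.TW
open Pool.Agent.TWM (CompleteV le_clI clI_mono clI_clI clI_hen OI pbasis_clI cld_clI PI ge_pow
  ge_sub_comm Gt Dense)

universe u

variable {k Ω Ω' : Type u} [Field k] [Field Ω] [Algebra k Ω] [Field Ω'] [Algebra k Ω']
  {v : RVal Ω} {w : RVal Ω'} {ι : Ω →ₐ[k] Ω'}

/-- The image of a finitely generated field. -/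
theorem fieldRange_fg {E₀ : IntermediateField k Ω'} (hE : E₀.FG) (e : E₀ →ₐ[k] Ω') :
    e.fieldRange.FG := by
  classical
  obtain ⟨G, hG⟩ := id hE
  let g : Fin G.card → Ω' := fun i => (G.equivFin.symm i : Ω')
  have hg : Set.range g = (G : Set Ω') := by
    ext x
    constructor
    · rintro ⟨i, rfl⟩
      exact (G.equivFin.symm i).2
    · intro hx
      exact ⟨G.equivFin ⟨x, hx⟩, by simp [g]⟩
  have hkg : kr k g = E₀ := by rw [kr, hg, hG]
  have hgE : ∀ i, g i ∈ E₀ := fun i => by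
    rw [← hkg]
    exact mem_kr g i
  have h1 : e.fieldRange = kr k fun i => e ⟨g i, hgE i⟩ := by
    apply le_antisymm
    · rintro _ ⟨a, rfl⟩
      exact map_mem_of_gen e hkg hgE (fun i => mem_kr (fun i => e ⟨g i, hgE i⟩) i) a
    · rw [kr, IntermediateField.adjoin_le_iff]
      rintro _ ⟨i, rfl⟩
      exact ⟨_, rfl⟩
  rw [h1]
  exact IntermediateField.fg_adjoin_of_finite (Set.finite_range _)

/-- **Pull back of a model.** -/
theorem exists_pull_model [IsAlgClosed k] [IsAlgClosed Ω] {p : ℕ} [Fact p.Prime] [CharP k p]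
    [CharP Ω' p] (h0 : Ctx0 k v) (hcw : CompleteV w) (hd : Dense v w ι)
    {K₀ : IntermediateField k Ω} (hK : K₀.FG) (hBD : BD p v K₀) {E₀ : IntermediateField k Ω'}
    (hE₀ : E₀.FG) (hcl : clI w (K₀.map ι) = clI w E₀)
    (htr : Algebra.trdeg k E₀ = Algebra.trdeg k K₀) (η : ℝ) :
    ∃ (E : IntermediateField k Ω) (j : E ≃ₐ[k] E₀), E.FG ∧ E ≤ hen v K₀ ∧ hen v E = hen v K₀ ∧
      (∀ e : E, (e : Ω) ≠ 0 → w (j e : Ω') = v (e : Ω)) ∧
      ∀ e : E, w.Ge (v (e : Ω) + η) ((j e : Ω') - ι e) := by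
  classical
  have h0' := hd.ctx0 h0
  obtain ⟨e₀, he₀, hn₀, hh₀⟩ := exists_model (p := p) h0' hcw (Dense.fg_map hK) hE₀
    (hd.bd_iff.2 hBD) hcl (by rw [Dense.trdeg_map, htr]) (max η 1)
  -- the field
  have hle : ∀ x ∈ e₀.fieldRange, ∃ a : Ω, ι a = x := by
    rintro _ ⟨x, rfl⟩
    have h1 := he₀ x
    rw [hd.hen_map] at h1
    obtain ⟨a, -, ha⟩ := h1
    exact ⟨a, ha⟩
  obtain ⟨E, hE, hEι⟩ := Dense.of_fg (fieldRange_fg hE₀ e₀) hle
  have hle' : E ≤ hen v K₀ := by
    rw [← Dense.map_le_map_iff (ι := ι), hEι, ← hd.hen_map]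
    rintro _ ⟨x, rfl⟩
    exact he₀ x
  have hhen : hen v E = hen v K₀ := by
    rw [← hEι, hd.hen_map, hd.hen_map] at hh₀
    exact Dense.map_inj hh₀
  let e₁ : E₀ ≃ₐ[k] e₀.fieldRange := AlgEquiv.ofInjectiveField e₀
  let j : E ≃ₐ[k] E₀ := (Dense.mp E ι).trans
    ((IntermediateField.equivOfEq hEι).trans e₁.symm)
  have hj : ∀ x : E, e₀ (j x) = ι x := by
    intro x
    have h1 : e₁ (j x) = IntermediateField.equivOfEq hEι (Dense.mp E ι x) := by
      show e₁ (e₁.symm _) = _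
      rw [AlgEquiv.apply_symm_apply]
      rfl
    have h2 := congrArg Subtype.val h1
    exact h2
  have hval : ∀ e : E, (e : Ω) ≠ 0 → w (j e : Ω') = v (e : Ω) := by
    intro e he
    have h1 := hn₀ (j e)
    rw [hj] at h1
    have hje : (j e : Ω') ≠ 0 := by
      intro h2
      have h3 : j e = 0 := Subtype.ext h2
      have h4 := hj e
      rw [h3, map_zero] at h4
      exact hd.ne_zero he h4.symm
    have h2 := TWM.Gt.val_eq (v := w) (x := (j e : Ω')) (y := ι e) hje
      (TWM.Gt.of_ge (ge_sub_comm h1) (by linarith [le_max_right η 1]))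
    rw [hd.val _ he] at h2
    exact h2.2.symm
  refine ⟨E, j, hE, hle', hhen, hval, fun e => ?_⟩
  by_cases he : (e : Ω) = 0
  · have h1 : e = 0 := Subtype.ext he
    rw [h1, map_zero]
    show w.Ge _ (0 - ι 0)
    rw [map_zero, sub_zero]
    exact RVal.Ge.zero
  · have h1 := hn₀ (j e)
    rw [hj, hval e he] at h1
    exact (ge_sub_comm h1).mono (by linarith [le_max_left η 1])

end Pool.Agent.TWEX
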