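import Pool.Agent.Lib.TWN1.Trunc
import Pool.Agent.Lib.TWII.Soc
import Pool.Agent.Lib.TWMF.E1

/-!
# TANK W: extension of a pointwise strict arc to the closure of `C(w)`

* `exists_ext_ge`: a Hasse-Schmidt derivation of `C` extends to the closure of `C(w)`, `w ↦ w + Z`,
  if the values at the polynomials in `w` are bounded;
* `Tg`: the jets `Z` of `w` are approached by the jets of points of `C` near `w`;
* `ph_ptw`: then the extension is pointwise strict, if the given one is;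
* `exists_ptw`: the extension;
* `exists_ptw_oi`: it is overconvergent on each element, if `Z` is a polynomial.
-/

set_option autoImplicit false

open Polynomial Finset

namespace Pool.Agent.TWEX

open Pool.Agent.H15JM (RVal)
open Pool.Agent.TWM
open Pool.Agent.TWLM (HSd Oi Arc eq_zero_of_ge exists_ge eval_mem_cadj)
open Pool.Agent.TWN1 (Ph EV ser coeff_ser EV_zero EV_X EV_coeff_mem ph_add ph_sub ph_mul ph_C ph_oi
  coeff_EV_point pow_ge_zero TL.deep)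
open Pool.Agent.TWMF (Ptw)

universe u

variable {k Ω : Type u} [Field k] [Field Ω] [Algebra k Ω] {v : RVal Ω}
  {C : IntermediateField k Ω} {Φ : ℕ → Ω → Ω} {w : Ω} {Z : PowerSeries Ω} {ρ σ : ℝ}

theorem ph_zero_w (hΦ : HSd C Φ) (hZ : PowerSeries.coeff 0 Z = 0) {f : Polynomial Ω}
    (hf : f ∈ PI C) : Ph Φ w Z 0 f = f.eval w := by
  rw [Ph, EV, Polynomial.sum, map_sum, eval_eq_sum, Polynomial.sum]
  refine sum_congr rfl fun i _ => ?_
  have h1 : PowerSeries.coeff 0 ((PowerSeries.C w + Z) ^ i) = w ^ i := by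
    rw [PowerSeries.coeff_zero_eq_constantCoeff_apply, map_pow, map_add,
      PowerSeries.constantCoeff_C, ← PowerSeries.coeff_zero_eq_constantCoeff_apply, hZ, add_zero]
  rw [PowerSeries.coeff_mul, Finset.Nat.antidiagonal_zero, sum_singleton, coeff_ser,
    hΦ.c0 _ (hf i), h1]

theorem ph_mem_w (hΦ : HSd C Φ) (hZ : ∀ n, PowerSeries.coeff n Z ∈ cadj v C w) {f : Polynomial Ω}
    (hf : f ∈ PI C) (n : ℕ) : Ph Φ w Z n f ∈ cadj v C w := by
  refine EV_coeff_mem hΦ (le_cadj v C w) hf (fun m => ?_) n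
  rw [map_add, PowerSeries.coeff_C]
  refine add_mem ?_ (hZ m)
  split_ifs
  exacts [self_mem_cadj v C w, zero_mem _]

/-- **Extension with bounds** to the closure of `C(w)`. -/
theorem exists_ext_ge [IsAlgClosed Ω] (hΩ : CompleteV v) (hΦ : HSd C Φ) (hw : TL v C w ρ)
    (hZm : ∀ n, PowerSeries.coeff n Z ∈ cadj v C w) (hZ0 : PowerSeries.coeff 0 Z = 0)
    (hge : ∀ (n : ℕ), ∀ f ∈ PI C, ∀ b : ℝ, v.Ge b (f.eval w) → v.Ge (b - n * σ) (Ph Φ w Z n f)) :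
    ∃ Ψ : ℕ → Ω → Ω, HSd (cadj v C w) Ψ ∧
      (∀ n : ℕ, ∀ x ∈ cadj v C w, ∀ b : ℝ, v.Ge b x → v.Ge (b - n * σ) (Ψ n x)) ∧
      (∀ n : ℕ, ∀ f ∈ PI C, Ψ n (f.eval w) = Ph Φ w Z n f) ∧
      (∀ n : ℕ, ∀ x ∈ C, Ψ n x = Φ n x) ∧
      (∀ n : ℕ, Ψ n w = if n = 0 then w else PowerSeries.coeff n Z) ∧
      (∀ n : ℕ, ∀ x ∈ cadj v C w, ∀ b : ℝ, ∀ f ∈ PI C, v.Ge b (x - f.eval w) →
        v.Ge (b - n * σ) (Ψ n x - Ph Φ w Z n f)) := by
  classical
  -- existence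
  have h1 : ∀ (j : ℕ) (x : Ω), x ∈ cadj v C w → ∃ y : Ω, ∀ (b : ℝ), ∀ f ∈ PI C,
      v.Ge b (x - f.eval w) → v.Ge (b - j * σ) (y - Ph Φ w Z j f) := by
    intro j x hx
    choose f hf hxf using fun n : ℕ => hw.dense hx (n : ℝ)
    have hdif : ∀ (g g' : Polynomial Ω) (b : ℝ), g ∈ PI C → g' ∈ PI C → v.Ge b (x - g.eval w) →
        v.Ge b (x - g'.eval w) →
        v.Ge (b - j * σ) (Ph Φ w Z j g - Ph Φ w Z j g') := by
      intro g g' b hg hg' h2 h3
      rw [← ph_sub hΦ hg hg']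
      refine hge j _ (sub_mem hg hg') _ ?_
      rw [eval_sub]
      have e : g.eval w - g'.eval w = (x - g'.eval w) - (x - g.eval w) := by ring
      rw [e]
      exact h3.sub h2
    obtain ⟨y, hy⟩ := hΩ (fun n => Ph Φ w Z j (f n)) fun c => by
      obtain ⟨N, hN⟩ := exists_nat_ge (c + j * σ)
      refine ⟨N, fun m n hm hn => ?_⟩
      refine (hdif (f m) (f n) N (hf m) (hf n) ((hxf m).mono (by exact_mod_cast hm))
        ((hxf n).mono (by exact_mod_cast hn))).mono (by linarith)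
    refine ⟨y, fun b g hg hb => ?_⟩
    obtain ⟨N, hN⟩ := hy (b - j * σ)
    obtain ⟨N', hN'⟩ := exists_nat_ge b
    have e : y - Ph Φ w Z j g = (y - Ph Φ w Z j (f (max N N'))) +
        (Ph Φ w Z j (f (max N N')) - Ph Φ w Z j g) := by ring
    rw [e]
    refine (hN _ (le_max_left _ _)).add (hdif _ _ b (hf _) hg ((hxf _).mono (hN'.trans ?_)) hb)
    exact_mod_cast le_max_right N N'
  choose! D hD using h1
  -- uniqueness
  have huniq : ∀ (j : ℕ) (x : Ω), x ∈ cadj v C w → ∀ y : Ω,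
      (∀ b : ℝ, ∃ f ∈ PI C, v.Ge b (x - f.eval w) ∧ v.Ge b (y - Ph Φ w Z j f)) →
      D j x = y := by
    intro j x hx y h2
    refine sub_eq_zero.1 (eq_zero_of_ge (v := v) fun b => ?_)
    obtain ⟨f, hf, h3, h4⟩ := h2 (max b (b + j * σ))
    have h5 := hD j x hx _ f hf h3
    have e : D j x - y = (D j x - Ph Φ w Z j f) - (y - Ph Φ w Z j f) := by
      ring
    rw [e]
    refine (h5.mono ?_).sub (h4.mono (le_max_left _ _))
    linarith [le_max_right b (b + j * σ)]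
  have hpoly : ∀ j : ℕ, ∀ f ∈ PI C, D j (f.eval w) = Ph Φ w Z j f := by
    intro j f hf
    refine huniq j _ (eval_mem_cadj hf) _ fun b => ⟨f, hf, ?_, ?_⟩
    · rw [sub_self]
      exact RVal.Ge.zero
    · rw [sub_self]
      exact RVal.Ge.zero
  -- simultaneous approximation
  have happ : ∀ j : ℕ, ∀ x ∈ cadj v C w, ∀ b : ℝ, ∃ f ∈ PI C, v.Ge b (x - f.eval w) ∧
      v.Ge b (D j x - Ph Φ w Z j f) := by
    intro j x hx b
    obtain ⟨f, hf, h2⟩ := hw.dense hx (max b (b + j * σ))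
    refine ⟨f, hf, h2.mono (le_max_left _ _), (hD j x hx _ f hf h2).mono ?_⟩
    linarith [le_max_right b (b + j * σ)]
  have hmem : ∀ j : ℕ, ∀ x ∈ cadj v C w, D j x ∈ cadj v C w := by
    intro j x hx
    refine cld_cadj v C w fun b => ?_
    obtain ⟨f, hf, h2, h3⟩ := happ j x hx b
    exact ⟨_, ph_mem_w hΦ hZm hf j, h3⟩
  have hadd : ∀ j : ℕ, ∀ x ∈ cadj v C w, ∀ y ∈ cadj v C w, D j (x + y) = D j x + D j y := by
    intro j x hx y hy
    refine huniq j _ (add_mem hx hy) _ fun b => ?_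
    obtain ⟨f, hf, h2, h3⟩ := happ j x hx b
    obtain ⟨g, hg, h4, h5⟩ := happ j y hy b
    refine ⟨f + g, add_mem hf hg, ?_, ?_⟩
    · rw [eval_add, add_sub_add_comm]
      exact h2.add h4
    · rw [ph_add hΦ hf hg, add_sub_add_comm]
      exact h3.add h5
  have hnorm : ∀ j : ℕ, ∀ x ∈ cadj v C w, ∀ b : ℝ, v.Ge b x → v.Ge (b - j * σ) (D j x) := by
    intro j x hx b hb
    have h2 := hD j x hx b 0 (zero_mem _) (by rwa [eval_zero, sub_zero])
    have h3 : Ph Φ w Z j 0 = 0 := by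
      rw [Ph, EV_zero, map_zero]
    rwa [h3, sub_zero] at h2
  -- products
  have hmul : ∀ j : ℕ, ∀ x ∈ cadj v C w, ∀ y ∈ cadj v C w,
      D j (x * y) = ∑ i ∈ Finset.HasAntidiagonal.antidiagonal j, D i.1 x * D i.2 y := by
    intro j x hx y hy
    -- bounds
    obtain ⟨R, hR0, hR⟩ : ∃ R : ℝ, 0 ≤ R ∧ (∀ i : ℕ, i ≤ j → |i * σ| ≤ R ∧ v.Ge (-R) (D i x) ∧
        v.Ge (-R) (D i y)) ∧ v.Ge (-R) x ∧ v.Ge (-R) y := by
      obtain ⟨c, hc⟩ := exists_ge v x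
      obtain ⟨c', hc'⟩ := exists_ge v y
      refine ⟨|c| + |c'| + j * |σ|, by positivity, fun i hi => ⟨?_, ?_, ?_⟩, hc.mono ?_,
        hc'.mono ?_⟩
      · rw [abs_mul, Nat.abs_cast]
        have h2 : (i : ℝ) ≤ j := by exact_mod_cast hi
        have h3 : (i : ℝ) * |σ| ≤ j * |σ| := mul_le_mul_of_nonneg_right h2 (abs_nonneg σ)
        linarith [abs_nonneg c, abs_nonneg c']
      · refine (hnorm i x hx c hc).mono ?_
        have h2 : (i : ℝ) ≤ j := by exact_mod_cast hi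
        have h3 : (i : ℝ) * |σ| ≤ j * |σ| := mul_le_mul_of_nonneg_right h2 (abs_nonneg σ)
        have h4 : (i : ℝ) * σ ≤ i * |σ| := mul_le_mul_of_nonneg_left (le_abs_self σ) (by positivity)
        linarith [neg_abs_le c, abs_nonneg c']
      · refine (hnorm i y hy c' hc').mono ?_
        have h2 : (i : ℝ) ≤ j := by exact_mod_cast hi
        have h3 : (i : ℝ) * |σ| ≤ j * |σ| := mul_le_mul_of_nonneg_right h2 (abs_nonneg σ)
        have h4 : (i : ℝ) * σ ≤ i * |σ| := mul_le_mul_of_nonneg_left (le_abs_self σ) (by positivity)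
        linarith [neg_abs_le c', abs_nonneg c]
      · have h3 : (0 : ℝ) ≤ j * |σ| := by positivity
        linarith [neg_abs_le c, abs_nonneg c']
      · have h3 : (0 : ℝ) ≤ j * |σ| := by positivity
        linarith [neg_abs_le c', abs_nonneg c]
    obtain ⟨hR1, hRx, hRy⟩ := hR
    refine huniq j _ (mul_mem hx hy) _ fun b => ?_
    set B : ℝ := |b| + 2 * R with hB
    have hB0 : 0 ≤ B := by positivity
    obtain ⟨f, hf, h2⟩ := hw.dense hx (B + R)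
    obtain ⟨g, hg, h4⟩ := hw.dense hy (B + R)
    have h3 : ∀ i : ℕ, i ≤ j → v.Ge B (D i x - Ph Φ w Z i f) := fun i hi =>
      (hD i x hx _ f hf h2).mono (by linarith [(le_abs_self ((i : ℝ) * σ)).trans (hR1 i hi).1])
    have h5 : ∀ i : ℕ, i ≤ j → v.Ge B (D i y - Ph Φ w Z i g) := fun i hi =>
      (hD i y hy _ g hg h4).mono (by linarith [(le_abs_self ((i : ℝ) * σ)).trans (hR1 i hi).1])
    have hmulb : ∀ a a' c c' : Ω, v.Ge (-R) a → v.Ge (-R) c → v.Ge B (a - a') → v.Ge B (c - c') →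
        v.Ge b (a * c - a' * c') := by
      intro a a' c c' h6 h7 h8 h9
      have e : a * c - a' * c' = (a - a') * c + a * (c - c') - (a - a') * (c - c') := by ring
      rw [e]
      refine ((((h8.mul h7)).mono ?_).add ((h6.mul h9).mono ?_)).sub ((h8.mul h9).mono ?_)
      · rw [hB]; linarith [le_abs_self b]
      · rw [hB]; linarith [le_abs_self b]
      · linarith [le_abs_self b]
    refine ⟨f * g, mul_mem hf hg, ?_, ?_⟩
    · rw [eval_mul]
      exact hmulb _ _ _ _ hRx hRy (h2.mono (by linarith)) (h4.mono (by linarith))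
    · rw [ph_mul hΦ hf hg, ← sum_sub_distrib]
      refine RVal.Ge.sum _ _ fun i hi => ?_
      have hi' : i.1 + i.2 = j := by simpa using hi
      exact hmulb _ _ _ _ (hR1 i.1 (by omega)).2.1 (hR1 i.2 (by omega)).2.2 (h3 i.1 (by omega))
        (h5 i.2 (by omega))
  have hC : ∀ n : ℕ, ∀ x ∈ C, D n x = Φ n x := by
    intro n x hx
    have h2 := hpoly n (Polynomial.C x) (C_mem_PI hx)
    rwa [eval_C, ph_C hΦ hx] at h2
  refine ⟨D, ?_, hnorm, hpoly, hC, ?_, hD⟩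
  · refine
      { mem := hmem
        c0 := ?_
        add := hadd
        mul := hmul
        con := ?_ }
    · intro x hx
      refine huniq 0 x hx x fun b => ?_
      obtain ⟨f, hf, h2⟩ := hw.dense hx b
      exact ⟨f, hf, h2, by rwa [ph_zero_w hΦ hZ0 hf]⟩
    · intro l hl c
      rw [hC l _ (C.algebraMap_mem c)]
      exact hΦ.con l hl c
  · intro n
    have h2 := hpoly n X (X_mem_PI (A := C))
    rw [eval_X] at h2
    rw [h2, Ph, EV_X hΦ, map_add, PowerSeries.coeff_C]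
    split_ifs with hn
    · rw [hn, hZ0, add_zero]
    · rw [zero_add]

/-- The jets `Z` of `w` are approached by the jets of points of `C` near `w`. -/
def Tg (v : RVal Ω) (C : IntermediateField k Ω) (Φ : ℕ → Ω → Ω) (w : Ω) (Z : PowerSeries Ω)
    (ρ σ : ℝ) : Prop :=
  ∀ (N : ℕ) (δ : ℝ), 0 < δ → ∃ c ∈ C, ∃ b : ℝ, ρ - δ ≤ b ∧ v.Ge b (w - c) ∧
    ∀ n : ℕ, n ≠ 0 → n ≤ N → v.Ge (b - n * σ) (PowerSeries.coeff n Z - Φ n c)

/-- **The extension is pointwise strict**: at the polynomials in `w`. -/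
theorem ph_ptw [IsAlgClosed Ω] (hΦ : HSd C Φ) (hst : Ptw v C σ Φ) (hw : TL v C w ρ)
    (hZ0 : PowerSeries.coeff 0 Z = 0) (hZ : Tg v C Φ w Z ρ σ) {n : ℕ} (hn : n ≠ 0)
    {f : Polynomial Ω} (hf : f ∈ PI C) {b : ℝ} (hb : v.Ge b (f.eval w)) :
    Gt v (b - n * σ) (Ph Φ w Z n f) := by
  classical
  set L := f.natDegree with hL
  obtain ⟨δ, hδ, hdeep⟩ := TL.deep hw ((range (L + 1)).image fun l => hasseDeriv l f) (by
    intro g hg
    obtain ⟨l, -, rfl⟩ := mem_image.1 hg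
    exact hasse_mem_PI hf l)
  -- the margin
  have hmar : ∀ N : ℕ, ∃ μ : ℝ, 0 < μ ∧ ∀ l : ℕ, 1 ≤ l → l ≤ N →
      v.Ge (b - l * ρ + μ) ((hasseDeriv l f).eval w) := by
    intro N
    induction N with
    | zero => exact ⟨1, one_pos, fun l h1 h2 => absurd h1 (by omega)⟩
    | succ N ih =>
      obtain ⟨μ, hμ, h1⟩ := ih
      have h2 := TWII.TL.jet_gt hw hf hb (l := N + 1) (by omega)
      rw [taylor_coeff] at h2
      obtain ⟨e, he, h3⟩ := TWLM.exists_ge_of_gt h2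
      refine ⟨min μ e, lt_min hμ he, fun l hl hlN => ?_⟩
      by_cases h4 : l ≤ N
      · exact (h1 l hl h4).mono (by linarith [min_le_left μ e])
      · obtain rfl : l = N + 1 := by omega
        exact h3.mono (by linarith [min_le_right μ e])
  obtain ⟨μ, hμ, hmar⟩ := hmar L
  -- the point
  set δ' : ℝ := min δ (μ / 2 / (L + 1)) with hδ'
  have hδ'0 : 0 < δ' := lt_min hδ (by positivity)
  have hδ'1 : δ' ≤ δ := min_le_left _ _
  have hδ'3 : ∀ l : ℕ, l ≤ L → (l : ℝ) * δ' ≤ μ / 2 := by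
    intro l hl
    have h1 : δ' ≤ μ / 2 / (L + 1) := min_le_right _ _
    have h2 : (l : ℝ) ≤ L + 1 := by
      have : (l : ℝ) ≤ L := by exact_mod_cast hl
      linarith
    calc (l : ℝ) * δ' ≤ (L + 1) * δ' := mul_le_mul_of_nonneg_right h2 hδ'0.le
      _ ≤ (L + 1) * (μ / 2 / (L + 1)) := mul_le_mul_of_nonneg_left h1 (by positivity)
      _ = μ / 2 := by field_simp
  obtain ⟨c, hc, b', hb', hwc, hnear⟩ := hZ n δ' hδ'0
  have hfl : ∀ l : ℕ, 1 ≤ l → l ≤ L → v.Ge (b - l * ρ + μ) ((hasseDeriv l f).eval c) := by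
    intro l h1 hl
    exact ((hdeep c (hwc.mono (by linarith)) (hasseDeriv l f)
      (mem_image.2 ⟨l, mem_range.2 (by omega), rfl⟩)).1 _).1 (hmar l h1 hl)
  have hf0 : v.Ge b (f.eval c) := by
    have h1 := (hdeep c (hwc.mono (by linarith)) (hasseDeriv 0 f)
      (mem_image.2 ⟨0, mem_range.2 (by omega), rfl⟩)).1 b
    rw [hasseDeriv_zero'] at h1
    exact h1.1 hb
  -- the powers
  have hT0 : v.Ge b' (PowerSeries.coeff 0 (PowerSeries.C w + Z - ser Φ c)) := by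
    have e : PowerSeries.coeff 0 (PowerSeries.C w + Z - ser Φ c) = w - c := by
      rw [map_sub, map_add, PowerSeries.coeff_C, if_pos rfl, coeff_ser, hZ0, add_zero,
        hΦ.c0 c hc]
    rw [e]
    exact hwc
  have hT : ∀ m : ℕ, m ≠ 0 → m ≤ n → v.Ge (b' - m * σ)
      (PowerSeries.coeff m (PowerSeries.C w + Z - ser Φ c)) := by
    intro m hm hmn
    have e : PowerSeries.coeff m (PowerSeries.C w + Z - ser Φ c) =
        PowerSeries.coeff m Z - Φ m c := by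
      rw [map_sub, map_add, PowerSeries.coeff_C, if_neg hm, coeff_ser, zero_add]
    rw [e]
    exact hnear m hm hmn
  have hpow : ∀ l i : ℕ, i ≤ n → v.Ge (l * b' - i * σ)
      (PowerSeries.coeff i ((PowerSeries.C w + Z - ser Φ c) ^ l)) := by
    intro l i hi
    obtain ⟨h1, h2⟩ := pow_ge_zero (v := v) le_rfl hT0 hT l
    by_cases h3 : i = 0
    · rw [h3]
      exact h1.mono (by simp)
    · exact (h2 i h3 hi).mono (by linarith)
  rw [Ph, coeff_EV_point hΦ hf hL.ge hc]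
  refine Gt.sum _ _ fun l hl => Gt.sum _ _ fun i hi => ?_
  have hlL : l ≤ L := by
    have := mem_range.1 hl
    omega
  have hi' : i.1 + i.2 = n := by simpa using hi
  have hin : (n : ℝ) = i.1 + i.2 := by rw [← hi']; push_cast; ring
  rcases Nat.eq_zero_or_pos l with rfl | hl1
  · by_cases hi2 : i.2 = 0
    · have hi1 : i.1 = n := by omega
      rw [pow_zero, hi2, PowerSeries.coeff_zero_one, mul_one, hi1, hasseDeriv_zero']
      exact hst n hn _ (eval_mem hf hc) b hf0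
    · rw [pow_zero, PowerSeries.coeff_one, if_neg hi2, mul_zero]
      exact Gt.zero
  · have h1 := hst.norm hΦ i.1 (eval_mem (hasse_mem_PI hf l) hc) (hfl l hl1 hlL)
    refine Gt.of_ge (h1.mul (hpow l i.2 (by omega))) ?_
    have h2 := hδ'3 l hlL
    have h3 : (l : ℝ) * (ρ - δ') ≤ l * b' := mul_le_mul_of_nonneg_left hb' (by positivity)
    rw [hin]
    linarith

/-- **Extension of a pointwise strict arc** to the closure of `C(w)`. -/
theorem exists_ptw [IsAlgClosed Ω] (hΩ : CompleteV v) (hΦ : HSd C Φ) (hst : Ptw v C σ Φ)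
    (hw : TL v C w ρ) (hZm : ∀ n, PowerSeries.coeff n Z ∈ cadj v C w)
    (hZ0 : PowerSeries.coeff 0 Z = 0) (hZ : Tg v C Φ w Z ρ σ) :
    ∃ Ψ : ℕ → Ω → Ω, HSd (cadj v C w) Ψ ∧ Ptw v (cadj v C w) σ Ψ ∧
      (∀ n : ℕ, ∀ f ∈ PI C, Ψ n (f.eval w) = Ph Φ w Z n f) ∧
      (∀ n : ℕ, ∀ x ∈ C, Ψ n x = Φ n x) ∧
      (∀ n : ℕ, Ψ n w = if n = 0 then w else PowerSeries.coeff n Z) ∧
      (∀ n : ℕ, ∀ x ∈ cadj v C w, ∀ b : ℝ, ∀ f ∈ PI C, v.Ge b (x - f.eval w) →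
        v.Ge (b - n * σ) (Ψ n x - Ph Φ w Z n f)) := by
  obtain ⟨Ψ, h1, h2, h3, h4, h5, h6⟩ := exists_ext_ge (σ := σ) hΩ hΦ hw hZm hZ0
    (fun n f hf b hb => by
      by_cases hn : n = 0
      · rw [hn, ph_zero_w hΦ hZ0 hf]
        exact hb.mono (by simp)
      · exact (ph_ptw hΦ hst hw hZ0 hZ hn hf hb).ge)
  refine ⟨Ψ, h1, fun n hn x hx b hb => ?_, h3, h4, h5, h6⟩
  obtain ⟨f, hf, h7⟩ := hw.dense hx (b + 1)
  have h8 : v.Ge b (f.eval w) := by
    have e : f.eval w = x - (x - f.eval w) := by ring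
    rw [e]
    exact hb.sub (h7.mono (by linarith))
  have h9 := ph_ptw hΦ hst hw hZ0 hZ hn hf h8
  have e : Ψ n x = (Ψ n x - Ph Φ w Z n f) + Ph Φ w Z n f := by ring
  rw [e]
  exact (Gt.of_ge (h6 n x hx _ f hf h7) (by linarith)).add h9

/-- **Extension of a pointwise strict overconvergent arc**, `w ↦ w + Z`, `Z` a polynomial. -/
theorem exists_ptw_oi [IsAlgClosed Ω] (hΩ : CompleteV v) (hΦ : HSd C Φ) (hst : Ptw v C σ Φ)
    (hoi : Oi v C σ Φ) (hw : TL v C w ρ) (hZm : ∀ n, PowerSeries.coeff n Z ∈ cadj v C w)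
    (hZ0 : PowerSeries.coeff 0 Z = 0) (hZ : Tg v C Φ w Z ρ σ) {n₀ : ℕ}
    (hfin : ∀ n : ℕ, n₀ ≤ n → PowerSeries.coeff n Z = 0) :
    ∃ Ψ : ℕ → Ω → Ω, HSd (cadj v C w) Ψ ∧ Ptw v (cadj v C w) σ Ψ ∧ Oi v (cadj v C w) σ Ψ ∧
      (∀ n : ℕ, ∀ f ∈ PI C, Ψ n (f.eval w) = Ph Φ w Z n f) ∧
      (∀ n : ℕ, ∀ x ∈ C, Ψ n x = Φ n x) ∧
      (∀ n : ℕ, Ψ n w = if n = 0 then w else PowerSeries.coeff n Z) := by
  obtain ⟨Ψ, h1, h2, h3, h4, h5, h6⟩ := exists_ptw hΩ hΦ hst hw hZm hZ0 hZ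
  refine ⟨Ψ, h1, h2, ?_, h3, h4, h5⟩
  intro x hx B
  obtain ⟨f, hf, h7⟩ := hw.dense hx B
  obtain ⟨L, hL⟩ := ph_oi (w := w) hoi (S := Z) (n₀ := n₀) hfin hf B
  refine ⟨L, fun l hl => ?_⟩
  have h8 := h6 l x hx B f hf h7
  have e : Ψ l x = (Ψ l x - Ph Φ w Z l f) + Ph Φ w Z l f := by ring
  rw [e]
  exact h8.add (hL l hl)

/-- The same with bounds only. -/
theorem exists_ge_oi [IsAlgClosed Ω] (hΩ : CompleteV v) (hΦ : HSd C Φ) (hoi : Oi v C σ Φ)
    (hw : TL v C w ρ) (hZm : ∀ n, PowerSeries.coeff n Z ∈ cadj v C w)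
    (hZ0 : PowerSeries.coeff 0 Z = 0) {n₀ : ℕ} (hfin : ∀ n : ℕ, n₀ ≤ n → PowerSeries.coeff n Z = 0)
    (hge : ∀ (n : ℕ), ∀ f ∈ PI C, ∀ b : ℝ, v.Ge b (f.eval w) → v.Ge (b - n * σ) (Ph Φ w Z n f)) :
    ∃ Ψ : ℕ → Ω → Ω, HSd (cadj v C w) Ψ ∧
      (∀ n : ℕ, ∀ x ∈ cadj v C w, ∀ b : ℝ, v.Ge b x → v.Ge (b - n * σ) (Ψ n x)) ∧
      Oi v (cadj v C w) σ Ψ ∧
      (∀ n : ℕ, ∀ f ∈ PI C, Ψ n (f.eval w) = Ph Φ w Z n f) ∧
      (∀ n : ℕ, ∀ x ∈ C, Ψ n x = Φ n x) ∧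
      (∀ n : ℕ, Ψ n w = if n = 0 then w else PowerSeries.coeff n Z) := by
  obtain ⟨Ψ, h1, h2, h3, h4, h5, h6⟩ := exists_ext_ge (σ := σ) hΩ hΦ hw hZm hZ0 hge
  refine ⟨Ψ, h1, h2, ?_, h3, h4, h5⟩
  intro x hx B
  obtain ⟨f, hf, h7⟩ := hw.dense hx B
  obtain ⟨L, hL⟩ := ph_oi (w := w) hoi (S := Z) (n₀ := n₀) hfin hf B
  refine ⟨L, fun l hl => ?_⟩
  have h8 := h6 l x hx B f hf h7
  have e : Ψ l x = (Ψ l x - Ph Φ w Z l f) + Ph Φ w Z l f := by ring
  rw [e]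
  exact h8.add (hL l hl)

end Pool.Agent.TWEX
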