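import Pool.Agent.Lib.TWEX.IsoR
import Pool.Agent.Lib.TWEX.KArc
import Pool.Agent.Lib.TWEX.Exch0

/-!
# TANK W, leaf (II.f): finite shapes through an isogeny

* `tl_pow`: `TL` of the `p`-th power;
* `finSh_pow`: `z` of finite shape over the field `L`, `L ^ p` in `K`, then `z ^ p` over `K`.
-/

set_option autoImplicit false

open Polynomial Finset

namespace Pool.Agent.TWEX

open Pool.Agent.H15JM (RVal)
open Pool.Agent.LU1 (adj)
open Pool.Agent.TWM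
open Pool.Agent.TWII (Nr)
open Pool.Agent.TWLM (HSd Oi Arc)

universe u'

variable {k Ω : Type u'} [Field k] [Field Ω] [Algebra k Ω] {v : RVal Ω}
  {K L : IntermediateField k Ω} {z : Ω} {ρ σ μ : ℝ} {Φ Ψ : ℕ → Ω → Ω}

section

variable {p : ℕ} [hp : Fact p.Prime] [CharP Ω p]

/-- `TL` of the `p`-th power. -/
theorem tl_pow [IsAlgClosed Ω] (hz : TL v L z ρ) (hKL : K ≤ L) (hpow : ∀ x ∈ L, x ^ p ∈ K) :
    TL v K (z ^ p) (p * ρ) := by
  have hp0 : (0 : ℝ) < p := by exact_mod_cast hp.out.pos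
  refine ⟨fun ε hε => ?_, fun θ hθ => ?_⟩
  · obtain ⟨a, ha, h1⟩ := hz.lim (ε / p) (div_pos hε hp0)
    refine ⟨a ^ p, hpow a ha, ?_⟩
    rw [← sub_pow_char]
    refine (TWII.ge_pow' h1 p).mono (le_of_eq ?_)
    field_simp
  · obtain ⟨η, rfl⟩ := IsAlgClosed.exists_pow_nat_eq θ hp.out.pos
    have h1 : IsAlgebraic K η := D2P.isAlgebraic_of_pow hp.out.pos hθ
    have h2 : IsAlgebraic L η := D2P.alg_mono hKL h1
    obtain ⟨h3, h4⟩ := hz.far η h2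
    have h5 : z - η ≠ 0 := sub_ne_zero.2 h3
    refine ⟨fun h6 => h3 (frobenius_inj Ω p h6), ?_⟩
    rw [← sub_pow_char, v.map_pow h5]
    exact mul_lt_mul_of_pos_left h4 hp0

/-- **Finite shapes, down.** -/
theorem finSh_pow (hΦ : Arc v K σ Φ) (hoi : Oi v K σ Φ) (hΨ : Arc v L (σ / p) Ψ)
    (hoi' : Oi v L (σ / p) Ψ) (hpow : ∀ x ∈ L, x ^ p ∈ K) (hμ : 0 < μ)
    (hN : ∀ x ∈ L, ∀ (l : ℕ) (b : ℝ), v.Ge b (x ^ p) →
      v.Ge (b + μ - l * σ) (Φ l (x ^ p) - Ψ l x ^ p))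
    (hz : TL v L z ρ) (hfin : FinSh v L (σ / p) ρ Ψ z) : FinSh v K σ (p * ρ) Φ (z ^ p) := by
  have hp0 : (0 : ℝ) < p := by exact_mod_cast hp.out.pos
  obtain ⟨L₀, hL₀⟩ := hfin
  -- a fixed point near `z`
  obtain ⟨θ₀, hθ₀, h0⟩ := hz.lim (μ / p) (div_pos hμ hp0)
  obtain ⟨L₁, hL₁⟩ := hoi (θ₀ ^ p) (hpow _ hθ₀) (p * ρ)
  obtain ⟨L₂, hL₂⟩ := hoi' θ₀ hθ₀ ρ
  refine ⟨max L₀ (max L₁ L₂), fun l hl => ?_⟩
  have hl0 : L₀ < l := (le_max_left _ _).trans_lt hl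
  have hl1 : L₁ ≤ l := ((le_max_left L₁ L₂).trans (le_max_right _ _)).trans hl.le
  have hl2 : L₂ ≤ l := ((le_max_right L₁ L₂).trans (le_max_right _ _)).trans hl.le
  have hlne : l ≠ 0 := by omega
  obtain ⟨δ, hδ, h1⟩ := hL₀ l hl0
  obtain ⟨n, hn, hstr⟩ := hΦ.str l hlne
  set η : ℝ := l * σ - n with hη
  have hη0 : 0 < η := by linarith
  -- the point of `L`
  obtain ⟨θ, hθ, h2⟩ := hz.lim (min δ (min (η / p) (μ / p)))
    (lt_min hδ (lt_min (div_pos hη0 hp0) (div_pos hμ hp0)))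
  have h2a : v.Ge (ρ - δ) (z - θ) := h2.mono (by
    linarith [min_le_left δ (min (η / p) (μ / p))])
  have h2b : v.Ge (ρ - η / p) (z - θ) := h2.mono (by
    linarith [min_le_right δ (min (η / p) (μ / p)), min_le_left (η / p) (μ / p)])
  have h2c : v.Ge (ρ - μ / p) (z - θ) := h2.mono (by
    linarith [min_le_right δ (min (η / p) (μ / p)), min_le_right (η / p) (μ / p)])
  have h3 := h1 θ hθ h2a
  -- the value at `θ ^ p`
  have h4 : v.Ge (p * ρ - l * σ) (Φ l (θ ^ p)) := by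
    have e1 : v.Ge (p * ρ - l * σ) (Φ l (θ ^ p) - Φ l (θ₀ ^ p) - (Ψ l θ ^ p - Ψ l θ₀ ^ p)) := by
      have h5 : v.Ge (ρ - μ / p) (θ - θ₀) := by
        have e : θ - θ₀ = (z - θ₀) - (z - θ) := by ring
        rw [e]
        exact h0.sub h2c
      have h6 : v.Ge (p * (ρ - μ / p)) ((θ - θ₀) ^ p) := TWII.ge_pow' h5 p
      have h7 := hN (θ - θ₀) (sub_mem hθ hθ₀) l _ h6
      rw [sub_pow_char, hΦ.sub l (hpow _ hθ) (hpow _ hθ₀), hΨ.sub l hθ hθ₀, sub_pow_char] at h7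
      refine h7.mono (le_of_eq ?_)
      field_simp
      ring
    have e2 : v.Ge (p * ρ - l * σ) (Ψ l θ ^ p) := by
      refine (TWII.ge_pow' h3 p).mono (le_of_eq ?_)
      field_simp
    have e3 : v.Ge (p * ρ - l * σ) (Ψ l θ₀ ^ p) := by
      refine (TWII.ge_pow' (hL₂ l hl2) p).mono (le_of_eq ?_)
      field_simp
    have e4 := hL₁ l hl1
    have e : Φ l (θ ^ p) = (Φ l (θ ^ p) - Φ l (θ₀ ^ p) - (Ψ l θ ^ p - Ψ l θ₀ ^ p)) +
        Φ l (θ₀ ^ p) + (Ψ l θ ^ p - Ψ l θ₀ ^ p) := by ring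
    rw [e]
    exact (e1.add e4).add (e2.sub e3)
  refine ⟨η, hη0, fun c hc h5 => ?_⟩
  have h6 : v.Ge (p * ρ - η) (c - θ ^ p) := by
    have e : c - θ ^ p = (z - θ) ^ p - (z ^ p - c) := by
      rw [sub_pow_char]
      ring
    rw [e]
    refine ((TWII.ge_pow' h2b p).mono (le_of_eq ?_)).sub h5
    field_simp
  have h7 := hstr (c - θ ^ p) (sub_mem hc (hpow _ hθ)) _ h6
  rw [hΦ.sub l hc (hpow _ hθ)] at h7
  have e : Φ l c = (Φ l c - Φ l (θ ^ p)) + Φ l (θ ^ p) := by ring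
  show v.Ge (p * ρ - l * σ) (Φ l c)
  rw [e]
  exact (h7.mono (by linarith)).add h4

end

end Pool.Agent.TWEX
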