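import Pool.Agent.Lib.TWEX.RadA

/-!
# TANK W, leaf (II.f): transport by homomorphisms near the identity

* `tr T Φ`: the transport of the system `Φ` to the image of `T`; `tr_arc`, `tr_oi`, `KN.tr`;
* `exists_near_ext`: `T` extends to the closure of `C(w)`, `w ↦ w`;
* `exists_near_inv`: the inverse of `T`;
* `exists_near_root`: `T` extends to the roots.
-/

set_option autoImplicit false

open Polynomial Finset

namespace Pool.Agent.TWEX

open Pool.Agent.H15JM (RVal)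
open Pool.Agent.LU1 (adj)
open Pool.Agent.D2P (clI mem_clI mem_adj_iff mem_adj_self adj_le)
open Pool.Agent.TWM
open Pool.Agent.TWII (Nr)
open Pool.Agent.TWLM (HSd Oi Arc eval_mem_cadj)
open Pool.Agent.TW (mon pcomb PBasis)
open Iso (KN)

universe u'

variable {k Ω : Type u'} [Field k] [Field Ω] [Algebra k Ω] {v : RVal Ω}
  {C : IntermediateField k Ω} {w : Ω} {ρ σ κ δ : ℝ} {Φ : ℕ → Ω → Ω} {T : C →ₐ[k] Ω}

/-- `T` is isometric. -/
def Iv (v : RVal Ω) {C : IntermediateField k Ω} (T : C →ₐ[k] Ω) : Prop :=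
  ∀ (x : C) (b : ℝ), v.Ge b (T x) ↔ v.Ge b (x : Ω)

theorem Near.iv (hT : Near v T κ) (hκ : 0 < κ) : Iv v T := fun _ _ => hT.ge_iff hκ

theorem Iv.val (hT : Iv v T) {x : C} (hx : (x : Ω) ≠ 0) : T x ≠ 0 ∧ v (T x) = v (x : Ω) := by
  have h0 : T x ≠ 0 := fun h => hx (by
    have h1 : x = 0 := (map_eq_zero T).1 h
    rw [h1]
    rfl)
  exact ⟨h0, le_antisymm ((hT x _).1 (v.ge_self _) hx) ((hT x _).2 (v.ge_self _) h0)⟩

/-- The image is closed. -/
theorem Iv.cld (hΩ : CompleteV v) (hT : Iv v T) (hC : Cld v C) : Cld v T.fieldRange := by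
  intro y hy
  have hy' := mem_clI.1 hy
  have h1 : ∀ n : ℕ, ∃ x : C, v.Ge (n : ℝ) (y - T x) := by
    intro n
    obtain ⟨z, hz, h2⟩ := hy' n
    obtain ⟨x, rfl⟩ := AlgHom.mem_fieldRange.1 hz
    exact ⟨x, h2⟩
  choose x hx using h1
  have hd : ∀ m n : ℕ, ∀ c : ℝ, c ≤ m → c ≤ n → v.Ge c ((x m : Ω) - x n) := by
    intro m n c hm hn
    have h2 : v.Ge c (T (x m - x n)) := by
      rw [map_sub]
      have e : T (x m) - T (x n) = (y - T (x n)) - (y - T (x m)) := by ring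
      rw [e]
      exact ((hx n).mono hn).sub ((hx m).mono hm)
    have h3 := (hT _ _).1 h2
    simpa using h3
  obtain ⟨a, ha⟩ := hΩ (fun n => (x n : Ω)) fun c => by
    obtain ⟨N, hN⟩ := exists_nat_ge c
    refine ⟨N, fun m n hm hn => hd m n c (hN.trans (by exact_mod_cast hm))
      (hN.trans (by exact_mod_cast hn))⟩
  have haC : a ∈ C := hC (mem_clI.2 fun c => by
    obtain ⟨N, hN⟩ := ha c
    exact ⟨x N, (x N).2, hN N le_rfl⟩)
  refine AlgHom.mem_fieldRange.2 ⟨⟨a, haC⟩, ?_⟩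
  rw [← sub_eq_zero]
  refine TWLM.eq_zero_of_ge (v := v) fun c => ?_
  obtain ⟨N, hN⟩ := ha c
  obtain ⟨M, hM⟩ := exists_nat_ge c
  have e : T ⟨a, haC⟩ - y = T (⟨a, haC⟩ - x (max N M)) - (y - T (x (max N M))) := by
    rw [map_sub]
    ring
  rw [e]
  refine ((hT _ _).2 ?_).sub ((hx (max N M)).mono ?_)
  · exact hN _ (le_max_left _ _)
  · exact hM.trans (by exact_mod_cast le_max_right N M)

open Classical in
/-- The transport of `Φ`. -/
noncomputable def tr (T : C →ₐ[k] Ω) (Φ : ℕ → Ω → Ω) (l : ℕ) (y : Ω) : Ω :=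
  if h : ∃ x : C, T x = y ∧ Φ l x ∈ C then T ⟨Φ l (h.choose : C), h.choose_spec.2⟩ else 0

theorem tr_apply {l : ℕ} {x : C} (hx : Φ l x ∈ C) : tr T Φ l (T x) = T ⟨Φ l x, hx⟩ := by
  have h : ∃ x' : C, T x' = T x ∧ Φ l x' ∈ C := ⟨x, rfl, hx⟩
  rw [tr, dif_pos h]
  have h1 : h.choose = x := T.injective h.choose_spec.1
  congr 1
  exact Subtype.ext (congrArg (fun z : C => Φ l (z : Ω)) h1)

theorem mem_rg {y : Ω} (hy : y ∈ T.fieldRange) : ∃ x : C, T x = y := AlgHom.mem_fieldRange.1 hy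

theorem rg_mem (x : C) : T x ∈ T.fieldRange := AlgHom.mem_fieldRange.2 ⟨x, rfl⟩

/-- Transport of a Hasse-Schmidt derivation. -/
theorem tr_hsd (h : HSd C Φ) : HSd T.fieldRange (tr T Φ) where
  mem l y hy := by
    obtain ⟨x, rfl⟩ := mem_rg hy
    rw [tr_apply (h.mem l x x.2)]
    exact rg_mem _
  c0 y hy := by
    obtain ⟨x, rfl⟩ := mem_rg hy
    rw [tr_apply (h.mem 0 x x.2)]
    congr 1
    exact Subtype.ext (h.c0 x x.2)
  add l y hy z hz := by
    obtain ⟨x, rfl⟩ := mem_rg hy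
    obtain ⟨x', rfl⟩ := mem_rg hz
    rw [← map_add, tr_apply (h.mem l _ (x + x').2), tr_apply (h.mem l x x.2),
      tr_apply (h.mem l x' x'.2), ← map_add]
    congr 1
    exact Subtype.ext (h.add l x x.2 x' x'.2)
  mul l y hy z hz := by
    obtain ⟨x, rfl⟩ := mem_rg hy
    obtain ⟨x', rfl⟩ := mem_rg hz
    rw [← map_mul, tr_apply (h.mem l _ (x * x').2)]
    have e : ∀ i ∈ Finset.HasAntidiagonal.antidiagonal l, tr T Φ i.1 (T x) * tr T Φ i.2 (T x') =
        T (⟨Φ i.1 x, h.mem _ x x.2⟩ * ⟨Φ i.2 x', h.mem _ x' x'.2⟩) := fun i _ => by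
      rw [tr_apply (h.mem i.1 x x.2), tr_apply (h.mem i.2 x' x'.2), ← map_mul]
    rw [sum_congr rfl e, ← map_sum]
    congr 1
    refine Subtype.ext ?_
    show Φ l ((x * x' : C) : Ω) = C.val (∑ i ∈ Finset.HasAntidiagonal.antidiagonal l,
      (⟨Φ i.1 x, h.mem _ x x.2⟩ * ⟨Φ i.2 x', h.mem _ x' x'.2⟩ : C))
    rw [map_sum]
    exact h.mul l x x.2 x' x'.2
  con l hl c := by
    have h1 := tr_apply (T := T) (h.mem l (algebraMap k C c) (algebraMap k C c).2)
    rw [AlgHom.commutes] at h1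
    rw [h1, ← map_zero T]
    congr 1
    exact Subtype.ext (h.con l hl c)

theorem tr_arc (hT : Iv v T) (h : Arc v C σ Φ) :
    Arc v T.fieldRange σ (tr T Φ) where
  toHSd := tr_hsd h.toHSd
  str l hl := by
    obtain ⟨n, hn, h1⟩ := h.str l hl
    refine ⟨n, hn, fun y hy b hb => ?_⟩
    obtain ⟨x, rfl⟩ := mem_rg hy
    rw [tr_apply (h.mem l x x.2), hT _ _]
    exact h1 x x.2 b ((hT _ _).1 hb)

theorem tr_oi (hT : Iv v T) (h : HSd C Φ) (ho : Oi v C σ Φ) :
    Oi v T.fieldRange σ (tr T Φ) := by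
  intro y hy B
  obtain ⟨x, rfl⟩ := mem_rg hy
  obtain ⟨L, hL⟩ := ho x x.2 B
  refine ⟨L, fun l hl => ?_⟩
  rw [tr_apply (h.mem l x x.2), hT _ _]
  exact hL l hl

theorem map_pcomb {p n : ℕ} (t : Fin n → C) (c : (Fin n → Fin p) → C) :
    T (⟨pcomb (fun i => (t i : Ω)) (fun α => (c α : Ω)), by
      unfold pcomb
      exact sum_mem fun α _ => mul_mem (pow_mem (c α).2 _) (prod_mem fun i _ => pow_mem (t i).2 _)⟩ : C) =
      pcomb (fun i => T (t i)) (fun α => T (c α)) := by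
  unfold pcomb mon
  have e : (⟨∑ α, (c α : Ω) ^ p * ∏ i, (t i : Ω) ^ (α i : ℕ), by
      exact sum_mem fun α _ => mul_mem (pow_mem (c α).2 _) (prod_mem fun i _ => pow_mem (t i).2 _)⟩ : C) =
      ∑ α, c α ^ p * ∏ i, t i ^ (α i : ℕ) := by
    refine Subtype.ext ?_
    rw [IntermediateField.coe_sum]
    refine sum_congr rfl fun α _ => ?_
    rw [IntermediateField.coe_mul, IntermediateField.coe_pow, IntermediateField.coe_prod]
    rfl
  rw [e, map_sum]
  refine sum_congr rfl fun α _ => ?_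
  rw [map_mul, map_pow, map_prod]
  congr 1
  exact prod_congr rfl fun i _ => by rw [map_pow]

theorem pbasis_tr {p n : ℕ} {t : Fin n → Ω} (ht : PBasis p C t) :
    PBasis p T.fieldRange (fun i => T ⟨t i, ht.mem i⟩) where
  mem i := rg_mem _
  span u hu := by
    obtain ⟨x, rfl⟩ := mem_rg hu
    obtain ⟨c, hc, h1⟩ := ht.span x x.2
    refine ⟨fun α => T ⟨c α, hc α⟩, fun α => rg_mem _, ?_⟩
    have h2 := map_pcomb (p := p) (T := T) (fun i => (⟨t i, ht.mem i⟩ : C)) (fun α => ⟨c α, hc α⟩)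
    rw [← h2]
    congr 1
    exact Subtype.ext h1
  ind c hc h0 := by
    choose c' hc' using fun α => mem_rg (hc α)
    have h2 := map_pcomb (p := p) (T := T) (fun i => (⟨t i, ht.mem i⟩ : C)) c'
    have h3 : (fun α => T (c' α)) = c := funext hc'
    rw [h3, h0] at h2
    have h4 := (map_eq_zero T).1 h2
    have h5 := ht.ind (fun α => (c' α : Ω)) (fun α => (c' α).2) (congrArg Subtype.val h4)
    intro α
    have h6 : c' α = 0 := Subtype.ext (h5 α)
    rw [← hc' α, h6, map_zero]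

theorem KN.tr {p : ℕ} (hΩ : CompleteV v) (hT : Iv v T) (h : KN p v C) :
    KN p v T.fieldRange where
  cld := hT.cld hΩ h.cld
  imm f hf hf0 := by
    obtain ⟨x, rfl⟩ := mem_rg hf
    have hx0 : (x : Ω) ≠ 0 := ne_zero_of_image hf0
    obtain ⟨g, hg, h1⟩ := h.imm x x.2 hx0
    refine ⟨T ⟨g, hg⟩, rg_mem _, ?_⟩
    rw [← map_pow, ← map_sub, (hT.val hx0).2]
    intro h2
    have h3 : ((x - ⟨g, hg⟩ ^ p : C) : Ω) ≠ 0 := ne_zero_of_image h2
    rw [(hT.val h3).2]
    exact h1 h3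
  pb := by
    obtain ⟨n, t, ht⟩ := h.pb
    exact ⟨n, _, pbasis_tr ht⟩

/-- The inverse. -/
theorem exists_near_inv (hT : Near v T κ) (hκ : 0 < κ) :
    ∃ S : T.fieldRange →ₐ[k] Ω, Near v S κ ∧ (∀ x : C, S ⟨T x, rg_mem x⟩ = x) ∧
      S.fieldRange = C := by
  let e : C ≃ₐ[k] T.fieldRange := AlgEquiv.ofInjectiveField T
  have he : ∀ x : C, e x = ⟨T x, rg_mem x⟩ := fun x => rfl
  refine ⟨C.val.comp (e.symm : T.fieldRange →ₐ[k] C), ?_, fun x => ?_, ?_⟩
  · intro y b hb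
    obtain ⟨x, rfl⟩ := e.surjective y
    have hb' : v.Ge b (T x) := hb
    have h1 := hT x b ((hT.ge_iff hκ).1 hb')
    show v.Ge (b + κ) (((e.symm (e x) : C) : Ω) - T x)
    rw [e.symm_apply_apply]
    have e1 : (x : Ω) - T x = -(T x - x) := by ring
    rw [e1]
    exact h1.neg
  · show ((e.symm ⟨T x, rg_mem x⟩ : C) : Ω) = x
    rw [← he, e.symm_apply_apply]
  · refine le_antisymm ?_ ?_
    · intro y hy
      obtain ⟨z, rfl⟩ := AlgHom.mem_fieldRange.1 hy
      exact (e.symm z).2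
    · intro y hy
      refine AlgHom.mem_fieldRange.2 ⟨e ⟨y, hy⟩, ?_⟩
      show ((e.symm (e ⟨y, hy⟩) : C) : Ω) = y
      rw [e.symm_apply_apply]

/-- The elements of the closure of `C(w)` are limits of values of polynomials with coefficients
in `C`. -/
theorem exists_poly [IsAlgClosed Ω] (hw : TL v C w ρ) {x : Ω} (hx : x ∈ cadj v C w) (b : ℝ) :
    ∃ P : Polynomial C, v.Ge b (x - (P.map (algebraMap C Ω)).eval w) := by
  obtain ⟨f, hf, h1⟩ := hw.dense hx b
  obtain ⟨P, hP⟩ : ∃ P : Polynomial C, P.map (algebraMap C Ω) = f := by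
    refine ⟨∑ i ∈ range (f.natDegree + 1), monomial i (⟨f.coeff i, hf i⟩ : C), ?_⟩
    ext n
    rw [coeff_map, finsetSum_coeff]
    simp only [coeff_monomial]
    rw [sum_ite_eq' (range (f.natDegree + 1)) n]
    split_ifs with h2
    · rfl
    · rw [map_zero, coeff_eq_zero_of_natDegree_lt (by simpa using h2)]
  exact ⟨P, by rw [hP]; exact h1⟩

variable [IsAlgClosed Ω]

/-- **Extension to a floor.** -/
theorem exists_near_ext (hΩ : CompleteV v) (hw : TL v C w ρ) (hT : Near v T κ)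
    (hκ : 0 < κ) (hδ : 0 < δ) (hw0 : v.Ge (ρ - κ + δ) w) :
    ∃ T' : cadj v C w →ₐ[k] Ω, Near v T' (min κ δ / 4) ∧
      (∀ (x : Ω) (hx : x ∈ C), T' ⟨x, le_cadj v C w hx⟩ = T ⟨x, hx⟩) ∧
      T' ⟨w, self_mem_cadj v C w⟩ = w ∧ T'.fieldRange = cadj v T.fieldRange w := by
  classical
  set μ : ℝ := min κ δ / 4 with hμ
  have hμ0 : 0 < μ := div_pos (lt_min hκ hδ) (by norm_num)
  -- isometry on the polynomials
  have hiso : ∀ (P : Polynomial C) (b : ℝ), v.Ge b ((P.map (algebraMap C Ω)).eval w) →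
      v.Ge b ((P.map (T : C →+* Ω)).eval w) := by
    intro P b hb
    have e : (P.map (T : C →+* Ω)).eval w = ((P.map (T : C →+* Ω)).eval w -
        (P.map (algebraMap C Ω)).eval w) + (P.map (algebraMap C Ω)).eval w := by ring
    rw [e]
    exact ((near_eval hw hT hκ hδ hw0 P hb).mono (by linarith)).add hb
  have hbd : ∀ x : Ω, ∃ B : ℝ, 0 ≤ B ∧ v.Ge (-B) x := fun x => by
    obtain ⟨c, hc⟩ := TWLM.exists_ge v x
    exact ⟨|c|, abs_nonneg c, hc.mono (neg_abs_le c)⟩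
  -- the relation
  let R : Ω → Ω → Prop := fun x y => ∀ b : ℝ, ∃ P : Polynomial C,
    v.Ge b (x - (P.map (algebraMap C Ω)).eval w) ∧ v.Ge b (y - (P.map (T : C →+* Ω)).eval w)
  have hex : ∀ x ∈ cadj v C w, ∃ y : Ω, R x y := by
    intro x hx
    choose P hP using fun n : ℕ => exists_poly hw hx (n : ℝ)
    obtain ⟨y, hy⟩ := hΩ (fun n => ((P n).map (T : C →+* Ω)).eval w) fun c => by
      obtain ⟨N, hN⟩ := exists_nat_ge c
      refine ⟨N, fun m n hm hn => ?_⟩
      rw [← eval_sub, ← Polynomial.map_sub]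
      refine hiso (P m - P n) c ?_
      rw [Polynomial.map_sub, eval_sub]
      have e : ((P m).map (algebraMap C Ω)).eval w - ((P n).map (algebraMap C Ω)).eval w =
          (x - ((P n).map (algebraMap C Ω)).eval w) - (x - ((P m).map (algebraMap C Ω)).eval w) := by
        ring
      rw [e]
      refine ((hP n).mono (hN.trans ?_)).sub ((hP m).mono (hN.trans ?_))
      · exact_mod_cast hn
      · exact_mod_cast hm
    refine ⟨y, fun b => ?_⟩
    obtain ⟨N, hN⟩ := hy b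
    obtain ⟨N', hN'⟩ := exists_nat_ge b
    refine ⟨P (max N N'), (hP _).mono (hN'.trans ?_), hN _ (le_max_left _ _)⟩
    exact_mod_cast le_max_right N N'
  have hge : ∀ x y : Ω, R x y → ∀ b, v.Ge b x → v.Ge b y := by
    intro x y h b hb
    obtain ⟨P, h1, h2⟩ := h b
    have h3 : v.Ge b ((P.map (algebraMap C Ω)).eval w) := by
      have e : (P.map (algebraMap C Ω)).eval w = x - (x - (P.map (algebraMap C Ω)).eval w) := by ring
      rw [e]
      exact hb.sub h1
    have e : y = (y - (P.map (T : C →+* Ω)).eval w) + (P.map (T : C →+* Ω)).eval w := by ring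
    rw [e]
    exact h2.add (hiso P b h3)
  have hsub : ∀ x y x' y' : Ω, R x y → R x' y' → R (x - x') (y - y') := by
    intro x y x' y' h h' b
    obtain ⟨P, h1, h2⟩ := h b
    obtain ⟨P', h3, h4⟩ := h' b
    refine ⟨P - P', ?_, ?_⟩
    · rw [Polynomial.map_sub, eval_sub, sub_sub_sub_comm]
      exact h1.sub h3
    · rw [Polynomial.map_sub, eval_sub, sub_sub_sub_comm]
      exact h2.sub h4
  have huniq : ∀ x y y' : Ω, R x y → R x y' → y = y' := by
    intro x y y' h h'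
    have h1 := hsub x y x y' h h'
    rw [sub_self] at h1
    exact sub_eq_zero.1 (TWLM.eq_zero_of_ge (v := v) fun b => hge 0 _ h1 b RVal.Ge.zero)
  have hadd : ∀ x y x' y' : Ω, R x y → R x' y' → R (x + x') (y + y') := by
    intro x y x' y' h h' b
    obtain ⟨P, h1, h2⟩ := h b
    obtain ⟨P', h3, h4⟩ := h' b
    refine ⟨P + P', ?_, ?_⟩
    · rw [Polynomial.map_add, eval_add, add_sub_add_comm]
      exact h1.add h3
    · rw [Polynomial.map_add, eval_add, add_sub_add_comm]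
      exact h2.add h4
  have hmul : ∀ x y x' y' : Ω, R x y → R x' y' → R (x * x') (y * y') := by
    intro x y x' y' h h' b
    obtain ⟨B₁, hB₁, h1⟩ := hbd x
    obtain ⟨B₂, hB₂, h2⟩ := hbd y
    obtain ⟨B₃, hB₃, h3⟩ := hbd x'
    obtain ⟨B₄, hB₄, h4⟩ := hbd y'
    set B : ℝ := B₁ + B₂ + B₃ + B₄ with hB
    obtain ⟨P, h5, h6⟩ := h (|b| + B)
    obtain ⟨P', h7, h8⟩ := h' (|b| + B)
    have hm : ∀ a a' c c' : Ω, v.Ge (-B) a → v.Ge (-B) c → v.Ge (|b| + B) (a - a') →
        v.Ge (|b| + B) (c - c') → v.Ge b (a * c - a' * c') := by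
      intro a a' c c' h9 h10 h11 h12
      have e : a * c - a' * c' = (a - a') * c + a * (c - c') - (a - a') * (c - c') := by ring
      rw [e]
      refine ((((h11.mul h10)).mono ?_).add ((h9.mul h12).mono ?_)).sub ((h11.mul h12).mono ?_)
      · linarith [le_abs_self b]
      · linarith [le_abs_self b]
      · have hB0 : 0 ≤ B := by positivity
        linarith [le_abs_self b, abs_nonneg b]
    refine ⟨P * P', ?_, ?_⟩
    · rw [Polynomial.map_mul, eval_mul]
      exact hm _ _ _ _ (h1.mono (by linarith)) (h3.mono (by linarith)) h5 h7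
    · rw [Polynomial.map_mul, eval_mul]
      exact hm _ _ _ _ (h2.mono (by linarith)) (h4.mono (by linarith)) h6 h8
  have hpol : ∀ P : Polynomial C, R ((P.map (algebraMap C Ω)).eval w)
      ((P.map (T : C →+* Ω)).eval w) := fun P b =>
    ⟨P, by rw [sub_self]; exact RVal.Ge.zero, by rw [sub_self]; exact RVal.Ge.zero⟩
  choose f hf using fun x : cadj v C w => hex x x.2
  have hC : ∀ (x : Ω) (hx : x ∈ C), R x (T ⟨x, hx⟩) := by
    intro x hx
    have h1 := hpol (Polynomial.C ⟨x, hx⟩)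
    rw [Polynomial.map_C, Polynomial.map_C, eval_C, eval_C] at h1
    exact h1
  let T' : cadj v C w →ₐ[k] Ω :=
    { toFun := f
      map_one' := by
        refine huniq 1 _ _ (hf 1) ?_
        have h1 := hC 1 (one_mem C)
        have e : (⟨1, one_mem C⟩ : C) = 1 := rfl
        rwa [e, map_one] at h1
      map_mul' := fun x y => huniq (x * y : Ω) _ _ (hf (x * y)) (hmul _ _ _ _ (hf x) (hf y))
      map_zero' := by
        refine huniq 0 _ _ (hf 0) ?_
        have h1 := hC 0 (zero_mem C)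
        have e : (⟨0, zero_mem C⟩ : C) = 0 := rfl
        rwa [e, map_zero] at h1
      map_add' := fun x y => huniq (x + y : Ω) _ _ (hf (x + y)) (hadd _ _ _ _ (hf x) (hf y))
      commutes' := fun c => by
        refine huniq (algebraMap k Ω c) _ _ (hf (algebraMap k _ c)) ?_
        have h1 := hC (algebraMap k Ω c) (C.algebraMap_mem c)
        have e : (⟨algebraMap k Ω c, C.algebraMap_mem c⟩ : C) = algebraMap k C c := rfl
        rwa [e, AlgHom.commutes] at h1 }
  have hres : ∀ (x : Ω) (hx : x ∈ C), T' ⟨x, le_cadj v C w hx⟩ = T ⟨x, hx⟩ := fun x hx =>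
    huniq x _ _ (hf ⟨x, le_cadj v C w hx⟩) (hC x hx)
  have hww : T' ⟨w, self_mem_cadj v C w⟩ = w := by
    refine huniq w _ _ (hf ⟨w, self_mem_cadj v C w⟩) ?_
    have h1 := hpol X
    rwa [Polynomial.map_X, Polynomial.map_X, eval_X] at h1
  have hN : Near v T' μ := by
    intro x b hb
    obtain ⟨P, h1, h2⟩ := hf x (b + μ)
    have h3 : v.Ge b ((P.map (algebraMap C Ω)).eval w) := by
      have e : (P.map (algebraMap C Ω)).eval w =
          (x : Ω) - ((x : Ω) - (P.map (algebraMap C Ω)).eval w) := by ring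
      rw [e]
      exact hb.sub (h1.mono (by linarith))
    have h4 := near_eval hw hT hκ hδ hw0 P h3
    have e : T' x - x = (f x - (P.map (T : C →+* Ω)).eval w) + ((P.map (T : C →+* Ω)).eval w -
        (P.map (algebraMap C Ω)).eval w) - ((x : Ω) - (P.map (algebraMap C Ω)).eval w) := by
      show f x - x = _
      ring
    rw [e]
    exact (h2.add h4).sub h1
  refine ⟨T', hN, hres, hww, le_antisymm ?_ ?_⟩
  · intro y hy
    obtain ⟨x, rfl⟩ := AlgHom.mem_fieldRange.1 hy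
    refine cld_cadj v T.fieldRange w (mem_clI.2 fun b => ?_)
    obtain ⟨P, -, h2⟩ := hf x b
    refine ⟨_, eval_mem (fun i => ?_) (self_mem_cadj _ _ _), h2⟩
    rw [coeff_map]
    exact le_cadj _ _ _ (rg_mem _)
  · refine cadj_le (hN.cld hΩ hμ0 (cld_cadj v C w)) ?_ ?_
    · intro y hy
      obtain ⟨x, rfl⟩ := mem_rg hy
      rw [← hres x x.2]
      exact rg_mem _
    · have h1 := rg_mem (T := T') ⟨w, self_mem_cadj v C w⟩
      rwa [hww] at h1

/-- Extension to the roots. -/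
theorem exists_near_root (p : ℕ) [hp : Fact p.Prime] [CharP Ω p] (hΩ : CompleteV v)
    (hC : Cld v C) (hT : Near v T κ) (hκ : 0 < κ) {g u : Ω} (hg : g ^ p ∈ C)
    (hu : u ^ p = T ⟨g ^ p, hg⟩) :
    ∃ T' : adj C g →ₐ[k] Ω, Near v T' (κ / p) ∧ T' ⟨g, (mem_adj_self C g).1⟩ = u ∧
      (∀ (x : Ω) (hx : x ∈ C), T' ⟨x, (mem_adj_self C g).2 hx⟩ = T ⟨x, hx⟩) ∧
      Cld v T'.fieldRange := by
  have hp0 : (0 : ℝ) < p := by exact_mod_cast hp.out.pos
  have h1 : ∀ x ∈ adj C g, x ^ p ∈ C := fun x hx =>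
    (mem_rootF1 p).1 (adj_le (le_rootF p C) ((mem_rootF1 p).2 hg) hx)
  obtain ⟨T₁, hT₁⟩ := exists_rootHom p T h1
  have hu' : T₁ ⟨g, (mem_adj_self C g).1⟩ = u := pow_p_inj p (by rw [hT₁, hu])
  have hres : ∀ (x : Ω) (hx : x ∈ C), T₁ ⟨x, (mem_adj_self C g).2 hx⟩ = T ⟨x, hx⟩ := by
    intro x hx
    refine pow_p_inj p ?_
    rw [hT₁, ← map_pow]
    rfl
  have hN : Near v T₁ (κ / p) := by
    intro x b hb
    refine ge_of_pow (p := p) ?_
    rw [sub_pow_p, hT₁]
    refine (hT ⟨(x : Ω) ^ p, h1 x x.2⟩ (p * b) (ge_pow hb p)).mono (le_of_eq ?_)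
    field_simp
  exact ⟨T₁, hN, hu', hres, hN.cld hΩ (div_pos hκ hp0)
    (cld_adj hΩ hC (isAlgebraic_of_pow_mem p hg))⟩

end Pool.Agent.TWEX
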