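import Pool.Agent.Lib.TWEX.RadB
import Pool.Agent.Lib.TWEX.Exch1
import Pool.Agent.Lib.TWS7.Unhit
import Pool.Agent.Lib.TWJ.EXG
import Pool.Agent.Lib.TWN1.Rad

/-!
# TANK W, leaf (II.f): transport of floors and of closures of finitely generated fields

* `FGc.tr`, `FGc.adj`: transport, adjunction of a `p`-th root of an element of the dense field;
* `FGc.root`: adjunction of a `p`-th root;
* `near_down`: the floors and the finite shapes over the image of `T`;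
* `near_floor`: the image of a floor.
-/

set_option autoImplicit false

open Polynomial Finset

namespace Pool.Agent.TWEX

open Pool.Agent.H15JM (RVal)
open Pool.Agent.LU1 (VPos adj)
open Pool.Agent.D2 (Ctx0)
open Pool.Agent.D2P (clI mem_clI mem_adj_iff mem_adj_self adj_le)
open Pool.Agent.TWM
open Pool.Agent.TWII (Nr)
open Pool.Agent.TWLM (HSd Oi Arc eval_mem_cadj)
open Pool.Agent.TW (mon pcomb PBasis Full)
open Pool.Agent.TWS7 (FGc Irr)
open Iso (KN)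

universe u'

variable {k Ω : Type u'} [Field k] [Field Ω] [Algebra k Ω] {v : RVal Ω}
  {C F : IntermediateField k Ω} {w z : Ω} {ρ σ κ : ℝ} {Φ : ℕ → Ω → Ω} {T : C →ₐ[k] Ω}

/-- The copy of a subfield. -/
theorem exists_copy (hF : F ≤ C) (hFG : F.FG) (T : C →ₐ[k] Ω) :
    ∃ F' : IntermediateField k Ω, F'.FG ∧ Algebra.trdeg k F' = Algebra.trdeg k F ∧
      (∀ (x : Ω) (hx : x ∈ C), x ∈ F → T ⟨x, hx⟩ ∈ F') ∧
      ∀ y ∈ F', ∃ x : C, (x : Ω) ∈ F ∧ T x = y := by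
  classical
  obtain ⟨S, hS⟩ := hFG
  have hSC : ∀ s ∈ S, s ∈ C := fun s hs => hF (by
    rw [← hS]
    exact IntermediateField.subset_adjoin k _ hs)
  set A : IntermediateField k C := F.comap C.val with hA
  have hAF : A.map C.val = F := by
    refine le_antisymm ?_ ?_
    · rintro _ ⟨x, hx, rfl⟩
      exact hx
    · intro x hx
      exact ⟨⟨x, hF hx⟩, hx, rfl⟩
  have hAG : A.FG := by
    refine ⟨S.attach.image fun s => (⟨s.1, hSC s.1 s.2⟩ : C), ?_⟩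
    refine IntermediateField.map_injective C.val ?_
    rw [IntermediateField.adjoin_map, hAF, ← hS]
    congr 1
    ext x
    simp only [coe_image, Set.mem_image, mem_coe, mem_attach, true_and]
    constructor
    · rintro ⟨_, ⟨s, rfl⟩, rfl⟩
      exact s.2
    · intro hx
      exact ⟨⟨x, hSC x hx⟩, ⟨⟨x, hx⟩, rfl⟩, rfl⟩
  refine ⟨A.map T, TWM.Dense.fg_map hAG, ?_, fun x hx hxF => ⟨⟨x, hx⟩, hxF, rfl⟩, ?_⟩
  · rw [TWM.Dense.trdeg_map, ← TWM.Dense.trdeg_map A C.val, hAF]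
  · rintro _ ⟨x, hx, rfl⟩
    exact ⟨x, hx, rfl⟩

theorem FGc.tr (hΩ : CompleteV v) {d : ℕ} (h : FGc v d C) (hT : Iv v T) :
    FGc v d T.fieldRange := by
  have hC := h.cld
  obtain ⟨F, hFG, hfull, htr, hCF⟩ := h
  have hF : F ≤ C := by
    rw [hCF]
    exact le_clI F
  obtain ⟨F', h1, h2, h3, h4⟩ := exists_copy hF hFG T
  refine ⟨F', h1, fun g hg => ?_, by rw [h2, htr], le_antisymm ?_ ?_⟩
  · obtain ⟨m, hm, c, hc, hc0, h5⟩ := hfull g hg
    obtain ⟨h6, h7⟩ := hT.val (x := ⟨c, hF hc⟩) hc0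
    exact ⟨m, hm, _, h3 c (hF hc) hc, h6, by rw [h7, h5]⟩
  · intro y hy
    obtain ⟨x, rfl⟩ := mem_rg hy
    refine mem_clI.2 fun b => ?_
    have hx : (x : Ω) ∈ clI v F := by
      rw [← hCF]
      exact x.2
    obtain ⟨c, hc, h5⟩ := mem_clI.1 hx b
    refine ⟨_, h3 c (hF hc) hc, ?_⟩
    rw [← map_sub, hT _ _]
    exact h5
  · intro y hy
    refine hT.cld hΩ hC (mem_clI.2 fun b => ?_)
    obtain ⟨z, hz, h5⟩ := mem_clI.1 hy b
    obtain ⟨x, -, rfl⟩ := h4 z hz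
    exact ⟨_, rg_mem x, h5⟩

section Root

variable {p : ℕ} [hp : Fact p.Prime]

/-- Adjunction of a root of an element of the dense field. -/
theorem FGc.of_root {d : ℕ} (hF : F.FG) (hfull : Full v F) (htr : Algebra.trdeg k F = d) {β : Ω}
    (hβ : β ^ p ∈ F) : FGc v d (cadj v (clI v F) β) := by
  refine ⟨adj F β, D2P.fg_adj hF β, hfull.mono (mem_adj_self F β).2, ?_, clI_adj_clI⟩
  rw [TWJ.trdeg_adj_alg (D2P.isAlgebraic_of_pow hp.out.pos (D2P.isAlgebraic_of_mem hβ)), htr]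

/-- Adjunction of a root. -/
theorem FGc.root [IsAlgClosed k] [IsAlgClosed Ω] [CharP k p] [CharP Ω p] (h0 : Ctx0 k v)
    (hΩ : CompleteV v) {d : ℕ} (h : FGc v d C) (hK : KN p v C) {α : Ω} (hα : α ^ p ∈ C) :
    FGc v d (cadj v C α) := by
  by_cases hαC : α ∈ C
  · rw [TWN1.cadj_of_mem hK.cld hαC]
    exact h
  obtain ⟨F, hFG, hfull, htr, rfl⟩ := h
  obtain ⟨m, t₀, ht₀⟩ := hK.pb
  obtain ⟨n, s, hs, -, -, g, hg, hsg, -, s₀, hs₀, -, hnp, ψ, hψ0, hψ⟩ := exists_base0 p h0 hΩ hK.cld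
    hK.imm ht₀ (le_clI F) (fun x hx b => mem_clI.1 hx b) hα (fun g hg h1 => hαC (by
      rw [pow_p_inj p h1]
      exact hg)) one_pos
  obtain ⟨β, hβ⟩ := IsAlgClosed.exists_pow_nat_eq s₀ hp.out.pos
  have hβF : β ^ p ∈ F := by
    rw [hβ]
    exact hs₀
  have hβC : β ^ p ∈ clI v F := le_clI F hβF
  have hhalf : (0 : ℝ) < 1 / 2 := by norm_num
  have hN : Near v ((clI v F).val.comp (ψ.symm : clI v F →ₐ[k] clI v F)) (1 / 2) :=
    near_aut_symm hhalf hψ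
  have hαg : (α - g) ^ p = ((clI v F).val.comp (ψ.symm : clI v F →ₐ[k] clI v F)) ⟨β ^ p, hβC⟩ := by
    rw [sub_pow_char, ← hsg]
    have h2 : ψ.symm ⟨β ^ p, hβC⟩ = ⟨s 0, hs.mem 0⟩ := by
      rw [AlgEquiv.symm_apply_eq]
      exact Subtype.ext (by rw [hψ0 (hs.mem 0), ← hβ])
    show s 0 = ((ψ.symm ⟨β ^ p, hβC⟩ : clI v F) : Ω)
    rw [h2]
  obtain ⟨T', h2, h3, h4, h5⟩ := exists_near_root p hΩ hK.cld hN hhalf hβC hαg
  have hp0 : (0 : ℝ) < p := by exact_mod_cast hp.out.pos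
  have h6 : FGc v d (adj (clI v F) β) := by
    rw [← Iso.cadj_eq_adj hΩ hK.cld hβC]
    exact FGc.of_root hFG hfull htr hβF
  have h7 := FGc.tr hΩ h6 (h2.iv (div_pos hhalf hp0))
  have h8 : T'.fieldRange = cadj v (clI v F) α := by
    have h9 : cadj v (clI v F) α = cadj v (clI v F) (α - g) := (cadj_sub_mem hg).symm
    rw [h9]
    have hmem : ∀ x ∈ clI v F, x ∈ T'.fieldRange := by
      intro x hx
      have e : T' ⟨((ψ ⟨x, hx⟩ : clI v F) : Ω), (mem_adj_self (clI v F) β).2 (ψ ⟨x, hx⟩).2⟩ = x := by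
        rw [h4 _ (ψ ⟨x, hx⟩).2]
        show ((ψ.symm (ψ ⟨x, hx⟩) : clI v F) : Ω) = x
        rw [ψ.symm_apply_apply]
      have e2 := rg_mem (T := T') ⟨((ψ ⟨x, hx⟩ : clI v F) : Ω),
        (mem_adj_self (clI v F) β).2 (ψ ⟨x, hx⟩).2⟩
      rwa [e] at e2
    refine le_antisymm ?_ (cadj_le h5 hmem ?_)
    · intro y hy
      obtain ⟨x, rfl⟩ := AlgHom.mem_fieldRange.1 hy
      have h10 : (x : Ω) ∈ ((cadj v (clI v F) (α - g)).comap T').map (adj (clI v F) β).val := by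
        refine adj_le (F := ((cadj v (clI v F) (α - g)).comap T').map (adj (clI v F) β).val) ?_ ?_ x.2
        · intro z hz
          refine ⟨⟨z, (mem_adj_self (clI v F) β).2 hz⟩, ?_, rfl⟩
          show T' _ ∈ cadj v (clI v F) (α - g)
          rw [h4 z hz]
          exact le_cadj _ _ _ (ψ.symm ⟨z, hz⟩).2
        · refine ⟨⟨β, (mem_adj_self (clI v F) β).1⟩, ?_, rfl⟩
          show T' _ ∈ cadj v (clI v F) (α - g)
          rw [h3]
          exact self_mem_cadj _ _ _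
      obtain ⟨z, hz, h11⟩ := h10
      have h12 : z = x := Subtype.ext h11
      rw [← h12]
      exact hz
    · have h9 := rg_mem (T := T') ⟨β, (mem_adj_self (clI v F) β).1⟩
      rwa [h3] at h9
  rwa [h8] at h7

end Root

section Near

/-- Shift of a finite shape. -/
theorem FinSh.sub (hΦ : HSd F Φ) (hoi : Oi v F σ Φ) (h : FinSh v F σ ρ Φ z) {θ : Ω} (hθ : θ ∈ F) :
    FinSh v F σ ρ Φ (z - θ) := by
  obtain ⟨L, hL⟩ := h
  obtain ⟨L', hL'⟩ := hoi θ hθ ρ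
  refine ⟨max L L', fun l hl => ?_⟩
  obtain ⟨δ, hδ, h1⟩ := hL l ((le_max_left _ _).trans_lt hl)
  have h2 := hL' l ((le_max_right _ _).trans hl.le)
  refine ⟨δ, hδ, fun c hc h3 => ?_⟩
  have h4 := h1 (c + θ) (add_mem hc hθ) (by
    have e : z - (c + θ) = z - θ - c := by ring
    rw [e]
    exact h3)
  have e : Φ l c = Φ l (c + θ) - Φ l θ := by
    rw [hΦ.add l c hc θ hθ]
    ring
  show v.Ge (ρ - l * σ) (Φ l c)
  rw [e]
  exact h4.sub h2

variable [IsAlgClosed Ω]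

/-- **The floors over the image of `T`.** -/
theorem near_down (hT : Near v T κ) (hκ : 0 < κ) (hΦ : HSd C Φ) (hoi : Oi v C σ Φ)
    (hz : TL v T.fieldRange z ρ) (hf : FinSh v T.fieldRange σ ρ (tr T Φ) z) :
    ∃ z' : Ω, v.Ge (ρ - κ + κ / 2) z' ∧ TL v C z' ρ ∧ FinSh v C σ ρ Φ z' ∧
      cadj v T.fieldRange z = cadj v T.fieldRange z' := by
  obtain ⟨θ, hθ, h1⟩ := hz.lim (κ / 2) (half_pos hκ)
  obtain ⟨S, hS, hST, hSr⟩ := exists_near_inv hT hκ
  have h1' : v.Ge (ρ - κ + κ / 2) (z - θ) := h1.mono (by linarith)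
  have h2 : TL v T.fieldRange (z - θ) ρ := hz.sub_mem hθ
  have h3 := near_TL h2 hS hκ (half_pos hκ) h1'
  rw [hSr] at h3
  have h4 := FinSh.sub (tr_hsd hΦ) (tr_oi (hT.iv hκ) hΦ hoi) hf hθ
  refine ⟨z - θ, h1', h3, ?_, (cadj_sub_mem hθ).symm⟩
  obtain ⟨L, hL⟩ := h4
  refine ⟨L, fun l hl => ?_⟩
  obtain ⟨δ, hδ, h5⟩ := hL l hl
  refine ⟨min δ (κ / 2), lt_min hδ (half_pos hκ), fun c hc h6 => ?_⟩
  have h7 : v.Ge (ρ - κ / 2) c := by
    have e : c = (z - θ) - (z - θ - c) := by ring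
    rw [e]
    exact h1.sub (h6.mono (by linarith [min_le_right δ (κ / 2)]))
  have h8 := hT ⟨c, hc⟩ _ h7
  have h9 : v.Ge (ρ - l * σ) (tr T Φ l (T ⟨c, hc⟩)) := h5 (T ⟨c, hc⟩) (rg_mem _) (by
    have e : z - θ - T ⟨c, hc⟩ = (z - θ - c) - (T ⟨c, hc⟩ - c) := by ring
    rw [e]
    exact (h6.mono (by linarith [min_le_left δ (κ / 2)])).sub (h8.mono (by linarith)))
  rw [tr_apply (x := ⟨c, hc⟩) (hΦ.mem l c hc), (hT.iv hκ) _ _] at h9
  exact h9

/-- The image of a floor. -/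
theorem near_floor (hΩ : CompleteV v) (hw : TL v C w ρ) {T : cadj v C w →ₐ[k] Ω}
    (hT : Near v T κ) (hκ : 0 < κ) :
    ∃ S : C →ₐ[k] Ω, Near v S κ ∧ TL v S.fieldRange (T ⟨w, self_mem_cadj v C w⟩) ρ ∧
      T.fieldRange = cadj v S.fieldRange (T ⟨w, self_mem_cadj v C w⟩) := by
  have hle : C ≤ cadj v C w := le_cadj v C w
  set S : C →ₐ[k] Ω := T.comp (IntermediateField.inclusion hle) with hSdef
  have hS1 : ∀ x : C, S x = T ⟨x, hle x.2⟩ := fun x => rfl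
  have hS : Near v S κ := fun x b hb => hT ⟨x, hle x.2⟩ b hb
  obtain ⟨θ, hθ, h1⟩ := hw.lim (κ / 2) (half_pos hκ)
  have h1' : v.Ge (ρ - κ + κ / 2) (w - θ) := h1.mono (by linarith)
  have h2 := near_TL (hw.sub_mem hθ) hS hκ (half_pos hκ) h1'
  have hwm := self_mem_cadj v C w
  have h3 : v.Ge (ρ + κ / 2) (T (⟨w, hwm⟩ - ⟨θ, hle hθ⟩) - (w - θ)) :=
    (hT (⟨w, hwm⟩ - ⟨θ, hle hθ⟩) _ h1).mono (by linarith)
  have h4 : TL v S.fieldRange (T (⟨w, hwm⟩ - ⟨θ, hle hθ⟩)) ρ :=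
    h2.congr (Gt.of_ge h3 (by linarith))
  have h5 : TL v S.fieldRange (T ⟨w, hwm⟩) ρ := by
    have h6 := h4.sub_mem (e := -(S ⟨θ, hθ⟩)) (neg_mem (rg_mem _))
    rw [map_sub, hS1] at h6
    have e : T ⟨w, hwm⟩ - T ⟨θ, hle hθ⟩ - -T ⟨θ, hle hθ⟩ = T ⟨w, hwm⟩ := by ring
    rwa [e] at h6
  refine ⟨S, hS, h5, le_antisymm ?_ ?_⟩
  · intro y hy
    obtain ⟨x, rfl⟩ := AlgHom.mem_fieldRange.1 hy
    refine cld_cadj v _ _ (mem_clI.2 fun b => ?_)
    obtain ⟨P, hP⟩ := exists_poly hw x.2 b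
    have hPm : (P.map (algebraMap C Ω)).eval w ∈ cadj v C w := eval_mem_cadj (map_mem_PI P)
    refine ⟨T ⟨_, hPm⟩, ?_, ?_⟩
    · have e : (⟨(P.map (algebraMap C Ω)).eval w, hPm⟩ : cadj v C w) =
          (P.map (IntermediateField.inclusion hle : C →+* cadj v C w)).eval ⟨w, hwm⟩ := by
        refine Subtype.ext ?_
        show (P.map (algebraMap C Ω)).eval w = ((cadj v C w).val : cadj v C w →+* Ω) _
        rw [← Polynomial.eval₂_at_apply, Polynomial.eval₂_map, Polynomial.eval_map]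
        rfl
      rw [e]
      have e2 : T ((P.map (IntermediateField.inclusion hle : C →+* cadj v C w)).eval ⟨w, hwm⟩) =
          (P.map (S : C →+* Ω)).eval (T ⟨w, hwm⟩) := by
        show (T : cadj v C w →+* Ω) _ = _
        rw [← Polynomial.eval₂_at_apply, Polynomial.eval₂_map, Polynomial.eval_map]
        rfl
      rw [e2]
      refine eval_mem (fun i => ?_) (self_mem_cadj _ _ _)
      rw [coeff_map]
      exact le_cadj _ _ _ (rg_mem _)
    · rw [← map_sub, (hT.iv hκ) _ _]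
      exact hP
  · refine cadj_le (hT.cld hΩ hκ (cld_cadj v C w)) ?_ (rg_mem _)
    intro y hy
    obtain ⟨x, rfl⟩ := mem_rg hy
    exact rg_mem _

end Near

end Pool.Agent.TWEX
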