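import Pool.Agent.Lib.TWN1.GabF

/-!
# TANK W: unhit elements are linear up to `p`-th powers

`radu`: `a` of level `ν`, unhit by `z` over `E`: `a = e z + c + G ^ p + {> ν}`, `e`, `c` in `E`,
`v e = ν - s` if `e ≠ 0`.
-/

set_option autoImplicit false

open Polynomial Finset

namespace Pool.Agent.TWEX

open Pool.Agent.H15JM (RVal)
open Pool.Agent.TWM
open Pool.Agent.TWII (PG LP)
open Pool.Agent.TWN1 (Unh PC)

universe u

variable {k Ω : Type u} [Field k] [Field Ω] [Algebra k Ω] {v : RVal Ω}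
  {E K : IntermediateField k Ω} {p : ℕ} [hp : Fact p.Prime] [CharP Ω p] {s ν : ℝ} {a z : Ω}

theorem ge_of_lt {x : Ω} {c : ℝ} (h : ∀ b : ℝ, b < c → v.Ge b x) : v.Ge c x := fun h0 =>
  le_of_forall_lt fun b hb => by
    obtain ⟨b', h1, h2⟩ := exists_between hb
    exact h1.trans_le (h b' h2 h0)

/-- Jets of order prime to `p` of limits of `p`-th powers. -/
theorem jet_ge [IsAlgClosed Ω] (hz : TL v E z s) {f : Polynomial Ω} (hf : f ∈ PI E)
    (hl : LP p v (cadj v E z) ν (f.eval z)) {l : ℕ} (hpl : ¬ p ∣ l) :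
    v.Ge (ν - l * s) ((hasseDeriv l f).eval z) := by
  refine ge_of_lt fun b hb => ?_
  have h1 := hl.pc (c' := b + l * s) (by linarith)
  exact (PC.jet_gt hz hf h1 hpl).ge.mono (by linarith)

/-- Jets of order prime to `p` and `≥ 2` are null. -/
theorem jet_null [IsAlgClosed Ω] (hz : TL v E z s) {f : Polynomial Ω} (hf : f ∈ PI E)
    (hl : LP p v (cadj v E z) ν (f.eval z))
    (hu : ∀ l : ℕ, p ∣ l → l ≠ 0 → PG p v (cadj v E z) (ν - l * s) ((hasseDeriv l f).eval z))
    {l : ℕ} (hpl : ¬ p ∣ l) (hl1 : l ≠ 1) :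
    Gt v (ν - l * s) ((hasseDeriv l f).eval z) := by
  have hpos := hp.out.pos
  have hl0 : l ≠ 0 := fun h => hpl (h ▸ dvd_zero p)
  have hmod : l % p ≠ 0 := fun h => hpl (Nat.dvd_of_mod_eq_zero h)
  by_cases ha : l / p = 0
  · -- `2 ≤ l < p`
    have hlp : l < p := by
      rcases (Nat.div_eq_zero_iff).1 ha with h | h
      · omega
      · exact h
    have h1 : v.Ge (ν - (l - 1 : ℕ) * s) ((hasseDeriv (l - 1) f).eval z) :=
      jet_ge hz hf hl fun h => by
        have := Nat.le_of_dvd (by omega) h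
        omega
    have h2 := TWLM.poly_str hz (TWLM.hasseDeriv_mem_PI hf (l - 1)) one_ne_zero h1
    have h3 := LinearMap.congr_fun (hasseDeriv_comp (R := Ω) 1 (l - 1)) f
    rw [LinearMap.comp_apply, LinearMap.smul_apply, show 1 + (l - 1) = l by omega,
      Nat.choose_one_right] at h3
    rw [h3, nsmul_eq_mul, eval_mul, eval_natCast] at h2
    have hne : ((l : ℕ) : Ω) ≠ 0 := fun h => hpl ((CharP.cast_eq_zero_iff Ω p l).1 h)
    have h4 : v ((l : ℕ) : Ω) = 0 := (TWM.val_natCast p hpl).2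
    intro h5
    have h6 := h2 (mul_ne_zero hne h5)
    rw [v.map_mul hne h5, h4, zero_add] at h6
    have h7 : ((l - 1 : ℕ) : ℝ) = l - 1 := by
      rw [Nat.cast_sub (by omega), Nat.cast_one]
    rw [h7] at h6
    push_cast at h6
    linarith
  · -- `l = a p + j`
    have hap : p * (l / p) ≠ 0 := Nat.mul_ne_zero hpos.ne' ha
    obtain ⟨G, hG, h1⟩ := TWII.PG.exists_poly hz (hu (p * (l / p)) (dvd_mul_right _ _) hap)
    have h2 := TWLM.poly_str hz (sub_mem (TWLM.hasseDeriv_mem_PI hf (p * (l / p)))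
      (pow_mem hG p)) hmod h1.ge
    rw [map_sub, eval_sub, TWN1.hasse_pow, if_neg fun h => hmod (Nat.mod_mod l p ▸
      Nat.mod_eq_zero_of_dvd h), sub_zero] at h2
    have h3 := LinearMap.congr_fun (hasseDeriv_comp (R := Ω) (l % p) (p * (l / p))) f
    rw [LinearMap.comp_apply, LinearMap.smul_apply, Nat.mod_add_div] at h3
    rw [h3, nsmul_eq_mul, eval_mul, eval_natCast] at h2
    have hch : ¬ p ∣ l.choose (l % p) := by
      have h4 := Choose.choose_modEq_choose_mod_mul_choose_div_nat (p := p) (n := l) (k := l % p)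
      rw [Nat.mod_mod, Nat.choose_self, one_mul, Nat.div_eq_of_lt (Nat.mod_lt l hpos),
        Nat.choose_zero_right] at h4
      intro h5
      have h6 : 1 ≡ 0 [MOD p] := h4.symm.trans (Nat.modEq_zero_iff_dvd.2 h5)
      have h7 := Nat.le_of_dvd one_pos ((Nat.modEq_zero_iff_dvd).1 h6)
      have := hp.out.two_le
      omega
    have hne : ((l.choose (l % p) : ℕ) : Ω) ≠ 0 := fun h =>
      hch ((CharP.cast_eq_zero_iff Ω p _).1 h)
    have h4 : v ((l.choose (l % p) : ℕ) : Ω) = 0 := (TWM.val_natCast p hch).2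
    intro h5
    have h6 := h2 (mul_ne_zero hne h5)
    rw [v.map_mul hne h5, h4, zero_add] at h6
    have h7 : (l : ℝ) = (l % p : ℕ) + (p * (l / p) : ℕ) := by
      rw [← Nat.cast_add, Nat.mod_add_div]
    rw [h7]
    push_cast at h6 ⊢
    linarith

/-- **RADU**: unhit elements are linear up to `p`-th powers. -/
theorem radu [IsAlgClosed Ω] (hz : TL v E z s) (hK : K = cadj v E z) (hlp : LP p v K ν a)
    (hu : Unh p v E K z s ν a) :
    ∃ e ∈ E, ∃ c ∈ E, ∃ G ∈ K, (e ≠ 0 → v e = ν - s) ∧ Gt v ν (a - e * z - c - G ^ p) := by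
  subst hK
  obtain ⟨f, hf, ⟨G₀, hG₀, h1⟩, h2⟩ := hu
  have hlf : LP p v (cadj v E z) ν (f.eval z) := by
    have h3 := hlp.sub (TWII.LP.of_pg ⟨G₀, hG₀, h1⟩)
    rwa [sub_sub_cancel] at h3
  have h2' : ∀ l : ℕ, p ∣ l → l ≠ 0 →
      PG p v (cadj v E z) (ν - l * s) ((hasseDeriv l f).eval z) := fun l h3 h4 => by
    have h5 := h2 l h3 h4
    rwa [taylor_coeff] at h5
  -- the normal form of the jets
  have hex : ∀ l : ℕ, ∃ h ∈ cadj v E z, ∃ e ∈ E, ∃ μ : ℝ, 0 < μ ∧ (l ≠ 0 →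
      v.Ge (ν - l * s + μ) ((hasseDeriv l f).eval z - h ^ p - e)) ∧ (¬ p ∣ l → h = 0) ∧
      (l ≠ 1 → e = 0) ∧ (e ≠ 0 → v e = ν - s) := by
    intro l
    by_cases hl0 : l = 0
    · exact ⟨0, zero_mem _, 0, zero_mem _, 1, one_pos, fun h => absurd hl0 h, fun _ => rfl,
        fun _ => rfl, fun h => absurd rfl h⟩
    by_cases hpl : p ∣ l
    · obtain ⟨h, hh, h3⟩ := h2' l hpl hl0
      obtain ⟨μ, hμ, h4⟩ := TWLM.exists_ge_of_gt h3
      refine ⟨h, hh, 0, zero_mem _, μ, hμ, fun _ => ?_, fun h => absurd hpl h, fun _ => rfl,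
        fun h => absurd rfl h⟩
      rwa [sub_zero]
    by_cases hl1 : l = 1
    · subst hl1
      by_cases h3 : Gt v (ν - (1 : ℕ) * s) ((hasseDeriv 1 f).eval z)
      · obtain ⟨μ, hμ, h4⟩ := TWLM.exists_ge_of_gt h3
        refine ⟨0, zero_mem _, 0, zero_mem _, μ, hμ, fun _ => ?_, fun _ => rfl, fun _ => rfl,
          fun h => absurd rfl h⟩
        rwa [zero_pow hp.out.ne_zero, sub_zero, sub_zero]
      · have h4 := jet_ge hz hf hlf hpl
        unfold Gt at h3
        push Not at h3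
        obtain ⟨h5, h6⟩ := h3
        have h7 : v ((hasseDeriv 1 f).eval z) = ν - s := by
          have h8 := h4 h5
          push_cast at h6 h8
          linarith
        obtain ⟨e, he, h8⟩ := hz.imm.imm _ (TWLM.eval_mem_cadj
          (TWLM.hasseDeriv_mem_PI hf 1)) h5
        obtain ⟨h9, h10⟩ := Gt.val_eq h5 h8
        rw [h7] at h8
        obtain ⟨μ, hμ, h11⟩ := TWLM.exists_ge_of_gt h8
        refine ⟨0, zero_mem _, e, he, μ, hμ, fun _ => ?_, fun _ => rfl, fun h => absurd rfl h,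
          fun _ => by rw [h10, h7]⟩
        rw [zero_pow hp.out.ne_zero, sub_zero]
        push_cast
        rwa [one_mul]
    · have h3 := jet_null hz hf hlf h2' hpl hl1
      obtain ⟨μ, hμ, h4⟩ := TWLM.exists_ge_of_gt h3
      refine ⟨0, zero_mem _, 0, zero_mem _, μ, hμ, fun _ => ?_, fun _ => rfl, fun _ => rfl,
        fun h => absurd rfl h⟩
      rwa [zero_pow hp.out.ne_zero, sub_zero, sub_zero]
  choose h hh e he μ hμ h3 h4 h5 h6 using hex
  -- the margin
  obtain ⟨N, hN, hN2⟩ : ∃ N : ℕ, f.natDegree < N ∧ 2 ≤ N := ⟨f.natDegree + 2, by omega, by omega⟩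
  obtain ⟨m, hm, hm1⟩ : ∃ m : ℝ, 0 < m ∧ ∀ l < N, m ≤ μ l := by
    clear hN hN2
    induction N with
    | zero => exact ⟨1, one_pos, fun l hl => absurd hl (by omega)⟩
    | succ N ih =>
      obtain ⟨m, hm, h7⟩ := ih
      refine ⟨min m (μ N), lt_min hm (hμ N), fun l hl => ?_⟩
      rcases Nat.lt_succ_iff_lt_or_eq.1 hl with h8 | h8
      · exact (min_le_left _ _).trans (h7 l h8)
      · exact h8 ▸ min_le_right _ _
  have hN0 : (0 : ℝ) < N + 1 := by positivity
  obtain ⟨θ, hθ, h7⟩ := hz.lim (m / (2 * (N + 1))) (by positivity)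
  have hterm : ∀ l < N, l ≠ 0 →
      Gt v ν (((hasseDeriv l f).eval z - h l ^ p - e l) * (θ - z) ^ l) := by
    intro l hl hl0
    have h8 : v.Ge (s - m / (2 * (N + 1))) (θ - z) := by
      have h9 := h7.neg
      rwa [neg_sub] at h9
    have h9 : v.Ge (l * (s - m / (2 * (N + 1)))) ((θ - z) ^ l) := ge_pow h8 l
    refine Gt.of_ge ((h3 l hl0).mul h9) ?_
    have h10 : (l : ℝ) * (m / (2 * (N + 1))) ≤ m / 2 := by
      have h11 : (l : ℝ) ≤ N + 1 := by
        have : (l : ℝ) < N := by exact_mod_cast hl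
        linarith
      calc (l : ℝ) * (m / (2 * (N + 1))) ≤ (N + 1) * (m / (2 * (N + 1))) :=
            mul_le_mul_of_nonneg_right h11 (by positivity)
        _ = m / 2 := by field_simp
    have h11 := hm1 l hl
    have h12 : ν - l * s + μ l + l * (s - m / (2 * (N + 1))) =
        ν + μ l - l * (m / (2 * (N + 1))) := by ring
    rw [h12]
    linarith
  -- Taylor
  have hT : f.eval θ = ∑ l ∈ range N, (hasseDeriv l f).eval z * (θ - z) ^ l := by
    have h8 := taylor_eval_sub z f θ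
    rw [← h8, eval_eq_sum_range' (n := N) (by rwa [natDegree_taylor])]
    exact sum_congr rfl fun l _ => by rw [taylor_coeff]
  have hzK : z ∈ cadj v E z := self_mem_cadj v E z
  have hθK : θ ∈ cadj v E z := le_cadj v E z hθ
  -- the `p`-th powers
  have hpow : ∀ l, h l ^ p * (θ - z) ^ l = (h l * (θ - z) ^ (l / p)) ^ p := by
    intro l
    by_cases hpl : p ∣ l
    · rw [mul_pow, ← pow_mul, Nat.div_mul_cancel hpl]
    · rw [h4 l hpl, zero_pow hp.out.ne_zero, zero_mul, zero_mul, zero_pow hp.out.ne_zero]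
  -- the sum without the constant term
  obtain ⟨M, rfl⟩ : ∃ M, N = M + 1 := ⟨N - 1, by omega⟩
  rw [sum_range_succ', hasseDeriv_zero', pow_zero, mul_one] at hT
  refine ⟨e 1, he 1, f.eval θ - e 1 * θ, sub_mem (eval_mem hf hθ) (mul_mem (he 1) hθ),
    G₀ - ∑ l ∈ range M, h (l + 1) * (θ - z) ^ ((l + 1) / p),
    sub_mem hG₀ (sum_mem fun l _ => mul_mem (hh _) (pow_mem (sub_mem hθK hzK) _)), h6 1, ?_⟩
  have hes : ∑ l ∈ range M, e (l + 1) * (θ - z) ^ (l + 1) = e 1 * (θ - z) := by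
    rw [sum_eq_single 0]
    · rw [zero_add, pow_one]
    · intro l _ hl
      rw [h5 (l + 1) (by omega), zero_mul]
    · intro h9
      exact absurd (mem_range.2 (by omega)) h9
  have hgs : (∑ l ∈ range M, h (l + 1) * (θ - z) ^ ((l + 1) / p)) ^ p =
      ∑ l ∈ range M, h (l + 1) ^ p * (θ - z) ^ (l + 1) := by
    rw [sum_pow_char]
    exact sum_congr rfl fun l _ => (hpow (l + 1)).symm
  have hfin : a - e 1 * z - (f.eval θ - e 1 * θ) -
      (G₀ - ∑ l ∈ range M, h (l + 1) * (θ - z) ^ ((l + 1) / p)) ^ p =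
      (a - f.eval z - G₀ ^ p) - ∑ l ∈ range M,
        ((hasseDeriv (l + 1) f).eval z - h (l + 1) ^ p - e (l + 1)) * (θ - z) ^ (l + 1) := by
    have e2 : ∑ l ∈ range M,
        ((hasseDeriv (l + 1) f).eval z - h (l + 1) ^ p - e (l + 1)) * (θ - z) ^ (l + 1) =
        ∑ l ∈ range M, (hasseDeriv (l + 1) f).eval z * (θ - z) ^ (l + 1) -
        ∑ l ∈ range M, h (l + 1) ^ p * (θ - z) ^ (l + 1) -
        ∑ l ∈ range M, e (l + 1) * (θ - z) ^ (l + 1) := by
      rw [← sum_sub_distrib, ← sum_sub_distrib]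
      exact sum_congr rfl fun l _ => by ring
    rw [e2, hes, sub_pow_char, hgs, hT]
    ring
  rw [hfin]
  exact h1.sub (Gt.sum _ _ fun l hl => hterm (l + 1) (by
    have := mem_range.1 hl
    omega) (by omega))

end Pool.Agent.TWEX
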