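import Pool.Agent.Lib.TWN1.Trunc2
import Pool.Agent.Lib.TWN1.Chain0

/-!
# TANK W, line (II), residual constants, 1: the relation

`z` of transcendental type over `F`, radius `s`, with finite visible shape along the strict
overconvergent arc `Φ` of `F`; `B(z) = a₀ + e z + ∑ A i z ^ p ^ (i + 1)` critical of level `ν`
(the output of `TWII.soc`). For all large `n` the element
`∑ A i (Z_(n / p ^ (i + 1))) ^ p ^ (i + 1)` is in `F ^ p + O(> ν - n σ)`.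
-/

set_option autoImplicit false

open Polynomial Finset

namespace Pool.Agent.TWEX

open Pool.Agent.H15JM (RVal)
open Pool.Agent.TWM
open Pool.Agent.TWII (PG LP)
open Pool.Agent.TWLM (HSd Oi Arc)
open Pool.Agent.TWN1 (Set0 pg_of_lp lp_mul_powq pg_mul_powq)

universe u

variable {k Ω : Type u} [Field k] [Field Ω] [Algebra k Ω] {v : RVal Ω}
  {F : IntermediateField k Ω} {Φ : ℕ → Ω → Ω} {z : Ω} {Z : PowerSeries Ω} {κ : ℕ → ℝ}
  {s σ ν : ℝ} {p : ℕ} [hp : Fact p.Prime] [CharP Ω p]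

omit hp [CharP Ω p] in
/-- The elements of value `≥ c` are in `F ^ p + O(> c)` if `F` is immediate over `F ^ p`. -/
theorem pg_of_ge [hp : Fact p.Prime]
    (hperf : ∀ x ∈ F, x ≠ 0 → ∃ g ∈ F, Gt v (v x) (x - g ^ p)) {c : ℝ} {x : Ω}
    (hx : x ∈ F) (h : v.Ge c x) : PG p v F c x := by
  by_cases h0 : x = 0
  · rw [h0]
    exact .of_gt Gt.zero
  · obtain ⟨g, hg, h1⟩ := hperf x hx h0
    exact ⟨g, hg, fun h2 => (h h0).trans_lt (h1 h2)⟩

/-- **The relation.** -/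
theorem rel_large (hΦ : Arc v F σ Φ) (ho : Oi v F σ Φ) (h : Set0 v F Φ z Z κ s σ)
    (hperf : ∀ x ∈ F, x ≠ 0 → ∃ g ∈ F, Gt v (v x) (x - g ^ p)) {L : ℕ}
    (hL : ∀ n : ℕ, L < n → v.Ge (s - n * σ) (PowerSeries.coeff n Z))
    {e a₀ : Ω} {A : ℕ → Ω} {S : ℕ} (he : e ∈ F) (ha₀ : a₀ ∈ F) (hA : ∀ i, A i ∈ F)
    (hge : v.Ge (ν - s) e) (hA0 : ∀ i, LP p v F (ν - (p ^ (i + 1) : ℕ) * s) (A i))
    (hB : ∀ ε : ℝ, 0 < ε → ∃ δ : ℝ, 0 < δ ∧ ∀ θ ∈ F, v.Ge (s - δ) (z - θ) → ∃ g ∈ F,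
      v.Ge (ν - ε) (a₀ + e * θ + ∑ i ∈ range (S + 1), A i * θ ^ p ^ (i + 1) - g ^ p)) :
    ∃ n₁ : ℕ, ∀ n : ℕ, n₁ ≤ n → PG p v F (ν - n * σ) (∑ i ∈ range (S + 1),
      if p ^ (i + 1) ∣ n then A i * PowerSeries.coeff (n / p ^ (i + 1)) Z ^ p ^ (i + 1) else 0) := by
  classical
  have hp0 : 0 < p := hp.out.pos
  have hWn := TWII.Wn.of_arc hΦ
  -- the terms
  obtain ⟨Le, hLe⟩ := TWII.term_err p hΦ.toHSd hWn ho h.tl.lim he 0 (τ := ν - s) (fun n hn =>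
    TWII.null_of_arc p hΦ he (j := 0) (fun ε hε => ⟨0, F.zero_mem, fun _ => rfl, by
      rw [zero_pow hp.out.ne_zero, sub_zero]
      exact hge.mono (by linarith)⟩) n hn)
  have hT : ∀ i : ℕ, ∃ L : ℕ, ∀ l : ℕ, L ≤ l → TWII.Nr v F s z fun θ =>
      PG p v F (ν - (p ^ (i + 1) : ℕ) * s + (p : ℝ) ^ (i + 1) * s - l * σ)
        (Φ l (A i * θ ^ p ^ (i + 1)) -
          if p ^ (i + 1) ∣ l then A i * (Φ (l / p ^ (i + 1)) θ) ^ p ^ (i + 1) else 0) := by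
    intro i
    refine TWII.term_err p hΦ.toHSd hWn ho h.tl.lim (hA i) (i + 1) fun n hn => ?_
    refine TWII.null_of_arc p hΦ (hA i) (j := i + 1) (fun ε hε => ?_) n hn
    obtain ⟨w, hw, h1⟩ := hA0 i ε hε
    exact ⟨w, hw, fun h0 => absurd h0 (Nat.succ_ne_zero i), h1⟩
  choose LA hLA using hT
  obtain ⟨L₀, hL₀⟩ := ho a₀ ha₀ (ν + 1)
  set n₁ : ℕ := max (max L₀ Le) (max (L + 1) ((range (S + 1)).sup fun i => max (LA i)
    (p ^ (i + 1)))) with hn₁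
  refine ⟨n₁, fun n hn => ?_⟩
  have hn0 : n ≠ 0 := by
    have := (le_max_left (L + 1) _).trans ((le_max_right _ _).trans (hn₁ ▸ hn))
    omega
  have hnL : L < n := by
    have := (le_max_left (L + 1) _).trans ((le_max_right _ _).trans (hn₁ ▸ hn))
    omega
  have hnS : ∀ i ∈ range (S + 1), LA i ≤ n ∧ p ^ (i + 1) ≤ n := by
    intro i hi
    have h1 := Finset.le_sup (f := fun i => max (LA i) (p ^ (i + 1))) hi
    have h2 : max (LA i) (p ^ (i + 1)) ≤ n :=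
      h1.trans ((le_max_right (L + 1) _).trans ((le_max_right _ _).trans (hn₁ ▸ hn)))
    exact ⟨(le_max_left _ _).trans h2, (le_max_right _ _).trans h2⟩
  have hnL₀ : L₀ ≤ n := (le_max_left L₀ Le).trans ((le_max_left _ _).trans (hn₁ ▸ hn))
  have hnLe : Le ≤ n := (le_max_right L₀ Le).trans ((le_max_left _ _).trans (hn₁ ▸ hn))
  -- the margin of `Φ n`
  obtain ⟨m, hm, hstr⟩ := hΦ.str n hn0
  obtain ⟨δB, hδB, hBn⟩ := hB ((n * σ - m) / 2) (by linarith)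
  -- the choice of `θ`
  have hN : TWII.Nr v F s z fun θ =>
      ∀ i ∈ range (S + 1), PG p v F (ν - (p ^ (i + 1) : ℕ) * s + (p : ℝ) ^ (i + 1) * s - n * σ)
        (Φ n (A i * θ ^ p ^ (i + 1)) -
          if p ^ (i + 1) ∣ n then A i * (Φ (n / p ^ (i + 1)) θ) ^ p ^ (i + 1) else 0) :=
    TWII.Nr.all _ fun i hi => hLA i n (hnS i hi).1
  obtain ⟨κ', hκ'0, hκ'⟩ : ∃ κ' : ℝ, 0 < κ' ∧ ∀ j ∈ range (n + 1), κ' ≤ κ j := by
    refine ⟨(range (n + 1)).inf' ⟨0, by simp⟩ κ, ?_, fun j hj => Finset.inf'_le _ hj⟩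
    rw [Finset.lt_inf'_iff]
    exact fun j _ => h.kpos j
  obtain ⟨θ, hθ, ⟨⟨h1, h2⟩, h3⟩, h4⟩ := (((hN.and (hLe n hnLe)).and
    (TWII.Nr.near (half_pos hκ'0))).and (TWII.Nr.near hδB)).exists h.tl.lim
  obtain ⟨g, hg, h5⟩ := hBn θ hθ h4
  -- the jets of `θ`
  have hjet : ∀ j : ℕ, j ≠ 0 → j ≤ n →
      v.Ge (s - j * σ + κ' / 2) (Φ j θ - PowerSeries.coeff j Z) := by
    intro j hj hjn
    have h6 := h.near j hj θ hθ _ h3
    have h7 : κ' ≤ κ j := hκ' j (mem_range.2 (by omega))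
    refine ge_sub_comm (h6.mono ?_)
    have : s + κ' / 2 ≤ min (s - κ' / 2 + κ j) (s + κ j / 2) := le_min (by linarith) (by linarith)
    linarith
  -- the value of `B`
  have hBF : a₀ + e * θ + ∑ i ∈ range (S + 1), A i * θ ^ p ^ (i + 1) ∈ F :=
    add_mem (add_mem ha₀ (mul_mem he hθ)) (sum_mem fun i _ => mul_mem (hA i) (pow_mem hθ _))
  have h6 : PG p v F (ν - n * σ)
      (Φ n (a₀ + e * θ + ∑ i ∈ range (S + 1), A i * θ ^ p ^ (i + 1))) := by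
    obtain ⟨w, hw, -, h7⟩ := TWII.null_of_arc p hΦ (pow_mem hg p) (j := 1) (τ := ν)
      (fun ε hε => ⟨g, hg, fun h0 => absurd h0 one_ne_zero, by
        rw [sub_self]
        exact RVal.Ge.zero⟩) n hn0
    have e1 : Φ n (a₀ + e * θ + ∑ i ∈ range (S + 1), A i * θ ^ p ^ (i + 1)) =
        Φ n (g ^ p) + Φ n (a₀ + e * θ + ∑ i ∈ range (S + 1), A i * θ ^ p ^ (i + 1) - g ^ p) := by
      rw [← hΦ.add n _ (pow_mem hg p) _ (sub_mem hBF (pow_mem hg p)), add_sub_cancel]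
    rw [e1]
    refine PG.add ⟨w, hw, h7⟩ (.of_gt ?_)
    exact Gt.of_ge (hstr _ (sub_mem hBF (pow_mem hg p)) _ h5) (by linarith)
  -- the expansion
  have e2 : Φ n (a₀ + e * θ + ∑ i ∈ range (S + 1), A i * θ ^ p ^ (i + 1)) =
      Φ n a₀ + Φ n (e * θ) + ∑ i ∈ range (S + 1), Φ n (A i * θ ^ p ^ (i + 1)) := by
    rw [hΦ.add n _ (add_mem ha₀ (mul_mem he hθ)) _
      (sum_mem fun i _ => mul_mem (hA i) (pow_mem hθ _)), hΦ.add n _ ha₀ _ (mul_mem he hθ)]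
    congr 1
    exact TWLM.HSd.sum hΦ.toHSd n _ _ fun i _ => mul_mem (hA i) (pow_mem hθ _)
  have h7 : PG p v F (ν - n * σ) (Φ n a₀) :=
    .of_gt (Gt.of_ge (hL₀ n hnL₀) (by linarith))
  have h8 : PG p v F (ν - n * σ) (Φ n (e * θ)) := by
    have h9 : PG p v F (ν - n * σ) (e * Φ n θ) := by
      refine pg_of_ge hperf (mul_mem he (hΦ.mem n θ hθ)) ?_
      have e3 : Φ n θ = PowerSeries.coeff n Z + (Φ n θ - PowerSeries.coeff n Z) := by ring
      rw [e3]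
      exact (hge.mul ((hL n hnL).add ((hjet n hn0 le_rfl).mono (by linarith)))).mono (by linarith)
    have e4 : Φ n (e * θ) = (Φ n (e * θ ^ p ^ 0) -
        if p ^ 0 ∣ n then e * (Φ (n / p ^ 0) θ) ^ p ^ 0 else 0) + e * Φ n θ := by
      rw [pow_zero, pow_one, if_pos (one_dvd n), Nat.div_one, pow_one]
      ring
    rw [e4]
    refine PG.add (h2.mono (by simp)) h9
  -- the terms with `A i`
  have h9 : ∀ i ∈ range (S + 1), PG p v F (ν - n * σ) (Φ n (A i * θ ^ p ^ (i + 1)) -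
      if p ^ (i + 1) ∣ n then A i * PowerSeries.coeff (n / p ^ (i + 1)) Z ^ p ^ (i + 1) else 0) := by
    intro i hi
    have h10 := (h1 i hi).mono (c' := ν - n * σ) (by push_cast; linarith)
    by_cases hin : p ^ (i + 1) ∣ n
    · rw [if_pos hin] at h10 ⊢
      set j := n / p ^ (i + 1) with hj
      have hnj : n = p ^ (i + 1) * j := (Nat.mul_div_cancel' hin).symm
      have hj0 : j ≠ 0 := by
        rintro h0
        rw [h0, mul_zero] at hnj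
        exact hn0 hnj
      have hjn : j ≤ n := Nat.div_le_self _ _
      have h11 := lp_mul_powq (hA0 i) (sub_mem (hΦ.mem j θ hθ) (h.zmem j)) (i := i + 1) (by omega)
        (hjet j hj0 hjn)
      have h12 : PG p v F (ν - n * σ)
          (A i * (Φ j θ - PowerSeries.coeff j Z) ^ p ^ (i + 1)) := by
        refine pg_of_lp h11 ?_
        have h13 : (n : ℝ) = (p : ℝ) ^ (i + 1) * j := by exact_mod_cast hnj
        have h14 : (0 : ℝ) < (p : ℝ) ^ (i + 1) := by positivity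
        rw [h13]
        push_cast
        nlinarith
      rw [sub_pow_char_pow] at h12
      have e5 : Φ n (A i * θ ^ p ^ (i + 1)) - A i * PowerSeries.coeff j Z ^ p ^ (i + 1) =
          (Φ n (A i * θ ^ p ^ (i + 1)) - A i * Φ j θ ^ p ^ (i + 1)) +
          A i * (Φ j θ ^ p ^ (i + 1) - PowerSeries.coeff j Z ^ p ^ (i + 1)) := by ring
      rw [e5]
      exact h10.add h12
    · rw [if_neg hin] at h10 ⊢
      exact h10
  have e6 : (∑ i ∈ range (S + 1), if p ^ (i + 1) ∣ n then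
      A i * PowerSeries.coeff (n / p ^ (i + 1)) Z ^ p ^ (i + 1) else 0) =
      Φ n (a₀ + e * θ + ∑ i ∈ range (S + 1), A i * θ ^ p ^ (i + 1)) - Φ n a₀ - Φ n (e * θ) -
      ∑ i ∈ range (S + 1), (Φ n (A i * θ ^ p ^ (i + 1)) - if p ^ (i + 1) ∣ n then
        A i * PowerSeries.coeff (n / p ^ (i + 1)) Z ^ p ^ (i + 1) else 0) := by
    rw [e2, sum_sub_distrib]
    ring
  rw [e6]
  exact ((h6.sub h7).sub h8).sub (PG.sum _ _ h9)

end Pool.Agent.TWEX
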