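import Pool.Agent.Lib.TWEX.Res1

/-!
# TANK W, line (II), residual constants, 2: recursion and linear algebra

`R j` is the jet of order `p ^ j`. The relation of `Res1` is a recursion: with `i₀` the lowest index
of a coefficient which is not null, `S - i₀` consecutive null combinations
`∑ R (j - t) (c t) ^ p ^ (j - t)` force all the later ones to be null (`null_rec`).
`exists_comb`: such combinations exist, by linear algebra over `k`.
-/

set_option autoImplicit false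

open Polynomial Finset

namespace Pool.Agent.TWEX

open Pool.Agent.H15JM (RVal)
open Pool.Agent.LU1 (VPos)
open Pool.Agent.D2 (Ctx0)
open Pool.Agent.TWM
open Pool.Agent.TWII (PG LP)
open Pool.Agent.TWLM (HSd Oi Arc)
open Pool.Agent.TWN1 (Set0 pg_of_lp lp_mul_powq pg_mul_powq)

universe u

variable {k Ω : Type u} [Field k] [Field Ω] [Algebra k Ω] {v : RVal Ω}
  {C F : IntermediateField k Ω} {Φ : ℕ → Ω → Ω} {z : Ω} {Z : PowerSeries Ω} {κ : ℕ → ℝ}
  {s σ ν : ℝ} {p : ℕ} [hp : Fact p.Prime] [CharP Ω p]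

/-- `Gt` of a power. -/
theorem gt_of_pow {x : Ω} {c : ℝ} {q : ℕ} (hq : 0 < q) (h : Gt v (q * c) (x ^ q)) :
    Gt v c x := by
  intro h0
  have h1 := h (pow_ne_zero q h0)
  rw [v.map_pow h0] at h1
  have h2 : (0 : ℝ) < q := by exact_mod_cast hq
  nlinarith

/-- **The residual constants are in the orders which are powers of `p`.** -/
theorem residue_pow (hΦ : Arc v F σ Φ) (hZ : ∀ n, PowerSeries.coeff n Z ∈ F)
    (hco : ∀ l m : ℕ, l ≠ 0 → Gt v (s - (l + m) * σ) (Φ m (PowerSeries.coeff l Z) -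
      (((l + m).choose m : ℕ) : Ω) * PowerSeries.coeff (l + m) Z)) {L : ℕ}
    (hL : ∀ n : ℕ, L < n → v.Ge (s - n * σ) (PowerSeries.coeff n Z)) {n : ℕ} (hn : 2 * L < n)
    (hnp : ∀ i, n ≠ p ^ i) : Gt v (s - n * σ) (PowerSeries.coeff n Z) := by
  obtain ⟨j, hj0, hjn, hj⟩ := TWM.exists_choose hp.out (l := n) (by omega) hnp
  obtain ⟨l, m, hlm, hlL, hm0, hch⟩ : ∃ l m : ℕ, l + m = n ∧ L < l ∧ m ≠ 0 ∧
      ¬ p ∣ (l + m).choose m := by
    rcases le_total j (n - j) with h1 | h1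
    · exact ⟨n - j, j, by omega, by omega, by omega, by rwa [Nat.sub_add_cancel hjn.le]⟩
    · refine ⟨j, n - j, by omega, by omega, by omega, ?_⟩
      rw [Nat.add_sub_cancel' hjn.le, Nat.choose_symm hjn.le]
      exact hj
  have h1 := hco l m (by omega)
  have h2 : Gt v (s - (l + m) * σ) (Φ m (PowerSeries.coeff l Z)) := by
    obtain ⟨c, hc, h3⟩ := hΦ.str m hm0
    exact Gt.of_ge (h3 _ (hZ l) _ (hL l hlL)) (by linarith)
  have h3 : Gt v (s - (l + m) * σ)
      ((((l + m).choose m : ℕ) : Ω) * PowerSeries.coeff (l + m) Z) := by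
    have e : (((l + m).choose m : ℕ) : Ω) * PowerSeries.coeff (l + m) Z =
        Φ m (PowerSeries.coeff l Z) - (Φ m (PowerSeries.coeff l Z) -
          (((l + m).choose m : ℕ) : Ω) * PowerSeries.coeff (l + m) Z) := by ring
    rw [e]
    exact h2.sub h1
  obtain ⟨a, ha⟩ : ∃ a : ℕ, (a : Ω) * (((l + m).choose m : ℕ) : Ω) = 1 := by
    have h4 : Nat.Coprime ((l + m).choose m) p :=
      ((Nat.Prime.coprime_iff_not_dvd hp.out).2 hch).symm
    obtain ⟨a, -, hm⟩ := Nat.exists_mul_mod_eq_one_of_coprime h4 hp.out.one_lt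
    refine ⟨a, ?_⟩
    have h5 : (((l + m).choose m * a : ℕ) : Ω) = ((1 : ℕ) : Ω) :=
      (CharP.natCast_eq_natCast' Ω p (by
        change (l + m).choose m * a % p = 1 % p
        rw [hm, Nat.mod_eq_of_lt hp.out.one_lt]))
    rw [Nat.cast_mul, Nat.cast_one, mul_comm] at h5
    exact h5
  have e : PowerSeries.coeff n Z =
      ((((l + m).choose m : ℕ) : Ω) * PowerSeries.coeff (l + m) Z) * (a : Ω) := by
    rw [mul_right_comm, mul_comm _ (a : Ω), ha, one_mul, hlm]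
  rw [e]
  have h6 := h3.mul_ge (ge_natCast v a)
  rw [add_zero] at h6
  have h7 : ((n : ℕ) : ℝ) = (l : ℝ) + m := by exact_mod_cast hlm.symm
  rwa [h7]

/-- The combinations of the jets of order `p ^ j`. -/
noncomputable def Dj (p : ℕ) (R : ℕ → Ω) (T : Finset ℕ) (c : ℕ → Ω) (j : ℕ) : Ω :=
  ∑ t ∈ T, R (j - t) * c t ^ p ^ (j - t)

section rec

variable {R c : ℕ → Ω} {A : ℕ → Ω} {S i₀ j₁ T₀ : ℕ} {T : Finset ℕ}

omit hp [CharP Ω p] in
theorem dj_mem (hR : ∀ j, R j ∈ F) (hc : ∀ t ∈ T, c t ∈ F) (j : ℕ) : Dj p R T c j ∈ F :=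
  sum_mem fun t ht => mul_mem (hR _) (pow_mem (hc t ht) _)

omit hp [CharP Ω p] in
theorem dj_ge (hR : ∀ j, j₁ ≤ j → v.Ge (s - p ^ j * σ) (R j))
    (hcv : ∀ t ∈ T, v.Ge (σ - p ^ t * σ) (c t)) (hT : ∀ t ∈ T, t ≤ T₀) {j : ℕ}
    (hj : j₁ + T₀ ≤ j) : v.Ge (s - p ^ j * σ) (Dj p R T c j) := by
  refine RVal.Ge.sum _ _ fun t ht => ?_
  have h1 := hT t ht
  refine ((hR (j - t) (by omega)).mul (ge_pow (hcv t ht) (p ^ (j - t)))).mono ?_
  have e : (p : ℝ) ^ j = (p : ℝ) ^ (j - t) * p ^ t := by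
    rw [← pow_add, Nat.sub_add_cancel (by omega)]
  rw [e]
  push_cast
  ring_nf
  exact le_rfl

/-- **The recursion.** -/
theorem null_rec (hA0 : ∀ i, LP p v F (ν - (p ^ (i + 1) : ℕ) * s) (A i)) (hi₀ : i₀ ≤ S)
    (hlow : ∀ i < i₀, PG p v F (ν - (p ^ (i + 1) : ℕ) * s) (A i))
    (htop : ¬ PG p v F (ν - (p ^ (i₀ + 1) : ℕ) * s) (A i₀)) (hRF : ∀ j, R j ∈ F)
    (hR : ∀ j, j₁ ≤ j → v.Ge (s - p ^ j * σ) (R j))
    (hrel : ∀ j, j₁ ≤ j → PG p v F (ν - p ^ j * σ)
      (∑ i ∈ range (S + 1), A i * R (j - (i + 1)) ^ p ^ (i + 1)))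
    (hj₁ : S + 1 ≤ j₁) (hc : ∀ t ∈ T, c t ∈ F) (hcv : ∀ t ∈ T, v.Ge (σ - p ^ t * σ) (c t))
    (hT : ∀ t ∈ T, t ≤ T₀) {J : ℕ} (hJ : j₁ + T₀ ≤ J)
    (hwin : ∀ j, J ≤ j → j < J + (S - i₀) → Gt v (s - p ^ j * σ) (Dj p R T c j)) :
    ∀ j, J ≤ j → Gt v (s - p ^ j * σ) (Dj p R T c j) := by
  have hp0 : 0 < p := hp.out.pos
  have hpr : (0 : ℝ) < p := by exact_mod_cast hp0
  intro j
  induction j using Nat.strong_induction_on with
  | _ j ih =>
  intro hj
  by_cases hjw : j < J + (S - i₀)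
  · exact hwin j hj hjw
  -- the relation at `j + i₀ + 1`
  set j' : ℕ := j + (i₀ + 1) with hj'
  have h1 : PG p v F (ν - p ^ j' * σ) (∑ t ∈ T,
      (∑ i ∈ range (S + 1), A i * R (j' - t - (i + 1)) ^ p ^ (i + 1)) * c t ^ p ^ (j' - t)) := by
    refine PG.sum _ _ fun t ht => ?_
    have h2 := hT t ht
    refine (pg_mul_powq (hrel (j' - t) (by omega)) (hc t ht) (i := j' - t) (by omega)
      (hcv t ht)).mono ?_
    have e : (p : ℝ) ^ j' = (p : ℝ) ^ (j' - t) * p ^ t := by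
      rw [← pow_add, Nat.sub_add_cancel (by omega)]
    rw [e]
    ring_nf
    exact le_rfl
  have e1 : (∑ t ∈ T,
      (∑ i ∈ range (S + 1), A i * R (j' - t - (i + 1)) ^ p ^ (i + 1)) * c t ^ p ^ (j' - t)) =
      ∑ i ∈ range (S + 1), A i * Dj p R T c (j' - (i + 1)) ^ p ^ (i + 1) := by
    simp only [sum_mul]
    rw [sum_comm]
    refine sum_congr rfl fun i hi => ?_
    have hi' := mem_range.1 hi
    rw [Dj, sum_pow_char_pow, mul_sum]
    refine sum_congr rfl fun t ht => ?_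
    have h2 := hT t ht
    have e2 : j' - t - (i + 1) = j' - (i + 1) - t := by omega
    have e3 : j' - (i + 1) - t + (i + 1) = j' - t := by omega
    rw [mul_pow, ← pow_mul (c t), ← pow_add, e3, e2]
    ring
  rw [e1, ← add_sum_erase _ _ (mem_range.2 (by omega : i₀ < S + 1))] at h1
  -- the other terms
  have h2 : PG p v F (ν - p ^ j' * σ) (∑ i ∈ (range (S + 1)).erase i₀,
      A i * Dj p R T c (j' - (i + 1)) ^ p ^ (i + 1)) := by
    refine PG.sum _ _ fun i hi => ?_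
    obtain ⟨hne, hi1⟩ := mem_erase.1 hi
    have hiS := mem_range.1 hi1
    have hDF := dj_mem (p := p) hRF hc (j' - (i + 1))
    have e2 : (p : ℝ) ^ j' = (p : ℝ) ^ (i + 1) * p ^ (j' - (i + 1)) := by
      rw [← pow_add, Nat.add_sub_cancel' (by omega)]
    rcases lt_or_gt_of_ne hne with h3 | h3
    · refine (pg_mul_powq (hlow i h3) hDF (i := i + 1) (by omega)
        (dj_ge hR hcv hT (j := j' - (i + 1)) (by omega))).mono ?_
      rw [e2]
      push_cast
      ring_nf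
      exact le_rfl
    · have h4 := ih (j' - (i + 1)) (by omega) (by omega)
      obtain ⟨μ, hμ, h5⟩ := TWLM.exists_ge_of_gt h4
      refine pg_of_lp (lp_mul_powq (hA0 i) hDF (i := i + 1) (by omega) h5) ?_
      rw [e2]
      have h6 : (0 : ℝ) < (p : ℝ) ^ (i + 1) := by positivity
      push_cast
      nlinarith
  have h3 := h1.sub h2
  rw [add_sub_cancel_right] at h3
  have e2 : j' - (i₀ + 1) = j := by omega
  rw [e2] at h3
  have h4 := TWII.ind_of_not_pg p (S := i₀ + 1) (Nat.succ_ne_zero i₀) htop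
    (dj_mem (p := p) hRF hc j) h3
  refine gt_of_pow (q := p ^ (i₀ + 1)) (pow_pos hp0 _) (h4.mono (le_of_eq ?_))
  rw [hj', pow_add]
  push_cast
  ring

end rec

/-! ### Linear algebra -/

/-- Finitely many elements of value `≥ c` are multiples of one of them, modulo `O(> c)`. -/
theorem exists_ref (h0 : Ctx0 k v) (T : Finset ℕ) (y : ℕ → Ω) {c : ℝ}
    (hy : ∀ t ∈ T, v.Ge c (y t)) : ∃ (w : Ω) (r : ℕ → k), v.Ge c w ∧
      ∀ t ∈ T, Gt v c (y t - algebraMap k Ω (r t) * w) := by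
  by_cases h : ∃ t ∈ T, ¬ Gt v c (y t)
  · obtain ⟨t₀, ht₀, h1⟩ := h
    unfold Gt at h1
    push Not at h1
    obtain ⟨h2, h3⟩ := h1
    have h4 : v (y t₀) = c := le_antisymm h3 (hy t₀ ht₀ h2)
    have h5 : ∀ t ∈ T, ∃ r : k, Gt v c (y t - algebraMap k Ω r * y t₀) := by
      intro t ht
      have h6 : v.Ge 0 (y t / y t₀) := by
        rw [div_eq_mul_inv]
        have h7 : v.Ge (-c) (y t₀)⁻¹ := fun _ => by rw [v.map_inv h2, h4]
        exact ((hy t ht).mul h7).mono (by linarith)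
      obtain ⟨r, hr⟩ := h0.residue h6
      refine ⟨r, ?_⟩
      have e : y t - algebraMap k Ω r * y t₀ = (y t / y t₀ - algebraMap k Ω r) * y t₀ := by
        field_simp
      rw [e]
      have h8 : Gt v 0 (y t / y t₀ - algebraMap k Ω r) := hr
      have h9 := h8.mul_ge (hy t₀ ht₀)
      rwa [zero_add] at h9
    choose! r hr using h5
    exact ⟨y t₀, r, hy t₀ ht₀, hr⟩
  · push Not at h
    refine ⟨0, fun _ => 0, RVal.Ge.zero, fun t ht => ?_⟩
    rw [mul_zero, sub_zero]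
    exact h t ht

/-- **Linear algebra**: combinations which are null on a window. -/
theorem exists_comb [IsAlgClosed k] (h0 : Ctx0 k v) {R x : ℕ → Ω} {T : Finset ℕ} {M J T₀ j₁ : ℕ}
    (hTM : M < T.card) (hT : ∀ t ∈ T, t ≤ T₀) (hx : ∀ t ∈ T, v.Ge (σ - p ^ t * σ) (x t))
    (hR : ∀ j, j₁ ≤ j → v.Ge (s - p ^ j * σ) (R j)) (hJ : j₁ + T₀ ≤ J) :
    ∃ μ : ℕ → k, (∃ t ∈ T, μ t ≠ 0) ∧ ∀ j, J ≤ j → j < J + M →
      Gt v (s - p ^ j * σ) (Dj p R T (fun t => algebraMap k Ω (μ t ^ p ^ t) * x t) j) := by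
  classical
  have hp0 : 0 < p := hp.out.pos
  -- the references
  have h1 : ∀ j : ℕ, J ≤ j → ∃ (w : Ω) (r : ℕ → k), v.Ge (s - p ^ j * σ) w ∧
      ∀ t ∈ T, Gt v (s - p ^ j * σ) (R (j - t) * x t ^ p ^ (j - t) - algebraMap k Ω (r t) * w) := by
    intro j hj
    refine exists_ref h0 T _ fun t ht => ?_
    have h2 := hT t ht
    refine ((hR (j - t) (by omega)).mul (ge_pow (hx t ht) (p ^ (j - t)))).mono ?_
    have e : (p : ℝ) ^ j = (p : ℝ) ^ (j - t) * p ^ t := by
      rw [← pow_add, Nat.sub_add_cancel (by omega)]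
    rw [e]
    push_cast
    ring_nf
    exact le_rfl
  choose! w r hw hr using h1
  have h2 : ∀ j t : ℕ, ∃ ρ : k, ρ ^ p ^ j = r j t := fun j t =>
    IsAlgClosed.exists_pow_nat_eq _ (pow_pos hp0 j)
  choose ρ hρ using h2
  -- the linear map
  let f : (T → k) →ₗ[k] (Fin M → k) :=
    { toFun := fun μ i => ∑ t : T, μ t * ρ (J + i) t
      map_add' := fun μ μ' => by
        funext i
        simp only [Pi.add_apply, add_mul, sum_add_distrib]
      map_smul' := fun c μ => by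
        funext i
        simp only [Pi.smul_apply, smul_eq_mul, RingHom.id_apply, mul_sum, mul_assoc] }
  have h3 : LinearMap.ker f ≠ ⊥ := by
    refine LinearMap.ker_ne_bot_of_finrank_lt ?_
    rw [Module.finrank_fin_fun, Module.finrank_fintype_fun_eq_card, Fintype.card_coe]
    exact hTM
  obtain ⟨μ, hμ, hμ0⟩ := (Submodule.ne_bot_iff _).1 h3
  refine ⟨fun t => if ht : t ∈ T then μ ⟨t, ht⟩ else 0, ?_, fun j hj hjM => ?_⟩
  · by_contra hno
    push Not at hno
    apply hμ0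
    funext t
    have h4 := hno t t.2
    rwa [dif_pos t.2] at h4
  · set μ' : ℕ → k := fun t => if ht : t ∈ T then μ ⟨t, ht⟩ else 0 with hμ'
    have h4 : ∑ t ∈ T, μ' t * ρ j t = 0 := by
      have h5 := congrFun (LinearMap.mem_ker.1 hμ) ⟨j - J, by omega⟩
      change ∑ t : T, μ t * ρ (J + (j - J)) t = 0 at h5
      rw [Nat.add_sub_cancel' hj] at h5
      rw [← h5, ← sum_coe_sort T fun t => μ' t * ρ j t]
      refine sum_congr rfl fun t _ => ?_
      rw [hμ']
      beta_reduce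
      rw [dif_pos t.2]
    have h5 : ∑ t ∈ T, μ' t ^ p ^ j * r j t = 0 := by
      have h6 := congrArg (fun x : k => x ^ p ^ j) h4
      have : CharP k p := (algebraMap k Ω).charP_iff_charP p |>.2 inferInstance
      beta_reduce at h6
      rw [sum_pow_char_pow, zero_pow (pow_pos hp0 j).ne'] at h6
      rw [← h6]
      refine sum_congr rfl fun t _ => ?_
      rw [mul_pow, hρ]
    have e : Dj p R T (fun t => algebraMap k Ω (μ' t ^ p ^ t) * x t) j =
        ∑ t ∈ T, algebraMap k Ω (μ' t ^ p ^ j) *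
          (R (j - t) * x t ^ p ^ (j - t) - algebraMap k Ω (r j t) * w j) := by
      have e1 : ∑ t ∈ T, algebraMap k Ω (μ' t ^ p ^ j) * (algebraMap k Ω (r j t) * w j) = 0 := by
        have h7 := congrArg (algebraMap k Ω) h5
        rw [map_sum, _root_.map_zero] at h7
        rw [← zero_mul (w j), ← h7, sum_mul]
        refine sum_congr rfl fun t _ => ?_
        rw [_root_.map_mul, mul_assoc]
      simp only [mul_sub]
      rw [sum_sub_distrib, e1, sub_zero, Dj]
      refine sum_congr rfl fun t ht => ?_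
      have h8 := hT t ht
      rw [mul_pow, ← _root_.map_pow, ← pow_mul, ← pow_add,
        Nat.add_sub_cancel' (by omega : t ≤ j)]
      ring
    rw [e]
    refine Gt.sum _ _ fun t ht => ?_
    have h9 := (hr j hj t ht).mul_ge (h0.ge (μ' t ^ p ^ j))
    rw [add_zero] at h9
    rw [mul_comm (algebraMap k Ω (μ' t ^ p ^ j))]
    exact h9

end Pool.Agent.TWEX
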