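import Pool.Agent.Lib.TWEX.Res2

/-!
# TANK W, line (II), residual constants, 3: the change of parameter

* `alp p T c`: the additive polynomial `∑ c t X ^ p ^ t`;
* `cmp Φ α`: the arc `Φ` with parameter `α`;
* `exists_alpha`: for a floor which is hit, an additive polynomial `α` over `C` such that the
  residual constants of `z` along `Φ ∘ α` are finitely many;
* `exists_arc_res`: the strict overconvergent arc of the closure of `F(z)` over `C`.
-/

set_option autoImplicit false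

open Polynomial Finset

namespace Pool.Agent.TWEX

open Pool.Agent.H15JM (RVal)
open Pool.Agent.LU1 (VPos)
open Pool.Agent.D2 (Ctx0)
open Pool.Agent.TWM
open Pool.Agent.TWII (PG LP)
open Pool.Agent.TWLM (HSd Oi Arc)
open Pool.Agent.TWN1 (Set0 ser coeff_ser exists_set0_arc)

universe u

variable {k Ω : Type u} [Field k] [Field Ω] [Algebra k Ω] {v : RVal Ω}
  {C F : IntermediateField k Ω} {Φ : ℕ → Ω → Ω} {z : Ω} {Z : PowerSeries Ω} {κ : ℕ → ℝ}
  {s σ ν : ℝ} {p : ℕ} [hp : Fact p.Prime]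

/-! ### Values -/

theorem val_pow_root (hperf : ∀ x ∈ F, x ≠ 0 → ∃ g ∈ F, Gt v (v x) (x - g ^ p))
    (n : ℕ) {x : Ω} (hx : x ∈ F) (hx0 : x ≠ 0) :
    ∃ g ∈ F, g ≠ 0 ∧ (p : ℝ) ^ n * v g = v x := by
  induction n with
  | zero => exact ⟨x, hx, hx0, by rw [pow_zero, one_mul]⟩
  | succ n ih =>
    obtain ⟨g, hg, hg0, h1⟩ := ih
    obtain ⟨g', hg', h2⟩ := hperf g hg hg0
    obtain ⟨h3, h4⟩ := Gt.val_eq hg0 h2
    have hg'0 : g' ≠ 0 := by
      rintro rfl
      exact h3 (zero_pow hp.out.ne_zero)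
    refine ⟨g', hg', hg'0, ?_⟩
    rw [v.map_pow hg'0] at h4
    rw [pow_succ, mul_assoc, h4, h1]

/-- Elements of `C` of value `σ - p ^ t σ`, for infinitely many `t`. -/
theorem exists_vals (hperf : ∀ x ∈ F, x ≠ 0 → ∃ g ∈ F, Gt v (v x) (x - g ^ p))
    (hval : ∀ x ∈ F, x ≠ 0 → ∃ a ∈ C, a ≠ 0 ∧ v a = v x) {R : ℕ → Ω} (hRF : ∀ j, R j ∈ F) {j₁ : ℕ}
    (hR : ∀ j, j₁ ≤ j → v.Ge (s - p ^ j * σ) (R j))
    (hinf : ∀ J : ℕ, ∃ j, J ≤ j ∧ ¬ Gt v (s - p ^ j * σ) (R j)) (M : ℕ) :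
    ∃ (T : Finset ℕ) (x : ℕ → Ω), T.card = M ∧
      ∀ t ∈ T, x t ∈ C ∧ x t ≠ 0 ∧ v (x t) = σ - p ^ t * σ := by
  classical
  have hbad : ∀ j, j₁ ≤ j → ¬ Gt v (s - p ^ j * σ) (R j) → R j ≠ 0 ∧ v (R j) = s - p ^ j * σ := by
    intro j hj h1
    unfold Gt at h1
    push Not at h1
    exact ⟨h1.1, le_antisymm h1.2 (hR j hj h1.1)⟩
  set S : Set ℕ := {t | ∃ x ∈ C, x ≠ 0 ∧ v x = σ - p ^ t * σ} with hS
  have hSinf : S.Infinite := by
    obtain ⟨j₀, hj₀, h1⟩ := hinf j₁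
    obtain ⟨h2, h3⟩ := hbad j₀ hj₀ h1
    refine Set.infinite_of_forall_exists_gt fun n => ?_
    obtain ⟨j', hj', h4⟩ := hinf (j₀ + n + 1)
    obtain ⟨h5, h6⟩ := hbad j' (by omega) h4
    refine ⟨j' - j₀, ?_, by omega⟩
    obtain ⟨g, hg, hg0, h7⟩ := val_pow_root hperf j₀ (div_mem (hRF j') (hRF j₀))
      (div_ne_zero h5 h2)
    obtain ⟨a, ha, ha0, h8⟩ := hval g hg hg0
    refine ⟨a, ha, ha0, ?_⟩
    rw [h8]
    have h9 : (p : ℝ) ^ j₀ * v g = (p : ℝ) ^ j₀ * (σ - p ^ (j' - j₀) * σ) := by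
      rw [h7, div_eq_mul_inv, v.map_mul h5 (inv_ne_zero h2), v.map_inv h2, h3, h6]
      have e : (p : ℝ) ^ j' = (p : ℝ) ^ j₀ * p ^ (j' - j₀) := by
        rw [← pow_add, Nat.add_sub_cancel' (by omega)]
      rw [e]
      ring
    have hp0 : (0 : ℝ) < (p : ℝ) ^ j₀ := by
      have : (0 : ℝ) < p := by exact_mod_cast hp.out.pos
      positivity
    exact mul_left_cancel₀ hp0.ne' h9
  obtain ⟨T, hTS, hT⟩ := hSinf.exists_subset_card_eq M
  have h1 : ∀ t ∈ T, ∃ x ∈ C, x ≠ 0 ∧ v x = σ - p ^ t * σ := fun t ht => hTS ht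
  choose! x hx using h1
  exact ⟨T, x, hT, hx⟩

variable [CharP Ω p]

/-- **The additive polynomial**, coefficients. -/
theorem exists_alpha [IsAlgClosed k] (h0 : Ctx0 k v) (hCF : C ≤ F)
    (hperf : ∀ x ∈ F, x ≠ 0 → ∃ g ∈ F, Gt v (v x) (x - g ^ p))
    (hval : ∀ x ∈ F, x ≠ 0 → ∃ a ∈ C, a ≠ 0 ∧ v a = v x) {A : ℕ → Ω} {S : ℕ}
    (hA0 : ∀ i, LP p v F (ν - (p ^ (i + 1) : ℕ) * s) (A i))
    (htop : ¬ PG p v F (ν - (p ^ (S + 1) : ℕ) * s) (A S)) {R : ℕ → Ω} (hRF : ∀ j, R j ∈ F) {j₁ : ℕ}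
    (hR : ∀ j, j₁ ≤ j → v.Ge (s - p ^ j * σ) (R j))
    (hrel : ∀ j, j₁ ≤ j → PG p v F (ν - p ^ j * σ)
      (∑ i ∈ range (S + 1), A i * R (j - (i + 1)) ^ p ^ (i + 1))) (hj₁ : S + 1 ≤ j₁) :
    ∃ (T : Finset ℕ) (c : ℕ → Ω) (J : ℕ), (∀ t ∈ T, c t ∈ C ∧ (c t ≠ 0 → v (c t) = σ - p ^ t * σ)) ∧
      (∃ t ∈ T, c t ≠ 0) ∧ ∀ j, J ≤ j → Gt v (s - p ^ j * σ) (Dj p R T c j) := by
  classical
  by_cases hinf : ∀ J : ℕ, ∃ j, J ≤ j ∧ ¬ Gt v (s - p ^ j * σ) (R j)
  · -- the lowest index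
    have hex : ∃ i, ¬ PG p v F (ν - (p ^ (i + 1) : ℕ) * s) (A i) := ⟨S, htop⟩
    set i₀ := Nat.find hex with hi₀
    have h1 : ¬ PG p v F (ν - (p ^ (i₀ + 1) : ℕ) * s) (A i₀) := Nat.find_spec hex
    have h2 : ∀ i < i₀, PG p v F (ν - (p ^ (i + 1) : ℕ) * s) (A i) := fun i hi => by
      have := Nat.find_min hex hi
      push Not at this
      exact this
    have h3 : i₀ ≤ S := Nat.find_min' hex htop
    obtain ⟨T, x, hT, hx⟩ := exists_vals hperf hval hRF hR hinf (S - i₀ + 1)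
    set T₀ := T.sup id with hT₀
    have hTT : ∀ t ∈ T, t ≤ T₀ := fun t ht => Finset.le_sup (f := id) ht
    obtain ⟨μ, hμ0, hμ⟩ := exists_comb (p := p) h0 (R := R) (x := x) (T := T) (M := S - i₀)
      (J := j₁ + T₀) (T₀ := T₀) (j₁ := j₁) (s := s) (σ := σ) (by omega) hTT
      (fun t ht => RVal.Ge.of_le (hx t ht).2.2.ge) hR le_rfl
    refine ⟨T, fun t => algebraMap k Ω (μ t ^ p ^ t) * x t, j₁ + T₀, fun t ht => ⟨?_, ?_⟩, ?_, ?_⟩
    · exact mul_mem (C.algebraMap_mem _) (hx t ht).1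
    · intro h5
      beta_reduce at h5 ⊢
      have h6 : algebraMap k Ω (μ t ^ p ^ t) ≠ 0 := fun h7 => h5 (by rw [h7, zero_mul])
      rw [v.map_mul h6 (hx t ht).2.1, h0.triv _ (fun h7 => h6 (by rw [h7, map_zero])), zero_add]
      exact (hx t ht).2.2
    · obtain ⟨t, ht, h4⟩ := hμ0
      refine ⟨t, ht, mul_ne_zero ?_ (hx t ht).2.1⟩
      rw [Ne, _root_.map_eq_zero]
      exact pow_ne_zero _ h4
    · refine null_rec hA0 h3 h2 h1 hRF hR hrel hj₁ (fun t ht => hCF ?_) (fun t ht => ?_) hTT le_rfl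
        hμ
      · exact mul_mem (C.algebraMap_mem _) (hx t ht).1
      · refine ((h0.ge _).mul (RVal.Ge.of_le (hx t ht).2.2.ge)).mono (by simp)
  · push Not at hinf
    obtain ⟨J, hJ⟩ := hinf
    refine ⟨{0}, fun _ => 1, J, fun t ht => ⟨C.one_mem, ?_⟩, ⟨0, by simp, one_ne_zero⟩,
      fun j hj => ?_⟩
    · rw [mem_singleton.1 ht]
      intro _
      rw [v.map_one]
      simp
    · rw [Dj, sum_singleton, one_pow, mul_one, Nat.sub_zero]
      exact hJ j hj

/-! ### Composition -/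

/-- The additive polynomial. -/
noncomputable def alp (p : ℕ) (T : Finset ℕ) (c : ℕ → Ω) : PowerSeries Ω :=
  ∑ t ∈ T, PowerSeries.monomial (p ^ t) (c t)

/-- The arc `Φ` with parameter `α`. -/
noncomputable def cmp (Φ : ℕ → Ω → Ω) (α : PowerSeries Ω) (m : ℕ) (f : Ω) : Ω :=
  PowerSeries.coeff m ((ser Φ f).subst α)

section alp

variable {T : Finset ℕ} {c : ℕ → Ω}

omit [Algebra k Ω] hp [CharP Ω p] in
theorem coeff_alp (n : ℕ) : PowerSeries.coeff n (alp p T c) = ∑ t ∈ T, if n = p ^ t then c t else 0 := by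
  rw [alp, map_sum]
  refine sum_congr rfl fun t _ => ?_
  rw [PowerSeries.coeff_monomial]

omit [Algebra k Ω] [CharP Ω p] in
theorem const_alp : PowerSeries.constantCoeff (alp p T c) = 0 := by
  rw [← PowerSeries.coeff_zero_eq_constantCoeff_apply, coeff_alp]
  refine sum_eq_zero fun t _ => if_neg ?_
  exact (pow_pos hp.out.pos t).ne

omit hp in
omit [Algebra k Ω] [CharP Ω p] in
theorem coeff_alp_ge (hcv : ∀ t ∈ T, v.Ge (σ - p ^ t * σ) (c t)) (n : ℕ) :
    v.Ge (σ - n * σ) (PowerSeries.coeff n (alp p T c)) := by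
  rw [coeff_alp]
  refine RVal.Ge.sum _ _ fun t ht => ?_
  split_ifs with h1
  · rw [h1]
    push_cast
    exact hcv t ht
  · exact RVal.Ge.zero

omit [Algebra k Ω] in
theorem alp_pow (j m : ℕ) : PowerSeries.coeff m (alp p T c ^ p ^ j) =
    ∑ t ∈ T, if m = p ^ (t + j) then c t ^ p ^ j else 0 := by
  have : CharP (PowerSeries Ω) p := charP_of_injective_algebraMap
    (PowerSeries.C_injective : Function.Injective (algebraMap Ω (PowerSeries Ω))) p
  rw [alp, sum_pow_char_pow, map_sum]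
  refine sum_congr rfl fun t _ => ?_
  rw [PowerSeries.monomial_pow, PowerSeries.coeff_monomial, pow_add, mul_comm]

omit [Algebra k Ω] [CharP Ω p] in
theorem coeff_pow_lt {α : PowerSeries Ω} (hα : PowerSeries.constantCoeff α = 0) {m n : ℕ}
    (h : m < n) : PowerSeries.coeff m (α ^ n) = 0 :=
  PowerSeries.X_pow_dvd_iff.1 (pow_dvd_pow_of_dvd (PowerSeries.X_dvd_iff.2 hα) n) m h

omit [Algebra k Ω] [CharP Ω p] in
theorem coeff_pow_gt {T₀ : ℕ} (hT : ∀ t ∈ T, t ≤ T₀) (n : ℕ) {m : ℕ} (h : n * p ^ T₀ < m) :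
    PowerSeries.coeff m (alp p T c ^ n) = 0 := by
  induction n generalizing m with
  | zero =>
    rw [pow_zero, PowerSeries.coeff_one, if_neg (by omega)]
  | succ n ih =>
    rw [pow_succ, PowerSeries.coeff_mul]
    refine sum_eq_zero fun i hi => ?_
    have h1 : i.1 + i.2 = m := by simpa using hi
    by_cases h2 : n * p ^ T₀ < i.1
    · rw [ih h2, zero_mul]
    · have h3 : p ^ T₀ < i.2 := by
        rw [Nat.succ_mul] at h
        omega
      rw [coeff_alp, sum_eq_zero, mul_zero]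
      intro t ht
      refine if_neg fun h4 => ?_
      have h5 := Nat.pow_le_pow_right hp.out.pos (hT t ht)
      omega

end alp

section cmp

variable {α : PowerSeries Ω}

omit [Algebra k Ω] in
theorem coeff_subst_eq (hα : PowerSeries.constantCoeff α = 0) (f : PowerSeries Ω) (m : ℕ) :
    PowerSeries.coeff m (f.subst α) =
      ∑ n ∈ range (m + 1), PowerSeries.coeff n f * PowerSeries.coeff m (α ^ n) := by
  rw [PowerSeries.coeff_subst' (PowerSeries.HasSubst.of_constantCoeff_zero' hα)]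
  simp only [smul_eq_mul]
  refine finsum_eq_sum_of_support_subset _ fun n hn => ?_
  rw [Function.mem_support] at hn
  rw [coe_range, Set.mem_Iio]
  by_contra h1
  exact hn (by rw [coeff_pow_lt hα (by omega), mul_zero])

omit [Algebra k Ω] in
theorem cmp_eq (hα : PowerSeries.constantCoeff α = 0) (m : ℕ) (f : Ω) :
    cmp Φ α m f = ∑ n ∈ range (m + 1), Φ n f * PowerSeries.coeff m (α ^ n) := by
  rw [cmp, coeff_subst_eq hα]
  exact sum_congr rfl fun n _ => by rw [coeff_ser]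

theorem coeff_pow_mem {α : PowerSeries Ω} (h : ∀ n, PowerSeries.coeff n α ∈ C) (l n : ℕ) :
    PowerSeries.coeff n (α ^ l) ∈ C := by
  induction l generalizing n with
  | zero =>
    rw [pow_zero, PowerSeries.coeff_one]
    split_ifs
    exacts [C.one_mem, C.zero_mem]
  | succ l ih =>
    rw [pow_succ, PowerSeries.coeff_mul]
    exact sum_mem fun i _ => mul_mem (ih _) (h _)

/-- The composed arc. -/
theorem cmp_arc (hΦ : Arc v F σ Φ) (hα : PowerSeries.constantCoeff α = 0)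
    (hαF : ∀ n, PowerSeries.coeff n α ∈ F)
    (hαv : ∀ n : ℕ, v.Ge (σ - n * σ) (PowerSeries.coeff n α)) : Arc v F σ (cmp Φ α) := by
  classical
  have hs := PowerSeries.HasSubst.of_constantCoeff_zero' hα
  refine
    { mem := fun m f hf => ?_
      c0 := fun f hf => ?_
      add := fun m f hf g hg => ?_
      mul := fun m f hf g hg => ?_
      con := fun m hm c => ?_
      str := fun m hm => ?_ }
  · rw [cmp_eq hα]
    exact sum_mem fun n _ => mul_mem (hΦ.mem n f hf) (coeff_pow_mem hαF n m)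
  · rw [cmp_eq hα, sum_range_one, pow_zero, PowerSeries.coeff_one, if_pos rfl, mul_one,
      hΦ.c0 f hf]
  · rw [cmp_eq hα, cmp_eq hα, cmp_eq hα, ← sum_add_distrib]
    exact sum_congr rfl fun n _ => by rw [hΦ.add n f hf g hg, add_mul]
  · have h1 : ser Φ (f * g) = ser Φ f * ser Φ g := by
      ext n
      rw [coeff_ser, PowerSeries.coeff_mul, hΦ.mul n f hf g hg]
      exact sum_congr rfl fun i _ => by rw [coeff_ser, coeff_ser]
    unfold cmp
    rw [h1, PowerSeries.subst_mul hs, PowerSeries.coeff_mul]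
  · rw [cmp_eq hα, sum_eq_zero]
    intro n _
    rcases eq_or_ne n 0 with rfl | hn
    · rw [pow_zero, PowerSeries.coeff_one, if_neg hm, mul_zero]
    · rw [hΦ.con n hn, zero_mul]
  · -- the margin
    have h1 : ∀ n : ℕ, ∃ η : ℝ, 0 < η ∧ (n ≠ 0 → ∀ f ∈ F, ∀ b : ℝ, v.Ge b f →
        v.Ge (b - n * σ + η) (Φ n f)) := by
      intro n
      by_cases hn : n = 0
      · exact ⟨1, one_pos, fun h => absurd hn h⟩
      · obtain ⟨c, hc, h2⟩ := hΦ.str n hn
        exact ⟨n * σ - c, by linarith, fun _ f hf b hb => (h2 f hf b hb).mono (by linarith)⟩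
    choose η hη0 hη using h1
    obtain ⟨η', hη'0, hη'⟩ : ∃ η' : ℝ, 0 < η' ∧ ∀ n ∈ range (m + 1), η' ≤ η n := by
      refine ⟨(range (m + 1)).inf' ⟨0, by simp⟩ η, ?_, fun j hj => Finset.inf'_le _ hj⟩
      rw [Finset.lt_inf'_iff]
      exact fun j _ => hη0 j
    refine ⟨m * σ - η', by linarith, fun f hf b hb => ?_⟩
    rw [cmp_eq hα]
    refine RVal.Ge.sum _ _ fun n hn => ?_
    rcases eq_or_ne n 0 with rfl | hn0
    · rw [pow_zero, PowerSeries.coeff_one, if_neg hm, mul_zero]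
      exact RVal.Ge.zero
    · have h2 := hη n hn0 f hf b hb
      have h3 := TWN1.pow_ge hαv n m
      exact (h2.mul h3).mono (by linarith [hη' n hn])

/-- The composed arc is overconvergent. -/
theorem cmp_oi (ho : Oi v F σ Φ) (hα : PowerSeries.constantCoeff α = 0)
    (hαv : ∀ n : ℕ, v.Ge (σ - n * σ) (PowerSeries.coeff n α)) {D : ℕ}
    (hD : ∀ n m : ℕ, n * D < m → PowerSeries.coeff m (α ^ n) = 0) : Oi v F σ (cmp Φ α) := by
  intro f hf B
  obtain ⟨L, hL⟩ := ho f hf B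
  refine ⟨L * D + 1, fun m hm => ?_⟩
  rw [cmp_eq hα]
  refine RVal.Ge.sum _ _ fun n _ => ?_
  by_cases hn : n * D < m
  · rw [hD n m hn, mul_zero]
    exact RVal.Ge.zero
  · have h1 : L ≤ n := by
      by_contra h2
      have h3 : n * D ≤ L * D := Nat.mul_le_mul_right _ (by omega)
      omega
    have h2 := TWN1.pow_ge hαv n m
    exact ((hL n h1).mul h2).mono (by linarith)

/-- The jets along the composed arc. -/
theorem cmp_set0 (hΦ : Arc v F σ Φ) (ho : Oi v F σ Φ) (h : Set0 v F Φ z Z κ s σ)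
    (hα : PowerSeries.constantCoeff α = 0) (hαF : ∀ n, PowerSeries.coeff n α ∈ F)
    (hαv : ∀ n : ℕ, v.Ge (σ - n * σ) (PowerSeries.coeff n α)) {D : ℕ}
    (hD : ∀ n m : ℕ, n * D < m → PowerSeries.coeff m (α ^ n) = 0) :
    ∃ κ' : ℕ → ℝ, Set0 v F (cmp Φ α) z (Z.subst α) κ' s σ := by
  classical
  have hA := cmp_arc hΦ hα hαF hαv
  have h1 : ∀ m : ℕ, ∃ η : ℝ, 0 < η ∧ (m ≠ 0 → ∀ f ∈ F, ∀ b : ℝ, v.Ge b f →
      v.Ge (b - m * σ + η) (cmp Φ α m f)) := by
    intro n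
    by_cases hn : n = 0
    · exact ⟨1, one_pos, fun h => absurd hn h⟩
    · obtain ⟨c, hc, h2⟩ := hA.str n hn
      exact ⟨n * σ - c, by linarith, fun _ f hf b hb => (h2 f hf b hb).mono (by linarith)⟩
  choose η hη0 hη using h1
  have h2 : ∀ m : ℕ, ∃ κ' : ℝ, 0 < κ' ∧ ∀ n ∈ range (m + 1), κ' ≤ κ n := by
    intro m
    refine ⟨(range (m + 1)).inf' ⟨0, by simp⟩ κ, ?_, fun j hj => Finset.inf'_le _ hj⟩
    rw [Finset.lt_inf'_iff]
    exact fun j _ => h.kpos j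
  choose κ₁ hκ₁0 hκ₁ using h2
  refine ⟨fun m => min (κ₁ m) (η m), ?_⟩
  refine
    { hsd := hA.toHSd
      oi := cmp_oi ho hα hαv hD
      tl := h.tl
      z0 := ?_
      zmem := fun m => ?_
      kpos := fun m => lt_min (hκ₁0 m) (hη0 m)
      str := fun m hm x hx b hb => (hη m hm x hx b hb).mono (by linarith [min_le_right (κ₁ m) (η m)])
      near := fun m hm c hc b hb => ?_ }
  · rw [coeff_subst_eq hα, sum_range_one, h.z0, zero_mul]
  · rw [coeff_subst_eq hα]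
    exact sum_mem fun n _ => mul_mem (h.zmem n) (coeff_pow_mem hαF n m)
  · rw [coeff_subst_eq hα, cmp_eq hα, ← sum_sub_distrib]
    refine RVal.Ge.sum _ _ fun n hn => ?_
    rw [← sub_mul]
    rcases eq_or_ne n 0 with rfl | hn0
    · rw [pow_zero, PowerSeries.coeff_one, if_neg hm, mul_zero]
      exact RVal.Ge.zero
    · have h3 := h.near n hn0 c hc b hb
      have h4 := TWN1.pow_ge hαv n m
      have h5 : min (κ₁ m) (η m) ≤ κ n := (min_le_left _ _).trans (hκ₁ m n hn)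
      refine (h3.mul h4).mono ?_
      have h6 : min (b + min (κ₁ m) (η m)) (s + min (κ₁ m) (η m) / 2) ≤
          min (b + κ n) (s + κ n / 2) := min_le_min (by linarith) (by linarith)
      linarith

end cmp

/-- The jets of `z` along `Φ ∘ α` are null in large order. -/
theorem subst_gt {T : Finset ℕ} {c : ℕ → Ω} {T₀ L J : ℕ} (hT : ∀ t ∈ T, t ≤ T₀)
    (hcv : ∀ t ∈ T, v.Ge (σ - p ^ t * σ) (c t))
    (hres : ∀ n : ℕ, 2 * L < n → (∀ i, n ≠ p ^ i) → Gt v (s - n * σ) (PowerSeries.coeff n Z))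
    (hJ : ∀ j, J ≤ j → Gt v (s - p ^ j * σ) (Dj p (fun j => PowerSeries.coeff (p ^ j) Z) T c j)) :
    ∃ m₁ : ℕ, ∀ m : ℕ, m₁ ≤ m → Gt v (s - m * σ) (PowerSeries.coeff m (Z.subst (alp p T c))) := by
  classical
  have hp0 := hp.out.pos
  have hp1 := hp.out.one_lt
  refine ⟨max (2 * L * p ^ T₀ + 1) (p ^ (J + T₀)), fun m hm => ?_⟩
  have hm1 : 2 * L * p ^ T₀ < m := by
    have := (le_max_left _ _).trans hm
    omega
  have hm2 : p ^ (J + T₀) ≤ m := (le_max_right _ _).trans hm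
  rw [coeff_subst_eq const_alp]
  set g : ℕ → Ω := fun n => PowerSeries.coeff n Z * PowerSeries.coeff m (alp p T c ^ n) with hg
  rw [← sum_filter_add_sum_filter_not (range (m + 1)) (fun n => ∃ i, n = p ^ i)]
  refine Gt.add ?_ (Gt.sum _ _ fun n hn => ?_)
  · -- the powers of `p`
    have e1 : ∑ n ∈ range (m + 1) with ∃ i, n = p ^ i, g n =
        ∑ j ∈ range (m + 1) with p ^ j ≤ m, g (p ^ j) := by
      rw [← sum_image (s := (range (m + 1)).filter fun j => p ^ j ≤ m) (g := fun j => p ^ j)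
        (f := g) (fun a _ b _ hab => Nat.pow_right_injective hp1 hab)]
      refine sum_congr ?_ fun _ _ => rfl
      ext n
      rw [mem_filter, mem_image]
      constructor
      · rintro ⟨h1, i, rfl⟩
        have h2 := mem_range.1 h1
        have h3 : i < p ^ i := Nat.lt_pow_self hp1
        exact ⟨i, mem_filter.2 ⟨mem_range.2 (by omega), by omega⟩, rfl⟩
      · rintro ⟨i, hi, rfl⟩
        obtain ⟨-, h2⟩ := mem_filter.1 hi
        exact ⟨mem_range.2 (by omega), i, rfl⟩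
    change Gt v _ (∑ n ∈ range (m + 1) with ∃ i, n = p ^ i, g n)
    rw [e1]
    have e2 : ∑ j ∈ range (m + 1) with p ^ j ≤ m, g (p ^ j) =
        ∑ t ∈ T, ∑ j ∈ range (m + 1) with p ^ j ≤ m,
          if m = p ^ (t + j) then PowerSeries.coeff (p ^ j) Z * c t ^ p ^ j else 0 := by
      rw [sum_comm]
      refine sum_congr rfl fun j _ => ?_
      rw [hg]
      beta_reduce
      rw [alp_pow, mul_sum]
      exact sum_congr rfl fun t _ => by rw [mul_ite, mul_zero]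
    rw [e2]
    by_cases hmp : ∃ i, m = p ^ i
    · obtain ⟨i, rfl⟩ := hmp
      have hi : J + T₀ ≤ i := (Nat.pow_le_pow_iff_right hp1).1 hm2
      have e3 : ∑ t ∈ T, (∑ j ∈ range (p ^ i + 1) with p ^ j ≤ p ^ i,
          if p ^ i = p ^ (t + j) then PowerSeries.coeff (p ^ j) Z * c t ^ p ^ j else 0) =
          Dj p (fun j => PowerSeries.coeff (p ^ j) Z) T c i := by
        rw [Dj]
        refine sum_congr rfl fun t ht => ?_
        have h1 := hT t ht
        have h3 : i < p ^ i := Nat.lt_pow_self hp1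
        rw [sum_eq_single (i - t), if_pos (by rw [Nat.add_sub_cancel' (by omega)])]
        · intro j _ hj
          refine if_neg fun h4 => hj ?_
          have := Nat.pow_right_injective hp1 h4
          omega
        · intro h4
          have h5 : i - t ∈ (range (p ^ i + 1)).filter fun j => p ^ j ≤ p ^ i :=
            mem_filter.2 ⟨mem_range.2 (by omega), Nat.pow_le_pow_right hp0 (by omega)⟩
          exact absurd h5 h4
      rw [e3]
      have h4 := hJ i (by omega)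
      push_cast
      exact h4
    · rw [sum_eq_zero]
      · exact Gt.zero
      · intro t _
        refine sum_eq_zero fun j _ => if_neg fun h1 => hmp ⟨_, h1⟩
  · obtain ⟨-, h2⟩ := mem_filter.1 hn
    by_cases h3 : n * p ^ T₀ < m
    · rw [coeff_pow_gt hT n h3, mul_zero]
      exact Gt.zero
    · have h4 : 2 * L < n := by
        by_contra h5
        have h6 : n * p ^ T₀ ≤ 2 * L * p ^ T₀ := Nat.mul_le_mul_right _ (by omega)
        omega
      have h5 := hres n h4 (fun i hi => h2 ⟨i, hi⟩)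
      have h6 := TWN1.pow_ge (coeff_alp_ge (p := p) hcv) n m
      exact (h5.mul_ge h6).mono (by linarith)

/-- **The relation**: for a floor which is hit, an additive polynomial over `C`, all of whose
coefficients are critical, such that the jets at the powers of `p` satisfy a relation. -/
theorem exists_null [IsAlgClosed Ω] [IsAlgClosed k] (h0 : Ctx0 k v)
    (hCF : C ≤ F) (hperf : ∀ x ∈ F, x ≠ 0 → ∃ g ∈ F, Gt v (v x) (x - g ^ p))
    (hval : ∀ x ∈ F, x ≠ 0 → ∃ a ∈ C, a ≠ 0 ∧ v a = v x) (hΦ : Arc v F σ Φ) (ho : Oi v F σ Φ)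
    (hcomp : ∀ i j : ℕ, ∀ x ∈ F, Φ i (Φ j x) = ((i + j).choose i : Ω) * Φ (i + j) x)
    (h : Set0 v F Φ z Z κ s σ) {f : Polynomial Ω} (hf : f ∈ PI F)
    (hlim : LP p v (cadj v F z) ν (f.eval z))
    (hhit : ∃ l : ℕ, p ∣ l ∧ l ≠ 0 ∧
      ¬ PG p v (cadj v F z) (ν - l * s) ((taylor z f).coeff l)) :
    ∃ (T : Finset ℕ) (c : ℕ → Ω) (J L : ℕ), T.Nonempty ∧
      (∀ t ∈ T, c t ∈ C ∧ c t ≠ 0 ∧ v (c t) = σ - p ^ t * σ) ∧
      (∀ n : ℕ, L < n → v.Ge (s - n * σ) (PowerSeries.coeff n Z)) ∧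
      (∀ l m : ℕ, l ≠ 0 → Gt v (s - (l + m) * σ) (Φ m (PowerSeries.coeff l Z) -
        (((l + m).choose m : ℕ) : Ω) * PowerSeries.coeff (l + m) Z)) ∧
      ∀ j, J ≤ j → Gt v (s - p ^ j * σ)
        (Dj p (fun j => PowerSeries.coeff (p ^ j) Z) T c j) := by
  classical
  have hz := h.tl
  obtain ⟨L, hL⟩ := TWII.fin_shape p hΦ ho hz hf hlim hhit
  obtain ⟨m, S, e, a₀, A, -, he, ha₀, hA, hge, hA0, htop, -, hB⟩ := TWII.soc p hz hf hlim hhit
  -- the size of the jets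
  have hL' : ∀ n : ℕ, L < n → v.Ge (s - n * σ) (PowerSeries.coeff n Z) := by
    intro n hn
    obtain ⟨x, hx, h2, h3⟩ := ((hL n hn).and (TWII.Nr.near (half_pos (h.kpos n)))).exists h.tl.lim
    have h4 := h.near n (by omega) x hx _ h3
    have e1 : PowerSeries.coeff n Z = (PowerSeries.coeff n Z - Φ n x) + Φ n x := by ring
    rw [e1]
    refine (h4.mono ?_).add h2
    have hk := h.kpos n
    have : s ≤ min (s - κ n / 2 + κ n) (s + κ n / 2) := le_min (by linarith) (by linarith)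
    linarith
  -- the cocycle
  have hco : ∀ l m : ℕ, l ≠ 0 → Gt v (s - (l + m) * σ) (Φ m (PowerSeries.coeff l Z) -
      (((l + m).choose m : ℕ) : Ω) * PowerSeries.coeff (l + m) Z) := by
    intro l m hl
    have hk1 := h.kpos l
    have hk2 := h.kpos (l + m)
    set μ := min (κ l / 2) (κ (l + m) / 2) with hμ
    have hμ1 : μ ≤ κ l / 2 := min_le_left _ _
    have hμ2 : μ ≤ κ (l + m) / 2 := min_le_right _ _
    have hμ0 : 0 < μ := lt_min (by linarith) (by linarith)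
    obtain ⟨x, hx, h1⟩ := h.tl.lim μ hμ0
    have h2 := h.near l hl x hx _ h1
    have h3 := h.near (l + m) (by omega) x hx _ h1
    have h4 : v.Ge (s + μ - l * σ) (PowerSeries.coeff l Z - Φ l x) := by
      refine h2.mono ?_
      have : s + μ ≤ min (s - μ + κ l) (s + κ l / 2) := le_min (by linarith) (by linarith)
      linarith
    have h5 : v.Ge (s + μ - (l + m) * σ) (PowerSeries.coeff (l + m) Z - Φ (l + m) x) := by
      refine h3.mono ?_
      have : s + μ ≤ min (s - μ + κ (l + m)) (s + κ (l + m) / 2) :=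
        le_min (by linarith) (by linarith)
      push_cast
      linarith
    have h6 := TWII.Wn.of_arc hΦ m _ (sub_mem (h.zmem l) (hΦ.mem l x hx)) _ h4
    rw [hΦ.sub m (h.zmem l) (hΦ.mem l x hx), hcomp m l x hx, add_comm m l] at h6
    have h7 := (ge_natCast v ((l + m).choose m)).mul h5
    have e1 : Φ m (PowerSeries.coeff l Z) -
        (((l + m).choose m : ℕ) : Ω) * PowerSeries.coeff (l + m) Z =
        (Φ m (PowerSeries.coeff l Z) - ((l + m).choose m : Ω) * Φ (l + m) x) -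
          (((l + m).choose m : ℕ) : Ω) * (PowerSeries.coeff (l + m) Z - Φ (l + m) x) := by
      ring
    rw [e1]
    exact Gt.sub (Gt.of_ge h6 (by linarith)) (Gt.of_ge h7 (by linarith))
  -- the relation
  set ν' : ℝ := ν - m * s with hν'
  obtain ⟨n₁, hn₁⟩ := rel_large hΦ ho h hperf hL' (ν := ν') he ha₀ hA hge hA0 hB
  have hp0 := hp.out.pos
  have hp1 := hp.out.one_lt
  set j₁ : ℕ := max (max n₁ (L + 1)) (S + 1) with hj₁
  have hj : ∀ j, j₁ ≤ j → n₁ ≤ p ^ j ∧ L < p ^ j := by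
    intro j hj
    have h1 : j < p ^ j := Nat.lt_pow_self hp1
    have h2 : n₁ ≤ j₁ := (le_max_left n₁ (L + 1)).trans (le_max_left _ _)
    have h3 : L + 1 ≤ j₁ := (le_max_right n₁ (L + 1)).trans (le_max_left _ _)
    omega
  set R : ℕ → Ω := fun j => PowerSeries.coeff (p ^ j) Z with hR
  have hRF : ∀ j, R j ∈ F := fun j => h.zmem _
  have hRv : ∀ j, j₁ ≤ j → v.Ge (s - p ^ j * σ) (R j) := by
    intro j hj'
    have h1 := hL' (p ^ j) (hj j hj').2
    push_cast at h1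
    exact h1
  have hrel : ∀ j, j₁ ≤ j → PG p v F (ν' - p ^ j * σ)
      (∑ i ∈ range (S + 1), A i * R (j - (i + 1)) ^ p ^ (i + 1)) := by
    intro j hj'
    have h1 := hn₁ (p ^ j) (hj j hj').1
    push_cast at h1
    have h2 : S + 1 ≤ j := (le_max_right _ _).trans hj'
    have e1 : (∑ i ∈ range (S + 1), if p ^ (i + 1) ∣ p ^ j then
        A i * PowerSeries.coeff (p ^ j / p ^ (i + 1)) Z ^ p ^ (i + 1) else 0) =
        ∑ i ∈ range (S + 1), A i * R (j - (i + 1)) ^ p ^ (i + 1) := by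
      refine sum_congr rfl fun i hi => ?_
      have h3 := mem_range.1 hi
      rw [if_pos (Nat.pow_dvd_pow p (by omega)), Nat.pow_div (by omega) hp0]
    rwa [e1] at h1
  have htop' : ¬ PG p v F (ν' - (p ^ (S + 1) : ℕ) * s) (A S) := fun h1 =>
    htop (TWII.PG.of_le (le_cadj v F z) h1)
  obtain ⟨T, c, J, hc, hc0, hJ⟩ := exists_alpha h0 hCF hperf hval hA0 htop' hRF hRv hrel
    (le_max_right _ _)
  refine ⟨T.filter fun t => c t ≠ 0, c, J, L, ?_, fun t ht => ?_, hL', hco, fun j hj => ?_⟩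
  · obtain ⟨t, ht, h1⟩ := hc0
    exact ⟨t, mem_filter.2 ⟨ht, h1⟩⟩
  · obtain ⟨h1, h2⟩ := mem_filter.1 ht
    exact ⟨(hc t h1).1, h2, (hc t h1).2 h2⟩
  · have h1 := hJ j hj
    rw [Dj] at h1 ⊢
    rwa [sum_filter_of_ne]
    intro t ht h2 h3
    exact h2 (by rw [h3, zero_pow (pow_pos hp.out.pos _).ne', mul_zero])

/-- **The strict overconvergent arc, any radius**: `Φ` a strict overconvergent arc of `F`, a one
parameter group, trivial on `C`; `z` of transcendental type over `F`, hit by an element of the closure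
of `F(z)`. -/
theorem exists_arc_res [IsAlgClosed Ω] [IsAlgClosed k] (hΩ : CompleteV v) (h0 : Ctx0 k v)
    (hCF : C ≤ F) (hperf : ∀ x ∈ F, x ≠ 0 → ∃ g ∈ F, Gt v (v x) (x - g ^ p))
    (hval : ∀ x ∈ F, x ≠ 0 → ∃ a ∈ C, a ≠ 0 ∧ v a = v x) (hΦ : Arc v F σ Φ) (ho : Oi v F σ Φ)
    (hcons : ∀ n : ℕ, n ≠ 0 → ∀ x ∈ C, Φ n x = 0)
    (hcomp : ∀ i j : ℕ, ∀ x ∈ F, Φ i (Φ j x) = ((i + j).choose i : Ω) * Φ (i + j) x)
    (hz : TL v F z s) {f : Polynomial Ω} (hf : f ∈ PI F)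
    (hlim : LP p v (cadj v F z) ν (f.eval z))
    (hhit : ∃ l : ℕ, p ∣ l ∧ l ≠ 0 ∧
      ¬ PG p v (cadj v F z) (ν - l * s) ((taylor z f).coeff l)) :
    ∃ (T : Finset ℕ) (c : ℕ → Ω) (Ψ : ℕ → Ω → Ω) (n₀ : ℕ), T.Nonempty ∧
      (∀ t ∈ T, c t ∈ C ∧ c t ≠ 0 ∧ v (c t) = σ - p ^ t * σ) ∧
      Arc v (cadj v F z) σ Ψ ∧ Oi v (cadj v F z) σ Ψ ∧
      (∀ n : ℕ, ∀ x ∈ F, Ψ n x = cmp Φ (alp p T c) n x) ∧
      (∀ n : ℕ, n ≠ 0 → ∀ x ∈ C, Ψ n x = 0) ∧ (∀ n : ℕ, n ≠ 0 → Ψ n z ∈ F) ∧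
      ∀ n : ℕ, n ≠ 0 → n₀ ≤ n → Ψ n z = 0 := by
  classical
  obtain ⟨Z, κ, h⟩ := exists_set0_arc hΦ ho hz
  obtain ⟨T, c, J, L, hTn, hc', hL', hco, hJ⟩ :=
    exists_null h0 hCF hperf hval hΦ ho hcomp h hf hlim hhit
  have hc : ∀ t ∈ T, c t ∈ C ∧ v.Ge (σ - p ^ t * σ) (c t) := fun t ht =>
    ⟨(hc' t ht).1, RVal.Ge.of_le (hc' t ht).2.2.ge⟩
  set T₀ := T.sup id with hT₀
  have hTT : ∀ t ∈ T, t ≤ T₀ := fun t ht => Finset.le_sup (f := id) ht
  have hαv := coeff_alp_ge (p := p) (v := v) (σ := σ) (T := T) (c := c) fun t ht => (hc t ht).2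
  have hαC : ∀ n, PowerSeries.coeff n (alp p T c) ∈ C := by
    intro n
    rw [coeff_alp]
    refine sum_mem fun t ht => ?_
    split_ifs
    exacts [(hc t ht).1, C.zero_mem]
  have hD : ∀ n m : ℕ, n * p ^ T₀ < m → PowerSeries.coeff m (alp p T c ^ n) = 0 :=
    fun n m hnm => coeff_pow_gt hTT n hnm
  obtain ⟨κ', h'⟩ := cmp_set0 hΦ ho h const_alp (fun n => hCF (hαC n)) hαv hD
  obtain ⟨n₀, hn₀⟩ := subst_gt (s := s) hTT (fun t ht => (hc t ht).2)
    (fun n hn hnp => residue_pow hΦ h.zmem hco hL' hn hnp) hJ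
  obtain ⟨Ψ, h1, h2, -, h4, h5⟩ := h'.exists_trunc hΩ hn₀
  refine ⟨T, c, Ψ, n₀, hTn, hc', h1, h2, h4, fun n hn x hx => ?_, fun n hn => ?_,
    fun n hn hn' => ?_⟩
  · rw [h4 n x (hCF hx), cmp_eq const_alp]
    refine sum_eq_zero fun i _ => ?_
    rcases eq_or_ne i 0 with rfl | hi
    · rw [pow_zero, PowerSeries.coeff_one, if_neg hn, mul_zero]
    · rw [hcons i hi x hx, zero_mul]
  · rw [h5 n hn]
    split_ifs
    exacts [h'.zmem n, F.zero_mem]
  · rw [h5 n hn, if_neg (by omega)]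

end Pool.Agent.TWEX
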