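import Pool.Agent.Lib.TWEX.Res3
import Pool.Agent.Lib.TWEX.KArc0

/-!
# TANK W, line (II), residual constants, 4: the jets in a dense ring

`exists_arc_res0`: as `exists_arc_res`, the coefficients of the additive polynomial in a dense
subfield of `C`, the jets of `z` in a dense subring of `F`.
-/

set_option autoImplicit false

open Polynomial Finset

namespace Pool.Agent.TWEX

open Pool.Agent.H15JM (RVal)
open Pool.Agent.D2 (Ctx0)
open Pool.Agent.TWM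
open Pool.Agent.TWII (PG LP)
open Pool.Agent.TWLM (HSd Oi Arc)
open Pool.Agent.TWN1 (Set0 ser coeff_ser exists_set0_arc)

universe u

variable {k Ω : Type u} [Field k] [Field Ω] [Algebra k Ω] {v : RVal Ω}
  {C F : IntermediateField k Ω} {Φ : ℕ → Ω → Ω} {z : Ω} {Z : PowerSeries Ω} {κ : ℕ → ℝ}
  {s σ ν : ℝ} {p : ℕ} [hp : Fact p.Prime] [CharP Ω p]

omit [Algebra k Ω] in
/-- Small changes of the coefficients. -/
theorem dj_perturb {R c c' : ℕ → Ω} {T : Finset ℕ} {j₁ T₀ j : ℕ} (hT : ∀ t ∈ T, t ≤ T₀)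
    (hR : ∀ j, j₁ ≤ j → v.Ge (s - p ^ j * σ) (R j))
    (hc : ∀ t ∈ T, Gt v (σ - p ^ t * σ) (c t - c' t)) (hj : j₁ + T₀ ≤ j)
    (h : Gt v (s - p ^ j * σ) (Dj p R T c j)) : Gt v (s - p ^ j * σ) (Dj p R T c' j) := by
  have e : Dj p R T c' j = Dj p R T c j - ∑ t ∈ T, (c t - c' t) ^ p ^ (j - t) * R (j - t) := by
    rw [Dj, Dj, ← sum_sub_distrib]
    refine sum_congr rfl fun t _ => ?_
    rw [sub_pow_char_pow]
    ring
  rw [e]
  refine h.sub (Gt.sum _ _ fun t ht => ?_)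
  have h1 := hT t ht
  have h2 := ((gt_pow_iff (p := p) (e := j - t)).2 (hc t ht)).mul_ge (hR (j - t) (by omega))
  refine h2.mono ?_
  have e : (p : ℝ) ^ j = (p : ℝ) ^ (j - t) * p ^ t := by
    rw [← pow_add, Nat.sub_add_cancel (by omega)]
  rw [e]
  ring_nf
  exact le_rfl

/-- Comparison of two sets of jets. -/
theorem set0_close {Z' : PowerSeries Ω} {κ' : ℕ → ℝ} (h : Set0 v F Φ z Z κ s σ)
    (h' : Set0 v F Φ z Z' κ' s σ) {n : ℕ} (hn : n ≠ 0) :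
    Gt v (s - n * σ) (PowerSeries.coeff n Z - PowerSeries.coeff n Z') := by
  have h1 := h.kpos n
  have h2 := h'.kpos n
  set μ := min (κ n / 2) (κ' n / 2) with hμ
  have hμ1 : μ ≤ κ n / 2 := min_le_left _ _
  have hμ2 : μ ≤ κ' n / 2 := min_le_right _ _
  have hμ0 : 0 < μ := lt_min (by linarith) (by linarith)
  obtain ⟨x, hx, h3⟩ := h.tl.lim μ hμ0
  have h4 := h.near n hn x hx _ h3
  have h5 := h'.near n hn x hx _ h3
  have h6 : v.Ge (s + μ - n * σ) (PowerSeries.coeff n Z - Φ n x) := by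
    refine h4.mono ?_
    have : s + μ ≤ min (s - μ + κ n) (s + κ n / 2) := le_min (by linarith) (by linarith)
    linarith
  have h7 : v.Ge (s + μ - n * σ) (PowerSeries.coeff n Z' - Φ n x) := by
    refine h5.mono ?_
    have : s + μ ≤ min (s - μ + κ' n) (s + κ' n / 2) := le_min (by linarith) (by linarith)
    linarith
  have e : PowerSeries.coeff n Z - PowerSeries.coeff n Z' =
      (PowerSeries.coeff n Z - Φ n x) - (PowerSeries.coeff n Z' - Φ n x) := by ring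
  rw [e]
  exact Gt.of_ge (h6.sub h7) (by linarith)

/-- **The strict overconvergent arc, any radius**, with parameters and jets in dense rings. -/
theorem exists_arc_res0 [IsAlgClosed Ω] [IsAlgClosed k] (hΩ : CompleteV v) (h0 : Ctx0 k v)
    (hCF : C ≤ F) (hperf : ∀ x ∈ F, x ≠ 0 → ∃ g ∈ F, Gt v (v x) (x - g ^ p))
    (hval : ∀ x ∈ F, x ≠ 0 → ∃ a ∈ C, a ≠ 0 ∧ v a = v x) (hΦ : Arc v F σ Φ) (ho : Oi v F σ Φ)
    (hcons : ∀ n : ℕ, n ≠ 0 → ∀ x ∈ C, Φ n x = 0)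
    (hcomp : ∀ i j : ℕ, ∀ x ∈ F, Φ i (Φ j x) = ((i + j).choose i : Ω) * Φ (i + j) x)
    (hz : TL v F z s) {f : Polynomial Ω} (hf : f ∈ PI F)
    (hlim : LP p v (cadj v F z) ν (f.eval z))
    (hhit : ∃ l : ℕ, p ∣ l ∧ l ≠ 0 ∧
      ¬ PG p v (cadj v F z) (ν - l * s) ((taylor z f).coeff l))
    {N₀ : IntermediateField k Ω} (hN₀ : N₀ ≤ C)
    (hden : ∀ x ∈ C, ∀ b : ℝ, ∃ c ∈ N₀, v.Ge b (x - c))
    {α : Type*} [SetLike α Ω] [SubringClass α Ω] {R : α} (hRF : ∀ x ∈ R, x ∈ F)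
    (hNR : ∀ x ∈ N₀, x ∈ R) (hRd : ∀ x ∈ F, ∀ b : ℝ, ∃ c ∈ R, v.Ge b (x - c))
    (hRΦ : ∀ x ∈ R, ∀ n : ℕ, Φ n x ∈ R) :
    ∃ (T : Finset ℕ) (c : ℕ → Ω) (Ψ : ℕ → Ω → Ω) (n₀ : ℕ), T.Nonempty ∧
      (∀ t ∈ T, c t ∈ N₀ ∧ c t ≠ 0 ∧ v (c t) = σ - p ^ t * σ) ∧
      Arc v (cadj v F z) σ Ψ ∧ Oi v (cadj v F z) σ Ψ ∧
      (∀ n : ℕ, ∀ x ∈ F, Ψ n x = cmp Φ (alp p T c) n x) ∧
      (∀ n : ℕ, n ≠ 0 → ∀ x ∈ C, Ψ n x = 0) ∧ (∀ n : ℕ, n ≠ 0 → Ψ n z ∈ R) ∧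
      ∀ n : ℕ, n ≠ 0 → n₀ ≤ n → Ψ n z = 0 := by
  classical
  have hp1 := hp.out.one_lt
  obtain ⟨Z, κ, h⟩ := exists_set0_arc hΦ ho hz
  obtain ⟨T, c₁, J, L, hTn, hc₁, hL', hco, hJ⟩ :=
    exists_null h0 hCF hperf hval hΦ ho hcomp h hf hlim hhit
  -- change of the coefficients
  have hex : ∀ t : ℕ, ∃ c ∈ N₀, t ∈ T → Gt v (σ - p ^ t * σ) (c₁ t - c) := by
    intro t
    by_cases ht : t ∈ T
    · obtain ⟨c, hc, h1⟩ := hden (c₁ t) (hc₁ t ht).1 (σ - p ^ t * σ + 1)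
      exact ⟨c, hc, fun _ => Gt.of_ge h1 (by linarith)⟩
    · exact ⟨0, N₀.zero_mem, fun h => absurd h ht⟩
  choose c hcN hcc using hex
  have hc : ∀ t ∈ T, c t ∈ N₀ ∧ c t ≠ 0 ∧ v (c t) = σ - p ^ t * σ := by
    intro t ht
    obtain ⟨-, h1, h2⟩ := hc₁ t ht
    have h3 := hcc t ht
    rw [← h2] at h3
    obtain ⟨h4, h5⟩ := Gt.val_eq h1 h3
    exact ⟨hcN t, h4, h5.trans h2⟩
  have hcv : ∀ t ∈ T, v.Ge (σ - p ^ t * σ) (c t) := fun t ht =>
    RVal.Ge.of_le (hc t ht).2.2.ge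
  set T₀ := T.sup id with hT₀
  have hTT : ∀ t ∈ T, t ≤ T₀ := fun t ht => Finset.le_sup (f := id) ht
  have hRv : ∀ j, L + 1 ≤ j → v.Ge (s - p ^ j * σ) (PowerSeries.coeff (p ^ j) Z) := by
    intro j hj
    have h1 : j < p ^ j := Nat.lt_pow_self hp1
    have h2 := hL' (p ^ j) (by omega)
    push_cast at h2
    exact h2
  have hJ' : ∀ j, max J (L + 1 + T₀) ≤ j → Gt v (s - p ^ j * σ)
      (Dj p (fun j => PowerSeries.coeff (p ^ j) Z) T c j) := by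
    intro j hj
    have h1 : J ≤ j := (le_max_left _ _).trans hj
    have h2 : L + 1 + T₀ ≤ j := (le_max_right _ _).trans hj
    exact dj_perturb hTT hRv (fun t ht => hcc t ht) h2 (hJ j h1)
  have hαv := coeff_alp_ge (p := p) (v := v) (σ := σ) (T := T) (c := c) hcv
  have hαN : ∀ n, PowerSeries.coeff n (alp p T c) ∈ N₀ := by
    intro n
    rw [coeff_alp]
    refine sum_mem fun t ht => ?_
    split_ifs
    exacts [(hc t ht).1, N₀.zero_mem]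
  have hαF : ∀ n, PowerSeries.coeff n (alp p T c) ∈ F := fun n => hCF (hN₀ (hαN n))
  have hD : ∀ n m : ℕ, n * p ^ T₀ < m → PowerSeries.coeff m (alp p T c ^ n) = 0 :=
    fun n m hnm => coeff_pow_gt hTT n hnm
  obtain ⟨κ', h'⟩ := cmp_set0 hΦ ho h const_alp hαF hαv hD
  obtain ⟨n₀, hn₀⟩ := subst_gt (s := s) hTT hcv
    (fun n hn hnp => residue_pow hΦ h.zmem hco hL' hn hnp) hJ'
  -- the jets in the ring
  have hA := cmp_arc hΦ const_alp hαF hαv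
  obtain ⟨Z₁, κ₁, h₁, hZ₁⟩ := exists_set0_dense hA.toHSd (cmp_oi ho const_alp hαv hD)
    (fun n hn => by
      obtain ⟨m, hm, h1⟩ := hA.str n hn
      exact ⟨n * σ - m, by linarith, fun x hx b hb => (h1 x hx b hb).mono (by linarith)⟩) hz
    (R := R) hRF hRd (fun x hx n => by
      rw [cmp_eq const_alp]
      exact sum_mem fun i _ => mul_mem (hRΦ x hx i) (hNR _ (coeff_pow_mem hαN i n)))
  have hn₁ : ∀ n : ℕ, n₀ + 1 ≤ n → Gt v (s - n * σ) (PowerSeries.coeff n Z₁) := by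
    intro n hn
    have e : PowerSeries.coeff n Z₁ = PowerSeries.coeff n (Z.subst (alp p T c)) -
        (PowerSeries.coeff n (Z.subst (alp p T c)) - PowerSeries.coeff n Z₁) := by ring
    rw [e]
    exact (hn₀ n (by omega)).sub (set0_close h' h₁ (by omega))
  obtain ⟨Ψ, h1, h2, -, h4, h5⟩ := h₁.exists_trunc hΩ hn₁
  refine ⟨T, c, Ψ, n₀ + 1, hTn, hc, h1, h2, h4, fun n hn x hx => ?_, fun n hn => ?_,
    fun n hn hn' => ?_⟩
  · rw [h4 n x (hCF hx), cmp_eq const_alp]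
    refine sum_eq_zero fun i _ => ?_
    rcases eq_or_ne i 0 with rfl | hi
    · rw [pow_zero, PowerSeries.coeff_one, if_neg hn, mul_zero]
    · rw [hcons i hi x hx, zero_mul]
  · rw [h5 n hn]
    split_ifs
    exacts [hZ₁ n, zero_mem _]
  · rw [h5 n hn, if_neg (by omega)]

end Pool.Agent.TWEX
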