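import Pool.Agent.Lib.TWEX.Res4
import Pool.Agent.Lib.TWEX.Inf
import Pool.Agent.Lib.TWS7.Unhit
import Pool.Agent.Lib.TWMF.S7

/-!
# TANK W, line (II): a strict second floor, 1: the dichotomy

`u` a strict floor over a closed `C` of transcendence degree `2`, any radius `σ`, `w` of transcendental
type over `F = C<u>`, `L = F<w>`.  A critical element of `L` is unhit by `w`, or `L` has a strict
overconvergent arc, trivial on `C`, `u ↦ u + α(t)`, the jets of `w` in `N₀[u]`, finitely many.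
-/

set_option autoImplicit false

open Polynomial Finset

namespace Pool.Agent.TWEX

open Pool.Agent.H15JM (RVal)
open Pool.Agent.LU1 (VPos adj)
open Pool.Agent.D2 (Ctx0)
open Pool.Agent.D2P (clI mem_clI)
open Pool.Agent.TWM
open Pool.Agent.TWII (PG LP)
open Pool.Agent.TWLM (HSd Oi Arc)
open Pool.Agent.TWS7 (MTow PDiv Unhit FGc)

universe u'

variable {k Ω : Type u'} [Field k] [Field Ω] [Algebra k Ω] {v : RVal Ω}

/-- Arcs with constants `C`. -/
structure CArc (p : ℕ) [Fact p.Prime] (v : RVal Ω) (N₀ C : IntermediateField k Ω) (u : Ω) (σ : ℝ)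
    (w : Ω) (L : IntermediateField k Ω) (T : Finset ℕ) (c : ℕ → Ω) (Ψ : ℕ → Ω → Ω) : Prop where
  le0 : N₀ ≤ C
  den0 : ∀ x ∈ C, ∀ b : ℝ, ∃ c ∈ N₀, v.Ge b (x - c)
  ne : T.Nonempty
  cc : ∀ t ∈ T, c t ∈ N₀ ∧ c t ≠ 0 ∧ v (c t) = σ - p ^ t * σ
  arc : Arc v L σ Ψ
  oi : Oi v L σ Ψ
  con : ∀ n : ℕ, n ≠ 0 → ∀ x ∈ C, Ψ n x = 0
  ju : ∀ n : ℕ, n ≠ 0 → Ψ n u = PowerSeries.coeff n (alp p T c)
  jw : ∀ n : ℕ, n ≠ 0 → Ψ n w ∈ Adn N₀ {u}
  fin : ∃ n₀ : ℕ, ∀ n : ℕ, n ≠ 0 → n₀ ≤ n → Ψ n w = 0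

variable {C F L : IntermediateField k Ω} {w a : Ω} {s ν : ℝ}

/-- The values of `F`, `L` of transcendental type over `F`. -/
theorem TLval [IsAlgClosed Ω] (hw : TL v F w s) {x : Ω} (hx : x ∈ cadj v F w) (hx0 : x ≠ 0) :
    ∃ g ∈ F, g ≠ 0 ∧ v g = v x := by
  obtain ⟨g, hg, h1⟩ := hw.imm.imm x hx hx0
  obtain ⟨h2, h3⟩ := Gt.val_eq hx0 h1
  exact ⟨g, hg, h2, h3⟩

/-- `F` is immediate over the `p`-th powers if the values of `L` are divisible. -/
theorem imm_of_tl [IsAlgClosed k] [IsAlgClosed Ω] (p : ℕ) [hp : Fact p.Prime] [CharP Ω p] (h0 : Ctx0 k v)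
    (hw : TL v F w s) (hd : PDiv p v (cadj v F w)) :
    ∀ x ∈ F, x ≠ 0 → ∃ g ∈ F, Gt v (v x) (x - g ^ p) := by
  refine TWMF.Stb.imm_of_div h0 fun x hx hx0 => ?_
  obtain ⟨g, hg, hg0, h1⟩ := hd x (le_cadj v F w hx) hx0
  obtain ⟨g', hg', hg'0, h2⟩ := TLval hw hg hg0
  exact ⟨g', hg', hg'0, by rw [h1, h2]⟩

/-- **The dichotomy**, strict second floor. -/
theorem sec_dich [IsAlgClosed k] [IsAlgClosed Ω] (p : ℕ) [hp : Fact p.Prime] [CharP Ω p]
    (hΩ : CompleteV v) (h0 : Ctx0 k v) {u : Ω} {σ : ℝ} {D : ℕ → Ω → Ω}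
    (h : MTow p v C u σ D w s L)
    (hval : ∀ x ∈ cadj v C u, x ≠ 0 → ∃ a ∈ C, a ≠ 0 ∧ v a = v x) (hdiv : PDiv p v L)
    {N₀ : IntermediateField k Ω} (hN₀ : N₀ ≤ C) (hden : ∀ x ∈ C, ∀ b : ℝ, ∃ c ∈ N₀, v.Ge b (x - c))
    (ha : a ∈ L) (hlim : LP p v L ν a) :
    Unhit p v 3 L ν a ∨ ∃ (T : Finset ℕ) (c : ℕ → Ω) (Ψ : ℕ → Ω → Ω),
      CArc p v N₀ C u σ w L T c Ψ := by
  classical
  have hL := h.eq
  have hCF : C ≤ cadj v C u := le_cadj v C u
  have hu : u ∈ cadj v C u := self_mem_cadj v C u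
  obtain ⟨f, hf, h1⟩ : ∃ f ∈ PI (cadj v C u), v.Ge (ν + 1) (a - f.eval w) :=
    h.tw.dense (by rw [← hL]; exact ha) _
  have hlim' : LP p v (cadj v (cadj v C u) w) ν (f.eval w) := by
    rw [← hL]
    intro ε hε
    obtain ⟨g, hg, h3⟩ := hlim ε hε
    refine ⟨g, hg, ?_⟩
    have e : f.eval w - g ^ p = (a - g ^ p) - (a - f.eval w) := by ring
    rw [e]
    exact h3.sub (h1.mono (by linarith))
  by_cases hun : ∀ l : ℕ, p ∣ l → l ≠ 0 → PG p v L (ν - l * s) ((taylor w f).coeff l)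
  · refine Or.inl ⟨cadj v C u, w, s, f, 0, h.fgu, h.tw, hL, hf, L.zero_mem, ?_, hun⟩
    rw [zero_pow hp.out.ne_zero, sub_zero]
    exact Gt.of_ge h1 (by linarith)
  · push Not at hun
    obtain ⟨l, hl1, hl2, hl3⟩ := hun
    rw [hL] at hl3 hdiv
    have hs1 := adn_stable h.sfl.hsd (hN₀.trans hCF) (fun x hx n hn => h.sfl.const (hN₀ hx) hn)
      (S := {u}) (fun x hx => by rw [Set.mem_singleton_iff.1 hx]; exact hu) (fun x hx n hn => by
        rw [Set.mem_singleton_iff.1 hx]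
        by_cases hn1 : n = 1
        · rw [hn1, h.sfl.coord_one]
          exact one_mem _
        · rw [h.sfl.coord_two (by omega)]
          exact zero_mem _)
    have hd1 : ∀ x ∈ cadj v C u, ∀ b : ℝ, ∃ c ∈ Adn N₀ {u}, v.Ge b (x - c) := by
      intro x hx b
      obtain ⟨f, hf, h1⟩ := h.sfl.dense x hx b
      obtain ⟨g, hg, h2⟩ := approx_poly (R := N₀) hden u hf b
      refine ⟨g.eval u, eval_mem_adn (Set.mem_singleton u) fun i => mem_adn_of_mem (hg i), ?_⟩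
      have e : x - g.eval u = (x - f.eval u) + (f.eval u - g.eval u) := by ring
      rw [e]
      exact h1.add h2
    obtain ⟨T, c, Ψ, n₀, hT, hc, h2, h3, h4, h5, h6, h7⟩ := exists_arc_res0 hΩ h0 hCF
      (imm_of_tl p h0 h.tw hdiv) hval h.sfl.arc' h.sfl.oi
      (fun n hn x hx => h.sfl.const hx hn) h.sfl.comp h.tw hf hlim' ⟨l, hl1, hl2, hl3⟩ hN₀ hden
      (R := Adn N₀ {u}) (fun x hx => (hs1 x hx).1) (fun x hx => mem_adn_of_mem hx) hd1
      (fun x hx => (hs1 x hx).2)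
    refine Or.inr ⟨T, c, Ψ,
      { le0 := hN₀
        den0 := hden
        ne := hT
        cc := hc
        arc := by rw [hL]; exact h2
        oi := by rw [hL]; exact h3
        con := h5
        ju := fun n hn => ?_
        jw := h6
        fin := ⟨n₀, h7⟩ }⟩
    rw [h4 n u hu, cmp_eq const_alp, sum_eq_single 1]
    · rw [h.sfl.coord_one, pow_one, one_mul]
    · intro i _ hi
      rcases Nat.eq_zero_or_pos i with rfl | hi0
      · rw [pow_zero, PowerSeries.coeff_one, if_neg hn, mul_zero]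
      · rw [h.sfl.coord_two (by omega), zero_mul]
    · intro hi
      exact absurd (mem_range.2 (by omega)) hi

end Pool.Agent.TWEX
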