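import Pool.Agent.Lib.TWEX.Sec1
import Pool.Agent.Lib.TWEX.XdA
import Pool.Agent.Lib.TWEX.Eff
import Pool.Agent.Lib.TWMF.X3

/-!
# TANK W, line (II): a strict second floor, 2: the exit data

`C` the closure of `k(x, y)`, `CArc` over `N₀ = k(x, y)`: the exit data `XD` and the effect data `ED` of
`T = (x, y, u, w)`.
-/

set_option autoImplicit false

open Polynomial Finset

namespace Pool.Agent.TWEX

open Pool.Agent.H15JM (RVal)
open Pool.Agent.LU1 (VPos adj)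
open Pool.Agent.D2 (Ctx0)
open Pool.Agent.D2P (clI mem_clI)
open Pool.Agent.TWM
open Pool.Agent.TWII (PG LP)
open Pool.Agent.TWLM (HSd Oi Arc)
open Pool.Agent.TWMF (XD ED Tri mv)
open Pool.Agent.TW (kr)

universe u'

variable {k Ω : Type u'} [Field k] [Field Ω] [Algebra k Ω] {v : RVal Ω}

/-- Polynomials in the variables `j < i₀`. -/
theorem aeval_congr_vars {R : Type*} [CommRing R] [Algebra k R] {m : ℕ} {T T' : Fin m → R}
    {i₀ : Fin m} (h : ∀ j < i₀, T' j = T j) {P : MvPolynomial (Fin m) k}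
    (hP : ∀ j ∈ P.vars, j < i₀) : MvPolynomial.aeval T' P = MvPolynomial.aeval T P :=
  MvPolynomial.eval₂Hom_congr' rfl (fun i hi _ => h i (hP i hi)) rfl

theorem aevalH_const {m : ℕ} {T : Fin m → Ω} {H : Fin m → Polynomial Ω} {i₀ : Fin m}
    (h : ∀ j < i₀, H j = C (T j)) {P : MvPolynomial (Fin m) k} (hP : ∀ j ∈ P.vars, j < i₀) :
    MvPolynomial.aeval H P = C (MvPolynomial.aeval T P) := by
  rw [aeval_congr_vars (T := fun j => C (T j)) h hP]
  exact (MvPolynomial.comp_aeval_apply T (Polynomial.CAlgHom (R := k) (A := Ω)) P).symm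

/-- Constants. -/
theorem hsd_csmul {F : IntermediateField k Ω} {Φ : ℕ → Ω → Ω} (hΦ : HSd F Φ) {c x : Ω} (hc : c ∈ F)
    (hx : x ∈ F) (hc0 : ∀ l : ℕ, l ≠ 0 → Φ l c = 0) (l : ℕ) : Φ l (c * x) = c * Φ l x := by
  rw [hΦ.mul l c hc x hx, Finset.sum_eq_single (0, l)]
  · rw [hΦ.c0 c hc]
  · rintro ⟨i, j⟩ hij hne
    have h1 : i ≠ 0 := by
      rintro rfl
      rw [Finset.HasAntidiagonal.mem_antidiagonal, zero_add] at hij
      have hij' : j = l := hij
      exact hne (by rw [hij'])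
    rw [hc0 i h1, zero_mul]
  · intro h1
    exact absurd (Finset.HasAntidiagonal.mem_antidiagonal.2 (zero_add l)) h1

section carc

variable {p : ℕ} [hp : Fact p.Prime] {N₀ C₀ L : IntermediateField k Ω} {x y u w : Ω} {σ : ℝ}
  {T₀ : Finset ℕ} {c : ℕ → Ω} {Ψ : ℕ → Ω → Ω} {H : Fin 4 → Polynomial Ω}

theorem hconst_lt (h : CArc p v N₀ C₀ u σ w L T₀ c Ψ) (hCL : C₀ ≤ L)
    (hN₀ : N₀ = IntermediateField.adjoin k {x, y})
    (hH : ∀ i l, (H i).coeff l = Ψ l ((![x, y, u, w] : Fin 4 → Ω) i)) :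
    ∀ j < (2 : Fin 4), H j = C ((![x, y, u, w] : Fin 4 → Ω) j) := by
  have hx : x ∈ N₀ := by
    rw [hN₀]
    exact IntermediateField.subset_adjoin k _ (Set.mem_insert _ _)
  have hy : y ∈ N₀ := by
    rw [hN₀]
    exact IntermediateField.subset_adjoin k _ (Set.mem_insert_of_mem _ (Set.mem_singleton _))
  intro j hj
  have hm : (![x, y, u, w] : Fin 4 → Ω) j ∈ C₀ := by
    fin_cases j
    · exact h.le0 hx
    · exact h.le0 hy
    · exact absurd hj (by decide)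
    · exact absurd hj (by decide)
  ext l
  rw [hH, coeff_C]
  split_ifs with hl
  · rw [hl, h.arc.c0 _ (hCL hm)]
  · exact h.con l hl _ hm

/-- Elements of `N₀`. -/
theorem tri_of_n0 (hN₀ : N₀ = IntermediateField.adjoin k {x, y}) {a : Ω} (ha : a ∈ N₀) :
    Tri k (![x, y, u, w] : Fin 4 → Ω) 2 a := by
  refine tri_of_mem ?_
  rw [hN₀] at ha
  refine (IntermediateField.adjoin.mono k _ _ ?_) ha
  rintro _ (rfl | hb)
  · exact ⟨0, by decide, rfl⟩
  · rw [Set.mem_singleton_iff.1 hb]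
    exact ⟨1, by decide, rfl⟩

/-- **Amounts.** -/
theorem amt_of_carc (h : CArc p v N₀ C₀ u σ w L T₀ c Ψ) (hCL : C₀ ≤ L)
    (hN₀ : N₀ = IntermediateField.adjoin k {x, y})
    (hH : ∀ i l, (H i).coeff l = Ψ l ((![x, y, u, w] : Fin 4 → Ω) i))
    (hdense : ∀ a b : ℝ, a < b → ∃ c ∈ N₀, c ≠ 0 ∧ a < v c ∧ v c < b) (Λ : ℝ) {a b : ℝ}
    (hab : a < b) :
    ∃ P Q : MvPolynomial (Fin 4) k, ∃ d : Ω,
      MvPolynomial.aeval (![x, y, u, w] : Fin 4 → Ω) P ≠ 0 ∧
      MvPolynomial.aeval (![x, y, u, w] : Fin 4 → Ω) Q ≠ 0 ∧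
      d = (MvPolynomial.aeval (![x, y, u, w] : Fin 4 → Ω) P /
        MvPolynomial.aeval (![x, y, u, w] : Fin 4 → Ω) Q) ^ p ∧ a < v d ∧ v d < b ∧
      v.Ge Λ (d - (MvPolynomial.aeval (mv H d) P / MvPolynomial.aeval (mv H d) Q) ^ p) := by
  have hp0 : (0 : ℝ) < p := by exact_mod_cast hp.out.pos
  obtain ⟨e, he, he0, h1, h2⟩ := hdense (a / p) (b / p) (div_lt_div_of_pos_right hab hp0)
  rw [div_lt_iff₀ hp0] at h1
  rw [lt_div_iff₀ hp0] at h2
  obtain ⟨P, Q, hP, hQ, hQ0, hPQ⟩ := tri_of_n0 (u := u) (w := w) hN₀ he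
  have hP0 : MvPolynomial.aeval (![x, y, u, w] : Fin 4 → Ω) P ≠ 0 := by
    intro h3
    rw [h3, zero_div] at hPQ
    exact he0 hPQ
  refine ⟨P, Q, e ^ p, hP0, hQ0, by rw [hPQ], ?_, ?_, ?_⟩
  · rw [v.map_pow he0]
    linarith
  · rw [v.map_pow he0]
    linarith
  · have h3 : ∀ j < (2 : Fin 4), mv H (e ^ p) j = (![x, y, u, w] : Fin 4 → Ω) j := by
      intro j hj
      unfold mv
      rw [hconst_lt h hCL hN₀ hH j hj, eval_C]
    rw [aeval_congr_vars h3 hP, aeval_congr_vars h3 hQ, ← hPQ, sub_self]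
    exact RVal.Ge.zero

omit hp in
/-- `(C u + ∑ c t X ^ p ^ t) ^ p ^ j`. -/
theorem coeff_pow_alp [hp : Fact p.Prime] [CharP Ω p] (h : CArc p v N₀ C₀ u σ w L T₀ c Ψ)
    (hu : u ∈ L) (hH : ∀ i l, (H i).coeff l = Ψ l ((![x, y, u, w] : Fin 4 → Ω) i)) (j : ℕ) :
    (H 2) ^ p ^ j = C (u ^ p ^ j) + ∑ t ∈ T₀, C (c t ^ p ^ j) * X ^ p ^ (t + j) := by
  have h1 : H 2 = C u + ∑ t ∈ T₀, C (c t) * X ^ p ^ t := by
    ext l
    rw [hH]
    change Ψ l u = _
    rw [coeff_add, coeff_C, finsetSum_coeff]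
    by_cases hl : l = 0
    · rw [if_pos hl, hl, h.arc.c0 u hu, sum_eq_zero, add_zero]
      intro t _
      rw [coeff_C_mul_X_pow, if_neg (pow_pos hp.out.pos t).ne]
    · rw [if_neg hl, zero_add, h.ju l hl, coeff_alp]
      exact sum_congr rfl fun t _ => by rw [coeff_C_mul_X_pow]
  rw [h1, add_pow_char_pow, sum_pow_char_pow, C_pow]
  congr 1
  refine sum_congr rfl fun t _ => ?_
  rw [mul_pow, C_pow, ← pow_mul, ← pow_add]

/-- **Crossing.** -/
theorem cross_of_carc [CharP Ω p] (h : CArc p v N₀ C₀ u σ w L T₀ c Ψ) (hCL : C₀ ≤ L) (hu : u ∈ L)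
    (hN₀ : N₀ = IntermediateField.adjoin k {x, y})
    (hH : ∀ i l, (H i).coeff l = Ψ l ((![x, y, u, w] : Fin 4 → Ω) i))
    (hlim : ∀ δ : ℝ, 0 < δ → ∃ j : ℕ, ∃ n ∈ C₀, v.Ge (p ^ j * (σ - δ)) (u ^ p ^ j - n))
    {ρ : ℝ} (hρ : ρ < σ) : ∃ (P : MvPolynomial (Fin 4) k) (l : ℕ),
      l ≠ 0 ∧ (MvPolynomial.aeval H P).coeff l ≠ 0 ∧ ∀ i : ℕ, i ≠ l →
        Gt v (v ((MvPolynomial.aeval H P).coeff l) + l * ρ - i * ρ)
          ((MvPolynomial.aeval H P).coeff i) := by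
  classical
  have hp0 := hp.out.pos
  have hp1 := hp.out.one_lt
  -- the element near `u`
  obtain ⟨j, n, hn, hun⟩ : ∃ j : ℕ, ∃ n ∈ N₀, v.Ge (p ^ j * (σ - (σ - ρ) / 2)) (u ^ p ^ j - n) := by
    obtain ⟨j, n, hn, h1⟩ := hlim ((σ - ρ) / 2) (by linarith)
    obtain ⟨n', hn', h2⟩ := h.den0 n hn (p ^ j * (σ - (σ - ρ) / 2))
    refine ⟨j, n', hn', ?_⟩
    have e : u ^ p ^ j - n' = (u ^ p ^ j - n) + (n - n') := by ring
    rw [e]
    exact h1.add h2
  obtain ⟨Pn, Qn, hP, hQ, hQ0, hPQ⟩ := tri_of_n0 (u := u) (w := w) hN₀ hn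
  set T : Fin 4 → Ω := ![x, y, u, w] with hT
  have hpj : (0 : ℝ) < (p : ℝ) ^ j := pow_pos (by exact_mod_cast hp0) j
  -- the largest index
  set t₁ := T₀.max' h.ne with ht₁
  have ht₁m : t₁ ∈ T₀ := T₀.max'_mem h.ne
  have hle : ∀ t ∈ T₀, t ≤ t₁ := fun t ht => T₀.le_max' t ht
  obtain ⟨-, hc0, hcv⟩ := h.cc t₁ ht₁m
  -- the polynomial
  have hcH := hconst_lt h hCL hN₀ hH
  have hpoly : MvPolynomial.aeval H (Qn * MvPolynomial.X 2 ^ p ^ j - Pn) =
      C (MvPolynomial.aeval T Qn * (u ^ p ^ j - n)) +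
        ∑ t ∈ T₀, C (MvPolynomial.aeval T Qn * c t ^ p ^ j) * X ^ p ^ (t + j) := by
    have e1 : MvPolynomial.aeval T Pn = MvPolynomial.aeval T Qn * n := by
      rw [hPQ]
      field_simp
    rw [map_sub, map_mul, map_pow, MvPolynomial.aeval_X, coeff_pow_alp h hu hH,
      aevalH_const hcH hQ, aevalH_const hcH hP, e1, mul_add, mul_sum, mul_sub]
    have e2 : ∀ t ∈ T₀, C (MvPolynomial.aeval T Qn) * (C (c t ^ p ^ j) * X ^ p ^ (t + j)) =
        C (MvPolynomial.aeval T Qn * c t ^ p ^ j) * X ^ p ^ (t + j) := fun t _ => by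
      rw [C_mul, mul_assoc]
    rw [sum_congr rfl e2, C_sub, C_mul, C_mul]
    ring
  have hcoeff : ∀ i, (MvPolynomial.aeval H (Qn * MvPolynomial.X 2 ^ p ^ j - Pn)).coeff i =
      (if i = 0 then MvPolynomial.aeval T Qn * (u ^ p ^ j - n) else 0) +
        ∑ t ∈ T₀, if i = p ^ (t + j) then MvPolynomial.aeval T Qn * c t ^ p ^ j else 0 := by
    intro i
    rw [hpoly, coeff_add, coeff_C, finsetSum_coeff]
    congr 1
    exact sum_congr rfl fun t _ => by rw [coeff_C_mul_X_pow]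
  have hl : (MvPolynomial.aeval H (Qn * MvPolynomial.X 2 ^ p ^ j - Pn)).coeff (p ^ (t₁ + j)) =
      MvPolynomial.aeval T Qn * c t₁ ^ p ^ j := by
    rw [hcoeff, if_neg (pow_pos hp0 _).ne', zero_add, sum_eq_single t₁, if_pos rfl]
    · intro t _ ht
      refine if_neg fun h1 => ht ?_
      have := Nat.pow_right_injective hp1 h1
      omega
    · intro h1
      exact absurd ht₁m h1
  have hl0 : MvPolynomial.aeval T Qn * c t₁ ^ p ^ j ≠ 0 := mul_ne_zero hQ0 (pow_ne_zero _ hc0)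
  have hlv : v (MvPolynomial.aeval T Qn * c t₁ ^ p ^ j) =
      v (MvPolynomial.aeval T Qn) + p ^ j * (σ - p ^ t₁ * σ) := by
    rw [v.map_mul hQ0 (pow_ne_zero _ hc0), v.map_pow hc0, hcv]
    push_cast
    ring
  refine ⟨_, p ^ (t₁ + j), (pow_pos hp0 _).ne', by rw [hl]; exact hl0, fun i hi => ?_⟩
  rw [hl, hlv, hcoeff]
  have ht1 : (1 : ℝ) ≤ (p : ℝ) ^ t₁ := one_le_pow₀ (by exact_mod_cast hp1.le)
  refine Gt.add ?_ (Gt.sum _ _ fun t ht => ?_)
  · split_ifs with hi0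
    · rw [hi0]
      refine Gt.of_ge ((RVal.ge_self (v := v) (MvPolynomial.aeval T Qn)).mul hun) ?_
      push_cast
      rw [pow_add]
      have h1 : 0 < (p : ℝ) ^ j * ((p : ℝ) ^ t₁ * (σ - ρ) - (σ - ρ) / 2) := by
        refine mul_pos hpj ?_
        nlinarith
      nlinarith
    · exact Gt.zero
  · split_ifs with hit
    · obtain ⟨-, h1, h2⟩ := h.cc t ht
      have h3 : v (MvPolynomial.aeval T Qn * c t ^ p ^ j) =
          v (MvPolynomial.aeval T Qn) + p ^ j * (σ - p ^ t * σ) := by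
        rw [v.map_mul hQ0 (pow_ne_zero _ h1), v.map_pow h1, h2]
        push_cast
        ring
      have h4 : t < t₁ := by
        refine lt_of_le_of_ne (hle t ht) fun h5 => hi ?_
        rw [hit, h5]
      have h5 : (p : ℝ) ^ t < (p : ℝ) ^ t₁ := pow_lt_pow_right₀ (by exact_mod_cast hp1) h4
      refine Gt.of_ge (RVal.ge_self (v := v) _) ?_
      rw [h3, hit]
      push_cast
      rw [pow_add, pow_add]
      have h6 : 0 < (p : ℝ) ^ j * (((p : ℝ) ^ t₁ - (p : ℝ) ^ t) * (σ - ρ)) :=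
        mul_pos hpj (mul_pos (by linarith) (by linarith))
      nlinarith
    · exact Gt.zero

/-- **The exit data.** -/
theorem exists_xd_sec [CharP Ω p] (h : CArc p v N₀ C₀ u σ w L T₀ c Ψ) (hCL : C₀ ≤ L) (hu : u ∈ L)
    (hw : w ∈ L) (hN₀ : N₀ = IntermediateField.adjoin k {x, y})
    (hdense : ∀ a b : ℝ, a < b → ∃ c ∈ N₀, c ≠ 0 ∧ a < v c ∧ v c < b)
    (hlim : ∀ δ : ℝ, 0 < δ → ∃ j : ℕ, ∃ n ∈ C₀, v.Ge (p ^ j * (σ - δ)) (u ^ p ^ j - n))
    (hind : AlgebraicIndependent k (![x, y, u, w] : Fin 4 → Ω)) :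
    ∃ H : Fin 4 → Polynomial Ω, (∀ i l, (H i).coeff l = Ψ l ((![x, y, u, w] : Fin 4 → Ω) i)) ∧
      XD k p v (![x, y, u, w] : Fin 4 → Ω) H σ := by
  classical
  obtain ⟨T, hT⟩ : ∃ T : Fin 4 → Ω, T = ![x, y, u, w] := ⟨_, rfl⟩
  have hT0 : T 0 = x := by rw [hT]; rfl
  have hT1 : T 1 = y := by rw [hT]; rfl
  have hT2 : T 2 = u := by rw [hT]; rfl
  have hT3 : T 3 = w := by rw [hT]; rfl
  have hxN₀ : x ∈ N₀ := by
    rw [hN₀]
    exact IntermediateField.subset_adjoin k _ (Set.mem_insert _ _)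
  have hyN₀ : y ∈ N₀ := by
    rw [hN₀]
    exact IntermediateField.subset_adjoin k _ (Set.mem_insert_of_mem _ (Set.mem_singleton _))
  have hTL : ∀ i, T i ∈ L := by
    intro i
    fin_cases i
    · exact hT0 ▸ hCL (h.le0 hxN₀)
    · exact hT1 ▸ hCL (h.le0 hyN₀)
    · exact hT2 ▸ hu
    · exact hT3 ▸ hw
  -- the degree
  obtain ⟨M, hM⟩ : ∃ M : ℕ, ∀ i l, M < l → Ψ l (T i) = 0 := by
    obtain ⟨M₁, h1⟩ := h.fin
    refine ⟨M₁ + T₀.sup (fun t => p ^ t), fun i l hl => ?_⟩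
    fin_cases i
    · change Ψ l (T 0) = 0
      rw [hT0]
      exact h.con l (by omega) _ (h.le0 hxN₀)
    · change Ψ l (T 1) = 0
      rw [hT1]
      exact h.con l (by omega) _ (h.le0 hyN₀)
    · change Ψ l (T 2) = 0
      rw [hT2, h.ju l (by omega), coeff_alp]
      refine sum_eq_zero fun t ht => if_neg fun h2 => ?_
      have h3 : p ^ t ≤ T₀.sup (fun t => p ^ t) := Finset.le_sup (f := fun t => p ^ t) ht
      omega
    · change Ψ l (T 3) = 0
      rw [hT3]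
      exact h1 l (by omega) (by omega)
  set H : Fin 4 → Polynomial Ω := fun i => ∑ l ∈ range (M + 1), monomial l (Ψ l (T i)) with hHd
  have hH : ∀ i l, (H i).coeff l = Ψ l (T i) := by
    intro i l
    rw [hHd]
    simp only [finsetSum_coeff, coeff_monomial]
    rw [sum_ite_eq' (range (M + 1)) l]
    split_ifs with hl
    · rfl
    · exact (hM i l (by simpa using hl)).symm
  have hH' := hH
  rw [hT] at hH'
  refine ⟨H, hH', ?_⟩
  rw [← hT] at hind ⊢
  refine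
    { ind := hind
      c0 := fun i => by rw [hH, h.arc.c0 _ (hTL i)]
      tri := fun i l hl => tri_of_mem ?_
      str := fun P hP l hl => ?_
      amt := fun Λ => ⟨σ - 1, by linarith, fun a b _ hab _ => ?_⟩
      cross := ⟨σ - 1, by linarith, fun ρ _ hρ => ?_⟩ }
  · -- triangular
    have hle : ∀ i : Fin 4, 1 < i → N₀ ≤ IntermediateField.adjoin k (T '' {j | j < i}) := by
      intro i hi
      rw [hN₀, IntermediateField.adjoin_le_iff]
      rintro _ (rfl | hb)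
      · exact IntermediateField.subset_adjoin k _ ⟨0, lt_trans (by decide) hi, hT0⟩
      · rw [Set.mem_singleton_iff.1 hb]
        exact IntermediateField.subset_adjoin k _ ⟨1, hi, hT1⟩
    rw [hH]
    fin_cases i
    · change Ψ l (T 0) ∈ _
      rw [hT0, h.con l hl _ (h.le0 hxN₀)]
      exact zero_mem _
    · change Ψ l (T 1) ∈ _
      rw [hT1, h.con l hl _ (h.le0 hyN₀)]
      exact zero_mem _
    · change Ψ l (T 2) ∈ _
      rw [hT2, h.ju l hl, coeff_alp]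
      refine sum_mem fun t ht => ?_
      split_ifs
      · exact hle 2 (by decide) (h.cc t ht).1
      · exact zero_mem _
    · change Ψ l (T 3) ∈ _
      rw [hT3]
      have h1 := h.jw l hl
      generalize Ψ l w = a at h1
      induction h1 using Algebra.adjoin_induction with
      | mem a ha =>
        rw [Set.mem_singleton_iff.1 ha]
        exact IntermediateField.subset_adjoin k _ ⟨2, by decide, hT2⟩
      | algebraMap c => exact hle 3 (by decide) c.2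
      | add a b _ _ ha hb => exact add_mem ha hb
      | mul a b _ _ ha hb => exact mul_mem ha hb
  · -- strict jets
    have h1 := str_of_arc (N := (⊥ : IntermediateField k Ω)) (L := L) (Φ := Ψ) (t := T) (H := H)
      (σ := σ) h.arc bot_le (fun a ha l hl => by
        obtain ⟨c, rfl⟩ := IntermediateField.mem_bot.1 ha
        exact h.arc.con l hl c) hTL hH
      (MvPolynomial.map (algebraMap k (⊥ : IntermediateField k Ω)) P) hl
    rwa [MvPolynomial.aeval_map_algebraMap, MvPolynomial.aeval_map_algebraMap] at h1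
  · have h1 := amt_of_carc h hCL hN₀ hH' hdense Λ hab
    rw [← hT] at h1
    exact h1
  · exact cross_of_carc h hCL hu hN₀ hH' hlim hρ

omit hp in
/-- Quotients of polynomials, the denominator in the variables `j < 2`. -/
def Qv (k : Type u') {Ω : Type u'} [Field k] [Field Ω] [Algebra k Ω] (T : Fin 4 → Ω) (R : Ω) :
    Prop :=
  ∃ P q : MvPolynomial (Fin 4) k, (∀ j ∈ q.vars, j < 2) ∧ MvPolynomial.aeval T q ≠ 0 ∧
    R = MvPolynomial.aeval T P / MvPolynomial.aeval T q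

theorem vars_mul_lt {q q' : MvPolynomial (Fin 4) k} (h : ∀ j ∈ q.vars, j < 2)
    (h' : ∀ j ∈ q'.vars, j < 2) : ∀ j ∈ (q * q').vars, j < 2 := by
  classical
  intro j hj
  rcases Finset.mem_union.1 (MvPolynomial.vars_mul q q' hj) with h1 | h1
  exacts [h j h1, h' j h1]

theorem Qv.add {T : Fin 4 → Ω} {R S : Ω} (hR : Qv k T R) (hS : Qv k T S) : Qv k T (R + S) := by
  obtain ⟨P, q, hv, hq, rfl⟩ := hR
  obtain ⟨P', q', hv', hq', rfl⟩ := hS
  refine ⟨P * q' + P' * q, q * q', vars_mul_lt hv hv', ?_, ?_⟩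
  · rw [_root_.map_mul]
    exact mul_ne_zero hq hq'
  · rw [_root_.map_add, _root_.map_mul, _root_.map_mul, _root_.map_mul]
    field_simp

theorem Qv.mul {T : Fin 4 → Ω} {R S : Ω} (hR : Qv k T R) (hS : Qv k T S) : Qv k T (R * S) := by
  obtain ⟨P, q, hv, hq, rfl⟩ := hR
  obtain ⟨P', q', hv', hq', rfl⟩ := hS
  refine ⟨P * P', q * q', vars_mul_lt hv hv', ?_, ?_⟩
  · rw [_root_.map_mul]
    exact mul_ne_zero hq hq'
  · rw [_root_.map_mul, _root_.map_mul]
    field_simp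

theorem Qv.of_adn (hN₀ : N₀ = IntermediateField.adjoin k {x, y}) {R : Ω}
    (hR : R ∈ Adn N₀ {u, w}) : Qv k (![x, y, u, w] : Fin 4 → Ω) R := by
  have hX : ∀ i : Fin 4, Qv k (![x, y, u, w] : Fin 4 → Ω) ((![x, y, u, w] : Fin 4 → Ω) i) := by
    intro i
    refine ⟨MvPolynomial.X i, 1, fun j hj => ?_, by rw [_root_.map_one]; exact one_ne_zero, by
      rw [MvPolynomial.aeval_X, _root_.map_one, div_one]⟩
    simp [MvPolynomial.vars_one] at hj
  induction hR using Algebra.adjoin_induction with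
  | mem a ha =>
    rcases ha with rfl | ha
    · exact hX 2
    · rw [Set.mem_singleton_iff.1 ha]
      exact hX 3
  | algebraMap c =>
    obtain ⟨P, Q, -, hQ, hQ0, h1⟩ := tri_of_n0 (u := u) (w := w) hN₀ c.2
    exact ⟨P, Q, hQ, hQ0, h1⟩
  | add a b _ _ ha hb => exact ha.add hb
  | mul a b _ _ ha hb => exact ha.mul hb

/-- **The effect data.** -/
theorem exists_ed_sec [CharP Ω p] (h : CArc p v N₀ C₀ u σ w L T₀ c Ψ) (hCL : C₀ ≤ L) (hu : u ∈ L)
    (hw : w ∈ L) (hN₀ : N₀ = IntermediateField.adjoin k {x, y})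
    (hH : ∀ i l, (H i).coeff l = Ψ l ((![x, y, u, w] : Fin 4 → Ω) i))
    (hdL : ∀ x ∈ L, ∀ b : ℝ, ∃ c ∈ Adn N₀ {u, w}, v.Ge b (x - c)) {a : Ω} {ν : ℝ} (ha : a ∈ L)
    (hlimp : LP p v L ν a) (B : ℝ) :
    ∃ P Q : MvPolynomial (Fin 4) k, ED p v L (![x, y, u, w] : Fin 4 → Ω) H σ ν B a P Q := by
  obtain ⟨R, hR, h1⟩ := hdL a ha (max B (ν + 1))
  obtain ⟨P, q, hqv, hq0, h2⟩ := Qv.of_adn hN₀ hR
  have hxN₀ : x ∈ N₀ := by
    rw [hN₀]
    exact IntermediateField.subset_adjoin k _ (Set.mem_insert _ _)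
  have hyN₀ : y ∈ N₀ := by
    rw [hN₀]
    exact IntermediateField.subset_adjoin k _ (Set.mem_insert_of_mem _ (Set.mem_singleton _))
  have hTL : ∀ i, (![x, y, u, w] : Fin 4 → Ω) i ∈ L := by
    intro i
    fin_cases i
    · exact hCL (h.le0 hxN₀)
    · exact hCL (h.le0 hyN₀)
    · exact hu
    · exact hw
  have hcoeff := coeff_aeval_H (N := (⊥ : IntermediateField k Ω)) h.arc.toHSd bot_le
    (fun c hc l hl => by
      obtain ⟨c', rfl⟩ := IntermediateField.mem_bot.1 hc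
      exact h.arc.con l hl c') hTL hH
  have hmap : ∀ P : MvPolynomial (Fin 4) k,
      MvPolynomial.aeval ![x, y, u, w] P ∈ L ∧ ∀ l, (MvPolynomial.aeval H P).coeff l =
        Ψ l (MvPolynomial.aeval ![x, y, u, w] P) := by
    intro P
    have h3 := hcoeff (MvPolynomial.map (algebraMap k (⊥ : IntermediateField k Ω)) P)
    rw [MvPolynomial.aeval_map_algebraMap, MvPolynomial.aeval_map_algebraMap] at h3
    exact h3
  have hqc := aevalH_const (hconst_lt h hCL hN₀ hH) hqv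
  have hql : ∀ l : ℕ, l ≠ 0 → Ψ l (MvPolynomial.aeval ![x, y, u, w] q) = 0 := by
    intro l hl
    rw [← (hmap q).2 l, hqc, coeff_C, if_neg hl]
  have hRL : R ∈ L := by
    rw [h2]
    exact div_mem (hmap P).1 (hmap q).1
  have hlimR : LP p v L ν R := by
    intro ε hε
    obtain ⟨g, hg, h3⟩ := hlimp ε hε
    refine ⟨g, hg, ?_⟩
    have e : R - g ^ p = (a - g ^ p) - (a - R) := by ring
    rw [e]
    exact h3.sub (h1.mono ((by linarith : ν - ε ≤ ν + 1).trans (le_max_right _ _)))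
  refine ⟨P, q, hq0, hqc, ?_, fun l hl => ?_⟩
  · rw [← h2]
    exact h1.mono (le_max_left _ _)
  · have h3 : (MvPolynomial.aeval H P).coeff l / MvPolynomial.aeval ![x, y, u, w] q = Ψ l R := by
      rw [(hmap P).2 l, div_eq_iff hq0]
      have h4 : MvPolynomial.aeval ![x, y, u, w] P = MvPolynomial.aeval ![x, y, u, w] q * R := by
        rw [h2]
        field_simp
      rw [h4, hsd_csmul h.arc.toHSd (hmap q).1 hRL hql l]
      ring
    rw [h3]
    exact null_jets p h.arc hRL hlimR hl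

end carc

end Pool.Agent.TWEX
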