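import Pool.Agent.Lib.TWEX.Sec2
import Pool.Agent.Lib.TWS7.Asm
import Pool.Agent.Lib.TWMF.X4

/-!
# TANK W, line (II): a strict second floor, 3: assembly

`mobQ0_mid`: the completion contains a tower `k(x, y) ≤ C ∋ u ↦ w` whose floor `u` over `C` is strict,
of any radius: the critical step is henselian rational or has motions.
-/

set_option autoImplicit false

open Polynomial Finset

namespace Pool.Agent.TWEX

open Pool.Agent.H15JM (RVal)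
open Pool.Agent.LU1 (VPos adj)
open Pool.Agent.D2 (Ctx0)
open Pool.Agent.D2P (hen clI mem_clI)
open Pool.Agent.TWM
open Pool.Agent.TWII (PG LP)
open Pool.Agent.TWLM (HSd Oi Arc)
open Pool.Agent.TWMF (XD ED Tri mv motE_of_xd)
open Pool.Agent.TWS7 (MTow PDiv Unhit FGc MotE alt_of mobQ0_of_mot)
open Pool.Agent.TW (Ctx Full BD HRone LU Mot kr)

universe u'

section val

variable {k Ω : Type u'} [Field k] [Field Ω] [Algebra k Ω] {v : RVal Ω}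

/-- Divisible values are dense. -/
theorem dense_of_div {p : ℕ} (hp : 1 < p) {N₀ : IntermediateField k Ω}
    (hdiv : ∀ f ∈ N₀, f ≠ 0 → ∃ g ∈ N₀, g ≠ 0 ∧ v f = p * v g) {f₀ : Ω} (hf₀ : f₀ ∈ N₀)
    (h0 : f₀ ≠ 0) (hv : v f₀ ≠ 0) {a b : ℝ} (hab : a < b) :
    ∃ c ∈ N₀, c ≠ 0 ∧ a < v c ∧ v c < b := by
  have hp0 : (0 : ℝ) < p := by exact_mod_cast (by omega : 0 < p)
  -- small values
  have h1 : ∀ n : ℕ, ∃ g ∈ N₀, g ≠ 0 ∧ v f₀ = (p : ℝ) ^ n * v g := by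
    intro n
    induction n with
    | zero => exact ⟨f₀, hf₀, h0, by rw [pow_zero, one_mul]⟩
    | succ n ih =>
      obtain ⟨g, hg, hg0, h1⟩ := ih
      obtain ⟨g', hg', hg'0, h2⟩ := hdiv g hg hg0
      exact ⟨g', hg', hg'0, by rw [h1, h2, pow_succ, mul_assoc]⟩
  obtain ⟨n, hn⟩ := pow_unbounded_of_one_lt (|v f₀| / (b - a)) (by exact_mod_cast hp : (1 : ℝ) < p)
  obtain ⟨g, hg, hg0, h2⟩ := h1 n
  have hpn : (0 : ℝ) < (p : ℝ) ^ n := pow_pos hp0 n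
  have h3 : |v g| < b - a := by
    rw [div_lt_iff₀ (by linarith)] at hn
    rw [h2, abs_mul, abs_of_pos hpn] at hn
    exact lt_of_mul_lt_mul_left hn hpn.le
  have h4 : v g ≠ 0 := by
    intro h5
    rw [h5, mul_zero] at h2
    exact hv h2
  -- positive
  obtain ⟨e, he, he0, h5, h6⟩ : ∃ e ∈ N₀, e ≠ 0 ∧ 0 < v e ∧ v e < b - a := by
    rcases lt_or_gt_of_ne h4 with h5 | h5
    · refine ⟨g⁻¹, inv_mem hg, inv_ne_zero hg0, ?_, ?_⟩
      · rw [v.map_inv hg0]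
        linarith
      · rw [v.map_inv hg0]
        rwa [abs_of_neg h5] at h3
    · exact ⟨g, hg, hg0, h5, by rwa [abs_of_pos h5] at h3⟩
  refine ⟨e ^ (⌊a / v e⌋ + 1), zpow_mem he _, zpow_ne_zero _ he0, ?_, ?_⟩
  · rw [v.map_zpow he0]
    have h7 := Int.lt_floor_add_one (a / v e)
    rw [div_lt_iff₀ h5] at h7
    push_cast
    exact h7
  · rw [v.map_zpow he0]
    have h7 := Int.floor_le (a / v e)
    rw [le_div_iff₀ h5] at h7
    push_cast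
    linarith

/-- Values of dense subfields. -/
theorem div_of_dense {p : ℕ} {N₀ C : IntermediateField k Ω} (hN₀ : N₀ ≤ C)
    (hden : ∀ x ∈ C, ∀ b : ℝ, ∃ c ∈ N₀, v.Ge b (x - c))
    (hdiv : ∀ f ∈ C, f ≠ 0 → ∃ g ∈ C, g ≠ 0 ∧ v f = p * v g) :
    ∀ f ∈ N₀, f ≠ 0 → ∃ g ∈ N₀, g ≠ 0 ∧ v f = p * v g := by
  intro f hf hf0
  obtain ⟨g, hg, hg0, h1⟩ := hdiv f (hN₀ hf) hf0
  obtain ⟨c, hc, h2⟩ := hden g hg (v g + 1)
  obtain ⟨h3, h4⟩ := Gt.val_eq hg0 (Gt.of_ge h2 (by linarith))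
  exact ⟨c, hc, h3, by rw [h1, h4]⟩

end val

section asm

variable {k Ω Ω' : Type u'} [Field k] [Field Ω] [Algebra k Ω] [Field Ω'] [Algebra k Ω']
  {v : RVal Ω} {w : RVal Ω'} {ι : Ω →ₐ[k] Ω'}

/-- The closure of `k(x, y, u, z)`. -/
theorem cl_tower_mid (w : RVal Ω') (x y u z : Ω') :
    cadj w (cadj w (clI w (IntermediateField.adjoin k {x, y})) u) z =
      clI w (kr k (![x, y, u, z] : Fin 4 → Ω')) := by
  have hx : x ∈ clI w (IntermediateField.adjoin k ({x, y} : Set Ω')) :=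
    le_clI _ (IntermediateField.subset_adjoin k _ (Set.mem_insert _ _))
  have hy : y ∈ clI w (IntermediateField.adjoin k ({x, y} : Set Ω')) :=
    le_clI _ (IntermediateField.subset_adjoin k _ (Set.mem_insert_of_mem _ (Set.mem_singleton _)))
  have hle : kr k (![x, y, u, z] : Fin 4 → Ω') ≤
      cadj w (cadj w (clI w (IntermediateField.adjoin k {x, y})) u) z := by
    refine IntermediateField.adjoin_le_iff.2 ?_
    rintro _ ⟨i, rfl⟩
    fin_cases i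
    · exact le_cadj w _ z (le_cadj w _ u hx)
    · exact le_cadj w _ z (le_cadj w _ u hy)
    · exact le_cadj w _ z (self_mem_cadj w _ u)
    · exact self_mem_cadj w _ z
  have hm : ∀ i, (![x, y, u, z] : Fin 4 → Ω') i ∈ kr k (![x, y, u, z] : Fin 4 → Ω') :=
    fun i => IntermediateField.subset_adjoin _ _ ⟨i, rfl⟩
  have hc := cld_clI w (kr k (![x, y, u, z] : Fin 4 → Ω'))
  refine le_antisymm ?_ ((clI_mono hle).trans (clI_le (cld_cadj w _ z) le_rfl))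
  refine cadj_le hc (cadj_le hc (clI_mono ?_) (le_clI _ (hm 2))) (le_clI _ (hm 3))
  rw [IntermediateField.adjoin_le_iff]
  rintro _ (rfl | hb)
  · exact hm 0
  · rw [Set.mem_singleton_iff.1 hb]
    exact hm 1

/-- A nonzero value. -/
theorem exists_val_ne {r : ℕ} (h : Ctx k v r) {E : IntermediateField k Ω} (hfull : Full v E) :
    ∃ e ∈ E, e ≠ 0 ∧ v e ≠ 0 := by
  obtain ⟨X, hX0, hXl, -⟩ := h.rank
  obtain ⟨m, hm, e, he, he0, h1⟩ := hfull (X ⟨0, h.rpos⟩) (hX0 _)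
  refine ⟨e, he, he0, ?_⟩
  rw [h1]
  exact mul_ne_zero (by exact_mod_cast hm.ne') (hXl.ne_zero _)

/-- Values of the closure. -/
theorem pdiv_clI (p : ℕ) (hd : Dense v w ι) {K₀ : IntermediateField k Ω} (h : PDiv p v K₀) :
    PDiv p w (clI w (K₀.map ι)) := by
  intro f hf hf0
  obtain ⟨_, ⟨f₀, hf₀, rfl⟩, h1⟩ := mem_clI.1 hf (w f + 1)
  obtain ⟨h2, h3⟩ := Gt.val_eq hf0 (Gt.of_ge h1 (by linarith))
  have h4 : f₀ ≠ 0 := fun h5 => h2 (by rw [h5]; exact map_zero ι)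
  obtain ⟨g, hg, hg0, h5⟩ := h f₀ hf₀ h4
  refine ⟨ι g, le_clI _ (Dense.apply_mem_map.2 hg), hd.ne_zero hg0, ?_⟩
  have h6 : w (ι f₀) = v f₀ := hd.val f₀ h4
  rw [hd.val g hg0, ← h5, ← h6]
  exact h3.symm

/-- A tower in the completion, whose second floor is strict. -/
def STm (p : ℕ) (v : RVal Ω) (K₀ : IntermediateField k Ω) : Prop :=
  ∃ (Ω' : Type u') (_ : Field Ω') (_ : Algebra k Ω') (ι : Ω →ₐ[k] Ω') (w : RVal Ω')
    (_ : IsAlgClosed Ω'), CompleteV w ∧ Dense v w ι ∧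
      ∃ (x y u : Ω') (σ : ℝ) (D : ℕ → Ω' → Ω') (z : Ω') (s : ℝ),
        MTow p w (clI w (IntermediateField.adjoin k {x, y})) u σ D z s (clI w (K₀.map ι)) ∧
        ∀ f ∈ cadj w (clI w (IntermediateField.adjoin k {x, y})) u, f ≠ 0 →
          ∃ a ∈ clI w (IntermediateField.adjoin k {x, y}), a ≠ 0 ∧ w a = w f

/-- **Strict second floor**: unhit, or motions with a small effect. -/
theorem unhit_or_motE [IsAlgClosed k] [IsAlgClosed Ω] [IsAlgClosed Ω'] (p : ℕ) [hp : Fact p.Prime]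
    [CharP k p] [CharP Ω p] (h : Ctx k v 1) (hcw : CompleteV w) (hd : Dense v w ι)
    {K₀ : IntermediateField k Ω} (hK : K₀.FG) (hΩ : ∀ g : Ω, IsAlgebraic K₀ g)
    (htr : Algebra.trdeg k K₀ = (4 : ℕ)) (hBD : BD p v K₀) (hgr : PDiv p v K₀) {x y u z : Ω'}
    {σ s ν : ℝ} {D : ℕ → Ω' → Ω'}
    (hM : MTow p w (clI w (IntermediateField.adjoin k {x, y})) u σ D z s (clI w (K₀.map ι)))
    (hval : ∀ f ∈ cadj w (clI w (IntermediateField.adjoin k {x, y})) u, f ≠ 0 →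
      ∃ a ∈ clI w (IntermediateField.adjoin k {x, y}), a ≠ 0 ∧ w a = w f) {a : Ω} (ha : a ∈ K₀)
    (hlim : LP p w (clI w (K₀.map ι)) ν (ι a)) :
    Unhit p w 3 (clI w (K₀.map ι)) ν (ι a) ∨ MotE p v K₀ ν a := by
  classical
  have : CharP Ω' p := Dense.charP ι p
  have h' : Ctx k w 1 := Dense.ctx hd h
  have hdivL := pdiv_clI p hd hgr
  have ham : ι a ∈ clI w (K₀.map ι) := le_clI _ (Dense.apply_mem_map.2 ha)
  set L := clI w (K₀.map ι) with hL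
  set N₀ : IntermediateField k Ω' := IntermediateField.adjoin k {x, y} with hN₀
  have hN₀C : N₀ ≤ clI w N₀ := le_clI _
  have hden : ∀ a ∈ clI w N₀, ∀ b : ℝ, ∃ c ∈ N₀, w.Ge b (a - c) := fun a ha b => mem_clI.1 ha b
  rcases sec_dich p hcw h'.toCtx0 hM hval hdivL hN₀C hden ham hlim with h1 | ⟨T, c, Ψ, hA⟩
  · exact Or.inl h1
  right
  have hLe := hM.eq
  have hFL : cadj w (clI w N₀) u ≤ L := by
    rw [hLe]
    exact le_cadj w _ z
  have hCL : clI w N₀ ≤ L := (le_cadj w _ u).trans hFL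
  have hu : u ∈ L := hFL (self_mem_cadj w _ u)
  have hz : z ∈ L := by
    rw [hLe]
    exact self_mem_cadj w _ z
  -- the values of `N₀`
  have hdivC : ∀ f ∈ clI w N₀, f ≠ 0 → ∃ g ∈ clI w N₀, g ≠ 0 ∧ w f = p * w g := by
    intro f hf hf0
    obtain ⟨g, hg, hg0, h1⟩ := hdivL f (hCL hf) hf0
    rw [hLe] at hg
    obtain ⟨g₁, hg₁, hg₁0, h2⟩ := TLval hM.tw hg hg0
    obtain ⟨g₂, hg₂, hg₂0, h3⟩ := hval g₁ hg₁ hg₁0
    exact ⟨g₂, hg₂, hg₂0, by rw [h1, h3, h2]⟩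
  have hdivN := div_of_dense (p := p) hN₀C hden hdivC
  obtain ⟨f₀, hf₀, hf₀0, hf₀v⟩ : ∃ f ∈ N₀, f ≠ 0 ∧ w f ≠ 0 := by
    obtain ⟨e, he, he0, h1⟩ := exists_val_ne h (TWM.full_of_all hΩ)
    have he' : ι e ∈ L := le_clI _ (Dense.apply_mem_map.2 he)
    have he0' : ι e ≠ 0 := hd.ne_zero he0
    have h2 : w (ι e) = v e := hd.val e he0
    rw [hLe] at he'
    obtain ⟨g₁, hg₁, hg₁0, h3⟩ := TLval hM.tw he' he0'
    obtain ⟨g₂, hg₂, hg₂0, h4⟩ := hval g₁ hg₁ hg₁0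
    obtain ⟨c, hc, h5⟩ := hden g₂ hg₂ (w g₂ + 1)
    obtain ⟨h6, h7⟩ := Gt.val_eq hg₂0 (Gt.of_ge h5 (by linarith))
    exact ⟨c, hc, h6, by rw [h7, h4, h3, h2]; exact h1⟩
  have hdense : ∀ a b : ℝ, a < b → ∃ c ∈ N₀, c ≠ 0 ∧ a < w c ∧ w c < b := fun a b hab =>
    dense_of_div hp.out.one_lt hdivN hf₀ hf₀0 hf₀v hab
  -- the density of the polynomials
  have hdL : ∀ a ∈ L, ∀ b : ℝ, ∃ c ∈ Adn N₀ {u, z}, w.Ge b (a - c) := by
    have hd1 : ∀ a ∈ cadj w (clI w N₀) u, ∀ b : ℝ, ∃ c ∈ Adn N₀ {u}, w.Ge b (a - c) := by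
      intro a ha b
      obtain ⟨f, hf, h1⟩ := hM.sfl.dense a ha b
      obtain ⟨g, hg, h2⟩ := approx_poly (R := N₀) hden u hf b
      refine ⟨g.eval u, eval_mem_adn (Set.mem_singleton u) fun i => mem_adn_of_mem (hg i), ?_⟩
      have e : a - g.eval u = (a - f.eval u) + (f.eval u - g.eval u) := by ring
      rw [e]
      exact h1.add h2
    intro a ha b
    rw [hLe] at ha
    obtain ⟨f, hf, h1⟩ := hM.tw.dense ha b
    obtain ⟨g, hg, h2⟩ := approx_poly hd1 z hf b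
    refine ⟨g.eval z, eval_mem_adn (Set.mem_insert_of_mem _ (Set.mem_singleton z)) fun i =>
      Algebra.adjoin_mono (Set.singleton_subset_iff.2 (Set.mem_insert _ _)) (hg i), ?_⟩
    have e : a - g.eval z = (a - f.eval z) + (f.eval z - g.eval z) := by ring
    rw [e]
    exact h1.add h2
  -- the coordinates
  have hcl : clI w (K₀.map ι) = clI w (kr k (![x, y, u, z] : Fin 4 → Ω')) := by
    rw [← hL, hLe]
    exact cl_tower_mid w x y u z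
  obtain ⟨-, -, -, -, hind, -⟩ := exists_pull h.toCtx0 hcw hd hK (by exact_mod_cast htr) hBD hcl 1
  obtain ⟨H, hH, hX⟩ := exists_xd_sec hA hCL hu hz hN₀ hdense hM.sfl.lim hind
  exact motE_of_xd h hcw hd hK hΩ (by exact_mod_cast htr) hBD hcl hX ha
    (exists_ed_sec hA hCL hu hz hN₀ hH hdL ham hlim (ν + 1))

/-- **S7.M**: leaf (II), second floor strict, any radius. -/
theorem mobQ0_mid [IsAlgClosed k] [IsAlgClosed Ω] (p : ℕ) [Fact p.Prime] [CharP k p]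
    [CharP Ω p] (h : Ctx k v 1) {K₀ : IntermediateField k Ω} (hK : K₀.FG)
    (hΩ : ∀ g : Ω, IsAlgebraic K₀ g) (htr : Algebra.trdeg k K₀ = (4 : ℕ)) (hBDK : BD p v K₀)
    (hgr : PDiv p v K₀) {g : Ω} (hg : g ∉ K₀) (hgp : g ^ p ∈ K₀) (hBD : BD p v (adj K₀ g))
    (hst : STm p v K₀) :
    HRone v (adj K₀ g) ∨
      ∃ (φ : ℕ → (Ω ≃ₐ[k] Ω)) (δ : ℕ → Ω) (ρ : ℝ), Mot v K₀ φ δ ρ ∧
        ∀ i, ∃ c ∈ hen v K₀, ∃ b ∈ hen v K₀, c ≠ 0 ∧ φ i (g ^ p) = c ^ p * g ^ p + b ^ p := by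
  obtain ⟨Ω', iF, iA, ι, w, iC, hcw, hd, x, y, u, σ, D, z, s, hM, hval⟩ := hst
  rcases alt_of p h hcw hd hK (TWM.full_of_all hΩ) htr hBDK hg hgp hBD (fun ν h1 _ =>
    unhit_or_motE p h hcw hd hK hΩ htr hBDK hgr hM hval hgp h1) with h1 | ⟨ν, h1, -, h3⟩
  · exact Or.inl h1
  · exact Or.inr (mobQ0_of_mot p h hK hΩ hBDK hgr hgp h1 h3)

end asm

end Pool.Agent.TWEX
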