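import Pool.Agent.Lib.TWEX.IsoT
import Pool.Agent.Lib.TWMF.S7

/-!
# TANK W: the `p`-basis of `K(β)`, `β ^ p` an element of a `p`-basis of `K`

`pb_root`, `oi_root`: `s` a `p`-basis of `K`, orthogonal up to `e`, `β ^ p = s 0`. Then
`(β, s 1, .., s n)` is a `p`-basis of `K(β)`, orthogonal up to `e + e / p`.
-/

set_option autoImplicit false

open Finset

namespace Pool.Agent.TWEX

open Pool.Agent.H15JM (RVal)
open Pool.Agent.LU1 (adj)
open Pool.Agent.D2P (mem_adj_self adj_le)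
open Pool.Agent.TW (mon pcomb PBasis Spn)
open Pool.Agent.TWM
open Pool.Agent.TWEX.Iso (adj_poly adj_pow_mem ge_root)

universe u

variable {k Ω : Type u} [Field k] [Field Ω] [Algebra k Ω] {v : RVal Ω}
  {K : IntermediateField k Ω} {p : ℕ} {β : Ω} {n : ℕ} {s : Fin (n + 1) → Ω} {e : ℝ}

/-- The first element is replaced by its root. -/
def rt (β : Ω) (s : Fin (n + 1) → Ω) : Fin (n + 1) → Ω := Fin.cons β fun i => s i.succ

omit [Field Ω] in
theorem rt_zero : rt β s 0 = β := rfl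

omit [Field Ω] in
theorem rt_succ (i : Fin n) : rt β s i.succ = s i.succ := rfl

theorem sum_cons {M : Type*} [AddCommMonoid M] (g : (Fin (n + 1) → Fin p) → M) :
    ∑ α, g α = ∑ i : Fin p, ∑ γ : Fin n → Fin p, g (Fin.cons i γ) := by
  rw [← (Fin.consEquiv fun _ : Fin (n + 1) => Fin p).sum_comp g, Fintype.sum_prod_type]
  rfl

theorem mon_rt (i : Fin p) (γ : Fin n → Fin p) :
    mon (rt β s) (Fin.cons i γ : Fin (n + 1) → Fin p) = β ^ (i : ℕ) * mon (fun i => s i.succ) γ := by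
  rw [rt, TW.mon_cons]
  simp

theorem mon_self (i : Fin p) (γ : Fin n → Fin p) :
    mon s (Fin.cons i γ : Fin (n + 1) → Fin p) = s 0 ^ (i : ℕ) * mon (fun i => s i.succ) γ := by
  have e1 : s = rt (s 0) s := (Fin.cons_self_tail s).symm
  conv_lhs => rw [e1]
  exact mon_rt i γ

variable [hp : Fact p.Prime] [CharP Ω p]

/-- Elements of `K(β)`. -/
theorem span_root (hβ : β ^ p ∈ K) {u : Ω} (hu : u ∈ adj K β) :
    ∃ d : Fin p → Ω, (∀ j, d j ∈ K) ∧ u = ∑ j, d j * β ^ (j : ℕ) := by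
  obtain ⟨F, rfl⟩ := adj_poly hβ hu
  have key : Spn K.toSubfield (fun j : Fin p => β ^ (j : ℕ)) (Polynomial.aeval β F) := by
    rw [Polynomial.aeval_eq_sum_range, Finset.sum_range]
    refine Spn.sum _ fun i _ => ?_
    rw [Algebra.smul_def]
    change Spn _ _ ((F.coeff i : Ω) * β ^ (i : ℕ))
    have h2 : (F.coeff i : Ω) * β ^ (i : ℕ) = ((F.coeff i : Ω) * (β ^ p) ^ ((i : ℕ) / p)) *
        β ^ (((⟨(i : ℕ) % p, Nat.mod_lt _ hp.out.pos⟩ : Fin p)) : ℕ) := by
      rw [mul_assoc, ← pow_mul, ← pow_add, Nat.div_add_mod]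
    rw [h2]
    exact Spn.smul (mul_mem (F.coeff i).2 (pow_mem hβ _)) (Spn.self _)
  obtain ⟨d, hd, h1⟩ := key
  exact ⟨d, hd, h1⟩

theorem rt_ne (hs : PBasis p K s) (hβ : β ^ p = s 0) (i : Fin (n + 1)) : rt β s i ≠ 0 := by
  refine Fin.cases ?_ (fun i => ?_) i
  · rw [rt_zero]
    intro h0
    rw [h0, zero_pow hp.out.ne_zero] at hβ
    exact TWMF.Stb.pb_ne hs 0 hβ.symm
  · rw [rt_succ]
    exact TWMF.Stb.pb_ne hs _

/-- Distortion. -/
theorem oi_root (hs : PBasis p K s) (ho : OI p v K s e) (hβ : β ^ p = s 0) :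
    OI p v (adj K β) (rt β s) (e + e / p) := by
  classical
  have hp0 : (0 : ℝ) < p := by exact_mod_cast hp.out.pos
  have hβ0 : β ≠ 0 := rt_ne hs hβ 0
  have hβK : β ^ p ∈ K := by
    rw [hβ]
    exact hs.mem 0
  intro c hc b hb α
  choose d hd hdc using fun α => span_root hβK (hc α)
  have hcp : ∀ α, c α ^ p = ∑ j, d α j ^ p * s 0 ^ (j : ℕ) := by
    intro α
    rw [hdc α, sum_pow_char]
    refine sum_congr rfl fun j _ => ?_
    rw [mul_pow, ← hβ, ← pow_mul, ← pow_mul, mul_comm (j : ℕ) p]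
  obtain ⟨C, hC⟩ : ∃ C : Fin p → Ω, ∀ a, C a = pcomb s fun δ =>
    d (Fin.cons a (Fin.tail δ)) (δ 0) := ⟨_, fun a => rfl⟩
  have hCK : ∀ a, C a ∈ K := fun a => by
    rw [hC, pcomb]
    exact sum_mem fun δ _ => mul_mem (pow_mem (hd _ _) p) (prod_mem fun i _ => pow_mem (hs.mem i) _)
  have hCs : ∀ a, C a = ∑ γ : Fin n → Fin p,
      c (Fin.cons a γ : Fin (n + 1) → Fin p) ^ p * mon (fun i => s i.succ) γ := by
    intro a
    rw [hC, pcomb, sum_cons, sum_comm]
    refine sum_congr rfl fun γ _ => ?_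
    rw [hcp, sum_mul]
    refine sum_congr rfl fun j _ => ?_
    rw [mon_self, Fin.tail_cons, Fin.cons_zero]
    ring
  have hu : pcomb (rt β s) c = ∑ a, C a * β ^ (a : ℕ) := by
    rw [pcomb, sum_cons]
    refine sum_congr rfl fun a _ => ?_
    rw [hCs, sum_mul]
    refine sum_congr rfl fun γ _ => ?_
    rw [mon_rt]
    ring
  have z₀ : Fin n → Fin p := fun _ => ⟨0, hp.out.pos⟩
  obtain ⟨z₀, hz₀⟩ : ∃ z₀ : Fin n → Fin p, mon (fun i => s i.succ) z₀ = 1 :=
    ⟨fun _ => ⟨0, hp.out.pos⟩, by simp [mon]⟩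
  have hup : pcomb (rt β s) c ^ p = pcomb s fun δ => if Fin.tail δ = z₀ then C (δ 0) else 0 := by
    rw [hu, sum_pow_char, pcomb, sum_cons]
    refine sum_congr rfl fun a _ => ?_
    rw [sum_eq_single z₀]
    · rw [Fin.tail_cons, if_pos rfl, Fin.cons_zero, mon_self, hz₀, mul_one, mul_pow, ← hβ, ← pow_mul,
        ← pow_mul, mul_comm (a : ℕ) p]
    · intro γ _ hγ
      rw [Fin.tail_cons, if_neg hγ, zero_pow hp.out.ne_zero, zero_mul]
    · intro h1
      exact absurd (mem_univ _) h1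
  have h1 := ho (fun δ => if Fin.tail δ = z₀ then C (δ 0) else 0) (fun δ => by
    split_ifs
    · exact hCK _
    · exact K.zero_mem) (p * b) (by
    rw [← hup]
    exact ge_pow hb p) (Fin.cons (α 0) z₀)
  rw [Fin.tail_cons, if_pos rfl, Fin.cons_zero, mon_self, hz₀, mul_one, ← hβ, ← pow_mul,
    mul_comm p, pow_mul, ← mul_pow] at h1
  have h2 := ge_root hp0 h1
  have h3 : v.Ge (b - e / p - (α 0 : ℕ) * v β) (C (α 0)) := by
    have e1 : C (α 0) = C (α 0) * β ^ ((α 0 : ℕ)) * (β ^ ((α 0 : ℕ)))⁻¹ := by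
      rw [mul_assoc, mul_inv_cancel₀ (pow_ne_zero _ hβ0), mul_one]
    rw [e1]
    refine (h2.mul (v.ge_self _)).mono (le_of_eq ?_)
    rw [v.map_inv (pow_ne_zero _ hβ0), v.map_pow hβ0, sub_div, mul_div_cancel_left₀ _ hp0.ne']
    ring
  rw [hC] at h3
  have h4 : v.Ge (b - e / p - (α 0 : ℕ) * v β - e)
      (c α ^ p * mon (fun i => s i.succ) (Fin.tail α)) := by
    rw [hcp, sum_mul]
    refine RVal.Ge.sum _ _ fun j _ => ?_
    have h5 := ho _ (fun δ => hd (Fin.cons (α 0) (Fin.tail δ)) (δ 0)) _ h3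
      (Fin.cons j (Fin.tail α))
    rw [Fin.tail_cons, Fin.cons_zero, Fin.cons_self_tail, mon_self] at h5
    rwa [mul_assoc]
  have h6 : c α ^ p * mon (rt β s) α =
      c α ^ p * mon (fun i => s i.succ) (Fin.tail α) * β ^ ((α 0 : ℕ)) := by
    conv_lhs => rw [← Fin.cons_self_tail α, mon_rt, Fin.cons_self_tail]
    ring
  rw [h6]
  refine (h4.mul (v.ge_self _)).mono (le_of_eq ?_)
  rw [v.map_pow hβ0]
  ring

/-- The `p`-basis. -/
theorem pb_root (hs : PBasis p K s) (ho : OI p v K s e) (hβ : β ^ p = s 0) :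
    PBasis p (adj K β) (rt β s) := by
  have hβK : β ^ p ∈ K := by
    rw [hβ]
    exact hs.mem 0
  have hβL : β ∈ adj K β := (mem_adj_self K β).1
  have hle : K ≤ adj K β := (mem_adj_self K β).2
  refine ⟨fun i => ?_, fun u hu => ?_, (oi_root hs ho hβ).ind (rt_ne hs hβ)⟩
  · refine Fin.cases ?_ (fun i => ?_) i
    · exact hβL
    · exact hle (hs.mem _)
  · obtain ⟨d, hd, h1⟩ := span_root hβK hu
    choose f hf hfd using fun j => hs.span (d j) (hd j)
    refine ⟨fun α => ∑ i : Fin p, f (α 0) (Fin.cons i (Fin.tail α)) * β ^ (i : ℕ),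
      fun α => sum_mem fun i _ => mul_mem (hle (hf _ _)) (pow_mem hβL _), ?_⟩
    rw [h1, pcomb, sum_cons]
    refine sum_congr rfl fun a _ => ?_
    rw [hfd a, pcomb, sum_cons, sum_comm, sum_mul]
    refine sum_congr rfl fun γ _ => ?_
    rw [Fin.cons_zero, Fin.tail_cons, sum_pow_char, sum_mul, sum_mul]
    refine sum_congr rfl fun i _ => ?_
    rw [mon_rt, mon_self, mul_pow, ← hβ, ← pow_mul, ← pow_mul, mul_comm (i : ℕ) p]
    ring

end Pool.Agent.TWEX
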