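import Pool.Agent.Lib.TWN1.Base

/-!
# TANK W, exit of the strict case, 1: straightening

`Φ` an arc of `L` with `Φ(y) = y + ε`, `Φ = id` on `N`, `Φ(u) = u + ∑ u_l ε ^ l`, `u_l = P_l(y)`,
`P_l` polynomials over `N`, `Φ_m(u_l) = binom(l + m, m) u_(l + m)` up to `{≥ r - (l + m) σ + δ'}`.
`n ∈ N` near `y ^ q`, `q = p ^ j`: the element `U = u ^ q + ∑ u_l ^ q (n - y ^ q) ^ l` is nearly
constant: `Φ(U) = U + δ(ε) ^ q`, the coefficient of index `i` of `δ` is `≥ r - i σ + μ`.
-/

set_option autoImplicit false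

open Polynomial Finset

namespace Pool.Agent.TWEX

open Pool.Agent.H15JM (RVal)
open Pool.Agent.TWM
open Pool.Agent.TWLM (HSd)
open Pool.Agent.TWN1 (ser coeff_ser pow_ge)

universe u'

variable {k Ω : Type u'} [Field k] [Field Ω] [Algebra k Ω] {v : RVal Ω}
  {L N : IntermediateField k Ω} {Φ : ℕ → Ω → Ω}

theorem ser_add (h : HSd L Φ) {x y : Ω} (hx : x ∈ L) (hy : y ∈ L) :
    ser Φ (x + y) = ser Φ x + ser Φ y := by
  ext n
  rw [map_add, coeff_ser, coeff_ser, coeff_ser]
  exact h.add n x hx y hy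

theorem ser_sub (h : HSd L Φ) {x y : Ω} (hx : x ∈ L) (hy : y ∈ L) :
    ser Φ (x - y) = ser Φ x - ser Φ y := by
  ext n
  rw [map_sub, coeff_ser, coeff_ser, coeff_ser]
  exact h.sub n hx hy

theorem ser_mul (h : HSd L Φ) {x y : Ω} (hx : x ∈ L) (hy : y ∈ L) :
    ser Φ (x * y) = ser Φ x * ser Φ y := by
  ext n
  rw [coeff_ser, PowerSeries.coeff_mul]
  simp only [coeff_ser]
  exact h.mul n x hx y hy

theorem ser_pow (h : HSd L Φ) {x : Ω} (hx : x ∈ L) (n : ℕ) : ser Φ (x ^ n) = ser Φ x ^ n :=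
  h.ps_pow hx n

theorem ser_sum (h : HSd L Φ) {ι : Type*} (S : Finset ι) (f : ι → Ω) (hf : ∀ i ∈ S, f i ∈ L) :
    ser Φ (∑ i ∈ S, f i) = ∑ i ∈ S, ser Φ (f i) := by
  ext n
  rw [coeff_ser, map_sum, h.sum n S f hf]
  exact sum_congr rfl fun i _ => (coeff_ser Φ n (f i)).symm

/-- Constants. -/
theorem ser_const (h : HSd L Φ) {x : Ω} (hx : x ∈ L) (h0 : ∀ l : ℕ, l ≠ 0 → Φ l x = 0) :
    ser Φ x = PowerSeries.C x := by
  ext n
  rw [coeff_ser, PowerSeries.coeff_C]
  split_ifs with hn
  · rw [hn, h.c0 x hx]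
  · exact h0 n hn

/-- The coordinate `y`. -/
theorem ser_coord (h : HSd L Φ) {y : Ω} (hy : y ∈ L) (h1 : Φ 1 y = 1)
    (h2 : ∀ l : ℕ, 2 ≤ l → Φ l y = 0) : ser Φ y = PowerSeries.C y + PowerSeries.X := by
  ext n
  rw [coeff_ser, map_add, PowerSeries.coeff_C, PowerSeries.coeff_X]
  rcases Nat.lt_trichotomy n 1 with hn | hn | hn
  · obtain rfl : n = 0 := by omega
    rw [if_pos rfl, if_neg (by omega), add_zero, h.c0 y hy]
  · subst hn
    rw [if_neg one_ne_zero, if_pos rfl, zero_add, h1]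
  · rw [if_neg (by omega), if_neg (by omega), add_zero, h2 n hn]

omit [Algebra k Ω] in
/-- A finite power series. -/
theorem eq_sum_of_deg {A : PowerSeries Ω} {M : ℕ} (h : ∀ n, M < n → PowerSeries.coeff n A = 0) :
    A = ∑ m ∈ range (M + 1), PowerSeries.C (PowerSeries.coeff m A) * PowerSeries.X ^ m := by
  ext n
  rw [map_sum]
  simp only [PowerSeries.coeff_C_mul, PowerSeries.coeff_X_pow, mul_ite, mul_one, mul_zero]
  rw [sum_ite_eq (range (M + 1)) n]
  split_ifs with hn
  · rfl
  · exact h n (by simpa using hn)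

omit [Algebra k Ω] in
/-- The binomial identity. -/
theorem binom_id {uu : ℕ → Ω} {l₀ M : ℕ} (h0 : ∀ l, l₀ < l → uu l = 0) (hM : l₀ ≤ M)
    (T : PowerSeries Ω) :
    ∑ l ∈ range (l₀ + 1), ∑ m ∈ range (M + 1),
      PowerSeries.C ((((l + m).choose m : ℕ) : Ω) * uu (l + m)) * PowerSeries.X ^ m * T ^ l =
      ∑ s ∈ range (l₀ + 1), PowerSeries.C (uu s) * (PowerSeries.X + T) ^ s := by
  set H : Polynomial Ω := ∑ s ∈ range (l₀ + 1), monomial s (uu s) with hH
  have hHc : ∀ s, H.coeff s = uu s := by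
    intro s
    rw [hH, finsetSum_coeff]
    simp only [coeff_monomial]
    rw [sum_ite_eq' (range (l₀ + 1)) s]
    split_ifs with h1
    · rfl
    · exact (h0 s (by simpa using h1)).symm
  have hHd : H.natDegree ≤ l₀ := natDegree_le_iff_coeff_eq_zero.2 fun s hs => by
    rw [hHc, h0 s hs]
  have hR : ∑ s ∈ range (l₀ + 1), PowerSeries.C (uu s) * (PowerSeries.X + T) ^ s =
      (H.map (PowerSeries.C (R := Ω))).eval (PowerSeries.X + T) := by
    rw [eval_eq_sum_range' (n := l₀ + 1) (natDegree_map_le.trans_lt (by omega))]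
    exact sum_congr rfl fun s _ => by rw [coeff_map, hHc]
  have h1 : (taylor (PowerSeries.X : PowerSeries Ω) (H.map (PowerSeries.C (R := Ω)))).natDegree <
      l₀ + 1 := by
    rw [natDegree_taylor]
    exact natDegree_map_le.trans_lt (by omega)
  rw [hR, add_comm PowerSeries.X T, ← taylor_eval, eval_eq_sum_range' h1]
  refine sum_congr rfl fun l _ => ?_
  rw [taylor_coeff, TWN1.hasse_map, ← sum_mul]
  congr 1
  rw [eval_eq_sum_range' (n := M + 1) (natDegree_map_le.trans_lt
    ((natDegree_hasseDeriv_le H l).trans_lt (by omega)))]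
  refine sum_congr rfl fun m _ => ?_
  rw [coeff_map, hasseDeriv_coeff, hHc, add_comm m l, Nat.choose_symm_add]

variable (p : ℕ) [hp : Fact p.Prime] [CharP Ω p]

/-- **Straightening.** -/
theorem straight [IsAlgClosed Ω] (h : HSd L Φ) (hNL : N ≤ L)
    (hN : ∀ x ∈ N, ∀ l : ℕ, l ≠ 0 → Φ l x = 0) {y u : Ω} (hy : y ∈ L) (hy1 : Φ 1 y = 1)
    (hy2 : ∀ l : ℕ, 2 ≤ l → Φ l y = 0) (hu : u ∈ L) {l₀ M : ℕ} {uu : ℕ → Ω}
    (huu : ∀ l : ℕ, l ≠ 0 → Φ l u = uu l) (huu0 : uu 0 = 0) (hul : ∀ l, l₀ < l → uu l = 0)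
    (huL : ∀ l, uu l ∈ L) (huM : ∀ l m, M < m → Φ m (uu l) = 0) {r σ δ' δt : ℝ}
    (hδt : 0 ≤ δt) (hco : ∀ l m : ℕ, l ≠ 0 → l ≤ l₀ → m ≠ 0 →
      v.Ge (r - (l + m) * σ + δ') (Φ m (uu l) - (((l + m).choose m : ℕ) : Ω) * uu (l + m)))
    (j : ℕ) {n : Ω} (hn : n ∈ N) (ht : v.Ge (p ^ j * (σ - δt)) (y ^ p ^ j - n)) :
    ∃ V : PowerSeries Ω, (∀ i : ℕ, i ≠ 0 → v.Ge (r - i * σ + (δ' - l₀ * δt))
        (PowerSeries.coeff i V)) ∧
      (∀ i : ℕ, l₀ + max l₀ M < i → PowerSeries.coeff i V = 0) ∧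
      ser Φ (u ^ p ^ j + ∑ l ∈ Icc 1 l₀, uu l ^ p ^ j * (n - y ^ p ^ j) ^ l) = V ^ p ^ j := by
  classical
  have hp0 : (0 : ℝ) < p := by exact_mod_cast hp.out.pos
  have hchar : CharP (PowerSeries Ω) p :=
    charP_of_injective_ringHom (f := PowerSeries.C (R := Ω)) PowerSeries.C_injective p
  obtain ⟨τ, hτ⟩ := IsAlgClosed.exists_pow_nat_eq n (pow_pos hp.out.pos j)
  -- the distance of `y` and `τ`
  have htt : v.Ge (σ - δt) (τ - y) := by
    intro h0
    have h1 : (τ - y) ^ p ^ j = -(y ^ p ^ j - n) := by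
      rw [sub_pow_char_pow, hτ]
      ring
    have h2 : (τ - y) ^ p ^ j ≠ 0 := pow_ne_zero _ h0
    have h3 := ht.neg
    rw [← h1] at h3
    have h4 := h3 h2
    rw [v.map_pow h0] at h4
    push_cast at h4
    exact le_of_mul_le_mul_left h4 (by positivity)
  obtain ⟨T, hT⟩ : ∃ T : PowerSeries Ω, T = PowerSeries.C (τ - y) - PowerSeries.X := ⟨_, rfl⟩
  obtain ⟨V, hV⟩ : ∃ V : PowerSeries Ω, V = ser Φ u + ∑ l ∈ range (l₀ + 1), ser Φ (uu l) * T ^ l :=
    ⟨_, rfl⟩
  set M' := max l₀ M with hM'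
  -- the series
  have hsu : ser Φ u = PowerSeries.C u + ∑ s ∈ range (l₀ + 1),
      PowerSeries.C (uu s) * PowerSeries.X ^ s := by
    have h1 : ∑ s ∈ range (l₀ + 1), PowerSeries.C (uu s) * PowerSeries.X ^ s =
        ser Φ u - PowerSeries.C u := by
      have h2 : ∀ s, PowerSeries.coeff s (ser Φ u - PowerSeries.C u) = uu s := by
        intro s
        rw [map_sub, coeff_ser, PowerSeries.coeff_C]
        split_ifs with hs
        · rw [hs, h.c0 u hu, sub_self, huu0]
        · rw [sub_zero, huu s hs]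
      rw [eq_sum_of_deg (A := ser Φ u - PowerSeries.C u) (M := l₀) fun s hs => by
        rw [h2, hul s hs]]
      exact sum_congr rfl fun s _ => by rw [h2]
    rw [h1]
    ring
  have hsuu : ∀ l, ser Φ (uu l) = ∑ m ∈ range (M' + 1),
      PowerSeries.C (Φ m (uu l)) * PowerSeries.X ^ m := by
    intro l
    rw [eq_sum_of_deg (A := ser Φ (uu l)) (M := M') fun m hm => by
      rw [coeff_ser, huM l m (lt_of_le_of_lt (le_max_right _ _) hm)]]
    exact sum_congr rfl fun m _ => by rw [coeff_ser]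
  -- the decomposition
  have hdec : V = PowerSeries.C (u + ∑ s ∈ range (l₀ + 1), uu s * (τ - y) ^ s) +
      ∑ l ∈ range (l₀ + 1), ∑ m ∈ range (M' + 1),
        PowerSeries.C (if l = 0 then 0 else Φ m (uu l) - (((l + m).choose m : ℕ) : Ω) * uu (l + m)) *
          PowerSeries.X ^ m * T ^ l := by
    have h1 : ∑ l ∈ range (l₀ + 1), ser Φ (uu l) * T ^ l =
        ∑ l ∈ range (l₀ + 1), ∑ m ∈ range (M' + 1),
          PowerSeries.C (Φ m (uu l)) * PowerSeries.X ^ m * T ^ l := by
      refine sum_congr rfl fun l _ => ?_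
      rw [hsuu l, sum_mul]
    have h2 := binom_id (uu := uu) (l₀ := l₀) (M := M') hul (le_max_left _ _) T
    have h3 : PowerSeries.X + T = PowerSeries.C (τ - y) := by rw [hT]; ring
    rw [h3] at h2
    have h4 : ∑ s ∈ range (l₀ + 1), PowerSeries.C (uu s) * (PowerSeries.C (τ - y) : PowerSeries Ω) ^ s
        = PowerSeries.C (∑ s ∈ range (l₀ + 1), uu s * (τ - y) ^ s) := by
      rw [map_sum]
      exact sum_congr rfl fun s _ => by rw [map_mul, map_pow]
    rw [h4] at h2
    -- the row `l = 0` of the binomial sum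
    have h5 : ∑ l ∈ range (l₀ + 1), ∑ m ∈ range (M' + 1),
        PowerSeries.C (Φ m (uu l)) * PowerSeries.X ^ m * T ^ l =
        (∑ l ∈ range (l₀ + 1), ∑ m ∈ range (M' + 1),
          PowerSeries.C ((((l + m).choose m : ℕ) : Ω) * uu (l + m)) * PowerSeries.X ^ m * T ^ l -
          ∑ s ∈ range (l₀ + 1), PowerSeries.C (uu s) * PowerSeries.X ^ s) +
        ∑ l ∈ range (l₀ + 1), ∑ m ∈ range (M' + 1),
          PowerSeries.C (if l = 0 then 0 else
            Φ m (uu l) - (((l + m).choose m : ℕ) : Ω) * uu (l + m)) *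
          PowerSeries.X ^ m * T ^ l := by
      have h6 : ∑ s ∈ range (l₀ + 1), PowerSeries.C (uu s) * PowerSeries.X ^ s =
          ∑ m ∈ range (M' + 1), PowerSeries.C (uu m) * (PowerSeries.X : PowerSeries Ω) ^ m := by
        refine sum_subset (range_mono (by omega)) fun m _ hm => ?_
        rw [hul m (by simpa using hm), map_zero, zero_mul]
      rw [h6, sum_range_succ' (fun l => ∑ m ∈ range (M' + 1),
          PowerSeries.C (Φ m (uu l)) * PowerSeries.X ^ m * T ^ l) l₀,
        sum_range_succ' (fun l => ∑ m ∈ range (M' + 1),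
          PowerSeries.C ((((l + m).choose m : ℕ) : Ω) * uu (l + m)) * PowerSeries.X ^ m * T ^ l) l₀,
        sum_range_succ' (fun l => ∑ m ∈ range (M' + 1),
          PowerSeries.C (if l = 0 then 0 else
            Φ m (uu l) - (((l + m).choose m : ℕ) : Ω) * uu (l + m)) *
          PowerSeries.X ^ m * T ^ l) l₀]
      have h7 : ∑ m ∈ range (M' + 1), PowerSeries.C (Φ m (uu 0)) * PowerSeries.X ^ m * T ^ 0 = 0 := by
        refine sum_eq_zero fun m _ => ?_
        rw [huu0, h.zero, map_zero, zero_mul, zero_mul]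
      have h8 : ∑ m ∈ range (M' + 1),
          PowerSeries.C ((((0 + m).choose m : ℕ) : Ω) * uu (0 + m)) * PowerSeries.X ^ m * T ^ 0 =
          ∑ m ∈ range (M' + 1), PowerSeries.C (uu m) * PowerSeries.X ^ m := by
        refine sum_congr rfl fun m _ => ?_
        rw [zero_add, Nat.choose_self, Nat.cast_one, one_mul, pow_zero, mul_one]
      have h9 : ∑ m ∈ range (M' + 1), PowerSeries.C (if (0 : ℕ) = 0 then 0 else
            Φ m (uu 0) - (((0 + m).choose m : ℕ) : Ω) * uu (0 + m)) *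
          PowerSeries.X ^ m * T ^ 0 = 0 := by
        refine sum_eq_zero fun m _ => ?_
        rw [if_pos rfl, map_zero, zero_mul, zero_mul]
      rw [h7, h8, h9, add_zero, add_sub_cancel_right, add_zero, ← sum_add_distrib]
      refine sum_congr rfl fun l _ => ?_
      rw [← sum_add_distrib]
      refine sum_congr rfl fun m _ => ?_
      rw [if_neg (Nat.succ_ne_zero l), ← add_mul, ← add_mul, ← map_add]
      congr 3
      ring
    rw [hV, h1, h5, h2, hsu, map_add]
    ring
  refine ⟨V, fun i hi => ?_, fun i hi => ?_, ?_⟩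
  · -- the bounds
    rw [hdec, map_add, PowerSeries.coeff_C, if_neg hi, zero_add, map_sum]
    have hTc : ∀ m : ℕ, v.Ge (σ - δt - m * σ) (PowerSeries.coeff m T) := by
      intro m
      rw [hT, map_sub, PowerSeries.coeff_C, PowerSeries.coeff_X]
      rcases Nat.lt_trichotomy m 1 with hm | hm | hm
      · obtain rfl : m = 0 := by omega
        rw [if_pos rfl, if_neg (by omega), sub_zero]
        exact htt.mono (by simp)
      · subst hm
        rw [if_neg one_ne_zero, if_pos rfl, zero_sub]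
        refine RVal.Ge.neg fun _ => ?_
        rw [v.map_one]
        push_cast
        linarith
      · rw [if_neg (by omega), if_neg (by omega), sub_zero]
        exact RVal.Ge.zero
    refine RVal.Ge.sum _ _ fun l hl => ?_
    rw [map_sum]
    refine RVal.Ge.sum _ _ fun m _ => ?_
    rw [mul_assoc, PowerSeries.coeff_C_mul]
    by_cases hl0 : l = 0
    · rw [if_pos hl0, zero_mul]
      exact RVal.Ge.zero
    rw [if_neg hl0]
    by_cases hm0 : m = 0
    · subst hm0
      rw [h.c0 _ (huL l), Nat.choose_zero_right, Nat.cast_one, one_mul, add_zero, sub_self, zero_mul]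
      exact RVal.Ge.zero
    have hll : l ≤ l₀ := by
      have := mem_range.1 hl
      omega
    have h1 := hco l m hl0 hll hm0
    rw [PowerSeries.coeff_X_pow_mul']
    split_ifs with hmi
    · refine (h1.mul (pow_ge hTc l (i - m))).mono ?_
      have h2 : ((i - m : ℕ) : ℝ) = i - m := by
        rw [Nat.cast_sub hmi]
      rw [h2]
      have h3 : (l : ℝ) * δt ≤ l₀ * δt :=
        mul_le_mul_of_nonneg_right (by exact_mod_cast hll) hδt
      nlinarith
    · rw [mul_zero]
      exact RVal.Ge.zero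
  · -- the degree
    rw [hdec, map_add, PowerSeries.coeff_C, if_neg (by omega), zero_add, map_sum]
    refine sum_eq_zero fun l hl => ?_
    rw [map_sum]
    refine sum_eq_zero fun m hm => ?_
    have hll : l ≤ l₀ := by
      have := mem_range.1 hl
      omega
    have hmm : m ≤ M' := by
      have := mem_range.1 hm
      omega
    have hmi : m ≤ i := by omega
    rw [mul_assoc, PowerSeries.coeff_C_mul, PowerSeries.coeff_X_pow_mul', if_pos hmi]
    have h1 : ∀ l s : ℕ, l < s → PowerSeries.coeff s (T ^ l) = 0 := by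
      intro l
      induction l with
      | zero =>
        intro s hs
        rw [pow_zero, PowerSeries.coeff_one, if_neg (by omega)]
      | succ l ih =>
        intro s hs
        rw [pow_succ, PowerSeries.coeff_mul]
        refine sum_eq_zero fun x hx => ?_
        have h3 : x.1 + x.2 = s := by simpa using hx
        by_cases h4 : l < x.1
        · rw [ih _ h4, zero_mul]
        · have h5 : PowerSeries.coeff x.2 T = 0 := by
            rw [hT, map_sub, PowerSeries.coeff_C, PowerSeries.coeff_X, if_neg (by omega),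
              if_neg (by omega), sub_zero]
          rw [h5, mul_zero]
    rw [h1 l (i - m) (by omega), mul_zero]
  · -- the Frobenius
    have hyq : n - y ^ p ^ j ∈ L := sub_mem (hNL hn) (pow_mem hy _)
    have hsn : ser Φ (n - y ^ p ^ j) = T ^ p ^ j := by
      have e : (PowerSeries.C (τ - y) : PowerSeries Ω) ^ p ^ j =
          PowerSeries.C n - PowerSeries.C y ^ p ^ j := by
        rw [← map_pow, sub_pow_char_pow, hτ, map_sub, map_pow]
      rw [ser_sub h (hNL hn) (pow_mem hy _), ser_pow h hy, ser_const h (hNL hn) (hN n hn),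
        ser_coord h hy hy1 hy2, hT, sub_pow_char_pow, add_pow_char_pow, e]
      ring
    rw [ser_add h (pow_mem hu _) (sum_mem fun l _ => mul_mem (pow_mem (huL l) _) (pow_mem hyq _)),
      ser_pow h hu, ser_sum h _ _ fun l _ => mul_mem (pow_mem (huL l) _) (pow_mem hyq _), hV,
      add_pow_char_pow, sum_pow_char_pow]
    congr 1
    have h1 : ∑ l ∈ range (l₀ + 1), (ser Φ (uu l) * T ^ l) ^ p ^ j =
        ∑ l ∈ Icc 1 l₀, (ser Φ (uu l) * T ^ l) ^ p ^ j := by
      rw [sum_range_succ', huu0]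
      have h2 : ser Φ (0 : Ω) = 0 := by
        ext s
        rw [coeff_ser, h.zero, map_zero]
      rw [h2, zero_mul, zero_pow (pow_pos hp.out.pos j).ne', add_zero]
      rw [← sum_image (s := range l₀) (g := fun l => l + 1)
        (f := fun l => (ser Φ (uu l) * T ^ l) ^ p ^ j) (fun a _ b _ hab => Nat.succ_injective hab)]
      congr 1
      ext l
      rw [mem_image, mem_Icc]
      constructor
      · rintro ⟨a, ha, rfl⟩
        have := mem_range.1 ha
        omega
      · rintro ⟨h3, h4⟩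
        exact ⟨l - 1, mem_range.2 (by omega), by omega⟩
    rw [h1]
    refine sum_congr rfl fun l _ => ?_
    rw [ser_mul h (pow_mem (huL l) _) (pow_mem hyq _), ser_pow h (huL l), ser_pow h hyq, hsn,
      mul_pow, ← pow_mul, ← pow_mul, mul_comm l]

end Pool.Agent.TWEX
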