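import Pool.Agent.Lib.TWEX.RadS
import Pool.Agent.Lib.TWC.Lift

/-!
# TANK W, leaf (II.f), two floors, 1: the `p`-basis of a floor

* `pb_floor`, `kn_floor`: `KN` passes from `C` to the closure of `C(w)`;
* `RFl.kn`, `RFl.fgc`: `KN` and `FGc` for the fields of the class `RFl`.
-/

set_option autoImplicit false
set_option linter.unusedSectionVars false

open Polynomial Finset

namespace Pool.Agent.TWEX

open Pool.Agent.H15JM (RVal)
open Pool.Agent.LU1 (VPos adj)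
open Pool.Agent.D2P (clI mem_clI mem_adj_iff mem_adj_self adj_le)
open Pool.Agent.TWM
open Pool.Agent.TWLM (eval_mem_cadj)
open Pool.Agent.TW (mon pcomb PBasis Qp mem_Qp Qp_le' Bas Spn finite_of_spn exists_mon_bas)
open Pool.Agent.TWS7 (FGc)
open Pool.Agent.TWN1 (RFl)
open Iso (KN)

universe u'

variable {k Ω : Type u'} [Field k] [Field Ω] [Algebra k Ω] {v : RVal Ω}
  {C K : IntermediateField k Ω} {w : Ω} {ρ : ℝ} [IsAlgClosed k] [IsAlgClosed Ω]
  {p : ℕ} [hp : Fact p.Prime] [CharP k p] [CharP Ω p]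

/-- The span of finitely many elements over the `p`-th powers of a closed field is closed. -/
theorem spn_closed (hΩ : CompleteV v) (hK : Cld v K) {ι : Type} [Fintype ι] (e : ι → Ω) {x : Ω}
    (hx : ∀ b : ℝ, ∃ y : Ω, Spn (Qp p K) e y ∧ v.Ge b (x - y)) : Spn (Qp p K) e x := by
  classical
  have hkp : Cld v (TWC.kp p K) := TWC.cld_kp p hK
  have hiff : ∀ y : Ω, Spn (Qp p K) e y ↔
      y ∈ Submodule.span (TWC.kp p K) ((univ.image e : Finset Ω) : Set Ω) := by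
    intro y
    rw [coe_image, coe_univ, Set.image_univ, Submodule.mem_span_range_iff_exists_fun]
    constructor
    · rintro ⟨c, hc, rfl⟩
      refine ⟨fun i => ⟨c i, ?_⟩, sum_congr rfl fun i _ => rfl⟩
      obtain ⟨z, hz, h1⟩ := mem_Qp.1 (hc i)
      exact ⟨z, hz, h1⟩
    · rintro ⟨c, rfl⟩
      refine ⟨fun i => (c i : Ω), fun i => ?_, sum_congr rfl fun i _ => rfl⟩
      obtain ⟨z, hz, h1⟩ := (c i).2
      exact mem_Qp.2 ⟨z, hz, h1⟩
  rw [hiff]
  refine CldM.span hΩ hkp _ x fun b => ?_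
  obtain ⟨y, hy, h1⟩ := hx b
  exact ⟨y, (hiff y).1 hy, h1⟩

/-- The `p`-basis of a floor. -/
theorem pb_floor (hΩ : CompleteV v) (hpb : ∃ (n : ℕ) (t : Fin n → Ω), PBasis p C t)
    (hw : TL v C w ρ) : ∃ (n : ℕ) (t : Fin n → Ω), PBasis p (cadj v C w) t := by
  obtain ⟨n, t, ht⟩ := hpb
  have hle : C ≤ cadj v C w := le_cadj v C w
  have hwm : w ∈ cadj v C w := self_mem_cadj v C w
  have key : ∀ u ∈ cadj v C w, Spn (Qp p (cadj v C w))
      (mon (p := p) (Fin.snoc t w : Fin (n + 1) → Ω)) u := by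
    intro u hu
    refine spn_closed hΩ (cld_cadj v C w) _ fun b => ?_
    obtain ⟨f, hf, h1⟩ := hw.dense hu b
    refine ⟨_, ?_, h1⟩
    rw [eval_eq_sum_range]
    refine Spn.sum _ fun i _ => ?_
    obtain ⟨c, hc, h1⟩ := ht.span (f.coeff i) (hf i)
    rw [h1, pcomb, Finset.sum_mul]
    refine Spn.sum _ fun β _ => ?_
    have h2 : c β ^ p * mon t β * w ^ i = (c β * w ^ (i / p)) ^ p *
        mon (Fin.snoc t w : Fin (n + 1) → Ω)
          (Fin.snoc β (⟨i % p, Nat.mod_lt _ hp.out.pos⟩ : Fin p) : Fin (n + 1) → Fin p) := by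
      rw [TW.mon_snoc]
      simp only [Fin.snoc_castSucc, Fin.snoc_last]
      rw [mul_pow, ← pow_mul]
      conv_lhs => rw [← Nat.div_add_mod i p, pow_add]
      rw [mul_comm (i / p) p]
      ring
    rw [h2]
    exact Spn.smul (mem_Qp.2 ⟨_, mul_mem (hle (hc β)) (pow_mem hwm _), rfl⟩) (Spn.self _)
  obtain ⟨m, s, hs, hb⟩ := exists_mon_bas (p := p) (E := (cadj v C w).toSubfield) Qp_le'
    (fun u hu => mem_Qp.2 ⟨u, hu, rfl⟩) (finite_of_spn Qp_le' key)
  exact ⟨m, s, PBasis.of_bas hs hb⟩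

/-- `KN` of a floor. -/
theorem kn_floor (hΩ : CompleteV v) (h : KN p v C) (hw : TL v C w ρ) : KN p v (cadj v C w) where
  cld := cld_cadj _ _ _
  imm := TWN1.GPf.imm h.imm hw.imm
  pb := pb_floor hΩ h.pb hw

variable {E : IntermediateField k Ω → Prop} {F : IntermediateField k Ω}

theorem RFl.kn (hΩ : CompleteV v) (h : RFl v (SC p v E) (SF p v E) F) : KN p v F := by
  rcases h with ⟨-, σ, Φ, hA, -⟩ | ⟨C, σ, Φ, w, Z, κ', ρ, hC, hZ, -, rfl⟩
  · exact hA.kn
  · exact kn_floor hΩ hC.2.1.kn hZ.tl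

theorem RFl.fgc (h : RFl v (SC p v E) (SF p v E) F) : FGc v 3 F := by
  rcases h with ⟨h1, -⟩ | ⟨C, σ, Φ, w, Z, κ', ρ, hC, hZ, -, rfl⟩
  · exact h1
  · exact hC.1.cadj hZ.tl

end Pool.Agent.TWEX
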