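import Pool.Agent.Lib.TWEX.Cocyc

/-!
# TANK W, exit of the strict case, 4: two parameters

`hev hh l₀ y ε = ∑ h_l(y) ε ^ l`; `Upt` the straightened coordinate at the point `(y, u)`.
* `two_par`: if `h` is a cocycle up to `{≥ r - (l + m) σ + δ'}` then `U` at the point
  `(y + η, u + h(y; d) - h(y + η; d - η))` is near `U` at `(y, u)`;
* `rat_close`: rational functions at near points;
* `SFl.exists_hh`: the jets of `u` along a strict floor, in `N₀[y]`, `N₀` dense in `N`.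
-/

set_option autoImplicit false

open Polynomial Finset

namespace Pool.Agent.TWEX

open Pool.Agent.H15JM (RVal)
open Pool.Agent.LU1 (VPos adj)
open Pool.Agent.D2 (Ctx0)
open Pool.Agent.D2P (mem_clI mem_adj_iff mem_adj_self)
open Pool.Agent.TWM
open Pool.Agent.TWLM (HSd Oi)
open Pool.Agent.TWN1 (Set0)

universe u'

section two

variable {Ω : Type u'} [Field Ω] {v : RVal Ω}

/-- The displacement of `u`. -/
noncomputable def hev (hh : ℕ → Polynomial Ω) (l₀ : ℕ) (y ε : Ω) : Ω :=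
  ∑ l ∈ Icc 1 l₀, (hh l).eval y * ε ^ l

/-- The straightened coordinate at the point `(y, u)`. -/
noncomputable def Upt (p : ℕ) (hh : ℕ → Polynomial Ω) (l₀ j : ℕ) (n y u : Ω) : Ω :=
  u ^ p ^ j + ∑ l ∈ Icc 1 l₀, ((hh l).eval y) ^ p ^ j * (n - y ^ p ^ j) ^ l

/-- The binomial identity. -/
theorem binom_id' {uu : ℕ → Ω} {l₀ M : ℕ} (h0 : ∀ l, l₀ < l → uu l = 0) (hM : l₀ ≤ M) (e e' : Ω) :
    ∑ l ∈ range (l₀ + 1), ∑ m ∈ range (M + 1),
      (((l + m).choose m : ℕ) : Ω) * uu (l + m) * e ^ m * e' ^ l =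
      ∑ s ∈ range (l₀ + 1), uu s * (e + e') ^ s := by
  set H : Polynomial Ω := ∑ s ∈ range (l₀ + 1), monomial s (uu s) with hH
  have hHc : ∀ s, H.coeff s = uu s := by
    intro s
    rw [hH, finsetSum_coeff]
    simp only [coeff_monomial]
    rw [sum_ite_eq' (range (l₀ + 1)) s]
    split_ifs with h1
    · rfl
    · exact (h0 s (by simpa using h1)).symm
  have hHd : H.natDegree ≤ l₀ := natDegree_le_iff_coeff_eq_zero.2 fun s hs => by
    rw [hHc, h0 s hs]
  have hR : ∑ s ∈ range (l₀ + 1), uu s * (e + e') ^ s = H.eval (e + e') := by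
    rw [eval_eq_sum_range' (n := l₀ + 1) (by omega)]
    exact sum_congr rfl fun s _ => by rw [hHc]
  have h1 : (taylor e H).natDegree < l₀ + 1 := by
    rw [natDegree_taylor]
    omega
  rw [hR, add_comm e e', ← taylor_eval, eval_eq_sum_range' h1]
  refine sum_congr rfl fun l _ => ?_
  rw [taylor_coeff, ← sum_mul]
  congr 1
  rw [eval_eq_sum_range' (n := M + 1) ((natDegree_hasseDeriv_le H l).trans_lt (by omega))]
  refine sum_congr rfl fun m _ => ?_
  rw [hasseDeriv_coeff, hHc, add_comm m l, Nat.choose_symm_add]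

/-- The Taylor expansion of a polynomial of bounded degree. -/
theorem eval_add_eq {f : Polynomial Ω} {M : ℕ} (hf : f.natDegree ≤ M) (y e : Ω) :
    f.eval (y + e) = ∑ m ∈ range (M + 1), (hasseDeriv m f).eval y * e ^ m := by
  rw [add_comm y e, ← taylor_eval, eval_eq_sum_range' (n := M + 1) (by rw [natDegree_taylor]; omega)]
  exact sum_congr rfl fun m _ => by rw [taylor_coeff]

/-- Separation of the row `0`. -/
theorem sum_row (l₀ : ℕ) (g : ℕ → Ω) :
    ∑ s ∈ range (l₀ + 1), g s = g 0 + ∑ s ∈ Icc 1 l₀, g s := by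
  rw [sum_range_succ', add_comm]
  congr 1
  refine (sum_image (s := range l₀) (g := fun l => l + 1) (f := g)
    (fun a _ b _ hab => Nat.succ_injective hab)).symm.trans ?_
  congr 1
  ext l
  rw [mem_image, mem_Icc]
  constructor
  · rintro ⟨a, ha, rfl⟩
    have := mem_range.1 ha
    omega
  · rintro ⟨h3, h4⟩
    exact ⟨l - 1, mem_range.2 (by omega), by omega⟩

/-- The defect of the cocycle. -/
theorem defect_ge {hh : ℕ → Polynomial Ω} {l₀ : ℕ} (hl : ∀ l, l₀ < l → hh l = 0) {y : Ω}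
    {r σ δ' : ℝ} (hco : ∀ l m : ℕ, l ≠ 0 → m ≠ 0 → v.Ge (r - (l + m) * σ + δ')
      ((hasseDeriv m (hh l)).eval y - (((l + m).choose m : ℕ) : Ω) * (hh (l + m)).eval y)) :
    ∃ K : ℕ, ∀ {β a : ℝ} {e e' : Ω}, 0 ≤ β → σ - β ≤ a → v.Ge a e → v.Ge (σ - β) e' →
      v.Ge (r + δ' + (a - σ) - K * β)
        (hev hh l₀ y (e + e') - hev hh l₀ y e - hev hh l₀ (y + e) e') := by
  classical
  obtain ⟨M, hM0, hM⟩ : ∃ M : ℕ, l₀ ≤ M ∧ ∀ l ≤ l₀, (hh l).natDegree ≤ M :=
    ⟨l₀ + ∑ l ∈ range (l₀ + 1), (hh l).natDegree, by omega, fun l hl => by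
      have h1 := single_le_sum (f := fun l => (hh l).natDegree) (fun _ _ => Nat.zero_le _)
        (mem_range.2 (show l < l₀ + 1 by omega))
      exact h1.trans (Nat.le_add_left _ _)⟩
  refine ⟨l₀ + M, fun {β a e e'} hβ ha he he' => ?_⟩
  set uu : ℕ → Ω := fun l => if l = 0 then 0 else (hh l).eval y with huu
  have huu0 : ∀ l, l₀ < l → uu l = 0 := fun l h1 => by
    rw [huu]
    simp only
    rw [hl l h1, eval_zero, ite_self]
  have huu1 : ∀ l, l ≠ 0 → uu l = (hh l).eval y := fun l h1 => by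
    rw [huu]
    simp only
    rw [if_neg h1]
  have h1 : ∀ ε : Ω, hev hh l₀ y ε = ∑ s ∈ range (l₀ + 1), uu s * ε ^ s := by
    intro ε
    rw [sum_row, hev]
    have h2 : uu 0 * ε ^ 0 = 0 := by
      rw [huu]
      simp
    rw [h2, zero_add]
    refine sum_congr rfl fun l h2 => ?_
    rw [huu1 l (by have := (mem_Icc.1 h2).1; omega)]
  have h2 : hev hh l₀ (y + e) e' = ∑ l ∈ Icc 1 l₀, ∑ m ∈ range (M + 1),
      (hasseDeriv m (hh l)).eval y * e ^ m * e' ^ l := by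
    rw [hev]
    refine sum_congr rfl fun l h3 => ?_
    rw [eval_add_eq (hM l (mem_Icc.1 h3).2), sum_mul]
  -- the row `l = 0`
  have h3 : hev hh l₀ y (e + e') = hev hh l₀ y e + ∑ l ∈ Icc 1 l₀, ∑ m ∈ range (M + 1),
      (((l + m).choose m : ℕ) : Ω) * uu (l + m) * e ^ m * e' ^ l := by
    rw [h1, h1, ← binom_id' huu0 hM0 e e', sum_row]
    congr 1
    refine (sum_congr rfl fun m _ => ?_).trans (sum_subset (range_mono (by omega))
      fun m _ hm => ?_).symm
    · rw [zero_add, Nat.choose_self, Nat.cast_one, one_mul, pow_zero, mul_one]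
    · rw [huu0 m (by simpa using hm), zero_mul]
  rw [h3, add_sub_cancel_left, h2, ← sum_sub_distrib]
  refine RVal.Ge.sum _ _ fun l hl' => ?_
  obtain ⟨hl1, hl2⟩ := mem_Icc.1 hl'
  rw [← sum_sub_distrib]
  refine RVal.Ge.sum _ _ fun m hm => ?_
  have hm' : m ≤ M := by
    have := mem_range.1 hm
    omega
  by_cases hm0 : m = 0
  · subst hm0
    rw [Nat.choose_zero_right, Nat.cast_one, one_mul, add_zero, huu1 l (by omega),
      hasseDeriv_zero', sub_self]
    exact RVal.Ge.zero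
  have e1 : (((l + m).choose m : ℕ) : Ω) * uu (l + m) * e ^ m * e' ^ l -
      (hasseDeriv m (hh l)).eval y * e ^ m * e' ^ l =
      -(((hasseDeriv m (hh l)).eval y - (((l + m).choose m : ℕ) : Ω) * (hh (l + m)).eval y) *
        (e * e ^ (m - 1) * e' ^ l)) := by
    rw [huu1 (l + m) (by omega)]
    have h4 : e ^ m = e * e ^ (m - 1) := by
      rw [← pow_succ']
      congr 1
      omega
    rw [h4]
    ring
  rw [e1]
  refine RVal.Ge.neg (((hco l m (by omega) hm0).mul ((he.mul (ge_pow (he.mono ha) (m - 1))).mul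
    (ge_pow he' l))).mono ?_)
  have h5 : ((m - 1 : ℕ) : ℝ) = m - 1 := by
    rw [Nat.cast_sub (by omega)]
    norm_num
  rw [h5]
  have h6 : (l : ℝ) ≤ l₀ := by exact_mod_cast hl2
  have h7 : (m : ℝ) ≤ M := by exact_mod_cast hm'
  have h8 : (l : ℝ) * β ≤ l₀ * β := mul_le_mul_of_nonneg_right h6 hβ
  have h9 : (m : ℝ) * β ≤ M * β := mul_le_mul_of_nonneg_right h7 hβ
  push_cast
  nlinarith

/-- The straightened coordinate is a `p ^ j`-th power. -/
theorem Upt_eq {p : ℕ} [hp : Fact p.Prime] [CharP Ω p] (hh : ℕ → Polynomial Ω) (l₀ j : ℕ)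
    {n τ : Ω} (hτ : τ ^ p ^ j = n) (y u : Ω) :
    Upt p hh l₀ j n y u = (u + hev hh l₀ y (τ - y)) ^ p ^ j := by
  rw [Upt, hev, add_pow_char_pow, sum_pow_char_pow]
  congr 1
  refine sum_congr rfl fun l _ => ?_
  rw [mul_pow, ← pow_mul, mul_comm l, pow_mul, sub_pow_char_pow, hτ]

/-- **The two-parameter line.** -/
theorem two_par [IsAlgClosed Ω] {p : ℕ} [hp : Fact p.Prime] [CharP Ω p] {hh : ℕ → Polynomial Ω}
    {l₀ : ℕ} (hl : ∀ l, l₀ < l → hh l = 0) {y : Ω}
    {r σ δ' : ℝ} (hco : ∀ l m : ℕ, l ≠ 0 → m ≠ 0 → v.Ge (r - (l + m) * σ + δ')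
      ((hasseDeriv m (hh l)).eval y - (((l + m).choose m : ℕ) : Ω) * (hh (l + m)).eval y)) :
    ∃ K : ℕ, ∀ {β a : ℝ} {j : ℕ} {n η d u : Ω}, 0 ≤ β → σ - β ≤ a → v.Ge a η → v.Ge (σ - β) d →
      v.Ge (p ^ j * (σ - β)) (y ^ p ^ j - n) →
      v.Ge (p ^ j * (r + δ' + (a - σ) - K * β))
        (Upt p hh l₀ j n (y + η) (u + hev hh l₀ y d - hev hh l₀ (y + η) (d - η)) -
          Upt p hh l₀ j n y u) := by
  have hp0 : (0 : ℝ) < p := by exact_mod_cast hp.out.pos
  obtain ⟨K, hK⟩ := defect_ge hl hco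
  refine ⟨K, fun {β a j n η d u} hβ ha hη hd hyn => ?_⟩
  obtain ⟨τ, hτ⟩ := IsAlgClosed.exists_pow_nat_eq n (pow_pos hp.out.pos j)
  -- the distance of `y` and `τ`
  have htt : v.Ge (σ - β) (τ - y) := by
    intro h0
    have h1 : (τ - y) ^ p ^ j = -(y ^ p ^ j - n) := by
      rw [sub_pow_char_pow, hτ]
      ring
    have h2 : (τ - y) ^ p ^ j ≠ 0 := pow_ne_zero _ h0
    have h3 := hyn.neg
    rw [← h1] at h3
    have h4 := h3 h2
    rw [v.map_pow h0] at h4
    push_cast at h4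
    exact le_of_mul_le_mul_left h4 (by positivity)
  have hη' := hη.mono ha
  have h1 := hK hβ ha hη (hd.sub hη')
  have h2 := hK hβ ha hη (htt.sub hη')
  rw [add_sub_cancel] at h1 h2
  rw [Upt_eq hh l₀ j hτ, Upt_eq hh l₀ j hτ, ← sub_pow_char_pow]
  have e : u + hev hh l₀ y d - hev hh l₀ (y + η) (d - η) + hev hh l₀ (y + η) (τ - (y + η)) -
      (u + hev hh l₀ y (τ - y)) =
      (hev hh l₀ y d - hev hh l₀ y η - hev hh l₀ (y + η) (d - η)) -
      (hev hh l₀ y (τ - y) - hev hh l₀ y η - hev hh l₀ (y + η) (τ - y - η)) := by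
    rw [sub_sub τ y η]
    ring
  rw [e]
  refine (ge_pow (h1.sub h2) (p ^ j)).mono (le_of_eq ?_)
  push_cast
  ring

end two

variable {k Ω : Type u'} [Field k] [Field Ω] [Algebra k Ω] {v : RVal Ω}
  {N N₀ : IntermediateField k Ω} {D : ℕ → Ω → Ω} {y : Ω} {σ : ℝ}

/-- Polynomials at near points. -/
theorem poly_close [IsAlgClosed Ω] {U U' : Ω} {R g : ℝ} (hg : 0 < g)
    (hfar : ∀ θ : Ω, IsAlgebraic N θ → U ≠ θ ∧ v (U - θ) ≤ R) {f : Polynomial Ω} (hf : f ∈ PI N)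
    (hU : v.Ge (R + g) (U' - U)) : v.Ge (v (f.eval U) + g) (f.eval U' - f.eval U) := by
  by_cases h0 : f = 0
  · rw [h0, eval_zero, eval_zero, sub_self]
    exact RVal.Ge.zero
  have h1 : f.eval U' = ∑ m ∈ range (f.natDegree + 1), (hasseDeriv m f).eval U * (U' - U) ^ m := by
    rw [← eval_add_eq le_rfl, add_sub_cancel]
  rw [h1, sum_range_succ', hasseDeriv_zero', pow_zero, mul_one, add_sub_cancel_right]
  refine RVal.Ge.sum _ _ fun m _ => ?_
  have h2 := Roots.taylor_ge (v := v) h0 (fun θ hθ => hfar θ (isAlgebraic_root hf h0 hθ)) (m + 1)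
  rw [taylor_coeff] at h2
  refine (h2.mul (ge_pow hU (m + 1))).mono ?_
  push_cast
  have h3 : (0 : ℝ) ≤ m * g := by positivity
  linarith

/-- Rational functions at near points. -/
theorem rat_close [IsAlgClosed Ω] {U U' : Ω} {R g : ℝ} (hg : 0 < g)
    (hfar : ∀ θ : Ω, IsAlgebraic N θ → U ≠ θ ∧ v (U - θ) ≤ R) {f q : Polynomial Ω} (hf : f ∈ PI N)
    (hq : q ∈ PI N) (hU : v.Ge (R + g) (U' - U)) : v.Ge (v (f.eval U / q.eval U) + g)
      (f.eval U' / q.eval U' - f.eval U / q.eval U) := by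
  have hroot : ∀ g : Polynomial Ω, g ∈ PI N → g.eval U = 0 → g = 0 := by
    intro g hg h1
    by_contra h0
    exact (hfar U (isAlgebraic_root hg h0 h1)).1 rfl
  by_cases hq0 : q.eval U = 0
  · rw [hroot q hq hq0, eval_zero, eval_zero, div_zero, div_zero, sub_self]
    exact RVal.Ge.zero
  by_cases hf0 : f.eval U = 0
  · rw [hroot f hf hf0, eval_zero, eval_zero, zero_div, zero_div, sub_self]
    exact RVal.Ge.zero
  have h1 := poly_close hg hfar hf hU
  have h2 := poly_close hg hfar hq hU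
  obtain ⟨h3, h4⟩ := Gt.val_eq hq0 (Gt.of_ge (ge_sub_comm h2) (by linarith))
  have e : f.eval U' / q.eval U' - f.eval U / q.eval U =
      ((f.eval U' - f.eval U) * q.eval U - f.eval U * (q.eval U' - q.eval U)) *
        ((q.eval U)⁻¹ * (q.eval U')⁻¹) := by
    field_simp
    ring
  rw [e, div_eq_mul_inv, v.map_mul hf0 (inv_ne_zero hq0), v.map_inv hq0]
  have h5 : v.Ge (-v (q.eval U)) (q.eval U)⁻¹ := RVal.Ge.of_le (v.map_inv hq0).ge
  have h6 : v.Ge (-v (q.eval U)) (q.eval U')⁻¹ := RVal.Ge.of_le (by rw [v.map_inv h3, h4])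
  have h7 : v.Ge (v (f.eval U) + v (q.eval U) + g)
      ((f.eval U' - f.eval U) * q.eval U - f.eval U * (q.eval U' - q.eval U)) :=
    ((h1.mul (RVal.ge_self (v := v) (q.eval U))).mono (by linarith)).sub
      (((RVal.ge_self (v := v) (f.eval U)).mul h2).mono (by linarith))
  exact (h7.mul (h5.mul h6)).mono (by linarith)

/-- Polynomials over a dense subfield. -/
theorem dense_sub (hd : ∀ x ∈ N, ∀ b : ℝ, ∃ x' ∈ N₀, v.Ge b (x - x')) {f : Polynomial Ω}
    (hf : f ∈ PI N) (y : Ω) (b : ℝ) : ∃ g ∈ PI N₀, v.Ge b (f.eval y - g.eval y) := by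
  classical
  obtain ⟨c, hc0, hc⟩ : ∃ c : ℝ, c ≤ 0 ∧ v.Ge c y :=
    ⟨min 0 (v y), min_le_left _ _, (RVal.ge_self y).mono (min_le_right _ _)⟩
  have h1 : ∀ i : ℕ, ∃ x' ∈ N₀, v.Ge (b - f.natDegree * c) (f.coeff i - x') := fun i =>
    hd _ (hf i) _
  choose x' hx' hx using h1
  refine ⟨∑ i ∈ range (f.natDegree + 1), C (x' i) * X ^ i, sum_mem fun i _ =>
    mul_mem (C_mem_PI (hx' i)) (pow_mem X_mem_PI i), ?_⟩
  rw [eval_finsetSum, eval_eq_sum_range, ← sum_sub_distrib]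
  refine RVal.Ge.sum _ _ fun i hi => ?_
  rw [eval_mul, eval_C, eval_pow, eval_X, ← sub_mul]
  refine ((hx i).mul (ge_pow hc i)).mono ?_
  have h2 : (i : ℝ) ≤ f.natDegree := by
    have := mem_range.1 hi
    exact_mod_cast (by omega : i ≤ f.natDegree)
  nlinarith

namespace SFl

variable {p : ℕ} (h : SFl p v N y σ D)
include h

/-- `N₀[y]` is dense. -/
theorem dense' (hd : ∀ x ∈ N, ∀ b : ℝ, ∃ x' ∈ N₀, v.Ge b (x - x')) {x : Ω}
    (hx : x ∈ cadj v N y) (b : ℝ) : ∃ f ∈ PI N₀, v.Ge b (x - f.eval y) := by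
  obtain ⟨f, hf, h1⟩ := h.dense x hx b
  obtain ⟨g, hg, h2⟩ := dense_sub hd hf y b
  refine ⟨g, hg, ?_⟩
  have e : x - g.eval y = (x - f.eval y) + (f.eval y - g.eval y) := by ring
  rw [e]
  exact h1.add h2

/-- The setting of N1 with jets in `N₀[y]`, `N₀` dense in `N`. -/
theorem exists_set0' (hN₀ : N₀ ≤ N) (hd : ∀ x ∈ N, ∀ b : ℝ, ∃ x' ∈ N₀, v.Ge b (x - x')) {u : Ω}
    {r : ℝ} (hu : TL v (cadj v N y) u r) :
    ∃ (Z : PowerSeries Ω) (κ : ℕ → ℝ), Set0 v (cadj v N y) D u Z κ r σ ∧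
      ∀ n, ∃ f ∈ PI N₀, PowerSeries.coeff n Z = f.eval y := by
  have h1 : ∀ n : ℕ, ∃ η : ℝ, 0 < η ∧
      (n ≠ 0 → ∀ x ∈ cadj v N y, ∀ b, v.Ge b x → v.Ge (b - n * σ + η) (D n x)) := by
    intro n
    by_cases hn : n = 0
    · exact ⟨1, one_pos, fun h => absurd hn h⟩
    · obtain ⟨η, hη, h2⟩ := h.str n hn
      exact ⟨η, hη, fun _ => h2⟩
  choose κ hκ hstr using h1
  have h2 : ∀ n : ℕ, ∃ f ∈ PI N₀, v.Ge (r - κ n / 2) (u - f.eval y) := by
    intro n
    obtain ⟨c, hc, h3⟩ := hu.lim (κ n / 2) (half_pos (hκ n))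
    obtain ⟨f, hf, h4⟩ := h.dense' hd hc (r - κ n / 2)
    refine ⟨f, hf, ?_⟩
    have e : u - f.eval y = (u - c) + (c - f.eval y) := by ring
    rw [e]
    exact h3.add h4
  choose c hc hwc using h2
  have hc' : ∀ n, c n ∈ PI N := fun n => PI_mono hN₀ (hc n)
  have hcC : ∀ n, (c n).eval y ∈ cadj v N y := fun n => TWLM.eval_mem_cadj (hc' n)
  refine ⟨PowerSeries.mk fun n => if n = 0 then 0 else D n ((c n).eval y), κ, ?_, fun n => ?_⟩
  · refine
      { hsd := h.hsd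
        oi := h.oi
        tl := hu
        z0 := by rw [PowerSeries.coeff_mk, if_pos rfl]
        zmem := fun n => by
          rw [PowerSeries.coeff_mk]
          split_ifs
          exacts [zero_mem _, h.hsd.mem n _ (hcC n)]
        kpos := hκ
        str := hstr
        near := ?_ }
    intro n hn d hd' b hb
    rw [PowerSeries.coeff_mk, if_neg hn, ← h.hsd.sub n (hcC n) hd']
    have h2 : v.Ge (min b (r - κ n / 2)) ((c n).eval y - d) := by
      have e : (c n).eval y - d = (u - d) - (u - (c n).eval y) := by ring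
      rw [e]
      exact (hb.mono (min_le_left _ _)).sub ((hwc n).mono (min_le_right _ _))
    refine (hstr n hn _ (sub_mem (hcC n) hd') _ h2).mono ?_
    rcases le_total b (r - κ n / 2) with h3 | h3
    · rw [min_eq_left h3]
      linarith [min_le_left (b + κ n) (r + κ n / 2)]
    · rw [min_eq_right h3]
      linarith [min_le_right (b + κ n) (r + κ n / 2)]
  · rw [PowerSeries.coeff_mk]
    split_ifs
    · exact ⟨0, zero_mem _, eval_zero.symm⟩
    · exact ⟨_, hasse_mem_PI (hc n) n, h.poly n _ (hc' n)⟩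

/-- The visible jets: a cocycle. -/
theorem exists_hh (hN₀ : N₀ ≤ N) {u : Ω} {r : ℝ} {Z : PowerSeries Ω} {κ : ℕ → ℝ}
    (hZ : Set0 v (cadj v N y) D u Z κ r σ)
    (hZp : ∀ n, ∃ f ∈ PI N₀, PowerSeries.coeff n Z = f.eval y) {l₀ : ℕ}
    (hfin : ∀ n : ℕ, l₀ < n → Gt v (r - n * σ) (PowerSeries.coeff n Z)) :
    ∃ (hh : ℕ → Polynomial Ω) (δ' : ℝ), 0 < δ' ∧ (∀ l, hh l ∈ PI N₀) ∧ (∀ l, l₀ < l → hh l = 0) ∧
      (∀ l, (hh l).eval y = vis Z l₀ l) ∧
      ∀ l m : ℕ, l ≠ 0 → m ≠ 0 → v.Ge (r - (l + m) * σ + δ')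
        ((hasseDeriv m (hh l)).eval y - (((l + m).choose m : ℕ) : Ω) * (hh (l + m)).eval y) := by
  classical
  choose f hf hfZ using hZp
  set hh : ℕ → Polynomial Ω := fun l => if l = 0 ∨ l₀ < l then 0 else f l with hhd
  have hh0 : ∀ l, l₀ < l → hh l = 0 := fun l hl => by
    rw [hhd]
    simp only
    rw [if_pos (Or.inr hl)]
  have hhm : ∀ l, hh l ∈ PI N₀ := fun l => by
    rw [hhd]
    simp only
    split_ifs
    exacts [zero_mem _, hf l]
  have hhe : ∀ l, (hh l).eval y = vis Z l₀ l := fun l => by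
    rw [hhd, vis]
    simp only
    split_ifs
    exacts [eval_zero, (hfZ l).symm]
  have hD : ∀ l m, (hasseDeriv m (hh l)).eval y = D m ((hh l).eval y) := fun l m =>
    (h.poly m _ (PI_mono hN₀ (hhm l))).symm
  obtain ⟨M, hM⟩ : ∃ M : ℕ, ∀ l ≤ l₀, (hh l).natDegree ≤ M :=
    ⟨∑ l ∈ range (l₀ + 1), (hh l).natDegree, fun l hl =>
      single_le_sum (f := fun l => (hh l).natDegree) (fun _ _ => Nat.zero_le _)
        (mem_range.2 (by omega))⟩
  obtain ⟨δ', hδ', h1⟩ := exists_margin ((Icc 1 l₀) ×ˢ (Icc 1 (max l₀ M)))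
    (fun x η => v.Ge (r - (x.1 + x.2) * σ + η)
      (D x.2 (vis Z l₀ x.1) - (((x.1 + x.2).choose x.2 : ℕ) : Ω) * vis Z l₀ (x.1 + x.2)))
    (fun x hx => by
      obtain ⟨h2, h3⟩ := mem_product.1 hx
      obtain ⟨h4, h5⟩ := mem_Icc.1 h2
      obtain ⟨h6, h7⟩ := mem_Icc.1 h3
      have h8 := h.cocycle hZ (l := x.1) (m := x.2) (by omega)
      have h9 : vis Z l₀ x.1 = PowerSeries.coeff x.1 Z := by
        unfold vis
        rw [if_neg (by omega)]
      have hk1 := hZ.kpos x.1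
      have hk2 := hZ.kpos (x.1 + x.2)
      rw [h9]
      by_cases h10 : x.1 + x.2 ≤ l₀
      · have h11 : vis Z l₀ (x.1 + x.2) = PowerSeries.coeff (x.1 + x.2) Z := by
          unfold vis
          rw [if_neg (by omega)]
        rw [h11]
        exact ⟨_, lt_min (by linarith) (by linarith), h8⟩
      · have h11 : vis Z l₀ (x.1 + x.2) = 0 := by
          unfold vis
          rw [if_pos (by omega)]
        rw [h11, mul_zero, sub_zero]
        obtain ⟨η, hη, h12⟩ := TWLM.exists_ge_of_gt (hfin (x.1 + x.2) (by omega))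
        refine ⟨min (min (κ x.1 / 2) (κ (x.1 + x.2) / 2)) η,
          lt_min (lt_min (by linarith) (by linarith)) hη, ?_⟩
        have e : D x.2 (PowerSeries.coeff x.1 Z) = (D x.2 (PowerSeries.coeff x.1 Z) -
            (((x.1 + x.2).choose x.2 : ℕ) : Ω) * PowerSeries.coeff (x.1 + x.2) Z) +
            (((x.1 + x.2).choose x.2 : ℕ) : Ω) * PowerSeries.coeff (x.1 + x.2) Z := by ring
        rw [e]
        have h13 := (ge_natCast v ((x.1 + x.2).choose x.2)).mul h12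
        push_cast at h13
        refine (h8.mono ?_).add (h13.mono ?_)
        · linarith [min_le_left (min (κ x.1 / 2) (κ (x.1 + x.2) / 2)) η]
        · linarith [min_le_right (min (κ x.1 / 2) (κ (x.1 + x.2) / 2)) η])
    (fun x _ η η' hη h2 => h2.mono (by linarith))
  refine ⟨hh, δ', hδ', hhm, hh0, hhe, fun l m hl hm => ?_⟩
  by_cases hl' : l ≤ l₀
  · by_cases hmM : m ≤ max l₀ M
    · rw [hD, hhe, hhe]
      exact h1 (l, m) (mem_product.2 ⟨mem_Icc.2 ⟨by omega, hl'⟩, mem_Icc.2 ⟨by omega, hmM⟩⟩)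
    · rw [hh0 (l + m) (by omega), eval_zero, mul_zero, sub_zero,
        hasseDeriv_eq_zero_of_lt_natDegree _ _ (lt_of_le_of_lt (hM l hl') (by omega)), eval_zero]
      exact RVal.Ge.zero
  · rw [hh0 l (by omega), hh0 (l + m) (by omega), map_zero, eval_zero, mul_zero, sub_zero]
    exact RVal.Ge.zero

end SFl

end Pool.Agent.TWEX
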