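import Pool.Agent.Lib.TWEX.IsoR
import Pool.Agent.Lib.TWEX.KArc

/-!
# TANK W: floors through an upward step of an isogeny

`tl_down`, `finSh_down`: `z` over `L`, `L ^ p ≤ K ≤ L`: `z ^ p` is of transcendental type over `K`,
and of finite shape if `z` is.
-/

set_option autoImplicit false

open Polynomial Finset

namespace Pool.Agent.TWEX

open Pool.Agent.H15JM (RVal)
open Pool.Agent.TWM
open Pool.Agent.TWLM (HSd Oi Arc)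

universe u

variable {k Ω : Type u} [Field k] [Field Ω] [Algebra k Ω] {v : RVal Ω}
  {K L : IntermediateField k Ω} {Φ Φ' Ψ : ℕ → Ω → Ω} {p : ℕ} {σ μ s : ℝ} {α z : Ω}
  [hp : Fact p.Prime] [CharP Ω p]

/-- A floor, one step down. -/
theorem tl_down [IsAlgClosed Ω] (hKL : K ≤ L) (hpow : ∀ x ∈ L, x ^ p ∈ K) (hz : TL v L z s) :
    TL v K (z ^ p) (p * s) := by
  have hp0 : (0 : ℝ) < p := by exact_mod_cast hp.out.pos
  refine ⟨fun ε hε => ?_, fun θ hθ => ?_⟩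
  · obtain ⟨a, ha, h1⟩ := hz.lim (ε / p) (div_pos hε hp0)
    refine ⟨a ^ p, hpow a ha, ?_⟩
    have h2 := ge_pow h1 p
    rw [sub_pow_char] at h2
    refine h2.mono ?_
    rw [mul_sub, mul_div_cancel₀ _ hp0.ne']
  · obtain ⟨η, hη⟩ := IsAlgClosed.exists_pow_nat_eq θ hp.out.pos
    have h1 : IsAlgebraic L η := by
      have h2 : IsAlgebraic L θ := D2P.alg_mono hKL hθ
      rw [← hη] at h2
      exact h2.of_pow hp.out.pos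
    obtain ⟨h3, h4⟩ := hz.far η h1
    have h5 : z - η ≠ 0 := sub_ne_zero.2 h3
    have e1 : z ^ p - θ = (z - η) ^ p := by rw [sub_pow_char, hη]
    have h6 : z ^ p - θ ≠ 0 := by rw [e1]; exact pow_ne_zero _ h5
    refine ⟨sub_ne_zero.1 h6, ?_⟩
    rw [e1, v.map_pow h5]
    exact mul_lt_mul_of_pos_left h4 hp0

/-- **Finite shape, one step down.** -/
theorem finSh_down (hpow : ∀ x ∈ L, x ^ p ∈ K ∧ ∀ l, Ψ l x ^ p = Φ' l (x ^ p))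
    (h : Arc v K σ Φ) (ho : Oi v K σ Φ) (h' : HSd K Φ') (ho' : Oi v K σ Φ')
    (hn : ∀ x ∈ K, ∀ b : ℝ, v.Ge b x → ∀ l : ℕ, v.Ge (b + μ - l * σ) (Φ' l x - Φ l x))
    (hμ : 0 < μ) (hz : Lim v L s z) (hf : FinSh v L (σ / p) s Ψ z) :
    FinSh v K σ (p * s) Φ (z ^ p) := by
  have hp0 : (0 : ℝ) < p := by exact_mod_cast hp.out.pos
  obtain ⟨L₀, hL₀⟩ := hf
  obtain ⟨θ₀, hθ₀, h1⟩ := hz (μ / p) (div_pos hμ hp0)
  have h1p : v.Ge (p * s - μ) (z ^ p - θ₀ ^ p) := by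
    have h2 := ge_pow h1 p
    rw [sub_pow_char] at h2
    refine h2.mono ?_
    rw [mul_sub, mul_div_cancel₀ _ hp0.ne']
  have hc₀ := (hpow θ₀ hθ₀).1
  obtain ⟨L₁, hL₁⟩ := ho _ hc₀ (p * s)
  obtain ⟨L₂, hL₂⟩ := ho' _ hc₀ (p * s)
  refine ⟨max L₀ (max L₁ L₂), fun l hl => ?_⟩
  have hl0 : L₀ < l := (le_max_left _ _).trans_lt hl
  have hl1 : L₁ ≤ l := ((le_max_left L₁ L₂).trans (le_max_right _ _)).trans hl.le
  have hl2 : L₂ ≤ l := ((le_max_right L₁ L₂).trans (le_max_right _ _)).trans hl.le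
  obtain ⟨δ, hδ, h2⟩ := hL₀ l hl0
  obtain ⟨a, ha, h3⟩ := h.str l (by omega)
  -- the margin
  obtain ⟨ε, hε, hε1, hε2, hε3⟩ : ∃ ε : ℝ, 0 < ε ∧ ε ≤ δ ∧ p * ε ≤ μ ∧ p * ε ≤ l * σ - a := by
    refine ⟨min δ (min (μ / p) ((l * σ - a) / p)), lt_min hδ (lt_min (div_pos hμ hp0)
      (div_pos (by linarith) hp0)), min_le_left _ _, ?_, ?_⟩
    · calc (p : ℝ) * min δ (min (μ / p) ((l * σ - a) / p)) ≤ p * (μ / p) :=
          mul_le_mul_of_nonneg_left ((min_le_right _ _).trans (min_le_left _ _)) hp0.le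
        _ = μ := mul_div_cancel₀ _ hp0.ne'
    · calc (p : ℝ) * min δ (min (μ / p) ((l * σ - a) / p)) ≤ p * ((l * σ - a) / p) :=
          mul_le_mul_of_nonneg_left ((min_le_right _ _).trans (min_le_right _ _)) hp0.le
        _ = l * σ - a := mul_div_cancel₀ _ hp0.ne'
  obtain ⟨θ, hθ, h4⟩ := hz ε hε
  have h4p : v.Ge (p * s - p * ε) (z ^ p - θ ^ p) := by
    have h5 := ge_pow h4 p
    rw [sub_pow_char, mul_sub] at h5
    exact h5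
  have hθK := (hpow θ hθ).1
  -- the jet at `θ ^ p`
  have h5 : v.Ge (p * s - l * σ) (Φ' l (θ ^ p)) := by
    have h6 := ge_pow (h2 θ hθ (h4.mono (by linarith))) p
    rw [(hpow θ hθ).2 l] at h6
    refine h6.mono ?_
    rw [mul_sub, mul_left_comm, mul_div_cancel₀ _ hp0.ne']
  have h6 : v.Ge (p * s - l * σ) (Φ' l (θ ^ p) - Φ l (θ ^ p)) := by
    have h7 : v.Ge (p * s - μ) (θ ^ p - θ₀ ^ p) := by
      have e1 : θ ^ p - θ₀ ^ p = (z ^ p - θ₀ ^ p) - (z ^ p - θ ^ p) := by ring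
      rw [e1]
      exact h1p.sub (h4p.mono (by linarith))
    have h8 := hn _ (sub_mem hθK hc₀) _ h7 l
    have e1 : Φ' l (θ ^ p) - Φ l (θ ^ p) = (Φ' l (θ ^ p - θ₀ ^ p) - Φ l (θ ^ p - θ₀ ^ p)) +
        (Φ' l (θ₀ ^ p) - Φ l (θ₀ ^ p)) := by
      rw [h'.sub l hθK hc₀, h.toHSd.sub l hθK hc₀]
      ring
    rw [e1]
    exact (h8.mono (by linarith)).add ((hL₂ l hl2).sub (hL₁ l hl1))
  have h7 : v.Ge (p * s - l * σ) (Φ l (θ ^ p)) := by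
    have e1 : Φ l (θ ^ p) = Φ' l (θ ^ p) - (Φ' l (θ ^ p) - Φ l (θ ^ p)) := by ring
    rw [e1]
    exact h5.sub h6
  refine ⟨p * ε, mul_pos hp0 hε, fun c hc h8 => ?_⟩
  have h9 : v.Ge (p * s - p * ε) (c - θ ^ p) := by
    have e1 : c - θ ^ p = (z ^ p - θ ^ p) - (z ^ p - c) := by ring
    rw [e1]
    exact h4p.sub h8
  have e1 : Φ l c = Φ l (c - θ ^ p) + Φ l (θ ^ p) := by
    rw [h.toHSd.sub l hc hθK]
    ring
  show v.Ge (p * s - l * σ) (Φ l c)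
  rw [e1]
  exact ((h3 _ (sub_mem hc hθK) _ h9).mono (by linarith)).add h7

/-- **DOWN**, for the data of `iso_up`. -/
theorem Up.down [IsAlgClosed Ω] {Θ : ℕ → Ω → Ω} (hU : Iso.Up p v K σ Φ α μ Θ Ψ)
    (h : Arc v K σ Φ) (ho : Oi v K σ Φ) (hz : TL v (cadj v K α) z s)
    (hf : FinSh v (cadj v K α) (σ / p) s Ψ z) :
    TL v K (z ^ p) (p * s) ∧ FinSh v K σ (p * s) Φ (z ^ p) := by
  have hle : K ≤ cadj v K α := le_cadj v K α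
  refine ⟨tl_down hle (fun x hx => (hU.pow x hx).1) hz, ?_⟩
  exact finSh_down hU.pow h ho (Iso.hcomp_hsd hU.ni'.hsd h.toHSd) (hU.ni'.oi hU.oi' h.toHSd ho)
    hU.near hU.ni.pos hz.lim hf

/-- The arc of `L`, `L ^ p ≤ F ≤ L`, is near the one of `F`. -/
def Dn (p : ℕ) (v : RVal Ω) (F : IntermediateField k Ω) (σ : ℝ) (Φ : ℕ → Ω → Ω)
    (L : IntermediateField k Ω) (Ψ : ℕ → Ω → Ω) : Prop :=
  F ≤ L ∧ ∃ (μ : ℝ) (Φ₁ : ℕ → Ω → Ω), 0 < μ ∧ HSd F Φ₁ ∧ Oi v F σ Φ₁ ∧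
    (∀ x ∈ F, ∀ b : ℝ, v.Ge b x → ∀ l : ℕ, v.Ge (b + μ - l * σ) (Φ₁ l x - Φ l x)) ∧
    ∀ x ∈ L, x ^ p ∈ F ∧ ∀ l, Ψ l x ^ p = Φ₁ l (x ^ p)

theorem Dn.down [IsAlgClosed Ω] (hD : Dn p v K σ Φ L Ψ) (h : Arc v K σ Φ) (ho : Oi v K σ Φ)
    (hz : TL v L z s) (hf : FinSh v L (σ / p) s Ψ z) :
    TL v K (z ^ p) (p * s) ∧ FinSh v K σ (p * s) Φ (z ^ p) := by
  obtain ⟨hle, μ, Φ₁, hμ, h1, h2, h3, h4⟩ := hD
  exact ⟨tl_down hle (fun x hx => (h4 x hx).1) hz, finSh_down h4 h ho h1 h2 h3 hμ hz.lim hf⟩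

theorem Up.dn {Θ : ℕ → Ω → Ω} (hU : Iso.Up p v K σ Φ α μ Θ Ψ)
    (h : Arc v K σ Φ) (ho : Oi v K σ Φ) : Dn p v K σ Φ (cadj v K α) Ψ :=
  ⟨le_cadj v K α, μ, _, hU.ni.pos, Iso.hcomp_hsd hU.ni'.hsd h.toHSd,
    hU.ni'.oi hU.oi' h.toHSd ho, hU.near, hU.pow⟩

end Pool.Agent.TWEX
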