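import Pool.Agent.Lib.TWEX.Wi4

/-!
# TANK W, strict first floor, rational radius: assembly

* `SRow`: 12's record `STow` without the irrationality of the radius;
* `srow_dich`: unhit, or a presentation with `u` of finite shape whose top floor hits `a`;
* `mobQ0_rt_of`: the critical step, from a construction `Q` of exit data in the completion.
-/

set_option autoImplicit false

open Polynomial Finset

namespace Pool.Agent.TWEX

open Pool.Agent.H15JM (RVal)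
open Pool.Agent.LU1 (VPos adj)
open Pool.Agent.D2 (Ctx0)
open Pool.Agent.D2P (hen clI mem_clI)
open Pool.Agent.TWM
open Pool.Agent.TWII (PG LP)
open Pool.Agent.TWLM (HSd Oi Arc)
open Pool.Agent.TWN1 (Unh Res FinS Gen2 n1_res unh_or_finS)
open Pool.Agent.TWS (IsoE)
open Pool.Agent.TWS7 (STow PDiv Unhit FGc MotE alt_of mobQ0_of_mot unhit_of_unh)
open Pool.Agent.TW (Ctx Full BD HRone LU Mot kr)

universe u'

section

variable {k Ω : Type u'} [Field k] [Field Ω] [Algebra k Ω]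

/-- Two floors `u`, `w` over `C = N(y)`, `y` a strict floor over `N` of any radius. -/
structure SRow (p : ℕ) (v : RVal Ω) (N : IntermediateField k Ω) (y : Ω) (σ : ℝ) (D : ℕ → Ω → Ω)
    (u : Ω) (ρ : ℝ) (w : Ω) (s : ℝ) (L : IntermediateField k Ω) : Prop where
  cN : Cld v N
  val : ∃ x ∈ N, x ≠ 0 ∧ v x ≠ 0
  sfl : SFl p v N y σ D
  fg : FGc v 2 (cadj v N y)
  tu : TL v (cadj v N y) u ρ
  tw : TL v (cadj v (cadj v N y) u) w s
  eq : L = cadj v (cadj v (cadj v N y) u) w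

variable {v : RVal Ω} {N L : IntermediateField k Ω} {y u w : Ω} {σ ρ s ν : ℝ} {D : ℕ → Ω → Ω}
  {p : ℕ}

/-- Another presentation. -/
theorem SRow.gen (h : SRow p v N y σ D u ρ w s L) {z z' : Ω} {r r' : ℝ}
    (hg : Gen2 v (cadj v N y) L z r z' r') : SRow p v N y σ D z r z' r' L :=
  ⟨h.cN, h.val, h.sfl, h.fg, hg.t1, hg.t2, hg.eq⟩

theorem _root_.Pool.Agent.TWS7.STow.srow (h : STow p v N y σ D u ρ w s L) :
    SRow p v N y σ D u ρ w s L :=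
  ⟨h.cN, h.val, h.sfl, h.fg, h.tu, h.tw, h.eq⟩

/-- **The dichotomy**, any radius: unhit, or `u` of finite shape and `w` hits `a`. -/
theorem srow_dich [hp : Fact p.Prime] [CharP Ω p] [IsAlgClosed Ω] (hΩ : CompleteV v)
    (h : SRow p v N y σ D u ρ w s L) {a : Ω} (ha : a ∈ L) (hlim : LP p v L ν a) :
    Unhit p v 3 L ν a ∨ ∃ (u' w' : Ω) (ρ' s' : ℝ), SRow p v N y σ D u' ρ' w' s' L ∧
      FinSh v (cadj v N y) σ ρ' D u' ∧ ¬ Unh p v (cadj v (cadj v N y) u') L w' s' ν a := by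
  rcases n1_res hΩ (TWEX.SFl.arc' h.sfl) h.sfl.oi h.tu h.tw h.eq ha hlim with
    ⟨z, z', r, r', hg, h1⟩ | ⟨z, z', r, r', hg, h1, -⟩
  · exact Or.inl (unhit_of_unh (h.fg.cadj hg.t1) hg.t2 hg.eq h1)
  · by_cases h2 : Unh p v (cadj v (cadj v N y) z) L z' r' ν a
    · exact Or.inl (unhit_of_unh (h.fg.cadj hg.t1) hg.t2 hg.eq h2)
    · exact Or.inr ⟨z, z', r, r', h.gen hg, h1, h2⟩

/-- The hit, in coordinates. -/
theorem exists_hit [hp : Fact p.Prime] [CharP Ω p] [IsAlgClosed Ω] {F : IntermediateField k Ω}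
    (hz : TL v F w s) (hL : L = cadj v F w) {a : Ω} (ha : a ∈ L) (hlim : LP p v L ν a)
    (hu : ¬ Unh p v F L w s ν a) :
    ∃ f ∈ PI F, PG p v L ν (a - f.eval w) ∧ LP p v L ν (f.eval w) ∧
      ∃ l : ℕ, p ∣ l ∧ l ≠ 0 ∧ ¬ PG p v L (ν - l * s) ((taylor w f).coeff l) := by
  obtain ⟨f, hf, h1⟩ := hz.dense (hL ▸ ha) (ν + 1)
  have h2 : PG p v L ν (a - f.eval w) := .of_gt (Gt.of_ge h1 (by linarith))
  have h3 : LP p v L ν (f.eval w) := by
    have h4 := hlim.sub (TWII.LP.of_pg h2)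
    rwa [sub_sub_cancel] at h4
  refine ⟨f, hf, h2, h3, ?_⟩
  by_contra h4
  push Not at h4
  exact hu ⟨f, hf, h2, fun l h5 h6 => h4 l h5 h6⟩

end

section

variable {k Ω Ω' : Type u'} [Field k] [Field Ω] [Algebra k Ω] [Field Ω'] [Algebra k Ω']
  {v : RVal Ω} {w : RVal Ω'} {ι : Ω →ₐ[k] Ω'}

/-- A tower in the completion, whose first floor `y` over a closed field `N ∋ x` is strict, `N(y)` the
closure of `k(x, y)`; any radius. -/
def STr (p : ℕ) (v : RVal Ω) (K₀ : IntermediateField k Ω) : Prop :=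
  ∃ (Ω' : Type u') (_ : Field Ω') (_ : Algebra k Ω') (ι : Ω →ₐ[k] Ω') (w : RVal Ω')
    (_ : IsAlgClosed Ω'), CompleteV w ∧ Dense v w ι ∧
      ∃ (N : IntermediateField k Ω') (x y : Ω') (σ : ℝ) (D : ℕ → Ω' → Ω') (u : Ω') (ρ : ℝ) (z : Ω')
        (s : ℝ), x ≠ 0 ∧ w x ≠ 0 ∧ x ∈ N ∧
        cadj w N y ≤ clI w (IntermediateField.adjoin k {x, y}) ∧
        SRow p w N y σ D u ρ z s (clI w (K₀.map ι))

theorem str_of_stw {p : ℕ} {K₀ : IntermediateField k Ω} (h : STw p v K₀) : STr p v K₀ := by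
  obtain ⟨Ω', iF, iA, ι, w, iC, hcw, hd, N, x, y, σ, D, u, ρ, z, s, hx0, hxv, hx, hC, hS⟩ := h
  exact ⟨Ω', iF, iA, ι, w, iC, hcw, hd, N, x, y, σ, D, u, ρ, z, s, hx0, hxv, hx, hC, hS.srow⟩

/-- The situation of the construction: `u` of finite shape, `z` hits the critical element `a`. -/
structure WinIn (p : ℕ) (w : RVal Ω') (N : IntermediateField k Ω') (x y : Ω') (σ : ℝ)
    (D : ℕ → Ω' → Ω') (u : Ω') (ρ : ℝ) (z : Ω') (s : ℝ) (L : IntermediateField k Ω') (ν : ℝ)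
    (a : Ω') : Prop where
  x0 : x ≠ 0
  xv : w x ≠ 0
  xN : x ∈ N
  den : cadj w N y ≤ clI w (IntermediateField.adjoin k {x, y})
  row : SRow p w N y σ D u ρ z s L
  fin : FinSh w (cadj w N y) σ ρ D u
  hit : ¬ Unh p w (cadj w (cadj w N y) u) L z s ν a
  mem : a ∈ L
  lim : LP p w L ν a
  far : ∀ g ∈ L, ¬ Gt w ν (a - g ^ p)
  div : PDiv p w L

/-- **The exit**, any radius, from a construction of motions. -/
theorem mobQ0_rt_of [IsAlgClosed k] [IsAlgClosed Ω] (p : ℕ) [Fact p.Prime] [CharP k p]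
    [CharP Ω p] (h : Ctx k v 1) {K₀ : IntermediateField k Ω} (hK : K₀.FG)
    (hΩ : ∀ g : Ω, IsAlgebraic K₀ g) (htr : Algebra.trdeg k K₀ = (4 : ℕ)) (hBDK : BD p v K₀)
    (hgr : PDiv p v K₀) {g : Ω} (hg : g ∉ K₀) (hgp : g ^ p ∈ K₀) (hBD : BD p v (adj K₀ g))
    (hst : STr p v K₀)
    (hM : ∀ (Ω' : Type u') (_ : Field Ω') (_ : Algebra k Ω') (ι : Ω →ₐ[k] Ω') (w : RVal Ω')
      (_ : IsAlgClosed Ω') (N : IntermediateField k Ω') (x y : Ω') (σ : ℝ) (D : ℕ → Ω' → Ω')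
      (u : Ω') (ρ : ℝ) (z : Ω') (s ν : ℝ), CharP Ω' p → CompleteV w → Dense v w ι → Ctx k w 1 →
      WinIn p w N x y σ D u ρ z s (clI w (K₀.map ι)) ν (ι (g ^ p)) → MotE p v K₀ ν (g ^ p)) :
    HRone v (adj K₀ g) ∨
      ∃ (φ : ℕ → (Ω ≃ₐ[k] Ω)) (δ : ℕ → Ω) (ρ : ℝ), Mot v K₀ φ δ ρ ∧
        ∀ i, ∃ c ∈ hen v K₀, ∃ b ∈ hen v K₀, c ≠ 0 ∧ φ i (g ^ p) = c ^ p * g ^ p + b ^ p := by
  obtain ⟨Ω', iF, iA, ι, w, iC, hcw, hd, N, x, y, σ, D, u, ρ, z, s, hx0, hxv, hx, hC, hS⟩ := hst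
  have hcp : CharP Ω' p := Dense.charP ι p
  have h' : Ctx k w 1 := Dense.ctx hd h
  have ham : ι (g ^ p) ∈ clI w (K₀.map ι) := le_clI _ (Dense.apply_mem_map.2 hgp)
  rcases alt_of p h hcw hd hK (TWM.full_of_all hΩ) htr hBDK hg hgp hBD (fun ν h1 h2 => by
    rcases srow_dich hcw hS ham h1 with h3 | ⟨u', z', ρ', s', hS', hu, hz⟩
    · exact Or.inl h3
    · exact Or.inr (hM Ω' iF iA ι w iC N x y σ D u' ρ' z' s' ν hcp hcw hd h'
        ⟨hx0, hxv, hx, hC, hS', hu, hz, ham, h1, h2, pdiv_clI p hd hgr⟩)) with h1 | ⟨ν, h1, -, h3⟩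
  · exact Or.inl h1
  · exact Or.inr (mobQ0_of_mot p h hK hΩ hBDK hgr hgp h1 h3)

end

end Pool.Agent.TWEX
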