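import Pool.Agent.Lib.TWEX.KArc0
import Pool.Agent.Lib.TWM.Bridge

/-!
# TANK W, exit over an infinite `W`, 1: dense rings

Rank one, rational rank one, residue field `k`: a ring which contains `k`, `x` and `x⁻¹`, `v x ≠ 0`, is
dense in the closure of its field of fractions.
-/

set_option autoImplicit false

open Polynomial Finset

namespace Pool.Agent.TWEX

open Pool.Agent.H15JM (RVal)
open Pool.Agent.LU1 (VPos adj)
open Pool.Agent.D2 (Ctx0)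
open Pool.Agent.D2P (clI mem_clI)
open Pool.Agent.TWM
open Pool.Agent.TW (Ctx)

universe u'

variable {k Ω : Type u'} [Field k] [Field Ω] [Algebra k Ω] {v : RVal Ω}

omit [Algebra k Ω] in
/-- `1 / (1 + μ)`. -/
theorem geom_inv {μ : Ω} (hμ : ∀ _ : μ ≠ 0, 0 < v μ) (b : ℝ) :
    ∃ n : ℕ, v.Ge b ((1 + μ)⁻¹ - ∑ i ∈ range n, (-μ) ^ i) := by
  have h1 : Gt v 0 (1 - (1 + μ)) := by
    rw [show (1 : Ω) - (1 + μ) = -μ by ring]
    exact Gt.neg hμ
  rw [← v.map_one] at h1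
  obtain ⟨h2, h3⟩ := Gt.val_eq one_ne_zero h1
  rw [v.map_one] at h3
  obtain ⟨η, hη, h4⟩ : ∃ η : ℝ, 0 < η ∧ v.Ge η (-μ) := by
    by_cases h0 : μ = 0
    · exact ⟨1, one_pos, by rw [h0, neg_zero]; exact RVal.Ge.zero⟩
    · exact ⟨v μ, hμ h0, (RVal.ge_self (v := v) μ).neg⟩
  obtain ⟨n, hn⟩ := exists_nat_gt (b / η)
  rw [div_lt_iff₀ hη] at hn
  refine ⟨n, ?_⟩
  have e : (1 + μ)⁻¹ - ∑ i ∈ range n, (-μ) ^ i = (-μ) ^ n * (1 + μ)⁻¹ := by
    have h5 : (∑ i ∈ range n, (-μ) ^ i) * (1 + μ) = 1 - (-μ) ^ n := by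
      have h6 := geom_sum_mul (-μ) n
      have h7 : (∑ i ∈ range n, (-μ) ^ i) * (1 + μ) = -((∑ i ∈ range n, (-μ) ^ i) * (-μ - 1)) := by
        ring
      rw [h7, h6]
      ring
    rw [eq_comm, ← sub_eq_zero]
    field_simp
    rw [mul_comm (1 + μ) (∑ i ∈ range n, (-μ) ^ i), h5]
    ring
  rw [e]
  have h5 : v.Ge 0 (1 + μ)⁻¹ := by
    intro _
    rw [v.map_inv h2, h3]
    simp
  refine ((ge_pow h4 n).mul h5).mono ?_
  linarith

/-- Every value is commensurable with the value of `x`. -/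
theorem exists_comm_val (h : Ctx k v 1) {x f : Ω} (hx0 : x ≠ 0) (hxv : v x ≠ 0) (hf : f ≠ 0) :
    ∃ (m : ℕ) (n : ℤ), m ≠ 0 ∧ (m : ℝ) * v f = n * v x := by
  obtain ⟨X, hX0, -, hXs⟩ := h.rank
  have h2 : ∀ g : Ω, g ≠ 0 → ∃ q : ℚ, v g = q * v (X 0) := by
    intro g hg
    obtain ⟨c, hc⟩ := (Submodule.mem_span_range_iff_exists_fun ℚ).1 (hXs g hg)
    refine ⟨c 0, ?_⟩
    rw [← hc, Fin.sum_univ_one, Rat.smul_def]
  obtain ⟨q, hq⟩ := h2 f hf
  obtain ⟨q', hq'⟩ := h2 x hx0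
  have hq'0 : q' ≠ 0 := by
    rintro rfl
    exact hxv (by rw [hq', Rat.cast_zero, zero_mul])
  refine ⟨(q / q').den, (q / q').num, Rat.den_ne_zero _, ?_⟩
  have h4 : ((q / q' : ℚ) : ℝ) * ((q / q').den : ℝ) = ((q / q').num : ℝ) := by
    have := Rat.mul_den_eq_num (q / q')
    exact_mod_cast this
  have h5 : ((q' : ℚ) : ℝ) ≠ 0 := by exact_mod_cast hq'0
  rw [← h4, hq, hq']
  push_cast
  field_simp

variable {α : Type*} [SetLike α Ω] [SubringClass α Ω] {R : α}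

/-- Inverses. -/
theorem inv_lim (h : Ctx k v 1) (hk : ∀ c : k, algebraMap k Ω c ∈ R) {x : Ω} (hx0 : x ≠ 0)
    (hxv : v x ≠ 0) (hx : x ∈ R) (hx' : x⁻¹ ∈ R) {f : Ω} (hf : f ∈ R) (hf0 : f ≠ 0) (b : ℝ) :
    ∃ c ∈ R, v.Ge b (f⁻¹ - c) := by
  obtain ⟨m, n, hm, h1⟩ := exists_comm_val h hx0 hxv hf0
  have hxz : ∀ n : ℤ, x ^ n ∈ R := by
    intro n
    obtain ⟨m, rfl | rfl⟩ := n.eq_nat_or_neg
    · rw [zpow_natCast]
      exact pow_mem hx m
    · rw [zpow_neg, zpow_natCast, ← inv_pow]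
      exact pow_mem hx' m
  have hg0 : f ^ m * x ^ (-n) ≠ 0 := mul_ne_zero (pow_ne_zero _ hf0) (zpow_ne_zero _ hx0)
  have hgv : v (f ^ m * x ^ (-n)) = 0 := by
    rw [v.map_mul (pow_ne_zero _ hf0) (zpow_ne_zero _ hx0), v.map_pow hf0, v.map_zpow hx0]
    push_cast
    linarith
  obtain ⟨c, hc0, hc⟩ := h.res _ hg0 hgv
  have hc0' : algebraMap k Ω c ≠ 0 := by
    rw [Ne, _root_.map_eq_zero]
    exact hc0
  obtain ⟨g, hg⟩ : ∃ g, g = f ^ m * x ^ (-n) := ⟨_, rfl⟩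
  rw [← hg] at hc hg0 hgv
  obtain ⟨μ, hμ⟩ : ∃ μ, μ = algebraMap k Ω c⁻¹ * (g - algebraMap k Ω c) := ⟨_, rfl⟩
  have hμR : μ ∈ R := by
    rw [hμ, hg]
    exact mul_mem (hk _) (sub_mem (mul_mem (pow_mem hf m) (hxz _)) (hk c))
  have hg1 : g = algebraMap k Ω c * (1 + μ) := by
    rw [hμ, map_inv₀]
    field_simp
    ring
  have hμv : ∀ _ : μ ≠ 0, 0 < v μ := by
    intro h2
    have h3 : g - algebraMap k Ω c ≠ 0 := by
      intro h4
      rw [h4, mul_zero] at hμ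
      exact h2 hμ
    have h5 : algebraMap k Ω c⁻¹ ≠ 0 := by
      rw [Ne, _root_.map_eq_zero]
      exact inv_ne_zero hc0
    rw [hμ, v.map_mul h5 h3, h.triv _ (inv_ne_zero hc0), zero_add]
    exact hc h3
  obtain ⟨B, hB⟩ : ∃ B : ℝ, v.Ge B (f ^ (m - 1) * x ^ (-n) * algebraMap k Ω c⁻¹) :=
    ⟨_, RVal.ge_self (v := v) _⟩
  obtain ⟨n', h2⟩ := geom_inv hμv (b - B)
  refine ⟨f ^ (m - 1) * x ^ (-n) * algebraMap k Ω c⁻¹ * ∑ i ∈ range n', (-μ) ^ i, ?_, ?_⟩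
  · exact mul_mem (mul_mem (mul_mem (pow_mem hf _) (hxz _)) (hk _))
      (sum_mem fun i _ => pow_mem (neg_mem hμR) i)
  · have e : f⁻¹ = f ^ (m - 1) * x ^ (-n) * algebraMap k Ω c⁻¹ * (1 + μ)⁻¹ := by
      have h3 : f ^ m = f ^ (m - 1) * f := by
        rw [← pow_succ]
        congr 1
        omega
      have h4 : f * (f ^ (m - 1) * x ^ (-n)) = algebraMap k Ω c * (1 + μ) := by
        rw [← hg1, hg, h3]
        ring
      have h5 : 1 + μ ≠ 0 := by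
        intro h6
        rw [h6, mul_zero] at hg1
        exact hg0 hg1
      rw [map_inv₀]
      field_simp
      rw [← h4]
      ring
    rw [e, ← mul_sub]
    exact (hB.mul h2).mono (by linarith)

/-- **A ring is dense in the closure of its field of fractions.** -/
theorem ring_dense (h : Ctx k v 1) (hk : ∀ c : k, algebraMap k Ω c ∈ R) {x : Ω} (hx0 : x ≠ 0)
    (hxv : v x ≠ 0) (hx : x ∈ R) (hx' : x⁻¹ ∈ R) {K : IntermediateField k Ω}
    (hK : ∀ a ∈ K, ∃ f ∈ R, ∃ g ∈ R, a = f / g) : ∀ a ∈ clI v K, ∀ b : ℝ, ∃ c ∈ R, v.Ge b (a - c) := by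
  intro a ha b
  obtain ⟨a', ha', h1⟩ := mem_clI.1 ha b
  obtain ⟨f, hf, g, hg, rfl⟩ := hK a' ha'
  by_cases hg0 : g = 0
  · refine ⟨0, zero_mem _, ?_⟩
    rwa [hg0, div_zero] at h1
  obtain ⟨B, hB⟩ : ∃ B : ℝ, v.Ge B f := ⟨_, RVal.ge_self (v := v) _⟩
  obtain ⟨c, hc, h2⟩ := inv_lim h hk hx0 hxv hx hx' hg hg0 (b - B)
  refine ⟨f * c, mul_mem hf hc, ?_⟩
  have e : a - f * c = (a - f / g) + f * (g⁻¹ - c) := by
    rw [div_eq_mul_inv]
    ring
  rw [e]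
  exact h1.add ((hB.mul h2).mono (by linarith))

/-- `k(x)[y]` is dense in the closure of `k(x, y)`. -/
theorem adn_dense (h : Ctx k v 1) {x y : Ω} (hx0 : x ≠ 0) (hxv : v x ≠ 0) :
    ∀ a ∈ clI v (IntermediateField.adjoin k {x, y}), ∀ b : ℝ,
      ∃ c ∈ Adn (IntermediateField.adjoin k {x}) {y}, v.Ge b (a - c) := by
  have hx : x ∈ IntermediateField.adjoin k {x} := IntermediateField.mem_adjoin_simple_self k x
  refine ring_dense h (fun c => mem_adn_of_mem (IntermediateField.algebraMap_mem _ c)) hx0 hxv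
    (mem_adn_of_mem hx) (mem_adn_of_mem (inv_mem hx)) fun a ha => ?_
  obtain ⟨r, hr, s, hs, rfl⟩ := IntermediateField.mem_adjoin_iff_div.1 ha
  have key : ∀ r ∈ Algebra.adjoin k ({x, y} : Set Ω),
      r ∈ Adn (IntermediateField.adjoin k {x}) {y} := by
    intro r hr
    induction hr using Algebra.adjoin_induction with
    | mem a ha =>
      rcases ha with rfl | ha
      · exact mem_adn_of_mem hx
      · exact Algebra.subset_adjoin ha
    | algebraMap c => exact mem_adn_of_mem (IntermediateField.algebraMap_mem _ c)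
    | add a b _ _ ha hb => exact add_mem ha hb
    | mul a b _ _ ha hb => exact mul_mem ha hb
  exact ⟨r, key r hr, s, key s hs, rfl⟩

end Pool.Agent.TWEX
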