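import Pool.Agent.Lib.TWEX.Wi1
import Pool.Agent.Lib.TWEX.XdA
import Pool.Agent.Lib.TWEX.XdEff

/-!
# TANK W, exit over an infinite `W`, 2: arcs, amounts, crossing

`KArcR`: the arc of a tower of two floors over `C = N(y)`, `N` any closed field, the jets in the rings
`N₀[y]`, `N₀[y, u]`, where `N₀ ≤ N` and `N₀[y]` is dense in `C`.
-/

set_option autoImplicit false

open Polynomial Finset

namespace Pool.Agent.TWEX

open Pool.Agent.H15JM (RVal)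
open Pool.Agent.LU1 (VPos adj)
open Pool.Agent.D2 (Ctx0)
open Pool.Agent.D2P (clI mem_clI mem_adj_iff mem_adj_self)
open Pool.Agent.TWM
open Pool.Agent.TWII (PG LP)
open Pool.Agent.TWLM (HSd Oi Arc)
open Pool.Agent.TWN1 (Set0)
open Pool.Agent.TWMF (XD ED Tri mv)
open Pool.Agent.TW (Ctx kr)

universe u'

variable {k Ω : Type u'} [Field k] [Field Ω] [Algebra k Ω] {v : RVal Ω}

/-- `KArc`, with the jets in `N₀[y]` and in `N₀[y, u]`, `N₀[y]` dense in `N(y)`. -/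
structure KArcR (p : ℕ) (v : RVal Ω) (N₀ N : IntermediateField k Ω) (y : Ω) (σ : ℝ)
    (D : ℕ → Ω → Ω) (K : IntermediateField k Ω) (u z : Ω) (r s : ℝ) (Ψ : ℕ → Ω → Ω) : Prop
    extends KArc p v N y σ D K u z r s Ψ where
  le0 : N₀ ≤ N
  denR : ∀ x ∈ cadj v N y, ∀ b : ℝ, ∃ c ∈ Adn N₀ {y}, v.Ge b (x - c)
  ju0 : ∀ l : ℕ, l ≠ 0 → ∃ f ∈ PI N₀, Ψ l u = f.eval y
  jz0 : ∀ l : ℕ, l ≠ 0 → Ψ l z ∈ Adn N₀ {y, u}

/-- **(II.a), part 1**, with the jets in `N₀[y]` and in `N₀[y, u]`. -/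
theorem exists_karcR [IsAlgClosed Ω] {p : ℕ} (hcv : CompleteV v)
    {N₀ N : IntermediateField k Ω} (hN₀ : N₀ ≤ N)
    {y : Ω} (hd1 : ∀ x ∈ cadj v N y, ∀ b : ℝ, ∃ c ∈ Adn N₀ {y}, v.Ge b (x - c)) {σ : ℝ}
    {D : ℕ → Ω → Ω}
    {K : IntermediateField k Ω} {u z : Ω} {r s : ℝ} (h : SDat p v N y σ D K u z r s)
    (hu : FinSh v (cadj v N y) σ r D u)
    (hz : ∀ Ψ₁ : ℕ → Ω → Ω, Arc v (cadj v (cadj v N y) u) σ Ψ₁ →
      Oi v (cadj v (cadj v N y) u) σ Ψ₁ → (∀ l : ℕ, ∀ x ∈ cadj v N y, Ψ₁ l x = D l x) →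
      FinSh v (cadj v (cadj v N y) u) σ s Ψ₁ z) :
    ∃ Ψ : ℕ → Ω → Ω, KArcR p v N₀ N y σ D K u z r s Ψ := by
  have hC : cadj v N y ≤ cadj v (cadj v N y) u := le_cadj v _ u
  have hF : cadj v (cadj v N y) u ≤ K := by
    rw [h.eq]
    exact le_cadj v _ z
  have hNC : N ≤ cadj v N y := le_cadj v N y
  have hyC : y ∈ cadj v N y := self_mem_cadj v N y
  have hu1 : u ∈ cadj v (cadj v N y) u := self_mem_cadj v _ u
  -- the first ring
  have hs1 := adn_stable h.fl.hsd (hN₀.trans hNC) (fun x hx n hn => h.fl.const (hN₀ hx) hn)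
    (S := {y}) (fun x hx => by rw [Set.mem_singleton_iff.1 hx]; exact hyC) (fun x hx n hn => by
      rw [Set.mem_singleton_iff.1 hx]
      by_cases hn1 : n = 1
      · rw [hn1, h.fl.coord_one]
        exact one_mem _
      · rw [h.fl.coord_two (by omega)]
        exact zero_mem _)
  obtain ⟨Z, κ, hZ, hZp⟩ := exists_set0_dense h.fl.hsd h.fl.oi h.fl.str h.tu
    (R := Adn N₀ {y}) (fun x hx => (hs1 x hx).1) hd1 (fun x hx => (hs1 x hx).2)
  obtain ⟨Ψ₁, n₁, ha, ho, he, hj⟩ := hu.exists_arc hcv hZ (hC.trans hF) h.irr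
  have hju : ∀ l : ℕ, l ≠ 0 → Ψ₁ l u ∈ Adn N₀ {y} := by
    intro l hl
    rw [hj l hl]
    split_ifs
    · exact hZp l
    · exact zero_mem _
  -- the second ring
  have hs2 := adn_stable ha.toHSd ((hN₀.trans hNC).trans hC) (fun x hx n hn => by
      rw [he n x (hNC (hN₀ hx))]
      exact h.fl.const (hN₀ hx) hn) (S := {y, u}) (fun x hx => by
      rcases hx with rfl | hx
      · exact hC hyC
      · rw [Set.mem_singleton_iff.1 hx]
        exact hu1) (fun x hx n hn => by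
      rcases hx with rfl | hx
      · rw [he n _ hyC]
        by_cases hn1 : n = 1
        · rw [hn1, h.fl.coord_one]
          exact one_mem _
        · rw [h.fl.coord_two (by omega)]
          exact zero_mem _
      · rw [Set.mem_singleton_iff.1 hx]
        exact Algebra.adjoin_mono (Set.singleton_subset_iff.2 (Set.mem_insert _ _)) (hju n hn))
  have hd2 : ∀ x ∈ cadj v (cadj v N y) u, ∀ b : ℝ, ∃ c ∈ Adn N₀ {y, u}, v.Ge b (x - c) := by
    intro x hx b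
    obtain ⟨f, hf, h1⟩ := h.tu.dense hx b
    obtain ⟨g, hg, h2⟩ := approx_poly hd1 u hf b
    refine ⟨g.eval u, eval_mem_adn (Set.mem_insert_of_mem _ (Set.mem_singleton u)) fun i =>
      Algebra.adjoin_mono (Set.singleton_subset_iff.2 (Set.mem_insert _ _)) (hg i), ?_⟩
    have e : x - g.eval u = (x - f.eval u) + (f.eval u - g.eval u) := by ring
    rw [e]
    exact h1.add h2
  obtain ⟨Z', κ', hZ', hZp'⟩ := exists_set0_dense ha.toHSd ho (fun n hn => by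
    obtain ⟨m, hm, h1⟩ := ha.str n hn
    exact ⟨n * σ - m, by linarith, fun x hx b hb => (h1 x hx b hb).mono (by linarith)⟩) h.tz
    (R := Adn N₀ {y, u}) (fun x hx => (hs2 x hx).1) hd2 (fun x hx => (hs2 x hx).2)
  obtain ⟨Ψ, n₂, ha', ho', he', hj'⟩ := (hz Ψ₁ ha ho he).exists_arc hcv hZ' hF h.irr
  refine ⟨Ψ,
    { fl := h.fl
      tu := h.tu
      tz := h.tz
      eq := h.eq
      arc := by rw [h.eq]; exact ha'
      oi := by rw [h.eq]; exact ho'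
      ext := fun l x hx => by rw [he' l x (hC hx), he l x hx]
      jet_u := fun l hl => ?_
      fin_u := ⟨n₁ + 1, fun l hl => ?_⟩
      jet_z := fun l hl => ?_
      fin_z := ⟨n₂ + 1, fun l hl => ?_⟩
      le0 := hN₀
      denR := hd1
      ju0 := fun l hl => ?_
      jz0 := fun l hl => ?_ }⟩
  · rw [he' l u hu1]
    obtain ⟨f, hf, h1⟩ := mem_adn_singleton (hju l hl)
    exact ⟨f, fun i => hN₀ (hf i), h1⟩
  · rw [he' l u hu1, hj l (by omega), if_neg (by omega)]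
  · rw [hj' l hl]
    split_ifs
    · exact hZ'.zmem l
    · exact zero_mem _
  · rw [hj' l (by omega), if_neg (by omega)]
  · rw [he' l u hu1]
    exact mem_adn_singleton (hju l hl)
  · rw [hj' l hl]
    split_ifs
    · exact hZp' l
    · exact zero_mem _

/-! ### Amounts -/

section near

variable {p : ℕ} [hp : Fact p.Prime] [CharP Ω p] {N₀ N K : IntermediateField k Ω} {Ψ : ℕ → Ω → Ω}
  {σ : ℝ} {x : Ω} {m : ℕ} {T : Fin m → Ω} {H : Fin m → Polynomial Ω}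

/-- **Amounts**, from one polynomial which is nearly constant. -/
theorem amt_of_near [IsAlgClosed Ω] (hΨ : HSd K Ψ) (hN₀ : N₀ = IntermediateField.adjoin k {x})
    (hNK : N₀ ≤ K) (hcon : ∀ a ∈ N₀, ∀ l : ℕ, l ≠ 0 → Ψ l a = 0) {i₀ : Fin m} (hT0 : T i₀ = x)
    (hTK : ∀ i, T i ∈ K) (hH : ∀ i l, (H i).coeff l = Ψ l (T i)) {F : MvPolynomial (Fin m) N₀}
    {R lam : ℝ} (hlam : 0 < lam)
    (hU : ∀ l : ℕ, l ≠ 0 → v.Ge (R - l * (σ - lam)) (Ψ l (MvPolynomial.aeval T F)))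
    (hfar : ∀ θ : Ω, IsAlgebraic N₀ θ → MvPolynomial.aeval T F ≠ θ ∧
      v (MvPolynomial.aeval T F - θ) ≤ R)
    (hdense : ∀ a b : ℝ, a < b → ∃ c ∈ adj N₀ (MvPolynomial.aeval T F), c ≠ 0 ∧ a < v c ∧ v c < b)
    (e : ℕ) (Λ : ℝ) :
    ∃ σ₀ : ℝ, σ₀ < σ ∧ ∀ a b : ℝ, σ₀ ≤ a → a < b → b ≤ σ →
      ∃ P Q : MvPolynomial (Fin m) k, ∃ d : Ω,
        MvPolynomial.aeval T P ≠ 0 ∧ MvPolynomial.aeval T Q ≠ 0 ∧
        d = (MvPolynomial.aeval T P / MvPolynomial.aeval T Q) ^ p ^ e ∧ a < v d ∧ v d < b ∧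
        v.Ge Λ (d - (MvPolynomial.aeval (mv H d) P / MvPolynomial.aeval (mv H d) Q) ^ p ^ e) := by
  classical
  have hp0 : (0 : ℝ) < (p : ℝ) ^ e := pow_pos (by exact_mod_cast hp.out.pos) e
  have hxN₀ : x ∈ N₀ := by
    rw [hN₀]
    exact IntermediateField.mem_adjoin_simple_self k x
  obtain ⟨U, hUd⟩ : ∃ U, U = MvPolynomial.aeval T F := ⟨_, rfl⟩
  rw [← hUd] at hU hfar hdense
  obtain ⟨β, hβ⟩ : ∃ β, β = lam / 2 := ⟨_, rfl⟩
  have hβ0 : 0 < β := by rw [hβ]; positivity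
  obtain ⟨s', hs'⟩ := exists_amt (p := p) (N := N₀) (U := U) (R := R) (g := lam - β)
    (by rw [hβ]; linarith) hfar hdense ((σ - β) / p ^ e) (Λ / p ^ e)
  refine ⟨σ - β, by linarith, fun a b ha hab hb => ?_⟩
  obtain ⟨f, hf, q, hq, hf0, hq0, h1, h2, h3⟩ := hs' (a / p ^ e) (b / p ^ e)
    (div_le_div_of_nonneg_right ha hp0.le) (div_lt_div_of_pos_right hab hp0)
  obtain ⟨f₀, hf₀⟩ := exists_lift hf
  obtain ⟨q₀, hq₀⟩ := exists_lift hq
  obtain ⟨Pf, qf, hqf, hPf⟩ := exists_clear hN₀ (aeval F f₀) i₀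
  obtain ⟨Pq, qq, hqq, hPq⟩ := exists_clear hN₀ (aeval F q₀) i₀
  have hX : ∀ (q : Polynomial k) (T' : Fin m → Ω), T' i₀ = x →
      MvPolynomial.aeval T' (aeval (MvPolynomial.X i₀ : MvPolynomial (Fin m) k) q) =
        aeval x q := by
    intro q T' hT'
    rw [← Polynomial.aeval_algHom_apply, MvPolynomial.aeval_X, hT']
  have key : ∀ T' : Fin m → Ω, T' i₀ = x →
      MvPolynomial.aeval T' ((Pf * aeval (MvPolynomial.X i₀ : MvPolynomial (Fin m) k) qq) ^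
        p ^ s') /
        MvPolynomial.aeval T' ((Pq * aeval (MvPolynomial.X i₀ : MvPolynomial (Fin m) k) qf) ^
          p ^ s') =
      (f.eval (MvPolynomial.aeval T' F) / q.eval (MvPolynomial.aeval T' F)) ^ p ^ s' := by
    intro T' hT'
    rw [map_pow, map_pow, map_mul, map_mul, hX qq T' hT', hX qf T' hT', ← hPf T' hT', ← hPq T' hT',
      aeval_lift hf₀, aeval_lift hq₀, ← div_pow]
    congr 1
    by_cases hq1 : q.eval (MvPolynomial.aeval T' F) = 0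
    · rw [hq1, zero_mul, zero_mul, div_zero, div_zero]
    · field_simp
  have hkT := key T hT0
  rw [← hUd] at hkT
  obtain ⟨c, hc⟩ : ∃ c, c = (f.eval U / q.eval U) ^ p ^ s' := ⟨_, rfl⟩
  rw [← hc] at hkT h1 h2 h3
  have hc0 : c ≠ 0 := by
    rw [hc]
    exact pow_ne_zero _ (div_ne_zero hf0 hq0)
  have hvc : v (c ^ p ^ e) = p ^ e * v c := by
    rw [v.map_pow hc0]
    push_cast
    ring
  have hne : MvPolynomial.aeval T ((Pf * aeval (MvPolynomial.X i₀ : MvPolynomial (Fin m) k) qq) ^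
      p ^ s') ≠ 0 ∧ MvPolynomial.aeval T ((Pq * aeval (MvPolynomial.X i₀ :
        MvPolynomial (Fin m) k) qf) ^ p ^ s') ≠ 0 := by
    constructor
    · intro h5
      rw [h5, zero_div] at hkT
      exact hc0 hkT.symm
    · intro h5
      rw [h5, div_zero] at hkT
      exact hc0 hkT.symm
  refine ⟨_, _, c ^ p ^ e, hne.1, hne.2, by rw [hkT], ?_, ?_, ?_⟩
  · rw [hvc]
    rw [div_lt_iff₀ hp0] at h1
    linarith
  · rw [hvc]
    rw [lt_div_iff₀ hp0] at h2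
    linarith
  · have hd : v.Ge (σ - β) (c ^ p ^ e) := fun _ => by
      rw [hvc]
      rw [div_lt_iff₀ hp0] at h1
      linarith
    have hm0 : mv H (c ^ p ^ e) i₀ = x := by
      unfold mv
      have h5 : H i₀ = C x := by
        ext l
        rw [hH, hT0, coeff_C]
        split_ifs with hl
        · rw [hl, hΨ.c0 x (hNK hxN₀)]
        · exact hcon x hxN₀ l hl
      rw [h5, eval_C]
    rw [key (mv H (c ^ p ^ e)) hm0]
    have h5 := near_of_jets (N := N₀) (L := K) (Φ := Ψ) (t := T) (H := H) hΨ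
      hNK hcon hTK hH (P := F)
      (R := R) (lam := lam) (β := β) (by rw [hβ]; linarith) (by rw [← hUd]; exact hU) hd
    rw [← hUd] at h5
    have h6 := h3 _ h5
    rw [← sub_pow_char_pow]
    refine (ge_pow (ge_sub_comm h6) (p ^ e)).mono ?_
    push_cast
    rw [mul_div_cancel₀ _ hp0.ne']

omit [CharP Ω p] hp in
/-- A nearly constant element may be replaced by a near element with finitely many jets. -/
theorem near_ring (hΨ : HSd K Ψ) (hnorm : ∀ l : ℕ, ∀ x ∈ K, ∀ b : ℝ, v.Ge b x →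
      v.Ge (b - l * σ) (Ψ l x)) {U U' : Ω} (hUK : U ∈ K) (hUK' : U' ∈ K) {R lam : ℝ}
    (hlam : 0 < lam) (hU : ∀ l : ℕ, l ≠ 0 → v.Ge (R - l * (σ - lam)) (Ψ l U))
    (h1 : v.Ge (R + 1) (U - U')) {M : ℕ} (hM : ∀ l : ℕ, M < l → Ψ l U' = 0) :
    ∃ lam' : ℝ, 0 < lam' ∧ ∀ l : ℕ, l ≠ 0 → v.Ge (R - l * (σ - lam')) (Ψ l U') := by
  refine ⟨min lam (1 / (M + 1)), lt_min hlam (by positivity), fun l hl => ?_⟩
  by_cases hlM : M < l
  · rw [hM l hlM]
    exact RVal.Ge.zero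
  · have h2 : Ψ l U' = Ψ l U - Ψ l (U - U') := by
      rw [← hΨ.sub l hUK (sub_mem hUK hUK')]
      congr 1
      ring
    have hl0 : (0 : ℝ) ≤ l := Nat.cast_nonneg l
    have h3 : (l : ℝ) ≤ M := by exact_mod_cast not_lt.1 hlM
    rw [h2]
    refine ((hU l hl).mono ?_).sub ((hnorm l _ (sub_mem hUK hUK') _ h1).mono ?_)
    · have := mul_le_mul_of_nonneg_left (min_le_left lam (1 / ((M : ℝ) + 1))) hl0
      nlinarith
    · have h4 := mul_le_mul_of_nonneg_left (min_le_right lam (1 / ((M : ℝ) + 1))) hl0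
      have h5 : (l : ℝ) * (1 / (M + 1)) ≤ 1 := by
        rw [mul_one_div, div_le_one (by positivity)]
        linarith
      nlinarith

/-- **Crossing.** -/
theorem cross_of_near (hΨ : HSd K Ψ) (hnorm : ∀ l : ℕ, ∀ x ∈ K, ∀ b : ℝ, v.Ge b x →
      v.Ge (b - l * σ) (Ψ l x)) (hN₀ : N₀ = IntermediateField.adjoin k {x}) (hNK : N₀ ≤ K)
    (hcon : ∀ a ∈ N₀, ∀ l : ℕ, l ≠ 0 → Ψ l a = 0) {y : Ω} (hy : y ∈ K) {i₀ i₁ : Fin m}
    (hT0 : T i₀ = x) (hT1 : T i₁ = y) (hTK : ∀ i, T i ∈ K)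
    (hH : ∀ i l, (H i).coeff l = Ψ l (T i)) {t : ℕ} {c : Ω} (hc : Ψ (p ^ t) y = c) (hc0 : c ≠ 0)
    (hcv : v c = σ - p ^ t * σ) (hNK' : N ≤ K) (hcon' : ∀ a ∈ N, ∀ l : ℕ, l ≠ 0 → Ψ l a = 0)
    (hlim : ∀ δ : ℝ, 0 < δ → ∃ j : ℕ, ∃ n ∈ N, v.Ge (p ^ j * (σ - δ)) (y ^ p ^ j - n))
    (hring : ∀ n ∈ N, ∀ b : ℝ, ∃ c ∈ Adn N₀ {y}, v.Ge b (n - c)) {ρ : ℝ} (hρ : ρ < σ) :
    ∃ (P : MvPolynomial (Fin m) k) (l : ℕ), l ≠ 0 ∧ (MvPolynomial.aeval H P).coeff l ≠ 0 ∧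
      Gt v (v ((MvPolynomial.aeval H P).coeff l) + l * ρ) ((MvPolynomial.aeval H P).coeff 0) := by
  classical
  have hp0 := hp.out.pos
  have hp1 : (1 : ℝ) ≤ p := by exact_mod_cast hp.out.one_lt.le
  obtain ⟨j, n, hn, h1⟩ := hlim ((σ - ρ) / 2) (by linarith)
  obtain ⟨n', hn', h2⟩ := hring n hn (max (p ^ j * (σ - (σ - ρ) / 2)) (p ^ j * σ + 1))
  have hpj : (0 : ℝ) < (p : ℝ) ^ j := pow_pos (by exact_mod_cast hp0) j
  -- lifting
  obtain ⟨F, hF⟩ : ∃ F : MvPolynomial (Fin m) N₀, MvPolynomial.aeval T F = n' := by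
    obtain ⟨g, hg, rfl⟩ := mem_adn_singleton hn'
    obtain ⟨g₀, hg₀⟩ := exists_lift hg
    refine ⟨aeval (MvPolynomial.X i₁ : MvPolynomial (Fin m) N₀) g₀, ?_⟩
    rw [aeval_lift hg₀, MvPolynomial.aeval_X, hT1]
  have hFK := (coeff_aeval_H hΨ hNK hcon hTK hH F)
  rw [hF] at hFK
  obtain ⟨P, q, hq, hPq⟩ := exists_clear hN₀ (MvPolynomial.X i₁ ^ p ^ j - F) i₀
  have hPT := hPq T hT0
  rw [map_sub, map_pow, MvPolynomial.aeval_X, hF, hT1] at hPT
  have hbot := coeff_aeval_H (N := (⊥ : IntermediateField k Ω)) hΨ bot_le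
    (fun c hc l hl => by
      obtain ⟨c', rfl⟩ := IntermediateField.mem_bot.1 hc
      exact hcon _ (N₀.algebraMap_mem c') l hl) hTK hH
    (MvPolynomial.map (algebraMap k (⊥ : IntermediateField k Ω)) P)
  rw [MvPolynomial.aeval_map_algebraMap, MvPolynomial.aeval_map_algebraMap] at hbot
  have hqN : aeval x q ∈ N₀ := by
    rw [hN₀]
    exact IntermediateField.algebra_adjoin_le_adjoin k ({x} : Set Ω)
      (Polynomial.aeval_mem_adjoin_singleton k x)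
  have hfK : y ^ p ^ j - n' ∈ K := sub_mem (pow_mem hy _) hFK.1
  have hcoeff : ∀ l, (MvPolynomial.aeval H P).coeff l = aeval x q * Ψ l (y ^ p ^ j - n') := by
    intro l
    rw [hbot.2 l, ← hPT, mul_comm (y ^ p ^ j - n'),
      hsd_smul hΨ (hNK hqN) hfK (fun l hl => hcon _ hqN l hl)]
  -- the coefficient of index `p ^ (t + j)`
  have hl : Ψ (p ^ (t + j)) (y ^ p ^ j - n') = c ^ p ^ j + Ψ (p ^ (t + j)) (n - n') := by
    rw [hΨ.sub _ (pow_mem hy _) hFK.1, hΨ.sub _ (hNK' hn) hFK.1,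
      hcon' n hn _ (pow_pos hp0 _).ne', pow_add, mul_comm (p ^ t), hΨ.pow_mul p hy j (p ^ t), hc]
    ring
  have hv1 : v (c ^ p ^ j) = p ^ j * (σ - p ^ t * σ) := by
    rw [v.map_pow hc0, hcv]
    push_cast
    ring
  have h3 : Gt v (v (c ^ p ^ j)) (c ^ p ^ j - Ψ (p ^ (t + j)) (y ^ p ^ j - n')) := by
    rw [hl, hv1, show c ^ p ^ j - (c ^ p ^ j + Ψ (p ^ (t + j)) (n - n')) =
      -Ψ (p ^ (t + j)) (n - n') by ring]
    refine Gt.neg (Gt.of_ge (hnorm _ _ (sub_mem (hNK' hn) hFK.1) _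
      (h2.mono (le_max_right _ _))) ?_)
    push_cast
    rw [pow_add]
    nlinarith
  obtain ⟨h4, h5⟩ := Gt.val_eq (pow_ne_zero _ hc0) h3
  have hl0 : (MvPolynomial.aeval H P).coeff (p ^ (t + j)) ≠ 0 := by
    rw [hcoeff]
    exact mul_ne_zero hq h4
  refine ⟨P, p ^ (t + j), (pow_pos hp0 _).ne', hl0, ?_⟩
  rw [hcoeff, hcoeff, v.map_mul hq h4, h5, hv1, hΨ.c0 _ hfK]
  have h6 : v.Ge (p ^ j * (σ - (σ - ρ) / 2)) (y ^ p ^ j - n') := by
    rw [show y ^ p ^ j - n' = (y ^ p ^ j - n) + (n - n') by ring]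
    exact h1.add (h2.mono (le_max_left _ _))
  refine Gt.of_ge ((RVal.ge_self (v := v) (aeval x q)).mul h6) ?_
  push_cast
  rw [pow_add]
  have h7 : (1 : ℝ) ≤ (p : ℝ) ^ t := one_le_pow₀ hp1
  have h8 : 0 < (p : ℝ) ^ j * ((p : ℝ) ^ t * (σ - ρ) - (σ - ρ) / 2) :=
    mul_pos hpj (by nlinarith)
  nlinarith

end near

end Pool.Agent.TWEX
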