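import Pool.Agent.Lib.TWEX.Wi2
import Pool.Agent.Lib.TWMF.E0

/-!
# TANK W, exit over an infinite `W`, 3: the exit data of `KArcR`
-/

set_option autoImplicit false

open Polynomial Finset

namespace Pool.Agent.TWEX

open Pool.Agent.H15JM (RVal)
open Pool.Agent.LU1 (VPos adj)
open Pool.Agent.D2 (Ctx0)
open Pool.Agent.D2P (clI mem_clI mem_adj_iff mem_adj_self)
open Pool.Agent.TWM
open Pool.Agent.TWII (PG LP)
open Pool.Agent.TWLM (HSd Oi Arc)
open Pool.Agent.TWN1 (Set0)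
open Pool.Agent.TWMF (XD XW ED Tri mv)
open Pool.Agent.TW (Ctx kr)

universe u'

variable {k Ω : Type u'} [Field k] [Field Ω] [Algebra k Ω] {v : RVal Ω}

/-- Elements of `N₀[S]` as values of polynomials over `N₀`. -/
theorem exists_lift_adn {N₀ : IntermediateField k Ω} {m : ℕ} {T : Fin m → Ω} {S : Set Ω}
    (hS : ∀ a ∈ S, ∃ i, T i = a) {c : Ω} (hc : c ∈ Adn N₀ S) :
    ∃ F : MvPolynomial (Fin m) N₀, MvPolynomial.aeval T F = c := by
  induction hc using Algebra.adjoin_induction with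
  | mem a ha =>
    obtain ⟨i, rfl⟩ := hS a ha
    exact ⟨MvPolynomial.X i, MvPolynomial.aeval_X _ _⟩
  | algebraMap c => exact ⟨MvPolynomial.C c, MvPolynomial.aeval_C _ _⟩
  | add a b _ _ ha hb =>
    obtain ⟨F, rfl⟩ := ha
    obtain ⟨G, rfl⟩ := hb
    exact ⟨F + G, map_add _ _ _⟩
  | mul a b _ _ ha hb =>
    obtain ⟨F, rfl⟩ := ha
    obtain ⟨G, rfl⟩ := hb
    exact ⟨F * G, map_mul _ _ _⟩

section karc

variable {p : ℕ} {N₀ N K : IntermediateField k Ω} {D Ψ : ℕ → Ω → Ω} {x y u z : Ω} {σ r s : ℝ}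
  (h : KArcR p v N₀ N y σ D K u z r s Ψ)
include h

theorem KArcR.cle : cadj v N y ≤ K := by
  rw [h.eq]
  exact (le_cadj v _ u).trans (le_cadj v _ z)

theorem KArcR.nle : N ≤ K := (le_cadj v N y).trans h.cle

theorem KArcR.ymem : y ∈ K := h.cle (self_mem_cadj v N y)

theorem KArcR.umem : u ∈ K := by
  rw [h.eq]
  exact le_cadj v _ z (self_mem_cadj v _ u)

theorem KArcR.zmem : z ∈ K := by
  rw [h.eq]
  exact self_mem_cadj v _ z

theorem KArcR.cld : Cld v K := by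
  rw [h.eq]
  exact cld_cadj v _ z

theorem KArcR.const {x : Ω} (hx : x ∈ N) {l : ℕ} (hl : l ≠ 0) : Ψ l x = 0 := by
  rw [h.ext l x (le_cadj v N y hx)]
  exact h.fl.const hx hl

theorem KArcR.norm (l : ℕ) {x : Ω} (hx : x ∈ K) {b : ℝ} (hb : v.Ge b x) :
    v.Ge (b - l * σ) (Ψ l x) := by
  by_cases hl : l = 0
  · rw [hl, h.arc.c0 x hx]
    exact hb.mono (by simp)
  · obtain ⟨n, hn, h1⟩ := h.arc.str l hl
    exact (h1 x hx b hb).mono (by linarith)

/-- The jets of `u`. -/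
theorem KArcR.set0 : ∃ κ : ℕ → ℝ, Set0 v (cadj v N y) D u
    (PowerSeries.mk fun n => if n = 0 then 0 else Ψ n u) κ r σ := by
  have h1 : ∀ n : ℕ, ∃ κ : ℝ, 0 < κ ∧ (n ≠ 0 → ∀ x ∈ K, ∀ b : ℝ, v.Ge b x →
      v.Ge (b - n * σ + κ) (Ψ n x)) := by
    intro n
    by_cases hn : n = 0
    · exact ⟨1, one_pos, fun h => absurd hn h⟩
    · obtain ⟨m, hm, h2⟩ := h.arc.str n hn
      exact ⟨n * σ - m, by linarith, fun _ x hx b hb => (h2 x hx b hb).mono (by linarith)⟩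
  choose κ hκ hstr using h1
  refine ⟨κ,
    { hsd := h.fl.hsd
      oi := h.fl.oi
      tl := h.tu
      z0 := by rw [PowerSeries.coeff_mk, if_pos rfl]
      zmem := fun n => ?_
      kpos := hκ
      str := fun n hn x hx b hb => ?_
      near := fun n hn d hd b hb => ?_ }⟩
  · rw [PowerSeries.coeff_mk]
    split_ifs with hn
    · exact zero_mem _
    · obtain ⟨f, hf, h2⟩ := h.jet_u n hn
      rw [h2]
      exact TWLM.eval_mem_cadj hf
  · rw [← h.ext n x hx]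
    exact hstr n hn x (h.cle hx) b hb
  · rw [PowerSeries.coeff_mk, if_neg hn, ← h.ext n d hd, ← h.arc.sub n h.umem (h.cle hd)]
    refine (hstr n hn _ (sub_mem h.umem (h.cle hd)) b hb).mono ?_
    linarith [min_le_left (b + κ n) (r + κ n / 2)]

/-- `N₀[y, u]` is dense. -/
theorem KArcR.dense2 [IsAlgClosed Ω] :
    ∀ a ∈ cadj v (cadj v N y) u, ∀ b : ℝ, ∃ c ∈ Adn N₀ {y, u}, v.Ge b (a - c) := by
  intro a ha b
  obtain ⟨f, hf, h1⟩ := h.tu.dense ha b
  obtain ⟨g, hg, h2⟩ := approx_poly h.denR u hf b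
  refine ⟨g.eval u, eval_mem_adn (Set.mem_insert_of_mem _ (Set.mem_singleton u)) fun i =>
    Algebra.adjoin_mono (Set.singleton_subset_iff.2 (Set.mem_insert _ _)) (hg i), ?_⟩
  have e : a - g.eval u = (a - f.eval u) + (f.eval u - g.eval u) := by ring
  rw [e]
  exact h1.add h2

/-- **Amounts.** -/
theorem KArcR.amt [IsAlgClosed Ω] [hp : Fact p.Prime] [CharP Ω p] (h0 : Ctx0 k v)
    (hcv : CompleteV v) (hcN : Cld v N) (hN₀ : N₀ = IntermediateField.adjoin k {x}) (hx0 : x ≠ 0)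
    (hxv : v x ≠ 0) {H : Fin 4 → Polynomial Ω}
    (hH : ∀ i l, (H i).coeff l = Ψ l ((![x, y, u, z] : Fin 4 → Ω) i)) (e : ℕ) (Λ : ℝ) :
    ∃ σ₀ : ℝ, σ₀ < σ ∧ ∀ a b : ℝ, σ₀ ≤ a → a < b → b ≤ σ →
      ∃ P Q : MvPolynomial (Fin 4) k, ∃ d : Ω,
        MvPolynomial.aeval (![x, y, u, z] : Fin 4 → Ω) P ≠ 0 ∧
        MvPolynomial.aeval (![x, y, u, z] : Fin 4 → Ω) Q ≠ 0 ∧
        d = (MvPolynomial.aeval (![x, y, u, z] : Fin 4 → Ω) P /
          MvPolynomial.aeval (![x, y, u, z] : Fin 4 → Ω) Q) ^ p ^ e ∧ a < v d ∧ v d < b ∧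
        v.Ge Λ (d - (MvPolynomial.aeval (mv H d) P / MvPolynomial.aeval (mv H d) Q) ^ p ^ e) := by
  classical
  obtain ⟨T, hT⟩ : ∃ T : Fin 4 → Ω, T = ![x, y, u, z] := ⟨_, rfl⟩
  rw [← hT] at hH ⊢
  have hT0 : T 0 = x := by rw [hT]; rfl
  have hT1 : T 1 = y := by rw [hT]; rfl
  have hT2 : T 2 = u := by rw [hT]; rfl
  have hT3 : T 3 = z := by rw [hT]; rfl
  have hxN₀ : x ∈ N₀ := by
    rw [hN₀]
    exact IntermediateField.mem_adjoin_simple_self k x
  have hxN : x ∈ N := h.le0 hxN₀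
  have hTK : ∀ i, T i ∈ K := by
    intro i
    fin_cases i
    · exact hT0 ▸ h.nle hxN
    · exact hT1 ▸ h.ymem
    · exact hT2 ▸ h.umem
    · exact hT3 ▸ h.zmem
  -- the visible jets
  obtain ⟨l₀, hl₀⟩ := h.fin_u
  obtain ⟨κ, hZ⟩ := h.set0
  obtain ⟨Z, hZd⟩ : ∃ Z : PowerSeries Ω, Z = PowerSeries.mk fun n => if n = 0 then 0 else Ψ n u :=
    ⟨_, rfl⟩
  rw [← hZd] at hZ
  have hZc : ∀ n, n ≠ 0 → PowerSeries.coeff n Z = Ψ n u := fun n hn => by
    rw [hZd, PowerSeries.coeff_mk, if_neg hn]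
  have hZ0 : PowerSeries.coeff 0 Z = 0 := hZ.z0
  have hvis : ∀ l, l ≠ 0 → Ψ l u = vis Z l₀ l := by
    intro l hl
    unfold vis
    split_ifs with h1
    · exact hl₀ l (by omega)
    · exact (hZc l hl).symm
  have hZp : ∀ n, ∃ f ∈ PI N, PowerSeries.coeff n Z = f.eval y := by
    intro n
    by_cases hn : n = 0
    · exact ⟨0, zero_mem _, by rw [hn, hZ0, eval_zero]⟩
    · obtain ⟨f, hf, h1⟩ := h.jet_u n hn
      exact ⟨f, hf, by rw [hZc n hn, h1]⟩
  obtain ⟨j, n, lam, hn, hlam, hfar, hjets⟩ := exists_near₀ h.fl le_rfl h.fl.lim hZ hZp (l₀ := l₀)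
    (fun n hn => by
      rw [hZc n (by omega), hl₀ n hn]
      exact Gt.zero)
  obtain ⟨hUΨ, -⟩ := hjets K Ψ h.cle h.umem h.cld h.arc.toHSd (fun l x hx b hb => h.norm l hx hb)
    h.ext hvis
  -- the element
  obtain ⟨U, hU⟩ : ∃ U, U = Ust p Z l₀ j n y u := ⟨_, rfl⟩
  rw [← hU] at hfar hUΨ
  have hFK : cadj v (cadj v N y) u ≤ K := by
    rw [h.eq]
    exact le_cadj v _ z
  have hUF : U ∈ cadj v (cadj v N y) u := by
    have h1 := le_cadj v (cadj v N y) u
    have h2 := self_mem_cadj v (cadj v N y) u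
    rw [hU]
    refine add_mem (pow_mem h2 _) (sum_mem fun l _ => mul_mem (pow_mem (h1 ?_) _)
      (pow_mem (sub_mem (h1 (le_cadj v N y hn)) (pow_mem (h1 (self_mem_cadj v N y)) _)) _))
    unfold vis
    split_ifs
    exacts [zero_mem _, hZ.zmem l]
  obtain ⟨U', hU'm, hUU'⟩ := h.dense2 U hUF (p ^ j * r + 1)
  obtain ⟨F, hF⟩ := exists_lift_adn (T := T) (S := {y, u}) (by
    rintro a (rfl | ha)
    · exact ⟨1, hT1⟩
    · rw [Set.mem_singleton_iff.1 ha]
      exact ⟨2, hT2⟩) hU'm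
  have hco := coeff_aeval_H h.arc.toHSd (h.le0.trans h.nle)
    (fun a ha l hl => h.const (h.le0 ha) hl) hTK hH F
  rw [hF] at hco
  obtain ⟨lam', hlam', hU'Ψ⟩ := near_ring h.arc.toHSd (fun l x hx b hb => h.norm l hx hb)
    (hFK hUF) hco.1 hlam hUΨ hUU' (M := (MvPolynomial.aeval H F).natDegree) (fun l hl => by
      rw [← hco.2]
      exact coeff_eq_zero_of_natDegree_lt hl)
  have hfar' : ∀ θ : Ω, IsAlgebraic N θ → U' ≠ θ ∧ v (U' - θ) ≤ p ^ j * r := by
    intro θ hθ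
    obtain ⟨h1, h2⟩ := hfar θ hθ
    have h3 : Gt v (v (U - θ)) ((U - θ) - (U' - θ)) := by
      rw [show (U - θ) - (U' - θ) = U - U' by ring]
      exact Gt.of_ge hUU' (by linarith)
    obtain ⟨h4, h5⟩ := Gt.val_eq (sub_ne_zero.2 h1) h3
    exact ⟨sub_ne_zero.1 h4, by rw [h5]; exact h2.le⟩
  have hcN₀ : clI v N₀ ≤ N := clI_le hcN h.le0
  have hle : cadj v (clI v N₀) U' ≤ clI v (adj N₀ U') :=
    cadj_le (cld_clI v _) (clI_mono (mem_adj_self N₀ U').2) (le_clI _ (mem_adj_self N₀ U').1)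
  have hdense : ∀ a b : ℝ, a < b → ∃ c ∈ adj N₀ U', c ≠ 0 ∧ a < v c ∧ v c < b := by
    intro a b hab
    obtain ⟨c, hc, hc0, h1, h2⟩ := dense_values h0 hcv (cld_clI v N₀)
      (le_cadj v (clI v N₀) U') (le_clI _ hxN₀) hx0 hxv (self_mem_cadj v _ U')
      (fun h3 => (hfar' U' (D2P.isAlgebraic_mono hcN₀ h3)).1 rfl) hab
    obtain ⟨c', hc', h3⟩ := mem_clI.1 (hle hc) (v c + 1)
    obtain ⟨h4, h5⟩ := Gt.val_eq hc0 (Gt.of_ge h3 (by linarith))
    exact ⟨c', hc', h4, by rw [h5]; exact h1, by rw [h5]; exact h2⟩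
  refine amt_of_near h.arc.toHSd hN₀ (h.le0.trans h.nle)
    (fun a ha l hl => h.const (h.le0 ha) hl) hT0 hTK hH (F := F) (R := p ^ j * r) hlam'
    (by rw [hF]; exact hU'Ψ) (fun θ hθ => ?_) (by rw [hF]; exact hdense) e Λ
  rw [hF]
  exact hfar' θ (D2P.isAlgebraic_mono h.le0 hθ)

/-- **Crossing.** -/
theorem KArcR.cross [hp : Fact p.Prime] [CharP Ω p] (hN₀ : N₀ = IntermediateField.adjoin k {x})
    {H : Fin 4 → Polynomial Ω} (hH : ∀ i l, (H i).coeff l = Ψ l ((![x, y, u, z] : Fin 4 → Ω) i))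
    {ρ : ℝ} (hρ : ρ < σ) : ∃ (P : MvPolynomial (Fin 4) k) (l : ℕ), l ≠ 0 ∧
      (MvPolynomial.aeval H P).coeff l ≠ 0 ∧
      Gt v (v ((MvPolynomial.aeval H P).coeff l) + l * ρ) ((MvPolynomial.aeval H P).coeff 0) := by
  have hxN₀ : x ∈ N₀ := by
    rw [hN₀]
    exact IntermediateField.mem_adjoin_simple_self k x
  refine cross_of_near h.arc.toHSd (fun l x hx b hb => h.norm l hx hb) hN₀ (h.le0.trans h.nle)
    (fun a ha l hl => h.const (h.le0 ha) hl) h.ymem (T := ![x, y, u, z]) (i₀ := 0) (i₁ := 1) rfl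
    rfl (fun i => ?_) hH (t := 0) (c := 1) ?_ one_ne_zero (by rw [v.map_one]; simp) h.nle
    (fun a ha l hl => h.const ha hl) h.fl.lim
    (fun n hn b => h.denR n (le_cadj v N y hn) b) hρ
  · fin_cases i
    · exact h.nle (h.le0 hxN₀)
    · exact h.ymem
    · exact h.umem
    · exact h.zmem
  · rw [pow_zero, h.ext 1 y (self_mem_cadj v N y), h.fl.coord_one]

/-- **The exit data**, amounts `p ^ e`-th powers. -/
theorem KArcR.exists_xw [IsAlgClosed Ω] [hp : Fact p.Prime] [CharP Ω p] (h0 : Ctx0 k v)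
    (hcv : CompleteV v) (hcN : Cld v N) (hN₀ : N₀ = IntermediateField.adjoin k {x}) (hx0 : x ≠ 0)
    (hxv : v x ≠ 0) (hind : AlgebraicIndependent k (![x, y, u, z] : Fin 4 → Ω)) :
    ∃ H : Fin 4 → Polynomial Ω, (∀ i l, (H i).coeff l = Ψ l ((![x, y, u, z] : Fin 4 → Ω) i)) ∧
      ∀ e : ℕ, XW k (p ^ e) v (![x, y, u, z] : Fin 4 → Ω) H σ := by
  classical
  obtain ⟨T, hT⟩ : ∃ T : Fin 4 → Ω, T = ![x, y, u, z] := ⟨_, rfl⟩
  have hT0 : T 0 = x := by rw [hT]; rfl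
  have hT1 : T 1 = y := by rw [hT]; rfl
  have hT2 : T 2 = u := by rw [hT]; rfl
  have hT3 : T 3 = z := by rw [hT]; rfl
  have hxN₀ : x ∈ N₀ := by
    rw [hN₀]
    exact IntermediateField.mem_adjoin_simple_self k x
  have hxN : x ∈ N := h.le0 hxN₀
  have hyC := self_mem_cadj v N y
  have hTK : ∀ i, T i ∈ K := by
    intro i
    fin_cases i
    · exact hT0 ▸ h.nle hxN
    · exact hT1 ▸ h.ymem
    · exact hT2 ▸ h.umem
    · exact hT3 ▸ h.zmem
  -- the degree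
  obtain ⟨M, hM⟩ : ∃ M : ℕ, ∀ i l, M < l → Ψ l (T i) = 0 := by
    obtain ⟨M₁, h1⟩ := h.fin_u
    obtain ⟨M₂, h2⟩ := h.fin_z
    refine ⟨M₁ + M₂ + 1, fun i l hl => ?_⟩
    fin_cases i
    · change Ψ l (T 0) = 0
      rw [hT0]
      exact h.const hxN (by omega)
    · change Ψ l (T 1) = 0
      rw [hT1, h.ext l y hyC]
      exact h.fl.coord_two (by omega)
    · change Ψ l (T 2) = 0
      rw [hT2]
      exact h1 l (by omega)
    · change Ψ l (T 3) = 0
      rw [hT3]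
      exact h2 l (by omega)
  set H : Fin 4 → Polynomial Ω := fun i => ∑ l ∈ range (M + 1), monomial l (Ψ l (T i)) with hHd
  have hH : ∀ i l, (H i).coeff l = Ψ l (T i) := by
    intro i l
    rw [hHd]
    simp only [finsetSum_coeff, coeff_monomial]
    rw [sum_ite_eq' (range (M + 1)) l]
    split_ifs with hl
    · rfl
    · exact (hM i l (by simpa using hl)).symm
  have hH' := hH
  rw [hT] at hH'
  refine ⟨H, hH', fun e => ?_⟩
  rw [← hT] at hind ⊢
  refine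
    { ind := hind
      c0 := fun i => by rw [hH, h.arc.c0 _ (hTK i)]
      tri := fun i l hl => tri_of_mem ?_
      str := fun P hP l hl => ?_
      amt := fun Λ => ?_
      cross := ⟨σ - 1, by linarith, fun ρ _ hρ => ?_⟩ }
  · -- triangular
    have hle : ∀ i : Fin 4, 0 < i → N₀ ≤ IntermediateField.adjoin k (T '' {j | j < i}) := by
      intro i hi
      rw [hN₀, IntermediateField.adjoin_simple_le_iff]
      exact IntermediateField.subset_adjoin k _ ⟨0, hi, hT0⟩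
    rw [hH]
    fin_cases i
    · change Ψ l (T 0) ∈ _
      rw [hT0, h.const hxN hl]
      exact zero_mem _
    · change Ψ l (T 1) ∈ _
      rw [hT1, h.ext l y hyC]
      by_cases hl1 : l = 1
      · rw [hl1, h.fl.coord_one]
        exact one_mem _
      · rw [h.fl.coord_two (by omega)]
        exact zero_mem _
    · change Ψ l (T 2) ∈ _
      rw [hT2]
      obtain ⟨f, hf, h1⟩ := h.ju0 l hl
      rw [h1, eval_eq_sum_range]
      refine sum_mem fun i _ => mul_mem (hle 2 (by decide) (hf i)) (pow_mem ?_ i)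
      exact IntermediateField.subset_adjoin k _ ⟨1, by decide, hT1⟩
    · change Ψ l (T 3) ∈ _
      rw [hT3]
      have h1 := h.jz0 l hl
      generalize Ψ l z = a at h1
      induction h1 using Algebra.adjoin_induction with
      | mem a ha =>
        rcases ha with rfl | ha
        · exact IntermediateField.subset_adjoin k _ ⟨1, by decide, hT1⟩
        · rw [Set.mem_singleton_iff.1 ha]
          exact IntermediateField.subset_adjoin k _ ⟨2, by decide, hT2⟩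
      | algebraMap c => exact hle 3 (by decide) c.2
      | add a b _ _ ha hb => exact add_mem ha hb
      | mul a b _ _ ha hb => exact mul_mem ha hb
  · -- strict jets
    have h1 := str_of_arc (N := (⊥ : IntermediateField k Ω)) (L := K) (Φ := Ψ) (t := T) (H := H)
      (σ := σ) h.arc bot_le (fun a ha l hl => by
        obtain ⟨c, rfl⟩ := IntermediateField.mem_bot.1 ha
        exact h.arc.con l hl c) hTK hH
      (MvPolynomial.map (algebraMap k (⊥ : IntermediateField k Ω)) P) hl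
    rwa [MvPolynomial.aeval_map_algebraMap, MvPolynomial.aeval_map_algebraMap] at h1
  · have h1 := h.amt h0 hcv hcN hN₀ hx0 hxv hH' e Λ
    rw [← hT] at h1
    exact h1
  · exact h.cross hN₀ hH' hρ

end karc

end Pool.Agent.TWEX
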