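import Pool.Agent.Lib.TWEX.Wi3
import Pool.Agent.Lib.TWEX.Sec3
import Pool.Agent.Lib.TWMF.E3

/-!
# TANK W, exit over an infinite `W`, 4: assembly

`mobQ0_wi`: the completion contains a tower `N ∋ x`, `y` strict over `N`, `N` any closed field such that
`N(y)` is the closure of `k(x, y)`, two floors `u`, `z` above, `σ` irrational: the critical step is
henselian rational or has motions.
-/

set_option autoImplicit false

open Polynomial Finset

namespace Pool.Agent.TWEX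

open Pool.Agent.H15JM (RVal)
open Pool.Agent.LU1 (VPos adj)
open Pool.Agent.D2 (Ctx0)
open Pool.Agent.D2P (hen clI mem_clI)
open Pool.Agent.TWM
open Pool.Agent.TWII (PG LP)
open Pool.Agent.TWLM (HSd Oi Arc)
open Pool.Agent.TWMF (XW EV Ptw ptw_of_arc ev_of_xw_iso motE_of_ev)
open Pool.Agent.TWS (IsoE)
open Pool.Agent.TWS7 (STow PDiv Unhit FGc MotE alt_of mobQ0_of_mot dich_shape)
open Pool.Agent.TW (Ctx Full BD HRone LU Mot kr)

universe u'

variable {k Ω Ω' : Type u'} [Field k] [Field Ω] [Algebra k Ω] [Field Ω'] [Algebra k Ω']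
  {v : RVal Ω} {w : RVal Ω'} {ι : Ω →ₐ[k] Ω'}

/-- `N(y)` is the closure of `k(x, y)`. -/
theorem cadj_eq_of_le {N : IntermediateField k Ω'} {x y : Ω'} (hx : x ∈ N)
    (hC : cadj w N y ≤ clI w (IntermediateField.adjoin k {x, y})) :
    cadj w N y = clI w (IntermediateField.adjoin k {x, y}) := by
  refine le_antisymm hC (clI_le (cld_cadj w N y) ?_)
  rw [IntermediateField.adjoin_le_iff]
  rintro _ (rfl | hb)
  · exact le_cadj w N y hx
  · rw [Set.mem_singleton_iff.1 hb]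
    exact self_mem_cadj w N y

/-- **(EV) of a tower over an infinite `W`.** -/
theorem ev_of_karcR [IsAlgClosed k] [IsAlgClosed Ω] [IsAlgClosed Ω'] (p : ℕ) [hp : Fact p.Prime]
    [CharP k p] [CharP Ω p] (h : Ctx k v 1) (h' : Ctx k w 1) (hcw : CompleteV w) (hd : IsoE v w ι)
    {K₀ : IntermediateField k Ω} (hK : K₀.FG) (hΩ : ∀ g : Ω, IsAlgebraic K₀ g)
    (htr : Algebra.trdeg k K₀ = (4 : ℕ)) (hBD : BD p v K₀) {N : IntermediateField k Ω'}
    {x y u z : Ω'} {σ r s : ℝ} {D Ψ : ℕ → Ω' → Ω'}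
    (hA : KArcR p w (IntermediateField.adjoin k {x}) N y σ D (clI w (K₀.map ι)) u z r s Ψ)
    (hcN : Cld w N) (hx0 : x ≠ 0) (hxv : w x ≠ 0)
    (hcl : clI w (K₀.map ι) = clI w (kr k (![x, y, u, z] : Fin 4 → Ω')))
    (hind : AlgebraicIndependent k (![x, y, u, z] : Fin 4 → Ω')) :
    EV p v w ι K₀ Ψ σ := by
  have : CharP Ω' p := charP_of_injective_algebraMap (algebraMap k Ω').injective p
  obtain ⟨H, hH, hX⟩ := hA.exists_xw h'.toCtx0 hcw hcN rfl hx0 hxv hind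
  exact ev_of_xw_iso h h'.toCtx0 hcw hd hK hΩ htr hBD hcl hX hA.arc.toHSd (ptw_of_arc hA.arc)
    hA.oi hH

/-- A tower in the completion, whose first floor `y` over a closed field `N ∋ x` is strict, `N(y)` the
closure of `k(x, y)`. -/
def STw (p : ℕ) (v : RVal Ω) (K₀ : IntermediateField k Ω) : Prop :=
  ∃ (Ω' : Type u') (_ : Field Ω') (_ : Algebra k Ω') (ι : Ω →ₐ[k] Ω') (w : RVal Ω')
    (_ : IsAlgClosed Ω'), CompleteV w ∧ Dense v w ι ∧
      ∃ (N : IntermediateField k Ω') (x y : Ω') (σ : ℝ) (D : ℕ → Ω' → Ω') (u : Ω') (ρ : ℝ) (z : Ω')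
        (s : ℝ), x ≠ 0 ∧ w x ≠ 0 ∧ x ∈ N ∧
        cadj w N y ≤ clI w (IntermediateField.adjoin k {x, y}) ∧
        STow p w N y σ D u ρ z s (clI w (K₀.map ι))

/-- **Strict first floor over any `N`**: unhit, or motions with a small effect. -/
theorem unhit_or_motE_wi [IsAlgClosed k] [IsAlgClosed Ω] [IsAlgClosed Ω'] (p : ℕ)
    [hp : Fact p.Prime] [CharP k p] [CharP Ω p] (h : Ctx k v 1) (hcw : CompleteV w)
    (hd : Dense v w ι) {K₀ : IntermediateField k Ω} (hK : K₀.FG) (hΩ : ∀ g : Ω, IsAlgebraic K₀ g)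
    (htr : Algebra.trdeg k K₀ = (4 : ℕ)) (hBD : BD p v K₀) {N : IntermediateField k Ω'}
    {x y u z : Ω'} {σ ρ s ν : ℝ} {D : ℕ → Ω' → Ω'} (hx0 : x ≠ 0) (hxv : w x ≠ 0) (hx : x ∈ N)
    (hC : cadj w N y ≤ clI w (IntermediateField.adjoin k {x, y}))
    (hS : STow p w N y σ D u ρ z s (clI w (K₀.map ι))) {a : Ω} (ha : a ∈ K₀)
    (hlim : LP p w (clI w (K₀.map ι)) ν (ι a)) :
    Unhit p w 3 (clI w (K₀.map ι)) ν (ι a) ∨ MotE p v K₀ ν a := by
  have : CharP Ω' p := Dense.charP ι p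
  have h' : Ctx k w 1 := Dense.ctx hd h
  have ham : ι a ∈ clI w (K₀.map ι) := le_clI _ (Dense.apply_mem_map.2 ha)
  have hCe := cadj_eq_of_le hx hC
  have hN₀ : IntermediateField.adjoin k {x} ≤ N := by
    rw [IntermediateField.adjoin_simple_le_iff]
    exact hx
  rcases dich_shape p hcw hS ham hlim with h1 | ⟨u', z', ρ', s', hS', hu, hz⟩
  · exact Or.inl h1
  right
  obtain ⟨Ψ, hA⟩ := exists_karcR (N₀ := IntermediateField.adjoin k {x}) hcw hN₀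
    (fun a ha b => adn_dense h' hx0 hxv a (hC ha) b) hS'.sdat hu hz
  have hcl : clI w (K₀.map ι) = clI w (kr k (![x, y, u', z'] : Fin 4 → Ω')) := by
    rw [← cl_tower_mid, ← hCe]
    exact hS'.eq
  obtain ⟨-, -, -, -, hind, -⟩ := exists_pull h.toCtx0 hcw hd hK (by exact_mod_cast htr) hBD hcl 1
  have hEV := ev_of_karcR p h h' hcw ⟨hd.val⟩ hK hΩ (by exact_mod_cast htr) hBD hA hS.cN hx0 hxv hcl hind
  refine motE_of_ev h ⟨hd.val⟩ hEV (D2P.le_hen _ ha) (hA.arc.c0 _ ham) fun l hl => ?_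
  obtain ⟨g, hg, -, h1⟩ := null_jets p hA.arc ham hlim hl
  exact ⟨g, hg, h1⟩

/-- **II.2**: leaf (II), first floor strict over a closed field `N`, `σ` irrational. -/
theorem mobQ0_wi [IsAlgClosed k] [IsAlgClosed Ω] (p : ℕ) [Fact p.Prime] [CharP k p]
    [CharP Ω p] (h : Ctx k v 1) {K₀ : IntermediateField k Ω} (hK : K₀.FG)
    (hΩ : ∀ g : Ω, IsAlgebraic K₀ g) (htr : Algebra.trdeg k K₀ = (4 : ℕ)) (hBDK : BD p v K₀)
    (hgr : PDiv p v K₀) {g : Ω} (hg : g ∉ K₀) (hgp : g ^ p ∈ K₀) (hBD : BD p v (adj K₀ g))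
    (hst : STw p v K₀) :
    HRone v (adj K₀ g) ∨
      ∃ (φ : ℕ → (Ω ≃ₐ[k] Ω)) (δ : ℕ → Ω) (ρ : ℝ), Mot v K₀ φ δ ρ ∧
        ∀ i, ∃ c ∈ hen v K₀, ∃ b ∈ hen v K₀, c ≠ 0 ∧ φ i (g ^ p) = c ^ p * g ^ p + b ^ p := by
  obtain ⟨Ω', iF, iA, ι, w, iC, hcw, hd, N, x, y, σ, D, u, ρ, z, s, hx0, hxv, hx, hC, hS⟩ := hst
  rcases alt_of p h hcw hd hK (TWM.full_of_all hΩ) htr hBDK hg hgp hBD (fun ν h1 _ =>
    unhit_or_motE_wi p h hcw hd hK hΩ htr hBDK hx0 hxv hx hC hS hgp h1) with h1 | ⟨ν, h1, -, h3⟩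
  · exact Or.inl h1
  · exact Or.inr (mobQ0_of_mot p h hK hΩ hBDK hgr hgp h1 h3)

end Pool.Agent.TWEX
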